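/-
MP_1882ea_al, helper68.  PA1: numbers of partitions with bounded parts, generating function at a
complex number of modulus < 1.
-/
import Mathlib

namespace ZT68

open Finset PowerSeries

/-- number of partitions of `n` -/
def pp (n : ℕ) : ℕ := Fintype.card (Nat.Partition n)

/-- number of partitions of `n` with all parts `≤ K` -/
def pK (K n : ℕ) : ℕ := (Nat.Partition.restricted n (· ≤ K)).card

theorem pK_eq_pp {K n : ℕ} (h : n ≤ K) : pK K n = pp n := by
  unfold pK pp
  rw [← Finset.card_univ]
  congr 1
  ext p
  simp only [Nat.Partition.restricted, Finset.mem_filter, Finset.mem_univ, true_and, iff_true]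
  intro i hi
  exact (Nat.Partition.le_of_mem_parts hi).trans h

theorem pK_zero (n : ℕ) : pK 0 n = if n = 0 then 1 else 0 := by
  unfold pK
  split_ifs with h
  · subst h
    rw [Finset.card_eq_one]
    refine ⟨default, ?_⟩
    ext p
    simp only [Nat.Partition.restricted, Finset.mem_filter, Finset.mem_univ, true_and,
      Finset.mem_singleton]
    constructor
    · intro _; exact Subsingleton.elim _ _
    · intro _ i hi
      exact Nat.Partition.le_of_mem_parts hi
  · rw [Finset.card_eq_zero]
    rw [Finset.eq_empty_iff_forall_notMem]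
    intro p hp
    simp only [Nat.Partition.restricted, Finset.mem_filter, Finset.mem_univ, true_and] at hp
    apply h
    have h0 : p.parts = 0 := by
      rw [Multiset.eq_zero_iff_forall_notMem]
      intro i hi
      have h1 := hp i hi
      have h2 := p.parts_pos hi
      omega
    have := p.parts_sum
    rw [h0] at this
    simpa using this.symm

theorem pK_succ (K n : ℕ) :
    pK (K + 1) n = pK K n + (if K + 1 ≤ n then pK (K + 1) (n - (K + 1)) else 0) := by
  classical
  unfold pK
  have hsplit : Nat.Partition.restricted n (· ≤ K + 1) =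
      Nat.Partition.restricted n (· ≤ K) ∪
        (Nat.Partition.restricted n (· ≤ K + 1)).filter (fun p => K + 1 ∈ p.parts) := by
    ext p
    simp only [Nat.Partition.restricted, Finset.mem_filter, Finset.mem_univ, true_and,
      Finset.mem_union]
    constructor
    · intro h
      by_cases hk : K + 1 ∈ p.parts
      · exact Or.inr ⟨h, hk⟩
      · left
        intro i hi
        have := h i hi
        rcases Nat.lt_or_ge i (K + 1) with h1 | h1
        · omega
        · have : i = K + 1 := by omega
          subst this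
          exact absurd hi hk
    · rintro (h | h)
      · intro i hi
        have := h i hi
        omega
      · exact h.1
  have hdisj : Disjoint (Nat.Partition.restricted n (· ≤ K))
      ((Nat.Partition.restricted n (· ≤ K + 1)).filter (fun p => K + 1 ∈ p.parts)) := by
    rw [Finset.disjoint_left]
    intro p hp hq
    simp only [Nat.Partition.restricted, Finset.mem_filter, Finset.mem_univ, true_and] at hp hq
    have := hp _ hq.2
    omega
  rw [hsplit, Finset.card_union_of_disjoint hdisj]
  congr 1
  split_ifs with h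
  · have ha : 1 ≤ K + 1 := by omega
    refine Finset.card_bij'
      (i := fun p hp => Nat.Partition.partitionWithPartEquiv ha h ⟨p, by
        simp only [Finset.mem_filter] at hp; exact hp.2⟩)
      (j := fun q _ => ((Nat.Partition.partitionWithPartEquiv ha h).symm q).1) ?_ ?_ ?_ ?_
    · intro p hp
      simp only [Nat.Partition.restricted, Finset.mem_filter, Finset.mem_univ, true_and] at hp ⊢
      intro i hi
      rw [Nat.Partition.partitionWithPartEquiv_apply_parts] at hi
      exact hp.1 i (Multiset.mem_of_mem_erase hi)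
    · intro q hq
      simp only [Nat.Partition.restricted, Finset.mem_filter, Finset.mem_univ, true_and] at hq ⊢
      refine ⟨?_, ((Nat.Partition.partitionWithPartEquiv ha h).symm q).2⟩
      intro i hi
      rw [Nat.Partition.partitionWithPartEquiv_symm_apply_parts] at hi
      rcases Multiset.mem_cons.1 hi with hi | hi
      · omega
      · exact hq i hi
    · intro p hp
      simp
    · intro q hq
      simp
  · rw [Finset.card_eq_zero, Finset.filter_eq_empty_iff]
    intro p _ hp
    exact h (Nat.Partition.le_of_mem_parts hp)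

/-- the power series `f` converges absolutely at `z` and has the value `v` -/
def Ev (f : PowerSeries ℂ) (z v : ℂ) : Prop :=
  Summable (fun n => ‖coeff n f * z ^ n‖) ∧ ∑' n, coeff n f * z ^ n = v

theorem ev_mul_aux (a b : ℕ → ℂ) (ha : Summable (fun n => ‖a n‖)) (hb : Summable (fun n => ‖b n‖)) :
    Summable (fun n => ‖∑ kl ∈ Finset.HasAntidiagonal.antidiagonal n, a kl.1 * b kl.2‖) ∧
    ∑' n, ∑ kl ∈ Finset.HasAntidiagonal.antidiagonal n, a kl.1 * b kl.2 = (∑' n, a n) * ∑' n, b n :=
  ⟨summable_norm_sum_mul_antidiagonal_of_summable_norm ha hb,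
    (tsum_mul_tsum_eq_tsum_sum_antidiagonal_of_summable_norm ha hb).symm⟩

theorem Ev.mul {f g : PowerSeries ℂ} {z v w : ℂ} (hf : Ev f z v) (hg : Ev g z w) :
    Ev (f * g) z (v * w) := by
  have key : ∀ n, coeff n (f * g) * z ^ n =
      ∑ kl ∈ Finset.HasAntidiagonal.antidiagonal n,
        (coeff kl.1 f * z ^ kl.1) * (coeff kl.2 g * z ^ kl.2) := by
    intro n
    rw [coeff_mul, Finset.sum_mul]
    refine Finset.sum_congr rfl ?_
    intro kl hkl
    rw [← Finset.HasAntidiagonal.mem_antidiagonal.1 hkl, pow_add]
    ring
  obtain ⟨h1, h2⟩ := ev_mul_aux (fun k => coeff k f * z ^ k) (fun k => coeff k g * z ^ k) hf.1 hg.1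
  constructor
  · simp_rw [key]
    exact h1
  · simp_rw [key]
    rw [h2, hf.2, hg.2]

theorem ev_one (z : ℂ) : Ev 1 z 1 := by
  have key : ∀ n, coeff n (1 : PowerSeries ℂ) * z ^ n = if n = 0 then 1 else 0 := by
    intro n
    rw [coeff_one]
    split_ifs with h
    · simp [h]
    · simp
  constructor
  · simp_rw [key]
    refine summable_of_ne_finset_zero (s := {0}) ?_
    intro n hn
    have : n ≠ 0 := by simpa using hn
    simp [this]
  · simp_rw [key]
    simp

/-- `1 + X^k + X^(2k) + ...` -/
noncomputable def geo (k : ℕ) : PowerSeries ℂ := PowerSeries.mk (fun n => if k ∣ n then (1 : ℂ) else 0)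

theorem geo_mul {k : ℕ} (hk : 0 < k) : geo k * (1 - X ^ k) = 1 := by
  ext n
  rw [mul_sub, mul_one, map_sub, mul_comm (geo k) (X ^ k), coeff_X_pow_mul', coeff_one]
  simp only [geo, coeff_mk]
  by_cases h : k ≤ n
  · have hn : n ≠ 0 := by omega
    simp only [h, if_true, hn, if_false]
    have : k ∣ n ↔ k ∣ n - k := by
      constructor
      · intro hd; exact Nat.dvd_sub hd (dvd_refl k)
      · intro hd
        have := (Nat.dvd_add_iff_left (dvd_refl k)).1 hd
        rwa [Nat.sub_add_cancel h] at this
    by_cases hd : k ∣ n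
    · rw [if_pos hd, if_pos (this.1 hd), sub_self]
    · rw [if_neg hd, if_neg (fun hh => hd (this.2 hh)), sub_self]
  · simp only [h, if_false, sub_zero]
    by_cases hn : n = 0
    · simp [hn]
    · have : ¬ k ∣ n := fun hd => h (Nat.le_of_dvd (Nat.pos_of_ne_zero hn) hd)
      simp [hn, this]

theorem ev_geo {k : ℕ} (hk : 0 < k) {z : ℂ} (hz : ‖z‖ < 1) : Ev (geo k) z (1 - z ^ k)⁻¹ := by
  have hs : Summable (fun n => ‖coeff n (geo k) * z ^ n‖) := by
    refine Summable.of_nonneg_of_le (fun n => norm_nonneg _) ?_
      (summable_geometric_of_lt_one (norm_nonneg z) hz)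
    intro n
    rw [norm_mul, norm_pow]
    have : ‖coeff n (geo k)‖ ≤ 1 := by
      simp only [geo, coeff_mk]
      split_ifs <;> simp
    calc ‖coeff n (geo k)‖ * ‖z‖ ^ n ≤ 1 * ‖z‖ ^ n := by gcongr
      _ = _ := one_mul _
  have h1 : Ev (1 - X ^ k) z (1 - z ^ k) := by
    have key : ∀ n, coeff n (1 - X ^ k : PowerSeries ℂ) * z ^ n =
        (if n = 0 then 1 else 0) - (if n = k then z ^ k else 0) := by
      intro n
      rw [map_sub, coeff_one, coeff_X_pow, sub_mul]
      congr 1
      · split_ifs with h
        · simp [h]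
        · simp
      · split_ifs with h
        · simp [h]
        · simp
    constructor
    · simp_rw [key]
      refine summable_of_ne_finset_zero (s := {0, k}) ?_
      intro n hn
      simp only [Finset.mem_insert, Finset.mem_singleton, not_or] at hn
      simp [hn.1, hn.2]
    · simp_rw [key]
      rw [Summable.tsum_sub]
      · simp
      · exact summable_of_ne_finset_zero (s := {0}) (by intro n hn; have : n ≠ 0 := by simpa using hn
                                                        simp [this])
      · exact summable_of_ne_finset_zero (s := {k}) (by intro n hn; have : n ≠ k := by simpa using hn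
                                                        simp [this])
  have h2 : Ev (geo k) z (∑' n, coeff n (geo k) * z ^ n) := ⟨hs, rfl⟩
  have h3 := h2.mul h1
  rw [geo_mul hk] at h3
  have h4 : (∑' n, coeff n (geo k) * z ^ n) * (1 - z ^ k) = 1 := by
    rw [← h3.2, (ev_one z).2]
  refine ⟨hs, ?_⟩
  exact eq_inv_of_mul_eq_one_left h4

theorem mk_pK_succ (K : ℕ) :
    (PowerSeries.mk (fun n => (pK (K + 1) n : ℂ))) =
      PowerSeries.mk (fun n => (pK K n : ℂ)) * geo (K + 1) := by
  have h1 : (PowerSeries.mk (fun n => (pK (K + 1) n : ℂ))) * (1 - X ^ (K + 1)) =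
      PowerSeries.mk (fun n => (pK K n : ℂ)) := by
    ext n
    rw [mul_sub, mul_one, map_sub, mul_comm _ (X ^ (K + 1)), coeff_X_pow_mul']
    simp only [coeff_mk]
    rw [pK_succ K n]
    split_ifs with h
    · push_cast; ring
    · push_cast; ring
  rw [← h1, mul_assoc, mul_comm (1 - X ^ (K + 1)) (geo (K + 1)), geo_mul (by omega), mul_one]

theorem ev_pK (K : ℕ) {z : ℂ} (hz : ‖z‖ < 1) :
    Ev (PowerSeries.mk (fun n => (pK K n : ℂ))) z (∏ k ∈ range K, (1 - z ^ (k + 1))⁻¹) := by
  induction K with
  | zero =>
    have : (PowerSeries.mk (fun n => (pK 0 n : ℂ))) = 1 := by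
      ext n
      rw [coeff_mk, pK_zero, coeff_one]
      split_ifs <;> simp
    rw [this]
    simpa using ev_one z
  | succ K ih =>
    rw [mk_pK_succ, Finset.prod_range_succ]
    exact ih.mul (ev_geo (by omega) hz)

theorem pK_summable (K : ℕ) {r : ℝ} (h0 : 0 ≤ r) (h1 : r < 1) :
    Summable (fun m => (pK K m : ℝ) * r ^ m) := by
  have := (ev_pK K (z := (r : ℂ)) (by rw [Complex.norm_real, Real.norm_of_nonneg h0]; exact h1)).1
  refine this.congr ?_
  intro m
  rw [coeff_mk, norm_mul, norm_pow, Complex.norm_real, Real.norm_of_nonneg h0, Complex.norm_natCast]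

/-- the coefficient formula -/
theorem pK_integral (K N : ℕ) {r : ℝ} (h0 : 0 < r) (h1 : r < 1) :
    (2 * Real.pi : ℂ) * (pK K N * (r : ℂ) ^ N) =
      ∫ θ in (-Real.pi)..Real.pi,
        (∏ k ∈ range K, (1 - ((r : ℂ) * Complex.exp (θ * Complex.I)) ^ (k + 1))⁻¹) *
          Complex.exp (-(N * θ * Complex.I)) := by
  -- the terms
  set f : ℕ → C(ℝ, ℂ) := fun m =>
    ⟨fun θ => (pK K m : ℂ) * (r : ℂ) ^ m * Complex.exp (((m : ℂ) - N) * θ * Complex.I), by fun_prop⟩
    with hf
  have hsum : Summable fun m =>
      ‖(f m).restrict (⟨Set.uIcc (-Real.pi) Real.pi, isCompact_uIcc⟩ :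
        TopologicalSpace.Compacts ℝ)‖ := by
    refine Summable.of_nonneg_of_le (fun _ => norm_nonneg _) ?_ (pK_summable K h0.le h1)
    intro m
    rw [ContinuousMap.norm_le _ (by positivity)]
    intro x
    simp only [hf, ContinuousMap.restrict_apply, ContinuousMap.coe_mk]
    rw [norm_mul, norm_mul, norm_pow, Complex.norm_real, Real.norm_of_nonneg h0.le,
      Complex.norm_natCast]
    have : ((m : ℂ) - N) * ((x : ℝ) : ℂ) * Complex.I = (((m : ℝ) - N) * (x : ℝ) : ℝ) * Complex.I := by
      push_cast; ring
    rw [this, Complex.norm_exp_ofReal_mul_I, mul_one]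
  have hI := intervalIntegral.hasSum_intervalIntegral_of_summable_norm hsum
  -- value of each integral
  have hval : ∀ m, (∫ θ in (-Real.pi)..Real.pi, f m θ) =
      if m = N then (2 * Real.pi : ℂ) * (pK K N * (r : ℂ) ^ N) else 0 := by
    intro m
    simp only [hf, ContinuousMap.coe_mk]
    split_ifs with h
    · subst h
      simp only [sub_self, zero_mul, Complex.exp_zero, mul_one]
      rw [intervalIntegral.integral_const]
      simp only [sub_neg_eq_add]
      rw [Complex.real_smul]
      push_cast
      ring
    · rw [intervalIntegral.integral_const_mul]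
      have hne : (((m : ℂ) - N) * Complex.I) ≠ 0 := by
        refine mul_ne_zero ?_ Complex.I_ne_zero
        rw [sub_ne_zero]
        exact_mod_cast h
      have : ∀ θ : ℝ, Complex.exp (((m : ℂ) - N) * θ * Complex.I) =
          Complex.exp ((((m : ℂ) - N) * Complex.I) * θ) := by
        intro θ; congr 1; ring
      simp_rw [this]
      rw [integral_exp_mul_complex hne]
      have e1 : Complex.exp ((((m : ℂ) - N) * Complex.I) * (Real.pi : ℝ)) =
          Complex.exp ((((m : ℂ) - N) * Complex.I) * ((-Real.pi : ℝ) : ℂ)) := by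
        rw [Complex.exp_eq_exp_iff_exists_int]
        refine ⟨(m : ℤ) - N, ?_⟩
        push_cast
        ring
      rw [e1]
      simp
  simp_rw [hval] at hI
  have h2 := hI.tsum_eq
  rw [tsum_ite_eq] at h2
  rw [h2]
  refine intervalIntegral.integral_congr ?_
  intro θ _
  simp only [hf, ContinuousMap.coe_mk]
  have hz : ‖(r : ℂ) * Complex.exp (θ * Complex.I)‖ < 1 := by
    rw [norm_mul, Complex.norm_exp_ofReal_mul_I, Complex.norm_real, Real.norm_of_nonneg h0.le,
      mul_one]
    exact h1
  rw [← (ev_pK K hz).2, ← tsum_mul_right]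
  refine tsum_congr ?_
  intro m
  have e : Complex.exp (((m : ℂ) - N) * θ * Complex.I) =
      Complex.exp (m * (θ * Complex.I)) * Complex.exp (-(N * θ * Complex.I)) := by
    rw [← Complex.exp_add]
    congr 1
    ring
  rw [coeff_mk, mul_pow, ← Complex.exp_nat_mul, e]
  ring

end ZT68
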