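/-
MP_1882ea_al (zeros of the character table of the symmetric group), helper68.
Bead moves on an abstract set of integers: a hook of length r of the set S is an element x of S
with x - r not in S; removing it is the move x -> x - r.  If a short chain of removals does not exist,
then some hook length is missing already in S, or two of the lengths are rare in S.
-/
import Mathlib

namespace ZT68

open Finset

/-- the hooks of length `r` of the bead set `S`, given by their beads -/
def Hk (S : Set ℤ) (r : ℕ) : Set ℤ := {x | x ∈ S ∧ x - (r : ℤ) ∉ S}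

/-- move the bead `x` down by `r` -/
def mv (S : Set ℤ) (x : ℤ) (r : ℕ) : Set ℤ := insert (x - (r : ℤ)) (S \ {x})

/-- the hooks with lengths `rs` (in this order) can be removed one after the other -/
def Chain : Set ℤ → List ℕ → Prop
  | _, [] => True
  | S, r :: rs => ∃ x ∈ Hk S r, Chain (mv S x r) rs

/-- `Run S rs S'` : a chain of removals with lengths `rs` leads from `S` to `S'` -/
def Run : Set ℤ → List ℕ → Set ℤ → Prop
  | S, [], S' => S' = S
  | S, r :: rs, S' => ∃ x ∈ Hk S r, Run (mv S x r) rs S'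

theorem chain_iff_run {S : Set ℤ} {rs : List ℕ} : Chain S rs ↔ ∃ S', Run S rs S' := by
  induction rs generalizing S with
  | nil => simp [Chain, Run]
  | cons r rs ih =>
    simp only [Chain, Run]
    constructor
    · rintro ⟨x, hx, h⟩
      obtain ⟨S', h'⟩ := ih.1 h
      exact ⟨S', x, hx, h'⟩
    · rintro ⟨S', x, hx, h⟩
      exact ⟨x, hx, ih.2 ⟨S', h⟩⟩

theorem run_append {S S' S'' : Set ℤ} {rs rs' : List ℕ} (h : Run S rs S') (h' : Run S' rs' S'') :
    Run S (rs ++ rs') S'' := by
  induction rs generalizing S with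
  | nil =>
    have : S' = S := h
    subst this
    exact h'
  | cons r rs ih =>
    obtain ⟨x, hx, h⟩ := h
    exact ⟨x, hx, ih h⟩

theorem run_snoc {S S' : Set ℤ} {rs : List ℕ} {r : ℕ} {x : ℤ} (h : Run S rs S') (hx : x ∈ Hk S' r) :
    Run S (rs ++ [r]) (mv S' x r) :=
  run_append h ⟨x, hx, rfl⟩

/-- the difference of `S` and `S'` in both directions has at most `j` elements -/
def Near (S S' : Set ℤ) (j : ℕ) : Prop :=
  ∃ A B : Finset ℤ, A.card ≤ j ∧ B.card ≤ j ∧ S \ S' ⊆ A ∧ S' \ S ⊆ B

theorem near_refl (S : Set ℤ) : Near S S 0 :=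
  ⟨∅, ∅, by simp, by simp, by simp, by simp⟩

theorem near_mv {S S' : Set ℤ} {j : ℕ} (h : Near S S' j) (x : ℤ) (r : ℕ) :
    Near S (mv S' x r) (j + 1) := by
  obtain ⟨A, B, hA, hB, h1, h2⟩ := h
  refine ⟨insert x A, insert (x - (r : ℤ)) B, ?_, ?_, ?_, ?_⟩
  · exact (Finset.card_insert_le _ _).trans (by omega)
  · exact (Finset.card_insert_le _ _).trans (by omega)
  · intro y hy
    simp only [Set.mem_sdiff, mv, Set.mem_insert_iff, Set.mem_singleton_iff, not_or, not_and, not_not] at hy
    simp only [Finset.coe_insert, Set.mem_insert_iff]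
    by_cases hS : y ∈ S'
    · exact Or.inl (hy.2.2 hS)
    · exact Or.inr (h1 ⟨hy.1, hS⟩)
  · intro y hy
    simp only [Set.mem_sdiff, mv, Set.mem_insert_iff, Set.mem_singleton_iff] at hy
    simp only [Finset.coe_insert, Set.mem_insert_iff]
    rcases hy with ⟨h | h, h3⟩
    · exact Or.inl h
    · exact Or.inr (h2 ⟨h.1, h3⟩)

theorem near_trans_run {S S' S'' : Set ℤ} {rs : List ℕ} {j : ℕ} (h : Near S S' j)
    (h' : Run S' rs S'') : Near S S'' (j + rs.length) := by
  induction rs generalizing S' j with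
  | nil =>
    have : S'' = S' := h'
    subst this
    simpa using h
  | cons r rs ih =>
    obtain ⟨x, hx, h'⟩ := h'
    have := ih (near_mv h x r) h'
    have e : j + (r :: rs).length = j + 1 + rs.length := by simp; omega
    rwa [e]

/-- hooks of `S` that are lost in `S'` : at most `2 j` of them -/
theorem lost_le {S S' : Set ℤ} {j : ℕ} (h : Near S S' j) (r : ℕ) :
    ∃ L : Finset ℤ, L.card ≤ 2 * j ∧ ∀ x ∈ Hk S r, x ∉ L → x ∈ Hk S' r := by
  classical
  obtain ⟨A, B, hA, hB, h1, h2⟩ := h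
  refine ⟨A ∪ B.image (fun y => y + (r : ℤ)), ?_, ?_⟩
  · refine (Finset.card_union_le _ _).trans ?_
    have := Finset.card_image_le (s := B) (f := fun y => y + (r : ℤ))
    omega
  · intro x hx hL
    simp only [Finset.mem_union, Finset.mem_image, not_or, not_exists, not_and] at hL
    refine ⟨?_, ?_⟩
    · by_contra hc
      exact hL.1 (by simpa using h1 ⟨hx.1, hc⟩)
    · intro hc
      exact hL.2 (x - r) (by simpa using h2 ⟨hc, hx.2⟩) (by ring)

/-- if many hooks of every length of `rs` are there, all of `rs` can be removed without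
touching the bead `b` and the hole `b - t` -/
theorem run_avoid {S : Set ℤ} {b : ℤ} {t : ℕ} (hb : b ∈ Hk S t) (k : ℕ) (rs : List ℕ)
    (hlen : rs.length ≤ k)
    (hmany : ∀ r ∈ rs, ∀ L : Finset ℤ, L.card ≤ 2 * k → ∃ x ∈ Hk S r, x ∉ L) :
    ∃ S', Run S rs S' ∧ b ∈ Hk S' t := by
  classical
  -- stronger statement by induction, starting anywhere near S
  suffices H : ∀ (rs : List ℕ) (j : ℕ) (S' : Set ℤ), j + rs.length ≤ k → Near S S' j → b ∈ Hk S' t →
      (∀ r ∈ rs, ∀ L : Finset ℤ, L.card ≤ 2 * k → ∃ x ∈ Hk S r, x ∉ L) →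
      ∃ S'', Run S' rs S'' ∧ b ∈ Hk S'' t from
    H rs 0 S (by omega) (near_refl S) hb hmany
  intro rs
  induction rs with
  | nil =>
    intro j S' _ _ hb' _
    exact ⟨S', rfl, hb'⟩
  | cons r rs ih =>
    intro j S' hj hn hb' hm
    have hlen' : j + (rs.length + 1) ≤ k := by simpa using hj
    obtain ⟨L, hLc, hL⟩ := lost_le hn r
    obtain ⟨x, hx, hxL⟩ := hm r (by simp) (L ∪ {b, b - (t : ℤ) + r}) (by
      refine (Finset.card_union_le _ _).trans ?_
      have : ({b, b - (t : ℤ) + r} : Finset ℤ).card ≤ 2 := Finset.card_le_two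
      omega)
    simp only [Finset.mem_union, Finset.mem_insert, Finset.mem_singleton, not_or] at hxL
    have hx' : x ∈ Hk S' r := hL x hx hxL.1
    have hb'' : b ∈ Hk (mv S' x r) t := by
      refine ⟨?_, ?_⟩
      · simp only [mv, Set.mem_insert_iff, Set.mem_sdiff, Set.mem_singleton_iff]
        exact Or.inr ⟨hb'.1, fun h => hxL.2.1 h.symm⟩
      · simp only [mv, Set.mem_insert_iff, Set.mem_sdiff, Set.mem_singleton_iff, not_or, not_and]
        refine ⟨fun h => hxL.2.2 (by linarith), fun h => absurd h hb'.2⟩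
    obtain ⟨S'', hr, hb3⟩ := ih (j + 1) (mv S' x r) (by omega) (near_mv hn x r) hb''
      (fun r' hr' => hm r' (by simp [hr']))
    exact ⟨S'', ⟨x, hx', hr⟩, hb3⟩

/-- few hooks: all hooks of length `r` lie in a set with at most `m` elements -/
def Few (S : Set ℤ) (r m : ℕ) : Prop := ∃ L : Finset ℤ, L.card ≤ m ∧ Hk S r ⊆ L

theorem few_iff {S : Set ℤ} {r m : ℕ} :
    Few S r m ↔ (Hk S r).Finite ∧ (Hk S r).ncard ≤ m := by
  constructor
  · rintro ⟨L, hL, h⟩
    have hf : (Hk S r).Finite := L.finite_toSet.subset h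
    refine ⟨hf, ?_⟩
    calc (Hk S r).ncard ≤ (L : Set ℤ).ncard := Set.ncard_le_ncard h L.finite_toSet
      _ = L.card := Set.ncard_coe_finset L
      _ ≤ m := hL
  · rintro ⟨hf, h⟩
    refine ⟨hf.toFinset, ?_, by simp⟩
    rwa [← Set.ncard_eq_toFinset_card _ hf]

theorem not_few {S : Set ℤ} {r m : ℕ} (h : ¬ Few S r m) (L : Finset ℤ) (hL : L.card ≤ m) :
    ∃ x ∈ Hk S r, x ∉ L := by
  by_contra hc
  push Not at hc
  exact h ⟨L, hL, fun x hx => by simpa using hc x hx⟩

/-- THE LEMMA: a minimal stuck list `rs ++ [t]`. -/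
theorem stuck_last {S : Set ℤ} {rs : List ℕ} {t k : ℕ} (hlen : rs.length ≤ k)
    (hc : Chain S rs) (hs : ¬ Chain S (rs ++ [t])) :
    Hk S t = ∅ ∨ (Few S t (2 * k) ∧ ∃ r ∈ rs, Few S r (2 * k)) := by
  classical
  have hend : ∀ S', Run S rs S' → Hk S' t = ∅ := by
    intro S' hr
    by_contra hne
    obtain ⟨x, hx⟩ := Set.nonempty_iff_ne_empty.2 hne
    exact hs (chain_iff_run.2 ⟨_, run_snoc hr hx⟩)
  by_cases h0 : Hk S t = ∅
  · exact Or.inl h0
  right
  obtain ⟨b, hb⟩ := Set.nonempty_iff_ne_empty.2 h0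
  refine ⟨?_, ?_⟩
  · obtain ⟨S', hr⟩ := chain_iff_run.1 hc
    obtain ⟨L, hL, hL'⟩ := lost_le (near_trans_run (near_refl S) hr) t
    refine ⟨L, hL.trans (by omega), ?_⟩
    intro x hx
    by_contra hxL
    have := hL' x hx (by simpa using hxL)
    rw [hend S' hr] at this
    exact this
  · by_contra hno
    push Not at hno
    obtain ⟨S', hr, hb'⟩ := run_avoid hb k rs hlen (fun r hr L hL => not_few (hno r hr) L hL)
    rw [hend S' hr] at hb'
    exact hb'

theorem chain_prefix {S : Set ℤ} {rs rs' : List ℕ} (h : Chain S (rs ++ rs')) : Chain S rs := by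
  induction rs generalizing S with
  | nil => simp [Chain]
  | cons r rs ih =>
    obtain ⟨x, hx, h⟩ := h
    exact ⟨x, hx, ih h⟩

/-- a stuck list has a minimal stuck prefix -/
theorem stuck_prefix {S : Set ℤ} {rs : List ℕ} (h : ¬ Chain S rs) :
    ∃ (p : List ℕ) (t : ℕ) (q : List ℕ), rs = p ++ t :: q ∧ Chain S p ∧ ¬ Chain S (p ++ [t]) := by
  induction rs using List.reverseRecOn with
  | nil => simp [Chain] at h
  | append_singleton rs t ih =>
    by_cases hc : Chain S rs
    · exact ⟨rs, t, [], by simp, hc, h⟩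
    · obtain ⟨p, t', q, e, h1, h2⟩ := ih hc
      exact ⟨p, t', q ++ [t], by simp [e], h1, h2⟩

/-- If the lengths `rs`, at most `k` of them, taken from the parts `M` (with multiplicity), cannot be
removed in this order, then some part of `M` is no hook length of `S`, or there are two parts
`s ≤ t` in `M` (with multiplicity) and `S` has at most `2 k` hooks of length `s`. -/
theorem stuck_cases {S : Set ℤ} {rs : List ℕ} {M : Multiset ℕ} {k : ℕ} (hM : (rs : Multiset ℕ) ≤ M)
    (hlen : rs.length ≤ k) (hs : ¬ Chain S rs) :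
    (∃ t ∈ M, Hk S t = ∅) ∨
      ∃ s t : ℕ, s ≤ t ∧ ({s, t} : Multiset ℕ) ≤ M ∧ Few S s (2 * k) := by
  obtain ⟨p, t, q, e, h1, h2⟩ := stuck_prefix hs
  have hpk : p.length ≤ k := by
    have : rs.length = p.length + (q.length + 1) := by rw [e]; simp
    omega
  rcases stuck_last hpk h1 h2 with h | ⟨h, r, hr, h'⟩
  · left
    exact ⟨t, Multiset.mem_of_le hM (by rw [e]; simp), h⟩
  · right
    have hsub : ({r, t} : Multiset ℕ) ≤ M := by
      refine le_trans ?_ hM
      rw [e]
      obtain ⟨u, v, rfl⟩ := List.append_of_mem hr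
      have : ((u ++ r :: v) ++ t :: q : List ℕ).Perm (r :: t :: (u ++ v ++ q)) := by
        have h1 : ((u ++ r :: v) ++ t :: q : List ℕ).Perm (t :: ((u ++ r :: v) ++ q)) :=
          List.perm_middle
        have h2 : (u ++ r :: v : List ℕ).Perm (r :: (u ++ v)) := List.perm_middle
        refine h1.trans ?_
        refine ((h2.append_right q).cons t).trans ?_
        simp only [List.cons_append]
        exact List.Perm.swap _ _ _
      rw [Multiset.coe_eq_coe.2 this]
      show ({r, t} : Multiset ℕ) ≤ ((r :: t :: (u ++ v ++ q) : List ℕ) : Multiset ℕ)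
      rw [← Multiset.cons_coe, ← Multiset.cons_coe]
      show (r ::ₘ t ::ₘ 0 : Multiset ℕ) ≤ _
      exact Multiset.cons_le_cons _ (Multiset.cons_le_cons _ (Multiset.zero_le _))
    rcases le_total r t with hrt | hrt
    · exact ⟨r, t, hrt, hsub, h'⟩
    · refine ⟨t, r, hrt, ?_, h⟩
      rwa [Multiset.pair_comm]

end ZT68
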