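/-
MP_1882ea_al, helper68.  Definitions and the statements (Props) of all rows of the tank.
-/
import Mathlib
import Pool.Agent.Lib.ZT68.Stuck
import Pool.Agent.Lib.ZT68.PA1

namespace ZT68

open Finset

/-! ### Diagrams, hooks, removals -/

/-- hook length of the cell `(i, j)` of `Y` (0-based): arm + leg + 1 -/
def hookLen (Y : YoungDiagram) (i j : ℕ) : ℕ := (Y.rowLen i - j) + (Y.colLen j - i) - 1

/-- `Y` is a `t`-core: no hook length is divisible by `t` -/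
def IsCore (t : ℕ) (Y : YoungDiagram) : Prop := ∀ i j, (i, j) ∈ Y → ¬ t ∣ hookLen Y i j

/-- `Y'` arises from `Y` by removing the rim hook of some cell `(i, j)` of hook length `t`: the
cells `(a, b)` with `i ≤ a`, `j ≤ b` for which `(a + 1, b + 1)` is not in `Y` -/
def Removes (t : ℕ) (Y Y' : YoungDiagram) : Prop :=
  ∃ i j, (i, j) ∈ Y ∧ hookLen Y i j = t ∧
    ∀ a b, (a, b) ∈ Y' ↔ (a, b) ∈ Y ∧ ¬ (i ≤ a ∧ j ≤ b ∧ (a + 1, b + 1) ∉ Y)

/-- rim hooks of the lengths `ts`, in this order, can be removed one after the other -/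
def Removable : YoungDiagram → List ℕ → Prop
  | _, [] => True
  | Y, t :: ts => ∃ Y', Removes t Y Y' ∧ Removable Y' ts

/-- some list of at most `k` parts of `μ` (with multiplicity, in some order) is not removable -/
def Stuck (k : ℕ) (Y : YoungDiagram) {n : ℕ} (μ : n.Partition) : Prop :=
  ∃ ts : List ℕ, ts.length ≤ k ∧ (ts : Multiset ℕ) ≤ μ.parts ∧ ¬ Removable Y ts

/-- `Y` is a core for the largest part of `μ` -/
def TypeI (Y : YoungDiagram) {n : ℕ} (μ : n.Partition) : Prop :=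
  ∃ t ∈ μ.parts, (∀ s ∈ μ.parts, s ≤ t) ∧ IsCore t Y

theorem finite_card_eq (n : ℕ) : {Y : YoungDiagram | Y.card = n}.Finite := by
  refine Set.Finite.of_finite_image (f := fun Y : YoungDiagram => Y.cells) ?_ ?_
  · refine ((Finset.range n ×ˢ Finset.range n).powerset.finite_toSet).subset ?_
    rintro _ ⟨Y, hY, rfl⟩
    simp only [Set.mem_ofPred_eq] at hY
    simp only [Finset.coe_powerset, Set.mem_preimage, Set.mem_powerset_iff, Finset.coe_subset]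
    rintro ⟨i, j⟩ hij
    have hmem : (i, j) ∈ Y := hij
    simp only [Finset.mem_product, Finset.mem_range]
    constructor
    · have h1 : (Finset.range (i + 1)).image (fun a => (a, j)) ⊆ Y.cells := by
        intro c hc
        simp only [Finset.mem_image, Finset.mem_range] at hc
        obtain ⟨a, ha, rfl⟩ := hc
        exact Y.up_left_mem (by omega) le_rfl hmem
      have h2 := Finset.card_le_card h1
      rw [Finset.card_image_of_injective _ (fun a b h => by simpa using h), Finset.card_range] at h2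
      have : Y.cells.card = n := hY
      omega
    · have h1 : (Finset.range (j + 1)).image (fun b => (i, b)) ⊆ Y.cells := by
        intro c hc
        simp only [Finset.mem_image, Finset.mem_range] at hc
        obtain ⟨b, hb, rfl⟩ := hc
        exact Y.up_left_mem le_rfl (by omega) hmem
      have h2 := Finset.card_le_card h1
      rw [Finset.card_image_of_injective _ (fun a b h => by simpa using h), Finset.card_range] at h2
      have : Y.cells.card = n := hY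
      omega
  · intro Y _ Y' _ h
    exact YoungDiagram.ext h

/-- the diagrams with `n` cells -/
noncomputable def DD (n : ℕ) : Finset YoungDiagram := (finite_card_eq n).toFinset

theorem mem_DD {n : ℕ} {Y : YoungDiagram} : Y ∈ DD n ↔ Y.card = n := by
  simp [DD]

/-- density of the pairs of type I -/
noncomputable def zI (n : ℕ) : ℝ :=
  ({P : YoungDiagram × n.Partition | P.1.card = n ∧ TypeI P.1 P.2}.ncard : ℝ) / (pp n : ℝ) ^ 2

/-- density of the pairs that are stuck within `k` steps -/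
noncomputable def zS (k n : ℕ) : ℝ :=
  ({P : YoungDiagram × n.Partition | P.1.card = n ∧ Stuck k P.1 P.2}.ncard : ℝ) / (pp n : ℝ) ^ 2

/-! ### Beads -/

/-- the bead of row `i` -/
def bead (Y : YoungDiagram) (i : ℕ) : ℤ := (Y.rowLen i : ℤ) - i - 1

/-- the hole of column `j` -/
def hole (Y : YoungDiagram) (j : ℕ) : ℤ := (j : ℤ) - Y.colLen j

/-- the bead set of `Y` -/
def SS (Y : YoungDiagram) : Set ℤ := Set.range (bead Y)

/-- number of cells with hook length `t` -/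
def hn (t : ℕ) (Y : YoungDiagram) : ℕ := (Y.cells.filter (fun c => hookLen Y c.1 c.2 = t)).card

/-! ### Rows of the combinatorial part -/

/-- row DDc : as many diagrams as partitions -/
def DDc_stmt : Prop := ∀ n, (DD n).card = pp n

/-- row BD1 : hooks and beads -/
structure BD1_stmt : Prop where
  inj : Function.Injective SS
  hk : ∀ (Y : YoungDiagram) (t : ℕ), 1 ≤ t → (Hk (SS Y) t).Finite ∧ (Hk (SS Y) t).ncard = hn t Y
  core : ∀ (Y : YoungDiagram) (t : ℕ), 1 ≤ t → (IsCore t Y ↔ hn t Y = 0)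

/-- row BD2 : removal -/
def BD2_stmt : Prop := ∀ (Y : YoungDiagram) (t : ℕ) (x : ℤ), 1 ≤ t → x ∈ Hk (SS Y) t →
  ∃ Y' : YoungDiagram, SS Y' = mv (SS Y) x t ∧ Y'.card + t = Y.card ∧ Removes t Y Y'

/-- row BD3 : addition -/
def BD3_stmt : Prop := ∀ (Y : YoungDiagram) (t : ℕ) (x : ℤ), 1 ≤ t → x ∈ SS Y → x + (t : ℤ) ∉ SS Y →
  ∃ Y' : YoungDiagram, SS Y' = insert (x + (t : ℤ)) (SS Y \ {x}) ∧ Y'.card = Y.card + t

/-- beads that can move up by `t` -/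
def Up (S : Set ℤ) (t : ℕ) : Set ℤ := {x | x ∈ S ∧ x + (t : ℤ) ∉ S}

/-- row BD4 : number of addable hooks -/
def BD4_stmt : Prop := ∀ (Y : YoungDiagram) (t : ℕ), 1 ≤ t →
  (Up (SS Y) t).Finite ∧ (Up (SS Y) t).ncard = t + (Hk (SS Y) t).ncard

/-- row FQ : marked hooks -/
structure FQ_stmt : Prop where
  fq : ∀ m q t : ℕ, 1 ≤ t →
    ∑ Y ∈ DD (m + q * t), (hn t Y).choose q = ∑ Y ∈ DD m, (t + hn t Y).choose q
  small : ∀ (t : ℕ) (Y : YoungDiagram), 1 ≤ t → t * hn t Y ≤ Y.card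

/-- coefficient of `X ^ j` in the product of `(1 + z X ^ k) ^ t` over `k ≥ 1` -/
noncomputable def hc (t : ℕ) (z : ℝ) (j : ℕ) : ℝ :=
  (∏ k ∈ range j, (1 + Polynomial.C z * Polynomial.X ^ (k + 1)) ^ t : Polynomial ℝ).coeff j

/-- row HN : generating function of the number of hooks of length `t` -/
structure HN_stmt : Prop where
  hc_eq : ∀ (t : ℕ) (z : ℝ) (j K : ℕ), j ≤ K → hc t z j =
    (∏ k ∈ range K, (1 + Polynomial.C z * Polynomial.X ^ (k + 1)) ^ t : Polynomial ℝ).coeff j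
  sum : ∀ (n t : ℕ) (z : ℝ), 1 ≤ t →
    ∑ Y ∈ DD n, (1 + z) ^ hn t Y = ∑ j ∈ range (n / t + 1), (pp (n - t * j) : ℝ) * hc t z j

/-! ### Averages -/

/-- average of `x ^ (number of hooks of length t)` over the diagrams with `n` cells -/
noncomputable def aa (n t : ℕ) (x : ℝ) : ℝ := (∑ Y ∈ DD n, x ^ hn t Y) / pp n

/-- number of parts `≥ r` -/
def WW (r : ℕ) {n : ℕ} (μ : n.Partition) : ℕ := (μ.parts.filter (fun s => r ≤ s)).card

open Classical in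
/-- average of `c ^ (W_r - 1)` over the partitions having the part `r` and `W_r ≥ 2` -/
noncomputable def bb (n r : ℕ) (c : ℝ) : ℝ :=
  (∑ μ : n.Partition, if r ∈ μ.parts ∧ 2 ≤ WW r μ then c ^ (WW r μ - 1) else 0) / pp n

open Classical in
/-- probability of the bad event at `r` -/
noncomputable def TT (n k r : ℕ) : ℝ :=
  (∑ Y ∈ DD n, ∑ μ : n.Partition,
    if r ∈ μ.parts ∧ 2 ≤ WW r μ ∧ hn r Y + 2 ≤ 2 * min (WW r μ) k then (1 : ℝ) else 0) / (pp n : ℝ) ^ 2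

/-- the first moment -/
noncomputable def S1 (n : ℕ) : ℝ := ∑ t ∈ Icc 1 n, ((pp (n - t) : ℝ) / pp n) * aa n t 0

/-- `t / (exp (t η) - 1)`, the expected number of hooks of length `t` -/
noncomputable def lam (η : ℝ) (t : ℕ) : ℝ := t / (Real.exp (t * η) - 1)

/-! ### Rows of the analytic part -/

/-- what is needed about the partition function: saddle points `η n` with constants `C`, `N0` -/
structure PAx (η : ℕ → ℝ) (C : ℝ) (N0 : ℕ) : Prop where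
  hC : 0 < C
  hN : 4 ≤ N0
  low : ∀ n ≥ N0, 1 / (2 * √(n : ℝ)) ≤ η n
  up : ∀ n ≥ N0, η n ≤ 2 / √(n : ℝ)
  ratio : ∀ n ≥ N0, ∀ s ≤ n, |(pp (n - s) : ℝ) - Real.exp (-(s * η n)) * pp n| ≤
    C * s * (n : ℝ) ^ (-(3 / 4) : ℝ) * (Real.exp (-(s * η n)) * pp n)
  sad : ∀ n ≥ N0, ∀ K : ℕ, Real.exp (n * η n) * ∏ k ∈ range K, (1 - Real.exp (-((k + 1) * η n)))⁻¹ ≤
    C * (n : ℝ) ^ ((3 / 4) : ℝ) * pp n

/-- row PA -/
def PA_stmt : Prop := ∃ η C N0, PAx η C N0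

/-- what is needed about the hooks of a random diagram -/
structure ENx (η : ℕ → ℝ) (C : ℝ) (N0 : ℕ) : Prop where
  hC : 0 < C
  up : ∀ n ≥ N0, ∀ t : ℕ, 1 ≤ t → Real.exp (-(t * η n)) ≤ 1 / 2 → ∀ ζ : ℝ, 0 ≤ ζ → ζ ≤ 1 →
    aa n t (1 - ζ) ≤ Real.exp (-(ζ * (t * Real.exp (-(t * η n))))) +
      C * (n : ℝ) ^ (-(3 / 4) : ℝ) * t * (ζ * (t * Real.exp (-(t * η n)))) *
        Real.exp (2 * (ζ * (t * Real.exp (-(t * η n)))))
  low : ∀ n ≥ N0, ∀ t : ℕ, 1 ≤ t → Real.exp (-(t * η n)) ≤ 1 / 2 →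
    Real.exp (-(t * Real.exp (-(t * η n)) / (1 - Real.exp (-(t * η n))) ^ 2)) -
      C * (n : ℝ) ^ (-(3 / 4) : ℝ) * t * (t * Real.exp (-(t * η n))) *
        Real.exp (2 * (t * Real.exp (-(t * η n)))) ≤ aa n t 0
  big : ∀ n ≥ N0, ∀ t : ℕ, 1 ≤ t → ∀ ζ : ℝ, 0 ≤ ζ → ζ ≤ 1 →
    aa n t (1 - ζ) ≤ C * (n : ℝ) ^ ((3 / 4) : ℝ) * Real.exp (-(ζ * lam (η n) t))

/-- row ENa -/
def ENa_stmt : Prop := ∀ η C N0, PAx η C N0 → ∃ C' : ℝ, 0 < C' ∧ ∀ n ≥ N0, ∀ t : ℕ, 1 ≤ t →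
  Real.exp (-(t * η n)) ≤ 1 / 2 → ∀ ζ : ℝ, 0 ≤ ζ → ζ ≤ 1 →
    |aa n t (1 - ζ) - ∏ k ∈ range n, (1 - ζ * Real.exp (-(t * η n)) ^ (k + 1)) ^ t| ≤
      C' * (n : ℝ) ^ (-(3 / 4) : ℝ) * t * (ζ * (t * Real.exp (-(t * η n)))) *
        Real.exp (2 * (ζ * (t * Real.exp (-(t * η n)))))

/-- row ENb -/
def ENb_stmt : Prop := ∀ η C N0, PAx η C N0 → ∀ n ≥ N0, ∀ t : ℕ, 1 ≤ t → ∀ ζ : ℝ, 0 ≤ ζ → ζ ≤ 1 →
    aa n t (1 - ζ) ≤ C * (n : ℝ) ^ ((3 / 4) : ℝ) * Real.exp (-(ζ * lam (η n) t))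

/-- row ENc : from ENa and ENb -/
def EN_stmt : Prop := ∀ η C N0, PAx η C N0 → ∃ C' N1, ENx η C' N1

/-- what is needed about the parts of a random partition -/
structure MUx (η : ℕ → ℝ) (C : ℝ) (N0 : ℕ) : Prop where
  pos : ∀ n ≥ N0, 0 < η n - C * (n : ℝ) ^ (-(3 / 4) : ℝ)
  ratio : ∀ n ≥ N0, ∀ s ≤ n, (pp (n - s) : ℝ) ≤
    Real.exp (-(s * (η n - C * (n : ℝ) ^ (-(3 / 4) : ℝ)))) * pp n
  mu : ∀ n ≥ N0, ∀ r : ℕ, 1 ≤ r → ∀ c : ℝ, 1 ≤ c →
    c * Real.exp (-(r * (η n - C * (n : ℝ) ^ (-(3 / 4) : ℝ)))) ≤ 1 / 2 →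
    bb n r c ≤ Real.exp (-(r * (η n - C * (n : ℝ) ^ (-(3 / 4) : ℝ)))) *
      (Real.exp (2 * c * (Real.exp (-(r * (η n - C * (n : ℝ) ^ (-(3 / 4) : ℝ)))) /
        (1 - Real.exp (-(η n - C * (n : ℝ) ^ (-(3 / 4) : ℝ)))))) - 1)

/-- row MU -/
def MU_stmt : Prop := ∀ η C N0, PAx η C N0 → ∃ C' N1, MUx η C' N1

/-- row AS -/
def AS_stmt : Prop := ∀ η C N0 C1 N1, PAx η C N0 → ENx η C1 N1 →
  Filter.Tendsto (fun n : ℕ => S1 n * Real.log n) Filter.atTop (nhds 2)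

/-- row B2 -/
def B2_stmt : Prop := ∀ η C N0 C1 N1 C2 N2, PAx η C N0 → ENx η C1 N1 → MUx η C2 N2 →
  ∃ c : ℝ, 0 < c ∧ ∃ C3 : ℝ, ∃ N3 : ℕ, ∀ n ≥ N3, ∀ k : ℕ, (k : ℝ) ≤ c * √(n : ℝ) →
    ∑ r ∈ Icc 1 n, TT n k r ≤ C3 / (Real.log n) ^ 2

/-! ### Greedy row -/

/-- row GR -/
def GR_stmt : Prop := ∀ (S : Set ℤ) (rs : List ℕ) (M : Multiset ℕ) (k : ℕ), (rs : Multiset ℕ) ≤ M →
  rs.length ≤ k → (∀ r ∈ rs, (Hk S r).Finite) → ¬ Chain S rs →
  ∃ r ∈ M, (Hk S r).ncard + 2 ≤ 2 * min ((M.filter (fun s => r ≤ s)).card) k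

end ZT68
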