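/-
MP_1882ea_al, helper51.  Row AS: asymptotics of the first moment.
-/
import Pool.Agent.Lib.ZT68.Defs

namespace ZT68

open Finset Filter

/-! ### Elementary sums -/

theorem AS_one_sub_exp_ge {η : ℝ} (h0 : 0 < η) (h1 : η ≤ 1) : η / 2 ≤ 1 - Real.exp (-η) := by
  have h2 : Real.exp (-η) ≤ 1 / (1 + η) := by
    rw [Real.exp_neg, ← one_div]
    apply one_div_le_one_div_of_le (by linarith)
    have := Real.add_one_le_exp η
    linarith
  have h3 : 1 / (1 + η) ≤ 1 - η / 2 := by
    rw [div_le_iff₀ (by linarith)]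
    nlinarith
  linarith

/-- telescoping upper bound -/
theorem AS_tel_up {η b : ℝ} (hη : 0 < η) (hb : 0 < b) (s : Finset ℕ) :
    ∑ t ∈ s, Real.exp (-(t * η)) * Real.exp (-(b * (Real.exp (-(t * η)) / η))) ≤
      η / (1 - Real.exp (-η)) / b := by
  set E : ℕ → ℝ := fun t => Real.exp (-(b * (Real.exp (-(t * η)) / η))) with hE
  have hr : 0 < 1 - Real.exp (-η) := by
    have : Real.exp (-η) < 1 := Real.exp_lt_one_iff.2 (by linarith)
    linarith
  obtain ⟨T, hT⟩ : ∃ T, s ⊆ range T := s.exists_nat_subset_range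
  have hterm : ∀ t : ℕ, Real.exp (-(t * η)) * E t ≤
      η / (1 - Real.exp (-η)) / b * (E (t + 1) - E t) := by
    intro t
    have e1 : Real.exp (-(((t + 1 : ℕ) : ℝ) * η)) = Real.exp (-(t * η)) * Real.exp (-η) := by
      rw [← Real.exp_add]; congr 1; push_cast; ring
    have e2 : E (t + 1) = E t * Real.exp (b * (Real.exp (-(t * η)) * (1 - Real.exp (-η)) / η)) := by
      simp only [hE]
      rw [← Real.exp_add, e1]
      congr 1
      field_simp
      ring
    rw [e2]
    have h3 := Real.add_one_le_exp (b * (Real.exp (-(t * η)) * (1 - Real.exp (-η)) / η))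
    have hEt : 0 < E t := Real.exp_pos _
    have h4 : η / (1 - Real.exp (-η)) / b *
        (E t * (b * (Real.exp (-(t * η)) * (1 - Real.exp (-η)) / η))) = Real.exp (-(t * η)) * E t := by
      field_simp
    rw [← h4]
    apply mul_le_mul_of_nonneg_left _ (by positivity)
    nlinarith
  have hmono : ∀ t : ℕ, 0 ≤ E (t + 1) - E t := by
    intro t
    have h1 := hterm t
    have h2 : 0 < Real.exp (-(t * η)) * E t := mul_pos (Real.exp_pos _) (Real.exp_pos _)
    have h3 : 0 < η / (1 - Real.exp (-η)) / b := by positivity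
    by_contra h4
    push Not at h4
    have := mul_neg_of_pos_of_neg h3 h4
    linarith
  calc ∑ t ∈ s, Real.exp (-(t * η)) * E t ≤
      ∑ t ∈ range T, Real.exp (-(t * η)) * E t :=
        sum_le_sum_of_subset_of_nonneg hT fun t _ _ => mul_nonneg (Real.exp_pos _).le (Real.exp_pos _).le
    _ ≤ ∑ t ∈ range T, η / (1 - Real.exp (-η)) / b * (E (t + 1) - E t) :=
        sum_le_sum fun t _ => hterm t
    _ = η / (1 - Real.exp (-η)) / b * (E T - E 0) := by
        rw [← mul_sum, sum_range_sub]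
    _ ≤ η / (1 - Real.exp (-η)) / b * 1 := by
        apply mul_le_mul_of_nonneg_left _ (by positivity)
        have h1 : E T ≤ 1 := Real.exp_le_one_iff.2 (by
          have : 0 ≤ b * (Real.exp (-(T * η)) / η) := by positivity
          linarith)
        have h2 : 0 < E 0 := Real.exp_pos _
        linarith
    _ = _ := mul_one _

theorem AS_geom {r : ℝ} (h0 : 0 ≤ r) (h1 : r < 1) (T : ℕ) : ∑ j ∈ range T, r ^ j ≤ (1 - r)⁻¹ := by
  have h2 : (∑ j ∈ range T, r ^ j) * (1 - r) = 1 - r ^ T := by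
    have := geom_sum_mul r T
    linarith
  have h3 : 0 ≤ r ^ T := pow_nonneg h0 T
  rw [← one_div, le_div_iff₀ (by linarith)]
  linarith

/-- tail of the geometric series -/
theorem AS_geo {η A : ℝ} (hη : 0 < η) (s : Finset ℕ) (h : ∀ t ∈ s, A ≤ t * η) :
    ∑ t ∈ s, Real.exp (-(t * η)) ≤ Real.exp (-A) / (1 - Real.exp (-η)) := by
  have hr1 : Real.exp (-η) < 1 := Real.exp_lt_one_iff.2 (by linarith)
  have hr0 : 0 < Real.exp (-η) := Real.exp_pos _
  have hr : 0 < 1 - Real.exp (-η) := by linarith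
  set m := ⌈A / η⌉₊ with hm
  obtain ⟨T, hT⟩ : ∃ T, s ⊆ range T := s.exists_nat_subset_range
  have hsub : s ⊆ (range T).image (fun j => m + j) := by
    intro t ht
    have h1 : m ≤ t := by
      rw [hm, Nat.ceil_le, div_le_iff₀ hη]
      exact h t ht
    rw [mem_image]
    exact ⟨t - m, by have := mem_range.1 (hT ht); rw [mem_range]; omega, by omega⟩
  calc ∑ t ∈ s, Real.exp (-(t * η)) ≤
      ∑ t ∈ (range T).image (fun j => m + j), Real.exp (-(t * η)) :=
        sum_le_sum_of_subset_of_nonneg hsub fun t _ _ => (Real.exp_pos _).le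
    _ = ∑ j ∈ range T, Real.exp (-(m * η)) * Real.exp (-η) ^ j := by
        rw [sum_image (fun a _ b _ hab => by simpa using hab)]
        refine sum_congr rfl fun j _ => ?_
        rw [← Real.exp_nat_mul, ← Real.exp_add]
        congr 1
        push_cast
        ring
    _ = Real.exp (-(m * η)) * ∑ j ∈ range T, Real.exp (-η) ^ j := by rw [mul_sum]
    _ ≤ Real.exp (-A) * (1 - Real.exp (-η))⁻¹ := by
        apply mul_le_mul _ _ (sum_nonneg fun j _ => by positivity) (Real.exp_pos _).le
        · apply Real.exp_le_exp.2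
          have : A / η ≤ m := Nat.le_ceil _
          rw [div_le_iff₀ hη] at this
          linarith
        · exact AS_geom hr0.le hr1 T
    _ = _ := by rw [div_eq_mul_inv]

/-! ### The data at one `n` -/

/-- what is used at one `n` (`L = log n`, `h = η n`, `w t = pp (n - t) / pp n`, `a t = aa n t 0`) -/
structure AX (n : ℕ) (L h C C1 : ℝ) (w a : ℕ → ℝ) : Prop where
  hn : Real.exp L = n
  hC : 0 < C
  hC1 : 0 < C1
  low : Real.exp (-(L / 2)) / 2 ≤ h
  up : h ≤ 2 * Real.exp (-(L / 2))
  w0 : ∀ t, 0 ≤ w t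
  w_le : ∀ t ≤ n, w t ≤ Real.exp (-(t * h)) * (1 + C * t * Real.exp (-(3 * L / 4)))
  w_ge : ∀ t ≤ n, Real.exp (-(t * h)) * (1 - C * t * Real.exp (-(3 * L / 4))) ≤ w t
  a0 : ∀ t, 0 ≤ a t
  a_up : ∀ t : ℕ, 1 ≤ t → Real.exp (-(t * h)) ≤ 1 / 2 → ∀ ζ : ℝ, 0 ≤ ζ → ζ ≤ 1 →
    a t ≤ Real.exp (-(ζ * (t * Real.exp (-(t * h))))) +
      C1 * Real.exp (-(3 * L / 4)) * t * (ζ * (t * Real.exp (-(t * h)))) *
        Real.exp (2 * (ζ * (t * Real.exp (-(t * h)))))
  a_low : ∀ t : ℕ, 1 ≤ t → Real.exp (-(t * h)) ≤ 1 / 2 →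
    Real.exp (-(t * Real.exp (-(t * h)) / (1 - Real.exp (-(t * h))) ^ 2)) -
      C1 * Real.exp (-(3 * L / 4)) * t * (t * Real.exp (-(t * h))) *
        Real.exp (2 * (t * Real.exp (-(t * h)))) ≤ a t
  a_big : ∀ t : ℕ, 1 ≤ t → a t ≤ C1 * Real.exp (3 * L / 4) * Real.exp (-(lam h t))
  a_one : ∀ t : ℕ, 1 ≤ t → a t ≤ C1 * Real.exp (3 * L / 4)

variable {n : ℕ} {L h C C1 : ℝ} {w a : ℕ → ℝ}

theorem AX.h0 (A : AX n L h C C1 w a) : 0 < h :=
  lt_of_lt_of_le (by positivity) A.low

/-- case 1 of the upper bound -/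
theorem AX.case1 (A : AX n L h C C1 w a) {ε : ℝ} (t : ℕ) (ht1 : 1 ≤ t)
    (htn : t ≤ n) (ht : t * h ≤ (1 - ε) * (-Real.log h)) :
    w t * a t ≤ (1 + C * Real.exp (L / 4)) *
      (C1 * Real.exp (3 * L / 4) * Real.exp (-Real.exp (ε * (-Real.log h)))) := by
  have h0 := A.h0
  have htR : (0 : ℝ) < t := by exact_mod_cast ht1
  have hw : w t ≤ 1 + C * Real.exp (L / 4) := by
    have h1 := A.w_le t htn
    have h2 : (t : ℝ) ≤ Real.exp L := by rw [A.hn]; exact_mod_cast htn
    have h3 : (t : ℝ) * Real.exp (-(3 * L / 4)) ≤ Real.exp (L / 4) := by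
      calc (t : ℝ) * Real.exp (-(3 * L / 4)) ≤ Real.exp L * Real.exp (-(3 * L / 4)) :=
            mul_le_mul_of_nonneg_right h2 (Real.exp_pos _).le
        _ = Real.exp (L / 4) := by rw [← Real.exp_add]; congr 1; ring
    have h4 : Real.exp (-(t * h)) ≤ 1 := Real.exp_le_one_iff.2 (by
      have := mul_pos htR h0
      linarith)
    have h5 : 0 ≤ 1 + C * t * Real.exp (-(3 * L / 4)) := by have := A.hC; positivity
    calc w t ≤ _ := h1
      _ ≤ 1 * (1 + C * t * Real.exp (-(3 * L / 4))) := mul_le_mul_of_nonneg_right h4 h5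
      _ = 1 + C * (t * Real.exp (-(3 * L / 4))) := by ring
      _ ≤ _ := by
        have := mul_le_mul_of_nonneg_left h3 A.hC.le
        linarith
  have hlam : Real.exp (ε * (-Real.log h)) ≤ lam h t := by
    unfold lam
    have hx : 0 < (t : ℝ) * h := mul_pos htR h0
    have h1 : Real.exp (t * h) - 1 ≤ t * h * Real.exp (t * h) := by
      have h2 := Real.add_one_le_exp (-(t * h))
      have h3 : Real.exp (t * h) * Real.exp (-(t * h)) = 1 := by
        rw [← Real.exp_add]; simp
      nlinarith [Real.exp_pos (t * h)]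
    have h2 : 0 < Real.exp (t * h) - 1 := by
      have := Real.add_one_lt_exp hx.ne'
      linarith
    rw [le_div_iff₀ h2]
    calc Real.exp (ε * -Real.log h) * (Real.exp (t * h) - 1) ≤
        Real.exp (ε * -Real.log h) * (t * h * Real.exp (t * h)) :=
          mul_le_mul_of_nonneg_left h1 (Real.exp_pos _).le
      _ = t * (Real.exp (ε * -Real.log h + Real.log h + t * h)) := by
          rw [Real.exp_add, Real.exp_add, Real.exp_log h0]; ring
      _ ≤ t * 1 := by
          apply mul_le_mul_of_nonneg_left _ htR.le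
          apply Real.exp_le_one_iff.2
          nlinarith
      _ = t := mul_one _
  have ha : a t ≤ C1 * Real.exp (3 * L / 4) * Real.exp (-Real.exp (ε * (-Real.log h))) := by
    refine (A.a_big t ht1).trans (mul_le_mul_of_nonneg_left ?_ ?_)
    · exact Real.exp_le_exp.2 (by linarith)
    · have := A.hC1; positivity
  exact mul_le_mul hw ha (A.a0 t) (by have := A.hC; positivity)

/-- case 3 of the upper bound -/
theorem AX.case3 (A : AX n L h C C1 w a) (t : ℕ) (ht1 : 1 ≤ t)
    (htn : t ≤ n) (ht : Real.exp (L / 2) * L ^ 2 ≤ t) :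
    w t * a t ≤ (Real.exp (-(L ^ 2 / 2)) * (1 + C * Real.exp (L / 4))) *
      (C1 * Real.exp (3 * L / 4)) := by
  have h0 := A.h0
  have htR : (0 : ℝ) < t := by exact_mod_cast ht1
  have hw : w t ≤ Real.exp (-(L ^ 2 / 2)) * (1 + C * Real.exp (L / 4)) := by
    have h1 := A.w_le t htn
    have h2 : (t : ℝ) ≤ Real.exp L := by rw [A.hn]; exact_mod_cast htn
    have h3 : (t : ℝ) * Real.exp (-(3 * L / 4)) ≤ Real.exp (L / 4) := by
      calc (t : ℝ) * Real.exp (-(3 * L / 4)) ≤ Real.exp L * Real.exp (-(3 * L / 4)) :=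
            mul_le_mul_of_nonneg_right h2 (Real.exp_pos _).le
        _ = Real.exp (L / 4) := by rw [← Real.exp_add]; congr 1; ring
    have h4 : Real.exp (-(t * h)) ≤ Real.exp (-(L ^ 2 / 2)) := by
      apply Real.exp_le_exp.2
      have h5 : Real.exp (L / 2) * L ^ 2 * (Real.exp (-(L / 2)) / 2) ≤ t * h :=
        mul_le_mul ht A.low (by positivity) htR.le
      have h6 : Real.exp (L / 2) * L ^ 2 * (Real.exp (-(L / 2)) / 2) = L ^ 2 / 2 := by
        have : Real.exp (L / 2) * Real.exp (-(L / 2)) = 1 := by rw [← Real.exp_add]; simp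
        linear_combination (L ^ 2 / 2) * this
      linarith
    calc w t ≤ _ := h1
      _ ≤ Real.exp (-(L ^ 2 / 2)) * (1 + C * Real.exp (L / 4)) := by
        apply mul_le_mul h4 _ (by have := A.hC; positivity) (Real.exp_pos _).le
        have := mul_le_mul_of_nonneg_left h3 A.hC.le
        linarith
  exact mul_le_mul hw (A.a_one t ht1) (A.a0 t) (by have := A.hC; positivity)

/-- case 2 of the upper bound -/
theorem AX.case2 (A : AX n L h C C1 w a) (hL : 1 ≤ L) (t : ℕ) (ht1 : 1 ≤ t)
    (htn : t ≤ n) (ht : t ≤ Real.exp (L / 2) * L ^ 2) (hb : Real.exp (-(t * h)) ≤ 1 / 2)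
    {b : ℝ} (hbt : b ≤ t * h) :
    w t * a t ≤ (1 + C * L ^ 2 * Real.exp (-(L / 4))) *
      (Real.exp (-(t * h)) * Real.exp (-(b * (Real.exp (-(t * h)) / h))) +
        (Real.exp (-(L / 16)) + C1 * L ^ 3 * Real.exp (-(L / 8))) * Real.exp (-(t * h))) := by
  have h0 := A.h0
  have htR : (0 : ℝ) < t := by exact_mod_cast ht1
  have hC := A.hC
  have hC1 := A.hC1
  set y := Real.exp (-(t * h)) with hy
  have hy0 : 0 < y := Real.exp_pos _
  have h3 : (t : ℝ) * Real.exp (-(3 * L / 4)) ≤ L ^ 2 * Real.exp (-(L / 4)) := by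
    calc (t : ℝ) * Real.exp (-(3 * L / 4)) ≤ Real.exp (L / 2) * L ^ 2 * Real.exp (-(3 * L / 4)) :=
          mul_le_mul_of_nonneg_right ht (Real.exp_pos _).le
      _ = L ^ 2 * (Real.exp (L / 2) * Real.exp (-(3 * L / 4))) := by ring
      _ = L ^ 2 * Real.exp (-(L / 4)) := by rw [← Real.exp_add]; congr 2; ring
  have hw : w t ≤ (1 + C * L ^ 2 * Real.exp (-(L / 4))) * y := by
    have h1 := A.w_le t htn
    have := mul_le_mul_of_nonneg_left h3 hC.le
    nlinarith
  -- the choice of ζ
  set q := (t : ℝ) * y with hq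
  have hq0 : 0 < q := by positivity
  obtain ⟨ζ, hz0, hz1, hz2, hz3⟩ : ∃ ζ : ℝ, 0 ≤ ζ ∧ ζ ≤ 1 ∧ ζ * q ≤ L / 16 ∧
      Real.exp (-(ζ * q)) ≤ Real.exp (-q) + Real.exp (-(L / 16)) := by
    by_cases hc : q ≤ L / 16
    · exact ⟨1, zero_le_one, le_rfl, by linarith, by
        rw [one_mul]
        have := Real.exp_pos (-(L / 16))
        linarith⟩
    · push Not at hc
      have h4 : L / 16 / q * q = L / 16 := by field_simp
      refine ⟨L / 16 / q, by positivity, ?_, h4.le, ?_⟩
      · rw [div_le_one hq0]; exact hc.le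
      · rw [h4]
        have := Real.exp_pos (-q)
        linarith
  have ha := A.a_up t ht1 hb ζ hz0 hz1
  have ha2 : a t ≤ Real.exp (-q) + (Real.exp (-(L / 16)) + C1 * L ^ 3 * Real.exp (-(L / 8))) := by
    have e1 : C1 * Real.exp (-(3 * L / 4)) * t * (ζ * q) * Real.exp (2 * (ζ * q)) ≤
        C1 * L ^ 3 * Real.exp (-(L / 8)) := by
      have e2 : Real.exp (2 * (ζ * q)) ≤ Real.exp (L / 8) := Real.exp_le_exp.2 (by linarith)
      have e3 : 0 ≤ ζ * q := by positivity
      calc C1 * Real.exp (-(3 * L / 4)) * t * (ζ * q) * Real.exp (2 * (ζ * q)) =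
          C1 * (t * Real.exp (-(3 * L / 4))) * (ζ * q) * Real.exp (2 * (ζ * q)) := by ring
        _ ≤ C1 * (L ^ 2 * Real.exp (-(L / 4))) * (L / 16) * Real.exp (L / 8) := by
            gcongr
        _ = C1 * L ^ 3 / 16 * (Real.exp (-(L / 4)) * Real.exp (L / 8)) := by ring
        _ = C1 * L ^ 3 / 16 * Real.exp (-(L / 8)) := by rw [← Real.exp_add]; congr 2; ring
        _ ≤ C1 * L ^ 3 * Real.exp (-(L / 8)) := by
            apply mul_le_mul_of_nonneg_right _ (Real.exp_pos _).le
            have : 0 ≤ C1 * L ^ 3 := by positivity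
            linarith
    linarith
  have hqb : Real.exp (-q) ≤ Real.exp (-(b * (y / h))) := by
    apply Real.exp_le_exp.2
    have : b * (y / h) ≤ t * h * (y / h) := mul_le_mul_of_nonneg_right hbt (by positivity)
    have h4 : t * h * (y / h) = q := by field_simp; rfl
    linarith
  calc w t * a t ≤ ((1 + C * L ^ 2 * Real.exp (-(L / 4))) * y) *
      (Real.exp (-(b * (y / h))) + (Real.exp (-(L / 16)) + C1 * L ^ 3 * Real.exp (-(L / 8)))) :=
        mul_le_mul hw (by linarith) (A.a0 t) (by positivity)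
    _ = _ := by ring

/-- the upper bound at one `n` -/
theorem AX.upper (A : AX n L h C C1 w a) (hL : 1 ≤ L) {ε : ℝ}
    (hb0 : 0 < (1 - ε) * (-Real.log h)) (hb2 : Real.exp (-((1 - ε) * (-Real.log h))) ≤ 1 / 2) :
    ∑ t ∈ Icc 1 n, w t * a t ≤
      Real.exp L * ((1 + C * Real.exp (L / 4)) *
        (C1 * Real.exp (3 * L / 4) * Real.exp (-Real.exp (ε * (-Real.log h))))) +
      Real.exp L * ((Real.exp (-(L ^ 2 / 2)) * (1 + C * Real.exp (L / 4))) *
        (C1 * Real.exp (3 * L / 4))) +
      (1 + C * L ^ 2 * Real.exp (-(L / 4))) *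
        (h / (1 - Real.exp (-h)) / ((1 - ε) * (-Real.log h)) +
          (Real.exp (-(L / 16)) + C1 * L ^ 3 * Real.exp (-(L / 8))) *
            (Real.exp (-((1 - ε) * (-Real.log h))) / (1 - Real.exp (-h)))) := by
  classical
  have h0 := A.h0
  have hC := A.hC
  have hC1 := A.hC1
  set b := (1 - ε) * (-Real.log h) with hb
  set e1 := (1 + C * Real.exp (L / 4)) *
        (C1 * Real.exp (3 * L / 4) * Real.exp (-Real.exp (ε * (-Real.log h)))) with he1
  set e3 := (Real.exp (-(L ^ 2 / 2)) * (1 + C * Real.exp (L / 4))) *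
        (C1 * Real.exp (3 * L / 4)) with he3
  have he1' : 0 ≤ e1 := by positivity
  have he3' : 0 ≤ e3 := by positivity
  set K := 1 + C * L ^ 2 * Real.exp (-(L / 4)) with hK
  set δ := Real.exp (-(L / 16)) + C1 * L ^ 3 * Real.exp (-(L / 8)) with hδ
  have hK' : 0 ≤ K := by positivity
  have hδ' : 0 ≤ δ := by positivity
  have hterm : ∀ t ∈ Icc 1 n, w t * a t ≤ e1 + e3 +
      (if b ≤ t * h then K * (Real.exp (-(t * h)) * Real.exp (-(b * (Real.exp (-(t * h)) / h))) +
        δ * Real.exp (-(t * h))) else 0) := by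
    intro t ht
    rw [mem_Icc] at ht
    have hnn : 0 ≤ K * (Real.exp (-(t * h)) * Real.exp (-(b * (Real.exp (-(t * h)) / h))) +
        δ * Real.exp (-(t * h))) := by positivity
    by_cases c1 : b ≤ t * h
    · rw [if_pos c1]
      by_cases c3 : Real.exp (L / 2) * L ^ 2 ≤ t
      · have := A.case3 t ht.1 ht.2 c3
        linarith
      · push Not at c3
        have c4 : Real.exp (-(t * h)) ≤ 1 / 2 := le_trans (Real.exp_le_exp.2 (by linarith)) hb2
        have := A.case2 hL t ht.1 ht.2 c3.le c4 c1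
        linarith
    · rw [if_neg c1]
      push Not at c1
      have := A.case1 t ht.1 ht.2 c1.le
      linarith
  refine (sum_le_sum hterm).trans ?_
  rw [sum_add_distrib, sum_const, ← sum_filter, Nat.card_Icc, nsmul_eq_mul, ← mul_sum,
    sum_add_distrib, ← mul_sum]
  have hcard : ((n + 1 - 1 : ℕ) : ℝ) = Real.exp L := by rw [A.hn]; simp
  rw [hcard]
  have s1 := AS_tel_up h0 hb0 ((Icc 1 n).filter (fun t : ℕ => b ≤ t * h))
  have s2 := AS_geo h0 ((Icc 1 n).filter (fun t : ℕ => b ≤ t * h)) (A := b)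
    (fun t ht => (mem_filter.1 ht).2)
  have s3 := mul_le_mul_of_nonneg_left s2 hδ'
  have s4 := mul_le_mul_of_nonneg_left (add_le_add s1 s3) hK'
  linarith

/-- telescoping lower bound -/
theorem AS_tel_low {η b : ℝ} (hη : 0 < η) (hb : 0 < b) (T m : ℕ) :
    η / (Real.exp η - 1) / b * (Real.exp (-(b * (Real.exp (-(((T + m : ℕ) : ℝ) * η)) / η))) -
      Real.exp (-(b * (Real.exp (-((T : ℝ) * η)) / η)))) ≤
    ∑ t ∈ range m, Real.exp (-(((T + 1 + t : ℕ) : ℝ) * η)) *
      Real.exp (-(b * (Real.exp (-(((T + 1 + t : ℕ) : ℝ) * η)) / η))) := by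
  set E : ℕ → ℝ := fun t => Real.exp (-(b * (Real.exp (-(((T + t : ℕ) : ℝ) * η)) / η))) with hE
  have hr : 0 < Real.exp η - 1 := by
    have := Real.add_one_lt_exp hη.ne'
    linarith
  have hterm : ∀ t : ℕ, η / (Real.exp η - 1) / b * (E (t + 1) - E t) ≤
      Real.exp (-(((T + 1 + t : ℕ) : ℝ) * η)) *
      Real.exp (-(b * (Real.exp (-(((T + 1 + t : ℕ) : ℝ) * η)) / η))) := by
    intro t
    have e0 : T + (t + 1) = T + 1 + t := by ring
    set y := Real.exp (-(((T + 1 + t : ℕ) : ℝ) * η)) with hy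
    have hy0 : 0 < y := Real.exp_pos _
    have e1 : Real.exp (-(((T + t : ℕ) : ℝ) * η)) = y * Real.exp η := by
      rw [hy, ← Real.exp_add]; congr 1; push_cast; ring
    have e2 : E t = E (t + 1) * Real.exp (-(b * (y * (Real.exp η - 1) / η))) := by
      simp only [hE]
      rw [e0, ← hy, ← Real.exp_add, e1]
      congr 1
      field_simp
      ring
    have e3 : E (t + 1) = Real.exp (-(b * (y / η))) := by simp only [hE]; rw [e0]
    rw [e2, ← e3]
    have h3 := Real.add_one_le_exp (-(b * (y * (Real.exp η - 1) / η)))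
    have hEt : 0 < E (t + 1) := Real.exp_pos _
    have h4 : η / (Real.exp η - 1) / b *
        (E (t + 1) * (b * (y * (Real.exp η - 1) / η))) = y * E (t + 1) := by
      field_simp
    rw [← h4]
    apply mul_le_mul_of_nonneg_left _ (by positivity)
    nlinarith
  calc η / (Real.exp η - 1) / b * (Real.exp (-(b * (Real.exp (-(((T + m : ℕ) : ℝ) * η)) / η))) -
      Real.exp (-(b * (Real.exp (-((T : ℝ) * η)) / η)))) =
      η / (Real.exp η - 1) / b * (E m - E 0) := by simp only [hE, add_zero]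
    _ = ∑ t ∈ range m, η / (Real.exp η - 1) / b * (E (t + 1) - E t) := by
        rw [← mul_sum, sum_range_sub]
    _ ≤ _ := sum_le_sum fun t _ => hterm t

/-- the lower bound at one `n` -/
theorem AX.lower (A : AX n L h C C1 w a) {ε B : ℝ} (hε : 0 < ε)
    (hB : B = -Real.log h) (hB0 : 0 < B)
    (c1 : (1 + ε) * B ≤ L) (c2 : 2 * L ≤ Real.exp (L / 2)) (hL : 0 < L)
    (c3 : 1 ≤ (1 - h / 16) ^ 2 * (1 + ε)) (h1 : h ≤ 1)
    (c4 : B + Real.log 16 ≤ (1 + ε) * B) (c5 : 0 ≤ 1 - 2 * C * L * Real.exp (-(L / 4))) :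
    (1 - 2 * C * L * Real.exp (-(L / 4))) *
      (h / (Real.exp h - 1) / ((1 + ε) ^ 2 * B) *
        (Real.exp (-((1 + ε) ^ 2 * B * (Real.exp h * Real.exp (-(ε * B))))) -
          Real.exp (-((1 + ε) ^ 2 * B / 16))) -
        C1 * L ^ 2 * Real.exp (-(L / 8)) * (h / 16 / (1 - Real.exp (-h)))) ≤
    ∑ t ∈ Icc 1 n, w t * a t := by
  have h0 := A.h0
  have hC := A.hC
  have hC1 := A.hC1
  set c := 1 - 2 * C * L * Real.exp (-(L / 4)) with hc
  set b := (1 + ε) ^ 2 * B with hb
  have hb0 : 0 < b := by positivity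
  set δ := C1 * L ^ 2 * Real.exp (-(L / 8)) with hδ
  have hδ0 : 0 ≤ δ := by positivity
  have hexpB : Real.exp (-B) = h := by rw [hB, neg_neg, Real.exp_log h0]
  have hexpB16 : Real.exp (-(B + Real.log 16)) = h / 16 := by
    rw [neg_add, Real.exp_add, hexpB, Real.exp_neg, Real.exp_log (by norm_num)]
    ring
  have hl16 : 0 ≤ Real.log 16 := Real.log_nonneg (by norm_num)
  set T0 := ⌊(B + Real.log 16) / h⌋₊ with hT0
  set T2 := ⌊(1 + ε) * B / h⌋₊ with hT2
  have hT02 : T0 ≤ T2 := Nat.floor_le_floor (div_le_div_of_nonneg_right c4 h0.le)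
  have hT0le : (T0 : ℝ) * h ≤ B + Real.log 16 := by
    rw [← le_div_iff₀ h0]; exact Nat.floor_le (by positivity)
  have hT0lt : B + Real.log 16 < ((T0 : ℝ) + 1) * h := by
    rw [← div_lt_iff₀ h0]; exact Nat.lt_floor_add_one _
  have hT2le : (T2 : ℝ) * h ≤ (1 + ε) * B := by
    rw [← le_div_iff₀ h0]; exact Nat.floor_le (by positivity)
  have hT2lt : (1 + ε) * B < ((T2 : ℝ) + 1) * h := by
    rw [← div_lt_iff₀ h0]; exact Nat.lt_floor_add_one _
  have hinv : ∀ t : ℝ, 0 ≤ t → t * h ≤ (1 + ε) * B → t ≤ 2 * L * Real.exp (L / 2) := by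
    intro t ht0 ht
    have e1 : t * (Real.exp (-(L / 2)) / 2) ≤ L :=
      (mul_le_mul_of_nonneg_left A.low ht0).trans (ht.trans c1)
    have e2 : Real.exp (L / 2) * Real.exp (-(L / 2)) = 1 := by rw [← Real.exp_add]; simp
    have e3 : t = t * (Real.exp (-(L / 2)) / 2) * (2 * Real.exp (L / 2)) := by
      linear_combination (-t) * e2
    rw [e3]
    calc t * (Real.exp (-(L / 2)) / 2) * (2 * Real.exp (L / 2)) ≤ L * (2 * Real.exp (L / 2)) :=
          mul_le_mul_of_nonneg_right e1 (by positivity)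
      _ = _ := by ring
  have hT2n : T2 ≤ n := by
    have e1 := hinv T2 (by positivity) hT2le
    have e2 : 2 * L * Real.exp (L / 2) ≤ Real.exp L := by
      have e3 : Real.exp L = Real.exp (L / 2) * Real.exp (L / 2) := by
        rw [← Real.exp_add]; congr 1; ring
      rw [e3]
      exact mul_le_mul_of_nonneg_right c2 (Real.exp_pos _).le
    rw [A.hn] at e2
    exact_mod_cast e1.trans e2
  set m := T2 - T0 with hm
  -- terms
  have hterm : ∀ i ∈ range m, c * (Real.exp (-(((T0 + 1 + i : ℕ) : ℝ) * h)) *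
      Real.exp (-(b * (Real.exp (-(((T0 + 1 + i : ℕ) : ℝ) * h)) / h)))) -
      c * δ * Real.exp (-(((T0 + 1 + i : ℕ) : ℝ) * h)) ≤ w (T0 + 1 + i) * a (T0 + 1 + i) := by
    intro i hi
    rw [mem_range] at hi
    set t := T0 + 1 + i with ht
    have htT2 : t ≤ T2 := by omega
    have ht1 : 1 ≤ t := by omega
    have htR : (0 : ℝ) < t := by exact_mod_cast ht1
    have hth : (t : ℝ) * h ≤ (1 + ε) * B :=
      (mul_le_mul_of_nonneg_right (by exact_mod_cast htT2) h0.le).trans hT2le
    have hth2 : B + Real.log 16 ≤ t * h := by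
      refine hT0lt.le.trans (mul_le_mul_of_nonneg_right ?_ h0.le)
      rw [ht]; push_cast
      have : (0 : ℝ) ≤ i := Nat.cast_nonneg i
      linarith
    set y := Real.exp (-((t : ℝ) * h)) with hy
    have hy0 : 0 < y := Real.exp_pos _
    have hy16 : y ≤ h / 16 := by
      rw [← hexpB16]; exact Real.exp_le_exp.2 (by linarith)
    have hyhalf : y ≤ 1 / 2 := by linarith
    have htL := hinv t htR.le hth
    have hq : (t : ℝ) * y ≤ (1 + ε) * B * (y / h) := by
      have e1 : (t : ℝ) * y = t * h * (y / h) := by field_simp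
      rw [e1]
      exact mul_le_mul_of_nonneg_right hth (by positivity)
    have hu : y / h ≤ 1 / 16 := by
      rw [div_le_iff₀ h0]; linarith
    have hq16 : (t : ℝ) * y ≤ L / 16 := by
      calc (t : ℝ) * y ≤ (1 + ε) * B * (y / h) := hq
        _ ≤ L * (1 / 16) := mul_le_mul c1 hu (by positivity) hL.le
        _ = L / 16 := by ring
    have hw : y * c ≤ w t := by
      refine le_trans ?_ (A.w_ge t (htT2.trans hT2n))
      apply mul_le_mul_of_nonneg_left _ hy0.le
      have e1 : (t : ℝ) * Real.exp (-(3 * L / 4)) ≤ 2 * L * Real.exp (-(L / 4)) := by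
        calc (t : ℝ) * Real.exp (-(3 * L / 4)) ≤
            2 * L * Real.exp (L / 2) * Real.exp (-(3 * L / 4)) :=
              mul_le_mul_of_nonneg_right htL (Real.exp_pos _).le
          _ = 2 * L * (Real.exp (L / 2) * Real.exp (-(3 * L / 4))) := by ring
          _ = _ := by rw [← Real.exp_add]; congr 2; ring
      have e2 := mul_le_mul_of_nonneg_left e1 hC.le
      rw [hc]
      linarith
    have ha : Real.exp (-(b * (y / h))) - δ ≤ a t := by
      refine le_trans ?_ (A.a_low t ht1 hyhalf)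
      have e1 : Real.exp (-(b * (y / h))) ≤ Real.exp (-(t * y / (1 - y) ^ 2)) := by
        apply Real.exp_le_exp.2
        have e2 : 0 < (1 - y) ^ 2 := by
          have : 0 < 1 - y := by linarith
          positivity
        have e3 : 1 ≤ (1 - y) ^ 2 * (1 + ε) := by
          refine c3.trans (mul_le_mul_of_nonneg_right ?_ (by linarith))
          apply pow_le_pow_left₀ (by linarith)
          linarith
        have e4 : t * y / (1 - y) ^ 2 ≤ b * (y / h) := by
          rw [div_le_iff₀ e2]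
          calc (t : ℝ) * y ≤ (1 + ε) * B * (y / h) := hq
            _ = (1 + ε) * B * (y / h) * 1 := by ring
            _ ≤ (1 + ε) * B * (y / h) * ((1 - y) ^ 2 * (1 + ε)) :=
                mul_le_mul_of_nonneg_left e3 (by positivity)
            _ = _ := by rw [hb]; ring
        linarith
      have e5 : C1 * Real.exp (-(3 * L / 4)) * t * (t * y) * Real.exp (2 * (t * y)) ≤ δ := by
        have e6 : Real.exp (2 * (t * y)) ≤ Real.exp (L / 8) := Real.exp_le_exp.2 (by linarith)
        calc C1 * Real.exp (-(3 * L / 4)) * t * (t * y) * Real.exp (2 * (t * y)) ≤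
            C1 * Real.exp (-(3 * L / 4)) * (2 * L * Real.exp (L / 2)) * (L / 16) *
              Real.exp (L / 8) := by gcongr
          _ = C1 * L ^ 2 / 8 * (Real.exp (-(3 * L / 4)) * Real.exp (L / 2) * Real.exp (L / 8)) := by
              ring
          _ = C1 * L ^ 2 / 8 * Real.exp (-(L / 8)) := by
              rw [← Real.exp_add, ← Real.exp_add]; congr 2; ring
          _ ≤ C1 * L ^ 2 * Real.exp (-(L / 8)) := by
              apply mul_le_mul_of_nonneg_right _ (Real.exp_pos _).le
              have : 0 ≤ C1 * L ^ 2 := by positivity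
              linarith
      linarith
    calc c * (y * Real.exp (-(b * (y / h)))) - c * δ * y =
        y * c * (Real.exp (-(b * (y / h))) - δ) := by ring
      _ ≤ y * c * a t := mul_le_mul_of_nonneg_left ha (by positivity)
      _ ≤ w t * a t := mul_le_mul_of_nonneg_right hw (A.a0 t)
  -- the sum over the terms
  have hsub : ∑ i ∈ range m, w (T0 + 1 + i) * a (T0 + 1 + i) ≤ ∑ t ∈ Icc 1 n, w t * a t := by
    rw [← sum_image (f := fun t => w t * a t) (g := fun i => T0 + 1 + i)
      (fun x _ y _ hxy => by simpa using hxy)]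
    apply sum_le_sum_of_subset_of_nonneg
    · intro t ht
      rw [mem_image] at ht
      obtain ⟨i, hi, rfl⟩ := ht
      rw [mem_range] at hi
      rw [mem_Icc]
      omega
    · intro t _ _
      exact mul_nonneg (A.w0 t) (A.a0 t)
  refine le_trans ?_ ((sum_le_sum hterm).trans hsub)
  rw [sum_sub_distrib, ← mul_sum, ← mul_sum, mul_sub]
  have t1 := AS_tel_low h0 hb0 T0 m
  have hT0m : T0 + m = T2 := by omega
  rw [hT0m] at t1
  have t2 : Real.exp (-(b * (Real.exp h * Real.exp (-(ε * B))))) - Real.exp (-(b / 16)) ≤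
      Real.exp (-(b * (Real.exp (-((T2 : ℝ) * h)) / h))) -
      Real.exp (-(b * (Real.exp (-((T0 : ℝ) * h)) / h))) := by
    apply sub_le_sub
    · apply Real.exp_le_exp.2
      apply neg_le_neg
      apply mul_le_mul_of_nonneg_left _ hb0.le
      rw [div_le_iff₀ h0]
      calc Real.exp (-((T2 : ℝ) * h)) ≤ Real.exp (h + -(ε * B) + -B) :=
            Real.exp_le_exp.2 (by linarith)
        _ = _ := by rw [Real.exp_add, Real.exp_add, hexpB]
    · apply Real.exp_le_exp.2
      apply neg_le_neg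
      rw [div_eq_mul_inv b 16]
      apply mul_le_mul_of_nonneg_left _ hb0.le
      rw [le_div_iff₀ h0]
      calc (16 : ℝ)⁻¹ * h = Real.exp (-(B + Real.log 16)) := by rw [hexpB16]; ring
        _ ≤ _ := Real.exp_le_exp.2 (by linarith)
  have hr : 0 < Real.exp h - 1 := by
    have := Real.add_one_lt_exp h0.ne'
    linarith
  have t3 : h / (Real.exp h - 1) / b * (Real.exp (-(b * (Real.exp h * Real.exp (-(ε * B))))) -
      Real.exp (-(b / 16))) ≤ ∑ i ∈ range m, Real.exp (-(((T0 + 1 + i : ℕ) : ℝ) * h)) *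
      Real.exp (-(b * (Real.exp (-(((T0 + 1 + i : ℕ) : ℝ) * h)) / h))) :=
    le_trans (mul_le_mul_of_nonneg_left t2 (by positivity)) t1
  have t4 : ∑ i ∈ range m, Real.exp (-(((T0 + 1 + i : ℕ) : ℝ) * h)) ≤
      h / 16 / (1 - Real.exp (-h)) := by
    rw [← sum_image (f := fun t : ℕ => Real.exp (-((t : ℝ) * h))) (g := fun i => T0 + 1 + i)
      (fun x _ y _ hxy => by simpa using hxy), ← hexpB16]
    apply AS_geo h0
    intro t ht
    rw [mem_image] at ht
    obtain ⟨i, hi, rfl⟩ := ht
    refine hT0lt.le.trans (mul_le_mul_of_nonneg_right ?_ h0.le)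
    push_cast
    have : (0 : ℝ) ≤ i := Nat.cast_nonneg i
    linarith
  have t5 := mul_le_mul_of_nonneg_left t3 c5
  have t6 := mul_le_mul_of_nonneg_left t4 (mul_nonneg c5 hδ0)
  have t7 : c * (δ * (h / 16 / (1 - Real.exp (-h)))) = c * δ * (h / 16 / (1 - Real.exp (-h))) := by
    ring
  linarith

theorem AS_pp_pos (n : ℕ) : (0 : ℝ) < pp n := by
  have : 0 < pp n := by
    unfold pp
    exact Fintype.card_pos
  exact_mod_cast this

theorem AS_aa_nonneg (n t : ℕ) {x : ℝ} (hx : 0 ≤ x) : 0 ≤ aa n t x := by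
  unfold aa
  exact div_nonneg (sum_nonneg fun Y _ => pow_nonneg hx _) (AS_pp_pos n).le

theorem AS_aa_zero_le (n t : ℕ) {x : ℝ} (hx : 0 ≤ x) : aa n t 0 ≤ aa n t x := by
  unfold aa
  apply div_le_div_of_nonneg_right _ (AS_pp_pos n).le
  exact sum_le_sum fun Y _ => pow_le_pow_left₀ le_rfl hx _

theorem AS_ax {η : ℕ → ℝ} {C C1 : ℝ} {N0 N1 : ℕ} (hP : PAx η C N0) (hE : ENx η C1 N1) {n : ℕ}
    (h0 : N0 ≤ n) (h1 : N1 ≤ n) :
    AX n (Real.log n) (η n) C C1 (fun t => (pp (n - t) : ℝ) / pp n) (fun t => aa n t 0) := by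
  have hn4 : 4 ≤ n := hP.hN.trans h0
  have hnR : (0 : ℝ) < n := by exact_mod_cast (by omega : 0 < n)
  have hexp : Real.exp (Real.log n) = n := Real.exp_log hnR
  have hsq : √(n : ℝ) = Real.exp (Real.log n / 2) := by
    rw [Real.exp_half, hexp]
  have hr1 : (n : ℝ) ^ (-(3 / 4) : ℝ) = Real.exp (-(3 * Real.log n / 4)) := by
    rw [Real.rpow_def_of_pos hnR]; congr 1; ring
  have hr2 : (n : ℝ) ^ ((3 / 4) : ℝ) = Real.exp (3 * Real.log n / 4) := by
    rw [Real.rpow_def_of_pos hnR]; congr 1; ring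
  have hpp := AS_pp_pos n
  refine ⟨hexp, hP.hC, hE.hC, ?_, ?_, ?_, ?_, ?_, ?_, ?_, ?_, ?_, ?_⟩
  · have := hP.low n h0
    rw [hsq] at this
    rw [Real.exp_neg]
    refine le_trans (le_of_eq ?_) this
    field_simp
  · have := hP.up n h0
    rw [hsq] at this
    rw [Real.exp_neg]
    refine this.trans (le_of_eq ?_)
    field_simp
  · intro t; positivity
  · intro t ht
    have := (abs_le.1 (hP.ratio n h0 t ht)).2
    rw [hr1] at this
    change (pp (n - t) : ℝ) / pp n ≤ _
    rw [div_le_iff₀ hpp]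
    linarith
  · intro t ht
    have := (abs_le.1 (hP.ratio n h0 t ht)).1
    rw [hr1] at this
    change _ ≤ (pp (n - t) : ℝ) / pp n
    rw [le_div_iff₀ hpp]
    linarith
  · intro t; exact AS_aa_nonneg n t le_rfl
  · intro t ht hb ζ hz0 hz1
    have := hE.up n h1 t ht hb ζ hz0 hz1
    rw [hr1] at this
    exact (AS_aa_zero_le n t (by linarith)).trans this
  · intro t ht hb
    have := hE.low n h1 t ht hb
    rw [hr1] at this
    exact this
  · intro t ht
    have := hE.big n h1 t ht 1 zero_le_one le_rfl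
    rw [hr2, one_mul, sub_self] at this
    exact this
  · intro t ht
    have := hE.big n h1 t ht 0 le_rfl zero_le_one
    rw [hr2, zero_mul, neg_zero, Real.exp_zero, mul_one, sub_zero] at this
    exact (AS_aa_zero_le n t zero_le_one).trans this

/-! ### Limits -/

theorem AS_lim_pow (k : ℕ) {c : ℝ} (hc : 0 < c) :
    Tendsto (fun x : ℝ => x ^ k * Real.exp (-(c * x))) atTop (nhds 0) := by
  have h1 := (Real.tendsto_pow_mul_exp_neg_atTop_nhds_zero k).comp
    (tendsto_id.const_mul_atTop hc)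
  have h2 := h1.const_mul (c ^ k)⁻¹
  rw [mul_zero] at h2
  refine h2.congr fun x => ?_
  simp only [Function.comp_apply, id]
  rw [mul_pow]
  have : c ^ k ≠ 0 := by positivity
  field_simp

theorem AS_lim_sq {c : ℝ} (hc : 0 < c) :
    Tendsto (fun x : ℝ => x * Real.exp (2 * x) * Real.exp (-(c * x ^ 2))) atTop (nhds 0) := by
  have h1 := AS_lim_pow 1 one_pos
  refine squeeze_zero' ?_ ?_ h1
  · filter_upwards [eventually_ge_atTop 0] with x hx
    positivity
  · filter_upwards [eventually_ge_atTop (3 / c), eventually_ge_atTop 0] with x hx hx0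
    rw [mul_assoc, ← Real.exp_add, pow_one]
    apply mul_le_mul_of_nonneg_left _ hx0
    apply Real.exp_le_exp.2
    rw [div_le_iff₀ hc] at hx
    nlinarith

section
variable {L h : ℕ → ℝ}

theorem AS_h_pos {n : ℕ} (h1 : Real.exp (-(L n / 2)) / 2 ≤ h n) : 0 < h n :=
  lt_of_lt_of_le (by positivity) h1

theorem AS_h_lim (hL : Tendsto L atTop atTop)
    (h1 : ∀ᶠ n in atTop, Real.exp (-(L n / 2)) / 2 ≤ h n ∧ h n ≤ 2 * Real.exp (-(L n / 2))) :
    Tendsto h atTop (nhds 0) := by
  have h2 : Tendsto (fun n => 2 * Real.exp (-(L n / 2))) atTop (nhds 0) := by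
    have h3 := (AS_lim_pow 0 (by norm_num : (0 : ℝ) < 1 / 2)).comp hL
    have h4 := h3.const_mul 2
    rw [mul_zero] at h4
    refine h4.congr fun n => ?_
    simp only [Function.comp_apply, pow_zero, one_mul]
    congr 2
    ring
  refine squeeze_zero' ?_ ?_ h2
  · filter_upwards [h1] with n hn
    exact (AS_h_pos hn.1).le
  · filter_upwards [h1] with n hn
    exact hn.2

theorem AS_B_bd {n : ℕ} (h1 : Real.exp (-(L n / 2)) / 2 ≤ h n)
    (h2 : h n ≤ 2 * Real.exp (-(L n / 2))) :
    L n / 2 - Real.log 2 ≤ -Real.log (h n) ∧ -Real.log (h n) ≤ L n / 2 + Real.log 2 := by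
  have h0 := AS_h_pos h1
  constructor
  · have := Real.log_le_log h0 h2
    rw [Real.log_mul (by norm_num) (Real.exp_pos _).ne', Real.log_exp] at this
    linarith
  · have := Real.log_le_log (by positivity) h1
    rw [Real.log_div (Real.exp_pos _).ne' (by norm_num), Real.log_exp] at this
    linarith

theorem AS_B_lim (hL : Tendsto L atTop atTop)
    (h1 : ∀ᶠ n in atTop, Real.exp (-(L n / 2)) / 2 ≤ h n ∧ h n ≤ 2 * Real.exp (-(L n / 2))) :
    Tendsto (fun n => -Real.log (h n) / L n) atTop (nhds (1 / 2)) := by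
  have h2 : Tendsto (fun n => 1 / 2 - Real.log 2 / L n) atTop (nhds (1 / 2 - 0)) :=
    tendsto_const_nhds.sub (hL.const_div_atTop _)
  have h3 : Tendsto (fun n => 1 / 2 + Real.log 2 / L n) atTop (nhds (1 / 2 + 0)) :=
    tendsto_const_nhds.add (hL.const_div_atTop _)
  rw [sub_zero] at h2
  rw [add_zero] at h3
  refine tendsto_of_tendsto_of_tendsto_of_le_of_le' h2 h3 ?_ ?_
  · filter_upwards [h1, hL.eventually_gt_atTop 0] with n hn hn0
    have := (AS_B_bd hn.1 hn.2).1
    rw [le_div_iff₀ hn0]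
    have e : (1 / 2 - Real.log 2 / L n) * L n = L n / 2 - Real.log 2 := by field_simp
    linarith
  · filter_upwards [h1, hL.eventually_gt_atTop 0] with n hn hn0
    have := (AS_B_bd hn.1 hn.2).2
    rw [div_le_iff₀ hn0]
    have e : (1 / 2 + Real.log 2 / L n) * L n = L n / 2 + Real.log 2 := by field_simp
    linarith

theorem AS_B_top (hL : Tendsto L atTop atTop)
    (h1 : ∀ᶠ n in atTop, Real.exp (-(L n / 2)) / 2 ≤ h n ∧ h n ≤ 2 * Real.exp (-(L n / 2))) :
    Tendsto (fun n => -Real.log (h n)) atTop atTop := by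
  have h2 : Tendsto (fun n => L n / 2 - Real.log 2) atTop atTop :=
    tendsto_atTop_add_const_right _ _ (hL.atTop_div_const (by norm_num))
  refine tendsto_atTop_mono' _ ?_ h2
  filter_upwards [h1] with n hn
  exact (AS_B_bd hn.1 hn.2).1

theorem AS_q1 (hL : Tendsto L atTop atTop)
    (h1 : ∀ᶠ n in atTop, Real.exp (-(L n / 2)) / 2 ≤ h n ∧ h n ≤ 2 * Real.exp (-(L n / 2))) :
    Tendsto (fun n => h n / (1 - Real.exp (-h n))) atTop (nhds 1) := by
  have h2 : Tendsto (fun n => 1 + h n) atTop (nhds (1 + 0)) :=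
    tendsto_const_nhds.add (AS_h_lim hL h1)
  rw [add_zero] at h2
  refine tendsto_of_tendsto_of_tendsto_of_le_of_le' tendsto_const_nhds h2 ?_ ?_
  · filter_upwards [h1] with n hn
    have h0 := AS_h_pos hn.1
    have e1 : Real.exp (-h n) < 1 := Real.exp_lt_one_iff.2 (by linarith)
    rw [le_div_iff₀ (by linarith)]
    have := Real.add_one_le_exp (-h n)
    linarith
  · filter_upwards [h1] with n hn
    have h0 := AS_h_pos hn.1
    have e1 : Real.exp (-h n) < 1 := Real.exp_lt_one_iff.2 (by linarith)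
    rw [div_le_iff₀ (by linarith)]
    have e2 : Real.exp (-h n) ≤ 1 / (1 + h n) := by
      rw [Real.exp_neg, ← one_div]
      apply one_div_le_one_div_of_le (by linarith)
      have := Real.add_one_le_exp (h n)
      linarith
    have e3 : (1 + h n) * (1 / (1 + h n)) = 1 := by field_simp
    nlinarith

theorem AS_q2 (hL : Tendsto L atTop atTop)
    (h1 : ∀ᶠ n in atTop, Real.exp (-(L n / 2)) / 2 ≤ h n ∧ h n ≤ 2 * Real.exp (-(L n / 2))) :
    Tendsto (fun n => h n / (Real.exp (h n) - 1)) atTop (nhds 1) := by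
  have h2 : Tendsto (fun n => 1 - h n) atTop (nhds (1 - 0)) :=
    tendsto_const_nhds.sub (AS_h_lim hL h1)
  rw [sub_zero] at h2
  refine tendsto_of_tendsto_of_tendsto_of_le_of_le' h2 tendsto_const_nhds ?_ ?_
  · filter_upwards [h1] with n hn
    have h0 := AS_h_pos hn.1
    have e1 := Real.add_one_lt_exp h0.ne'
    rw [le_div_iff₀ (by linarith)]
    have e2 := Real.add_one_le_exp (-h n)
    have e3 : Real.exp (h n) * Real.exp (-h n) = 1 := by rw [← Real.exp_add]; simp
    nlinarith [Real.exp_pos (h n)]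
  · filter_upwards [h1] with n hn
    have h0 := AS_h_pos hn.1
    have e1 := Real.add_one_lt_exp h0.ne'
    rw [div_le_iff₀ (by linarith)]
    linarith

/-- limit of the upper bound -/
theorem AS_U_lim (hL : Tendsto L atTop atTop)
    (h1 : ∀ᶠ n in atTop, Real.exp (-(L n / 2)) / 2 ≤ h n ∧ h n ≤ 2 * Real.exp (-(L n / 2)))
    {C C1 ε : ℝ} (hC : 0 < C) (hC1 : 0 < C1) (hε : 0 < ε) (hε1 : ε ≤ 1 / 16) :
    Tendsto (fun n => (Real.exp (L n) * ((1 + C * Real.exp (L n / 4)) *
        (C1 * Real.exp (3 * L n / 4) * Real.exp (-Real.exp (ε * (-Real.log (h n)))))) +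
      Real.exp (L n) * ((Real.exp (-(L n ^ 2 / 2)) * (1 + C * Real.exp (L n / 4))) *
        (C1 * Real.exp (3 * L n / 4))) +
      (1 + C * L n ^ 2 * Real.exp (-(L n / 4))) *
        (h n / (1 - Real.exp (-h n)) / ((1 - ε) * (-Real.log (h n))) +
          (Real.exp (-(L n / 16)) + C1 * L n ^ 3 * Real.exp (-(L n / 8))) *
            (Real.exp (-((1 - ε) * (-Real.log (h n)))) / (1 - Real.exp (-h n))))) * L n)
      atTop (nhds (2 / (1 - ε))) := by
  -- crude bound of the two outer pieces
  have hcr : ∀ n, 0 ≤ L n → Real.exp (L n) * (1 + C * Real.exp (L n / 4)) *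
      (C1 * Real.exp (3 * L n / 4)) ≤ (1 + C) * C1 * Real.exp (2 * L n) := by
    intro n hn
    have e1 : 1 + C * Real.exp (L n / 4) ≤ (1 + C) * Real.exp (L n / 4) := by
      have : 1 ≤ Real.exp (L n / 4) := Real.one_le_exp (by linarith)
      linarith
    have e2 : Real.exp (L n) * ((1 + C) * Real.exp (L n / 4)) * (C1 * Real.exp (3 * L n / 4)) =
        (1 + C) * C1 * Real.exp (2 * L n) := by
      have : Real.exp (2 * L n) = Real.exp (L n) * Real.exp (L n / 4) * Real.exp (3 * L n / 4) := by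
        rw [← Real.exp_add, ← Real.exp_add]; congr 1; ring
      rw [this]; ring
    rw [← e2]
    gcongr
  have hsq : ∀ c : ℝ, 0 < c → Tendsto (fun n => (1 + C) * C1 *
      (L n * Real.exp (2 * L n) * Real.exp (-(c * L n ^ 2)))) atTop (nhds 0) := by
    intro c hc
    have := ((AS_lim_sq hc).comp hL).const_mul ((1 + C) * C1)
    rw [mul_zero] at this
    exact this
  have t1 : Tendsto (fun n => Real.exp (L n) * ((1 + C * Real.exp (L n / 4)) *
        (C1 * Real.exp (3 * L n / 4) * Real.exp (-Real.exp (ε * (-Real.log (h n)))))) * L n)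
      atTop (nhds 0) := by
    refine squeeze_zero' ?_ ?_ (hsq (ε ^ 2 / 32) (by positivity))
    · filter_upwards [hL.eventually_ge_atTop 0] with n hn
      positivity
    · filter_upwards [h1, hL.eventually_ge_atTop (4 * Real.log 2), hL.eventually_ge_atTop 0]
        with n hn hn1 hn2
      have e1 : Real.exp (-Real.exp (ε * (-Real.log (h n)))) ≤
          Real.exp (-(ε ^ 2 / 32 * L n ^ 2)) := by
        apply Real.exp_le_exp.2
        have e2 := (AS_B_bd hn.1 hn.2).1
        have e3 : 0 ≤ ε * (L n / 4) := by positivity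
        have e4 : ε * (L n / 4) ≤ ε * (-Real.log (h n)) :=
          mul_le_mul_of_nonneg_left (by linarith) hε.le
        have e5 := Real.quadratic_le_exp_of_nonneg e3
        have e6 := Real.exp_le_exp.2 e4
        nlinarith
      calc Real.exp (L n) * ((1 + C * Real.exp (L n / 4)) *
        (C1 * Real.exp (3 * L n / 4) * Real.exp (-Real.exp (ε * (-Real.log (h n)))))) * L n =
          (Real.exp (L n) * (1 + C * Real.exp (L n / 4)) * (C1 * Real.exp (3 * L n / 4))) *
            Real.exp (-Real.exp (ε * (-Real.log (h n)))) * L n := by ring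
        _ ≤ ((1 + C) * C1 * Real.exp (2 * L n)) * Real.exp (-(ε ^ 2 / 32 * L n ^ 2)) * L n := by
            apply mul_le_mul_of_nonneg_right _ hn2
            exact mul_le_mul (hcr n hn2) e1 (Real.exp_pos _).le (by positivity)
        _ = _ := by ring
  have t2 : Tendsto (fun n => Real.exp (L n) * ((Real.exp (-(L n ^ 2 / 2)) *
      (1 + C * Real.exp (L n / 4))) * (C1 * Real.exp (3 * L n / 4))) * L n) atTop (nhds 0) := by
    refine squeeze_zero' ?_ ?_ (hsq (1 / 2) (by norm_num))
    · filter_upwards [hL.eventually_ge_atTop 0] with n hn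
      positivity
    · filter_upwards [hL.eventually_ge_atTop 0] with n hn2
      calc Real.exp (L n) * ((Real.exp (-(L n ^ 2 / 2)) *
          (1 + C * Real.exp (L n / 4))) * (C1 * Real.exp (3 * L n / 4))) * L n =
          (Real.exp (L n) * (1 + C * Real.exp (L n / 4)) * (C1 * Real.exp (3 * L n / 4))) *
            Real.exp (-(L n ^ 2 / 2)) * L n := by ring
        _ ≤ ((1 + C) * C1 * Real.exp (2 * L n)) * Real.exp (-(L n ^ 2 / 2)) * L n := by
            apply mul_le_mul_of_nonneg_right _ hn2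
            exact mul_le_mul_of_nonneg_right (hcr n hn2) (Real.exp_pos _).le
        _ = _ := by
            have : L n ^ 2 / 2 = 1 / 2 * L n ^ 2 := by ring
            rw [this]; ring
  -- the factor in front
  have hpw : ∀ (k : ℕ) (c : ℝ), 0 < c → Tendsto (fun n => L n ^ k * Real.exp (-(c * L n))) atTop
      (nhds 0) := fun k c hc => (AS_lim_pow k hc).comp hL
  have t3 : Tendsto (fun n => 1 + C * L n ^ 2 * Real.exp (-(L n / 4))) atTop (nhds 1) := by
    have := ((hpw 2 (1 / 4) (by norm_num)).const_mul C).const_add 1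
    rw [mul_zero, add_zero] at this
    refine this.congr fun n => ?_
    have e : L n / 4 = 1 / 4 * L n := by ring
    rw [e]; ring
  have hεpos : 0 < 1 - ε := by linarith
  have t4 : Tendsto (fun n => h n / (1 - Real.exp (-h n)) / ((1 - ε) * (-Real.log (h n))) * L n)
      atTop (nhds (2 / (1 - ε))) := by
    have e1 := (AS_B_lim hL h1).inv₀ (by norm_num)
    have e2 := ((AS_q1 hL h1).mul e1).div_const (1 - ε)
    have e3 : 1 * ((1 : ℝ) / 2)⁻¹ / (1 - ε) = 2 / (1 - ε) := by norm_num
    rw [e3] at e2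
    refine e2.congr' ?_
    filter_upwards [(AS_B_top hL h1).eventually_gt_atTop 0, hL.eventually_gt_atTop 0] with n hn hn0
    have hne : Real.log (h n) ≠ 0 := by
      intro h; rw [h] at hn; simp at hn
    rw [inv_div]
    field_simp
  have t5 : Tendsto (fun n => (Real.exp (-(L n / 16)) + C1 * L n ^ 3 * Real.exp (-(L n / 8))) *
            (Real.exp (-((1 - ε) * (-Real.log (h n)))) / (1 - Real.exp (-h n))) * L n)
      atTop (nhds 0) := by
    have e1 := ((hpw 1 (1 / 32) (by norm_num)).const_mul 4).add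
      ((hpw 4 (3 / 32) (by norm_num)).const_mul (4 * C1))
    rw [mul_zero, mul_zero, add_zero] at e1
    refine squeeze_zero' ?_ ?_ e1
    · filter_upwards [h1, hL.eventually_ge_atTop 0] with n hn hn0
      have h0 := AS_h_pos hn.1
      have e2 : Real.exp (-h n) < 1 := Real.exp_lt_one_iff.2 (by linarith)
      have e3 : 0 ≤ Real.exp (-((1 - ε) * (-Real.log (h n)))) / (1 - Real.exp (-h n)) :=
        div_nonneg (Real.exp_pos _).le (by linarith)
      positivity
    · filter_upwards [h1, hL.eventually_ge_atTop 0,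
        (AS_h_lim hL h1).eventually_le_const (by norm_num : (0 : ℝ) < 1)] with n hn hn0 hn1
      have h0 := AS_h_pos hn.1
      have e2 := AS_one_sub_exp_ge h0 hn1
      have e3 : Real.exp (-((1 - ε) * (-Real.log (h n)))) / (1 - Real.exp (-h n)) ≤
          4 * Real.exp (L n / 32) := by
        rw [div_le_iff₀ (by linarith)]
        have e4 : Real.exp (-((1 - ε) * (-Real.log (h n)))) =
            h n * Real.exp (ε * (-Real.log (h n))) := by
          conv_rhs => rw [← Real.exp_log h0]
          rw [← Real.exp_add, Real.log_exp]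
          congr 1
          ring
        have e5 : Real.exp (ε * (-Real.log (h n))) ≤ 2 * Real.exp (L n / 32) := by
          have e6 := (AS_B_bd hn.1 hn.2).2
          have hl2 : 0 ≤ Real.log 2 := Real.log_nonneg (by norm_num)
          have e7 : ε * (-Real.log (h n)) ≤ L n / 32 + Real.log 2 := by
            calc ε * (-Real.log (h n)) ≤ ε * (L n / 2 + Real.log 2) :=
                  mul_le_mul_of_nonneg_left e6 hε.le
              _ ≤ 1 / 16 * (L n / 2 + Real.log 2) :=
                  mul_le_mul_of_nonneg_right hε1 (by positivity)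
              _ ≤ _ := by linarith
          have e8 := Real.exp_le_exp.2 e7
          rw [Real.exp_add, Real.exp_log (by norm_num)] at e8
          linarith
        rw [e4]
        calc h n * Real.exp (ε * -Real.log (h n)) ≤ h n * (2 * Real.exp (L n / 32)) :=
              mul_le_mul_of_nonneg_left e5 h0.le
          _ = 4 * Real.exp (L n / 32) * (h n / 2) := by ring
          _ ≤ _ := mul_le_mul_of_nonneg_left e2 (by positivity)
      calc (Real.exp (-(L n / 16)) + C1 * L n ^ 3 * Real.exp (-(L n / 8))) *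
            (Real.exp (-((1 - ε) * (-Real.log (h n)))) / (1 - Real.exp (-h n))) * L n ≤
          (Real.exp (-(L n / 16)) + C1 * L n ^ 3 * Real.exp (-(L n / 8))) *
            (4 * Real.exp (L n / 32)) * L n := by
            apply mul_le_mul_of_nonneg_right _ hn0
            exact mul_le_mul_of_nonneg_left e3 (by positivity)
        _ = 4 * (L n ^ 1 * (Real.exp (-(L n / 16)) * Real.exp (L n / 32))) +
            4 * C1 * (L n ^ 4 * (Real.exp (-(L n / 8)) * Real.exp (L n / 32))) := by ring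
        _ = _ := by
            rw [← Real.exp_add, ← Real.exp_add]
            congr 4
            · ring
            · ring
  have t6 := (t1.add t2).add (t3.mul (t4.add t5))
  have e : (0 : ℝ) + 0 + 1 * (2 / (1 - ε) + 0) = 2 / (1 - ε) := by ring
  rw [e] at t6
  refine t6.congr fun n => ?_
  ring

/-- limit of the lower bound -/
theorem AS_Lw_lim (hL : Tendsto L atTop atTop)
    (h1 : ∀ᶠ n in atTop, Real.exp (-(L n / 2)) / 2 ≤ h n ∧ h n ≤ 2 * Real.exp (-(L n / 2)))
    {C C1 ε : ℝ} (hε : 0 < ε) :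
    Tendsto (fun n => (1 - 2 * C * L n * Real.exp (-(L n / 4))) *
      (h n / (Real.exp (h n) - 1) / ((1 + ε) ^ 2 * (-Real.log (h n))) *
        (Real.exp (-((1 + ε) ^ 2 * (-Real.log (h n)) *
            (Real.exp (h n) * Real.exp (-(ε * (-Real.log (h n))))))) -
          Real.exp (-((1 + ε) ^ 2 * (-Real.log (h n)) / 16))) -
        C1 * L n ^ 2 * Real.exp (-(L n / 8)) * (h n / 16 / (1 - Real.exp (-h n)))) * L n)
      atTop (nhds (2 / (1 + ε) ^ 2)) := by
  have hpw : ∀ (k : ℕ) (c : ℝ), 0 < c → Tendsto (fun n => L n ^ k * Real.exp (-(c * L n))) atTop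
      (nhds 0) := fun k c hc => (AS_lim_pow k hc).comp hL
  have hBt := AS_B_top hL h1
  have t1 : Tendsto (fun n => 1 - 2 * C * L n * Real.exp (-(L n / 4))) atTop (nhds 1) := by
    have := ((hpw 1 (1 / 4) (by norm_num)).const_mul (2 * C)).const_sub 1
    rw [mul_zero, sub_zero] at this
    refine this.congr fun n => ?_
    have e : L n / 4 = 1 / 4 * L n := by ring
    rw [e]; ring
  have t2 : Tendsto (fun n => h n / (Real.exp (h n) - 1) / ((1 + ε) ^ 2 * (-Real.log (h n))) * L n)
      atTop (nhds (2 / (1 + ε) ^ 2)) := by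
    have e1 := (AS_B_lim hL h1).inv₀ (by norm_num)
    have e2 := ((AS_q2 hL h1).mul e1).div_const ((1 + ε) ^ 2)
    have e3 : 1 * ((1 : ℝ) / 2)⁻¹ / (1 + ε) ^ 2 = 2 / (1 + ε) ^ 2 := by norm_num
    rw [e3] at e2
    refine e2.congr' ?_
    filter_upwards [hBt.eventually_gt_atTop 0, hL.eventually_gt_atTop 0] with n hn hn0
    have hne : Real.log (h n) ≠ 0 := by
      intro h; rw [h] at hn; simp at hn
    rw [inv_div]
    field_simp
  have t3 : Tendsto (fun n => Real.exp (-((1 + ε) ^ 2 * (-Real.log (h n)) *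
            (Real.exp (h n) * Real.exp (-(ε * (-Real.log (h n))))))) -
          Real.exp (-((1 + ε) ^ 2 * (-Real.log (h n)) / 16))) atTop (nhds 1) := by
    have e1 : Tendsto (fun n => (1 + ε) ^ 2 * (-Real.log (h n)) *
            (Real.exp (h n) * Real.exp (-(ε * (-Real.log (h n)))))) atTop (nhds 0) := by
      have f1 := ((AS_lim_pow 1 hε).comp hBt).const_mul ((1 + ε) ^ 2)
      have f2 := (Real.continuous_exp.tendsto 0).comp (AS_h_lim hL h1)
      have f3 := f1.mul f2
      rw [mul_zero, zero_mul] at f3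
      refine f3.congr fun n => ?_
      simp only [Function.comp_apply, pow_one]
      ring
    have e1' := e1.neg
    rw [neg_zero] at e1'
    have e2 := (Real.continuous_exp.tendsto 0).comp e1'
    have e3 : Tendsto (fun n => Real.exp (-((1 + ε) ^ 2 * (-Real.log (h n)) / 16))) atTop
        (nhds 0) := by
      have f1 := (AS_lim_pow 0 (by positivity : 0 < (1 + ε) ^ 2 / 16)).comp hBt
      refine f1.congr fun n => ?_
      simp only [Function.comp_apply, pow_zero, one_mul]
      congr 1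
      ring
    have e4 := e2.sub e3
    rw [Real.exp_zero, sub_zero] at e4
    exact e4
  have t4 : Tendsto (fun n => C1 * L n ^ 2 * Real.exp (-(L n / 8)) *
      (h n / 16 / (1 - Real.exp (-h n))) * L n) atTop (nhds 0) := by
    have e1 := ((hpw 3 (1 / 8) (by norm_num)).mul (AS_q1 hL h1)).const_mul (C1 / 16)
    rw [zero_mul, mul_zero] at e1
    refine e1.congr fun n => ?_
    have e : L n / 8 = 1 / 8 * L n := by ring
    rw [e]; ring
  have t5 := t1.mul ((t2.mul t3).sub t4)
  have e : (1 : ℝ) * (2 / (1 + ε) ^ 2 * 1 - 0) = 2 / (1 + ε) ^ 2 := by ring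
  rw [e] at t5
  refine t5.congr fun n => ?_
  ring

end

theorem row_AS : AS_stmt := by
  intro η C N0 C1 N1 hP hE
  have hC := hP.hC
  have hC1 := hE.hC
  have hL : Tendsto (fun n : ℕ => Real.log (n : ℝ)) atTop atTop :=
    Real.tendsto_log_atTop.comp tendsto_natCast_atTop_atTop
  have hax : ∀ n ≥ max N0 N1, AX n (Real.log n) (η n) C C1 (fun t => (pp (n - t) : ℝ) / pp n)
      (fun t => aa n t 0) := fun n hn =>
    AS_ax hP hE ((le_max_left _ _).trans hn) ((le_max_right _ _).trans hn)
  have h1 : ∀ᶠ n : ℕ in atTop, Real.exp (-(Real.log (n : ℝ) / 2)) / 2 ≤ η n ∧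
      η n ≤ 2 * Real.exp (-(Real.log (n : ℝ) / 2)) := by
    filter_upwards [eventually_ge_atTop (max N0 N1)] with n hn
    exact ⟨(hax n hn).low, (hax n hn).up⟩
  have hh0 := AS_h_lim hL h1
  have hB := AS_B_top hL h1
  have hBL := AS_B_lim hL h1
  -- upper and lower bounds for fixed ε
  have hup : ∀ ε : ℝ, 0 < ε → ε ≤ 1 / 16 → ∀ x, 2 / (1 - ε) < x →
      ∀ᶠ n : ℕ in atTop, S1 n * Real.log n < x := by
    intro ε hε hε1 x hx
    have hεp : 0 < 1 - ε := by linarith
    have hbB : Tendsto (fun n => (1 - ε) * (-Real.log (η n))) atTop atTop :=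
      hB.const_mul_atTop hεp
    filter_upwards [eventually_ge_atTop (max N0 N1), hL.eventually_ge_atTop 1,
      hbB.eventually_ge_atTop (Real.log 2), (AS_U_lim hL h1 hC hC1 hε hε1).eventually_lt_const hx]
      with n hn hL1 hb hlt
    refine lt_of_le_of_lt (mul_le_mul_of_nonneg_right ?_ (by linarith)) hlt
    refine (hax n hn).upper hL1 ?_ ?_
    · exact lt_of_lt_of_le (Real.log_pos (by norm_num)) hb
    · have h2 : Real.exp (-Real.log 2) = 1 / 2 := by
        rw [Real.exp_neg, Real.exp_log (by norm_num)]; norm_num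
      rw [← h2]
      exact Real.exp_le_exp.2 (by linarith)
  have hlow : ∀ ε : ℝ, 0 < ε → ε ≤ 1 / 16 → ∀ x, x < 2 / (1 + ε) ^ 2 →
      ∀ᶠ n : ℕ in atTop, x < S1 n * Real.log n := by
    intro ε hε hε1 x hx
    have q1 : ∀ᶠ n : ℕ in atTop, (1 + ε) * (-Real.log (η n)) ≤ Real.log n := by
      have e1 : (1 : ℝ) / 2 < 1 / (1 + ε) := by
        rw [div_lt_div_iff₀ (by norm_num) (by linarith)]
        linarith
      filter_upwards [hBL.eventually_lt_const e1, hL.eventually_gt_atTop 0] with n hn hn0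
      rw [div_lt_div_iff₀ hn0 (by linarith)] at hn
      linarith
    have q2 : ∀ᶠ n : ℕ in atTop, 2 * Real.log (n : ℝ) ≤ Real.exp (Real.log (n : ℝ) / 2) := by
      have e1 := (AS_lim_pow 1 (by norm_num : (0 : ℝ) < 1 / 2)).comp hL
      filter_upwards [e1.eventually_lt_const (by norm_num : (0 : ℝ) < 1 / 2)] with n hn
      simp only [Function.comp_apply, pow_one] at hn
      have e2 : Real.exp (Real.log (n : ℝ) / 2) * Real.exp (-(1 / 2 * Real.log (n : ℝ))) = 1 := by
        rw [← Real.exp_add]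
        have : Real.log (n : ℝ) / 2 + -(1 / 2 * Real.log (n : ℝ)) = 0 := by ring
        rw [this, Real.exp_zero]
      have e3 := mul_lt_mul_of_pos_left hn (Real.exp_pos (Real.log (n : ℝ) / 2))
      have e4 : Real.exp (Real.log (n : ℝ) / 2) *
          (Real.log n * Real.exp (-(1 / 2 * Real.log (n : ℝ)))) = Real.log n := by
        linear_combination (Real.log (n : ℝ)) * e2
      rw [e4] at e3
      linarith
    have q3 : ∀ᶠ n : ℕ in atTop, 1 ≤ (1 - η n / 16) ^ 2 * (1 + ε) := by
      have e1 : Tendsto (fun n : ℕ => (1 - η n / 16) ^ 2 * (1 + ε)) atTop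
          (nhds ((1 - 0 / 16) ^ 2 * (1 + ε))) :=
        (((hh0.div_const 16).const_sub 1).pow 2).mul_const _
      have e2 : (1 : ℝ) < (1 - 0 / 16) ^ 2 * (1 + ε) := by norm_num; linarith
      filter_upwards [e1.eventually_const_lt e2] with n hn
      exact hn.le
    have q4 : ∀ᶠ n : ℕ in atTop, -Real.log (η n) + Real.log 16 ≤ (1 + ε) * (-Real.log (η n)) := by
      filter_upwards [(hB.const_mul_atTop hε).eventually_ge_atTop (Real.log 16)] with n hn
      linarith
    have q5 : ∀ᶠ n : ℕ in atTop,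
        0 ≤ 1 - 2 * C * Real.log n * Real.exp (-(Real.log (n : ℝ) / 4)) := by
      have e1 := (((AS_lim_pow 1 (by norm_num : (0 : ℝ) < 1 / 4)).comp hL).const_mul
        (2 * C)).const_sub 1
      rw [mul_zero, sub_zero] at e1
      filter_upwards [e1.eventually_const_lt (by norm_num : (0 : ℝ) < 1)] with n hn
      simp only [Function.comp_apply, pow_one] at hn
      have e : Real.log (n : ℝ) / 4 = 1 / 4 * Real.log n := by ring
      rw [e]
      linarith
    filter_upwards [eventually_ge_atTop (max N0 N1), hL.eventually_gt_atTop 0, q1, q2, q3, q4, q5,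
      hB.eventually_gt_atTop 0, hh0.eventually_le_const (by norm_num : (0 : ℝ) < 1),
      (AS_Lw_lim (C := C) (C1 := C1) hL h1 hε).eventually_const_lt hx]
      with n hn hL0 r1 r2 r3 r4 r5 r6 r7 hlt
    refine lt_of_lt_of_le hlt (mul_le_mul_of_nonneg_right ?_ hL0.le)
    exact (hax n hn).lower hε rfl r6 r1 r2 hL0 r3 r7 r4 r5
  rw [tendsto_order]
  constructor
  · intro x hx
    -- choose ε
    have e1 : Tendsto (fun ε : ℝ => 2 / (1 + ε) ^ 2) (nhdsWithin 0 (Set.Ioi 0)) (nhds 2) := by
      have : ContinuousAt (fun ε : ℝ => 2 / (1 + ε) ^ 2) 0 := by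
        apply ContinuousAt.div continuousAt_const (by fun_prop)
        norm_num
      have h2 := this.tendsto
      norm_num at h2
      exact h2.mono_left nhdsWithin_le_nhds
    obtain ⟨ε, h3, h4, h5⟩ := ((e1.eventually_const_lt hx).and
      (Ioc_mem_nhdsGT (by norm_num : (0 : ℝ) < 1 / 16))).exists
    exact hlow ε h4 h5 x h3
  · intro x hx
    have e1 : Tendsto (fun ε : ℝ => 2 / (1 - ε)) (nhdsWithin 0 (Set.Ioi 0)) (nhds 2) := by
      have : ContinuousAt (fun ε : ℝ => 2 / (1 - ε)) 0 := by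
        apply ContinuousAt.div continuousAt_const (by fun_prop)
        norm_num
      have h2 := this.tendsto
      norm_num at h2
      exact h2.mono_left nhdsWithin_le_nhds
    obtain ⟨ε, h3, h4, h5⟩ := ((e1.eventually_lt_const hx).and
      (Ioc_mem_nhdsGT (by norm_num : (0 : ℝ) < 1 / 16))).exists
    exact hup ε h4 h5 x h3

end ZT68
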