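/-
MP_1882ea_al, helper49.  Row B2: the bad events for which at least two parts are involved.
-/
import Mathlib
import Pool.Agent.Lib.ZT68.Defs

namespace ZT68

open Finset Filter

theorem B2_pp_pos (n : ℕ) : (0 : ℝ) < (pp n : ℝ) := by
  have : 0 < pp n := Fintype.card_pos
  exact_mod_cast this

theorem B2_aa_nonneg (n r : ℕ) {x : ℝ} (hx : 0 ≤ x) : 0 ≤ aa n r x := by
  unfold aa
  exact div_nonneg (Finset.sum_nonneg fun Y _ => pow_nonneg hx _) (B2_pp_pos n).le

theorem B2_bb_nonneg (n r : ℕ) {c : ℝ} (hc : 0 ≤ c) : 0 ≤ bb n r c := by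
  unfold bb
  refine div_nonneg (Finset.sum_nonneg fun Y _ => ?_) (B2_pp_pos n).le
  split_ifs
  · positivity
  · exact le_rfl

theorem B2_TT_nonneg (n k r : ℕ) : 0 ≤ TT n k r := by
  unfold TT
  refine div_nonneg (Finset.sum_nonneg fun Y _ => Finset.sum_nonneg fun μ _ => ?_) (sq_nonneg _)
  split_ifs
  · exact zero_le_one
  · exact le_rfl

/-- (G1) -/
theorem B2_G1 (n k r : ℕ) {x : ℝ} (hx : 0 < x) (hx1 : x ≤ 1) :
    TT n k r ≤ aa n r x * bb n r ((x ^ 2)⁻¹) := by
  have hp := B2_pp_pos n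
  unfold TT aa bb
  rw [div_mul_div_comm, ← sq]
  refine div_le_div_of_nonneg_right ?_ (sq_nonneg _)
  rw [Finset.sum_mul_sum]
  refine Finset.sum_le_sum fun Y _ => Finset.sum_le_sum fun μ _ => ?_
  by_cases h : r ∈ μ.parts ∧ 2 ≤ WW r μ ∧ hn r Y + 2 ≤ 2 * min (WW r μ) k
  · rw [if_pos h, if_pos ⟨h.1, h.2.1⟩]
    have h1 : hn r Y ≤ 2 * (WW r μ - 1) := by
      have := h.2.2
      have h2 : min (WW r μ) k ≤ WW r μ := min_le_left _ _
      omega
    rw [inv_pow, ← pow_mul, ← div_eq_mul_inv, one_le_div (by positivity)]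
    exact pow_le_pow_of_le_one hx.le hx1 h1
  · rw [if_neg h]
    split_ifs
    · positivity
    · simp

/-- (G2) -/
theorem B2_G2 (n k r : ℕ) : TT n k r ≤ (4 : ℝ) ^ k * aa n r (1 / 2) := by
  have hp := B2_pp_pos n
  unfold TT aa
  rw [div_le_iff₀ (by positivity)]
  have e : (4 : ℝ) ^ k * ((∑ Y ∈ DD n, (1 / 2 : ℝ) ^ hn r Y) / (pp n : ℝ)) * (pp n : ℝ) ^ 2 =
      ∑ Y ∈ DD n, ∑ μ : n.Partition, (4 : ℝ) ^ k * (1 / 2 : ℝ) ^ hn r Y := by
    simp only [Finset.sum_const, Finset.card_univ, nsmul_eq_mul]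
    rw [← Finset.mul_sum, ← Finset.mul_sum]
    have : (Fintype.card (Nat.Partition n) : ℝ) = (pp n : ℝ) := rfl
    rw [this]
    field_simp
  rw [e]
  refine Finset.sum_le_sum fun Y _ => Finset.sum_le_sum fun μ _ => ?_
  split_ifs with h
  · have h1 : hn r Y ≤ 2 * k := by
      have := h.2.2
      have h2 : min (WW r μ) k ≤ k := min_le_right _ _
      omega
    have h2 : (1 / 2 : ℝ) ^ (2 * k) ≤ (1 / 2 : ℝ) ^ hn r Y :=
      pow_le_pow_of_le_one (by norm_num) (by norm_num) h1
    calc (1 : ℝ) = (4 : ℝ) ^ k * (1 / 2 : ℝ) ^ (2 * k) := by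
          rw [pow_mul, ← mul_pow]; norm_num
      _ ≤ _ := by gcongr
  · positivity

/-- the asymptotic facts: polynomials against exponentials -/
theorem B2_ev (K : ℝ) (j : ℕ) {a ε : ℝ} (ha : 0 < a) (hε : 0 < ε) :
    ∀ᶠ L : ℝ in atTop, K * L ^ j * Real.exp (-(a * L)) ≤ ε := by
  have h := (isLittleO_pow_exp_pos_mul_atTop j ha)
  have h2 := h.tendsto_div_nhds_zero
  have h3 : Tendsto (fun L : ℝ => K * (L ^ j / Real.exp (a * L))) atTop (nhds (K * 0)) :=
    h2.const_mul K
  rw [mul_zero] at h3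
  have h4 := h3.eventually (gt_mem_nhds hε)
  filter_upwards [h4] with L hL
  rw [Real.exp_neg]
  have : K * L ^ j * (Real.exp (a * L))⁻¹ = K * (L ^ j / Real.exp (a * L)) := by
    rw [div_eq_mul_inv]; ring
  rw [this]
  exact hL.le

/-- `n`-level facts used in every regime; `L = log n` -/
structure B2_facts (L η C1 C2 : ℝ) : Prop where
  hL : 100 ≤ L
  hC1 : 0 < C1
  low : Real.exp (-(L / 2)) / 2 ≤ η
  up : η ≤ 2 * Real.exp (-(L / 2))
  f2 : |C2| * Real.exp (-(1 / 4 * L)) ≤ 0.0025
  f3 : |C2| * L ^ 2 * Real.exp (-(1 / 4 * L)) ≤ 0.009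
  f5 : C1 * Real.exp (3 / 4 * L) * Real.exp (-(Real.exp (-80) / 12 * Real.exp (L / 2))) ≤
    Real.exp (-(2 * L))
  f6 : C1 ≤ Real.exp (L / 4)
  f8 : Real.exp (-(L / 16)) + C1 * L ^ 3 * Real.exp (-(L / 8)) ≤ 1 / L ^ 2
  f9 : Real.exp (-L) ≤ 1 / L ^ 2
  f10 : Real.exp (-(L / 2)) ≤ 0.001

theorem B2_facts_ev (C1 C2 : ℝ) (hC1 : 0 < C1) : ∀ᶠ L : ℝ in atTop, ∀ η : ℝ,
    Real.exp (-(L / 2)) / 2 ≤ η → η ≤ 2 * Real.exp (-(L / 2)) → B2_facts L η C1 C2 := by
  have e2 := B2_ev (|C2|) 0 (a := 1 / 4) (ε := 0.0025) (by norm_num) (by norm_num)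
  have e3 := B2_ev (|C2|) 2 (a := 1 / 4) (ε := 0.009) (by norm_num) (by norm_num)
  have e5 := B2_ev (11 / 4) 1 (a := 1 / 2) (ε := Real.exp (-80) / 12 / 2) (by norm_num)
    (by positivity)
  have e5' := B2_ev (Real.log C1) 0 (a := 1 / 2) (ε := Real.exp (-80) / 12 / 2) (by norm_num)
    (by positivity)
  have e6 := B2_ev C1 0 (a := 1 / 4) (ε := 1) (by norm_num) (by norm_num)
  have e8 := B2_ev 1 2 (a := 1 / 16) (ε := 1 / 2) (by norm_num) (by norm_num)
  have e8' := B2_ev C1 5 (a := 1 / 8) (ε := 1 / 2) (by norm_num) (by norm_num)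
  have e9 := B2_ev 1 2 (a := 1) (ε := 1) (by norm_num) (by norm_num)
  have e10 := B2_ev 1 0 (a := 1 / 2) (ε := 0.001) (by norm_num) (by norm_num)
  filter_upwards [e2, e3, e5, e5', e6, e8, e8', e9, e10, eventually_ge_atTop 100] with
    L e2 e3 e5 e5' e6 e8 e8' e9 e10 hL η hlow hup
  have hLpos : 0 < L := by linarith
  refine ⟨hL, hC1, hlow, hup, ?_, ?_, ?_, ?_, ?_, ?_, ?_⟩
  · simpa using e2
  · exact e3
  · have hx : Real.exp (L / 2) * Real.exp (-(1 / 2 * L)) = 1 := by
      rw [← Real.exp_add]; simp; ring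
    have h1 : 11 / 4 * L ≤ Real.exp (-80) / 12 / 2 * Real.exp (L / 2) := by
      have := mul_le_mul_of_nonneg_right e5 (Real.exp_pos (L / 2)).le
      calc 11 / 4 * L = 11 / 4 * L ^ 1 * (Real.exp (L / 2) * Real.exp (-(1 / 2 * L))) := by
            rw [hx]; ring
        _ = 11 / 4 * L ^ 1 * Real.exp (-(1 / 2 * L)) * Real.exp (L / 2) := by ring
        _ ≤ _ := this
    have h2 : Real.log C1 ≤ Real.exp (-80) / 12 / 2 * Real.exp (L / 2) := by
      have := mul_le_mul_of_nonneg_right e5' (Real.exp_pos (L / 2)).le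
      calc Real.log C1 = Real.log C1 * L ^ 0 * (Real.exp (L / 2) * Real.exp (-(1 / 2 * L))) := by
            rw [hx]; ring
        _ = Real.log C1 * L ^ 0 * Real.exp (-(1 / 2 * L)) * Real.exp (L / 2) := by ring
        _ ≤ _ := this
    have h3 : C1 = Real.exp (Real.log C1) := (Real.exp_log hC1).symm
    rw [h3, ← Real.exp_add, ← Real.exp_add]
    apply Real.exp_le_exp.2
    linarith
  · have hx : Real.exp (L / 4) * Real.exp (-(1 / 4 * L)) = 1 := by
      rw [← Real.exp_add]; simp; ring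
    have := mul_le_mul_of_nonneg_right e6 (Real.exp_pos (L / 4)).le
    calc C1 = C1 * L ^ 0 * (Real.exp (L / 4) * Real.exp (-(1 / 4 * L))) := by
          rw [hx]; ring
      _ = C1 * L ^ 0 * Real.exp (-(1 / 4 * L)) * Real.exp (L / 4) := by ring
      _ ≤ 1 * Real.exp (L / 4) := this
      _ = _ := one_mul _
  · have hL2 : 0 < L ^ 2 := by positivity
    rw [le_div_iff₀ hL2]
    have a1 : (1 : ℝ) / 16 * L = L / 16 := by ring
    have a2 : (1 : ℝ) / 8 * L = L / 8 := by ring
    rw [a1] at e8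
    rw [a2] at e8'
    nlinarith
  · have hL2 : 0 < L ^ 2 := by positivity
    rw [le_div_iff₀ hL2]
    rw [one_mul, one_mul] at e9
    linarith
  · have a1 : (1 : ℝ) / 2 * L = L / 2 := by ring
    rw [a1] at e10
    simpa using e10

/-- summation of the geometric-type series -/
theorem B2_sum {η b : ℝ} (hη : 0 < η) (hη1 : η ≤ 1) (hb : 0 < b) (n : ℕ) :
    ∑ r ∈ Icc 1 n, η * (Real.exp (-(r * η)) / η) * Real.exp (-(b * (Real.exp (-(r * η)) / η))) ≤
      2 / b := by
  set u : ℕ → ℝ := fun r => Real.exp (-(r * η)) / η with hu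
  have hstep : ∀ r : ℕ, η * u r * Real.exp (-(b * u r)) ≤
      2 / b * (Real.exp (-(b * u (r + 1))) - Real.exp (-(b * u r))) := by
    intro r
    have hur : 0 < u r := by simp only [hu]; positivity
    have h1 : u (r + 1) = Real.exp (-η) * u r := by
      simp only [hu]
      rw [← mul_div_assoc, ← Real.exp_add]
      congr 2
      push_cast
      ring
    have h2 : 1 - Real.exp (-η) ≥ η / 2 := by
      have h3 : Real.exp (-η) ≤ 1 / (1 + η) := by
        rw [Real.exp_neg, inv_eq_one_div]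
        apply one_div_le_one_div_of_le (by positivity)
        linarith [Real.add_one_le_exp η]
      have h4 : (1 : ℝ) / (1 + η) ≤ 1 - η / 2 := by
        rw [div_le_iff₀ (by positivity)]
        nlinarith
      linarith
    -- exp(-b u') - exp(-b u) ≥ exp(-b u) * b (u - u')
    have h5 : Real.exp (-(b * u (r + 1))) - Real.exp (-(b * u r)) ≥
        Real.exp (-(b * u r)) * (b * (u r - u (r + 1))) := by
      have h6 : Real.exp (-(b * u (r + 1))) =
          Real.exp (-(b * u r)) * Real.exp (b * (u r - u (r + 1))) := by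
        rw [← Real.exp_add]; congr 1; ring
      rw [h6]
      have := Real.add_one_le_exp (b * (u r - u (r + 1)))
      have h7 := (Real.exp_pos (-(b * u r))).le
      nlinarith
    have h8 : u r - u (r + 1) = (1 - Real.exp (-η)) * u r := by rw [h1]; ring
    rw [h8] at h5
    have h9 : Real.exp (-(b * u r)) * (b * ((1 - Real.exp (-η)) * u r)) ≥
        Real.exp (-(b * u r)) * (b * (η / 2 * u r)) := by
      gcongr
    have h10 : η * u r * Real.exp (-(b * u r)) =
        2 / b * (Real.exp (-(b * u r)) * (b * (η / 2 * u r))) := by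
      field_simp
    rw [h10]
    gcongr
    linarith
  have htel : ∀ n : ℕ, ∑ r ∈ Icc 1 n, η * u r * Real.exp (-(b * u r)) ≤
      2 / b * (Real.exp (-(b * u (n + 1))) - Real.exp (-(b * u 1))) := by
    intro n
    induction n with
    | zero => simp
    | succ n ih =>
      rw [Finset.sum_Icc_succ_top (by omega)]
      have := hstep (n + 1)
      calc _ ≤ 2 / b * (Real.exp (-(b * u (n + 1))) - Real.exp (-(b * u 1))) +
            2 / b * (Real.exp (-(b * u (n + 1 + 1))) - Real.exp (-(b * u (n + 1)))) :=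
            add_le_add ih this
        _ = _ := by ring
  refine (htel n).trans ?_
  have h1 : Real.exp (-(b * u (n + 1))) ≤ 1 := by
    apply Real.exp_le_one_iff.2
    have : 0 < u (n + 1) := by simp only [hu]; positivity
    nlinarith
  have h2 := (Real.exp_pos (-(b * u 1))).le
  calc _ ≤ 2 / b * 1 := by
        gcongr
        linarith
    _ = _ := mul_one _

/-- regime A: `r * η ≤ 80` -/
theorem B2_A {L η C1 C2 : ℝ} (F : B2_facts L η C1 C2) {n k r : ℕ} (hr : 1 ≤ r)
    (hk : (k : ℝ) ≤ Real.exp (-80) / 12 * Real.exp (L / 2)) (hrη : r * η ≤ 80)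
    (hbig : aa n r (1 / 2) ≤ C1 * Real.exp (3 / 4 * L) * Real.exp (-(1 / 2 * lam η r))) :
    TT n k r ≤ Real.exp (-(2 * L)) := by
  have hC1 := F.hC1
  have hη : 0 < η := lt_of_lt_of_le (by positivity) F.low
  have hr0 : (0 : ℝ) < r := by exact_mod_cast hr
  set X : ℝ := Real.exp (-80) * Real.exp (L / 2) with hX
  have hXpos : 0 < X := by positivity
  -- lower bound of lam
  have hlam : X / 2 ≤ lam η r := by
    unfold lam
    have hx : 0 < (r : ℝ) * η := by positivity
    have h1 : Real.exp (r * η) - 1 ≤ r * η * Real.exp (r * η) := by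
      have h2 : 1 - r * η ≤ Real.exp (-(r * η)) := by
        linarith [Real.add_one_le_exp (-(r * η))]
      have h3 := mul_le_mul_of_nonneg_right h2 (Real.exp_pos (r * η)).le
      rw [← Real.exp_add] at h3
      simp at h3
      linarith
    have h0 : 0 < Real.exp (r * η) - 1 := by
      linarith [Real.add_one_lt_exp hx.ne']
    rw [le_div_iff₀ h0]
    have h4 : Real.exp (r * η) ≤ Real.exp 80 := Real.exp_le_exp.2 hrη
    have h5 : Real.exp (L / 2) * η ≤ 2 := by
      have := mul_le_mul_of_nonneg_left F.up (Real.exp_pos (L / 2)).le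
      have h6 : Real.exp (L / 2) * (2 * Real.exp (-(L / 2))) = 2 := by
        have : Real.exp (L / 2) * Real.exp (-(L / 2)) = 1 := by
          rw [← Real.exp_add]; simp
        linarith
      linarith
    calc X / 2 * (Real.exp (r * η) - 1) ≤ X / 2 * (r * η * Real.exp (r * η)) := by gcongr
      _ ≤ X / 2 * (r * η * Real.exp 80) := by gcongr
      _ = (Real.exp (-80) * Real.exp 80) * (Real.exp (L / 2) * η) * r / 2 := by rw [hX]; ring
      _ = (Real.exp (L / 2) * η) * r / 2 := by rw [← Real.exp_add]; simp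
      _ ≤ 2 * r / 2 := by gcongr
      _ = r := by ring
  have h4k : (4 : ℝ) ^ k ≤ Real.exp (1.4 * k) := by
    have hlog : Real.log 4 ≤ 1.4 := by
      have : (4 : ℝ) = 2 ^ 2 := by norm_num
      rw [this, Real.log_pow]
      have := Real.log_two_lt_d9
      push_cast
      linarith
    have h5 : (4 : ℝ) = Real.exp (Real.log 4) := (Real.exp_log (by norm_num)).symm
    calc (4 : ℝ) ^ k = Real.exp (k * Real.log 4) := by
          rw [Real.exp_nat_mul, ← h5]
      _ ≤ _ := by
          apply Real.exp_le_exp.2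
          have : (0 : ℝ) ≤ k := Nat.cast_nonneg k
          nlinarith
  calc TT n k r ≤ (4 : ℝ) ^ k * aa n r (1 / 2) := B2_G2 n k r
    _ ≤ Real.exp (1.4 * k) * (C1 * Real.exp (3 / 4 * L) * Real.exp (-(1 / 2 * lam η r))) := by
        gcongr
        exact B2_aa_nonneg n r (by norm_num)
    _ = C1 * Real.exp (3 / 4 * L) * Real.exp (1.4 * k + -(1 / 2 * lam η r)) := by
        rw [Real.exp_add]; ring
    _ ≤ C1 * Real.exp (3 / 4 * L) * Real.exp (-(Real.exp (-80) / 12 * Real.exp (L / 2))) := by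
        gcongr
        have hk' : (k : ℝ) ≤ X / 12 := by rw [hX]; linarith
        have : Real.exp (-80) / 12 * Real.exp (L / 2) = X / 12 := by rw [hX]; ring
        rw [this]
        linarith
    _ ≤ _ := F.f5

/-- closeness of the two exponents -/
theorem B2_eta {L η C1 C2 : ℝ} (F : B2_facts L η C1 C2) :
    0.995 * η ≤ η - C2 * Real.exp (-(3 / 4 * L)) ∧ η - C2 * Real.exp (-(3 / 4 * L)) ≤ 0.003 ∧
      0.99 * η ≤ 1 - Real.exp (-(η - C2 * Real.exp (-(3 / 4 * L)))) := by
  have hη : 0 < η := lt_of_lt_of_le (by positivity) F.low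
  have e1 : Real.exp (-(3 / 4 * L)) = Real.exp (-(1 / 4 * L)) * Real.exp (-(L / 2)) := by
    rw [← Real.exp_add]; congr 1; ring
  have h1 : |C2 * Real.exp (-(3 / 4 * L))| ≤ 0.005 * η := by
    rw [abs_mul, abs_of_pos (Real.exp_pos _), e1]
    have h2 := mul_le_mul_of_nonneg_right F.f2 (Real.exp_pos (-(L / 2))).le
    have h3 := F.low
    calc |C2| * (Real.exp (-(1 / 4 * L)) * Real.exp (-(L / 2))) =
          |C2| * Real.exp (-(1 / 4 * L)) * Real.exp (-(L / 2)) := by ring
      _ ≤ 0.0025 * Real.exp (-(L / 2)) := h2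
      _ ≤ _ := by linarith
  have h2 := abs_le.1 h1
  have hup : η ≤ 0.002 := by
    have := F.up
    have := F.f10
    linarith
  set E := C2 * Real.exp (-(3 / 4 * L)) with hE
  have g1 : 0.995 * η ≤ η - E := by linarith
  have g2 : η - E ≤ 0.003 := by linarith [h2.1]
  refine ⟨g1, g2, ?_⟩
  have g3 : 0 < η - E := by linarith
  have h3 : Real.exp (-(η - E)) ≤ 1 / (1 + (η - E)) := by
    rw [Real.exp_neg, inv_eq_one_div]
    apply one_div_le_one_div_of_le (by positivity)
    linarith [Real.add_one_le_exp (η - E)]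
  have h4 : (1 : ℝ) / (1 + (η - E)) ≤ 1 - 0.99 * η := by
    rw [div_le_iff₀ (by positivity)]
    nlinarith
  linarith

theorem B2_e80 : Real.exp (-80) ≤ 1 / 81 := by
  rw [Real.exp_neg, inv_eq_one_div]
  apply one_div_le_one_div_of_le (by norm_num)
  linarith [Real.add_one_le_exp (80 : ℝ)]

/-- the common bound in the regimes B and C1 -/
theorem B2_TT {L η C1 C2 : ℝ} (F : B2_facts L η C1 C2) {n k r : ℕ} (hr1 : 1 ≤ r)
    (hr : (r : ℝ) ≤ Real.exp (L / 2) * L ^ 2) (h80 : 80 < r * η) {x : ℝ} (hx : 1 / 2 ≤ x)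
    (hx1 : x ≤ 1)
    (hmu : ∀ c : ℝ, 1 ≤ c → c * Real.exp (-(r * (η - C2 * Real.exp (-(3 / 4 * L))))) ≤ 1 / 2 →
      bb n r c ≤ Real.exp (-(r * (η - C2 * Real.exp (-(3 / 4 * L))))) *
      (Real.exp (2 * c * (Real.exp (-(r * (η - C2 * Real.exp (-(3 / 4 * L))))) /
        (1 - Real.exp (-(η - C2 * Real.exp (-(3 / 4 * L))))))) - 1)) :
    TT n k r ≤ aa n r x * (1.01 * Real.exp (-(r * η)) *
      (Real.exp (8.24 * (Real.exp (-(r * η)) / η)) - 1)) := by
  have hη : 0 < η := lt_of_lt_of_le (by positivity) F.low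
  have hr0 : (0 : ℝ) < r := by exact_mod_cast hr1
  obtain ⟨g1, g2, g3⟩ := B2_eta F
  set η' := η - C2 * Real.exp (-(3 / 4 * L)) with hη'
  -- y' ≤ 1.01 y
  have hy' : Real.exp (-(r * η')) ≤ 1.01 * Real.exp (-(r * η)) := by
    have h1 : r * (|C2| * Real.exp (-(3 / 4 * L))) ≤ 0.009 := by
      have e1 : Real.exp (-(3 / 4 * L)) = Real.exp (-(1 / 4 * L)) * Real.exp (-(L / 2)) := by
        rw [← Real.exp_add]; congr 1; ring
      have e2 : Real.exp (L / 2) * Real.exp (-(L / 2)) = 1 := by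
        rw [← Real.exp_add]; simp
      calc r * (|C2| * Real.exp (-(3 / 4 * L))) ≤
            Real.exp (L / 2) * L ^ 2 * (|C2| * Real.exp (-(3 / 4 * L))) := by gcongr
        _ = |C2| * L ^ 2 * Real.exp (-(1 / 4 * L)) * (Real.exp (L / 2) * Real.exp (-(L / 2))) := by
            rw [e1]; ring
        _ = |C2| * L ^ 2 * Real.exp (-(1 / 4 * L)) := by rw [e2, mul_one]
        _ ≤ _ := F.f3
    have h2 : -(r * η') ≤ 0.009 + -(r * η) := by
      have h3 : C2 * Real.exp (-(3 / 4 * L)) ≤ |C2| * Real.exp (-(3 / 4 * L)) := by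
        gcongr; exact le_abs_self C2
      have h4 := mul_le_mul_of_nonneg_left h3 hr0.le
      rw [hη']
      linarith
    calc Real.exp (-(r * η')) ≤ Real.exp (0.009 + -(r * η)) := Real.exp_le_exp.2 h2
      _ = Real.exp 0.009 * Real.exp (-(r * η)) := Real.exp_add _ _
      _ ≤ _ := by
          gcongr
          have h5 : Real.exp (-0.009) ≥ 1 - 0.009 := by
            linarith [Real.add_one_le_exp (-0.009 : ℝ)]
          have h6 : Real.exp 0.009 * Real.exp (-0.009) = 1 := by
            rw [← Real.exp_add]; simp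
          have h7 := Real.exp_pos (0.009 : ℝ)
          nlinarith
  have hD : 0 < 1 - Real.exp (-η') := lt_of_lt_of_le (by positivity) g3
  have hU : Real.exp (-(r * η')) / (1 - Real.exp (-η')) ≤ 1.03 * (Real.exp (-(r * η)) / η) := by
    calc Real.exp (-(r * η')) / (1 - Real.exp (-η')) ≤
          (1.01 * Real.exp (-(r * η))) / (0.99 * η) := by gcongr
      _ = (1.01 / 0.99) * (Real.exp (-(r * η)) / η) := by
          rw [mul_div_mul_comm]
      _ ≤ _ := by
          gcongr
          norm_num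
  have hc1 : 1 ≤ (x ^ 2)⁻¹ := by
    rw [one_le_inv₀ (by positivity)]
    nlinarith
  have hc4 : (x ^ 2)⁻¹ ≤ 4 := by
    rw [inv_le_comm₀ (by positivity) (by norm_num)]
    nlinarith
  have hy80 : Real.exp (-(r * η)) ≤ 1 / 81 := by
    refine le_trans (Real.exp_le_exp.2 ?_) B2_e80
    linarith
  have hcond : (x ^ 2)⁻¹ * Real.exp (-(r * η')) ≤ 1 / 2 := by
    calc (x ^ 2)⁻¹ * Real.exp (-(r * η')) ≤ 4 * (1.01 * (1 / 81)) := by
          gcongr
          exact hy'.trans (by gcongr)
      _ ≤ _ := by norm_num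
  have hb := hmu _ hc1 hcond
  refine (B2_G1 n k r (by linarith) hx1).trans ?_
  refine mul_le_mul_of_nonneg_left ?_ (B2_aa_nonneg n r (by linarith))
  refine hb.trans ?_
  have hexp : Real.exp (2 * (x ^ 2)⁻¹ * (Real.exp (-(r * η')) / (1 - Real.exp (-η')))) ≤
      Real.exp (8.24 * (Real.exp (-(r * η)) / η)) := by
    apply Real.exp_le_exp.2
    calc 2 * (x ^ 2)⁻¹ * (Real.exp (-(r * η')) / (1 - Real.exp (-η'))) ≤
          2 * 4 * (1.03 * (Real.exp (-(r * η)) / η)) := by gcongr
      _ = _ := by ring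
  have hpos : 0 ≤ Real.exp (2 * (x ^ 2)⁻¹ * (Real.exp (-(r * η')) / (1 - Real.exp (-η')))) - 1 := by
    have : 0 ≤ 2 * (x ^ 2)⁻¹ * (Real.exp (-(r * η')) / (1 - Real.exp (-η'))) := by positivity
    linarith [Real.one_le_exp this]
  calc _ ≤ 1.01 * Real.exp (-(r * η)) *
        (Real.exp (2 * (x ^ 2)⁻¹ * (Real.exp (-(r * η')) / (1 - Real.exp (-η')))) - 1) := by
        gcongr
    _ ≤ _ := by
        gcongr

/-- regime B: `r * η > 80`, `q ≥ 8 L` -/
theorem B2_B {L η C1 C2 : ℝ} (F : B2_facts L η C1 C2) {n k r : ℕ} (hr1 : 1 ≤ r)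
    (hrn : (r : ℝ) ≤ Real.exp L) (h80 : 80 < r * η) (hq : 8 * L ≤ r * Real.exp (-(r * η)))
    (hbig : aa n r (1 / 2) ≤ C1 * Real.exp (3 / 4 * L) * Real.exp (-(1 / 2 * lam η r)))
    (hmu : ∀ c : ℝ, 1 ≤ c → c * Real.exp (-(r * (η - C2 * Real.exp (-(3 / 4 * L))))) ≤ 1 / 2 →
      bb n r c ≤ Real.exp (-(r * (η - C2 * Real.exp (-(3 / 4 * L))))) *
      (Real.exp (2 * c * (Real.exp (-(r * (η - C2 * Real.exp (-(3 / 4 * L))))) /
        (1 - Real.exp (-(η - C2 * Real.exp (-(3 / 4 * L))))))) - 1)) :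
    TT n k r ≤ Real.exp (-(2 * L)) := by
  have hC1 := F.hC1
  have hL := F.hL
  have hη : 0 < η := lt_of_lt_of_le (by positivity) F.low
  have hr0 : (0 : ℝ) < r := by exact_mod_cast hr1
  set y := Real.exp (-(r * η)) with hy
  have hypos : 0 < y := Real.exp_pos _
  -- r η ≤ L
  have hrL : r * η ≤ L := by
    by_contra hcon
    push Not at hcon
    have h1 : y < Real.exp (-L) := Real.exp_lt_exp.2 (by linarith)
    have h2 : r * y < 1 := by
      calc r * y < Real.exp L * Real.exp (-L) := by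
            exact mul_lt_mul' hrn h1 hypos.le (Real.exp_pos _)
        _ = 1 := by rw [← Real.exp_add]; simp
    linarith
  have hr : (r : ℝ) ≤ Real.exp (L / 2) * L ^ 2 := by
    have h1 : r * (Real.exp (-(L / 2)) / 2) ≤ L := by
      refine le_trans ?_ hrL
      gcongr
      exact F.low
    have e2 : Real.exp (L / 2) * Real.exp (-(L / 2)) = 1 := by
      rw [← Real.exp_add]; simp
    have h3 : r ≤ 2 * L * Real.exp (L / 2) := by
      have h4 := mul_le_mul_of_nonneg_right h1 (Real.exp_pos (L / 2)).le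
      have h5 : r * (Real.exp (-(L / 2)) / 2) * Real.exp (L / 2) = r / 2 := by
        calc _ = r / 2 * (Real.exp (L / 2) * Real.exp (-(L / 2))) := by ring
          _ = _ := by rw [e2, mul_one]
      rw [h5] at h4
      linarith
    have h6 : 2 * L ≤ L ^ 2 := by nlinarith
    have h7 := mul_le_mul_of_nonneg_right h6 (Real.exp_pos (L / 2)).le
    linarith
  have hmain := B2_TT (k := k) F hr1 hr h80 (x := 1 / 2) le_rfl (by norm_num) hmu
  rw [← hy] at hmain
  have hlam : r * y ≤ lam η r := by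
    unfold lam
    have hx : 0 < (r : ℝ) * η := by positivity
    have h0 : 0 < Real.exp (r * η) - 1 := by
      linarith [Real.add_one_lt_exp hx.ne']
    rw [le_div_iff₀ h0]
    have h1 : y * Real.exp (r * η) = 1 := by
      rw [hy, ← Real.exp_add]; simp
    calc r * y * (Real.exp (r * η) - 1) = r * (y * Real.exp (r * η)) - r * y := by ring
      _ ≤ r := by rw [h1]; nlinarith
  have hu : y / η ≤ r * y / 80 := by
    rw [div_le_div_iff₀ hη (by norm_num)]
    nlinarith
  have hy1 : 1.01 * y ≤ 1 := by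
    have : y ≤ 1 / 81 := by
      refine le_trans (Real.exp_le_exp.2 ?_) B2_e80
      linarith
    linarith
  calc TT n k r ≤ aa n r (1 / 2) * (1.01 * y * (Real.exp (8.24 * (y / η)) - 1)) := hmain
    _ ≤ aa n r (1 / 2) * (1 * Real.exp (0.103 * (r * y))) := by
        refine mul_le_mul_of_nonneg_left ?_ (B2_aa_nonneg n r (by norm_num))
        have h1 : Real.exp (8.24 * (y / η)) - 1 ≤ Real.exp (0.103 * (r * y)) := by
          have : Real.exp (8.24 * (y / η)) ≤ Real.exp (0.103 * (r * y)) := by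
            apply Real.exp_le_exp.2
            linarith
          linarith
        have h2 : 0 ≤ Real.exp (8.24 * (y / η)) - 1 := by
          have : 0 ≤ 8.24 * (y / η) := by positivity
          linarith [Real.one_le_exp this]
        gcongr
    _ ≤ (C1 * Real.exp (3 / 4 * L) * Real.exp (-(1 / 2 * lam η r))) *
          (1 * Real.exp (0.103 * (r * y))) := by
        gcongr
    _ ≤ (Real.exp (L / 4) * Real.exp (3 / 4 * L) * Real.exp (-(1 / 2 * (r * y)))) *
          (1 * Real.exp (0.103 * (r * y))) := by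
        have := F.f6
        gcongr
    _ = Real.exp (L + -(0.397 * (r * y))) := by
        rw [one_mul, ← Real.exp_add, ← Real.exp_add, ← Real.exp_add]
        congr 1
        ring
    _ ≤ Real.exp (-(2 * L)) := by
        apply Real.exp_le_exp.2
        linarith

/-- regime C1: `r * η > 80`, `q < 8 L`, `r ≤ √n L²` -/
theorem B2_C1 {L η C1 C2 : ℝ} (F : B2_facts L η C1 C2) {n k r : ℕ} (hr1 : 1 ≤ r)
    (hr : (r : ℝ) ≤ Real.exp (L / 2) * L ^ 2) (h80 : 80 < r * η)
    (hq : r * Real.exp (-(r * η)) < 8 * L)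
    (hup : ∀ ζ : ℝ, 0 ≤ ζ → ζ ≤ 1 → aa n r (1 - ζ) ≤
      Real.exp (-(ζ * (r * Real.exp (-(r * η))))) +
      C1 * Real.exp (-(3 / 4 * L)) * r * (ζ * (r * Real.exp (-(r * η)))) *
        Real.exp (2 * (ζ * (r * Real.exp (-(r * η))))))
    (hmu : ∀ c : ℝ, 1 ≤ c → c * Real.exp (-(r * (η - C2 * Real.exp (-(3 / 4 * L))))) ≤ 1 / 2 →
      bb n r c ≤ Real.exp (-(r * (η - C2 * Real.exp (-(3 / 4 * L))))) *
      (Real.exp (2 * c * (Real.exp (-(r * (η - C2 * Real.exp (-(3 / 4 * L))))) /
        (1 - Real.exp (-(η - C2 * Real.exp (-(3 / 4 * L))))))) - 1)) :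
    TT n k r ≤ 9 * Real.exp 264 *
      (16 / L * (η * (Real.exp (-(r * η)) / η) *
        Real.exp (-(L / 16 * (Real.exp (-(r * η)) / η)))) +
      32 * Real.exp 32 / L ^ 2 * (η * (Real.exp (-(r * η)) / η) *
        Real.exp (-(1 * (Real.exp (-(r * η)) / η))))) := by
  have hC1 := F.hC1
  have hL := F.hL
  have hη : 0 < η := lt_of_lt_of_le (by positivity) F.low
  have hr0 : (0 : ℝ) < r := by exact_mod_cast hr1
  have hLpos : 0 < L := by linarith
  set y := Real.exp (-(r * η)) with hy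
  have hypos : 0 < y := Real.exp_pos _
  set u := y / η with hu
  have hupos : 0 < u := by positivity
  have hηu : η * u = y := by rw [hu]; field_simp
  -- r η ≥ L / 4
  have hrL : L / 4 ≤ r * η := by
    by_contra hcon
    push Not at hcon
    have h1 : Real.exp (-(L / 4)) ≤ y := Real.exp_le_exp.2 (by linarith)
    have h2 : 40 * Real.exp (L / 2) ≤ r := by
      have h3 : 80 ≤ r * (2 * Real.exp (-(L / 2))) := by
        refine h80.le.trans ?_
        gcongr
        exact F.up
      have e2 : Real.exp (L / 2) * Real.exp (-(L / 2)) = 1 := by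
        rw [← Real.exp_add]; simp
      have h4 := mul_le_mul_of_nonneg_right h3 (Real.exp_pos (L / 2)).le
      have h5 : r * (2 * Real.exp (-(L / 2))) * Real.exp (L / 2) = 2 * r := by
        calc _ = 2 * r * (Real.exp (L / 2) * Real.exp (-(L / 2))) := by ring
          _ = _ := by rw [e2, mul_one]
      rw [h5] at h4
      linarith
    have h6 : 40 * Real.exp (L / 4) ≤ r * y := by
      calc 40 * Real.exp (L / 4) = (40 * Real.exp (L / 2)) * Real.exp (-(L / 4)) := by
            rw [mul_assoc, ← Real.exp_add]; congr 2; ring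
        _ ≤ r * y := by gcongr
    have h7 := Real.add_one_le_exp (L / 4)
    linarith
  have hqu : r * y = r * η * u := by rw [hu]; field_simp
  have hqu' : L / 4 * u ≤ r * y := by rw [hqu]; gcongr
  have hu32 : u ≤ 32 := by
    by_contra hcon
    push Not at hcon
    nlinarith
  -- bound for aa
  have haa : ∃ x : ℝ, 1 / 2 ≤ x ∧ x ≤ 1 ∧ aa n r x ≤ Real.exp (-(L / 8 * u)) + 1 / L ^ 2 := by
    have hgen : ∀ ζ : ℝ, 0 ≤ ζ → ζ ≤ 1 / 2 → ζ * (r * y) ≤ L / 16 →
        Real.exp (-(ζ * (r * y))) ≤ Real.exp (-(L / 8 * u)) + Real.exp (-(L / 16)) →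
        aa n r (1 - ζ) ≤ Real.exp (-(L / 8 * u)) + 1 / L ^ 2 := by
      intro ζ h0 h1 h2 h3
      refine (hup ζ h0 (by linarith)).trans ?_
      have h4 : C1 * Real.exp (-(3 / 4 * L)) * r * (ζ * (r * y)) * Real.exp (2 * (ζ * (r * y))) ≤
          C1 * L ^ 3 * Real.exp (-(L / 8)) := by
        calc C1 * Real.exp (-(3 / 4 * L)) * r * (ζ * (r * y)) * Real.exp (2 * (ζ * (r * y))) ≤
            C1 * Real.exp (-(3 / 4 * L)) * (Real.exp (L / 2) * L ^ 2) * (L / 16) *
              Real.exp (2 * (L / 16)) := by gcongr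
          _ = C1 * L ^ 3 * (Real.exp (-(3 / 4 * L)) * Real.exp (L / 2) *
              Real.exp (2 * (L / 16))) / 16 := by ring
          _ = C1 * L ^ 3 * Real.exp (-(L / 8)) / 16 := by
              rw [← Real.exp_add, ← Real.exp_add]
              congr 3
              ring
          _ ≤ _ := by
              have : 0 ≤ C1 * L ^ 3 * Real.exp (-(L / 8)) := by positivity
              linarith
      have h5 := F.f8
      linarith
    rcases le_total (r * y) (L / 8) with h | h
    · refine ⟨1 - 1 / 2, by norm_num, by norm_num, hgen (1 / 2) (by norm_num) le_rfl ?_ ?_⟩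
      · linarith
      · have : Real.exp (-(1 / 2 * (r * y))) ≤ Real.exp (-(L / 8 * u)) := by
          apply Real.exp_le_exp.2
          linarith
        linarith [Real.exp_pos (-(L / 16))]
    · have hqpos : 0 < r * y := by positivity
      refine ⟨1 - L / (16 * (r * y)), ?_, ?_, hgen (L / (16 * (r * y))) (by positivity) ?_ ?_ ?_⟩
      · have : L / (16 * (r * y)) ≤ 1 / 2 := by
          rw [div_le_div_iff₀ (by positivity) (by norm_num)]
          linarith
        linarith
      · have : 0 ≤ L / (16 * (r * y)) := by positivity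
        linarith
      · rw [div_le_div_iff₀ (by positivity) (by norm_num)]
        linarith
      · have : L / (16 * (r * y)) * (r * y) = L / 16 := by field_simp
        rw [this]
      · have : L / (16 * (r * y)) * (r * y) = L / 16 := by field_simp
        rw [this]
        linarith [Real.exp_pos (-(L / 8 * u))]
  obtain ⟨x, hx, hx1, haax⟩ := haa
  have hmain := B2_TT (k := k) F hr1 hr h80 hx hx1 hmu
  rw [← hy, ← hu] at hmain
  have hexp : Real.exp (8.24 * u) - 1 ≤ 8.24 * u * Real.exp 264 := by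
    have h1 : Real.exp (8.24 * u) - 1 ≤ 8.24 * u * Real.exp (8.24 * u) := by
      have h2 : 1 - 8.24 * u ≤ Real.exp (-(8.24 * u)) := by
        linarith [Real.add_one_le_exp (-(8.24 * u))]
      have h3 := mul_le_mul_of_nonneg_right h2 (Real.exp_pos (8.24 * u)).le
      rw [← Real.exp_add] at h3
      simp at h3
      linarith
    refine h1.trans ?_
    gcongr
    linarith
  have hexp0 : 0 ≤ Real.exp (8.24 * u) - 1 := by
    have : 0 ≤ 8.24 * u := by positivity
    linarith [Real.one_le_exp this]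
  have hstep : TT n k r ≤ 9 * Real.exp 264 * (η * (u * u * (Real.exp (-(L / 8 * u)) + 1 / L ^ 2))) := by
    calc TT n k r ≤ aa n r x * (1.01 * y * (Real.exp (8.24 * u) - 1)) := hmain
      _ ≤ (Real.exp (-(L / 8 * u)) + 1 / L ^ 2) * (1.01 * y * (8.24 * u * Real.exp 264)) := by
          gcongr
      _ = (1.01 * 8.24) * Real.exp 264 * (η * (u * u * (Real.exp (-(L / 8 * u)) + 1 / L ^ 2))) := by
          rw [← hηu]; ring
      _ ≤ _ := by
          gcongr
          norm_num
  refine hstep.trans ?_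
  gcongr
  -- u² e^{-(L/8)u} ≤ (16/L) u e^{-(L/16)u}
  have h1 : u * Real.exp (-(L / 8 * u)) ≤ 16 / L * Real.exp (-(L / 16 * u)) := by
    have h2 : L / 16 * u ≤ Real.exp (L / 16 * u) := by
      linarith [Real.add_one_le_exp (L / 16 * u)]
    have h3 : Real.exp (-(L / 8 * u)) = Real.exp (-(L / 16 * u)) * Real.exp (-(L / 16 * u)) := by
      rw [← Real.exp_add]; congr 1; ring
    have h4 : Real.exp (L / 16 * u) * Real.exp (-(L / 16 * u)) = 1 := by
      rw [← Real.exp_add]; simp
    calc u * Real.exp (-(L / 8 * u)) = 16 / L * (L / 16 * u) *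
          (Real.exp (-(L / 16 * u)) * Real.exp (-(L / 16 * u))) := by
          rw [h3]; field_simp
      _ ≤ 16 / L * Real.exp (L / 16 * u) *
          (Real.exp (-(L / 16 * u)) * Real.exp (-(L / 16 * u))) := by gcongr
      _ = 16 / L * Real.exp (-(L / 16 * u)) *
          (Real.exp (L / 16 * u) * Real.exp (-(L / 16 * u))) := by ring
      _ = _ := by rw [h4, mul_one]
  have h5 : u ≤ 32 * Real.exp 32 * Real.exp (-(1 * u)) := by
    have h6 : 1 ≤ Real.exp 32 * Real.exp (-(1 * u)) := by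
      rw [← Real.exp_add]
      apply Real.one_le_exp
      linarith
    nlinarith
  calc η * (u * u * (Real.exp (-(L / 8 * u)) + 1 / L ^ 2)) =
        η * u * (u * Real.exp (-(L / 8 * u))) + η * u * (u / L ^ 2) := by ring
    _ ≤ η * u * (16 / L * Real.exp (-(L / 16 * u))) +
        η * u * (32 * Real.exp 32 * Real.exp (-(1 * u)) / L ^ 2) := by gcongr
    _ = _ := by ring

/-- regime C2: `r > √n L²` -/
theorem B2_C2 {L η C1 C2 : ℝ} (F : B2_facts L η C1 C2) {n k r : ℕ} (hr1 : 1 ≤ r)
    (hr : Real.exp (L / 2) * L ^ 2 < (r : ℝ))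
    (hbig : aa n r 1 ≤ C1 * Real.exp (3 / 4 * L))
    (hmu : ∀ c : ℝ, 1 ≤ c → c * Real.exp (-(r * (η - C2 * Real.exp (-(3 / 4 * L))))) ≤ 1 / 2 →
      bb n r c ≤ Real.exp (-(r * (η - C2 * Real.exp (-(3 / 4 * L))))) *
      (Real.exp (2 * c * (Real.exp (-(r * (η - C2 * Real.exp (-(3 / 4 * L))))) /
        (1 - Real.exp (-(η - C2 * Real.exp (-(3 / 4 * L))))))) - 1)) :
    TT n k r ≤ Real.exp (-(2 * L)) := by
  have hC1 := F.hC1
  have hL := F.hL
  have hη : 0 < η := lt_of_lt_of_le (by positivity) F.low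
  have hr0 : (0 : ℝ) < r := by exact_mod_cast hr1
  obtain ⟨g1, g2, g3⟩ := B2_eta F
  set η' := η - C2 * Real.exp (-(3 / 4 * L)) with hη'
  set y := Real.exp (-(r * η')) with hy
  have e2 : Real.exp (L / 2) * Real.exp (-(L / 2)) = 1 := by
    rw [← Real.exp_add]; simp
  have h1 : L ^ 2 / 4 ≤ r * η' := by
    have h2 : 0.4975 * Real.exp (-(L / 2)) ≤ η' := by
      have := F.low
      linarith
    calc L ^ 2 / 4 ≤ 0.4975 * (L ^ 2 * (Real.exp (L / 2) * Real.exp (-(L / 2)))) := by
          rw [e2, mul_one]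
          nlinarith
      _ = (Real.exp (L / 2) * L ^ 2) * (0.4975 * Real.exp (-(L / 2))) := by ring
      _ ≤ r * η' := by gcongr
  have h25 : 25 * L ≤ L ^ 2 / 4 := by nlinarith
  have hy1 : y ≤ Real.exp (-(25 * L)) := Real.exp_le_exp.2 (by linarith)
  have hsmall : Real.exp (-(25 * L)) ≤ 1 / 3 * Real.exp (-(24 * L)) := by
    have h3 : Real.exp (-(25 * L)) = Real.exp (-L) * Real.exp (-(24 * L)) := by
      rw [← Real.exp_add]; congr 1; ring
    rw [h3]
    gcongr
    rw [Real.exp_neg, inv_eq_one_div]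
    apply one_div_le_one_div_of_le (by norm_num)
    linarith [Real.add_one_le_exp L]
  have h24 : Real.exp (-(24 * L)) ≤ 1 := Real.exp_le_one_iff.2 (by linarith)
  have hcond : 1 * y ≤ 1 / 2 := by linarith
  have hb := hmu 1 le_rfl hcond
  have hD : 0 < 1 - Real.exp (-η') := lt_of_lt_of_le (by positivity) g3
  have hU : y / (1 - Real.exp (-η')) ≤ 1 := by
    rw [div_le_one hD]
    refine le_trans ?_ g3
    have h3 := F.low
    have h4 : y ≤ 0.495 * Real.exp (-(L / 2)) := by
      calc y ≤ Real.exp (-(25 * L)) := hy1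
        _ ≤ 1 / 3 * Real.exp (-(24 * L)) := hsmall
        _ ≤ 1 / 3 * Real.exp (-(L / 2)) := by
            gcongr
            linarith
        _ ≤ _ := by
            have := Real.exp_pos (-(L / 2))
            linarith
    linarith
  have hexp : Real.exp (2 * 1 * (y / (1 - Real.exp (-η')))) - 1 ≤ 7 := by
    have h3 : Real.exp (2 * 1 * (y / (1 - Real.exp (-η')))) ≤ Real.exp 2 := by
      apply Real.exp_le_exp.2
      linarith
    have h4 : Real.exp 2 ≤ 8 := by
      have h5 : Real.exp 2 = Real.exp 1 * Real.exp 1 := by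
        rw [← Real.exp_add]; norm_num
      have h6 := Real.exp_one_lt_d9
      have h7 := Real.exp_pos 1
      rw [h5]
      nlinarith
    linarith
  have hbb : bb n r 1 ≤ y * 7 := by
    refine hb.trans ?_
    have : 0 ≤ y := (Real.exp_pos _).le
    gcongr
  have hG := B2_G1 n k r (x := 1) one_pos le_rfl
  simp only [one_pow, inv_one] at hG
  calc TT n k r ≤ aa n r 1 * bb n r 1 := hG
    _ ≤ (C1 * Real.exp (3 / 4 * L)) * (y * 7) := by
        have := B2_bb_nonneg n r (c := 1) (by norm_num)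
        gcongr
    _ ≤ (Real.exp (L / 4) * Real.exp (3 / 4 * L)) * (Real.exp (-(25 * L)) * 7) := by
        have := F.f6
        gcongr
    _ = 7 * Real.exp (-(22 * L)) * Real.exp (-(2 * L)) := by
        rw [← Real.exp_add]
        have : Real.exp (L / 4 + 3 / 4 * L) * (Real.exp (-(25 * L)) * 7) =
            7 * (Real.exp (L / 4 + 3 / 4 * L) * Real.exp (-(25 * L))) := by ring
        rw [this, ← Real.exp_add, mul_assoc, ← Real.exp_add]
        congr 2
        ring
    _ ≤ 1 * Real.exp (-(2 * L)) := by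
        gcongr
        have h3 : Real.exp (-(22 * L)) ≤ 1 / 7 := by
          rw [Real.exp_neg, inv_eq_one_div]
          apply one_div_le_one_div_of_le (by norm_num)
          linarith [Real.add_one_le_exp (22 * L)]
        linarith
    _ = _ := one_mul _

/-- row B2 -/
theorem row_B2 : B2_stmt := by
  intro η C N0 C1 N1 C2 N2 hP hE hM
  refine ⟨Real.exp (-80) / 12, by positivity,
    1 + 9 * Real.exp 264 * (512 + 64 * Real.exp 32), ?_⟩
  have hlog : Tendsto (fun n : ℕ => Real.log (n : ℝ)) atTop atTop :=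
    Real.tendsto_log_atTop.comp tendsto_natCast_atTop_atTop
  have hev := hlog.eventually (B2_facts_ev C1 C2 hE.hC)
  have hev2 : ∀ᶠ n : ℕ in atTop, N0 ≤ n ∧ N1 ≤ n ∧ N2 ≤ n ∧ 1 ≤ n := by
    filter_upwards [eventually_ge_atTop N0, eventually_ge_atTop N1, eventually_ge_atTop N2,
      eventually_ge_atTop 1] with n h0 h1 h2 h3
    exact ⟨h0, h1, h2, h3⟩
  obtain ⟨N3, hN3⟩ := eventually_atTop.1 (hev.and hev2)
  refine ⟨N3, fun n hn k hk => ?_⟩
  obtain ⟨hfacts, h0, h1, h2, h3⟩ := hN3 n hn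
  have hnpos : (0 : ℝ) < n := by exact_mod_cast h3
  set L := Real.log (n : ℝ) with hL
  have hexpL : Real.exp L = n := Real.exp_log hnpos
  have hsqrt : √(n : ℝ) = Real.exp (L / 2) := by
    rw [Real.sqrt_eq_rpow, Real.rpow_def_of_pos hnpos, ← hL]
    congr 1
    ring
  have hp34 : (n : ℝ) ^ ((3 / 4) : ℝ) = Real.exp (3 / 4 * L) := by
    rw [Real.rpow_def_of_pos hnpos, ← hL]
    congr 1
    ring
  have hm34 : (n : ℝ) ^ (-(3 / 4) : ℝ) = Real.exp (-(3 / 4 * L)) := by
    rw [Real.rpow_def_of_pos hnpos, ← hL]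
    congr 1
    ring
  have hlow : Real.exp (-(L / 2)) / 2 ≤ η n := by
    have := hP.low n h0
    rw [hsqrt] at this
    have e : Real.exp (-(L / 2)) / 2 = 1 / (2 * Real.exp (L / 2)) := by
      rw [Real.exp_neg]; field_simp
    rw [e]; exact this
  have hup : η n ≤ 2 * Real.exp (-(L / 2)) := by
    have := hP.up n h0
    rw [hsqrt] at this
    have e : 2 * Real.exp (-(L / 2)) = 2 / Real.exp (L / 2) := by
      rw [Real.exp_neg]; field_simp
    rw [e]; exact this
  have F := hfacts (η n) hlow hup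
  have hLL := F.hL
  have hLpos : 0 < L := by linarith
  have hη : 0 < η n := lt_of_lt_of_le (by positivity) F.low
  have hη1 : η n ≤ 1 := by
    have := F.up
    have := F.f10
    linarith
  set K : ℝ := 9 * Real.exp 264 with hK
  have hKpos : 0 < K := by positivity
  have hbound : ∀ r ∈ Icc 1 n, TT n k r ≤ Real.exp (-(2 * L)) + K *
      (16 / L * (η n * (Real.exp (-(r * η n)) / η n) *
        Real.exp (-(L / 16 * (Real.exp (-(r * η n)) / η n)))) +
      32 * Real.exp 32 / L ^ 2 * (η n * (Real.exp (-(r * η n)) / η n) *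
        Real.exp (-(1 * (Real.exp (-(r * η n)) / η n))))) := by
    intro r hr
    rw [Finset.mem_Icc] at hr
    have hr1 : 1 ≤ r := hr.1
    have hrn : (r : ℝ) ≤ Real.exp L := by
      rw [hexpL]; exact_mod_cast hr.2
    have hX : 0 ≤ K * (16 / L * (η n * (Real.exp (-(r * η n)) / η n) *
        Real.exp (-(L / 16 * (Real.exp (-(r * η n)) / η n)))) +
      32 * Real.exp 32 / L ^ 2 * (η n * (Real.exp (-(r * η n)) / η n) *
        Real.exp (-(1 * (Real.exp (-(r * η n)) / η n))))) := by positivity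
    have hbigζ : ∀ ζ : ℝ, 0 ≤ ζ → ζ ≤ 1 → aa n r (1 - ζ) ≤
        C1 * Real.exp (3 / 4 * L) * Real.exp (-(ζ * lam (η n) r)) := by
      intro ζ hζ hζ1
      have := hE.big n h1 r hr1 ζ hζ hζ1
      rwa [hp34] at this
    have hbig : aa n r (1 / 2) ≤ C1 * Real.exp (3 / 4 * L) * Real.exp (-(1 / 2 * lam (η n) r)) := by
      have := hbigζ (1 / 2) (by norm_num) (by norm_num)
      norm_num at this ⊢
      exact this
    have hmu : ∀ c : ℝ, 1 ≤ c →
        c * Real.exp (-(r * (η n - C2 * Real.exp (-(3 / 4 * L))))) ≤ 1 / 2 →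
        bb n r c ≤ Real.exp (-(r * (η n - C2 * Real.exp (-(3 / 4 * L))))) *
        (Real.exp (2 * c * (Real.exp (-(r * (η n - C2 * Real.exp (-(3 / 4 * L))))) /
          (1 - Real.exp (-(η n - C2 * Real.exp (-(3 / 4 * L))))))) - 1) := by
      intro c hc hc2
      have := hM.mu n h2 r hr1 c hc
      rw [hm34] at this
      exact this hc2
    rcases le_or_gt ((r : ℝ) * η n) 80 with h80 | h80
    · have hk' : (k : ℝ) ≤ Real.exp (-80) / 12 * Real.exp (L / 2) := by
        rw [hsqrt] at hk; exact hk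
      have := B2_A F hr1 hk' h80 hbig
      linarith
    · rcases le_or_gt (8 * L) (r * Real.exp (-(r * η n))) with hq | hq
      · have := B2_B (k := k) F hr1 hrn h80 hq hbig hmu
        linarith
      · rcases le_or_gt (r : ℝ) (Real.exp (L / 2) * L ^ 2) with hrL | hrL
        · have hupζ : ∀ ζ : ℝ, 0 ≤ ζ → ζ ≤ 1 → aa n r (1 - ζ) ≤
              Real.exp (-(ζ * (r * Real.exp (-(r * η n))))) +
              C1 * Real.exp (-(3 / 4 * L)) * r * (ζ * (r * Real.exp (-(r * η n)))) *
              Real.exp (2 * (ζ * (r * Real.exp (-(r * η n))))) := by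
            intro ζ hζ hζ1
            have hy : Real.exp (-(r * η n)) ≤ 1 / 2 := by
              refine le_trans (Real.exp_le_exp.2 (by linarith : -(r * η n) ≤ -80)) ?_
              have := B2_e80
              linarith
            have := hE.up n h1 r hr1 hy ζ hζ hζ1
            rwa [hm34] at this
          have := B2_C1 (k := k) F hr1 hrL h80 hq hupζ hmu
          have h4 := Real.exp_pos (-(2 * L))
          linarith
        · have hbig0 : aa n r 1 ≤ C1 * Real.exp (3 / 4 * L) := by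
            have := hbigζ 0 le_rfl zero_le_one
            simpa using this
          have := B2_C2 (k := k) F hr1 hrL hbig0 hmu
          linarith
  refine (Finset.sum_le_sum hbound).trans ?_
  rw [Finset.sum_add_distrib, ← Finset.mul_sum, Finset.sum_add_distrib, ← Finset.mul_sum,
    ← Finset.mul_sum]
  have hs1 := B2_sum hη hη1 (by positivity : (0 : ℝ) < L / 16) n
  have hs2 := B2_sum hη hη1 one_pos n
  have hcard : ∑ _r ∈ Icc 1 n, Real.exp (-(2 * L)) = Real.exp (-L) := by
    rw [Finset.sum_const, Nat.card_Icc, nsmul_eq_mul]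
    simp only [Nat.add_sub_cancel]
    rw [← hexpL, ← Real.exp_add]
    congr 1
    ring
  rw [hcard]
  have h9 := F.f9
  have hL2 : 0 < L ^ 2 := by positivity
  calc _ ≤ 1 / L ^ 2 + K * (16 / L * (2 / (L / 16)) + 32 * Real.exp 32 / L ^ 2 * (2 / 1)) := by
        gcongr
    _ = _ := by
        field_simp
        ring

end ZT68
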