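/-
MP_1882ea_al, tank ZT, row BD1 (helper72): beads, holes, hooks of a Young diagram.
-/
import Mathlib
import Pool.Agent.Lib.ZT68.Defs

namespace ZT68

open Finset

theorem BD1_bead_lt (Y : YoungDiagram) {i i' : ℕ} (h : i < i') : bead Y i' < bead Y i := by
  have := Y.rowLen_anti i i' h.le
  unfold bead
  omega

theorem BD1_bead_inj (Y : YoungDiagram) {i i' : ℕ} (h : bead Y i = bead Y i') : i = i' := by
  rcases lt_trichotomy i i' with h1 | h1 | h1
  · exact absurd h (BD1_bead_lt Y h1).ne'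
  · exact h1
  · exact absurd h (BD1_bead_lt Y h1).ne

theorem BD1_hole_lt (Y : YoungDiagram) {j j' : ℕ} (h : j < j') : hole Y j < hole Y j' := by
  have := Y.colLen_anti j j' h.le
  unfold hole
  omega

theorem BD1_hole_inj (Y : YoungDiagram) {i i' : ℕ} (h : hole Y i = hole Y i') : i = i' := by
  rcases lt_trichotomy i i' with h1 | h1 | h1
  · exact absurd h (BD1_hole_lt Y h1).ne
  · exact h1
  · exact absurd h (BD1_hole_lt Y h1).ne'

theorem BD1_cell (Y : YoungDiagram) (i j : ℕ) : (i, j) ∈ Y ↔ hole Y j < bead Y i := by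
  have h1 : (i, j) ∈ Y ↔ j < Y.rowLen i := YoungDiagram.mem_iff_lt_rowLen
  have h2 : (i, j) ∈ Y ↔ i < Y.colLen j := YoungDiagram.mem_iff_lt_colLen
  unfold bead hole
  constructor
  · intro h
    have a := h1.1 h
    have b := h2.1 h
    omega
  · intro h
    by_contra hc
    have a : ¬ j < Y.rowLen i := fun h3 => hc (h1.2 h3)
    have b : ¬ i < Y.colLen j := fun h3 => hc (h2.2 h3)
    omega

theorem BD1_notcell (Y : YoungDiagram) (i j : ℕ) (h : (i, j) ∉ Y) : bead Y i < hole Y j := by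
  have h1 : (i, j) ∈ Y ↔ j < Y.rowLen i := YoungDiagram.mem_iff_lt_rowLen
  have h2 : (i, j) ∈ Y ↔ i < Y.colLen j := YoungDiagram.mem_iff_lt_colLen
  have a : ¬ j < Y.rowLen i := fun h3 => h (h1.2 h3)
  have b : ¬ i < Y.colLen j := fun h3 => h (h2.2 h3)
  unfold bead hole
  omega

theorem BD1_ne (Y : YoungDiagram) (i j : ℕ) : hole Y j ≠ bead Y i := by
  by_cases h : (i, j) ∈ Y
  · exact ((BD1_cell Y i j).1 h).ne
  · exact (BD1_notcell Y i j h).ne'

theorem BD1_hole_notMem (Y : YoungDiagram) (j : ℕ) : hole Y j ∉ SS Y := by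
  rintro ⟨i, hi⟩
  exact BD1_ne Y i j hi.symm

theorem BD1_rowLen_zero (Y : YoungDiagram) : ∃ N, ∀ i ≥ N, Y.rowLen i = 0 := by
  refine ⟨Y.colLen 0, fun i hi => ?_⟩
  by_contra h
  have h1 : (i, 0) ∈ Y := YoungDiagram.mem_iff_lt_rowLen.2 (Nat.pos_of_ne_zero h)
  have h2 := YoungDiagram.mem_iff_lt_colLen.1 h1
  omega

/-- every integer is a bead or a hole -/
theorem BD1_compl (Y : YoungDiagram) (x : ℤ) (hx : x ∉ SS Y) : ∃ j, hole Y j = x := by
  have hex : ∃ i : ℕ, bead Y i ≤ x := by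
    obtain ⟨N, hN⟩ := BD1_rowLen_zero Y
    refine ⟨N + (-x).toNat, ?_⟩
    unfold bead
    rw [hN _ (by omega)]
    have := Int.self_le_toNat (-x)
    push_cast
    omega
  classical
  let i := Nat.find hex
  have hi : bead Y i ≤ x := Nat.find_spec hex
  have hi' : bead Y i ≠ x := fun h => hx ⟨i, h⟩
  have hlt : bead Y i < x := lt_of_le_of_ne hi hi'
  have hj0 : (0 : ℤ) ≤ x + i := by
    unfold bead at hlt
    omega
  obtain ⟨j, hj⟩ := Int.eq_ofNat_of_zero_le hj0
  have hrow : Y.rowLen i ≤ j := by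
    unfold bead at hlt
    omega
  refine ⟨j, ?_⟩
  have hcol : Y.colLen j = i := by
    apply le_antisymm
    · by_contra hc
      have h1 : (i, j) ∈ Y := YoungDiagram.mem_iff_lt_colLen.2 (by omega)
      have h2 := YoungDiagram.mem_iff_lt_rowLen.1 h1
      omega
    · rcases Nat.eq_zero_or_pos i with h0 | h0
      · omega
      · have h1 : ¬ bead Y (i - 1) ≤ x := Nat.find_min hex (by omega : i - 1 < i)
        have h2 : j < Y.rowLen (i - 1) := by
          unfold bead at h1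
          omega
        have h3 : (i - 1, j) ∈ Y := YoungDiagram.mem_iff_lt_rowLen.2 h2
        have h4 := YoungDiagram.mem_iff_lt_colLen.1 h3
        omega
  unfold hole
  rw [hcol]
  omega

theorem BD1_hook (Y : YoungDiagram) {i j : ℕ} (h : (i, j) ∈ Y) :
    (hookLen Y i j : ℤ) = bead Y i - hole Y j := by
  have h1 : j < Y.rowLen i := YoungDiagram.mem_iff_lt_rowLen.1 h
  have h2 : i < Y.colLen j := YoungDiagram.mem_iff_lt_colLen.1 h
  unfold hookLen bead hole
  omega

theorem BD1_hook_pos (Y : YoungDiagram) {i j : ℕ} (h : (i, j) ∈ Y) : 1 ≤ hookLen Y i j := by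
  have h1 : j < Y.rowLen i := YoungDiagram.mem_iff_lt_rowLen.1 h
  have h2 : i < Y.colLen j := YoungDiagram.mem_iff_lt_colLen.1 h
  unfold hookLen
  omega

/-- the cell of a hook -/
theorem BD1_hk_cell (Y : YoungDiagram) {t : ℕ} (ht : 1 ≤ t) {x : ℤ} (hx : x ∈ Hk (SS Y) t) :
    ∃ i j, (i, j) ∈ Y ∧ bead Y i = x ∧ hole Y j = x - t ∧ hookLen Y i j = t := by
  obtain ⟨⟨i, hi⟩, h2⟩ := hx
  obtain ⟨j, hj⟩ := BD1_compl Y _ h2
  have h3 : (i, j) ∈ Y := by
    rw [BD1_cell, hi, hj]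
    have : (1 : ℤ) ≤ t := by exact_mod_cast ht
    omega
  refine ⟨i, j, h3, hi, hj, ?_⟩
  have := BD1_hook Y h3
  rw [hi, hj] at this
  have h4 : ((hookLen Y i j : ℕ) : ℤ) = (t : ℤ) := by rw [this]; ring
  exact_mod_cast h4

theorem BD1_hk_eq (Y : YoungDiagram) {t : ℕ} (ht : 1 ≤ t) :
    Hk (SS Y) t = (((Y.cells.filter (fun c => hookLen Y c.1 c.2 = t)).image
      (fun c => bead Y c.1) : Finset ℤ) : Set ℤ) := by
  ext x
  simp only [coe_image, coe_filter, Set.mem_image, YoungDiagram.mem_cells]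
  constructor
  · intro hx
    obtain ⟨i, j, h1, h2, h3, h4⟩ := BD1_hk_cell Y ht hx
    exact ⟨(i, j), ⟨h1, h4⟩, h2⟩
  · rintro ⟨⟨i, j⟩, ⟨h1, h4⟩, h2⟩
    have h5 := BD1_hook Y h1
    have h6 : hookLen Y i j = t := h4
    have h7 : bead Y i = x := h2
    refine ⟨⟨i, h7⟩, ?_⟩
    have h8 : x - (t : ℤ) = hole Y j := by
      rw [← h7, ← h6, h5]; ring
    rw [h8]
    exact BD1_hole_notMem Y j

theorem BD1_injOn (Y : YoungDiagram) (t : ℕ) :
    Set.InjOn (fun c : ℕ × ℕ => bead Y c.1)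
      ((Y.cells.filter (fun c => hookLen Y c.1 c.2 = t) : Finset (ℕ × ℕ)) : Set (ℕ × ℕ)) := by
  rintro ⟨i, j⟩ h ⟨i', j'⟩ h' he
  simp only [coe_filter, Set.mem_ofPred_eq, YoungDiagram.mem_cells] at h h'
  have h1 : i = i' := BD1_bead_inj Y he
  subst h1
  have h2 := BD1_hook Y h.1
  have h3 := BD1_hook Y h'.1
  rw [h.2] at h2
  rw [h'.2] at h3
  have h4 : hole Y j = hole Y j' := by omega
  rw [BD1_hole_inj Y h4]

theorem BD1_walk {S : Set ℤ} {t m : ℕ} {x : ℤ} (hx : x ∈ S) (hm : x - (m : ℤ) * t ∉ S) :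
    ∃ y, y ∈ Hk S t := by
  classical
  have hex : ∃ m : ℕ, x - (m : ℤ) * t ∉ S := ⟨m, hm⟩
  let k := Nat.find hex
  have hk : x - (k : ℤ) * t ∉ S := Nat.find_spec hex
  have hk0 : k ≠ 0 := by
    intro h
    rw [h] at hk
    simp at hk
    exact hk hx
  have hk1 : x - ((k - 1 : ℕ) : ℤ) * t ∈ S := by
    by_contra hc
    exact Nat.find_min hex (by omega : k - 1 < k) hc
  refine ⟨_, hk1, ?_⟩
  have h2 : x - ((k - 1 : ℕ) : ℤ) * t - (t : ℤ) = x - (k : ℤ) * t := by
    rw [Nat.cast_sub (by omega)]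
    push_cast
    ring
  rw [h2]
  exact hk

theorem BD1_ext {Y Y' : YoungDiagram} (h : ∀ i, Y.rowLen i = Y'.rowLen i) : Y = Y' := by
  apply YoungDiagram.ext
  ext ⟨i, j⟩
  rw [YoungDiagram.mem_cells, YoungDiagram.mem_cells, YoungDiagram.mem_iff_lt_rowLen,
    YoungDiagram.mem_iff_lt_rowLen, h]

theorem BD1_inj : Function.Injective SS := by
  intro Y Y' h
  have h1 : StrictMono (fun i => - bead Y i) := fun i i' hi => neg_lt_neg (BD1_bead_lt Y hi)
  have h2 : StrictMono (fun i => - bead Y' i) := fun i i' hi => neg_lt_neg (BD1_bead_lt Y' hi)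
  have h3 : Set.range (fun i => - bead Y i) = Set.range (fun i => - bead Y' i) := by
    have e1 : ∀ Z : YoungDiagram, Set.range (fun i => - bead Z i) = (fun x : ℤ => -x) '' SS Z := by
      intro Z
      rw [SS, ← Set.range_comp]
      rfl
    rw [e1, e1, h]
  have h4 := (StrictMono.range_inj h1 h2).1 h3
  apply BD1_ext
  intro i
  have h5 := congrFun h4 i
  simp only [neg_inj, bead] at h5
  omega

/-- row BD1 -/
theorem row_BD1 : BD1_stmt where
  inj := BD1_inj
  hk := by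
    intro Y t ht
    rw [BD1_hk_eq Y ht]
    refine ⟨Finset.finite_toSet _, ?_⟩
    rw [Set.ncard_coe_finset, Finset.card_image_of_injOn (BD1_injOn Y t)]
    rfl
  core := by
    intro Y t ht
    constructor
    · intro h
      rw [hn, Finset.card_eq_zero, Finset.filter_eq_empty_iff]
      rintro ⟨i, j⟩ hij he
      exact h i j hij (by rw [he])
    · intro h i j hij hdvd
      obtain ⟨m, hm⟩ := hdvd
      have h1 := BD1_hook Y hij
      rw [hm] at h1
      have h2 : bead Y i - (m : ℤ) * t = hole Y j := by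
        push_cast at h1
        linarith
      obtain ⟨y, hy⟩ := BD1_walk (S := SS Y) (t := t) (m := m) (x := bead Y i) ⟨i, rfl⟩
        (by rw [h2]; exact BD1_hole_notMem Y j)
      obtain ⟨i', j', h3, -, -, h4⟩ := BD1_hk_cell Y ht hy
      rw [hn, Finset.card_eq_zero, Finset.filter_eq_empty_iff] at h
      exact h (x := (i', j')) h3 h4

end ZT68
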