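/-
MP_1882ea_al, tank ZT, rows BD2 and BD3 (helper72): removal and addition of rim hooks.
-/
import Mathlib
import Pool.Agent.Lib.ZT68.Defs
import Pool.Agent.Lib.ZT68.BD1

namespace ZT68

open Finset

/-- the diagram with given row lengths -/
def BD2_ofRow (r : ℕ → ℕ) (hr : ∀ i j, i ≤ j → r j ≤ r i) (N : ℕ) : YoungDiagram where
  cells := (range N ×ˢ range (r 0)).filter (fun c => c.2 < r c.1)
  isLowerSet := by
    rintro ⟨a, b⟩ ⟨a', b'⟩ hle h
    simp only [coe_filter, mem_product, mem_range, Set.mem_ofPred_eq] at h ⊢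
    obtain ⟨h1, h2⟩ := Prod.mk_le_mk.1 hle
    have h3 := hr a' a h1
    have h4 := hr 0 a' (Nat.zero_le _)
    omega

theorem BD2_mem_ofRow {r : ℕ → ℕ} {hr : ∀ i j, i ≤ j → r j ≤ r i} {N : ℕ} (hN : ∀ i ≥ N, r i = 0)
    (i j : ℕ) : (i, j) ∈ BD2_ofRow r hr N ↔ j < r i := by
  rw [← YoungDiagram.mem_cells]
  simp only [BD2_ofRow, mem_filter, mem_product, mem_range]
  constructor
  · exact fun h => h.2
  · intro h
    have h1 := hr 0 i (Nat.zero_le _)
    refine ⟨⟨?_, by omega⟩, h⟩
    by_contra hc
    rw [hN i (by omega)] at h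
    omega

theorem BD2_rowLen_ofRow {r : ℕ → ℕ} {hr : ∀ i j, i ≤ j → r j ≤ r i} {N : ℕ} (hN : ∀ i ≥ N, r i = 0)
    (i : ℕ) : (BD2_ofRow r hr N).rowLen i = r i := by
  have h : ∀ j, j < (BD2_ofRow r hr N).rowLen i ↔ j < r i := fun j => by
    rw [← YoungDiagram.mem_iff_lt_rowLen, BD2_mem_ofRow hN]
  apply le_antisymm
  · by_contra hc
    have := (h (r i)).1 (by omega)
    omega
  · by_contra hc
    have := (h _).2 (not_le.1 hc)
    omega

/-- the number of cells from the row lengths -/
theorem BD2_card (Y : YoungDiagram) {N : ℕ} (hN : ∀ i ≥ N, Y.rowLen i = 0) :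
    Y.card = ∑ i ∈ range N, Y.rowLen i := by
  have h : Y.cells = (range N).biUnion (fun i => (range (Y.rowLen i)).image (fun j => (i, j))) := by
    ext ⟨i, j⟩
    simp only [YoungDiagram.mem_cells, mem_biUnion, mem_range, mem_image, Prod.mk.injEq]
    rw [YoungDiagram.mem_iff_lt_rowLen]
    constructor
    · intro h
      refine ⟨i, ?_, j, h, rfl, rfl⟩
      by_contra hc
      rw [hN i (by omega)] at h
      omega
    · rintro ⟨i', _, j', h, rfl, rfl⟩
      exact h
  change Y.cells.card = _
  rw [h, Finset.card_biUnion]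
  · refine Finset.sum_congr rfl fun i _ => ?_
    rw [Finset.card_image_of_injective _ (fun a b h => by simpa using h), Finset.card_range]
  · intro i _ i' _ hne
    rw [Function.onFun, Finset.disjoint_left]
    rintro ⟨a, b⟩ h1 h2
    simp only [mem_image, mem_range, Prod.mk.injEq] at h1 h2
    obtain ⟨_, _, h3, _⟩ := h1
    obtain ⟨_, _, h4, _⟩ := h2
    exact hne (h3.trans h4.symm)

/-- comparing cardinalities by beads -/
theorem BD2_card_cmp (Y Y' : YoungDiagram) {N : ℕ} (hN : ∀ i ≥ N, Y.rowLen i = 0)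
    (hN' : ∀ i ≥ N, Y'.rowLen i = 0) {x y : ℤ}
    (hx : ∃ i < N, bead Y i = x) (hy : ∀ i < N, bead Y i = y → y = x)
    (h : (range N).image (bead Y') = insert y (((range N).image (bead Y)).erase x)) :
    (Y'.card : ℤ) = Y.card - x + y := by
  have key : ∀ Z : YoungDiagram, (∀ i ≥ N, Z.rowLen i = 0) →
      (Z.card : ℤ) = ∑ z ∈ (range N).image (bead Z), z + ∑ i ∈ range N, ((i : ℤ) + 1) := by
    intro Z hZ
    rw [BD2_card Z hZ, Finset.sum_image (fun a _ b _ hab => BD1_bead_inj Z hab),
      ← Finset.sum_add_distrib]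
    push_cast
    refine Finset.sum_congr rfl fun i _ => ?_
    unfold bead
    ring
  rw [key Y' hN', key Y hN, h]
  have hx' : x ∈ (range N).image (bead Y) := by
    obtain ⟨i, hi, h1⟩ := hx
    exact mem_image.2 ⟨i, mem_range.2 hi, h1⟩
  rw [Finset.sum_insert, ← Finset.add_sum_erase _ _ hx']
  · ring
  · rw [mem_erase, mem_image]
    rintro ⟨h1, i, hi, h2⟩
    exact h1 (hy i (mem_range.1 hi) h2)

/-- row BD2 -/
theorem row_BD2 : BD2_stmt := by
  intro Y t x ht hx
  obtain ⟨i, j, hij, hi, hj, hh⟩ := BD1_hk_cell Y ht hx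
  obtain ⟨l, hl⟩ : ∃ l, l = Y.colLen j := ⟨_, rfl⟩
  have hil : i < l := by rw [hl]; exact YoungDiagram.mem_iff_lt_colLen.1 hij
  have hrow : ∀ a, j < Y.rowLen a ↔ a < l := fun a => by
    rw [hl, ← YoungDiagram.mem_iff_lt_colLen, ← YoungDiagram.mem_iff_lt_rowLen]
  have hanti := Y.rowLen_anti
  obtain ⟨N0, hN0⟩ := BD1_rowLen_zero Y
  obtain ⟨N, hN⟩ : ∃ N, N = max N0 l := ⟨_, rfl⟩
  have hNz : ∀ a ≥ N, Y.rowLen a = 0 := fun a ha => hN0 a (by omega)
  let r : ℕ → ℕ := fun a => if i ≤ a ∧ a + 1 < l then Y.rowLen (a + 1) - 1 else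
    if a + 1 = l then j else Y.rowLen a
  have hr1 : ∀ a, i ≤ a → a + 1 < l → r a = Y.rowLen (a + 1) - 1 := fun a h1 h2 => by
    simp only [r, if_pos (And.intro h1 h2)]
  have hr2 : ∀ a, a + 1 = l → r a = j := fun a h => by
    have : ¬ (i ≤ a ∧ a + 1 < l) := by omega
    simp only [r, if_neg this, if_pos h]
  have hr3 : ∀ a, a < i → r a = Y.rowLen a := fun a h => by
    have h1 : ¬ (i ≤ a ∧ a + 1 < l) := by omega
    have h2 : ¬ (a + 1 = l) := by omega
    simp only [r, if_neg h1, if_neg h2]
  have hr4 : ∀ a, l ≤ a → r a = Y.rowLen a := fun a h => by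
    have h1 : ¬ (i ≤ a ∧ a + 1 < l) := by omega
    have h2 : ¬ (a + 1 = l) := by omega
    simp only [r, if_neg h1, if_neg h2]
  have hstep : ∀ a, r (a + 1) ≤ r a := by
    intro a
    have g1 := hanti a (a + 1) (by omega)
    have g2 := hanti (a + 1) (a + 1 + 1) (by omega)
    have g3 := hrow a
    have g4 := hrow (a + 1)
    have g5 := hrow (a + 1 + 1)
    rcases lt_trichotomy (a + 1) i with h | h | h
    · rw [hr3 a (by omega), hr3 (a + 1) h]; exact g1
    · rw [hr3 a (by omega)]
      by_cases h2 : a + 1 + 1 < l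
      · rw [hr1 (a + 1) (by omega) h2]; omega
      · rw [hr2 (a + 1) (by omega)]
        have := g4.2 (by omega)
        omega
    · by_cases h2 : a + 1 < l
      · rw [hr1 a (by omega) h2]
        by_cases h3 : a + 1 + 1 < l
        · rw [hr1 (a + 1) (by omega) h3]; omega
        · rw [hr2 (a + 1) (by omega)]
          have := g4.2 (by omega)
          omega
      · rw [hr4 (a + 1) (by omega)]
        by_cases h3 : a + 1 = l
        · rw [hr2 a h3]
          by_contra hc
          have := g4.1 (by omega)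
          omega
        · rw [hr4 a (by omega)]; exact g1
  have hr : ∀ a b, a ≤ b → r b ≤ r a := by
    intro a b hab
    exact antitone_nat_of_succ_le hstep hab
  have hNr : ∀ a ≥ N, r a = 0 := fun a ha => by
    rw [hr4 a (by omega)]; exact hNz a ha
  obtain ⟨Y', hY'⟩ : ∃ Y', Y' = BD2_ofRow r hr N := ⟨_, rfl⟩
  have hrowY : ∀ a, Y'.rowLen a = r a := fun a => by rw [hY']; exact BD2_rowLen_ofRow hNr a
  have hmemY : ∀ a b, (a, b) ∈ Y' ↔ b < r a := fun a b => by rw [hY']; exact BD2_mem_ofRow hNr a b
  have hxj : x - t = (j : ℤ) - l := by rw [← hj, hole, hl]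
  -- the beads
  have hb1 : ∀ a, a < i → bead Y' a = bead Y a := fun a h => by
    unfold bead; rw [hrowY, hr3 a h]
  have hb2 : ∀ a, i ≤ a → a + 1 < l → bead Y' a = bead Y (a + 1) := fun a h h' => by
    unfold bead
    rw [hrowY, hr1 a h h']
    have := (hrow (a + 1)).2 h'
    omega
  have hb3 : ∀ a, a + 1 = l → bead Y' a = x - t := fun a h => by
    unfold bead
    rw [hrowY, hr2 a h, hxj]
    omega
  have hb4 : ∀ a, l ≤ a → bead Y' a = bead Y a := fun a h => by
    unfold bead; rw [hrowY, hr4 a h]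
  have himg : ∀ (M : ℕ), l ≤ M → ∀ z, (∃ a < M, bead Y' a = z) ↔
      (z = x - t ∨ (z ≠ x ∧ ∃ a < M, bead Y a = z)) := by
    intro M hM z
    constructor
    · rintro ⟨a, ha, rfl⟩
      rcases lt_or_ge a i with h | h
      · right
        rw [hb1 a h]
        refine ⟨?_, a, ha, rfl⟩
        rw [← hi]
        intro hc
        have := BD1_bead_inj Y hc
        omega
      · by_cases h2 : a + 1 < l
        · right
          rw [hb2 a h h2]
          refine ⟨?_, a + 1, by omega, rfl⟩
          rw [← hi]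
          intro hc
          have := BD1_bead_inj Y hc
          omega
        · by_cases h3 : a + 1 = l
          · left; exact hb3 a h3
          · right
            rw [hb4 a (by omega)]
            refine ⟨?_, a, ha, rfl⟩
            rw [← hi]
            intro hc
            have := BD1_bead_inj Y hc
            omega
    · rintro (rfl | ⟨h1, a, ha, rfl⟩)
      · exact ⟨l - 1, by omega, hb3 _ (by omega)⟩
      · have hai : a ≠ i := fun h => h1 (by rw [h, hi])
        rcases lt_or_ge a i with h | h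
        · exact ⟨a, ha, hb1 a h⟩
        · by_cases h2 : a < l
          · refine ⟨a - 1, by omega, ?_⟩
            rw [hb2 (a - 1) (by omega) (by omega)]
            congr 1
            omega
          · exact ⟨a, ha, hb4 a (by omega)⟩
  refine ⟨Y', ?_, ?_, i, j, hij, hh, ?_⟩
  · ext z
    simp only [SS, mv, Set.mem_range, Set.mem_insert_iff, Set.mem_sdiff, Set.mem_singleton_iff]
    constructor
    · rintro ⟨a, ha⟩
      rcases (himg (max l (a + 1)) (le_max_left _ _) z).1 ⟨a, by omega, ha⟩ with h | ⟨h, b, _, hb⟩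
      · exact Or.inl h
      · exact Or.inr ⟨⟨b, hb⟩, h⟩
    · rintro (h | ⟨⟨b, hb⟩, h⟩)
      · obtain ⟨a, _, ha⟩ := (himg l le_rfl z).2 (Or.inl h)
        exact ⟨a, ha⟩
      · obtain ⟨a, _, ha⟩ := (himg (max l (b + 1)) (le_max_left _ _) z).2
          (Or.inr ⟨h, b, by omega, hb⟩)
        exact ⟨a, ha⟩
  · have h1 := BD2_card_cmp Y Y' hNz (fun a ha => by rw [hrowY]; exact hNr a ha)
      (x := x) (y := x - t) ⟨i, by omega, hi⟩ (fun a _ ha => by
        exfalso
        rw [← hj] at ha
        exact BD1_ne Y a j ha.symm) (by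
        ext z
        rw [mem_insert, mem_erase, mem_image, mem_image]
        have := himg N (by omega) z
        simp only [mem_range]
        exact this)
    omega
  · intro a b
    rw [hmemY, YoungDiagram.mem_iff_lt_rowLen, YoungDiagram.mem_iff_lt_rowLen]
    have g1 := hanti a (a + 1) (by omega)
    have g3 := hrow a
    have g4 := hrow (a + 1)
    rcases lt_or_ge a i with h | h
    · rw [hr3 a h]
      constructor
      · exact fun h1 => ⟨h1, fun h2 => by omega⟩
      · exact fun h1 => h1.1
    · by_cases h2 : a + 1 < l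
      · rw [hr1 a h h2]
        have := g4.2 h2
        constructor
        · intro h3
          exact ⟨by omega, fun h4 => h4.2.2 (by omega)⟩
        · rintro ⟨h3, h4⟩
          by_contra hc
          exact h4 ⟨h, by omega, by omega⟩
      · by_cases h3 : a + 1 = l
        · rw [hr2 a h3]
          have g5 := g3.2 (by omega)
          have g6 : ¬ (j < Y.rowLen (a + 1)) := fun h => by
            have := g4.1 h
            omega
          constructor
          · intro h4
            exact ⟨by omega, fun h5 => by omega⟩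
          · rintro ⟨h4, h5⟩
            by_contra hc
            exact h5 ⟨h, by omega, by omega⟩
        · rw [hr4 a (by omega)]
          have g5 : ¬ (j < Y.rowLen a) := fun h => by
            have := g3.1 h
            omega
          constructor
          · intro h4
            exact ⟨h4, fun h5 => by omega⟩
          · exact fun h4 => h4.1

/-- row BD3 -/
theorem row_BD3 : BD3_stmt := by
  intro Y t x ht hxS hxt
  obtain ⟨i, hi⟩ := hxS
  obtain ⟨j, hj⟩ := BD1_compl Y _ hxt
  obtain ⟨l, hl⟩ : ∃ l, l = Y.colLen j := ⟨_, rfl⟩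
  have hij : (i, j) ∉ Y := by
    intro h
    have := (BD1_cell Y i j).1 h
    rw [hi, hj] at this
    omega
  have hil : l ≤ i := by
    rw [hl]
    by_contra hc
    exact hij (YoungDiagram.mem_iff_lt_colLen.2 (by omega))
  have hrow : ∀ a, j < Y.rowLen a ↔ a < l := fun a => by
    rw [hl, ← YoungDiagram.mem_iff_lt_colLen, ← YoungDiagram.mem_iff_lt_rowLen]
  have hanti := Y.rowLen_anti
  obtain ⟨N0, hN0⟩ := BD1_rowLen_zero Y
  obtain ⟨N, hN⟩ : ∃ N, N = max N0 (i + 1) := ⟨_, rfl⟩
  have hNz : ∀ a ≥ N, Y.rowLen a = 0 := fun a ha => hN0 a (by omega)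
  let r : ℕ → ℕ := fun a => if a = l then j + 1 else
    if l < a ∧ a ≤ i then Y.rowLen (a - 1) + 1 else Y.rowLen a
  have hr1 : r l = j + 1 := by simp only [r, if_true]
  have hr2 : ∀ a, l < a → a ≤ i → r a = Y.rowLen (a - 1) + 1 := fun a h h' => by
    have h1 : ¬ (a = l) := by omega
    simp only [r, if_neg h1, if_pos (And.intro h h')]
  have hr3 : ∀ a, a < l → r a = Y.rowLen a := fun a h => by
    have h1 : ¬ (a = l) := by omega
    have h2 : ¬ (l < a ∧ a ≤ i) := by omega
    simp only [r, if_neg h1, if_neg h2]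
  have hr4 : ∀ a, i < a → r a = Y.rowLen a := fun a h => by
    have h1 : ¬ (a = l) := by omega
    have h2 : ¬ (l < a ∧ a ≤ i) := by omega
    simp only [r, if_neg h1, if_neg h2]
  have hstep : ∀ a, r (a + 1) ≤ r a := by
    intro a
    have g1 := hanti a (a + 1) (by omega)
    have g3 := hrow a
    have g4 := hrow (a + 1)
    rcases lt_trichotomy a l with h | h | h
    · rw [hr3 a h]
      have g5 := g3.2 h
      by_cases h2 : a + 1 = l
      · rw [h2, hr1]; omega
      · rw [hr3 (a + 1) (by omega)]; exact g1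
    · rw [h, hr1]
      have g6 : ¬ (j < Y.rowLen l) := fun h7 => by
        have := (hrow l).1 h7
        omega
      by_cases h2 : l + 1 ≤ i
      · rw [hr2 (l + 1) (by omega) h2, Nat.add_sub_cancel]; omega
      · rw [hr4 (l + 1) (by omega)]
        have := hanti l (l + 1) (by omega)
        omega
    · by_cases h2 : a ≤ i
      · rw [hr2 a h h2]
        have g7 := hanti (a - 1) a (by omega)
        by_cases h3 : a + 1 ≤ i
        · rw [hr2 (a + 1) (by omega) h3, Nat.add_sub_cancel]; omega
        · rw [hr4 (a + 1) (by omega)]; omega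
      · rw [hr4 a (by omega), hr4 (a + 1) (by omega)]; exact g1
  have hr : ∀ a b, a ≤ b → r b ≤ r a := fun a b hab => antitone_nat_of_succ_le hstep hab
  have hNr : ∀ a ≥ N, r a = 0 := fun a ha => by
    rw [hr4 a (by omega)]; exact hNz a ha
  obtain ⟨Y', hY'⟩ : ∃ Y', Y' = BD2_ofRow r hr N := ⟨_, rfl⟩
  have hrowY : ∀ a, Y'.rowLen a = r a := fun a => by rw [hY']; exact BD2_rowLen_ofRow hNr a
  have hxj : x + t = (j : ℤ) - l := by rw [← hj, hole, hl]
  -- the beads
  have hb1 : ∀ a, a < l → bead Y' a = bead Y a := fun a h => by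
    unfold bead; rw [hrowY, hr3 a h]
  have hb2 : ∀ a, l < a → a ≤ i → bead Y' a = bead Y (a - 1) := fun a h h' => by
    unfold bead
    rw [hrowY, hr2 a h h']
    omega
  have hb3 : bead Y' l = x + t := by
    unfold bead
    rw [hrowY, hr1, hxj]
    push_cast
    ring
  have hb4 : ∀ a, i < a → bead Y' a = bead Y a := fun a h => by
    unfold bead; rw [hrowY, hr4 a h]
  have himg : ∀ (M : ℕ), i < M → ∀ z, (∃ a < M, bead Y' a = z) ↔
      (z = x + t ∨ (z ≠ x ∧ ∃ a < M, bead Y a = z)) := by
    intro M hM z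
    constructor
    · rintro ⟨a, ha, rfl⟩
      rcases lt_trichotomy a l with h | h | h
      · right
        rw [hb1 a h]
        refine ⟨?_, a, ha, rfl⟩
        rw [← hi]
        intro hc
        have := BD1_bead_inj Y hc
        omega
      · left
        rw [h, hb3]
      · right
        by_cases h2 : a ≤ i
        · rw [hb2 a h h2]
          refine ⟨?_, a - 1, by omega, rfl⟩
          rw [← hi]
          intro hc
          have := BD1_bead_inj Y hc
          omega
        · rw [hb4 a (by omega)]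
          refine ⟨?_, a, ha, rfl⟩
          rw [← hi]
          intro hc
          have := BD1_bead_inj Y hc
          omega
    · rintro (rfl | ⟨h1, a, ha, rfl⟩)
      · exact ⟨l, by omega, hb3⟩
      · have hai : a ≠ i := fun h => h1 (by rw [h, hi])
        rcases lt_or_ge a l with h | h
        · exact ⟨a, ha, hb1 a h⟩
        · by_cases h2 : a < i
          · refine ⟨a + 1, by omega, ?_⟩
            rw [hb2 (a + 1) (by omega) (by omega)]
            rfl
          · exact ⟨a, ha, hb4 a (by omega)⟩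
  refine ⟨Y', ?_, ?_⟩
  · ext z
    simp only [SS, Set.mem_range, Set.mem_insert_iff, Set.mem_sdiff, Set.mem_singleton_iff]
    constructor
    · rintro ⟨a, ha⟩
      rcases (himg (max (i + 1) (a + 1)) (by omega) z).1 ⟨a, by omega, ha⟩ with h | ⟨h, b, _, hb⟩
      · exact Or.inl h
      · exact Or.inr ⟨⟨b, hb⟩, h⟩
    · rintro (h | ⟨⟨b, hb⟩, h⟩)
      · obtain ⟨a, _, ha⟩ := (himg (i + 1) (by omega) z).2 (Or.inl h)
        exact ⟨a, ha⟩
      · obtain ⟨a, _, ha⟩ := (himg (max (i + 1) (b + 1)) (by omega) z).2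
          (Or.inr ⟨h, b, by omega, hb⟩)
        exact ⟨a, ha⟩
  · have h1 := BD2_card_cmp Y Y' hNz (fun a ha => by rw [hrowY]; exact hNr a ha)
      (x := x) (y := x + t) ⟨i, by omega, hi⟩ (fun a _ ha => by
        exfalso
        rw [← hj] at ha
        exact BD1_ne Y a j ha.symm) (by
        ext z
        rw [mem_insert, mem_erase, mem_image, mem_image]
        have := himg N (by omega) z
        simp only [mem_range]
        exact this)
    omega

end ZT68
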