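/-
MP_1882ea_al, tank ZT, row BD4 (helper72): number of beads that can move up.
-/
import Mathlib
import Pool.Agent.Lib.ZT68.Defs
import Pool.Agent.Lib.ZT68.BD1

namespace ZT68

open Finset

theorem BD4_low (Y : YoungDiagram) : ∃ N : ℕ, ∀ x : ℤ, x < -(N : ℤ) → x ∈ SS Y := by
  obtain ⟨N, hN⟩ := BD1_rowLen_zero Y
  refine ⟨N, fun x hx => ⟨(-x - 1).toNat, ?_⟩⟩
  have h1 : ((-x - 1).toNat : ℤ) = -x - 1 := Int.toNat_of_nonneg (by omega)
  have h2 : N ≤ (-x - 1).toNat := by omega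
  unfold bead
  rw [hN _ h2, h1]
  push_cast
  ring

theorem BD4_high (Y : YoungDiagram) (x : ℤ) (hx : x ∈ SS Y) : x < Y.rowLen 0 := by
  obtain ⟨i, rfl⟩ := hx
  have := Y.rowLen_anti 0 i (Nat.zero_le _)
  unfold bead
  omega

/-- row BD4 -/
theorem row_BD4 : BD4_stmt := by
  classical
  intro Y t ht
  obtain ⟨N, hN⟩ := BD4_low Y
  set S := SS Y with hS
  obtain ⟨R, hR⟩ : ∃ R : ℤ, R = ((Y.rowLen 0 : ℕ) : ℤ) := ⟨_, rfl⟩
  have hhigh : ∀ x ∈ S, x < R := fun x hx => by rw [hR]; exact BD4_high Y x hx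
  set F : Finset ℤ := (Ico (-(N : ℤ) - t) R).filter (· ∈ S) with hF
  have hR0 : 0 ≤ R := by rw [hR]; positivity
  have hmemF : ∀ x, x ∈ F ↔ -(N : ℤ) - t ≤ x ∧ x ∈ S := by
    intro x
    rw [hF, mem_filter, mem_Ico]
    exact ⟨fun h => ⟨h.1.1, h.2⟩, fun h => ⟨⟨h.1, hhigh x h.2⟩, h.2⟩⟩
  -- the sets
  have hUp : Up S t = ((F.filter (fun x => x + (t : ℤ) ∉ S) : Finset ℤ) : Set ℤ) := by
    ext x
    simp only [Up, Set.mem_ofPred_eq, coe_filter, hmemF]
    constructor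
    · rintro ⟨h1, h2⟩
      refine ⟨⟨?_, h1⟩, h2⟩
      by_contra hc
      exact h2 (hN _ (by omega))
    · rintro ⟨⟨_, h1⟩, h2⟩
      exact ⟨h1, h2⟩
  have hHk : Hk S t = (((F.filter (fun x => -(N : ℤ) ≤ x)).filter (fun x => x - (t : ℤ) ∉ S) :
      Finset ℤ) : Set ℤ) := by
    ext x
    simp only [Hk, Set.mem_ofPred_eq, coe_filter, hmemF, mem_filter]
    constructor
    · rintro ⟨h1, h2⟩
      have h3 : -(N : ℤ) ≤ x - t := by
        by_contra hc
        exact h2 (hN _ (by omega))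
      exact ⟨⟨⟨by omega, h1⟩, by omega⟩, h2⟩
    · rintro ⟨⟨⟨_, h1⟩, _⟩, h2⟩
      exact ⟨h1, h2⟩
  have e1 : (F.filter (fun x => x + (t : ℤ) ∈ S)).card =
      ((F.filter (fun x => -(N : ℤ) ≤ x)).filter (fun x => x - (t : ℤ) ∈ S)).card := by
    refine Finset.card_bij (fun x _ => x + (t : ℤ)) ?_ ?_ ?_
    · intro x hx
      rw [mem_filter, hmemF] at hx
      rw [mem_filter, mem_filter, hmemF]
      refine ⟨⟨⟨by omega, hx.2⟩, by omega⟩, ?_⟩
      rw [add_sub_cancel_right]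
      exact hx.1.2
    · intro x _ y _ h
      exact add_right_cancel h
    · intro y hy
      rw [mem_filter, mem_filter, hmemF] at hy
      refine ⟨y - t, ?_, by ring⟩
      rw [mem_filter, hmemF]
      refine ⟨⟨by omega, hy.2⟩, ?_⟩
      rw [sub_add_cancel]
      exact hy.1.1.2
  have e2 : F.card = (F.filter (fun x => -(N : ℤ) ≤ x)).card + t := by
    have h1 := Finset.card_filter_add_card_filter_not (s := F) (fun x => -(N : ℤ) ≤ x)
    have h2 : F.filter (fun x => ¬ -(N : ℤ) ≤ x) = Ico (-(N : ℤ) - t) (-(N : ℤ)) := by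
      ext x
      rw [mem_filter, hmemF, mem_Ico]
      constructor
      · rintro ⟨⟨a, _⟩, b⟩
        exact ⟨a, by omega⟩
      · rintro ⟨a, b⟩
        exact ⟨⟨a, hN x b⟩, by omega⟩
    rw [h2, Int.card_Ico] at h1
    have h3 : (-(N : ℤ) - (-(N : ℤ) - t)).toNat = t := by
      have : -(N : ℤ) - (-(N : ℤ) - t) = t := by ring
      rw [this, Int.toNat_natCast]
    omega
  have e3 := Finset.card_filter_add_card_filter_not (s := F) (fun x => x + (t : ℤ) ∈ S)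
  have e4 := Finset.card_filter_add_card_filter_not (s := F.filter (fun x => -(N : ℤ) ≤ x))
    (fun x => x - (t : ℤ) ∈ S)
  rw [hUp, hHk]
  refine ⟨Finset.finite_toSet _, ?_⟩
  rw [Set.ncard_coe_finset, Set.ncard_coe_finset]
  omega

end ZT68
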