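/-
MP_1882ea_al, helper68.  Character values by the Murnaghan-Nakayama rule, local zeros, and the
statements (Props) of the rows of the second stage.
-/
import Mathlib
import Pool.Agent.Lib.ZT68.Defs

namespace ZT68

open Finset

/-- leg length of the cell `(i, j)` -/
def leg (Y : YoungDiagram) (i j : ℕ) : ℕ := Y.colLen j - i - 1

open Classical in
/-- remove the rim hook of the cell `(i, j)`: the cells `(a, b)` with `i ≤ a`, `j ≤ b` for which
`(a + 1, b + 1)` is not a cell -/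
noncomputable def rem (Y : YoungDiagram) (i j : ℕ) : YoungDiagram where
  cells := Y.cells.filter (fun c => ¬ (i ≤ c.1 ∧ j ≤ c.2 ∧ (c.1 + 1, c.2 + 1) ∉ Y))
  isLowerSet := by
    rintro ⟨a, b⟩ ⟨a', b'⟩ hle h
    have hle' : a' ≤ a ∧ b' ≤ b := hle
    simp only [coe_filter, Set.mem_ofPred_eq, YoungDiagram.mem_cells] at h ⊢
    refine ⟨Y.up_left_mem hle'.1 hle'.2 h.1, ?_⟩
    rintro ⟨h1, h2, h3⟩
    apply h.2
    refine ⟨h1.trans hle'.1, h2.trans hle'.2, ?_⟩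
    intro h4
    exact h3 (Y.up_left_mem (by omega) (by omega) h4)

/-- Murnaghan-Nakayama: `chiAux ts Y` is the signed number of ways to remove rim hooks of the
lengths `ts`, in this order, from `Y` such that nothing remains; the sign of a rim hook is
`(-1) ^ (number of its rows - 1)` -/
noncomputable def chiAux : List ℕ → YoungDiagram → ℤ
  | [], Y => if Y.cells = ∅ then 1 else 0
  | t :: ts, Y => ∑ c ∈ Y.cells.filter (fun c => hookLen Y c.1 c.2 = t),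
      (-1) ^ leg Y c.1 c.2 * chiAux ts (rem Y c.1 c.2)

/-- the value of the irreducible character of `Y` at the cycle type `μ` (Murnaghan-Nakayama rule,
largest part first) -/
noncomputable def chi (Y : YoungDiagram) {n : ℕ} (μ : n.Partition) : ℤ :=
  chiAux (μ.parts.sort (· ≥ ·)) Y

/-- the zero at `(Y, μ)` is forced by at most `k` parts of `μ`: the character of `Y` vanishes at all
cycle types `μ'` which contain these parts -/
def Loc (k : ℕ) (Y : YoungDiagram) {n : ℕ} (μ : n.Partition) : Prop :=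
  ∃ M : Multiset ℕ, M ≤ μ.parts ∧ M.card ≤ k ∧ ∀ μ' : n.Partition, M ≤ μ'.parts → chi Y μ' = 0

/-- density of the local zeros -/
noncomputable def zL (k n : ℕ) : ℝ :=
  ({P : YoungDiagram × n.Partition | P.1.card = n ∧ Loc k P.1 P.2}.ncard : ℝ) / (pp n : ℝ) ^ 2

/-! ### Labelled beads -/

/-- add `r` to one coordinate, sum over the coordinates -/
def AA {N : ℕ} (r : ℕ) (f : (Fin N → ℕ) → ℤ) : (Fin N → ℕ) → ℤ :=
  fun b => ∑ j, f (Function.update b j (b j + r))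

/-- the operators `AA r`, `r` in the list -/
def AAs {N : ℕ} : List ℕ → ((Fin N → ℕ) → ℤ) → ((Fin N → ℕ) → ℤ)
  | [], f => f
  | r :: rs, f => AAs rs (AA r f)

/-- alternating sum of the point masses at the permutations of `γ` -/
def FF {N : ℕ} (γ : Fin N → ℕ) : (Fin N → ℕ) → ℤ :=
  fun b => ∑ σ : Equiv.Perm (Fin N), if b = γ ∘ σ then ((Equiv.Perm.sign σ : ℤˣ) : ℤ) else 0

/-- alternating functions -/
def Alt {N : ℕ} (f : (Fin N → ℕ) → ℤ) : Prop :=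
  ∀ (b : Fin N → ℕ) (i j : Fin N), i ≠ j → f (b ∘ Equiv.swap i j) = - f b

/-- the beads of `Y` in a window with `N` beads, `Y` has at most `N` rows -/
def beta (N : ℕ) (Y : YoungDiagram) : Fin N → ℕ := fun i => Y.rowLen i + (N - 1 - i)

/-- the vacuum -/
def vac (N : ℕ) : Fin N → ℕ := fun i => N - 1 - i

/-- row FA -/
structure FA_stmt : Prop where
  comm : ∀ (N r s : ℕ) (f : (Fin N → ℕ) → ℤ), AA r (AA s f) = AA s (AA r f)
  alt_AA : ∀ (N r : ℕ) (f : (Fin N → ℕ) → ℤ), Alt f → Alt (AA r f)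
  alt_FF : ∀ (N : ℕ) (γ : Fin N → ℕ), Alt (FF γ)
  fin_AA : ∀ (N r : ℕ) (f : (Fin N → ℕ) → ℤ), (Function.support f).Finite →
    (Function.support (AA r f)).Finite
  fin_FF : ∀ (N : ℕ) (γ : Fin N → ℕ), (Function.support (FF γ)).Finite
  sum_AA : ∀ (N r m : ℕ) (f : (Fin N → ℕ) → ℤ), (∀ b, f b ≠ 0 → ∑ j, b j = m + r) →
    ∀ b, AA r f b ≠ 0 → ∑ j, b j = m
  sum_FF : ∀ (N : ℕ) (γ b : Fin N → ℕ), FF γ b ≠ 0 → ∑ j, b j = ∑ j, γ j
  self : ∀ (N : ℕ) (γ : Fin N → ℕ), Function.Injective γ → FF γ γ = 1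
  perm : ∀ (N : ℕ) (γ : Fin N → ℕ) (τ : Equiv.Perm (Fin N)), FF (γ ∘ τ) =
    fun b => ((Equiv.Perm.sign τ : ℤˣ) : ℤ) * FF γ b
  zero : ∀ (N : ℕ) (γ : Fin N → ℕ), ¬ Function.Injective γ → FF γ = 0
  AA_FF : ∀ (N t : ℕ) (γ : Fin N → ℕ), AA t (FF γ) =
    fun b => ∑ i, if t ≤ γ i then FF (Function.update γ i (γ i - t)) b else 0

/-- number of hooks of length `r` of the configuration `γ` -/
def HH {N : ℕ} (γ : Fin N → ℕ) (r : ℕ) : ℕ :=
  (Finset.univ.filter (fun i : Fin N => r ≤ γ i ∧ ∀ l : Fin N, γ l ≠ γ i - r)).card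

/-- row DI : dictionary -/
structure DI_stmt : Prop where
  hh : ∀ (N : ℕ) (Y : YoungDiagram) (t : ℕ), Y.colLen 0 ≤ N → 1 ≤ t → HH (beta N Y) t = hn t Y
  step : ∀ (N : ℕ) (Y : YoungDiagram) (t : ℕ), Y.colLen 0 ≤ N → 1 ≤ t → AA t (FF (beta N Y)) =
    fun b => ∑ c ∈ Y.cells.filter (fun c => hookLen Y c.1 c.2 = t),
      (-1) ^ leg Y c.1 c.2 * FF (beta N (rem Y c.1 c.2)) b
  chi : ∀ (N : ℕ) (Y : YoungDiagram) (ts : List ℕ), Y.colLen 0 ≤ N → (∀ t ∈ ts, 1 ≤ t) →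
    chiAux ts Y = AAs ts (FF (beta N Y)) (vac N)

/-- row EI : energy identity and its consequence -/
structure EI_stmt : Prop where
  step : ∀ (N : ℕ) (f : (Fin N → ℕ) → ℤ) (b : Fin N → ℕ), Alt f → (Function.support f).Finite →
    f b ≠ 0 → ∑ j, b j ≠ ∑ i : Fin N, (i : ℕ) → ∃ r, 1 ≤ r ∧ AA r f ≠ 0
  full : ∀ (N m : ℕ) (f : (Fin N → ℕ) → ℤ), Alt f → (Function.support f).Finite →
    (∀ b, f b ≠ 0 → ∑ j, b j = m + ∑ i : Fin N, (i : ℕ)) → f ≠ 0 →
    ∃ ρ : List ℕ, (∀ x ∈ ρ, 1 ≤ x) ∧ ρ.sum = m ∧ AAs ρ f (vac N) ≠ 0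

/-- row LE : Lefschetz nonvanishing -/
def LE_stmt : Prop := ∀ (N : ℕ) (γ : Fin N → ℕ) (rs : List ℕ), Function.Injective γ →
  (∀ r ∈ rs, 1 ≤ r) → (∀ p r q, rs = p ++ r :: q → 2 * p.length + 1 ≤ HH γ r) →
  AAs rs (FF γ) ≠ 0

/-- row FN : consequences for diagrams -/
structure FN_stmt : Prop where
  loc : ∀ (n k : ℕ) (Y : YoungDiagram) (μ : n.Partition), Y.card = n → Loc k Y μ →
    ∃ r ∈ μ.parts, hn r Y + 2 ≤ 2 * min (WW r μ) k
  one : ∀ (n k : ℕ) (Y : YoungDiagram) (μ : n.Partition), Y.card = n → 1 ≤ k → TypeI Y μ → Loc k Y μ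

end ZT68
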