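import Mathlib
import Pool.Agent.Lib.ZT68.Defs

/-! MP_1882ea_al, row DDc: as many diagrams as partitions (helper6). -/

set_option autoImplicit false

namespace ZT68

open Finset

theorem DDc_card (Y : YoungDiagram) : Y.rowLens.sum = Y.card := by
  have h1 : Y.card = ∑ i ∈ range (Y.colLen 0), Y.rowLen i := by
    show Y.cells.card = _
    rw [Finset.card_eq_sum_card_fiberwise (f := Prod.fst) (t := range (Y.colLen 0))]
    · refine Finset.sum_congr rfl fun i _ => ?_
      rw [YoungDiagram.rowLen_eq_card]
      rfl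
    · intro c hc
      have hc' : c ∈ Y := hc
      simp only [coe_range, Set.mem_Iio]
      rw [← YoungDiagram.mem_iff_lt_colLen]
      exact Y.up_left_mem le_rfl (Nat.zero_le _) hc'
  rw [h1, YoungDiagram.rowLens]
  generalize Y.colLen 0 = m
  induction m with
  | zero => simp
  | succ m ih => rw [List.range_succ, List.map_append, List.sum_append, ih,
      Finset.sum_range_succ]; simp

theorem row_DDc : DDc_stmt := by
  intro n
  classical
  unfold pp
  rw [← Finset.card_univ]
  refine Finset.card_bij (fun Y hY => (⟨(Y.rowLens : Multiset ℕ), fun {i} hi =>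
    Y.pos_of_mem_rowLens i (Multiset.mem_coe.1 hi), by
      rw [Multiset.sum_coe, DDc_card]; exact mem_DD.1 hY⟩ : n.Partition)) ?_ ?_ ?_
  · intro Y _
    exact Finset.mem_univ _
  · intro Y hY Y' hY' h
    have h1 : (Y.rowLens : Multiset ℕ) = (Y'.rowLens : Multiset ℕ) :=
      congrArg Nat.Partition.parts h
    have h2 : Y.rowLens = Y'.rowLens :=
      (Multiset.coe_eq_coe.1 h1).eq_of_sortedGE Y.rowLens_sorted Y'.rowLens_sorted
    apply YoungDiagram.equivListRowLens.injective
    exact Subtype.ext h2
  · intro μ _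
    have hs : (μ.parts.sort (· ≥ ·)).SortedGE := (Multiset.pairwise_sort _ _).sortedGE
    have hp : ∀ x ∈ μ.parts.sort (· ≥ ·), 0 < x := fun x hx =>
      μ.parts_pos ((Multiset.mem_sort _).1 hx)
    have h1 : (YoungDiagram.ofRowLens _ hs).rowLens = μ.parts.sort (· ≥ ·) :=
      YoungDiagram.rowLens_ofRowLens_eq_self hp
    refine ⟨YoungDiagram.ofRowLens _ hs, ?_, ?_⟩
    · rw [mem_DD, ← DDc_card, h1, ← Multiset.sum_coe, Multiset.sort_eq, μ.parts_sum]
    · apply Nat.Partition.ext
      show (((YoungDiagram.ofRowLens _ hs).rowLens : List ℕ) : Multiset ℕ) = μ.parts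
      rw [h1, Multiset.sort_eq]

end ZT68
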