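/-
MP_1882ea_al, tank ZT, row DI (helper22): the dictionary between diagrams and labelled beads.
-/
import Mathlib
import Pool.Agent.Lib.ZT68.Chi
import Pool.Agent.Lib.ZT68.BD1

namespace ZT68

open Finset

/-! ### row lengths of `rem` -/

theorem DI_mem_rem (Y : YoungDiagram) (i j a b : ℕ) :
    (a, b) ∈ rem Y i j ↔ (a, b) ∈ Y ∧ ¬ (i ≤ a ∧ j ≤ b ∧ (a + 1, b + 1) ∉ Y) := by
  classical
  rw [← YoungDiagram.mem_cells]
  simp only [rem, mem_filter, YoungDiagram.mem_cells]

theorem DI_rowLen_eq (Z : YoungDiagram) (a m : ℕ) (h : ∀ b, (a, b) ∈ Z ↔ b < m) :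
    Z.rowLen a = m := by
  have h' : ∀ b, b < Z.rowLen a ↔ b < m := fun b => by
    rw [← YoungDiagram.mem_iff_lt_rowLen, h]
  apply le_antisymm
  · by_contra hc
    have := (h' m).1 (by omega)
    omega
  · by_contra hc
    have := (h' _).2 (not_le.1 hc)
    omega

theorem DI_row1 (Y : YoungDiagram) {i j : ℕ} (a : ℕ) (ha : a < i) :
    (rem Y i j).rowLen a = Y.rowLen a := by
  apply DI_rowLen_eq
  intro b
  rw [DI_mem_rem, YoungDiagram.mem_iff_lt_rowLen]
  constructor
  · exact fun h => h.1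
  · intro h
    exact ⟨h, fun h2 => by omega⟩

theorem DI_lt (Y : YoungDiagram) (j a : ℕ) : j < Y.rowLen a ↔ a < Y.colLen j := by
  rw [← YoungDiagram.mem_iff_lt_colLen, ← YoungDiagram.mem_iff_lt_rowLen]

theorem DI_row2 (Y : YoungDiagram) {i j : ℕ} (a : ℕ) (ha : i ≤ a) (ha2 : a + 1 < Y.colLen j) :
    (rem Y i j).rowLen a = Y.rowLen (a + 1) - 1 := by
  apply DI_rowLen_eq
  intro b
  have g1 := Y.rowLen_anti a (a + 1) (by omega)
  have g4 := (DI_lt Y j (a + 1)).2 ha2
  rw [DI_mem_rem, YoungDiagram.mem_iff_lt_rowLen, YoungDiagram.mem_iff_lt_rowLen]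
  constructor
  · rintro ⟨h1, h2⟩
    by_contra hc
    exact h2 ⟨ha, by omega, by omega⟩
  · intro h
    refine ⟨by omega, ?_⟩
    rintro ⟨-, -, h3⟩
    omega

theorem DI_row3 (Y : YoungDiagram) {i j : ℕ} (a : ℕ) (ha : i ≤ a) (ha2 : a + 1 = Y.colLen j) :
    (rem Y i j).rowLen a = j := by
  apply DI_rowLen_eq
  intro b
  have g3 := (DI_lt Y j a).2 (by omega)
  have g4 : ¬ j < Y.rowLen (a + 1) := fun h => by
    have := (DI_lt Y j (a + 1)).1 h
    omega
  rw [DI_mem_rem, YoungDiagram.mem_iff_lt_rowLen, YoungDiagram.mem_iff_lt_rowLen]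
  constructor
  · rintro ⟨h1, h2⟩
    by_contra hc
    exact h2 ⟨ha, by omega, by omega⟩
  · intro h
    exact ⟨by omega, fun h2 => by omega⟩

theorem DI_row4 (Y : YoungDiagram) {i j : ℕ} (a : ℕ) (ha2 : Y.colLen j ≤ a) :
    (rem Y i j).rowLen a = Y.rowLen a := by
  apply DI_rowLen_eq
  intro b
  have g3 : ¬ j < Y.rowLen a := fun h => by
    have := (DI_lt Y j a).1 h
    omega
  rw [DI_mem_rem, YoungDiagram.mem_iff_lt_rowLen]
  constructor
  · exact fun h => h.1
  · intro h
    exact ⟨h, fun h2 => by omega⟩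

/-! ### moving a value by adjacent swaps -/

/-- the value at `i` is moved to the place `m` -/
def DI_S (g : ℕ → ℕ) (i m : ℕ) : ℕ → ℕ := fun a =>
  if i ≤ a ∧ a < m then g (a + 1) else if a = m then g i else g a

theorem DI_shift (hA : FA_stmt) (N : ℕ) (g : ℕ → ℕ) (i d : ℕ) (hd : i + d < N)
    (b : Fin N → ℕ) :
    FF (fun a : Fin N => DI_S g i (i + d) a) b = (-1) ^ d * FF (fun a : Fin N => g a) b := by
  induction d with
  | zero =>
    have : (fun a : Fin N => DI_S g i (i + 0) a) = fun a : Fin N => g a := by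
      funext a
      unfold DI_S
      split_ifs with h1 h2
      · omega
      · rw [h2]; rfl
      · rfl
    rw [this, pow_zero, one_mul]
  | succ d ih =>
    have h1 : (fun a : Fin N => DI_S g i (i + (d + 1)) a) =
        (fun a : Fin N => DI_S g i (i + d) a) ∘
          (Equiv.swap (⟨i + d, by omega⟩ : Fin N) ⟨i + (d + 1), hd⟩) := by
      funext a
      rw [Function.comp_apply]
      by_cases h2 : a = (⟨i + d, by omega⟩ : Fin N)
      · rw [h2, Equiv.swap_apply_left]
        simp only [DI_S]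
        rw [if_pos (by omega), if_neg (by omega), if_neg (by omega)]
        rfl
      · by_cases h3 : a = (⟨i + (d + 1), hd⟩ : Fin N)
        · rw [h3, Equiv.swap_apply_right]
          change DI_S g i (i + (d + 1)) (i + (d + 1)) = DI_S g i (i + d) (i + d)
          unfold DI_S
          rw [if_neg (by omega), if_pos rfl, if_neg (by omega), if_pos rfl]
        · rw [Equiv.swap_apply_of_ne_of_ne h2 h3]
          have h2' : (a : ℕ) ≠ i + d := fun h => h2 (Fin.ext h)
          have h3' : (a : ℕ) ≠ i + (d + 1) := fun h => h3 (Fin.ext h)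
          simp only [DI_S]
          by_cases h4 : i ≤ (a : ℕ) ∧ (a : ℕ) < i + d
          · rw [if_pos h4, if_pos (by omega)]
          · rw [if_neg h4, if_neg (by omega), if_neg h2', if_neg h3']
    have h2 := congrFun (hA.perm N (fun a : Fin N => DI_S g i (i + d) a)
      (Equiv.swap (⟨i + d, by omega⟩ : Fin N) ⟨i + (d + 1), hd⟩)) b
    rw [← h1] at h2
    rw [h2, Equiv.Perm.sign_swap (fun h => by
      have := Fin.mk.inj_iff.1 h
      omega), ih (by omega), pow_succ]
    simp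

/-! ### beads in the window -/

theorem DI_beta (N : ℕ) (Y : YoungDiagram) (i : Fin N) :
    ((beta N Y i : ℕ) : ℤ) = bead Y i + N := by
  have := i.2
  unfold beta bead
  omega

theorem DI_beta_inj (N : ℕ) (Y : YoungDiagram) : Function.Injective (beta N Y) := by
  intro a b h
  have h1 := DI_beta N Y a
  have h2 := DI_beta N Y b
  rw [h] at h1
  exact Fin.ext (BD1_bead_inj Y (by omega))

theorem DI_lt_col (Y : YoungDiagram) {N : ℕ} (hN : Y.colLen 0 ≤ N) {i j : ℕ} (h : (i, j) ∈ Y) :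
    i < N := by
  have h1 : (i, 0) ∈ Y := Y.up_left_mem le_rfl (Nat.zero_le _) h
  have := YoungDiagram.mem_iff_lt_colLen.1 h1
  omega

theorem DI_colLen (Y : YoungDiagram) {N : ℕ} (hN : Y.colLen 0 ≤ N) (j : ℕ) : Y.colLen j ≤ N :=
  (Y.colLen_anti 0 j (Nat.zero_le _)).trans hN

/-- the hooks of length `t` in the window -/
theorem DI_hook_iff (N : ℕ) (Y : YoungDiagram) (t : ℕ) (hN : Y.colLen 0 ≤ N) (ht : 1 ≤ t)
    (i : Fin N) : (t ≤ beta N Y i ∧ ∀ l : Fin N, beta N Y l ≠ beta N Y i - t) ↔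
      ∃ j, ((i : ℕ), j) ∈ Y ∧ hookLen Y i j = t := by
  have hb := DI_beta N Y i
  constructor
  · rintro ⟨h1, h2⟩
    have h3 : bead Y i ∈ Hk (SS Y) t := by
      refine ⟨⟨i, rfl⟩, ?_⟩
      rintro ⟨l, hl⟩
      by_cases hlN : l < N
      · apply h2 ⟨l, hlN⟩
        have h4 := DI_beta N Y ⟨l, hlN⟩
        simp only at h4
        omega
      · have h5 : Y.rowLen l = 0 := by
          by_contra hc
          have h6 : (l, 0) ∈ Y := YoungDiagram.mem_iff_lt_rowLen.2 (Nat.pos_of_ne_zero hc)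
          have := YoungDiagram.mem_iff_lt_colLen.1 h6
          omega
        unfold bead at hl hb
        rw [h5] at hl
        push_cast at hl
        omega
    obtain ⟨i', j, h4, h5, h6, h7⟩ := BD1_hk_cell Y ht h3
    have h8 := BD1_bead_inj Y h5
    rw [h8] at h4 h7
    exact ⟨j, h4, h7⟩
  · rintro ⟨j, h1, h2⟩
    have h3 := BD1_hook Y h1
    rw [h2] at h3
    have h4 := DI_colLen Y hN j
    have h5 : (-(N : ℤ)) ≤ hole Y j := by
      unfold hole
      omega
    refine ⟨by omega, fun l hl => ?_⟩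
    have h6 := DI_beta N Y l
    apply BD1_ne Y l j
    omega

theorem DI_cell_unique (Y : YoungDiagram) {i j j' t : ℕ} (h : (i, j) ∈ Y) (h' : (i, j') ∈ Y)
    (ht : hookLen Y i j = t) (ht' : hookLen Y i j' = t) : j = j' := by
  have h1 := BD1_hook Y h
  have h2 := BD1_hook Y h'
  rw [ht] at h1
  rw [ht'] at h2
  exact BD1_hole_inj Y (by omega)

theorem DI_hh (N : ℕ) (Y : YoungDiagram) (t : ℕ) (hN : Y.colLen 0 ≤ N) (ht : 1 ≤ t) :
    HH (beta N Y) t = hn t Y := by
  classical
  unfold HH hn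
  symm
  refine Finset.card_bij (fun c hc => (⟨c.1, DI_lt_col Y hN (i := c.1) (j := c.2)
    (by
      have := (mem_filter.1 hc).1
      exact this)⟩ : Fin N)) ?_ ?_ ?_
  · rintro ⟨i, j⟩ hc
    rw [mem_filter] at hc ⊢
    exact ⟨mem_univ _, (DI_hook_iff N Y t hN ht _).2 ⟨j, hc.1, hc.2⟩⟩
  · rintro ⟨i, j⟩ hc ⟨i', j'⟩ hc' h
    rw [mem_filter] at hc hc'
    have h1 : i = i' := Fin.mk.inj_iff.1 h
    subst h1
    rw [DI_cell_unique Y hc.1 hc'.1 hc.2 hc'.2]
  · intro i hi
    rw [mem_filter] at hi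
    obtain ⟨j, h1, h2⟩ := (DI_hook_iff N Y t hN ht i).1 hi.2
    exact ⟨((i : ℕ), j), mem_filter.2 ⟨h1, h2⟩, Fin.ext rfl⟩

/-- the beads of `rem` -/
theorem DI_rem_beta (N : ℕ) (Y : YoungDiagram) {t i j : ℕ} (hN : Y.colLen 0 ≤ N)
    (hij : (i, j) ∈ Y) (ht : hookLen Y i j = t) :
    beta N (rem Y i j) = fun a : Fin N =>
      DI_S (Function.update (fun a => Y.rowLen a + (N - 1 - a)) i (Y.rowLen i + (N - 1 - i) - t))
        i (i + leg Y i j) a := by
  have h1 : j < Y.rowLen i := YoungDiagram.mem_iff_lt_rowLen.1 hij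
  have h2 : i < Y.colLen j := YoungDiagram.mem_iff_lt_colLen.1 hij
  have h3 := DI_colLen Y hN j
  have hleg : i + leg Y i j + 1 = Y.colLen j := by
    unfold leg
    omega
  have hiN := DI_lt_col Y hN hij
  funext a
  have haN := a.2
  unfold beta DI_S
  by_cases h4 : i ≤ (a : ℕ) ∧ (a : ℕ) < i + leg Y i j
  · rw [if_pos h4, DI_row2 Y a h4.1 (by omega), Function.update_of_ne (by omega)]
    have := (DI_lt Y j (a + 1)).2 (by omega)
    omega
  · rw [if_neg h4]
    by_cases h5 : (a : ℕ) = i + leg Y i j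
    · rw [if_pos h5, Function.update_self, DI_row3 Y a (by omega) (by omega)]
      unfold hookLen at ht
      omega
    · rw [if_neg h5]
      by_cases h6 : (a : ℕ) < i
      · rw [DI_row1 Y a h6, Function.update_of_ne (by omega)]
      · rw [DI_row4 Y a (by omega), Function.update_of_ne (by omega)]

theorem DI_neg_one_sq (d : ℕ) : ((-1 : ℤ) ^ d) * (-1) ^ d = 1 := by
  rw [← mul_pow]
  norm_num

theorem DI_step (hA : FA_stmt) (N : ℕ) (Y : YoungDiagram) (t : ℕ) (hN : Y.colLen 0 ≤ N)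
    (ht : 1 ≤ t) : AA t (FF (beta N Y)) =
      fun b => ∑ c ∈ Y.cells.filter (fun c => hookLen Y c.1 c.2 = t),
        (-1) ^ leg Y c.1 c.2 * FF (beta N (rem Y c.1 c.2)) b := by
  classical
  rw [hA.AA_FF]
  funext b
  -- the terms which do not vanish
  have h1 : (∑ i, if t ≤ beta N Y i then
      FF (Function.update (beta N Y) i (beta N Y i - t)) b else 0) =
      ∑ i ∈ univ.filter (fun i : Fin N => t ≤ beta N Y i ∧ ∀ l : Fin N, beta N Y l ≠ beta N Y i - t),
        FF (Function.update (beta N Y) i (beta N Y i - t)) b := by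
    rw [Finset.sum_filter]
    refine Finset.sum_congr rfl fun i _ => ?_
    by_cases h2 : t ≤ beta N Y i
    · by_cases h3 : ∀ l : Fin N, beta N Y l ≠ beta N Y i - t
      · rw [if_pos h2, if_pos ⟨h2, h3⟩]
      · rw [if_pos h2, if_neg (fun h => h3 h.2)]
        push Not at h3
        obtain ⟨l, hl⟩ := h3
        have hli : l ≠ i := by
          rintro rfl
          omega
        rw [hA.zero]
        · rfl
        · intro hinj
          apply hli
          apply hinj
          rw [Function.update_of_ne hli, Function.update_self, hl]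
    · rw [if_neg h2, if_neg (fun h => h2 h.1)]
  rw [h1]
  symm
  refine Finset.sum_bij (fun c hc => (⟨c.1, DI_lt_col Y hN (i := c.1) (j := c.2)
    (by
      have := (mem_filter.1 hc).1
      exact this)⟩ : Fin N)) ?_ ?_ ?_ ?_
  · rintro ⟨i, j⟩ hc
    rw [mem_filter] at hc ⊢
    exact ⟨mem_univ _, (DI_hook_iff N Y t hN ht _).2 ⟨j, hc.1, hc.2⟩⟩
  · rintro ⟨i, j⟩ hc ⟨i', j'⟩ hc' h
    rw [mem_filter] at hc hc'
    have h1 : i = i' := Fin.mk.inj_iff.1 h
    subst h1
    rw [DI_cell_unique Y hc.1 hc'.1 hc.2 hc'.2]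
  · intro i hi
    rw [mem_filter] at hi
    obtain ⟨j, h1, h2⟩ := (DI_hook_iff N Y t hN ht i).1 hi.2
    exact ⟨((i : ℕ), j), mem_filter.2 ⟨h1, h2⟩, Fin.ext rfl⟩
  · rintro ⟨i, j⟩ hc
    rw [mem_filter] at hc
    have hij : (i, j) ∈ Y := hc.1
    have hh : hookLen Y i j = t := hc.2
    have h2 : i < Y.colLen j := YoungDiagram.mem_iff_lt_colLen.1 hij
    have h3 := DI_colLen Y hN j
    have hleg : i + leg Y i j + 1 = Y.colLen j := by
      unfold leg
      omega
    simp only
    rw [DI_rem_beta N Y hN hij hh, DI_shift hA N _ i (leg Y i j) (by omega), ← mul_assoc,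
      DI_neg_one_sq, one_mul]
    congr 1
    funext a
    by_cases ha : (a : ℕ) = i
    · have ha' : a = (⟨i, DI_lt_col Y hN hij⟩ : Fin N) := Fin.ext ha
      rw [ha', Function.update_self, Function.update_self]
      rfl
    · have ha' : a ≠ (⟨i, DI_lt_col Y hN hij⟩ : Fin N) := fun h => ha (by rw [h])
      rw [Function.update_of_ne ha', Function.update_of_ne ha]
      rfl

/-! ### linearity -/

theorem DI_AA_lin {N : ℕ} {ι : Type} (r : ℕ) (s : Finset ι) (k : ι → ℤ)
    (f : ι → (Fin N → ℕ) → ℤ) : AA r (fun b => ∑ c ∈ s, k c * f c b) =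
      fun b => ∑ c ∈ s, k c * AA r (f c) b := by
  funext b
  unfold AA
  rw [Finset.sum_comm]
  refine Finset.sum_congr rfl fun c _ => ?_
  rw [Finset.mul_sum]

theorem DI_AAs_lin {N : ℕ} {ι : Type} (rs : List ℕ) (s : Finset ι) (k : ι → ℤ)
    (f : ι → (Fin N → ℕ) → ℤ) : AAs rs (fun b => ∑ c ∈ s, k c * f c b) =
      fun b => ∑ c ∈ s, k c * AAs rs (f c) b := by
  induction rs generalizing f with
  | nil => rfl
  | cons r rs ih =>
    simp only [AAs]
    rw [DI_AA_lin, ih]

theorem DI_rem_colLen (Y : YoungDiagram) (i j : ℕ) : (rem Y i j).colLen 0 ≤ Y.colLen 0 := by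
  by_contra hc
  have h1 : (Y.colLen 0, 0) ∈ rem Y i j := YoungDiagram.mem_iff_lt_colLen.2 (by omega)
  have h2 := ((DI_mem_rem Y i j _ _).1 h1).1
  have := YoungDiagram.mem_iff_lt_colLen.1 h2
  omega

theorem DI_chi (hA : FA_stmt) (N : ℕ) (ts : List ℕ) : ∀ Y : YoungDiagram, Y.colLen 0 ≤ N →
    (∀ t ∈ ts, 1 ≤ t) → chiAux ts Y = AAs ts (FF (beta N Y)) (vac N) := by
  induction ts with
  | nil =>
    intro Y hN _
    simp only [chiAux, AAs]
    by_cases h : Y.cells = ∅
    · rw [if_pos h]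
      have h0 : ∀ a, Y.rowLen a = 0 := by
        intro a
        by_contra hc
        have h1 : (a, 0) ∈ Y := YoungDiagram.mem_iff_lt_rowLen.2 (Nat.pos_of_ne_zero hc)
        have h2 : (a, 0) ∈ Y.cells := h1
        rw [h] at h2
        simp at h2
      have h1 : beta N Y = vac N := by
        funext a
        unfold beta vac
        rw [h0, zero_add]
      rw [← h1, hA.self N _ (DI_beta_inj N Y)]
    · rw [if_neg h]
      symm
      by_contra hc
      have h1 := hA.sum_FF N _ _ hc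
      apply h
      have h2 : ∑ a : Fin N, Y.rowLen a = 0 := by
        have h3 : ∑ a : Fin N, beta N Y a = ∑ a : Fin N, Y.rowLen a + ∑ a : Fin N, vac N a := by
          rw [← Finset.sum_add_distrib]
          rfl
        omega
      rw [Finset.eq_empty_iff_forall_notMem]
      rintro ⟨i, j⟩ hij
      have hij' : (i, j) ∈ Y := hij
      have h4 := DI_lt_col Y hN hij'
      have h5 := (Finset.sum_eq_zero_iff.1 h2) ⟨i, h4⟩ (mem_univ _)
      have h6 := YoungDiagram.mem_iff_lt_rowLen.1 hij'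
      have h7 : Y.rowLen i = 0 := h5
      omega
  | cons t ts ih =>
    intro Y hN hts
    simp only [chiAux, AAs]
    rw [DI_step hA N Y t hN (hts t (by simp)), DI_AAs_lin]
    refine Finset.sum_congr rfl fun c _ => ?_
    rw [ih (rem Y c.1 c.2) ((DI_rem_colLen Y c.1 c.2).trans hN) (fun s hs => hts s (by simp [hs]))]

/-- row DI -/
theorem row_DI (hA : FA_stmt) (h1 : BD1_stmt) : DI_stmt where
  hh := DI_hh
  step := DI_step hA
  chi := by
    have _ := h1
    intro N Y ts hN hts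
    exact DI_chi hA N ts Y hN hts

end ZT68
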