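/-
MP_1882ea_al, row EI (helper44).  The energy identity for alternating functions and its consequence.
-/
import Mathlib
import Pool.Agent.Lib.ZT68.Chi

namespace ZT68

open Finset

namespace EIrow

variable {N : ℕ}

/-- two coordinates -/
def two (f : (Fin N → ℕ) → ℤ) (b : Fin N → ℕ) (i j : Fin N) (u v : ℕ) : ℤ :=
  f (Function.update (Function.update b i u) j v)

theorem two_anti {f : (Fin N → ℕ) → ℤ} (hf : Alt f) (b : Fin N → ℕ) {i j : Fin N} (hij : i ≠ j)
    (u v : ℕ) : two f b i j u v = - two f b i j v u := by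
  unfold two
  rw [← hf _ i j hij]
  congr 1
  funext x
  by_cases h1 : x = i
  · subst h1
    simp [Function.update_of_ne hij]
  · by_cases h2 : x = j
    · subst h2
      simp [Function.update_of_ne hij]
    · rw [Function.update_of_ne h2, Function.update_of_ne h1, Function.comp_apply,
        Equiv.swap_apply_of_ne_of_ne h1 h2, Function.update_of_ne h2, Function.update_of_ne h1]

theorem total_zero {f : (Fin N → ℕ) → ℤ} (hf : Alt f) (b : Fin N → ℕ) {i j : Fin N} (hij : i ≠ j)
    (s : ℕ) : ∑ u ∈ range (s + 1), two f b i j u (s - u) = 0 := by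
  have h1 : ∑ u ∈ range (s + 1), two f b i j u (s - u) =
      - ∑ u ∈ range (s + 1), two f b i j u (s - u) := by
    conv_lhs => rw [← Finset.sum_range_reflect]
    rw [← Finset.sum_neg_distrib]
    refine Finset.sum_congr rfl fun u hu => ?_
    rw [Finset.mem_range] at hu
    have e1 : s + 1 - 1 - u = s - u := by omega
    have e2 : s - (s - u) = u := by omega
    rw [e1, e2]
    exact two_anti hf b hij _ _
  linarith

/-- the pair term -/
theorem pair_sum {f : (Fin N → ℕ) → ℤ} (hf : Alt f) (b : Fin N → ℕ) {i j : Fin N} (hij : i ≠ j) :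
    ∑ r ∈ range (b i), two f b i j (b i - (r + 1)) (b j + (r + 1)) +
      ∑ r ∈ range (b j), two f b i j (b i + (r + 1)) (b j - (r + 1)) = - f b := by
  have h1 := total_zero hf b hij (b i + b j)
  have e0 : b i + b j + 1 = b i + (b j + 1) := by ring
  rw [e0, Finset.sum_range_add, Finset.sum_range_succ'] at h1
  have e1 : ∑ u ∈ range (b i), two f b i j u (b i + b j - u) =
      ∑ r ∈ range (b i), two f b i j (b i - (r + 1)) (b j + (r + 1)) := by
    rw [← Finset.sum_range_reflect]
    refine Finset.sum_congr rfl fun r hr => ?_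
    rw [Finset.mem_range] at hr
    congr 1 <;> omega
  have e2 : two f b i j (b i + 0) (b i + b j - (b i + 0)) = f b := by
    unfold two
    rw [Nat.add_zero, Nat.add_sub_cancel_left, Function.update_eq_self, Function.update_eq_self]
  have e3 : ∑ k ∈ range (b j), two f b i j (b i + (k + 1)) (b i + b j - (b i + (k + 1))) =
      ∑ r ∈ range (b j), two f b i j (b i + (r + 1)) (b j - (r + 1)) := by
    refine Finset.sum_congr rfl fun r hr => ?_
    congr 1
    omega
  rw [e1, e2, e3] at h1
  linarith

/-- the term with indices `i`, `j` -/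
def T (f : (Fin N → ℕ) → ℤ) (b : Fin N → ℕ) (i j : Fin N) : ℤ :=
  ∑ r ∈ range (b i), f (Function.update (Function.update b i (b i - (r + 1))) j
    ((Function.update b i (b i - (r + 1))) j + (r + 1)))

theorem T_self (f : (Fin N → ℕ) → ℤ) (b : Fin N → ℕ) (i : Fin N) : T f b i i = (b i : ℤ) * f b := by
  have : T f b i i = ∑ r ∈ range (b i), f b := by
    refine Finset.sum_congr rfl fun r hr => ?_
    rw [Finset.mem_range] at hr
    congr 1
    rw [Function.update_self, Function.update_idem]
    have e : b i - (r + 1) + (r + 1) = b i := by omega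
    rw [e, Function.update_eq_self]
  rw [this, Finset.sum_const, Finset.card_range, nsmul_eq_mul]

theorem T_pair {f : (Fin N → ℕ) → ℤ} (hf : Alt f) (b : Fin N → ℕ) {i j : Fin N} (hij : i ≠ j) :
    T f b i j + T f b j i = - f b := by
  rw [← pair_sum hf b hij]
  congr 1
  · refine Finset.sum_congr rfl fun r _ => ?_
    unfold two
    rw [Function.update_of_ne hij.symm]
  · refine Finset.sum_congr rfl fun r _ => ?_
    unfold two
    rw [Function.update_of_ne hij, Function.update_comm hij]

theorem energy {f : (Fin N → ℕ) → ℤ} (hf : Alt f) (b : Fin N → ℕ) :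
    ∑ i, ∑ r ∈ range (b i), AA (r + 1) f (Function.update b i (b i - (r + 1))) =
      ((∑ j, b j : ℕ) : ℤ) * f b - ((∑ i : Fin N, (i : ℕ) : ℕ) : ℤ) * f b := by
  have h1 : ∑ i, ∑ r ∈ range (b i), AA (r + 1) f (Function.update b i (b i - (r + 1))) =
      ∑ i, ∑ j, T f b i j := by
    refine Finset.sum_congr rfl fun i _ => ?_
    unfold AA T
    rw [Finset.sum_comm]
  rw [h1]
  -- split off the diagonal
  have h2 : ∑ i, ∑ j, T f b i j = ∑ i, T f b i i +
      ∑ i : Fin N, ∑ j ∈ univ.filter (fun j => j < i), (T f b i j + T f b j i) := by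
    have e1 : ∀ i, ∑ j, T f b i j = T f b i i + ∑ j ∈ univ.filter (fun j => j < i), T f b i j +
        ∑ j ∈ univ.filter (fun j => i < j), T f b i j := by
      intro i
      rw [← Finset.sum_filter_add_sum_filter_not univ (fun j => j < i)]
      have : univ.filter (fun j => ¬ j < i) = insert i (univ.filter (fun j => i < j)) := by
        ext j
        simp only [mem_filter, mem_univ, true_and, not_lt, mem_insert]
        rw [le_iff_eq_or_lt, eq_comm]
      rw [this, Finset.sum_insert (by simp)]
      ring
    rw [Finset.sum_congr rfl fun i _ => e1 i, Finset.sum_add_distrib, Finset.sum_add_distrib,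
      add_assoc]
    congr 1
    have e2 : ∑ i : Fin N, ∑ j ∈ univ.filter (fun j => i < j), T f b i j =
        ∑ i : Fin N, ∑ j ∈ univ.filter (fun j => j < i), T f b j i := by
      simp only [Finset.sum_filter]
      rw [Finset.sum_comm]
    rw [e2, ← Finset.sum_add_distrib]
    exact Finset.sum_congr rfl fun i _ => (Finset.sum_add_distrib).symm
  rw [h2]
  have h3 : ∑ i, T f b i i = ((∑ j, b j : ℕ) : ℤ) * f b := by
    rw [Finset.sum_congr rfl fun i _ => T_self f b i, ← Finset.sum_mul, Nat.cast_sum]
  have h4 : ∑ i : Fin N, ∑ j ∈ univ.filter (fun j => j < i), (T f b i j + T f b j i) =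
      - (((∑ i : Fin N, (i : ℕ) : ℕ) : ℤ) * f b) := by
    have e : ∀ i : Fin N, ∑ j ∈ univ.filter (fun j => j < i), (T f b i j + T f b j i) =
        - ((i : ℕ) : ℤ) * f b := by
      intro i
      rw [Finset.sum_congr rfl (g := fun _ => - f b) fun j hj => T_pair hf b
        (ne_of_gt (Finset.mem_filter.mp hj).2)]
      rw [Finset.sum_const, nsmul_eq_mul]
      have : (univ.filter (fun j : Fin N => j < i)).card = (i : ℕ) := by
        have h5 : univ.filter (fun j : Fin N => j < i) = Finset.Iio i := by ext j; simp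
        rw [h5, Fin.card_Iio]
      rw [this]
      ring
    rw [Finset.sum_congr rfl fun i _ => e i, ← Finset.sum_mul, Finset.sum_neg_distrib,
      Nat.cast_sum]
    ring
  rw [h3, h4]
  ring

theorem perm_ne {f : (Fin N → ℕ) → ℤ} (hf : Alt f) (σ : Equiv.Perm (Fin N)) :
    ∀ b : Fin N → ℕ, f (b ∘ σ) ≠ 0 → f b ≠ 0 := by
  induction σ using Equiv.Perm.swap_induction_on with
  | one => intro b h; simpa using h
  | swap_mul σ i j hij ih =>
    intro b h
    have h1 : f ((b ∘ Equiv.swap i j) ∘ σ) ≠ 0 := by
      have e : (b ∘ Equiv.swap i j) ∘ σ = b ∘ (Equiv.swap i j * σ : Equiv.Perm (Fin N)) := rfl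
      rw [e]; exact h
    have h2 := ih _ h1
    rw [hf b i j hij] at h2
    exact neg_ne_zero.mp h2

theorem inj_of_ne {f : (Fin N → ℕ) → ℤ} (hf : Alt f) {b : Fin N → ℕ} (hb : f b ≠ 0) :
    Function.Injective b := by
  intro i j h
  by_contra hij
  have h1 := hf b i j hij
  have h2 : b ∘ Equiv.swap i j = b := by
    funext x
    by_cases h1 : x = i
    · subst h1; simp [h]
    · by_cases h2 : x = j
      · subst h2; simp [h]
      · simp [Equiv.swap_apply_of_ne_of_ne h1 h2]
  rw [h2] at h1
  apply hb
  linarith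

/-- the sum of distinct natural numbers -/
theorem sum_inj {b : Fin N → ℕ} (hb : Function.Injective b) :
    ∑ i : Fin N, (i : ℕ) ≤ ∑ j, b j ∧
      (∑ j, b j = ∑ i : Fin N, (i : ℕ) → ∃ σ : Equiv.Perm (Fin N), b = vac N ∘ σ) := by
  classical
  set s : Finset ℕ := univ.image b with hs
  have hcard : s.card = N := by
    rw [hs, Finset.card_image_of_injective _ hb, Finset.card_univ, Fintype.card_fin]
  have hsum : ∑ j, b j = ∑ i : Fin N, s.orderEmbOfFin hcard i := by
    have e1 : ∑ x ∈ s, x = ∑ j, b j := by
      rw [hs, Finset.sum_image fun x _ y _ h => hb h]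
    rw [← e1]
    have e2 : s = univ.image (s.orderEmbOfFin hcard) := by
      ext x
      have h1 : x ∈ Set.range (s.orderEmbOfFin hcard) ↔ x ∈ s := by
        rw [Finset.range_orderEmbOfFin]; exact Finset.mem_coe
      rw [← h1]
      simp
    conv_lhs => rw [e2]
    rw [Finset.sum_image fun x _ y _ h => (s.orderEmbOfFin hcard).injective h]
  have hle : ∀ i : Fin N, (i : ℕ) ≤ s.orderEmbOfFin hcard i := by
    intro i
    have hm : StrictMono (fun i : Fin N => s.orderEmbOfFin hcard i) :=
      (s.orderEmbOfFin hcard).strictMono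
    obtain ⟨k, hk⟩ := i
    induction k with
    | zero => exact Nat.zero_le _
    | succ k ih =>
      have h1 := ih (by omega)
      have h2 : s.orderEmbOfFin hcard ⟨k, by omega⟩ < s.orderEmbOfFin hcard ⟨k + 1, hk⟩ :=
        hm (by simp)
      exact Nat.succ_le_of_lt (lt_of_le_of_lt h1 h2)
  refine ⟨?_, fun heq => ?_⟩
  · rw [hsum]
    exact Finset.sum_le_sum fun i _ => hle i
  · rw [hsum] at heq
    have h1 : ∀ i : Fin N, s.orderEmbOfFin hcard i = (i : ℕ) := by
      intro i
      by_contra hne
      have : ∑ i : Fin N, (i : ℕ) < ∑ i : Fin N, s.orderEmbOfFin hcard i :=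
        Finset.sum_lt_sum (fun i _ => hle i) ⟨i, Finset.mem_univ i,
          lt_of_le_of_ne (hle i) (Ne.symm hne)⟩
      omega
    have hsr : ∀ x, x ∈ s ↔ x < N := by
      intro x
      have h2 : x ∈ Set.range (s.orderEmbOfFin hcard) ↔ x ∈ s := by
        rw [Finset.range_orderEmbOfFin]; exact Finset.mem_coe
      rw [← h2]
      constructor
      · rintro ⟨i, rfl⟩
        rw [h1]; exact i.2
      · intro hx
        exact ⟨⟨x, hx⟩, h1 _⟩
    have hb2 : ∀ j, b j < N := fun j => (hsr _).mp (by rw [hs]; exact Finset.mem_image_of_mem b (Finset.mem_univ j))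
    -- define the permutation
    have hinj : Function.Injective (fun j : Fin N => (⟨N - 1 - b j, by have := hb2 j; omega⟩ :
        Fin N)) := by
      intro i j h
      have h3 := congrArg Fin.val h
      simp only at h3
      have := hb2 i
      have := hb2 j
      exact hb (by omega)
    refine ⟨Equiv.ofBijective _ (Finite.injective_iff_bijective.mp hinj), ?_⟩
    funext j
    simp only [Function.comp_apply, Equiv.ofBijective_apply, vac]
    have := hb2 j
    omega

end EIrow

open EIrow in
theorem row_EI (hA : FA_stmt) : EI_stmt := by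
  have hstep : ∀ (N : ℕ) (f : (Fin N → ℕ) → ℤ) (b : Fin N → ℕ), Alt f →
      f b ≠ 0 → ∑ j, b j ≠ ∑ i : Fin N, (i : ℕ) → ∃ r, 1 ≤ r ∧ AA r f ≠ 0 := by
    intro N f b hf hb hne
    by_contra hcon
    push Not at hcon
    have h1 := energy hf b
    have h2 : ∑ i, ∑ r ∈ range (b i), AA (r + 1) f (Function.update b i (b i - (r + 1))) = 0 := by
      refine Finset.sum_eq_zero fun i _ => Finset.sum_eq_zero fun r _ => ?_
      rw [hcon (r + 1) (by omega)]
      rfl
    rw [h2] at h1
    have h3 : (((∑ j, b j : ℕ) : ℤ) - ((∑ i : Fin N, (i : ℕ) : ℕ) : ℤ)) * f b = 0 := by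
      rw [sub_mul]; exact h1.symm
    rcases mul_eq_zero.mp h3 with h4 | h4
    · apply hne
      have := sub_eq_zero.mp h4
      exact_mod_cast this
    · exact hb h4
  refine ⟨fun N f b hf _ hb hne => hstep N f b hf hb hne, ?_⟩
  intro N m
  induction m using Nat.strong_induction_on with
  | _ m ih =>
    intro f hf hfin hsup hne
    obtain ⟨b, hb⟩ : ∃ b, f b ≠ 0 := by
      by_contra hcon
      push Not at hcon
      exact hne (funext hcon)
    have hbi := inj_of_ne hf hb
    have hbs := hsup b hb
    by_cases hm : m = 0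
    · subst hm
      obtain ⟨σ, hσ⟩ := (sum_inj hbi).2 (by omega)
      refine ⟨[], by simp, by simp, ?_⟩
      rw [hσ] at hb
      exact perm_ne hf σ _ hb
    · obtain ⟨r, hr, hAr⟩ := hstep N f b hf hb (by omega)
      obtain ⟨b', hb'⟩ : ∃ b', AA r f b' ≠ 0 := by
        by_contra hcon
        push Not at hcon
        exact hAr (funext hcon)
      have halt := hA.alt_AA N r f hf
      have hb'i := inj_of_ne halt hb'
      obtain ⟨j, -, hj⟩ := Finset.exists_ne_zero_of_sum_ne_zero hb'
      have hs1 := hsup _ hj
      have hs2 : ∑ l, Function.update b' j (b' j + r) l = ∑ l, b' l + r := by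
        rw [Finset.sum_update_of_mem (Finset.mem_univ j)]
        rw [← Finset.add_sum_erase univ b' (Finset.mem_univ j)]
        have : (univ \ {j} : Finset (Fin N)) = univ.erase j := by
          ext x; simp
        rw [this]
        ring
      have hmin := (sum_inj hb'i).1
      have hrm : r ≤ m := by omega
      obtain ⟨ρ, h1, h2, h3⟩ := ih (m - r) (by omega) (AA r f) halt (hA.fin_AA N r f hfin)
        (fun c hc => hA.sum_AA N r (m - r + ∑ i : Fin N, (i : ℕ)) f (fun c' hc' => by
          rw [hsup c' hc']; omega) c hc) hAr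
      refine ⟨r :: ρ, ?_, ?_, h3⟩
      · intro x hx
        rcases List.mem_cons.mp hx with rfl | hx
        · exact hr
        · exact h1 x hx
      · rw [List.sum_cons, h2]
        omega

end ZT68
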