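/-
MP_1882ea_al, helper70.  Row ENa of the tank ZT.
-/
import Mathlib
import Pool.Agent.Lib.ZT68.Defs

namespace ZT68

open Finset

/-- the polynomial `∏ (1 + z X ^ (k + 1)) ^ t` -/
noncomputable def ENPol (t : ℕ) (z : ℝ) (K : ℕ) : Polynomial ℝ :=
  ∏ k ∈ range K, (1 + Polynomial.C z * Polynomial.X ^ (k + 1)) ^ t

theorem ENPol_succ (t : ℕ) (z : ℝ) (K : ℕ) : ENPol t z (K + 1) =
    ENPol t z K * (1 + Polynomial.C z * Polynomial.X ^ (K + 1)) ^ t := by
  unfold ENPol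
  rw [Finset.prod_range_succ]

theorem ENPol_eval (t : ℕ) (z : ℝ) (K : ℕ) (y : ℝ) :
    (ENPol t z K).eval y = ∏ k ∈ range K, (1 + z * y ^ (k + 1)) ^ t := by
  unfold ENPol
  rw [Polynomial.eval_prod]
  refine Finset.prod_congr rfl fun k _ => ?_
  simp

/-- coefficientwise domination -/
def ENDom (P Q : Polynomial ℝ) : Prop := ∀ j, |P.coeff j| ≤ Q.coeff j

theorem ENDom.mul {P Q P' Q' : Polynomial ℝ} (h : ENDom P Q) (h' : ENDom P' Q') :
    ENDom (P * P') (Q * Q') := by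
  intro j
  rw [Polynomial.coeff_mul, Polynomial.coeff_mul]
  refine (Finset.abs_sum_le_sum_abs _ _).trans (Finset.sum_le_sum fun x _ => ?_)
  rw [abs_mul]
  exact mul_le_mul (h _) (h' _) (abs_nonneg _) ((abs_nonneg _).trans (h _))

theorem ENDom_one : ENDom 1 1 := by
  intro j
  rw [Polynomial.coeff_one]
  split_ifs <;> simp

theorem ENDom.pow {P Q : Polynomial ℝ} (h : ENDom P Q) (t : ℕ) : ENDom (P ^ t) (Q ^ t) := by
  induction t with
  | zero => simpa using ENDom_one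
  | succ t ih => rw [pow_succ, pow_succ]; exact ih.mul h

theorem ENDom_base (z w : ℝ) (hz : |z| ≤ w) (k : ℕ) :
    ENDom (1 + Polynomial.C z * Polynomial.X ^ (k + 1))
      (1 + Polynomial.C w * Polynomial.X ^ (k + 1)) := by
  intro j
  rw [Polynomial.coeff_add, Polynomial.coeff_add, Polynomial.coeff_C_mul, Polynomial.coeff_C_mul,
    Polynomial.coeff_one, Polynomial.coeff_X_pow]
  by_cases h0 : j = 0
  · subst h0
    simp
  · rw [if_neg h0]
    split_ifs <;> simp [hz]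

theorem ENDom_pol (t : ℕ) (z w : ℝ) (hz : |z| ≤ w) (K : ℕ) :
    ENDom (ENPol t z K) (ENPol t w K) := by
  induction K with
  | zero => simpa [ENPol] using ENDom_one
  | succ K ih =>
    rw [ENPol_succ, ENPol_succ]
    exact ih.mul ((ENDom_base z w hz K).pow t)

/-- the eval of a polynomial dominated -/
theorem EN_sum (P : Polynomial ℝ) (y : ℝ) {N : ℕ} (hN : P.natDegree < N) :
    P.eval y = ∑ j ∈ range N, P.coeff j * y ^ j := Polynomial.eval_eq_sum_range' hN y

theorem EN_dsum (P : Polynomial ℝ) (y : ℝ) {N : ℕ} (hN : P.natDegree < N) :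
    y * (Polynomial.derivative P).eval y = ∑ j ∈ range N, (j : ℝ) * P.coeff j * y ^ j := by
  have h1 : (Polynomial.X * Polynomial.derivative P).natDegree < N := by
    by_cases h0 : Polynomial.derivative P = 0
    · rw [h0]; simp; omega
    · rw [Polynomial.natDegree_X_mul h0]
      have h2 := Polynomial.natDegree_derivative_lt (p := P) (by
        intro h
        apply h0
        rw [Polynomial.natDegree_eq_zero] at h
        obtain ⟨c, rfl⟩ := h
        simp)
      omega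
  have h2 := Polynomial.eval_eq_sum_range' h1 y
  rw [Polynomial.eval_mul, Polynomial.eval_X] at h2
  rw [h2]
  refine Finset.sum_congr rfl fun j _ => ?_
  congr 1
  cases j with
  | zero => simp
  | succ m =>
    rw [Polynomial.coeff_X_mul, Polynomial.coeff_derivative]
    push_cast
    ring

theorem EN_pos (t : ℕ) (ζ : ℝ) (h0 : 0 ≤ ζ) (K : ℕ) (y : ℝ) (hy : 0 ≤ y) :
    0 < (ENPol t ζ K).eval y := by
  rw [ENPol_eval]
  exact Finset.prod_pos fun k _ => by positivity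

theorem EN_deriv (t : ℕ) (ζ : ℝ) (h0 : 0 ≤ ζ) (K : ℕ) (y : ℝ) (hy : 0 ≤ y) :
    y * (Polynomial.derivative (ENPol t ζ K)).eval y ≤
      (ENPol t ζ K).eval y * ∑ k ∈ range K, (t : ℝ) * ((k : ℝ) + 1) * ζ * y ^ (k + 1) := by
  induction K with
  | zero => simp [ENPol]
  | succ K ih =>
    rw [ENPol_succ, Polynomial.derivative_mul, Finset.sum_range_succ]
    set P := ENPol t ζ K with hP
    have hQ : (1 + Polynomial.C ζ * Polynomial.X ^ (K + 1) : Polynomial ℝ).eval y =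
        1 + ζ * y ^ (K + 1) := by simp
    set Q : Polynomial ℝ := 1 + Polynomial.C ζ * Polynomial.X ^ (K + 1) with hQd
    have hQ1 : 1 ≤ Q.eval y := by
      rw [hQ]
      have : 0 ≤ ζ * y ^ (K + 1) := by positivity
      linarith
    have hdQ : y * (Polynomial.derivative Q).eval y = ζ * ((K : ℝ) + 1) * y ^ (K + 1) := by
      rw [hQd]
      simp only [Polynomial.derivative_add, Polynomial.derivative_one, Polynomial.derivative_mul,
        Polynomial.derivative_C, Polynomial.derivative_X_pow, zero_mul, zero_add,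
        Polynomial.eval_mul, Polynomial.eval_C, Polynomial.eval_pow, Polynomial.eval_X,
        Polynomial.eval_natCast, add_tsub_cancel_right]
      push_cast
      ring
    have hPpos : 0 < P.eval y := EN_pos t ζ h0 K y hy
    simp only [Polynomial.eval_add, Polynomial.eval_mul, Polynomial.eval_pow]
    rw [Polynomial.derivative_pow]
    simp only [Polynomial.eval_mul, Polynomial.eval_pow, Polynomial.eval_C]
    have e1 : y * (P.derivative.eval y * Q.eval y ^ t + P.eval y *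
        ((t : ℝ) * Q.eval y ^ (t - 1) * Q.derivative.eval y)) =
        (y * P.derivative.eval y) * Q.eval y ^ t +
          P.eval y * ((t : ℝ) * Q.eval y ^ (t - 1) * (ζ * ((K : ℝ) + 1) * y ^ (K + 1))) := by
      rw [← hdQ]; ring
    rw [e1]
    have h1 : (y * P.derivative.eval y) * Q.eval y ^ t ≤
        (P.eval y * ∑ k ∈ range K, (t : ℝ) * ((k : ℝ) + 1) * ζ * y ^ (k + 1)) * Q.eval y ^ t :=
      mul_le_mul_of_nonneg_right ih (by positivity)
    have h2 : Q.eval y ^ (t - 1) ≤ Q.eval y ^ t := pow_le_pow_right₀ hQ1 (by omega)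
    have h3 : P.eval y * ((t : ℝ) * Q.eval y ^ (t - 1) * (ζ * ((K : ℝ) + 1) * y ^ (K + 1))) ≤
        P.eval y * ((t : ℝ) * Q.eval y ^ t * (ζ * ((K : ℝ) + 1) * y ^ (K + 1))) := by
      gcongr
    refine (add_le_add h1 h3).trans (le_of_eq ?_)
    ring

theorem EN_evalle (t : ℕ) (ζ : ℝ) (h0 : 0 ≤ ζ) (K : ℕ) (y : ℝ) (hy : 0 ≤ y) :
    (ENPol t ζ K).eval y ≤ Real.exp (ζ * (t * ∑ k ∈ range K, y ^ (k + 1))) := by
  rw [ENPol_eval, Finset.mul_sum, Finset.mul_sum, Real.exp_sum]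
  refine Finset.prod_le_prod (fun k _ => by positivity) fun k _ => ?_
  have h1 : 1 + ζ * y ^ (k + 1) ≤ Real.exp (ζ * y ^ (k + 1)) := by
    rw [add_comm]; exact Real.add_one_le_exp _
  calc (1 + ζ * y ^ (k + 1)) ^ t ≤ Real.exp (ζ * y ^ (k + 1)) ^ t := by gcongr
    _ = Real.exp (ζ * (t * y ^ (k + 1))) := by
      rw [← Real.exp_nat_mul]
      congr 1
      ring

theorem EN_geom (K : ℕ) (y : ℝ) (hy : 0 ≤ y) (hy2 : y ≤ 1 / 2) :
    ∑ k ∈ range K, y ^ (k + 1) ≤ 2 * y := by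
  have h1 : ∀ k ∈ range K, y ^ (k + 1) ≤ y * (1 / 2) ^ k := by
    intro k _
    rw [pow_succ, mul_comm]
    gcongr
  refine (Finset.sum_le_sum h1).trans ?_
  rw [← Finset.mul_sum, mul_comm]
  have h2 : ∑ i ∈ range K, ((1 : ℝ) / 2) ^ i = 2 - 2 * (1 / 2) ^ K := by
    induction K with
    | zero => norm_num
    | succ K ih =>
      rw [Finset.sum_range_succ, ih (fun k hk => by
        rw [pow_succ, mul_comm]
        gcongr), pow_succ]
      ring
  rw [h2]
  have : (0 : ℝ) ≤ (1 / 2) ^ K := by positivity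
  nlinarith

theorem EN_dgeom (K : ℕ) (y : ℝ) (hy : 0 ≤ y) (hy2 : y ≤ 1 / 2) :
    ∑ k ∈ range K, ((k : ℝ) + 1) * y ^ (k + 1) ≤ 4 * y := by
  have h1 : ∀ k ∈ range K, ((k : ℝ) + 1) * y ^ (k + 1) ≤ y * (((k : ℝ) + 1) * (1 / 2) ^ k) := by
    intro k _
    have : ((k : ℝ) + 1) * y ^ (k + 1) = y * (((k : ℝ) + 1) * y ^ k) := by ring
    rw [this]
    gcongr
  refine (Finset.sum_le_sum h1).trans ?_
  rw [← Finset.mul_sum, mul_comm]
  have h2 : ∀ K : ℕ, ∑ i ∈ range K, ((i : ℝ) + 1) * ((1 : ℝ) / 2) ^ i =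
      4 - (2 * K + 4) * (1 / 2) ^ K := by
    intro K
    induction K with
    | zero => norm_num
    | succ K ih =>
      rw [Finset.sum_range_succ, ih, pow_succ]
      push_cast
      ring
  rw [h2]
  have : (0 : ℝ) ≤ (2 * K + 4) * (1 / 2) ^ K := by positivity
  nlinarith

/-- the main estimate on the coefficients -/
theorem EN_main (t : ℕ) (ζ : ℝ) (h0 : 0 ≤ ζ) (K : ℕ) (y : ℝ) (hy : 0 ≤ y) (hy2 : y ≤ 1 / 2)
    {N : ℕ} (hN : (ENPol t ζ K).natDegree < N) :
    ∑ j ∈ range N, (j : ℝ) * (ENPol t ζ K).coeff j * y ^ j ≤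
      4 * (ζ * (t * y)) * Real.exp (2 * (ζ * (t * y))) := by
  rw [← EN_dsum _ y hN]
  refine (EN_deriv t ζ h0 K y hy).trans ?_
  have h1 : (ENPol t ζ K).eval y ≤ Real.exp (2 * (ζ * (t * y))) := by
    refine (EN_evalle t ζ h0 K y hy).trans ?_
    rw [Real.exp_le_exp]
    have := EN_geom K y hy hy2
    calc ζ * (t * ∑ k ∈ range K, y ^ (k + 1)) ≤ ζ * (t * (2 * y)) := by gcongr
      _ = _ := by ring
  have h2 : ∑ k ∈ range K, (t : ℝ) * ((k : ℝ) + 1) * ζ * y ^ (k + 1) ≤ 4 * (ζ * (t * y)) := by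
    have e : ∑ k ∈ range K, (t : ℝ) * ((k : ℝ) + 1) * ζ * y ^ (k + 1) =
        (ζ * t) * ∑ k ∈ range K, ((k : ℝ) + 1) * y ^ (k + 1) := by
      rw [Finset.mul_sum]
      refine Finset.sum_congr rfl fun k _ => by ring
    rw [e]
    have := EN_dgeom K y hy hy2
    calc ζ * t * ∑ k ∈ range K, ((k : ℝ) + 1) * y ^ (k + 1) ≤ ζ * t * (4 * y) := by gcongr
      _ = _ := by ring
  have h3 : (0 : ℝ) ≤ ∑ k ∈ range K, (t : ℝ) * ((k : ℝ) + 1) * ζ * y ^ (k + 1) :=
    Finset.sum_nonneg fun k _ => by positivity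
  calc (ENPol t ζ K).eval y * ∑ k ∈ range K, (t : ℝ) * ((k : ℝ) + 1) * ζ * y ^ (k + 1)
      ≤ Real.exp (2 * (ζ * (t * y))) * (4 * (ζ * (t * y))) := by gcongr
    _ = _ := by ring

theorem EN_hc (hH : HN_stmt) (t : ℕ) (z : ℝ) (j K : ℕ) (h : j ≤ K) :
    hc t z j = (ENPol t z K).coeff j := hH.hc_eq t z j K h

theorem EN_pp_pos (n : ℕ) : 0 < pp n := Fintype.card_pos

/-- row ENa -/
theorem row_ENa (hH : HN_stmt) : ENa_stmt := by
  intro η C N0 hP
  refine ⟨4 * (C + 1), by have := hP.hC; positivity, ?_⟩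
  intro n hn t ht hy2 ζ hζ0 hζ1
  set y : ℝ := Real.exp (-(t * η n)) with hy
  have hy0 : 0 < y := Real.exp_pos _
  have hn4 : 4 ≤ n := hP.hN.trans hn
  have hn0 : (0 : ℝ) < n := by exact_mod_cast (by omega : 0 < n)
  have hn1 : (1 : ℝ) ≤ n := by exact_mod_cast (by omega : 1 ≤ n)
  have hpp : (0 : ℝ) < pp n := by exact_mod_cast EN_pp_pos n
  have hC := hP.hC
  set P := ENPol t (-ζ) n with hPd
  set Q := ENPol t ζ n with hQd
  have hdom : ENDom P Q := ENDom_pol t (-ζ) ζ (by rw [abs_neg, abs_of_nonneg hζ0]) n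
  -- a large range
  set N := max (max (P.natDegree + 1) (Q.natDegree + 1)) (n / t + 1) with hNd
  have hNP : P.natDegree < N := by
    have : P.natDegree + 1 ≤ N := (le_max_left _ _).trans (le_max_left _ _)
    omega
  have hNQ : Q.natDegree < N := by
    have : Q.natDegree + 1 ≤ N := (le_max_right _ _).trans (le_max_left _ _)
    omega
  have hNt : n / t + 1 ≤ N := le_max_right _ _
  have hprod : ∏ k ∈ range n, (1 - ζ * y ^ (k + 1)) ^ t = ∑ j ∈ range N, P.coeff j * y ^ j := by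
    rw [← EN_sum P y hNP, hPd, ENPol_eval]
    refine Finset.prod_congr rfl fun k _ => ?_
    congr 1
    ring
  have haa : aa n t (1 - ζ) = ∑ j ∈ range (n / t + 1), ((pp (n - t * j) : ℝ) / pp n) * P.coeff j := by
    unfold aa
    have h1 := hH.sum n t (-ζ) ht
    rw [show (1 : ℝ) + -ζ = 1 - ζ by ring] at h1
    rw [h1, Finset.sum_div]
    refine Finset.sum_congr rfl fun j hj => ?_
    rw [EN_hc hH t (-ζ) j n]
    · ring
    · rw [Finset.mem_range] at hj
      have : n / t ≤ n := Nat.div_le_self n t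
      omega
  have hsplit : ∑ j ∈ range N, P.coeff j * y ^ j = ∑ j ∈ range (n / t + 1), P.coeff j * y ^ j +
      ∑ j ∈ Ico (n / t + 1) N, P.coeff j * y ^ j := by
    rw [Finset.sum_range_add_sum_Ico _ hNt]
  rw [haa, hprod, hsplit]
  have e1 : ∑ j ∈ range (n / t + 1), ((pp (n - t * j) : ℝ) / pp n) * P.coeff j -
      (∑ j ∈ range (n / t + 1), P.coeff j * y ^ j + ∑ j ∈ Ico (n / t + 1) N, P.coeff j * y ^ j) =
      ∑ j ∈ range (n / t + 1), ((pp (n - t * j) : ℝ) / pp n - y ^ j) * P.coeff j -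
        ∑ j ∈ Ico (n / t + 1) N, P.coeff j * y ^ j := by
    rw [← sub_sub, ← Finset.sum_sub_distrib]
    congr 1
    refine Finset.sum_congr rfl fun j _ => by ring
  rw [e1]
  set A : ℝ := (C + 1) * (n : ℝ) ^ (-(3 / 4) : ℝ) * t with hA
  have hpow : (0 : ℝ) < (n : ℝ) ^ (-(3 / 4) : ℝ) := Real.rpow_pos_of_pos hn0 _
  have hinv : 1 / (n : ℝ) ≤ (n : ℝ) ^ (-(3 / 4) : ℝ) := by
    have : 1 / (n : ℝ) = (n : ℝ) ^ (-1 : ℝ) := by rw [Real.rpow_neg_one, one_div]
    rw [this]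
    exact Real.rpow_le_rpow_of_exponent_le hn1 (by norm_num)
  have hb1 : |∑ j ∈ range (n / t + 1), ((pp (n - t * j) : ℝ) / pp n - y ^ j) * P.coeff j| ≤
      ∑ j ∈ range (n / t + 1), A * ((j : ℝ) * Q.coeff j * y ^ j) := by
    refine (Finset.abs_sum_le_sum_abs _ _).trans (Finset.sum_le_sum fun j hj => ?_)
    rw [Finset.mem_range] at hj
    have hs : t * j ≤ n := by
      have : j ≤ n / t := by omega
      calc t * j ≤ t * (n / t) := Nat.mul_le_mul_left _ this
        _ ≤ n := Nat.mul_div_le n t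
    have hr := hP.ratio n hn (t * j) hs
    have hyj : Real.exp (-(((t * j : ℕ) : ℝ) * η n)) = y ^ j := by
      rw [hy, ← Real.exp_nat_mul]
      congr 1
      push_cast
      ring
    rw [hyj] at hr
    have h2 : |(pp (n - t * j) : ℝ) / pp n - y ^ j| ≤
        C * ((t * j : ℕ) : ℝ) * (n : ℝ) ^ (-(3 / 4) : ℝ) * y ^ j := by
      have : (pp (n - t * j) : ℝ) / pp n - y ^ j = ((pp (n - t * j) : ℝ) - y ^ j * pp n) / pp n := by
        field_simp
      rw [this, abs_div, abs_of_pos hpp, div_le_iff₀ hpp]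
      refine hr.trans (le_of_eq (by ring))
    rw [abs_mul]
    have h3 := hdom j
    have hQ0 : 0 ≤ Q.coeff j := (abs_nonneg _).trans h3
    calc |(pp (n - t * j) : ℝ) / pp n - y ^ j| * |P.coeff j|
        ≤ (C * ((t * j : ℕ) : ℝ) * (n : ℝ) ^ (-(3 / 4) : ℝ) * y ^ j) * Q.coeff j := by
          gcongr
      _ ≤ ((C + 1) * ((t * j : ℕ) : ℝ) * (n : ℝ) ^ (-(3 / 4) : ℝ) * y ^ j) * Q.coeff j := by
          gcongr
          linarith
      _ = A * ((j : ℝ) * Q.coeff j * y ^ j) := by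
          rw [hA]; push_cast; ring
  have hb2 : |∑ j ∈ Ico (n / t + 1) N, P.coeff j * y ^ j| ≤
      ∑ j ∈ Ico (n / t + 1) N, A * ((j : ℝ) * Q.coeff j * y ^ j) := by
    refine (Finset.abs_sum_le_sum_abs _ _).trans (Finset.sum_le_sum fun j hj => ?_)
    rw [Finset.mem_Ico] at hj
    have h3 := hdom j
    have hQ0 : 0 ≤ Q.coeff j := (abs_nonneg _).trans h3
    have hs : n < t * j := by
      have : n / t < j := by omega
      rw [mul_comm]
      exact (Nat.div_lt_iff_lt_mul ht).1 this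
    have hs' : (n : ℝ) ≤ t * j := by exact_mod_cast hs.le
    have h4 : 1 ≤ A * j := by
      have h5 : (1 : ℝ) ≤ (n : ℝ) ^ (-(3 / 4) : ℝ) * (t * j) := by
        calc (1 : ℝ) = 1 / n * n := by field_simp
          _ ≤ (n : ℝ) ^ (-(3 / 4) : ℝ) * (t * j) := by gcongr
      calc (1 : ℝ) ≤ (n : ℝ) ^ (-(3 / 4) : ℝ) * (t * j) := h5
        _ ≤ (C + 1) * ((n : ℝ) ^ (-(3 / 4) : ℝ) * (t * j)) := by
          have : 0 ≤ (n : ℝ) ^ (-(3 / 4) : ℝ) * (t * j) := by positivity
          nlinarith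
        _ = A * j := by rw [hA]; ring
    rw [abs_mul, abs_of_nonneg (by positivity : (0 : ℝ) ≤ y ^ j)]
    calc |P.coeff j| * y ^ j ≤ Q.coeff j * y ^ j := by gcongr
      _ = 1 * (Q.coeff j * y ^ j) := by ring
      _ ≤ (A * j) * (Q.coeff j * y ^ j) := by gcongr
      _ = _ := by ring
  have hfin : ∑ j ∈ range (n / t + 1), A * ((j : ℝ) * Q.coeff j * y ^ j) +
      ∑ j ∈ Ico (n / t + 1) N, A * ((j : ℝ) * Q.coeff j * y ^ j) =
      A * ∑ j ∈ range N, (j : ℝ) * Q.coeff j * y ^ j := by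
    rw [Finset.sum_range_add_sum_Ico _ hNt, Finset.mul_sum]
  have hm := EN_main t ζ hζ0 n y hy0.le hy2 hNQ
  have hA0 : 0 ≤ A := by rw [hA]; positivity
  calc |∑ j ∈ range (n / t + 1), ((pp (n - t * j) : ℝ) / pp n - y ^ j) * P.coeff j -
        ∑ j ∈ Ico (n / t + 1) N, P.coeff j * y ^ j|
      ≤ |∑ j ∈ range (n / t + 1), ((pp (n - t * j) : ℝ) / pp n - y ^ j) * P.coeff j| +
        |∑ j ∈ Ico (n / t + 1) N, P.coeff j * y ^ j| := abs_sub _ _
    _ ≤ A * ∑ j ∈ range N, (j : ℝ) * Q.coeff j * y ^ j := by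
        rw [← hfin]; exact add_le_add hb1 hb2
    _ ≤ A * (4 * (ζ * (t * y)) * Real.exp (2 * (ζ * (t * y)))) := by gcongr
    _ = _ := by rw [hA]; ring

end ZT68
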