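/-
MP_1882ea_al, helper70.  Row ENb of the tank ZT.
-/
import Mathlib
import Pool.Agent.Lib.ZT68.ENa

namespace ZT68

open Finset

theorem ENb_geom (K : ℕ) (y : ℝ) (hy : 0 ≤ y) (hy1 : y < 1) :
    ∑ k ∈ range K, y ^ (k + 1) ≤ y / (1 - y) := by
  have h1 : ∑ k ∈ range K, y ^ (k + 1) = y * ∑ k ∈ range K, y ^ k := by
    rw [Finset.mul_sum]
    refine Finset.sum_congr rfl fun k _ => by ring
  rw [h1, geom_sum_eq hy1.ne]
  have h2 : 0 ≤ y ^ K := by positivity
  have h3 : (y ^ K - 1) / (y - 1) = (1 - y ^ K) / (1 - y) := by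
    rw [← neg_sub 1 (y ^ K), ← neg_sub 1 y, neg_div_neg_eq]
  rw [h3, ← mul_div_assoc]
  have h4 : 0 < 1 - y := by linarith
  gcongr
  nlinarith

theorem ENb_geom_tendsto (y : ℝ) (hy : 0 ≤ y) (hy1 : y < 1) :
    Filter.Tendsto (fun K : ℕ => ∑ k ∈ range K, y ^ (k + 1)) Filter.atTop (nhds (y / (1 - y))) := by
  have h1 : HasSum (fun k : ℕ => y ^ (k + 1)) (y / (1 - y)) := by
    have h2 := (hasSum_geometric_of_lt_one hy hy1).mul_left y
    rw [← div_eq_mul_inv] at h2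
    have h3 : (fun k : ℕ => y ^ (k + 1)) = fun k : ℕ => y * y ^ k := by
      funext k
      ring
    rw [h3]
    exact h2
  exact h1.tendsto_sum_nat

/-- the coefficients `hc t ζ j` dominate -/
theorem ENb_hc_nonneg (hH : HN_stmt) (t : ℕ) (ζ : ℝ) (h0 : 0 ≤ ζ) (j : ℕ) : 0 ≤ hc t ζ j := by
  rw [EN_hc hH t ζ j j le_rfl]
  exact (abs_nonneg _).trans (ENDom_pol t ζ ζ (by rw [abs_of_nonneg h0]) j j)

theorem ENb_coeff_le (hH : HN_stmt) (t : ℕ) (ζ : ℝ) (h0 : 0 ≤ ζ) (K j : ℕ) :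
    (ENPol t ζ K).coeff j ≤ hc t ζ j := by
  by_cases h : j ≤ K
  · exact (EN_hc hH t ζ j K h).ge
  · -- the coefficient is monotone in `K`
    have hmono : Monotone fun K => (ENPol t ζ K).coeff j := by
      refine monotone_nat_of_le_succ fun K => ?_
      rw [ENPol_succ, Polynomial.coeff_mul]
      have h1 : (ENPol t ζ K).coeff j = (ENPol t ζ K).coeff j *
          ((1 + Polynomial.C ζ * Polynomial.X ^ (K + 1)) ^ t : Polynomial ℝ).coeff 0 := by
        rw [Polynomial.coeff_zero_eq_eval_zero]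
        simp
      rw [h1]
      refine Finset.single_le_sum (f := fun x : ℕ × ℕ => (ENPol t ζ K).coeff x.1 *
          ((1 + Polynomial.C ζ * Polynomial.X ^ (K + 1)) ^ t : Polynomial ℝ).coeff x.2)
          (fun x _ => ?_) (a := (j, 0)) (by simp)
      have h2 : 0 ≤ (ENPol t ζ K).coeff x.1 :=
        (abs_nonneg _).trans (ENDom_pol t ζ ζ (by rw [abs_of_nonneg h0]) K x.1)
      have h3 : 0 ≤ ((1 + Polynomial.C ζ * Polynomial.X ^ (K + 1)) ^ t : Polynomial ℝ).coeff x.2 :=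
        (abs_nonneg _).trans (((ENDom_base ζ ζ (by rw [abs_of_nonneg h0]) K).pow t) x.2)
      exact mul_nonneg h2 h3
    rw [EN_hc hH t ζ j j le_rfl]
    exact hmono (by omega)

theorem ENb_abs_le (hH : HN_stmt) (t : ℕ) (ζ : ℝ) (h0 : 0 ≤ ζ) (K j : ℕ) :
    |(ENPol t (-ζ) K).coeff j| ≤ hc t ζ j :=
  (ENDom_pol t (-ζ) ζ (by rw [abs_neg, abs_of_nonneg h0]) K j).trans (ENb_coeff_le hH t ζ h0 K j)

/-- summability of the majorant -/
theorem ENb_summable (hH : HN_stmt) (t : ℕ) (ζ : ℝ) (h0 : 0 ≤ ζ) (y : ℝ) (hy : 0 ≤ y)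
    (hy1 : y < 1) : Summable fun j => hc t ζ j * y ^ j := by
  refine summable_of_sum_range_le (c := Real.exp (ζ * (t * (y / (1 - y)))))
    (fun j => mul_nonneg (ENb_hc_nonneg hH t ζ h0 j) (by positivity)) fun M => ?_
  have h1 : ∑ j ∈ range M, hc t ζ j * y ^ j = ∑ j ∈ range M, (ENPol t ζ M).coeff j * y ^ j := by
    refine Finset.sum_congr rfl fun j hj => ?_
    rw [EN_hc hH t ζ j M (Finset.mem_range.1 hj).le]
  rw [h1]
  have h2 : ∑ j ∈ range M, (ENPol t ζ M).coeff j * y ^ j ≤ (ENPol t ζ M).eval y := by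
    rw [EN_sum (ENPol t ζ M) y (N := max M ((ENPol t ζ M).natDegree + 1)) (by
      have := le_max_right M ((ENPol t ζ M).natDegree + 1)
      omega)]
    refine Finset.sum_le_sum_of_subset_of_nonneg ?_ fun j _ _ => ?_
    · intro j hj
      rw [Finset.mem_range] at hj ⊢
      exact lt_of_lt_of_le hj (le_max_left _ _)
    · exact mul_nonneg ((abs_nonneg _).trans (ENDom_pol t ζ ζ (by rw [abs_of_nonneg h0]) M j))
        (by positivity)
  refine h2.trans ((EN_evalle t ζ h0 M y hy).trans ?_)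
  rw [Real.exp_le_exp]
  have := ENb_geom M y hy hy1
  gcongr

/-- the value of the series -/
theorem ENb_H (hH : HN_stmt) (t : ℕ) (ζ : ℝ) (h0 : 0 ≤ ζ) (hζ1 : ζ ≤ 1) (y : ℝ) (hy : 0 ≤ y)
    (hy1 : y < 1) : (Summable fun j => ‖hc t (-ζ) j * y ^ j‖) ∧
      ∑' j, hc t (-ζ) j * y ^ j ≤ Real.exp (-(ζ * (t * (y / (1 - y))))) := by
  have hs := ENb_summable hH t ζ h0 y hy hy1
  have hb : ∀ K j, ‖(ENPol t (-ζ) K).coeff j * y ^ j‖ ≤ hc t ζ j * y ^ j := by
    intro K j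
    rw [norm_mul, Real.norm_eq_abs, Real.norm_eq_abs, abs_of_nonneg (by positivity : 0 ≤ y ^ j)]
    exact mul_le_mul_of_nonneg_right (ENb_abs_le hH t ζ h0 K j) (by positivity)
  have hsn : Summable fun j => ‖hc t (-ζ) j * y ^ j‖ := by
    refine Summable.of_nonneg_of_le (fun _ => norm_nonneg _) (fun j => ?_) hs
    rw [EN_hc hH t (-ζ) j j le_rfl]
    exact hb j j
  refine ⟨hsn, ?_⟩
  have hlim : Filter.Tendsto (fun K => ∑' j, (ENPol t (-ζ) K).coeff j * y ^ j) Filter.atTop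
      (nhds (∑' j, hc t (-ζ) j * y ^ j)) := by
    refine tendsto_tsum_of_dominated_convergence hs ?_ ?_
    · intro j
      refine tendsto_const_nhds.congr' ?_
      filter_upwards [Filter.eventually_ge_atTop j] with K hK
      rw [EN_hc hH t (-ζ) j K hK]
    · filter_upwards with K j using hb K j
  have hev : ∀ K, ∑' j, (ENPol t (-ζ) K).coeff j * y ^ j = (ENPol t (-ζ) K).eval y := by
    intro K
    rw [EN_sum (ENPol t (-ζ) K) y (Nat.lt_succ_self _)]
    refine tsum_eq_sum fun j hj => ?_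
    rw [Finset.mem_range, not_lt] at hj
    rw [Polynomial.coeff_eq_zero_of_natDegree_lt (by omega), zero_mul]
  have hle : ∀ K, ∑' j, (ENPol t (-ζ) K).coeff j * y ^ j ≤
      Real.exp (-(ζ * (t * ∑ k ∈ range K, y ^ (k + 1)))) := by
    intro K
    rw [hev, ENPol_eval, Finset.mul_sum, Finset.mul_sum, ← Finset.sum_neg_distrib, Real.exp_sum]
    refine Finset.prod_le_prod (fun k _ => ?_) fun k _ => ?_
    · have : ζ * y ^ (k + 1) ≤ 1 := by
        have h1 : y ^ (k + 1) ≤ 1 := pow_le_one₀ hy hy1.le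
        have h2 : 0 ≤ y ^ (k + 1) := by positivity
        nlinarith
      have h3 : 0 ≤ 1 + -ζ * y ^ (k + 1) := by linarith
      positivity
    · have h1 : y ^ (k + 1) ≤ 1 := pow_le_one₀ hy hy1.le
      have h2 : 0 ≤ y ^ (k + 1) := by positivity
      have h3 : 0 ≤ 1 + -ζ * y ^ (k + 1) := by nlinarith
      have h4 : 1 + -ζ * y ^ (k + 1) ≤ Real.exp (-(ζ * y ^ (k + 1))) := by
        have := Real.add_one_le_exp (-(ζ * y ^ (k + 1)))
        linarith
      calc (1 + -ζ * y ^ (k + 1)) ^ t ≤ Real.exp (-(ζ * y ^ (k + 1))) ^ t := by gcongr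
        _ = Real.exp (-(ζ * (t * y ^ (k + 1)))) := by
          rw [← Real.exp_nat_mul]
          congr 1
          ring
  refine le_of_tendsto_of_tendsto' hlim ?_ hle
  have := ENb_geom_tendsto y hy hy1
  exact (Real.continuous_exp.tendsto _).comp (((this.const_mul (t : ℝ)).const_mul ζ).neg)

theorem ENb_pp_bound {η : ℕ → ℝ} {C : ℝ} {N0 : ℕ} (hP : PAx η C N0) {n : ℕ} (hn : N0 ≤ n) :
    (Summable fun m => (pp m : ℝ) * Real.exp (-η n) ^ m) ∧
      ∑' m, (pp m : ℝ) * Real.exp (-η n) ^ m ≤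
        C * (n : ℝ) ^ ((3 / 4) : ℝ) * pp n * Real.exp (-(n * η n)) := by
  have hn4 : 4 ≤ n := hP.hN.trans hn
  have hn0 : (0 : ℝ) < n := by exact_mod_cast (by omega : 0 < n)
  have hη : 0 < η n := lt_of_lt_of_le (by positivity) (hP.low n hn)
  set r : ℝ := Real.exp (-η n) with hr
  have hr0 : 0 < r := Real.exp_pos _
  have hr1 : r < 1 := by rw [hr, Real.exp_lt_one_iff]; linarith
  have hb : ∀ M : ℕ, ∑ m ∈ range M, (pp m : ℝ) * r ^ m ≤
      C * (n : ℝ) ^ ((3 / 4) : ℝ) * pp n * Real.exp (-(n * η n)) := by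
    intro M
    have h1 : ∑ m ∈ range M, (pp m : ℝ) * r ^ m = ∑ m ∈ range M, (pK M m : ℝ) * r ^ m := by
      refine Finset.sum_congr rfl fun m hm => ?_
      rw [pK_eq_pp (Finset.mem_range.1 hm).le]
    have h2 : ∑' m, (pK M m : ℝ) * r ^ m = ∏ k ∈ range M, (1 - r ^ (k + 1))⁻¹ := by
      have := (ev_pK M (z := (r : ℂ)) (by
        rw [Complex.norm_real, Real.norm_of_nonneg hr0.le]; exact hr1)).2
      have h3 : ((∑' m, (pK M m : ℝ) * r ^ m : ℝ) : ℂ) =
          ((∏ k ∈ range M, (1 - r ^ (k + 1))⁻¹ : ℝ) : ℂ) := by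
        push_cast
        rw [← this]
        refine tsum_congr fun m => ?_
        rw [PowerSeries.coeff_mk]
      exact_mod_cast h3
    have h4 : ∑ m ∈ range M, (pK M m : ℝ) * r ^ m ≤ ∏ k ∈ range M, (1 - r ^ (k + 1))⁻¹ := by
      rw [← h2]
      exact (pK_summable M hr0.le hr1).sum_le_tsum _ fun m _ => by positivity
    have h5 : ∏ k ∈ range M, (1 - r ^ (k + 1))⁻¹ =
        ∏ k ∈ range M, (1 - Real.exp (-(((k : ℝ) + 1) * η n)))⁻¹ := by
      refine Finset.prod_congr rfl fun k _ => ?_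
      rw [hr, ← Real.exp_nat_mul]
      congr 3
      push_cast
      ring
    have h6 := hP.sad n hn M
    rw [h1]
    refine h4.trans ?_
    rw [h5]
    have h7 : Real.exp (n * η n) * Real.exp (-(n * η n)) = 1 := by
      rw [← Real.exp_add]; simp
    calc ∏ k ∈ range M, (1 - Real.exp (-(((k : ℝ) + 1) * η n)))⁻¹
        = (Real.exp (n * η n) * ∏ k ∈ range M, (1 - Real.exp (-(((k : ℝ) + 1) * η n)))⁻¹) *
          Real.exp (-(n * η n)) := by
          rw [mul_right_comm, h7, one_mul]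
      _ ≤ (C * (n : ℝ) ^ ((3 / 4) : ℝ) * pp n) * Real.exp (-(n * η n)) := by gcongr
  have hs : Summable fun m => (pp m : ℝ) * r ^ m :=
    summable_of_sum_range_le (fun m => by positivity) hb
  exact ⟨hs, Real.tsum_le_of_sum_range_le (fun m => by positivity) hb⟩

/-- the fibre of `(m, j) ↦ m + t j` -/
theorem ENb_fibre (t : ℕ) (ht : 1 ≤ t) (f : ℕ × ℕ → ℝ) (m : ℕ) :
    ∑' b : (fun x : ℕ × ℕ => x.1 + t * x.2) ⁻¹' {m}, f b =
      ∑ j ∈ range (m / t + 1), f (m - t * j, j) := by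
  have hset : (fun x : ℕ × ℕ => x.1 + t * x.2) ⁻¹' {m} =
      (((range (m / t + 1)).image fun j => (m - t * j, j) : Finset (ℕ × ℕ)) : Set (ℕ × ℕ)) := by
    ext ⟨a, j⟩
    simp only [Set.mem_preimage, Set.mem_singleton_iff, Finset.coe_image, Set.mem_image,
      Finset.mem_coe, Finset.mem_range, Prod.mk.injEq]
    constructor
    · intro h
      refine ⟨j, ?_, by omega, rfl⟩
      have : t * j ≤ m := by omega
      have h2 : j ≤ m / t := (Nat.le_div_iff_mul_le ht).2 (by rw [mul_comm]; exact this)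
      omega
    · rintro ⟨j', hj', h1, h2⟩
      subst h2
      have : t * j' ≤ m := by
        calc t * j' ≤ t * (m / t) := Nat.mul_le_mul_left _ (by omega)
          _ ≤ m := Nat.mul_div_le m t
      omega
  rw [hset, Finset.tsum_subtype' , Finset.sum_image]
  intro a _ b _ h
  simp only [Prod.mk.injEq] at h
  exact h.2

/-- row ENb -/
theorem row_ENb (hH : HN_stmt) : ENb_stmt := by
  intro η C N0 hP n hN t ht ζ hζ0 hζ1
  have hn4 : 4 ≤ n := hP.hN.trans hN
  have hn0 : (0 : ℝ) < n := by exact_mod_cast (by omega : 0 < n)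
  have hη : 0 < η n := lt_of_lt_of_le (by positivity) (hP.low n hN)
  have hpp : (0 : ℝ) < pp n := by exact_mod_cast EN_pp_pos n
  have hC := hP.hC
  set r : ℝ := Real.exp (-η n) with hr
  have hr0 : 0 < r := Real.exp_pos _
  have hr1 : r < 1 := by rw [hr, Real.exp_lt_one_iff]; linarith
  set y : ℝ := r ^ t with hy
  have hy0 : 0 < y := by positivity
  have hy1 : y < 1 := pow_lt_one₀ hr0.le hr1 (by omega)
  obtain ⟨hs1, hb1⟩ := ENb_pp_bound hP hN
  obtain ⟨hs2, hb2⟩ := ENb_H hH t ζ hζ0 hζ1 y hy0.le hy1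
  rw [← hr] at hs1 hb1
  have hs1n : Summable fun m => ‖(pp m : ℝ) * r ^ m‖ := by
    refine hs1.congr fun m => ?_
    rw [Real.norm_of_nonneg (by positivity)]
  set f : ℕ × ℕ → ℝ := fun x => ((pp x.1 : ℝ) * r ^ x.1) * (hc t (-ζ) x.2 * y ^ x.2) with hf
  have hsf : Summable f := summable_mul_of_summable_norm hs1n hs2
  have htf : ∑' x, f x = (∑' m, (pp m : ℝ) * r ^ m) * ∑' j, hc t (-ζ) j * y ^ j :=
    (tsum_mul_tsum_of_summable_norm hs1n hs2).symm
  have hfib := hsf.hasSum.tsum_fiberwise (fun x : ℕ × ℕ => x.1 + t * x.2)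
  have hA : ∀ m : ℕ, ∑' b : (fun x : ℕ × ℕ => x.1 + t * x.2) ⁻¹' {m}, f b =
      r ^ m * ∑ Y ∈ DD m, (1 - ζ) ^ hn t Y := by
    intro m
    have h1 := hH.sum m t (-ζ) ht
    rw [show (1 : ℝ) + -ζ = 1 - ζ by ring] at h1
    rw [ENb_fibre t ht f m, h1, Finset.mul_sum]
    refine Finset.sum_congr rfl fun j hj => ?_
    rw [Finset.mem_range] at hj
    have h2 : t * j ≤ m := by
      calc t * j ≤ t * (m / t) := Nat.mul_le_mul_left _ (by omega)
        _ ≤ m := Nat.mul_div_le m t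
    have h3 : r ^ m = r ^ (m - t * j) * y ^ j := by
      rw [hy, ← pow_mul, ← pow_add]
      congr 1
      omega
    rw [hf, h3]
    ring
  have h0 : ∀ m : ℕ, 0 ≤ ∑' b : (fun x : ℕ × ℕ => x.1 + t * x.2) ⁻¹' {m}, f b := by
    intro m
    rw [hA]
    have h1 : 0 ≤ ∑ Y ∈ DD m, (1 - ζ) ^ hn t Y :=
      Finset.sum_nonneg fun Y _ => pow_nonneg (by linarith) _
    positivity
  have h1 : r ^ n * ∑ Y ∈ DD n, (1 - ζ) ^ hn t Y ≤ ∑' x, f x := by
    rw [← hA n]
    exact le_hasSum hfib n fun m _ => h0 m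
  have hP0 : 0 ≤ ∑' m, (pp m : ℝ) * r ^ m := tsum_nonneg fun m => by positivity
  have h2 : ∑' x, f x ≤ (C * (n : ℝ) ^ ((3 / 4) : ℝ) * pp n * Real.exp (-(n * η n))) *
      Real.exp (-(ζ * (t * (y / (1 - y))))) := by
    rw [htf]
    calc (∑' m, (pp m : ℝ) * r ^ m) * ∑' j, hc t (-ζ) j * y ^ j
        ≤ (∑' m, (pp m : ℝ) * r ^ m) * Real.exp (-(ζ * (t * (y / (1 - y))))) := by gcongr
      _ ≤ _ := by gcongr
  have h3 : r ^ n = Real.exp (-(n * η n)) := by
    rw [hr, ← Real.exp_nat_mul]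
    congr 1
    ring
  have h4 : t * (y / (1 - y)) = lam (η n) t := by
    have e : y = Real.exp (-(t * η n)) := by
      rw [hy, hr, ← Real.exp_nat_mul]
      congr 1
      ring
    unfold lam
    rw [e, Real.exp_neg]
    have h5 : 1 < Real.exp (t * η n) := by
      rw [Real.one_lt_exp_iff]
      have : (1 : ℝ) ≤ t := by exact_mod_cast ht
      positivity
    have h6 : Real.exp (t * η n) - 1 ≠ 0 := by
      have : 0 < Real.exp (t * η n) - 1 := by linarith
      exact this.ne'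
    have h7 : Real.exp (t * η n) ≠ 0 := (Real.exp_pos _).ne'
    have h8 : (1 : ℝ) - (Real.exp (t * η n))⁻¹ ≠ 0 := by
      have : (Real.exp (t * η n))⁻¹ < 1 := inv_lt_one_of_one_lt₀ h5
      have : 0 < (1 : ℝ) - (Real.exp (t * η n))⁻¹ := by linarith
      exact this.ne'
    field_simp
  rw [h4] at h2
  have h5 : Real.exp (-(n * η n)) * ∑ Y ∈ DD n, (1 - ζ) ^ hn t Y ≤
      Real.exp (-(n * η n)) * (C * (n : ℝ) ^ ((3 / 4) : ℝ) * pp n *
        Real.exp (-(ζ * lam (η n) t))) := by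
    rw [← h3]
    refine (h1.trans h2).trans (le_of_eq ?_)
    rw [h3]
    ring
  have h6 := le_of_mul_le_mul_left h5 (Real.exp_pos _)
  unfold aa
  rw [div_le_iff₀ hpp]
  refine h6.trans (le_of_eq (by ring))

end ZT68
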