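/-
MP_1882ea_al, helper68.  Row ENc: from ENa and ENb to EN.
-/
import Mathlib
import Pool.Agent.Lib.ZT68.Defs

namespace ZT68

open Finset

theorem ENc_prod_le (n t : ℕ) (hn : 1 ≤ n) (y ζ : ℝ) (hy0 : 0 ≤ y) (hy1 : y ≤ 1) (h0 : 0 ≤ ζ)
    (h1 : ζ ≤ 1) :
    ∏ k ∈ range n, (1 - ζ * y ^ (k + 1)) ^ t ≤ Real.exp (-(ζ * (t * y))) := by
  obtain ⟨m, rfl⟩ : ∃ m, n = m + 1 := ⟨n - 1, by omega⟩
  rw [Finset.prod_range_succ']
  have hf : ∀ k, 0 ≤ 1 - ζ * y ^ (k + 1) ∧ 1 - ζ * y ^ (k + 1) ≤ 1 := by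
    intro k
    have h2 : 0 ≤ y ^ (k + 1) := by positivity
    have h3 : y ^ (k + 1) ≤ 1 := pow_le_one₀ hy0 hy1
    constructor
    · nlinarith
    · nlinarith
  have h2 : ∏ k ∈ range m, (1 - ζ * y ^ (k + 1 + 1)) ^ t ≤ 1 := by
    apply Finset.prod_le_one
    · intro k _
      exact pow_nonneg (hf (k + 1)).1 t
    · intro k _
      exact pow_le_one₀ (hf (k + 1)).1 (hf (k + 1)).2
  have h3 : (1 - ζ * y ^ (0 + 1)) ^ t ≤ Real.exp (-(ζ * (t * y))) := by
    have h4 : 1 - ζ * y ^ (0 + 1) ≤ Real.exp (-(ζ * y)) := by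
      have := Real.add_one_le_exp (-(ζ * y))
      rw [zero_add, pow_one]
      linarith
    calc (1 - ζ * y ^ (0 + 1)) ^ t ≤ Real.exp (-(ζ * y)) ^ t := pow_le_pow_left₀ (hf 0).1 h4 t
      _ = _ := by
        rw [← Real.exp_nat_mul]
        congr 1
        ring
  calc (∏ k ∈ range m, (1 - ζ * y ^ (k + 1 + 1)) ^ t) * (1 - ζ * y ^ (0 + 1)) ^ t ≤
      1 * (1 - ζ * y ^ (0 + 1)) ^ t := by
        apply mul_le_mul_of_nonneg_right h2
        exact pow_nonneg (hf 0).1 t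
    _ ≤ _ := by rw [one_mul]; exact h3

theorem ENc_prod_ge (n t : ℕ) (y : ℝ) (hy0 : 0 ≤ y) (hy1 : y < 1) :
    Real.exp (-(t * y / (1 - y) ^ 2)) ≤ ∏ k ∈ range n, (1 - 1 * y ^ (k + 1)) ^ t := by
  have h1 : 0 < 1 - y := by linarith
  have hterm : ∀ k, Real.exp (-(t * (y ^ (k + 1) / (1 - y)))) ≤ (1 - 1 * y ^ (k + 1)) ^ t := by
    intro k
    set v := y ^ (k + 1) with hv
    have hv0 : 0 ≤ v := by positivity
    have hvy : v ≤ y := by
      rw [hv, pow_succ]
      have : y ^ k ≤ 1 := pow_le_one₀ hy0 hy1.le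
      nlinarith
    have h2 : 0 < 1 - v := by linarith
    have h3 : Real.exp (-(v / (1 - y))) ≤ 1 - v := by
      have h4 : Real.exp (-(v / (1 - y))) ≤ Real.exp (-(v / (1 - v))) := by
        apply Real.exp_le_exp.2
        apply neg_le_neg
        apply div_le_div_of_nonneg_left hv0 h1 (by linarith)
      refine h4.trans ?_
      rw [Real.exp_neg]
      have h5 : (1 - v)⁻¹ ≤ Real.exp (v / (1 - v)) := by
        have h6 := Real.add_one_le_exp (v / (1 - v))
        have h7 : (1 - v)⁻¹ = v / (1 - v) + 1 := by field_simp; ring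
        rw [h7]; exact h6
      calc (Real.exp (v / (1 - v)))⁻¹ ≤ ((1 - v)⁻¹)⁻¹ := inv_anti₀ (by positivity) h5
        _ = 1 - v := inv_inv _
    calc Real.exp (-(t * (v / (1 - y)))) = Real.exp (-(v / (1 - y))) ^ t := by
          rw [← Real.exp_nat_mul]
          congr 1
          ring
      _ ≤ (1 - v) ^ t := pow_le_pow_left₀ (Real.exp_pos _).le h3 t
      _ = _ := by rw [one_mul]
  have hsum : ∑ k ∈ range n, y ^ (k + 1) ≤ y / (1 - y) := by
    have h2 : ∑ k ∈ range n, y ^ k ≤ (1 - y)⁻¹ :=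
      (Summable.sum_le_tsum (range n) (fun k _ => pow_nonneg hy0 k)
        (summable_geometric_of_lt_one hy0 hy1)).trans
        (le_of_eq (tsum_geometric_of_lt_one hy0 hy1))
    calc ∑ k ∈ range n, y ^ (k + 1) = y * ∑ k ∈ range n, y ^ k := by
          rw [Finset.mul_sum]
          exact Finset.sum_congr rfl (fun k _ => by ring)
      _ ≤ y * (1 - y)⁻¹ := by gcongr
      _ = _ := (div_eq_mul_inv _ _).symm
  calc Real.exp (-(t * y / (1 - y) ^ 2)) ≤ Real.exp (∑ k ∈ range n, -(t * (y ^ (k + 1) / (1 - y)))) := by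
        apply Real.exp_le_exp.2
        rw [Finset.sum_neg_distrib]
        apply neg_le_neg
        rw [← Finset.mul_sum, ← Finset.sum_div]
        calc (t : ℝ) * ((∑ k ∈ range n, y ^ (k + 1)) / (1 - y)) ≤ t * ((y / (1 - y)) / (1 - y)) := by
              gcongr
          _ = _ := by field_simp
    _ = ∏ k ∈ range n, Real.exp (-(t * (y ^ (k + 1) / (1 - y)))) := Real.exp_sum _ _
    _ ≤ _ := Finset.prod_le_prod (fun k _ => (Real.exp_pos _).le) (fun k _ => hterm k)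

/-- row ENc -/
theorem row_ENc (ha : ENa_stmt) (hb : ENb_stmt) : EN_stmt := by
  intro η C N0 hP
  obtain ⟨C', hC', h⟩ := ha η C N0 hP
  have hbig := hb η C N0 hP
  refine ⟨max C C', N0, ⟨lt_max_of_lt_left hP.hC, ?_, ?_, ?_⟩⟩
  · intro n hn t ht hy ζ h0 h1
    have hn4 := hP.hN
    have h2 := (abs_le.1 (h n hn t ht hy ζ h0 h1)).2
    have h3 := ENc_prod_le n t (by omega) (Real.exp (-(t * η n))) ζ (Real.exp_pos _).le
      (by linarith) h0 h1
    have h4 : C' * (n : ℝ) ^ (-(3 / 4) : ℝ) * t * (ζ * (t * Real.exp (-(t * η n)))) *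
        Real.exp (2 * (ζ * (t * Real.exp (-(t * η n))))) ≤
        max C C' * (n : ℝ) ^ (-(3 / 4) : ℝ) * t * (ζ * (t * Real.exp (-(t * η n)))) *
        Real.exp (2 * (ζ * (t * Real.exp (-(t * η n))))) := by
      gcongr
      exact le_max_right _ _
    linarith
  · intro n hn t ht hy
    have h2 := (abs_le.1 (h n hn t ht hy 1 zero_le_one le_rfl)).1
    have h3 := ENc_prod_ge n t (Real.exp (-(t * η n))) (Real.exp_pos _).le (by linarith)
    rw [sub_self] at h2
    have h4 : C' * (n : ℝ) ^ (-(3 / 4) : ℝ) * t * (1 * (t * Real.exp (-(t * η n)))) *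
        Real.exp (2 * (1 * (t * Real.exp (-(t * η n))))) ≤
        max C C' * (n : ℝ) ^ (-(3 / 4) : ℝ) * t * (t * Real.exp (-(t * η n))) *
        Real.exp (2 * (t * Real.exp (-(t * η n)))) := by
      rw [one_mul]
      gcongr
      exact le_max_right _ _
    linarith
  · intro n hn t ht ζ h0 h1
    refine (hbig n hn t ht ζ h0 h1).trans ?_
    gcongr
    exact le_max_left _ _

end ZT68
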