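/-
MP_1882ea_al, row FA (helper6).  The algebra of the operators AA and the alternating sums FF.
-/
import Mathlib
import Pool.Agent.Lib.ZT68.Chi

namespace ZT68

open Finset

namespace FArow

theorem upd_comp {N : ℕ} (b : Fin N → ℕ) (e : Equiv.Perm (Fin N)) (k : Fin N) (v : ℕ) :
    Function.update (b ∘ e) k v = Function.update b (e k) v ∘ e := by
  funext x
  by_cases hx : x = k
  · subst hx
    simp
  · have : e x ≠ e k := fun h => hx (e.injective h)
    simp [Function.update_of_ne hx, Function.update_of_ne this]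

theorem comm (N r s : ℕ) (f : (Fin N → ℕ) → ℤ) : AA r (AA s f) = AA s (AA r f) := by
  funext b
  unfold AA
  rw [Finset.sum_comm]
  refine Finset.sum_congr rfl fun j _ => Finset.sum_congr rfl fun k _ => ?_
  congr 1
  by_cases h : j = k
  · subst h
    simp only [Function.update_self, Function.update_idem]
    congr 1
    omega
  · rw [Function.update_of_ne h, Function.update_of_ne (Ne.symm h), Function.update_comm h]

theorem alt_AA (N r : ℕ) (f : (Fin N → ℕ) → ℤ) (hf : Alt f) : Alt (AA r f) := by
  intro b i j hij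
  unfold AA
  rw [← Finset.sum_neg_distrib, ← Equiv.sum_comp (Equiv.swap i j)]
  refine Finset.sum_congr rfl fun k _ => ?_
  have h1 : Function.update (b ∘ Equiv.swap i j) ((Equiv.swap i j) k)
      ((b ∘ Equiv.swap i j) ((Equiv.swap i j) k) + r) =
      Function.update b k (b k + r) ∘ Equiv.swap i j := by
    rw [upd_comp]
    simp
  rw [h1, hf _ i j hij]

theorem alt_FF (N : ℕ) (γ : Fin N → ℕ) : Alt (FF γ) := by
  intro b i j hij
  unfold FF
  rw [← Finset.sum_neg_distrib, ← Equiv.sum_comp (Equiv.mulRight (Equiv.swap i j))]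
  refine Finset.sum_congr rfl fun σ _ => ?_
  have h1 : (b ∘ Equiv.swap i j = γ ∘ (Equiv.mulRight (Equiv.swap i j)) σ) ↔ b = γ ∘ σ := by
    constructor
    · intro h
      funext x
      have := congrFun h ((Equiv.swap i j) x)
      simpa using this
    · intro h
      funext x
      simp [h]
  by_cases h : b = γ ∘ σ
  · rw [if_pos (h1.2 h), if_pos h]
    simp [Equiv.Perm.sign_mul, Equiv.Perm.sign_swap hij]
  · rw [if_neg (fun h' => h (h1.1 h')), if_neg h]
    simp

theorem upd_inj {N : ℕ} (r : ℕ) (j : Fin N) :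
    Function.Injective (fun b : Fin N → ℕ => Function.update b j (b j + r)) := by
  intro b b' h
  funext x
  have hx := congrFun h x
  by_cases hxj : x = j
  · subst hxj
    simpa using hx
  · simpa [Function.update_of_ne hxj] using hx

theorem fin_AA (N r : ℕ) (f : (Fin N → ℕ) → ℤ) (hf : (Function.support f).Finite) :
    (Function.support (AA r f)).Finite := by
  have h1 : (⋃ j : Fin N, (fun b : Fin N → ℕ => Function.update b j (b j + r)) ⁻¹'
      Function.support f).Finite :=
    Set.finite_iUnion fun j => hf.preimage ((upd_inj r j).injOn)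
  refine h1.subset ?_
  intro b hb
  simp only [Function.mem_support, AA] at hb
  obtain ⟨j, _, hj⟩ := Finset.exists_ne_zero_of_sum_ne_zero hb
  exact Set.mem_iUnion.2 ⟨j, hj⟩

theorem exists_of_FF {N : ℕ} {γ b : Fin N → ℕ} (h : FF γ b ≠ 0) :
    ∃ σ : Equiv.Perm (Fin N), b = γ ∘ σ := by
  unfold FF at h
  obtain ⟨σ, _, hσ⟩ := Finset.exists_ne_zero_of_sum_ne_zero h
  refine ⟨σ, ?_⟩
  by_contra h'
  exact hσ (if_neg h')

theorem fin_FF (N : ℕ) (γ : Fin N → ℕ) : (Function.support (FF γ)).Finite := by
  refine (Set.finite_range (fun σ : Equiv.Perm (Fin N) => γ ∘ σ)).subset ?_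
  intro b hb
  obtain ⟨σ, hσ⟩ := exists_of_FF hb
  exact ⟨σ, hσ.symm⟩

theorem sum_upd {N : ℕ} (b : Fin N → ℕ) (j : Fin N) (r : ℕ) :
    ∑ k, Function.update b j (b j + r) k = ∑ k, b k + r := by
  rw [← Finset.add_sum_erase _ _ (Finset.mem_univ j),
    ← Finset.add_sum_erase Finset.univ b (Finset.mem_univ j)]
  have h1 : ∑ x ∈ Finset.univ.erase j, Function.update b j (b j + r) x =
      ∑ x ∈ Finset.univ.erase j, b x :=
    Finset.sum_congr rfl fun x hx => Function.update_of_ne (Finset.ne_of_mem_erase hx) _ _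
  rw [h1, Function.update_self]
  omega

theorem sum_AA (N r m : ℕ) (f : (Fin N → ℕ) → ℤ) (hf : ∀ b, f b ≠ 0 → ∑ j, b j = m + r)
    (b : Fin N → ℕ) (hb : AA r f b ≠ 0) : ∑ j, b j = m := by
  unfold AA at hb
  obtain ⟨j, _, hj⟩ := Finset.exists_ne_zero_of_sum_ne_zero hb
  have := hf _ hj
  rw [sum_upd] at this
  omega

theorem sum_FF (N : ℕ) (γ b : Fin N → ℕ) (h : FF γ b ≠ 0) : ∑ j, b j = ∑ j, γ j := by
  obtain ⟨σ, rfl⟩ := exists_of_FF h
  exact Equiv.sum_comp σ γ

theorem self (N : ℕ) (γ : Fin N → ℕ) (h : Function.Injective γ) : FF γ γ = 1 := by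
  unfold FF
  rw [Finset.sum_eq_single (1 : Equiv.Perm (Fin N))]
  · simp
  · intro σ _ hσ
    refine if_neg fun h' => hσ ?_
    ext x
    have := congrFun h' x
    simp only [Function.comp_apply] at this
    rw [← h this]
    simp
  · simp

theorem perm (N : ℕ) (γ : Fin N → ℕ) (τ : Equiv.Perm (Fin N)) : FF (γ ∘ τ) =
    fun b => ((Equiv.Perm.sign τ : ℤˣ) : ℤ) * FF γ b := by
  funext b
  unfold FF
  rw [Finset.mul_sum]
  symm
  rw [← Equiv.sum_comp (Equiv.mulLeft τ)]
  refine Finset.sum_congr rfl fun σ _ => ?_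
  have h1 : (b = γ ∘ (Equiv.mulLeft τ) σ) ↔ b = (γ ∘ τ) ∘ σ := by
    constructor
    · intro h
      rw [h]
      funext x
      simp
    · intro h
      rw [h]
      funext x
      simp
  by_cases h : b = (γ ∘ τ) ∘ σ
  · rw [if_pos h, if_pos (h1.2 h)]
    have h2 : ((Equiv.Perm.sign τ : ℤˣ) : ℤ) * ((Equiv.Perm.sign τ : ℤˣ) : ℤ) = 1 := by
      rw [← Units.val_mul, Int.units_mul_self, Units.val_one]
    simp only [Equiv.coe_mulLeft, Equiv.Perm.sign_mul, Units.val_mul]
    rw [← mul_assoc, h2, one_mul]
  · rw [if_neg h, if_neg (fun h' => h (h1.1 h'))]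
    simp

theorem zero (N : ℕ) (γ : Fin N → ℕ) (h : ¬ Function.Injective γ) : FF γ = 0 := by
  simp only [Function.Injective, not_forall] at h
  obtain ⟨i, j, hγ, hij⟩ := h
  have h1 : γ ∘ (Equiv.swap i j) = γ := by
    funext x
    simp only [Function.comp_apply]
    by_cases hx : x = i
    · subst hx
      simp [hγ]
    · by_cases hx' : x = j
      · subst hx'
        simp [hγ]
      · rw [Equiv.swap_apply_of_ne_of_ne hx hx']
  have h2 := perm N γ (Equiv.swap i j)
  rw [h1, Equiv.Perm.sign_swap hij] at h2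
  funext b
  have h3 := congrFun h2 b
  simp only [Units.val_neg, Units.val_one, neg_mul, one_mul] at h3
  simp only [Pi.zero_apply]
  omega

theorem AA_FF (N t : ℕ) (γ : Fin N → ℕ) : AA t (FF γ) =
    fun b => ∑ i, if t ≤ γ i then FF (Function.update γ i (γ i - t)) b else 0 := by
  funext b
  unfold AA FF
  have h0 : (∑ i, if t ≤ γ i then (∑ σ : Equiv.Perm (Fin N),
      if b = Function.update γ i (γ i - t) ∘ σ then ((Equiv.Perm.sign σ : ℤˣ) : ℤ) else 0) else 0)
      = ∑ i, ∑ σ : Equiv.Perm (Fin N), if t ≤ γ i ∧ b = Function.update γ i (γ i - t) ∘ σ then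
        ((Equiv.Perm.sign σ : ℤˣ) : ℤ) else 0 := by
    refine Finset.sum_congr rfl fun i _ => ?_
    by_cases h : t ≤ γ i
    · simp [h]
    · simp [h]
  rw [h0, Finset.sum_comm, Finset.sum_comm (s := (Finset.univ : Finset (Fin N)))]
  refine Finset.sum_congr rfl fun σ _ => ?_
  rw [← Equiv.sum_comp σ (fun i => if t ≤ γ i ∧ b = Function.update γ i (γ i - t) ∘ σ then
        ((Equiv.Perm.sign σ : ℤˣ) : ℤ) else 0)]
  refine Finset.sum_congr rfl fun j _ => ?_
  have key : (Function.update b j (b j + t) = γ ∘ σ) ↔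
      (t ≤ γ (σ j) ∧ b = Function.update γ (σ j) (γ (σ j) - t) ∘ σ) := by
    constructor
    · intro h
      have hj := congrFun h j
      simp only [Function.update_self, Function.comp_apply] at hj
      refine ⟨by omega, ?_⟩
      funext x
      by_cases hx : x = j
      · subst hx
        simp only [Function.comp_apply, Function.update_self]
        omega
      · have hx' : σ x ≠ σ j := fun h' => hx (σ.injective h')
        have := congrFun h x
        rw [Function.update_of_ne hx] at this
        simp only [Function.comp_apply] at this ⊢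
        rw [Function.update_of_ne hx', this]
    · rintro ⟨h1, h2⟩
      have hj := congrFun h2 j
      simp only [Function.update_self, Function.comp_apply] at hj
      funext x
      by_cases hx : x = j
      · subst hx
        simp only [Function.comp_apply, Function.update_self]
        omega
      · have hx' : σ x ≠ σ j := fun h' => hx (σ.injective h')
        have := congrFun h2 x
        rw [Function.update_of_ne hx]
        simp only [Function.comp_apply] at this ⊢
        rw [Function.update_of_ne hx'] at this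
        exact this
  by_cases h : Function.update b j (b j + t) = γ ∘ σ
  · rw [if_pos h, if_pos (key.1 h)]
  · rw [if_neg h, if_neg (fun h' => h (key.2 h'))]

end FArow

/-- row FA -/
theorem row_FA : FA_stmt where
  comm := FArow.comm
  alt_AA := FArow.alt_AA
  alt_FF := FArow.alt_FF
  fin_AA := FArow.fin_AA
  fin_FF := FArow.fin_FF
  sum_AA := FArow.sum_AA
  sum_FF := FArow.sum_FF
  self := FArow.self
  perm := FArow.perm
  zero := FArow.zero
  AA_FF := FArow.AA_FF

end ZT68
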