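/-
MP_1882ea_al, helper68.  Row FN: consequences for diagrams.
-/
import Mathlib
import Pool.Agent.Lib.ZT68.Chi
import Pool.Agent.Lib.ZT68.BD2

namespace ZT68

open Finset Function

section
variable {N : ℕ}

theorem FN_append (rs rs' : List ℕ) : ∀ f : (Fin N → ℕ) → ℤ, AAs (rs ++ rs') f = AAs rs' (AAs rs f) := by
  induction rs with
  | nil => intro f; rfl
  | cons r rs ih => intro f; exact ih (AA r f)

theorem FN_perm (hA : FA_stmt) {rs rs' : List ℕ} (h : rs.Perm rs') :
    ∀ f : (Fin N → ℕ) → ℤ, AAs rs f = AAs rs' f := by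
  induction h with
  | nil => intro f; rfl
  | cons r _ ih => intro f; exact ih (AA r f)
  | swap r s l =>
    intro f
    show AAs l (AA r (AA s f)) = AAs l (AA s (AA r f))
    rw [hA.comm]
  | trans _ _ ih1 ih2 => intro f; rw [ih1, ih2]

theorem FN_alt (hA : FA_stmt) (rs : List ℕ) : ∀ f : (Fin N → ℕ) → ℤ, Alt f → Alt (AAs rs f) := by
  induction rs with
  | nil => intro f hf; exact hf
  | cons r rs ih => intro f hf; exact ih (AA r f) (hA.alt_AA N r f hf)

theorem FN_fin (hA : FA_stmt) (rs : List ℕ) : ∀ f : (Fin N → ℕ) → ℤ, (support f).Finite →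
    (support (AAs rs f)).Finite := by
  induction rs with
  | nil => intro f hf; exact hf
  | cons r rs ih => intro f hf; exact ih (AA r f) (hA.fin_AA N r f hf)

theorem FN_sum (hA : FA_stmt) (rs : List ℕ) : ∀ (f : (Fin N → ℕ) → ℤ) (m : ℕ),
    (∀ b, f b ≠ 0 → ∑ j, b j = m + rs.sum) → ∀ b, AAs rs f b ≠ 0 → ∑ j, b j = m := by
  induction rs with
  | nil => intro f m hf b hb; simpa using hf b hb
  | cons r rs ih =>
    intro f m hf b hb
    refine ih (AA r f) m ?_ b hb
    refine hA.sum_AA N r (m + rs.sum) f ?_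
    intro b' hb'
    rw [hf b' hb', List.sum_cons]
    ring

theorem FN_zero (rs : List ℕ) : AAs rs (0 : (Fin N → ℕ) → ℤ) = 0 := by
  induction rs with
  | nil => rfl
  | cons r rs ih =>
    show AAs rs (AA r 0) = 0
    have : AA r (0 : (Fin N → ℕ) → ℤ) = 0 := by
      funext b
      simp [AA]
    rw [this, ih]

end

theorem FN_col (Y : YoungDiagram) : Y.colLen 0 ≤ Y.card := by
  rw [YoungDiagram.colLen_eq_card]
  apply Finset.card_le_card
  intro c hc
  rw [YoungDiagram.mem_col_iff] at hc
  exact hc.1

theorem FN_row_zero (Y : YoungDiagram) (N : ℕ) (h : Y.colLen 0 ≤ N) : ∀ i ≥ N, Y.rowLen i = 0 := by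
  intro i hi
  by_contra hne
  have h1 : (i, 0) ∈ Y := YoungDiagram.mem_iff_lt_rowLen.2 (by omega)
  have h2 := YoungDiagram.mem_iff_lt_colLen.1 h1
  omega

theorem FN_beta_inj (N : ℕ) (Y : YoungDiagram) : Injective (beta N Y) := by
  have key : ∀ i j : Fin N, i < j → beta N Y j < beta N Y i := by
    intro i j hij
    unfold beta
    have h1 := Y.rowLen_anti i j (by exact_mod_cast hij.le)
    have h2 : (i : ℕ) < j := hij
    have h3 := j.2
    omega
  intro i j hij
  rcases lt_trichotomy i j with h | h | h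
  · have := key i j h; omega
  · exact h
  · have := key j i h; omega

theorem FN_beta_sum (N : ℕ) (Y : YoungDiagram) (h : Y.colLen 0 ≤ N) :
    ∑ j, beta N Y j = Y.card + ∑ i : Fin N, (i : ℕ) := by
  rw [BD2_card Y (FN_row_zero Y N h)]
  unfold beta
  rw [Finset.sum_add_distrib]
  congr 1
  · rw [Fin.sum_univ_eq_sum_range (fun i => Y.rowLen i) N]
  · rw [Fin.sum_univ_eq_sum_range (fun i => N - 1 - i) N, Fin.sum_univ_eq_sum_range (fun i => i) N]
    exact Finset.sum_range_reflect (fun i => i) N

/-- a core has no rim hook of that length: all characters containing the part vanish -/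
theorem FN_two (h1 : BD1_stmt) (hA : FA_stmt) (hD : DI_stmt) (n k : ℕ) (Y : YoungDiagram)
    (μ : n.Partition) (hk : 1 ≤ k) (t : ℕ) (ht : t ∈ μ.parts) (hc : IsCore t Y) : Loc k Y μ := by
  have ht1 : 1 ≤ t := μ.parts_pos ht
  refine ⟨{t}, by simpa using ht, by simpa using hk, ?_⟩
  intro μ' hμ'
  have ht' : t ∈ μ'.parts := by simpa using hμ'
  unfold chi
  have hpos : ∀ s ∈ μ'.parts.sort (· ≥ ·), 1 ≤ s := by
    intro s hs
    rw [Multiset.mem_sort] at hs
    exact μ'.parts_pos hs
  rw [hD.chi (Y.colLen 0) Y _ le_rfl hpos]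
  have hperm : (μ'.parts.sort (· ≥ ·)).Perm (t :: (μ'.parts.erase t).toList) := by
    rw [← Multiset.coe_eq_coe, Multiset.sort_eq, ← Multiset.cons_coe, Multiset.coe_toList,
      Multiset.cons_erase ht']
  rw [FN_perm hA hperm]
  have h0 : AA t (FF (beta (Y.colLen 0) Y)) = 0 := by
    rw [hD.step _ Y t le_rfl ht1]
    funext b
    have : Y.cells.filter (fun c => hookLen Y c.1 c.2 = t) = ∅ := by
      rw [← Finset.card_eq_zero]
      exact (h1.core Y t ht1).1 hc
    rw [this]
    simp
  show AAs _ (AA t _) _ = 0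
  rw [h0, FN_zero]
  rfl

/-- row FN -/
theorem row_FN (h1 : BD1_stmt) (hA : FA_stmt) (hD : DI_stmt) (hE : EI_stmt) (hL : LE_stmt) :
    FN_stmt := by
  constructor
  · intro n k Y μ hY hloc
    by_contra hcon
    push Not at hcon
    obtain ⟨M, hMle, hMk, hM⟩ := hloc
    set N := Y.colLen 0 with hN
    set rs := M.sort (· ≥ ·) with hrs
    have hrsM : (rs : Multiset ℕ) = M := Multiset.sort_eq _ _
    have hpos : ∀ r ∈ rs, 1 ≤ r := by
      intro r hr
      have : r ∈ M := by rw [← hrsM]; simpa using hr
      exact μ.parts_pos (Multiset.mem_of_le hMle this)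
    have hsorted : rs.Pairwise (· ≥ ·) := Multiset.pairwise_sort _ _
    have hv : AAs rs (FF (beta N Y)) ≠ 0 := by
      apply hL N (beta N Y) rs (FN_beta_inj N Y) hpos
      intro p r q he
      have hrrs : r ∈ rs := by rw [he]; simp
      have hrM : r ∈ M := by rw [← hrsM]; simpa using hrrs
      have hrμ : r ∈ μ.parts := Multiset.mem_of_le hMle hrM
      have h2 := hcon r hrμ
      have h3 : p.length + 1 ≤ WW r μ := by
        unfold WW
        have h4 : ((p ++ [r] : List ℕ) : Multiset ℕ) ≤ μ.parts.filter (fun s => r ≤ s) := by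
          rw [Multiset.le_filter]
          constructor
          · refine le_trans ?_ hMle
            rw [← hrsM, he]
            have : (p ++ r :: q : List ℕ) = (p ++ [r]) ++ q := by simp
            rw [this, ← Multiset.coe_add (p ++ [r]) q]
            exact Multiset.le_add_right _ _
          · intro s hs
            rw [Multiset.mem_coe, List.mem_append, List.mem_singleton] at hs
            rcases hs with hs | rfl
            · rw [he, List.pairwise_append] at hsorted
              exact hsorted.2.2 s hs r (by simp)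
            · exact le_rfl
        have h5 := Multiset.card_le_card h4
        simpa using h5
      have h4 : p.length + 1 ≤ k := by
        have h5 : M.card = rs.length := by rw [← hrsM]; simp
        rw [he] at h5
        simp at h5
        omega
      rw [hD.hh N Y r le_rfl (hpos r hrrs)]
      omega
    obtain ⟨M', hM'⟩ := Multiset.le_iff_exists_add.1 hMle
    have hsum : M.sum + M'.sum = n := by
      rw [← Multiset.sum_add, ← hM', μ.parts_sum]
    have hrsum : rs.sum = M.sum := by rw [← hrsM]; simp
    have hβ : ∀ b, FF (beta N Y) b ≠ 0 → ∑ j, b j = (M'.sum + ∑ i : Fin N, (i : ℕ)) + rs.sum := by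
      intro b hb
      rw [hA.sum_FF N _ b hb, FN_beta_sum N Y le_rfl, hY, hrsum]
      omega
    obtain ⟨ρ, hρ1, hρ2, hρ3⟩ := hE.full N M'.sum (AAs rs (FF (beta N Y)))
      (FN_alt hA rs _ (hA.alt_FF N _)) (FN_fin hA rs _ (hA.fin_FF N _))
      (FN_sum hA rs _ _ hβ) hv
    let μ' : n.Partition :=
      { parts := M + (ρ : Multiset ℕ)
        parts_pos := by
          intro i hi
          rcases Multiset.mem_add.1 hi with h | h
          · exact μ.parts_pos (Multiset.mem_of_le hMle h)
          · exact hρ1 i (by simpa using h)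
        parts_sum := by
          rw [Multiset.sum_add, Multiset.sum_coe, hρ2, hsum] }
    have h0 := hM μ' (Multiset.le_add_right _ _)
    unfold chi at h0
    rw [hD.chi N Y _ le_rfl (by
      intro s hs
      rw [Multiset.mem_sort] at hs
      exact μ'.parts_pos hs)] at h0
    have hperm : (μ'.parts.sort (· ≥ ·)).Perm (rs ++ ρ) := by
      rw [← Multiset.coe_eq_coe, Multiset.sort_eq, ← Multiset.coe_add, hrsM]
    rw [FN_perm hA hperm, FN_append] at h0
    exact hρ3 h0
  · intro n k Y μ hY hk hT
    obtain ⟨t, ht, _, hc⟩ := hT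
    exact FN_two h1 hA hD n k Y μ hk t ht hc

end ZT68
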