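import Pool.Agent.Lib.ZT68.Defs

/-!
MP_1882ea_al, row FQ (helper2): marked hooks.
-/

set_option autoImplicit false

namespace ZT68

open Finset

/-- move all beads of `A` down by `t` -/
def FQ_dn (t : ℕ) (S : Set ℤ) (A : Finset ℤ) : Set ℤ := (S \ A) ∪ {z | z + (t : ℤ) ∈ A}

/-- move all beads of `B` up by `t` -/
def FQ_up (t : ℕ) (S : Set ℤ) (B : Finset ℤ) : Set ℤ := (S \ B) ∪ {z | z - (t : ℤ) ∈ B}

theorem FQ_exists_dn (h2 : BD2_stmt) {t : ℕ} (ht : 1 ≤ t) (A : Finset ℤ) :
    ∀ Y : YoungDiagram, (∀ x ∈ A, x ∈ Hk (SS Y) t) →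
      ∃ Y' : YoungDiagram, SS Y' = FQ_dn t (SS Y) A ∧ Y'.card + t * A.card = Y.card := by
  classical
  induction A using Finset.induction_on with
  | empty =>
    intro Y _
    refine ⟨Y, ?_, by simp⟩
    ext z
    simp [FQ_dn]
  | insert x A hx ih =>
    intro Y hA
    have hxH := hA x (by simp)
    obtain ⟨Y1, e1, c1, -⟩ := h2 Y t x ht hxH
    have hA1 : ∀ a ∈ A, a ∈ Hk (SS Y1) t := by
      intro a ha
      have haH := hA a (by simp [ha])
      have hax : a ≠ x := fun h => hx (h ▸ ha)
      rw [e1]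
      refine ⟨?_, ?_⟩
      · simp only [mv, Set.mem_insert_iff, Set.mem_sdiff, Set.mem_singleton_iff]
        exact Or.inr ⟨haH.1, hax⟩
      · simp only [mv, Set.mem_insert_iff, Set.mem_sdiff, Set.mem_singleton_iff, not_or, not_and]
        exact ⟨fun h => hax (by linarith), fun h => absurd h haH.2⟩
    obtain ⟨Y2, e2, c2⟩ := ih Y1 hA1
    refine ⟨Y2, ?_, ?_⟩
    · rw [e2, e1]
      ext z
      simp only [FQ_dn, mv, Set.mem_union, Set.mem_sdiff, Set.mem_insert_iff, Set.mem_singleton_iff,
        Set.mem_ofPred_eq, Finset.coe_insert, Finset.mem_coe, Finset.mem_insert]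
      constructor
      · rintro (⟨h | ⟨h, h'⟩, h3⟩ | h)
        · exact Or.inr (Or.inl (by linarith))
        · exact Or.inl ⟨h, fun h4 => h4.elim h' h3⟩
        · exact Or.inr (Or.inr h)
      · rintro (⟨h, h3⟩ | h | h)
        · push Not at h3
          exact Or.inl ⟨Or.inr ⟨h, h3.1⟩, h3.2⟩
        · refine Or.inl ⟨Or.inl (by linarith), ?_⟩
          intro hz
          have h5 := (hA z (by simp [hz])).1
          have h6 := hxH.2
          have h7 : z = x - (t : ℤ) := by linarith
          rw [h7] at h5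
          exact h6 h5
        · exact Or.inr h
    · rw [Finset.card_insert_of_notMem hx]
      have : t * (A.card + 1) = t * A.card + t := by ring
      omega

theorem FQ_exists_up (h3 : BD3_stmt) {t : ℕ} (ht : 1 ≤ t) (B : Finset ℤ) :
    ∀ Y : YoungDiagram, (∀ x ∈ B, x ∈ Up (SS Y) t) →
      ∃ Y' : YoungDiagram, SS Y' = FQ_up t (SS Y) B ∧ Y'.card = Y.card + t * B.card := by
  classical
  induction B using Finset.induction_on with
  | empty =>
    intro Y _
    refine ⟨Y, ?_, by simp⟩
    ext z
    simp [FQ_up]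
  | insert x B hx ih =>
    intro Y hB
    have hxH := hB x (by simp)
    obtain ⟨Y1, e1, c1⟩ := h3 Y t x ht hxH.1 hxH.2
    have hB1 : ∀ a ∈ B, a ∈ Up (SS Y1) t := by
      intro a ha
      have haH := hB a (by simp [ha])
      have hax : a ≠ x := fun h => hx (h ▸ ha)
      rw [e1]
      refine ⟨?_, ?_⟩
      · simp only [Set.mem_insert_iff, Set.mem_sdiff, Set.mem_singleton_iff]
        exact Or.inr ⟨haH.1, hax⟩
      · simp only [Set.mem_insert_iff, Set.mem_sdiff, Set.mem_singleton_iff, not_or, not_and]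
        exact ⟨fun h => hax (by linarith), fun h => absurd h haH.2⟩
    obtain ⟨Y2, e2, c2⟩ := ih Y1 hB1
    refine ⟨Y2, ?_, ?_⟩
    · rw [e2, e1]
      ext z
      simp only [FQ_up, Set.mem_union, Set.mem_sdiff, Set.mem_insert_iff, Set.mem_singleton_iff,
        Set.mem_ofPred_eq, Finset.coe_insert, Finset.mem_coe, Finset.mem_insert]
      constructor
      · rintro (⟨h | ⟨h, h'⟩, h3⟩ | h)
        · exact Or.inr (Or.inl (by linarith))
        · exact Or.inl ⟨h, fun h4 => h4.elim h' h3⟩
        · exact Or.inr (Or.inr h)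
      · rintro (⟨h, h3⟩ | h | h)
        · push Not at h3
          exact Or.inl ⟨Or.inr ⟨h, h3.1⟩, h3.2⟩
        · refine Or.inl ⟨Or.inl (by linarith), ?_⟩
          intro hz
          have h5 := (hB z (by simp [hz])).1
          have h6 := hxH.2
          have h7 : z = x + (t : ℤ) := by linarith
          rw [h7] at h5
          exact h6 h5
        · exact Or.inr h
    · rw [Finset.card_insert_of_notMem hx]
      have : t * (B.card + 1) = t * B.card + t := by ring
      omega

theorem row_FQ (h1 : BD1_stmt) (h2 : BD2_stmt) (h3 : BD3_stmt) (h4 : BD4_stmt) : FQ_stmt := by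
  classical
  refine ⟨?_, ?_⟩
  · intro m q t ht
    let HF : YoungDiagram → Finset ℤ := fun Y => (h1.hk Y t ht).1.toFinset
    let UF : YoungDiagram → Finset ℤ := fun Y => (h4 Y t ht).1.toFinset
    have mHF : ∀ Y x, x ∈ HF Y ↔ x ∈ Hk (SS Y) t := fun Y x => by simp [HF]
    have mUF : ∀ Y x, x ∈ UF Y ↔ x ∈ Up (SS Y) t := fun Y x => by simp [UF]
    have cHF : ∀ Y, (HF Y).card = hn t Y := fun Y => by
      rw [← (h1.hk Y t ht).2, Set.ncard_eq_toFinset_card _ (h1.hk Y t ht).1]
    have cUF : ∀ Y, (UF Y).card = t + hn t Y := fun Y => by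
      rw [← (h1.hk Y t ht).2, ← (h4 Y t ht).2, Set.ncard_eq_toFinset_card _ (h4 Y t ht).1]
    have e1 : ∑ Y ∈ DD (m + q * t), (hn t Y).choose q =
        ((DD (m + q * t)).sigma (fun Y => powersetCard q (HF Y))).card := by
      rw [Finset.card_sigma]
      exact Finset.sum_congr rfl fun Y _ => by rw [Finset.card_powersetCard, cHF]
    have e2 : ∑ Y ∈ DD m, (t + hn t Y).choose q =
        ((DD m).sigma (fun Y => powersetCard q (UF Y))).card := by
      rw [Finset.card_sigma]
      exact Finset.sum_congr rfl fun Y _ => by rw [Finset.card_powersetCard, cUF]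
    rw [e1, e2]
    let dn : YoungDiagram → Finset ℤ → YoungDiagram := fun Y A =>
      if h : ∃ Y' : YoungDiagram, SS Y' = FQ_dn t (SS Y) A then h.choose else Y
    let up : YoungDiagram → Finset ℤ → YoungDiagram := fun Y A =>
      if h : ∃ Y' : YoungDiagram, SS Y' = FQ_up t (SS Y) A then h.choose else Y
    have hdn : ∀ Y A, (∀ x ∈ A, x ∈ Hk (SS Y) t) →
        SS (dn Y A) = FQ_dn t (SS Y) A ∧ (dn Y A).card + t * A.card = Y.card := by
      intro Y A hA
      obtain ⟨Y', e, c⟩ := FQ_exists_dn h2 ht A Y hA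
      have hex : ∃ Y' : YoungDiagram, SS Y' = FQ_dn t (SS Y) A := ⟨Y', e⟩
      have e' : dn Y A = Y' := by
        have : dn Y A = hex.choose := dif_pos hex
        rw [this]
        exact h1.inj (hex.choose_spec.trans e.symm)
      rw [e']
      exact ⟨e, c⟩
    have hup : ∀ Y A, (∀ x ∈ A, x ∈ Up (SS Y) t) →
        SS (up Y A) = FQ_up t (SS Y) A ∧ (up Y A).card = Y.card + t * A.card := by
      intro Y A hA
      obtain ⟨Y', e, c⟩ := FQ_exists_up h3 ht A Y hA
      have hex : ∃ Y' : YoungDiagram, SS Y' = FQ_up t (SS Y) A := ⟨Y', e⟩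
      have e' : up Y A = Y' := by
        have : up Y A = hex.choose := dif_pos hex
        rw [this]
        exact h1.inj (hex.choose_spec.trans e.symm)
      rw [e']
      exact ⟨e, c⟩
    -- the shifts
    let sd : Finset ℤ → Finset ℤ := fun A => A.image (fun z => z - (t : ℤ))
    let su : Finset ℤ → Finset ℤ := fun A => A.image (fun z => z + (t : ℤ))
    have msd : ∀ A z, z ∈ sd A ↔ z + (t : ℤ) ∈ A := by
      intro A z
      simp only [sd, Finset.mem_image]
      constructor
      · rintro ⟨a, ha, rfl⟩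
        simpa using ha
      · intro h
        exact ⟨_, h, by ring⟩
    have msu : ∀ A z, z ∈ su A ↔ z - (t : ℤ) ∈ A := by
      intro A z
      simp only [su, Finset.mem_image]
      constructor
      · rintro ⟨a, ha, rfl⟩
        simpa using ha
      · intro h
        exact ⟨_, h, by ring⟩
    have csd : ∀ A, (sd A).card = A.card := fun A =>
      Finset.card_image_of_injective _ (fun a b h => by simpa using h)
    have csu : ∀ A, (su A).card = A.card := fun A =>
      Finset.card_image_of_injective _ (fun a b h => by simpa using h)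
    have sdsu : ∀ A, sd (su A) = A := fun A => by ext z; simp [msd, msu]
    have susd : ∀ A, su (sd A) = A := fun A => by ext z; simp [msd, msu]
    have key1 : ∀ Y A, (∀ x ∈ A, x ∈ Hk (SS Y) t) → ∀ x ∈ sd A, x ∈ Up (SS (dn Y A)) t := by
      intro Y A hA x hx
      rw [msd] at hx
      rw [(hdn Y A hA).1]
      refine ⟨Or.inr hx, ?_⟩
      rintro (⟨_, h⟩ | h)
      · exact h hx
      · have h5 := (hA _ h).2
        have h6 := (hA _ hx).1
        exact h5 (by simpa using h6)
    have key2 : ∀ Y A, (∀ x ∈ A, x ∈ Up (SS Y) t) → ∀ x ∈ su A, x ∈ Hk (SS (up Y A)) t := by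
      intro Y A hA x hx
      rw [msu] at hx
      rw [(hup Y A hA).1]
      refine ⟨Or.inr hx, ?_⟩
      rintro (⟨_, h⟩ | h)
      · exact h hx
      · have h5 := (hA _ h).2
        have h6 := (hA _ hx).1
        exact h5 (by simpa using h6)
    have inv1 : ∀ Y A, (∀ x ∈ A, x ∈ Hk (SS Y) t) → up (dn Y A) (sd A) = Y := by
      intro Y A hA
      apply h1.inj
      rw [(hup _ _ (key1 Y A hA)).1, (hdn Y A hA).1]
      ext z
      simp only [FQ_up, FQ_dn, Set.mem_union, Set.mem_sdiff, Finset.mem_coe, Set.mem_ofPred_eq,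
        msd]
      constructor
      · rintro (⟨⟨h, _⟩ | h, h'⟩ | h)
        · exact h
        · exact absurd h h'
        · have := (hA _ h).1
          simpa using this
      · intro h
        by_cases hz : z ∈ A
        · right
          simpa using hz
        · left
          exact ⟨Or.inl ⟨h, hz⟩, fun h' => (hA _ h').2 (by simpa using h)⟩
    have inv2 : ∀ Y A, (∀ x ∈ A, x ∈ Up (SS Y) t) → dn (up Y A) (su A) = Y := by
      intro Y A hA
      apply h1.inj
      rw [(hdn _ _ (key2 Y A hA)).1, (hup Y A hA).1]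
      ext z
      simp only [FQ_up, FQ_dn, Set.mem_union, Set.mem_sdiff, Finset.mem_coe, Set.mem_ofPred_eq,
        msu]
      constructor
      · rintro (⟨⟨h, _⟩ | h, h'⟩ | h)
        · exact h
        · exact absurd h h'
        · have := (hA _ h).1
          simpa using this
      · intro h
        by_cases hz : z ∈ A
        · right
          simpa using hz
        · left
          exact ⟨Or.inl ⟨h, hz⟩, fun h' => (hA _ h').2 (by simpa using h)⟩
    refine Finset.card_nbij' (fun P => ⟨dn P.1 P.2, sd P.2⟩) (fun P => ⟨up P.1 P.2, su P.2⟩)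
      ?_ ?_ ?_ ?_
    · rintro ⟨Y, A⟩ h
      simp only [Finset.coe_sigma, Set.mem_sigma_iff, Finset.mem_coe, Finset.mem_powersetCard,
        mem_DD] at h ⊢
      obtain ⟨hY, hA, hc⟩ := h
      have hA' : ∀ x ∈ A, x ∈ Hk (SS Y) t := fun x hx => (mHF Y x).1 (hA hx)
      refine ⟨?_, fun x hx => (mUF _ x).2 (key1 Y A hA' x hx), by rw [csd, hc]⟩
      have := (hdn Y A hA').2
      rw [hc, hY] at this
      have h9 : q * t = t * q := mul_comm _ _
      omega
    · rintro ⟨Y, A⟩ h
      simp only [Finset.coe_sigma, Set.mem_sigma_iff, Finset.mem_coe, Finset.mem_powersetCard,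
        mem_DD] at h ⊢
      obtain ⟨hY, hA, hc⟩ := h
      have hA' : ∀ x ∈ A, x ∈ Up (SS Y) t := fun x hx => (mUF Y x).1 (hA hx)
      refine ⟨?_, fun x hx => (mHF _ x).2 (key2 Y A hA' x hx), by rw [csu, hc]⟩
      have := (hup Y A hA').2
      rw [hc, hY] at this
      have h9 : q * t = t * q := mul_comm _ _
      omega
    · rintro ⟨Y, A⟩ h
      simp only [Finset.coe_sigma, Set.mem_sigma_iff, Finset.mem_coe, Finset.mem_powersetCard,
        mem_DD] at h
      obtain ⟨hY, hA, hc⟩ := h
      have hA' : ∀ x ∈ A, x ∈ Hk (SS Y) t := fun x hx => (mHF Y x).1 (hA hx)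
      simp only [inv1 Y A hA', susd]
    · rintro ⟨Y, A⟩ h
      simp only [Finset.coe_sigma, Set.mem_sigma_iff, Finset.mem_coe, Finset.mem_powersetCard,
        mem_DD] at h
      obtain ⟨hY, hA, hc⟩ := h
      have hA' : ∀ x ∈ A, x ∈ Up (SS Y) t := fun x hx => (mUF Y x).1 (hA hx)
      simp only [inv2 Y A hA', sdsu]
  · intro t Y ht
    have hf := (h1.hk Y t ht).1
    obtain ⟨Y', _, c⟩ := FQ_exists_dn h2 ht hf.toFinset Y (fun x hx => by simpa using hx)
    have hc : hf.toFinset.card = hn t Y := by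
      rw [← (h1.hk Y t ht).2, Set.ncard_eq_toFinset_card _ hf]
    rw [hc] at c
    omega

end ZT68
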