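import Pool.Agent.Lib.ZT68.Defs

/-!
MP_1882ea_al, row HN (helper2): generating function of the number of hooks of length `t`.
-/

set_option autoImplicit false

namespace ZT68

open Finset

theorem HN_coeff_succ (t : ℕ) (z : ℝ) (j K : ℕ) (h : j ≤ K) :
    (∏ k ∈ range (K + 1), (1 + Polynomial.C z * Polynomial.X ^ (k + 1)) ^ t :
      Polynomial ℝ).coeff j =
    (∏ k ∈ range K, (1 + Polynomial.C z * Polynomial.X ^ (k + 1)) ^ t :
      Polynomial ℝ).coeff j := by
  rw [Finset.prod_range_succ]
  obtain ⟨R, hR⟩ : ∃ R : Polynomial ℝ,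
      (1 + Polynomial.C z * Polynomial.X ^ (K + 1)) ^ t = 1 + Polynomial.X ^ (K + 1) * R := by
    have h1 := sub_dvd_pow_sub_pow (1 + Polynomial.C z * Polynomial.X ^ (K + 1) : Polynomial ℝ) 1 t
    obtain ⟨R, hR⟩ := h1
    refine ⟨Polynomial.C z * R, ?_⟩
    rw [one_pow, sub_eq_iff_eq_add] at hR
    rw [hR]
    ring
  rw [hR, mul_add, mul_one, Polynomial.coeff_add]
  have e : ∀ P : Polynomial ℝ, P * (Polynomial.X ^ (K + 1) * R) =
      Polynomial.X ^ (K + 1) * (P * R) := fun P => by ring
  rw [e, Polynomial.coeff_X_pow_mul', if_neg (by omega), add_zero]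

theorem HN_hc_eq (t : ℕ) (z : ℝ) (j K : ℕ) (h : j ≤ K) : hc t z j =
    (∏ k ∈ range K, (1 + Polynomial.C z * Polynomial.X ^ (k + 1)) ^ t :
      Polynomial ℝ).coeff j := by
  induction K, h using Nat.le_induction with
  | base => rfl
  | succ K hK ih => rw [ih, HN_coeff_succ t z j K hK]

/-- the product, as a polynomial in `z` over polynomials in `X` -/
noncomputable def HN_F (t K : ℕ) : Polynomial (Polynomial ℝ) :=
  ∏ k ∈ range K, (1 + Polynomial.C (Polynomial.X ^ (k + 1)) * Polynomial.X) ^ t

/-- the coefficient of `z ^ q` -/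
noncomputable def HN_e (t K q : ℕ) : Polynomial ℝ := (HN_F t K).coeff q

theorem HN_F_succ (t K : ℕ) : HN_F t (K + 1) =
    ((1 + Polynomial.X) ^ t * HN_F t K).comp (Polynomial.C Polynomial.X * Polynomial.X) := by
  have h1 : ((1 + Polynomial.X : Polynomial (Polynomial ℝ)) ^ t).comp
      (Polynomial.C Polynomial.X * Polynomial.X) =
      (1 + Polynomial.C (Polynomial.X ^ (0 + 1)) * Polynomial.X) ^ t := by
    rw [Polynomial.pow_comp, Polynomial.add_comp, Polynomial.one_comp, Polynomial.X_comp, zero_add,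
      pow_one]
  have h2 : ∀ k : ℕ, ((1 + Polynomial.C (Polynomial.X ^ (k + 1)) * Polynomial.X :
      Polynomial (Polynomial ℝ)) ^ t).comp (Polynomial.C Polynomial.X * Polynomial.X) =
      (1 + Polynomial.C (Polynomial.X ^ (k + 1 + 1)) * Polynomial.X) ^ t := by
    intro k
    rw [Polynomial.pow_comp, Polynomial.add_comp, Polynomial.one_comp, Polynomial.mul_comp,
      Polynomial.C_comp, Polynomial.X_comp, ← mul_assoc, ← Polynomial.C_mul, ← pow_succ]
  rw [Polynomial.mul_comp, h1]
  unfold HN_F
  rw [Finset.prod_range_succ', Polynomial.prod_comp, mul_comm,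
    Finset.prod_congr rfl fun k _ => h2 k]

theorem HN_e_succ (t K q : ℕ) : HN_e t (K + 1) q =
    (∑ ij ∈ antidiagonal q, (t.choose ij.1 : Polynomial ℝ) * HN_e t K ij.2) *
      Polynomial.X ^ q := by
  unfold HN_e
  rw [HN_F_succ, Polynomial.comp_C_mul_X_coeff, Polynomial.coeff_mul,
    Finset.sum_congr rfl fun ij _ => ?_]
  rw [Polynomial.coeff_one_add_X_pow]

theorem HN_e_zero_left (t q : ℕ) : HN_e t 0 q = if q = 0 then 1 else 0 := by
  unfold HN_e HN_F
  rw [Finset.range_zero, Finset.prod_empty, Polynomial.coeff_one]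

theorem HN_e_zero_right (t K : ℕ) : HN_e t K 0 = 1 := by
  induction K with
  | zero => rw [HN_e_zero_left, if_pos rfl]
  | succ K ih =>
    rw [HN_e_succ]
    simp [ih]

theorem HN_e_small (t K q j : ℕ) (h : j < q) : (HN_e t K q).coeff j = 0 := by
  cases K with
  | zero => rw [HN_e_zero_left, if_neg (by omega), Polynomial.coeff_zero]
  | succ K => rw [HN_e_succ, Polynomial.coeff_mul_X_pow', if_neg (by omega)]

theorem HN_e_rec (t K q j : ℕ) : (HN_e t (K + 1) q).coeff (j + q) =
    ∑ ij ∈ antidiagonal q, (t.choose ij.1 : ℝ) * (HN_e t K ij.2).coeff j := by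
  rw [HN_e_succ, Polynomial.coeff_mul_X_pow, Polynomial.finsetSum_coeff]
  refine Finset.sum_congr rfl fun ij _ => ?_
  rw [← Polynomial.C_eq_natCast, Polynomial.coeff_C_mul]

theorem HN_claim (h0 : DDc_stmt) (hF : FQ_stmt) (t : ℕ) (ht : 1 ≤ t) (n : ℕ) :
    ∀ (K q : ℕ), n / t ≤ K → (∑ Y ∈ DD n, ((hn t Y).choose q : ℝ)) =
      ∑ j ∈ range (n / t + 1), (pp (n - t * j) : ℝ) * (HN_e t K q).coeff j := by
  induction n using Nat.strong_induction_on with
  | _ n ih =>
    intro K q hK
    rcases Nat.eq_zero_or_pos q with rfl | hq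
    · rw [HN_e_zero_right]
      simp only [Nat.choose_zero_right, Nat.cast_one, Finset.sum_const, nsmul_eq_mul, mul_one]
      rw [h0 n, Finset.sum_eq_single 0]
      · simp
      · intro j _ hj
        rw [Polynomial.coeff_one, if_neg hj, mul_zero]
      · intro h
        exact absurd (Finset.mem_range.2 (Nat.succ_pos _)) h
    · by_cases hn' : n < q * t
      · have hnt : n / t < q := Nat.div_lt_of_lt_mul (by rwa [mul_comm] at hn')
        rw [Finset.sum_eq_zero, Finset.sum_eq_zero]
        · intro j hj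
          rw [HN_e_small t K q j (by rw [Finset.mem_range] at hj; omega), mul_zero]
        · intro Y hY
          have h1 := hF.small t Y ht
          rw [mem_DD.1 hY] at h1
          have h2 : hn t Y < q := by
            by_contra hc
            push Not at hc
            have : t * q ≤ t * hn t Y := Nat.mul_le_mul_left t hc
            have e : q * t = t * q := mul_comm _ _
            omega
          rw [Nat.choose_eq_zero_of_lt h2, Nat.cast_zero]
      · push Not at hn'
        obtain ⟨m, rfl⟩ : ∃ m, n = m + q * t := ⟨n - q * t, by omega⟩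
        have hqt : 0 < q * t := Nat.mul_pos hq ht
        have hdiv : (m + q * t) / t = m / t + q := Nat.add_mul_div_right _ _ ht
        have h5 : 1 ≤ (m + q * t) / t := by
          rw [hdiv]
          exact le_trans hq (Nat.le_add_left _ _)
        obtain ⟨K', rfl⟩ : ∃ K', K = K' + 1 := ⟨K - 1, by omega⟩
        have e1 : (∑ Y ∈ DD (m + q * t), ((hn t Y).choose q : ℝ)) =
            ∑ ij ∈ antidiagonal q, (t.choose ij.1 : ℝ) *
              ∑ Y ∈ DD m, ((hn t Y).choose ij.2 : ℝ) := by
          have := hF.fq m q t ht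
          have h' : (∑ Y ∈ DD (m + q * t), ((hn t Y).choose q : ℝ)) =
              ∑ Y ∈ DD m, ((t + hn t Y).choose q : ℝ) := by exact_mod_cast this
          rw [h']
          simp only [Finset.mul_sum]
          rw [Finset.sum_comm]
          refine Finset.sum_congr rfl fun Y _ => ?_
          rw [Nat.add_choose_eq]
          push_cast
          rfl
        rw [e1, hdiv]
        have e2 : ∀ ij ∈ antidiagonal q, (t.choose ij.1 : ℝ) *
              ∑ Y ∈ DD m, ((hn t Y).choose ij.2 : ℝ) =
            ∑ j ∈ range (m / t + 1), (pp (m - t * j) : ℝ) *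
              ((t.choose ij.1 : ℝ) * (HN_e t K' ij.2).coeff j) := by
          intro ij _
          rw [ih m (by omega) K' ij.2 (by omega), Finset.mul_sum]
          exact Finset.sum_congr rfl fun j _ => by ring
        rw [Finset.sum_congr rfl e2, Finset.sum_comm]
        have e3 : m / t + q + 1 = q + (m / t + 1) := by ring
        rw [e3, Finset.sum_range_add _ q (m / t + 1), Finset.sum_eq_zero (s := range q), zero_add]
        · refine Finset.sum_congr rfl fun j _ => ?_
          rw [← Finset.mul_sum, ← HN_e_rec, add_comm q j]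
          have : m + q * t - t * (j + q) = m - t * j := by
            have : t * (j + q) = t * j + q * t := by ring
            omega
          rw [this]
        · intro j hj
          rw [HN_e_small t _ q j (Finset.mem_range.1 hj), mul_zero]

theorem HN_eval (t K : ℕ) (z : ℝ) (j Q : ℕ) (hQ : (HN_F t K).natDegree < Q) :
    (∏ k ∈ range K, (1 + Polynomial.C z * Polynomial.X ^ (k + 1)) ^ t : Polynomial ℝ).coeff j =
      ∑ q ∈ range Q, z ^ q * (HN_e t K q).coeff j := by
  have h1 : (∏ k ∈ range K, (1 + Polynomial.C z * Polynomial.X ^ (k + 1)) ^ t : Polynomial ℝ) =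
      (HN_F t K).eval (Polynomial.C z) := by
    unfold HN_F
    rw [Polynomial.eval_prod]
    refine Finset.prod_congr rfl fun k _ => ?_
    simp only [Polynomial.eval_pow, Polynomial.eval_add, Polynomial.eval_one, Polynomial.eval_mul,
      Polynomial.eval_C, Polynomial.eval_X]
    rw [mul_comm]
  rw [h1, Polynomial.eval_eq_sum_range' hQ, Polynomial.finsetSum_coeff]
  refine Finset.sum_congr rfl fun q _ => ?_
  rw [← Polynomial.C_pow, Polynomial.coeff_mul_C, mul_comm]
  rfl

theorem row_HN (h0 : DDc_stmt) (hF : FQ_stmt) : HN_stmt := by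
  refine ⟨HN_hc_eq, ?_⟩
  intro n t z ht
  obtain ⟨Q, hQ1, hQ2⟩ : ∃ Q : ℕ, (HN_F t (n / t)).natDegree < Q ∧ n < Q :=
    ⟨(HN_F t (n / t)).natDegree + n + 1, by omega, by omega⟩
  have e1 : ∀ Y ∈ DD n, (1 + z) ^ hn t Y = ∑ q ∈ range Q, z ^ q * ((hn t Y).choose q : ℝ) := by
    intro Y hY
    have hle : hn t Y ≤ n := by
      have h1 := hF.small t Y ht
      rw [mem_DD.1 hY] at h1
      have : 1 * hn t Y ≤ t * hn t Y := Nat.mul_le_mul_right _ ht
      omega
    rw [add_comm, add_pow]
    simp only [one_pow, mul_one]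
    refine Finset.sum_subset (Finset.range_subset_range.2 (by omega)) ?_
    intro q _ hq
    rw [Nat.choose_eq_zero_of_lt (by
      rw [Finset.mem_range] at hq
      omega), Nat.cast_zero, mul_zero]
  rw [Finset.sum_congr rfl e1, Finset.sum_comm]
  have e2 : ∀ q ∈ range Q, ∑ Y ∈ DD n, z ^ q * ((hn t Y).choose q : ℝ) =
      ∑ j ∈ range (n / t + 1), (pp (n - t * j) : ℝ) * (z ^ q * (HN_e t (n / t) q).coeff j) := by
    intro q _
    rw [← Finset.mul_sum, HN_claim h0 hF t ht n (n / t) q le_rfl, Finset.mul_sum]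
    exact Finset.sum_congr rfl fun j _ => by ring
  rw [Finset.sum_congr rfl e2, Finset.sum_comm]
  refine Finset.sum_congr rfl fun j hj => ?_
  rw [← Finset.mul_sum, ← HN_eval t (n / t) z j Q hQ1,
    ← HN_hc_eq t z j (n / t) (by rw [Finset.mem_range] at hj; omega)]

end ZT68
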