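/-
MP_1882ea_al, helper49.  Row LB, part a: joint moments of the numbers of hooks of two lengths.
-/
import Mathlib
import Pool.Agent.Lib.ZT68.Defs

namespace ZT68

open Finset

/-- the finite set of hooks of length `t` -/
noncomputable def LB_H (h1 : BD1_stmt) (Y : YoungDiagram) {t : ℕ} (ht : 1 ≤ t) : Finset ℤ :=
  (h1.hk Y t ht).1.toFinset

theorem LB_mem_H (h1 : BD1_stmt) (Y : YoungDiagram) {t : ℕ} (ht : 1 ≤ t) {x : ℤ} :
    x ∈ LB_H h1 Y ht ↔ x ∈ Hk (SS Y) t := by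
  simp [LB_H]

theorem LB_card_H (h1 : BD1_stmt) (Y : YoungDiagram) {t : ℕ} (ht : 1 ≤ t) :
    (LB_H h1 Y ht).card = hn t Y := by
  rw [← (h1.hk Y t ht).2, LB_H, Set.ncard_eq_toFinset_card _ (h1.hk Y t ht).1]

/-- the finite set of the beads that can move up by `t` -/
noncomputable def LB_U (h4 : BD4_stmt) (Y : YoungDiagram) {t : ℕ} (ht : 1 ≤ t) : Finset ℤ :=
  (h4 Y t ht).1.toFinset

theorem LB_mem_U (h4 : BD4_stmt) (Y : YoungDiagram) {t : ℕ} (ht : 1 ≤ t) {x : ℤ} :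
    x ∈ LB_U h4 Y ht ↔ x ∈ Up (SS Y) t := by
  simp [LB_U]

theorem LB_card_U (h1 : BD1_stmt) (h4 : BD4_stmt) (Y : YoungDiagram) {t : ℕ} (ht : 1 ≤ t) :
    (LB_U h4 Y ht).card = t + hn t Y := by
  have h := (h4 Y t ht).2
  rw [(h1.hk Y t ht).2] at h
  rw [← h, LB_U, Set.ncard_eq_toFinset_card _ (h4 Y t ht).1]

/-- triples: a diagram with a hook of length `r` and a hook of length `t` -/
noncomputable def LB_T (h1 : BD1_stmt) (n : ℕ) {r t : ℕ} (hr : 1 ≤ r) (ht : 1 ≤ t) :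
    Finset (Σ _ : YoungDiagram, ℤ × ℤ) :=
  (DD n).sigma fun Y => LB_H h1 Y hr ×ˢ LB_H h1 Y ht

theorem LB_card_T (h1 : BD1_stmt) (n : ℕ) {r t : ℕ} (hr : 1 ≤ r) (ht : 1 ≤ t) :
    (LB_T h1 n hr ht).card = ∑ Y ∈ DD n, hn r Y * hn t Y := by
  rw [LB_T, Finset.card_sigma]
  refine Finset.sum_congr rfl fun Y _ => ?_
  rw [Finset.card_product, LB_card_H, LB_card_H]

theorem LB_caseA (h1 : BD1_stmt) (h2 : BD2_stmt) (h4 : BD4_stmt) (m : ℕ) {r t : ℕ} (hr : 1 ≤ r)
    (ht : 1 ≤ t) :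
    ((LB_T h1 (m + r + t) hr ht).filter (fun P => P.2.1 ≠ P.2.2 ∧
      P.2.1 - (r : ℤ) ≠ P.2.2 - (t : ℤ))).card ≤
      ∑ Y ∈ DD m, (r + hn r Y) * (t + hn t Y) := by
  have e : ∑ Y ∈ DD m, (r + hn r Y) * (t + hn t Y) =
      ((DD m).sigma fun Y => LB_U h4 Y hr ×ˢ LB_U h4 Y ht).card := by
    rw [Finset.card_sigma]
    refine Finset.sum_congr rfl fun Y _ => ?_
    rw [Finset.card_product, LB_card_U h1, LB_card_U h1]
  rw [e]
  refine Finset.card_le_card_of_forall_subsingleton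
    (fun P Q => SS Q.1 = mv (mv (SS P.1) P.2.1 r) P.2.2 t ∧ Q.2.1 = P.2.1 - (r : ℤ) ∧
      Q.2.2 = P.2.2 - (t : ℤ)) ?_ ?_
  · rintro ⟨Y, x, y⟩ hP
    simp only [Finset.mem_filter, LB_T, Finset.mem_sigma, Finset.mem_product, LB_mem_H, mem_DD] at hP
    obtain ⟨⟨hY, hx, hy⟩, hxy, hxy2⟩ := hP
    obtain ⟨Y', hS', hc', -⟩ := h2 Y r x hr hx
    have hy' : y ∈ Hk (SS Y') t := by
      rw [hS']
      refine ⟨?_, ?_⟩
      · simp only [mv, Set.mem_insert_iff, Set.mem_sdiff, Set.mem_singleton_iff]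
        exact Or.inr ⟨hy.1, fun h => hxy h.symm⟩
      · simp only [mv, Set.mem_insert_iff, Set.mem_sdiff, Set.mem_singleton_iff, not_or, not_and]
        exact ⟨fun h => hxy2 h.symm, fun h => absurd h hy.2⟩
    obtain ⟨Y'', hS'', hc'', -⟩ := h2 Y' t y ht hy'
    have hxS := hx.1
    have hxr := hx.2
    have hyS := hy.1
    have hyt := hy.2
    have hx_yt : x ≠ y - (t : ℤ) := fun h => hyt (h ▸ hxS)
    have hxr_y : x - (r : ℤ) ≠ y := fun h => hxr (h ▸ hyS)
    refine ⟨⟨Y'', x - (r : ℤ), y - (t : ℤ)⟩, ?_, ?_, rfl, rfl⟩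
    · simp only [Finset.mem_sigma, Finset.mem_product, LB_mem_U, mem_DD]
      refine ⟨by omega, ⟨?_, ?_⟩, ⟨?_, ?_⟩⟩
      · rw [hS'', hS']
        simp only [mv, Set.mem_insert_iff, Set.mem_sdiff, Set.mem_singleton_iff]
        exact Or.inr ⟨Or.inl trivial, hxr_y⟩
      · rw [hS'', hS']
        simp only [mv, Set.mem_insert_iff, Set.mem_sdiff, Set.mem_singleton_iff, sub_add_cancel,
          not_or, not_and, not_not]
        refine ⟨hx_yt, fun h => ?_⟩
        rcases h with h | h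
        · exfalso; omega
        · exact absurd trivial h.2
      · rw [hS'']
        simp only [mv, Set.mem_insert_iff, Set.mem_sdiff, Set.mem_singleton_iff]
        exact Or.inl trivial
      · rw [hS'']
        simp only [mv, Set.mem_insert_iff, Set.mem_sdiff, Set.mem_singleton_iff, sub_add_cancel,
          not_or, not_and, not_not]
        exact ⟨by omega, fun _ => trivial⟩
    · simp only
      rw [hS'', hS']
  · rintro ⟨Y'', a, b⟩ _ ⟨Y, x, y⟩ hP ⟨Z, x', y'⟩ hQ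
    simp only [Set.mem_ofPred_eq, Finset.mem_filter, LB_T, Finset.mem_sigma, Finset.mem_product,
      LB_mem_H, mem_DD] at hP hQ
    obtain ⟨⟨⟨hY, hx, hy⟩, hxy, hxy2⟩, hS, ha, hb⟩ := hP
    obtain ⟨⟨⟨hZ, hx', hy'⟩, hxy', hxy2'⟩, hS', ha', hb'⟩ := hQ
    have hxx : x = x' := by omega
    have hyy : y = y' := by omega
    subst hxx hyy
    have hYZ : SS Y = SS Z := by
      have h3 : mv (mv (SS Y) x r) y t = mv (mv (SS Z) x r) y t := by rw [← hS, ← hS']
      ext z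
      have h4 := Set.ext_iff.1 h3 z
      simp only [mv, Set.mem_insert_iff, Set.mem_sdiff, Set.mem_singleton_iff] at h4
      have hxS := hx.1
      have hxr := hx.2
      have hyS := hy.1
      have hyt := hy.2
      have hxS' := hx'.1
      have hxr' := hx'.2
      have hyS' := hy'.1
      have hyt' := hy'.2
      by_cases e1 : z = x
      · rw [e1]; exact ⟨fun _ => hxS', fun _ => hxS⟩
      by_cases e2 : z = y
      · rw [e2]; exact ⟨fun _ => hyS', fun _ => hyS⟩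
      by_cases e3 : z = x - r
      · rw [e3]; exact ⟨fun h => absurd h hxr, fun h => absurd h hxr'⟩
      by_cases e4 : z = y - t
      · rw [e4]; exact ⟨fun h => absurd h hyt, fun h => absurd h hyt'⟩
      simp only [e1, e2, e3, e4, false_or, not_false_eq_true, and_true] at h4
      exact h4
    have := h1.inj hYZ
    subst this
    rfl

theorem LB_caseB (h1 : BD1_stmt) (h2 : BD2_stmt) (h4 : BD4_stmt) (m : ℕ) {r t : ℕ} (hr : 1 ≤ r)
    (ht : 1 ≤ t) (htr : t < r) :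
    ((LB_T h1 (m + r) hr ht).filter (fun P => P.2.1 = P.2.2)).card ≤
      ∑ Y ∈ DD m, ((r - t) + hn (r - t) Y) := by
  have hd : 1 ≤ r - t := by omega
  have hdc : ((r - t : ℕ) : ℤ) = (r : ℤ) - t := by omega
  have e : ∑ Y ∈ DD m, ((r - t) + hn (r - t) Y) = ((DD m).sigma fun Y => LB_U h4 Y hd).card := by
    rw [Finset.card_sigma]
    refine Finset.sum_congr rfl fun Y _ => ?_
    rw [LB_card_U h1]
  rw [e]
  refine Finset.card_le_card_of_forall_subsingleton
    (fun P Q => SS Q.1 = mv (SS P.1) P.2.1 r ∧ Q.2 = P.2.1 - (r : ℤ)) ?_ ?_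
  · rintro ⟨Y, x, y⟩ hP
    simp only [Finset.mem_filter, LB_T, Finset.mem_sigma, Finset.mem_product, LB_mem_H, mem_DD] at hP
    obtain ⟨⟨hY, hx, hy⟩, hxy⟩ := hP
    subst hxy
    obtain ⟨Y', hS', hc', -⟩ := h2 Y r x hr hx
    refine ⟨⟨Y', x - (r : ℤ)⟩, ?_, hS', rfl⟩
    simp only [Finset.mem_sigma, LB_mem_U, mem_DD]
    refine ⟨by omega, ?_, ?_⟩
    · rw [hS']
      simp only [mv, Set.mem_insert_iff, Set.mem_sdiff, Set.mem_singleton_iff]
      exact Or.inl trivial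
    · rw [hS', hdc]
      have e2 : x - (r : ℤ) + ((r : ℤ) - t) = x - t := by ring
      rw [e2]
      simp only [mv, Set.mem_insert_iff, Set.mem_sdiff, Set.mem_singleton_iff, not_or, not_and]
      exact ⟨by omega, fun h => absurd h hy.2⟩
  · rintro ⟨Y', a⟩ _ ⟨Y, x, y⟩ hP ⟨Z, x', y'⟩ hQ
    simp only [Set.mem_ofPred_eq, Finset.mem_filter, LB_T, Finset.mem_sigma, Finset.mem_product,
      LB_mem_H, mem_DD] at hP hQ
    obtain ⟨⟨⟨hY, hx, hy⟩, hxy⟩, hS, ha⟩ := hP
    obtain ⟨⟨⟨hZ, hx', hy'⟩, hxy'⟩, hS', ha'⟩ := hQ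
    subst hxy hxy'
    have hxx : x = x' := by omega
    subst hxx
    have hYZ : SS Y = SS Z := by
      have h3 : mv (SS Y) x r = mv (SS Z) x r := by rw [← hS, ← hS']
      ext z
      have h4 := Set.ext_iff.1 h3 z
      simp only [mv, Set.mem_insert_iff, Set.mem_sdiff, Set.mem_singleton_iff] at h4
      by_cases e1 : z = x
      · rw [e1]; exact ⟨fun _ => hx'.1, fun _ => hx.1⟩
      by_cases e3 : z = x - r
      · rw [e3]; exact ⟨fun h => absurd h hx.2, fun h => absurd h hx'.2⟩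
      simp only [e1, e3, false_or, not_false_eq_true, and_true] at h4
      exact h4
    have := h1.inj hYZ
    subst this
    rfl

theorem LB_caseC (h1 : BD1_stmt) (h2 : BD2_stmt) (h4 : BD4_stmt) (m : ℕ) {r t : ℕ} (hr : 1 ≤ r)
    (ht : 1 ≤ t) (htr : t < r) :
    ((LB_T h1 (m + r) hr ht).filter (fun P => P.2.1 - (r : ℤ) = P.2.2 - (t : ℤ))).card ≤
      ∑ Y ∈ DD m, ((r - t) + hn (r - t) Y) := by
  have hd : 1 ≤ r - t := by omega
  have hdc : ((r - t : ℕ) : ℤ) = (r : ℤ) - t := by omega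
  have e : ∑ Y ∈ DD m, ((r - t) + hn (r - t) Y) = ((DD m).sigma fun Y => LB_U h4 Y hd).card := by
    rw [Finset.card_sigma]
    refine Finset.sum_congr rfl fun Y _ => ?_
    rw [LB_card_U h1]
  rw [e]
  refine Finset.card_le_card_of_forall_subsingleton
    (fun P Q => SS Q.1 = mv (SS P.1) P.2.1 r ∧ Q.2 = P.2.2) ?_ ?_
  · rintro ⟨Y, x, y⟩ hP
    simp only [Finset.mem_filter, LB_T, Finset.mem_sigma, Finset.mem_product, LB_mem_H, mem_DD] at hP
    obtain ⟨⟨hY, hx, hy⟩, hxy⟩ := hP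
    obtain ⟨Y', hS', hc', -⟩ := h2 Y r x hr hx
    refine ⟨⟨Y', y⟩, ?_, hS', rfl⟩
    simp only [Finset.mem_sigma, LB_mem_U, mem_DD]
    refine ⟨by omega, ?_, ?_⟩
    · rw [hS']
      simp only [mv, Set.mem_insert_iff, Set.mem_sdiff, Set.mem_singleton_iff]
      exact Or.inr ⟨hy.1, by omega⟩
    · rw [hS', hdc]
      have e2 : y + ((r : ℤ) - t) = x := by omega
      rw [e2]
      simp only [mv, Set.mem_insert_iff, Set.mem_sdiff, Set.mem_singleton_iff, not_or, not_and,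
        not_not]
      exact ⟨by omega, fun _ => trivial⟩
  · rintro ⟨Y', a⟩ _ ⟨Y, x, y⟩ hP ⟨Z, x', y'⟩ hQ
    simp only [Set.mem_ofPred_eq, Finset.mem_filter, LB_T, Finset.mem_sigma, Finset.mem_product,
      LB_mem_H, mem_DD] at hP hQ
    obtain ⟨⟨⟨hY, hx, hy⟩, hxy⟩, hS, ha⟩ := hP
    obtain ⟨⟨⟨hZ, hx', hy'⟩, hxy'⟩, hS', ha'⟩ := hQ
    have hyy : y = y' := by omega
    subst hyy
    have hxx : x = x' := by omega
    subst hxx
    have hYZ : SS Y = SS Z := by
      have h3 : mv (SS Y) x r = mv (SS Z) x r := by rw [← hS, ← hS']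
      ext z
      have h4 := Set.ext_iff.1 h3 z
      simp only [mv, Set.mem_insert_iff, Set.mem_sdiff, Set.mem_singleton_iff] at h4
      by_cases e1 : z = x
      · rw [e1]; exact ⟨fun _ => hx'.1, fun _ => hx.1⟩
      by_cases e3 : z = x - r
      · rw [e3]; exact ⟨fun h => absurd h hx.2, fun h => absurd h hx'.2⟩
      simp only [e1, e3, false_or, not_false_eq_true, and_true] at h4
      exact h4
    have := h1.inj hYZ
    subst this
    rfl

/-- no hook of length `t` in a diagram with less than `t` cells -/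
theorem LB_zero (hF : FQ_stmt) {t : ℕ} (ht : 1 ≤ t) {Y : YoungDiagram} (h : Y.card < t) :
    hn t Y = 0 := by
  have := hF.small t Y ht
  by_contra hc
  have h1 : 1 ≤ hn t Y := by omega
  nlinarith

/-- joint moment, first form -/
theorem LB_joint (h1 : BD1_stmt) (h2 : BD2_stmt) (h4 : BD4_stmt) (hF : FQ_stmt) (n : ℕ) {r t : ℕ}
    (hr : 1 ≤ r) (ht : 1 ≤ t) (htr : t < r) :
    ∑ Y ∈ DD n, hn r Y * hn t Y ≤
      (if r + t ≤ n then ∑ Y ∈ DD (n - (r + t)), (r + hn r Y) * (t + hn t Y) else 0) +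
      2 * (if r ≤ n then ∑ Y ∈ DD (n - r), ((r - t) + hn (r - t) Y) else 0) := by
  classical
  rcases lt_or_ge n r with hnr | hnr
  · have : ∑ Y ∈ DD n, hn r Y * hn t Y = 0 := by
      refine Finset.sum_eq_zero fun Y hY => ?_
      rw [mem_DD] at hY
      rw [LB_zero hF hr (by omega), zero_mul]
    rw [this]
    exact Nat.zero_le _
  · rw [if_pos hnr, ← LB_card_T h1 n hr ht]
    have hsplit : (LB_T h1 n hr ht).card ≤
        ((LB_T h1 n hr ht).filter (fun P => P.2.1 ≠ P.2.2 ∧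
          P.2.1 - (r : ℤ) ≠ P.2.2 - (t : ℤ))).card +
        (((LB_T h1 n hr ht).filter (fun P => P.2.1 = P.2.2)).card +
        ((LB_T h1 n hr ht).filter (fun P => P.2.1 - (r : ℤ) = P.2.2 - (t : ℤ))).card) := by
      refine le_trans (Finset.card_le_card (t := _ ∪ (_ ∪ _)) ?_)
        ((Finset.card_union_le _ _).trans (Nat.add_le_add_left (Finset.card_union_le _ _) _))
      intro P hP
      simp only [Finset.mem_union, Finset.mem_filter]
      by_cases e1 : P.2.1 = P.2.2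
      · exact Or.inr (Or.inl ⟨hP, e1⟩)
      · by_cases e2 : P.2.1 - (r : ℤ) = P.2.2 - (t : ℤ)
        · exact Or.inr (Or.inr ⟨hP, e2⟩)
        · exact Or.inl ⟨hP, e1, e2⟩
    refine hsplit.trans ?_
    obtain ⟨m, rfl⟩ : ∃ m, n = m + r := ⟨n - r, by omega⟩
    have hB := LB_caseB h1 h2 h4 m hr ht htr
    have hC := LB_caseC h1 h2 h4 m hr ht htr
    rw [Nat.add_sub_cancel]
    have hA : ((LB_T h1 (m + r) hr ht).filter (fun P => P.2.1 ≠ P.2.2 ∧
          P.2.1 - (r : ℤ) ≠ P.2.2 - (t : ℤ))).card ≤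
        (if r + t ≤ m + r then ∑ Y ∈ DD (m + r - (r + t)), (r + hn r Y) * (t + hn t Y) else 0) := by
      split_ifs with hc
      · obtain ⟨m', rfl⟩ : ∃ m', m = m' + t := ⟨m - t, by omega⟩
        have e1 : m' + t + r = m' + r + t := by omega
        have e2 : m' + t + r - (r + t) = m' := by omega
        rw [e2, e1]
        exact LB_caseA h1 h2 h4 m' hr ht
      · rw [Nat.le_zero, Finset.card_eq_zero, Finset.filter_eq_empty_iff]
        rintro ⟨Y, x, y⟩ hP ⟨hxy, hxy2⟩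
        simp only [LB_T, Finset.mem_sigma, Finset.mem_product, LB_mem_H, mem_DD] at hP
        obtain ⟨hY, hx, hy⟩ := hP
        obtain ⟨Y', hS', hc', -⟩ := h2 Y r x hr hx
        have hy' : y ∈ Hk (SS Y') t := by
          rw [hS']
          refine ⟨?_, ?_⟩
          · simp only [mv, Set.mem_insert_iff, Set.mem_sdiff, Set.mem_singleton_iff]
            exact Or.inr ⟨hy.1, fun h => hxy h.symm⟩
          · simp only [mv, Set.mem_insert_iff, Set.mem_sdiff, Set.mem_singleton_iff, not_or, not_and]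
            exact ⟨fun h => hxy2 h.symm, fun h => absurd h hy.2⟩
        obtain ⟨Y'', hS'', hc'', -⟩ := h2 Y' t y ht hy'
        omega
    omega

end ZT68
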