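/-
MP_1882ea_al, helper49.  Row MU: large parts of a random partition.
-/
import Mathlib
import Pool.Agent.Lib.ZT68.Defs

namespace ZT68

open Finset Filter

theorem MU_pp_pos (n : ℕ) : (0 : ℝ) < (pp n : ℝ) := by
  have : 0 < pp n := Fintype.card_pos
  exact_mod_cast this

open Classical in
/-- the partitions containing `M` -/
theorem MU_count (n : ℕ) (M : Multiset ℕ) :
    (univ.filter (fun μ : n.Partition => M ≤ μ.parts)).card ≤ pp (n - M.sum) := by
  unfold pp
  rw [← Finset.card_univ]
  refine Finset.card_le_card_of_injOn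
    (fun μ : n.Partition => if h : M ≤ μ.parts then
      (⟨μ.parts - M, fun {i} hi => μ.parts_pos (Multiset.mem_of_le (Multiset.sub_le_self _ _) hi), by
        have h1 : (μ.parts - M) + M = μ.parts := tsub_add_cancel_of_le h
        have h2 := congrArg Multiset.sum h1
        rw [Multiset.sum_add, μ.parts_sum] at h2
        omega⟩ : (n - M.sum).Partition) else default) ?_ ?_
  · intro μ _
    exact Finset.mem_coe.2 (Finset.mem_univ _)
  · intro μ hμ ν hν h
    simp only [Finset.coe_filter, Finset.mem_univ, true_and, Set.mem_ofPred_eq] at hμ hν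
    simp only [dif_pos hμ, dif_pos hν] at h
    have h1 := congrArg Nat.Partition.parts h
    simp only at h1
    apply Nat.Partition.ext
    have h2 : (μ.parts - M) + M = μ.parts := tsub_add_cancel_of_le hμ
    have h3 : (ν.parts - M) + M = ν.parts := tsub_add_cancel_of_le hν
    rw [← h2, ← h3, h1]

open Classical in
theorem MU_count2 (n : ℕ) (M : Multiset ℕ) (η' : ℝ)
    (hr : ∀ s ≤ n, (pp (n - s) : ℝ) ≤ Real.exp (-(s * η')) * pp n) :
    ((univ.filter (fun μ : n.Partition => M ≤ μ.parts)).card : ℝ) ≤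
      Real.exp (-((M.sum : ℝ) * η')) * pp n := by
  rcases le_or_gt M.sum n with h | h
  · refine le_trans ?_ (hr M.sum h)
    exact_mod_cast MU_count n M
  · have : univ.filter (fun μ : n.Partition => M ≤ μ.parts) = ∅ := by
      rw [Finset.filter_eq_empty_iff]
      intro μ _ hM
      have h1 : (μ.parts - M) + M = μ.parts := tsub_add_cancel_of_le hM
      have h2 := congrArg Multiset.sum h1
      rw [Multiset.sum_add, μ.parts_sum] at h2
      omega
    rw [this]
    simp only [Finset.card_empty, Nat.cast_zero]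
    have := MU_pp_pos n
    positivity

/-- the multiset with multiplicities `f` -/
def MU_M (r n : ℕ) (f : {s // s ∈ Icc r n} → ℕ) : Multiset ℕ := ∑ s, f s • {s.1}

theorem MU_M_sum (r n : ℕ) (f : {s // s ∈ Icc r n} → ℕ) : (MU_M r n f).sum = ∑ s, f s * s.1 := by
  unfold MU_M
  rw [Multiset.sum_sum]
  refine Finset.sum_congr rfl fun x _ => ?_
  rw [Multiset.sum_nsmul, Multiset.sum_singleton, smul_eq_mul]

theorem MU_M_card (r n : ℕ) (f : {s // s ∈ Icc r n} → ℕ) : (MU_M r n f).card = ∑ s, f s := by
  unfold MU_M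
  rw [Multiset.card_sum]
  refine Finset.sum_congr rfl fun x _ => ?_
  rw [Multiset.card_nsmul, Multiset.card_singleton, mul_one]

theorem MU_M_count (r n : ℕ) (f : {s // s ∈ Icc r n} → ℕ) (a : ℕ) :
    (MU_M r n f).count a = if h : a ∈ Icc r n then f ⟨a, h⟩ else 0 := by
  unfold MU_M
  rw [Multiset.count_sum']
  simp only [Multiset.count_nsmul, Multiset.count_singleton]
  split_ifs with h
  · rw [Finset.sum_eq_single (⟨a, h⟩ : {s // s ∈ Icc r n})]
    · simp
    · intro b _ hb
      have : a ≠ b.1 := fun hab => hb (Subtype.ext hab.symm)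
      simp [this]
    · simp
  · refine Finset.sum_eq_zero fun b _ => ?_
    have : a ≠ b.1 := fun hab => h (hab ▸ b.2)
    simp [this]

theorem MU_geom {a : ℝ} (h0 : 0 ≤ a) (h1 : a ≤ 1 / 2) (n : ℕ) :
    ∑ v ∈ range n, a ^ v ≤ Real.exp (2 * a) := by
  have h2 : ∑ v ∈ range n, a ^ v ≤ 1 / (1 - a) := by
    rw [le_div_iff₀ (by linarith), geom_sum_mul_neg]
    have : 0 ≤ a ^ n := by positivity
    linarith
  refine h2.trans ?_
  have h3 : 1 / (1 - a) ≤ 1 + 2 * a := by
    rw [div_le_iff₀ (by linarith)]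
    nlinarith
  linarith [Real.add_one_le_exp (2 * a)]

theorem MU_geom2 {η' : ℝ} (h : 0 < η') (r n : ℕ) :
    ∑ s ∈ Icc r n, Real.exp (-(s * η')) ≤ Real.exp (-(r * η')) / (1 - Real.exp (-η')) := by
  have hD : 0 < 1 - Real.exp (-η') := by
    have : Real.exp (-η') < 1 := by
      rw [← Real.exp_zero]; exact Real.exp_lt_exp.2 (by linarith)
    linarith
  rw [le_div_iff₀ hD]
  have key : ∀ m : ℕ, (∑ s ∈ Ico r (r + m), Real.exp (-(s * η'))) * (1 - Real.exp (-η')) =
      Real.exp (-(r * η')) - Real.exp (-(((r + m : ℕ) : ℝ) * η')) := by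
    intro m
    induction m with
    | zero => simp
    | succ m ih =>
      rw [← add_assoc, Finset.sum_Ico_succ_top (by omega), add_mul, ih]
      have : Real.exp (-(((r + m + 1 : ℕ) : ℝ) * η')) =
          Real.exp (-(((r + m : ℕ) : ℝ) * η')) * Real.exp (-η') := by
        rw [← Real.exp_add]; congr 1; push_cast; ring
      rw [this]
      ring
  rcases le_or_gt r n with hrn | hrn
  · have e : Icc r n = Ico r (r + (n + 1 - r)) := by
      ext s; simp only [Finset.mem_Icc, Finset.mem_Ico]; omega
    rw [e, key]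
    linarith [Real.exp_pos (-(((r + (n + 1 - r) : ℕ) : ℝ) * η'))]
  · rw [Finset.Icc_eq_empty (by omega)]
    simp only [Finset.sum_empty, zero_mul]
    exact (Real.exp_pos _).le

open Classical in
theorem MU_bb {n r : ℕ} {c η' : ℝ} (hη : 0 < η') (hc : 1 ≤ c)
    (hr : ∀ s ≤ n, (pp (n - s) : ℝ) ≤ Real.exp (-(s * η')) * pp n)
    (hc2 : c * Real.exp (-(r * η')) ≤ 1 / 2) :
    bb n r c ≤ Real.exp (-(r * η')) *
      (Real.exp (2 * c * (Real.exp (-(r * η')) / (1 - Real.exp (-η')))) - 1) := by
  have hp := MU_pp_pos n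
  unfold bb
  rw [div_le_iff₀ hp]
  set T : Finset ({s // s ∈ Icc r n} → ℕ) := Fintype.piFinset (fun _ => range (n + 1)) with hT
  have h0T : (0 : {s // s ∈ Icc r n} → ℕ) ∈ T := by
    simp [hT]
  -- pointwise
  have hpt : ∀ μ : n.Partition, (if r ∈ μ.parts ∧ 2 ≤ WW r μ then c ^ (WW r μ - 1) else 0) ≤
      ∑ f ∈ T.erase 0, c ^ (∑ s, f s) * (if r ::ₘ MU_M r n f ≤ μ.parts then (1 : ℝ) else 0) := by
    intro μ
    have hnn : ∀ f ∈ T.erase 0, 0 ≤ c ^ (∑ s, f s) *
        (if r ::ₘ MU_M r n f ≤ μ.parts then (1 : ℝ) else 0) := by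
      intro f _
      have : (0 : ℝ) ≤ if r ::ₘ MU_M r n f ≤ μ.parts then (1 : ℝ) else 0 := by
        split_ifs <;> norm_num
      positivity
    split_ifs with h
    · obtain ⟨h1, h2⟩ := h
      set A := μ.parts.filter (fun s => r ≤ s) with hA
      have hrA : r ∈ A := by rw [hA, Multiset.mem_filter]; exact ⟨h1, le_rfl⟩
      have hAle : A ≤ μ.parts := Multiset.filter_le _ _
      set f : {s // s ∈ Icc r n} → ℕ := fun s => (A.erase r).count s.1 with hf
      have hM : MU_M r n f = A.erase r := by
        ext a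
        rw [MU_M_count]
        split_ifs with ha
        · rfl
        · symm
          rw [Multiset.count_eq_zero]
          intro hmem
          have h3 := Multiset.mem_of_mem_erase hmem
          rw [hA, Multiset.mem_filter] at h3
          exact ha (Finset.mem_Icc.2 ⟨h3.2, Nat.Partition.le_of_mem_parts h3.1⟩)
      have hcard : ∑ s, f s = WW r μ - 1 := by
        rw [← MU_M_card, hM, Multiset.card_erase_of_mem hrA]
        rfl
      have hcons : r ::ₘ MU_M r n f ≤ μ.parts := by
        rw [hM, Multiset.cons_erase hrA]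
        exact hAle
      have hfT : f ∈ T.erase 0 := by
        rw [Finset.mem_erase]
        constructor
        · intro hf0
          rw [hf0] at hcard
          simp at hcard
          omega
        · rw [hT, Fintype.mem_piFinset]
          intro s
          rw [Finset.mem_range]
          have h3 : (A.erase r).count s.1 ≤ (A.erase r).card := Multiset.count_le_card _ _
          have h4 : (A.erase r).card ≤ μ.parts.card :=
            Multiset.card_le_card ((Multiset.erase_le _ _).trans hAle)
          have h5 : μ.parts.card ≤ μ.parts.sum := by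
            have := Multiset.card_nsmul_le_sum (s := μ.parts) (a := 1)
              (fun x hx => μ.parts_pos hx)
            simpa using this
          rw [μ.parts_sum] at h5
          simp only [hf]
          omega
      calc c ^ (WW r μ - 1) = c ^ (∑ s, f s) *
            (if r ::ₘ MU_M r n f ≤ μ.parts then (1 : ℝ) else 0) := by
            rw [if_pos hcons, mul_one, hcard]
        _ ≤ _ := Finset.single_le_sum (f := fun f => c ^ (∑ s, f s) *
            (if r ::ₘ MU_M r n f ≤ μ.parts then (1 : ℝ) else 0)) hnn hfT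
    · exact Finset.sum_nonneg hnn
  calc ∑ μ : n.Partition, (if r ∈ μ.parts ∧ 2 ≤ WW r μ then c ^ (WW r μ - 1) else 0) ≤
      ∑ μ : n.Partition, ∑ f ∈ T.erase 0, c ^ (∑ s, f s) *
        (if r ::ₘ MU_M r n f ≤ μ.parts then (1 : ℝ) else 0) := Finset.sum_le_sum fun μ _ => hpt μ
    _ = ∑ f ∈ T.erase 0, c ^ (∑ s, f s) *
        ((univ.filter (fun μ : n.Partition => r ::ₘ MU_M r n f ≤ μ.parts)).card : ℝ) := by
        rw [Finset.sum_comm]
        refine Finset.sum_congr rfl fun f _ => ?_
        rw [← Finset.mul_sum, Finset.sum_boole]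
    _ ≤ ∑ f ∈ T.erase 0, c ^ (∑ s, f s) *
        (Real.exp (-(((r ::ₘ MU_M r n f).sum : ℝ) * η')) * pp n) := by
        refine Finset.sum_le_sum fun f _ => ?_
        refine mul_le_mul_of_nonneg_left (MU_count2 n _ η' hr) (by positivity)
    _ = Real.exp (-(r * η')) * (∑ f ∈ T.erase 0, ∏ s, (c * Real.exp (-((s.1 : ℝ) * η'))) ^ f s) *
          pp n := by
        rw [Finset.mul_sum, Finset.sum_mul]
        refine Finset.sum_congr rfl fun f _ => ?_
        rw [Multiset.sum_cons, MU_M_sum]
        have e1 : Real.exp (-(((r + ∑ s, f s * s.1 : ℕ) : ℝ) * η')) =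
            Real.exp (-(r * η')) * ∏ s, Real.exp (-((s.1 : ℝ) * η')) ^ f s := by
          have : ∏ s, Real.exp (-((s.1 : ℝ) * η')) ^ f s =
              Real.exp (∑ s, (f s : ℝ) * (-((s.1 : ℝ) * η'))) := by
            rw [Real.exp_sum]
            refine Finset.prod_congr rfl fun s _ => ?_
            rw [Real.exp_nat_mul]
          rw [this, ← Real.exp_add]
          congr 1
          push_cast
          rw [add_mul, Finset.sum_mul, neg_add, ← Finset.sum_neg_distrib]
          congr 1
          refine Finset.sum_congr rfl fun s _ => ?_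
          ring
        rw [e1]
        have e2 : ∏ s, (c * Real.exp (-((s.1 : ℝ) * η'))) ^ f s =
            c ^ (∑ s, f s) * ∏ s, Real.exp (-((s.1 : ℝ) * η')) ^ f s := by
          rw [← Finset.prod_pow_eq_pow_sum, ← Finset.prod_mul_distrib]
          refine Finset.prod_congr rfl fun s _ => ?_
          rw [mul_pow]
        rw [e2]
        ring
    _ ≤ _ := by
        gcongr
        have e3 : ∑ f ∈ T.erase 0, ∏ s, (c * Real.exp (-((s.1 : ℝ) * η'))) ^ f s =
            (∏ s : {s // s ∈ Icc r n}, ∑ v ∈ range (n + 1), (c * Real.exp (-((s.1 : ℝ) * η'))) ^ v)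
              - 1 := by
          rw [Finset.prod_univ_sum, ← hT, ← Finset.add_sum_erase T _ h0T]
          simp
        rw [e3]
        have e4 : ∏ s : {s // s ∈ Icc r n}, ∑ v ∈ range (n + 1),
            (c * Real.exp (-((s.1 : ℝ) * η'))) ^ v ≤
            Real.exp (2 * c * (Real.exp (-(r * η')) / (1 - Real.exp (-η')))) := by
          calc _ ≤ ∏ s : {s // s ∈ Icc r n}, Real.exp (2 * (c * Real.exp (-((s.1 : ℝ) * η')))) := by
                refine Finset.prod_le_prod (fun s _ => Finset.sum_nonneg fun v _ => by positivity)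
                  fun s _ => MU_geom (by positivity) ?_ _
                refine le_trans ?_ hc2
                have hs := (Finset.mem_Icc.1 s.2).1
                have hs' : (r : ℝ) ≤ (s.1 : ℝ) := by exact_mod_cast hs
                gcongr
            _ = Real.exp (2 * c * ∑ s ∈ Icc r n, Real.exp (-((s : ℝ) * η'))) := by
                rw [← Real.exp_sum]
                congr 1
                rw [Finset.mul_sum, ← Finset.sum_coe_sort (Icc r n)]
                refine Finset.sum_congr rfl fun s _ => ?_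
                ring
            _ ≤ _ := by
                apply Real.exp_le_exp.2
                have := MU_geom2 hη r n
                gcongr
        linarith

/-- row MU -/
theorem row_MU : MU_stmt := by
  intro η C N0 hP
  have hC := hP.hC
  -- n large
  have hlim : Tendsto (fun n : ℕ => (n : ℝ) ^ ((1 / 4) : ℝ)) atTop atTop :=
    (tendsto_rpow_atTop (by norm_num)).comp tendsto_natCast_atTop_atTop
  obtain ⟨N1, hN1⟩ := eventually_atTop.1
    ((hlim.eventually_gt_atTop (2 * C)).and
      ((eventually_ge_atTop N0).and (eventually_ge_atTop 1)))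
  refine ⟨C, N1, ?_⟩
  have hpos : ∀ n ≥ N1, 0 < η n - C * (n : ℝ) ^ (-(3 / 4) : ℝ) := by
    intro n hn
    obtain ⟨h1, h2, h3⟩ := hN1 n hn
    have hnpos : (0 : ℝ) < n := by exact_mod_cast h3
    have h4 := hP.low n h2
    have hs : 0 < √(n : ℝ) := Real.sqrt_pos.2 hnpos
    have h5 : C * (n : ℝ) ^ (-(3 / 4) : ℝ) < 1 / (2 * √(n : ℝ)) := by
      rw [lt_div_iff₀ (by positivity)]
      have e : (n : ℝ) ^ (-(3 / 4) : ℝ) * √(n : ℝ) * (n : ℝ) ^ ((1 / 4) : ℝ) = 1 := by
        rw [Real.sqrt_eq_rpow, ← Real.rpow_add hnpos, ← Real.rpow_add hnpos]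
        norm_num
      have h6 : 0 < (n : ℝ) ^ (-(3 / 4) : ℝ) * √(n : ℝ) := by positivity
      nlinarith
    linarith
  have hratio : ∀ n ≥ N1, ∀ s ≤ n, (pp (n - s) : ℝ) ≤
      Real.exp (-(s * (η n - C * (n : ℝ) ^ (-(3 / 4) : ℝ)))) * pp n := by
    intro n hn s hs
    obtain ⟨h1, h2, h3⟩ := hN1 n hn
    have h4 := (abs_le.1 (hP.ratio n h2 s hs)).2
    have h5 : (1 : ℝ) + C * s * (n : ℝ) ^ (-(3 / 4) : ℝ) ≤
        Real.exp (C * s * (n : ℝ) ^ (-(3 / 4) : ℝ)) := by
      linarith [Real.add_one_le_exp (C * s * (n : ℝ) ^ (-(3 / 4) : ℝ))]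
    have hp := MU_pp_pos n
    have h6 : 0 < Real.exp (-(s * η n)) * pp n := by positivity
    calc (pp (n - s) : ℝ) ≤ Real.exp (-(s * η n)) * pp n +
          C * s * (n : ℝ) ^ (-(3 / 4) : ℝ) * (Real.exp (-(s * η n)) * pp n) := by linarith
      _ = (1 + C * s * (n : ℝ) ^ (-(3 / 4) : ℝ)) * (Real.exp (-(s * η n)) * pp n) := by ring
      _ ≤ Real.exp (C * s * (n : ℝ) ^ (-(3 / 4) : ℝ)) * (Real.exp (-(s * η n)) * pp n) := by
          gcongr
      _ = _ := by
          rw [← mul_assoc, ← Real.exp_add]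
          congr 2
          ring
  refine ⟨hpos, hratio, ?_⟩
  intro n hn r _ c hc hc2
  exact MU_bb (hpos n hn) hc (hratio n hn) hc2

end ZT68
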