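/-
MP_1882ea_al, helper49.  Row LB, part b: moments of the numbers of hooks.
-/
import Mathlib
import Pool.Agent.Lib.ZT68.LBa
import Pool.Agent.Lib.ZT68.MU

namespace ZT68

open Finset

/-- first moment of the number of hooks of length `s`, not normalised -/
noncomputable def LB_HH (s m : ℕ) : ℝ := ∑ Y ∈ DD m, (hn s Y : ℝ)

/-- the geometric tail -/
noncomputable def LB_E (η' : ℝ) (s : ℕ) : ℝ := Real.exp (-(s * η')) / (1 - Real.exp (-(s * η')))

theorem LB_E_pos {η' : ℝ} (h : 0 < η') {s : ℕ} (hs : 1 ≤ s) : 0 < LB_E η' s := by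
  have hs' : (0 : ℝ) < s := by exact_mod_cast hs
  have : Real.exp (-(s * η')) < 1 := by
    rw [← Real.exp_zero]
    apply Real.exp_lt_exp.2
    have : 0 < (s : ℝ) * η' := by positivity
    linarith
  unfold LB_E
  have h2 := Real.exp_pos (-(s * η'))
  apply div_pos h2
  linarith

theorem LB_E_eq {η' : ℝ} (h : 0 < η') {s : ℕ} (hs : 1 ≤ s) :
    Real.exp (-(s * η')) * (1 + LB_E η' s) = LB_E η' s := by
  have hs' : (0 : ℝ) < s := by exact_mod_cast hs
  have : Real.exp (-(s * η')) < 1 := by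
    rw [← Real.exp_zero]
    apply Real.exp_lt_exp.2
    have : 0 < (s : ℝ) * η' := by positivity
    linarith
  unfold LB_E
  have h3 : 1 - Real.exp (-(s * η')) ≠ 0 := by linarith
  field_simp
  ring

theorem LB_step1 (h0 : DDc_stmt) (hF : FQ_stmt) {s : ℕ} (hs : 1 ≤ s) (m : ℕ) :
    LB_HH s (m + s) = s * pp m + LB_HH s m := by
  have h := hF.fq m 1 s hs
  simp only [one_mul, Nat.choose_one_right] at h
  unfold LB_HH
  have h2 : ((∑ Y ∈ DD (m + s), hn s Y : ℕ) : ℝ) = ((∑ Y ∈ DD m, (s + hn s Y) : ℕ) : ℝ) := by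
    rw [h]
  push_cast at h2
  rw [h2, Finset.sum_add_distrib, Finset.sum_const, nsmul_eq_mul, h0 m]
  ring

theorem LB_HH_nonneg (s m : ℕ) : 0 ≤ LB_HH s m :=
  Finset.sum_nonneg fun _ _ => Nat.cast_nonneg _

theorem LB_HH_zero (hF : FQ_stmt) {s : ℕ} (hs : 1 ≤ s) {m : ℕ} (h : m < s) : LB_HH s m = 0 := by
  unfold LB_HH
  refine Finset.sum_eq_zero fun Y hY => ?_
  rw [mem_DD] at hY
  rw [LB_zero hF hs (by omega), Nat.cast_zero]

/-- lower bound of the first moment -/
theorem LB_low (h0 : DDc_stmt) (hF : FQ_stmt) {r n : ℕ} (hr : 1 ≤ r) (hrn : r ≤ n) :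
    (r : ℝ) * pp (n - r) ≤ LB_HH r n := by
  obtain ⟨m, rfl⟩ : ∃ m, n = m + r := ⟨n - r, by omega⟩
  rw [LB_step1 h0 hF hr, Nat.add_sub_cancel]
  linarith [LB_HH_nonneg r m]

/-- upper bound of the first moment -/
theorem LB_up (h0 : DDc_stmt) (hF : FQ_stmt) {s n : ℕ} {η' : ℝ} (hs : 1 ≤ s) (hη : 0 < η')
    (hr : ∀ k ≤ n, (pp (n - k) : ℝ) ≤ Real.exp (-(k * η')) * pp n) :
    ∀ k ≤ n, LB_HH s (n - k) ≤ Real.exp (-(k * η')) * pp n * (s * LB_E η' s) := by
  have key : ∀ m k : ℕ, k ≤ n → n - k = m →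
      LB_HH s m ≤ Real.exp (-(k * η')) * pp n * (s * LB_E η' s) := by
    intro m
    induction m using Nat.strong_induction_on with
    | _ m ih =>
      intro k hk hm
      have hE := LB_E_pos hη hs
      have hp := MU_pp_pos n
      rcases lt_or_ge m s with hms | hms
      · rw [LB_HH_zero hF hs hms]
        positivity
      · obtain ⟨m', rfl⟩ : ∃ m', m = m' + s := ⟨m - s, by omega⟩
        rw [LB_step1 h0 hF hs]
        have h1 := ih m' (by omega) (k + s) (by omega) (by omega)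
        have h2 := hr (k + s) (by omega)
        have e1 : n - (k + s) = m' := by omega
        rw [e1] at h2
        have e2 : Real.exp (-(((k + s : ℕ) : ℝ) * η')) =
            Real.exp (-(k * η')) * Real.exp (-(s * η')) := by
          rw [← Real.exp_add]; congr 1; push_cast; ring
        rw [e2] at h1 h2
        have h3 := LB_E_eq hη hs
        have hs0 : (0 : ℝ) ≤ s := Nat.cast_nonneg s
        calc (s : ℝ) * pp m' + LB_HH s m' ≤
            s * (Real.exp (-(k * η')) * Real.exp (-(s * η')) * pp n) +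
              Real.exp (-(k * η')) * Real.exp (-(s * η')) * pp n * (s * LB_E η' s) := by
              gcongr
          _ = Real.exp (-(k * η')) * pp n * s * (Real.exp (-(s * η')) * (1 + LB_E η' s)) := by ring
          _ = _ := by rw [h3]; ring
  intro k hk
  exact key (n - k) k hk rfl

/-- joint moment, not normalised -/
noncomputable def LB_JJ (r t m : ℕ) : ℝ := ∑ Y ∈ DD m, (hn r Y : ℝ) * hn t Y

theorem LB_JJ_step (h0 : DDc_stmt) (h1 : BD1_stmt) (h2 : BD2_stmt) (h4 : BD4_stmt) (hF : FQ_stmt)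
    (n : ℕ) {r t : ℕ} (hr : 1 ≤ r) (ht : 1 ≤ t) (htr : t < r) :
    LB_JJ r t n ≤
      (if r + t ≤ n then (r : ℝ) * t * pp (n - (r + t)) + r * LB_HH t (n - (r + t)) +
        t * LB_HH r (n - (r + t)) + LB_JJ r t (n - (r + t)) else 0) +
      2 * (if r ≤ n then (((r - t : ℕ) : ℝ)) * pp (n - r) + LB_HH (r - t) (n - r) else 0) := by
  have h := LB_joint h1 h2 h4 hF n hr ht htr
  have h' : ((∑ Y ∈ DD n, hn r Y * hn t Y : ℕ) : ℝ) ≤
      (((if r + t ≤ n then ∑ Y ∈ DD (n - (r + t)), (r + hn r Y) * (t + hn t Y) else 0) +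
      2 * (if r ≤ n then ∑ Y ∈ DD (n - r), ((r - t) + hn (r - t) Y) else 0) : ℕ) : ℝ) := by
    exact_mod_cast h
  have e0 : ((∑ Y ∈ DD n, hn r Y * hn t Y : ℕ) : ℝ) = LB_JJ r t n := by
    unfold LB_JJ; push_cast; rfl
  have e1 : ∀ m, ((∑ Y ∈ DD m, (r + hn r Y) * (t + hn t Y) : ℕ) : ℝ) =
      (r : ℝ) * t * pp m + r * LB_HH t m + t * LB_HH r m + LB_JJ r t m := by
    intro m
    unfold LB_JJ LB_HH
    push_cast
    have : ∀ Y : YoungDiagram, ((r : ℝ) + hn r Y) * (t + hn t Y) =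
        r * t + r * hn t Y + t * hn r Y + hn r Y * hn t Y := fun Y => by ring
    simp only [this, Finset.sum_add_distrib, ← Finset.mul_sum, Finset.sum_const, nsmul_eq_mul, h0 m]
    ring
  have e2 : ∀ m, ((∑ Y ∈ DD m, ((r - t) + hn (r - t) Y) : ℕ) : ℝ) =
      ((r - t : ℕ) : ℝ) * pp m + LB_HH (r - t) m := by
    intro m
    unfold LB_HH
    rw [Finset.sum_add_distrib, Finset.sum_const, smul_eq_mul, h0 m]
    push_cast
    ring
  rw [e0] at h'
  refine h'.trans (le_of_eq ?_)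
  rw [Nat.cast_add, Nat.cast_mul]
  congr 1
  · split_ifs
    · exact e1 _
    · simp
  · split_ifs
    · rw [e2]; simp
    · simp

theorem LB_JJ_zero (hF : FQ_stmt) {r t : ℕ} (hr : 1 ≤ r) {m : ℕ} (h : m < r) : LB_JJ r t m = 0 := by
  unfold LB_JJ
  refine Finset.sum_eq_zero fun Y hY => ?_
  rw [mem_DD] at hY
  rw [LB_zero hF hr (by omega), Nat.cast_zero, zero_mul]

/-- the bound of the joint moment -/
noncomputable def LB_B (η' : ℝ) (r t : ℕ) : ℝ :=
  2 * (Real.exp (-(((r + t : ℕ) : ℝ) * η')) * (r * t) * (1 + LB_E η' t + LB_E η' r) +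
    2 * Real.exp (-(r * η')) * ((r - t : ℕ) : ℝ) * (1 + LB_E η' (r - t)))

theorem LB_Jup (h0 : DDc_stmt) (h1 : BD1_stmt) (h2 : BD2_stmt) (h4 : BD4_stmt) (hF : FQ_stmt)
    {r t n : ℕ} {η' : ℝ} (hr1 : 1 ≤ r) (ht : 1 ≤ t) (htr : t < r) (hη : 0 < η')
    (hsm : Real.exp (-(((r + t : ℕ) : ℝ) * η')) ≤ 1 / 2)
    (hr : ∀ k ≤ n, (pp (n - k) : ℝ) ≤ Real.exp (-(k * η')) * pp n) :
    ∀ k ≤ n, LB_JJ r t (n - k) ≤ Real.exp (-(k * η')) * pp n * LB_B η' r t := by
  have hd : 1 ≤ r - t := by omega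
  have hEt := LB_E_pos hη ht
  have hEr := LB_E_pos hη hr1
  have hEd := LB_E_pos hη hd
  have hp := MU_pp_pos n
  set Z : ℝ := Real.exp (-(((r + t : ℕ) : ℝ) * η')) with hZ
  have hZ0 : 0 < Z := Real.exp_pos _
  set A1 : ℝ := Z * (r * t) * (1 + LB_E η' t + LB_E η' r) with hA1
  set A2 : ℝ := 2 * Real.exp (-(r * η')) * ((r - t : ℕ) : ℝ) * (1 + LB_E η' (r - t)) with hA2
  have hA1' : 0 ≤ A1 := by positivity
  have hA2' : 0 ≤ A2 := by positivity
  have hBdef : LB_B η' r t = 2 * (A1 + A2) := rfl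
  have key : ∀ m k : ℕ, k ≤ n → n - k = m →
      LB_JJ r t m ≤ Real.exp (-(k * η')) * pp n * LB_B η' r t := by
    intro m
    induction m using Nat.strong_induction_on with
    | _ m ih =>
      intro k hk hm
      rw [hBdef]
      have hQ : 0 < Real.exp (-(k * η')) * pp n := by positivity
      rcases lt_or_ge m r with hmr | hmr
      · rw [LB_JJ_zero hF hr1 hmr]
        positivity
      · refine (LB_JJ_step h0 h1 h2 h4 hF m hr1 ht htr).trans ?_
        -- second part
        have hsec : 2 * (if r ≤ m then (((r - t : ℕ) : ℝ)) * pp (m - r) + LB_HH (r - t) (m - r)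
            else 0) ≤ Real.exp (-(k * η')) * pp n * A2 := by
          rw [if_pos hmr]
          have e1 : m - r = n - (k + r) := by omega
          rw [e1]
          have h3 := hr (k + r) (by omega)
          have h5 := LB_up h0 hF hd hη hr (k + r) (by omega)
          have e2 : Real.exp (-(((k + r : ℕ) : ℝ) * η')) =
              Real.exp (-(k * η')) * Real.exp (-(r * η')) := by
            rw [← Real.exp_add]; congr 1; push_cast; ring
          rw [e2] at h3 h5
          calc _ ≤ 2 * (((r - t : ℕ) : ℝ) * (Real.exp (-(k * η')) * Real.exp (-(r * η')) * pp n) +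
              Real.exp (-(k * η')) * Real.exp (-(r * η')) * pp n *
                (((r - t : ℕ) : ℝ) * LB_E η' (r - t))) := by gcongr
            _ = _ := by rw [hA2]; ring
        have hfirst : (if r + t ≤ m then (r : ℝ) * t * pp (m - (r + t)) +
            r * LB_HH t (m - (r + t)) + t * LB_HH r (m - (r + t)) + LB_JJ r t (m - (r + t)) else 0) ≤
            Real.exp (-(k * η')) * pp n * (A1 + Z * (2 * (A1 + A2))) := by
          split_ifs with hc
          · have e1 : m - (r + t) = n - (k + (r + t)) := by omega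
            have h3 := hr (k + (r + t)) (by omega)
            have h5 := LB_up h0 hF ht hη hr (k + (r + t)) (by omega)
            have h6 := LB_up h0 hF hr1 hη hr (k + (r + t)) (by omega)
            have h7 := ih (m - (r + t)) (by omega) (k + (r + t)) (by omega) (by omega)
            have e2 : Real.exp (-(((k + (r + t) : ℕ) : ℝ) * η')) =
                Real.exp (-(k * η')) * Z := by
              rw [hZ, ← Real.exp_add]; congr 1; push_cast; ring
            rw [e2] at h3 h5 h6 h7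
            rw [hBdef] at h7
            rw [e1] at h7 ⊢
            calc _ ≤ (r : ℝ) * t * (Real.exp (-(k * η')) * Z * pp n) +
                r * (Real.exp (-(k * η')) * Z * pp n * (t * LB_E η' t)) +
                t * (Real.exp (-(k * η')) * Z * pp n * (r * LB_E η' r)) +
                Real.exp (-(k * η')) * Z * pp n * (2 * (A1 + A2)) := by gcongr
              _ = _ := by rw [hA1]; ring
          · positivity
        calc _ ≤ Real.exp (-(k * η')) * pp n * (A1 + Z * (2 * (A1 + A2))) +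
              Real.exp (-(k * η')) * pp n * A2 := add_le_add hfirst hsec
          _ = Real.exp (-(k * η')) * pp n * (A1 + A2 + Z * (2 * (A1 + A2))) := by ring
          _ ≤ _ := by
              gcongr
              nlinarith
  intro k hk
  exact key (n - k) k hk rfl

/-- second factorial moment, not normalised -/
noncomputable def LB_CC (r m : ℕ) : ℝ := ∑ Y ∈ DD m, ((hn r Y).choose 2 : ℝ)

theorem LB_CC_step (h0 : DDc_stmt) (hF : FQ_stmt) {r : ℕ} (hr : 1 ≤ r) (m : ℕ) :
    LB_CC r (m + 2 * r) ≤ (r : ℝ) ^ 2 / 2 * pp m + r * LB_HH r m + LB_CC r m := by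
  have h := hF.fq m 2 r hr
  have h' : ((∑ Y ∈ DD (m + 2 * r), (hn r Y).choose 2 : ℕ) : ℝ) =
      ((∑ Y ∈ DD m, (r + hn r Y).choose 2 : ℕ) : ℝ) := by rw [h]
  push_cast at h'
  unfold LB_CC LB_HH
  rw [h', ← h0 m, Finset.mul_sum, ← nsmul_eq_mul' ((r : ℝ) ^ 2 / 2) _, ← Finset.sum_const,
    ← Finset.sum_add_distrib, ← Finset.sum_add_distrib]
  refine Finset.sum_le_sum fun Y _ => ?_
  rw [Nat.cast_choose_two, Nat.cast_choose_two]
  push_cast
  have : (0 : ℝ) ≤ r := Nat.cast_nonneg r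
  nlinarith

theorem LB_CC_zero (hF : FQ_stmt) {r : ℕ} (hr : 1 ≤ r) {m : ℕ} (h : m < 2 * r) :
    LB_CC r m = 0 := by
  unfold LB_CC
  refine Finset.sum_eq_zero fun Y hY => ?_
  rw [mem_DD] at hY
  have h1 := hF.small r Y hr
  have h2 : hn r Y < 2 := by
    by_contra hc
    have : 2 ≤ hn r Y := by omega
    nlinarith
  rw [Nat.choose_eq_zero_of_lt h2, Nat.cast_zero]

theorem LB_Cup (h0 : DDc_stmt) (hF : FQ_stmt) {r n : ℕ} {η' : ℝ} (hr1 : 1 ≤ r) (hη : 0 < η')
    (hsm : Real.exp (-(((2 * r : ℕ) : ℝ) * η')) ≤ 1 / 2)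
    (hr : ∀ k ≤ n, (pp (n - k) : ℝ) ≤ Real.exp (-(k * η')) * pp n) :
    ∀ k ≤ n, LB_CC r (n - k) ≤ Real.exp (-(k * η')) * pp n *
      (Real.exp (-(((2 * r : ℕ) : ℝ) * η')) * (r : ℝ) ^ 2 * (1 + 2 * LB_E η' r)) := by
  have hEr := LB_E_pos hη hr1
  have hp := MU_pp_pos n
  set Z : ℝ := Real.exp (-(((2 * r : ℕ) : ℝ) * η')) with hZ
  have hZ0 : 0 < Z := Real.exp_pos _
  set A : ℝ := Z * (r : ℝ) ^ 2 * (1 + 2 * LB_E η' r) with hA
  have hA' : 0 ≤ A := by positivity
  have key : ∀ m k : ℕ, k ≤ n → n - k = m →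
      LB_CC r m ≤ Real.exp (-(k * η')) * pp n * A := by
    intro m
    induction m using Nat.strong_induction_on with
    | _ m ih =>
      intro k hk hm
      have hQ : 0 < Real.exp (-(k * η')) * pp n := by positivity
      rcases lt_or_ge m (2 * r) with hmr | hmr
      · rw [LB_CC_zero hF hr1 hmr]
        positivity
      · obtain ⟨m', rfl⟩ : ∃ m', m = m' + 2 * r := ⟨m - 2 * r, by omega⟩
        refine (LB_CC_step h0 hF hr1 m').trans ?_
        have e1 : m' = n - (k + 2 * r) := by omega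
        have h3 := hr (k + 2 * r) (by omega)
        have h6 := LB_up h0 hF hr1 hη hr (k + 2 * r) (by omega)
        have h7 := ih m' (by omega) (k + 2 * r) (by omega) (by omega)
        have e2 : Real.exp (-(((k + 2 * r : ℕ) : ℝ) * η')) =
            Real.exp (-(k * η')) * Z := by
          rw [hZ, ← Real.exp_add]; congr 1; push_cast; ring
        rw [e2] at h3 h6 h7
        rw [← e1] at h3 h6
        calc _ ≤ (r : ℝ) ^ 2 / 2 * (Real.exp (-(k * η')) * Z * pp n) +
              r * (Real.exp (-(k * η')) * Z * pp n * (r * LB_E η' r)) +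
              Real.exp (-(k * η')) * Z * pp n * A := by gcongr
          _ = Real.exp (-(k * η')) * pp n * (A / 2 + Z * A) := by rw [hA]; ring
          _ ≤ _ := by
              gcongr
              nlinarith
  intro k hk
  exact key (n - k) k hk rfl

open Classical in
/-- the number of `t`-cores with a hook of length `r` -/
theorem LB_core (h0 : DDc_stmt) (h1 : BD1_stmt) (h2 : BD2_stmt) (h4 : BD4_stmt) (hF : FQ_stmt)
    {r t n : ℕ} {η' : ℝ} (hr1 : 1 ≤ r) (ht : 1 ≤ t) (htr : t < r) (hrn : r ≤ n) (hη : 0 < η')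
    (hsm : Real.exp (-(((r + t : ℕ) : ℝ) * η')) ≤ 1 / 2)
    (hr : ∀ k ≤ n, (pp (n - k) : ℝ) ≤ Real.exp (-(k * η')) * pp n) :
    (r : ℝ) * pp (n - r) - pp n * (LB_B η' r t +
      Real.exp (-(((2 * r : ℕ) : ℝ) * η')) * (r : ℝ) ^ 2 * (1 + 2 * LB_E η' r)) ≤
      (((DD n).filter (fun Y => hn t Y = 0 ∧ 1 ≤ hn r Y)).card : ℝ) := by
  have hsm2 : Real.exp (-(((2 * r : ℕ) : ℝ) * η')) ≤ 1 / 2 := by
    refine le_trans (Real.exp_le_exp.2 ?_) hsm
    have : ((r + t : ℕ) : ℝ) ≤ ((2 * r : ℕ) : ℝ) := by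
      exact_mod_cast (by omega : r + t ≤ 2 * r)
    nlinarith
  have hJ := LB_Jup h0 h1 h2 h4 hF hr1 ht htr hη hsm hr 0 (Nat.zero_le _)
  have hC := LB_Cup h0 hF hr1 hη hsm2 hr 0 (Nat.zero_le _)
  simp only [Nat.sub_zero, Nat.cast_zero, zero_mul, neg_zero, Real.exp_zero, one_mul] at hJ hC
  have hL := LB_low h0 hF hr1 hrn
  have hpt : LB_HH r n - LB_JJ r t n - LB_CC r n ≤
      (((DD n).filter (fun Y => hn t Y = 0 ∧ 1 ≤ hn r Y)).card : ℝ) := by
    rw [Finset.card_filter]
    push_cast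
    unfold LB_HH LB_JJ LB_CC
    rw [← Finset.sum_sub_distrib, ← Finset.sum_sub_distrib]
    refine Finset.sum_le_sum fun Y _ => ?_
    rcases Nat.eq_zero_or_pos (hn t Y) with h | h
    · rw [h]
      rcases Nat.eq_zero_or_pos (hn r Y) with h' | h'
      · simp [h']
      · rw [if_pos ⟨rfl, h'⟩, Nat.cast_choose_two]
        have h5 : (1 : ℝ) ≤ hn r Y := by exact_mod_cast h'
        -- h - h (h-1)/2 ≤ 1 for a natural number h ≥ 1
        have h6 : (0 : ℝ) ≤ ((hn r Y : ℝ) - 1) * ((hn r Y : ℝ) - 2) := by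
          rcases Nat.lt_or_ge (hn r Y) 2 with h7 | h7
          · have : hn r Y = 1 := by omega
            rw [this]; norm_num
          · have : (2 : ℝ) ≤ hn r Y := by exact_mod_cast h7
            nlinarith
        push_cast
        nlinarith
    · rw [if_neg (by omega), Nat.cast_choose_two]
      have h5 : (1 : ℝ) ≤ hn t Y := by exact_mod_cast h
      have h6 : (0 : ℝ) ≤ hn r Y := Nat.cast_nonneg _
      have h7 : (0 : ℝ) ≤ (hn r Y : ℝ) * ((hn r Y : ℝ) - 1) / 2 := by
        rcases Nat.eq_zero_or_pos (hn r Y) with h8 | h8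
        · simp [h8]
        · have : (1 : ℝ) ≤ hn r Y := by exact_mod_cast h8
          have : 0 ≤ (hn r Y : ℝ) * ((hn r Y : ℝ) - 1) := mul_nonneg h6 (by linarith)
          linarith
      nlinarith
  linarith

end ZT68
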