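/-
MP_1882ea_al, helper49.  Row LB, part c: the partitions with two given largest parts; zeros of type II
which are not of type I.
-/
import Mathlib
import Pool.Agent.Lib.ZT68.LBb

namespace ZT68

open Finset

/-- `Y` is a core for some part of `μ` -/
def IsTypeII (Y : YoungDiagram) {n : ℕ} (μ : n.Partition) : Prop := ∃ t ∈ μ.parts, IsCore t Y

/-- density of the pairs of type II -/
noncomputable def zII (n : ℕ) : ℝ :=
  ({P : YoungDiagram × n.Partition | P.1.card = n ∧ IsTypeII P.1 P.2}.ncard : ℝ) / (pp n : ℝ) ^ 2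

open Classical in
/-- the partitions whose parts `≥ t` are `r` and `t` -/
noncomputable def LB_M (n r t : ℕ) : Finset n.Partition :=
  univ.filter (fun μ => μ.parts.filter (fun s => t ≤ s) = r ::ₘ {t})

open Classical in
theorem LB_mu_low (n r t : ℕ) (hr : 1 ≤ r) (ht : 1 ≤ t) (h : r + t ≤ n) :
    pp (n - (r + t)) ≤ (univ.filter (fun μ : n.Partition => r ::ₘ {t} ≤ μ.parts)).card := by
  unfold pp
  rw [← Finset.card_univ]
  refine Finset.card_le_card_of_injOn
    (fun ν : (n - (r + t)).Partition => (⟨r ::ₘ t ::ₘ ν.parts, fun {i} hi => by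
      rcases Multiset.mem_cons.1 hi with hi | hi
      · omega
      · rcases Multiset.mem_cons.1 hi with hi | hi
        · omega
        · exact ν.parts_pos hi, by
      rw [Multiset.sum_cons, Multiset.sum_cons, ν.parts_sum]
      omega⟩ : n.Partition)) ?_ ?_
  · intro ν _
    simp only [Finset.coe_filter, Finset.mem_univ, true_and, Set.mem_ofPred_eq]
    rw [Multiset.cons_le_cons_iff]
    exact Multiset.singleton_le.2 (Multiset.mem_cons_self _ _)
  · intro μ _ ν _ h
    have h1 := congrArg Nat.Partition.parts h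
    simp only at h1
    apply Nat.Partition.ext
    exact (Multiset.cons_inj_right _).1 ((Multiset.cons_inj_right _).1 h1)

open Classical in
theorem LB_mu_card (n r t : ℕ) (hr : 1 ≤ r) (ht : 1 ≤ t) (htr : t < r) (h : r + t ≤ n) :
    (pp (n - (r + t)) : ℝ) - ∑ s ∈ Icc t n,
      ((univ.filter (fun μ : n.Partition => s ::ₘ r ::ₘ {t} ≤ μ.parts)).card : ℝ) ≤
      ((LB_M n r t).card : ℝ) := by
  have h1 := LB_mu_low n r t hr ht h
  have h2 : (univ.filter (fun μ : n.Partition => r ::ₘ {t} ≤ μ.parts)) ⊆
      LB_M n r t ∪ (Icc t n).biUnion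
        (fun s => univ.filter (fun μ : n.Partition => s ::ₘ r ::ₘ {t} ≤ μ.parts)) := by
    intro μ hμ
    simp only [Finset.mem_filter, Finset.mem_univ, true_and] at hμ
    simp only [Finset.mem_union, LB_M, Finset.mem_filter, Finset.mem_univ, true_and,
      Finset.mem_biUnion, Finset.mem_Icc]
    set A := μ.parts.filter (fun s => t ≤ s) with hA
    have hle : r ::ₘ {t} ≤ A := by
      rw [hA, Multiset.le_filter]
      refine ⟨hμ, ?_⟩
      intro a ha
      rcases Multiset.mem_cons.1 ha with ha | ha
      · omega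
      · rw [Multiset.mem_singleton] at ha
        omega
    by_cases hc : A = r ::ₘ {t}
    · exact Or.inl hc
    · right
      have h3 : A - (r ::ₘ {t}) ≠ 0 := by
        intro h0
        apply hc
        have h4 := tsub_add_cancel_of_le hle
        rw [h0, zero_add] at h4
        exact h4.symm
      obtain ⟨s, hs⟩ := Multiset.exists_mem_of_ne_zero h3
      have hsA : s ∈ A := Multiset.mem_of_le (Multiset.sub_le_self _ _) hs
      rw [hA, Multiset.mem_filter] at hsA
      refine ⟨s, ⟨hsA.2, Nat.Partition.le_of_mem_parts hsA.1⟩, ?_⟩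
      have h5 : s ::ₘ r ::ₘ {t} ≤ A := by
        have h6 : {s} ≤ A - (r ::ₘ {t}) := Multiset.singleton_le.2 hs
        have h7 : {s} + (r ::ₘ {t}) ≤ (A - (r ::ₘ {t})) + (r ::ₘ {t}) := add_le_add_left h6 _
        rw [tsub_add_cancel_of_le hle, Multiset.singleton_add] at h7
        exact h7
      exact h5.trans (Multiset.filter_le _ _)
  have h3 := (Finset.card_le_card h2).trans ((Finset.card_union_le _ _).trans
    (Nat.add_le_add_left Finset.card_biUnion_le _))
  have h4 : (pp (n - (r + t)) : ℝ) ≤ ((LB_M n r t).card : ℝ) + ∑ s ∈ Icc t n,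
      ((univ.filter (fun μ : n.Partition => s ::ₘ r ::ₘ {t} ≤ μ.parts)).card : ℝ) := by
    exact_mod_cast h1.trans h3
  linarith

open Classical in
/-- the diagrams which are `t`-cores and have a hook of length `r` -/
noncomputable def LB_Y (n r t : ℕ) : Finset YoungDiagram :=
  (DD n).filter (fun Y => hn t Y = 0 ∧ 1 ≤ hn r Y)

open Classical in
theorem LB_set (n : ℕ) (p : YoungDiagram → n.Partition → Prop) :
    {P : YoungDiagram × n.Partition | P.1.card = n ∧ p P.1 P.2} =
      (((DD n) ×ˢ (univ : Finset n.Partition)).filter (fun P => p P.1 P.2) :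
        Finset (YoungDiagram × n.Partition)) := by
  ext P
  simp only [Set.mem_ofPred_eq, Finset.coe_filter, Finset.mem_product, Finset.mem_univ, and_true,
    mem_DD]

open Classical in
/-- zeros of type II which are not of type I -/
theorem LB_diff (h1 : BD1_stmt) (n : ℕ) (W : Finset (ℕ × ℕ)) (hW : ∀ p ∈ W, 1 ≤ p.1 ∧ p.1 < p.2) :
    (∑ p ∈ W, ((LB_M n p.2 p.1).card : ℝ) * (LB_Y n p.2 p.1).card) / (pp n : ℝ) ^ 2 ≤
      zII n - zI n := by
  have hp := MU_pp_pos n
  unfold zII zI
  rw [← sub_div]
  refine div_le_div_of_nonneg_right ?_ (sq_nonneg _)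
  rw [LB_set n (fun Y μ => IsTypeII Y μ), LB_set n (fun Y μ => TypeI Y μ), Set.ncard_coe_finset,
    Set.ncard_coe_finset]
  set A2 := ((DD n) ×ˢ (univ : Finset n.Partition)).filter (fun P => IsTypeII P.1 P.2) with hA2
  set A1 := ((DD n) ×ˢ (univ : Finset n.Partition)).filter (fun P => TypeI P.1 P.2) with hA1
  have hsub : A1 ⊆ A2 := by
    intro P hP
    rw [hA1, Finset.mem_filter] at hP
    rw [hA2, Finset.mem_filter]
    obtain ⟨t, ht, -, hc⟩ := hP.2
    exact ⟨hP.1, t, ht, hc⟩
  have hcard : ((A2 \ A1).card : ℝ) = (A2.card : ℝ) - A1.card := by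
    rw [Finset.card_sdiff_of_subset hsub, Nat.cast_sub (Finset.card_le_card hsub)]
  rw [← hcard]
  have hS : (∑ p ∈ W, ((LB_M n p.2 p.1).card : ℝ) * (LB_Y n p.2 p.1).card) =
      (((W.sigma (fun p => LB_Y n p.2 p.1 ×ˢ LB_M n p.2 p.1)).card : ℕ) : ℝ) := by
    rw [Finset.card_sigma]
    push_cast
    refine Finset.sum_congr rfl fun p _ => ?_
    rw [Finset.card_product]
    push_cast
    ring
  rw [hS]
  have hle : (W.sigma (fun p => LB_Y n p.2 p.1 ×ˢ LB_M n p.2 p.1)).card ≤ (A2 \ A1).card := by
    refine Finset.card_le_card_of_injOn (fun q => q.2) ?_ ?_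
    · rintro ⟨⟨t, r⟩, Y, μ⟩ hq
      simp only [Finset.mem_coe, Finset.mem_sigma, Finset.mem_product, LB_Y, LB_M,
        Finset.mem_filter, Finset.mem_univ, true_and] at hq
      obtain ⟨hw, ⟨hY, ht0, hr1⟩, hμ⟩ := hq
      have hw' := hW _ hw
      simp only at hw'
      have htm : t ∈ μ.parts := by
        have : t ∈ μ.parts.filter (fun s => t ≤ s) := by rw [hμ]; simp
        exact (Multiset.mem_filter.1 this).1
      have hrm : r ∈ μ.parts := by
        have : r ∈ μ.parts.filter (fun s => t ≤ s) := by rw [hμ]; simp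
        exact (Multiset.mem_filter.1 this).1
      simp only [Finset.mem_coe, Finset.mem_sdiff, hA2, hA1, Finset.mem_filter,
        Finset.mem_product, Finset.mem_univ, and_true]
      refine ⟨⟨hY, t, htm, (h1.core Y t hw'.1).2 ht0⟩, ?_⟩
      rintro ⟨-, t', ht', hmax, hcore⟩
      have h3 : r ≤ t' := hmax r hrm
      have h4 : t' ∈ μ.parts.filter (fun s => t ≤ s) := Multiset.mem_filter.2 ⟨ht', by omega⟩
      rw [hμ] at h4
      have h5 : t' = r := by
        rcases Multiset.mem_cons.1 h4 with h | h
        · exact h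
        · rw [Multiset.mem_singleton] at h
          omega
      rw [h5] at hcore
      have := (h1.core Y r (by omega)).1 hcore
      omega
    · rintro ⟨⟨t, r⟩, Y, μ⟩ hq ⟨⟨t', r'⟩, Y', μ'⟩ hq' heq
      simp only at heq
      obtain ⟨rfl, rfl⟩ := Prod.mk.inj heq
      simp only [Finset.mem_coe, Finset.mem_sigma, Finset.mem_product, LB_Y, LB_M,
        Finset.mem_filter, Finset.mem_univ, true_and] at hq hq'
      obtain ⟨hw, -, hμ⟩ := hq
      obtain ⟨hw', -, hμ'⟩ := hq'
      have hw := hW _ hw
      have hw' := hW _ hw'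
      simp only at hw hw'
      have mem : ∀ a, a ∈ μ.parts → t ≤ a → a = r ∨ a = t := by
        intro a ha hta
        have : a ∈ μ.parts.filter (fun s => t ≤ s) := Multiset.mem_filter.2 ⟨ha, hta⟩
        rw [hμ] at this
        simpa using this
      have mem' : ∀ a, a ∈ μ.parts → t' ≤ a → a = r' ∨ a = t' := by
        intro a ha hta
        have : a ∈ μ.parts.filter (fun s => t' ≤ s) := Multiset.mem_filter.2 ⟨ha, hta⟩
        rw [hμ'] at this
        simpa using this
      have htm : t ∈ μ.parts := by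
        have : t ∈ μ.parts.filter (fun s => t ≤ s) := by rw [hμ]; simp
        exact (Multiset.mem_filter.1 this).1
      have hrm : r ∈ μ.parts := by
        have : r ∈ μ.parts.filter (fun s => t ≤ s) := by rw [hμ]; simp
        exact (Multiset.mem_filter.1 this).1
      have htm' : t' ∈ μ.parts := by
        have : t' ∈ μ.parts.filter (fun s => t' ≤ s) := by rw [hμ']; simp
        exact (Multiset.mem_filter.1 this).1
      have hrm' : r' ∈ μ.parts := by
        have : r' ∈ μ.parts.filter (fun s => t' ≤ s) := by rw [hμ']; simp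
        exact (Multiset.mem_filter.1 this).1
      have hfin : t = t' ∧ r = r' := by
        rcases le_total t t' with hle | hle
        · have e1 := mem t' htm' hle
          have e2 := mem r' hrm' (by omega)
          omega
        · have e1 := mem' t htm hle
          have e2 := mem' r hrm (by omega)
          omega
      obtain ⟨rfl, rfl⟩ := hfin
      rfl
  exact_mod_cast hle

theorem LB_Icc_card {T m : ℕ} :
    (((Icc 1 m) ×ˢ (Icc 1 m)).image (fun q : ℕ × ℕ => (T + q.1, T + q.1 + q.2))).card = m * m := by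
  rw [Finset.card_image_of_injective]
  · rw [Finset.card_product, Nat.card_Icc]; simp
  · rintro ⟨a, b⟩ ⟨c, d⟩ h
    simp only [Prod.mk.injEq] at h ⊢
    omega

end ZT68
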