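/-
MP_1882ea_al, helper49.  Row LB: the zeros of type II which are not of type I have density at least
`c / log² n`.
-/
import Mathlib
import Pool.Agent.Lib.ZT68.LBc
import Pool.Agent.Lib.ZT68.B2

namespace ZT68

open Finset Filter

/-- `x / (1 - exp (-x)) ≤ 1 + x` in the form needed -/
theorem LB_Ed {η' : ℝ} (h : 0 < η') {d : ℕ} (hd : 1 ≤ d) :
    (d : ℝ) * (1 + LB_E η' d) ≤ d + 1 / η' := by
  have hd' : (0 : ℝ) < d := by exact_mod_cast hd
  have hx : 0 < (d : ℝ) * η' := by positivity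
  have h1 : Real.exp (-(d * η')) < 1 := by
    rw [← Real.exp_zero]
    exact Real.exp_lt_exp.2 (by linarith)
  have h2 : (1 + d * η') * Real.exp (-(d * η')) ≤ 1 := by
    have h3 := Real.add_one_le_exp (d * η')
    have h4 : Real.exp (d * η') * Real.exp (-(d * η')) = 1 := by rw [← Real.exp_add]; simp
    have h5 := Real.exp_pos (-(d * η'))
    calc (1 + d * η') * Real.exp (-(d * η')) ≤ Real.exp (d * η') * Real.exp (-(d * η')) := by
          gcongr; linarith
      _ = 1 := h4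
  unfold LB_E
  set X := Real.exp (-(d * η')) with hX
  have h3 : 0 < 1 - X := by linarith
  have e : (d : ℝ) * (1 + X / (1 - X)) = d / (1 - X) := by
    field_simp
    ring
  rw [e, div_le_iff₀ h3]
  have e2 : ((d : ℝ) + 1 / η') * (1 - X) = d + (1 - (1 + d * η') * X) / η' := by
    field_simp
    ring
  rw [e2]
  have : 0 ≤ (1 - (1 + d * η') * X) / η' := div_nonneg (by linarith) h.le
  linarith

theorem LB_Esmall {η' : ℝ} {s : ℕ} (h : Real.exp (-(s * η')) ≤ 0.001) :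
    LB_E η' s ≤ 0.01 := by
  unfold LB_E
  have h2 := Real.exp_pos (-(s * η'))
  rw [div_le_iff₀ (by linarith)]
  linarith

/-- facts on one pair of the window -/
structure LB_data (L η C1 C2 : ℝ) (n r t : ℕ) : Prop where
  F : B2_facts L η C1 C2
  hC2 : 0 < C2
  ht : 1 ≤ t
  htr : t < r
  hrn : r + t ≤ n
  hrt : ((r + t : ℕ) : ℝ) ≤ Real.exp (L / 2) * L ^ 2
  hyt : Real.exp (-(t * η)) ≤ η / (8 * L)
  htL : (t : ℝ) * η ≤ 0.7 * L
  hrL : (r : ℝ) * η ≤ 0.8 * L
  hrL2 : L / 2 ≤ (r : ℝ) * η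
  hd : ((r - t : ℕ) : ℝ) ≤ 1 / η
  hlow : ∀ s ≤ n, Real.exp (-(s * η)) * pp n * (1 - C2 * s * Real.exp (-(3 / 4 * L))) ≤
      (pp (n - s) : ℝ)
  hup : ∀ k ≤ n, (pp (n - k) : ℝ) ≤
      Real.exp (-(k * (η - C2 * Real.exp (-(3 / 4 * L))))) * pp n

theorem LB_herr {L η C1 C2 : ℝ} {n r t : ℕ} (H : LB_data L η C1 C2 n r t) (k : ℕ)
    (hk : (k : ℝ) ≤ ((r + t : ℕ) : ℝ)) : C2 * k * Real.exp (-(3 / 4 * L)) ≤ 0.009 := by
  have hC2 := H.hC2
  have e1 : Real.exp (-(3 / 4 * L)) = Real.exp (-(1 / 4 * L)) * Real.exp (-(L / 2)) := by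
    rw [← Real.exp_add]; congr 1; ring
  have e2 : Real.exp (L / 2) * Real.exp (-(L / 2)) = 1 := by
    rw [← Real.exp_add]; simp
  have hf3 := H.F.f3
  rw [abs_of_pos hC2] at hf3
  calc C2 * k * Real.exp (-(3 / 4 * L)) ≤
        C2 * (Real.exp (L / 2) * L ^ 2) * Real.exp (-(3 / 4 * L)) := by
        gcongr
        exact hk.trans H.hrt
    _ = C2 * L ^ 2 * Real.exp (-(1 / 4 * L)) * (Real.exp (L / 2) * Real.exp (-(L / 2))) := by
        rw [e1]; ring
    _ = C2 * L ^ 2 * Real.exp (-(1 / 4 * L)) := by rw [e2, mul_one]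
    _ ≤ _ := hf3

theorem LB_exp009 : Real.exp 0.009 ≤ 1.01 := by
  have h5 : Real.exp (-0.009) ≥ 1 - 0.009 := by
    linarith [Real.add_one_le_exp (-0.009 : ℝ)]
  have h6 : Real.exp 0.009 * Real.exp (-0.009) = 1 := by
    rw [← Real.exp_add]; simp
  have h7 := Real.exp_pos (0.009 : ℝ)
  nlinarith

theorem LB_prime {L η C1 C2 : ℝ} {n r t : ℕ} (H : LB_data L η C1 C2 n r t) (k : ℕ)
    (hk : (k : ℝ) ≤ ((r + t : ℕ) : ℝ)) :
    Real.exp (-(k * (η - C2 * Real.exp (-(3 / 4 * L))))) ≤ 1.01 * Real.exp (-(k * η)) := by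
  have h5 := LB_herr H k hk
  calc Real.exp (-(k * (η - C2 * Real.exp (-(3 / 4 * L))))) =
        Real.exp (C2 * k * Real.exp (-(3 / 4 * L))) * Real.exp (-(k * η)) := by
        rw [← Real.exp_add]; congr 1; ring
    _ ≤ Real.exp 0.009 * Real.exp (-(k * η)) := by gcongr
    _ ≤ _ := by
        have := LB_exp009
        gcongr

/-- the basic inequalities -/
theorem LB_basic {L η C1 C2 : ℝ} {n r t : ℕ} (H : LB_data L η C1 C2 n r t) :
    0 < η ∧ 100 ≤ L ∧ Real.exp (-(r * η)) ≤ Real.exp (-(t * η)) ∧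
    Real.exp (-(t * η)) / η ≤ 1 / (8 * L) ∧ 1 / (8 * L) ≤ 1 / 800 ∧
    Real.exp (-(t * η)) ≤ 0.0005 := by
  have hL := H.F.hL
  have hη : 0 < η := lt_of_lt_of_le (by positivity) H.F.low
  have hLpos : 0 < L := by linarith
  have htr' : (t : ℝ) < r := by exact_mod_cast H.htr
  have hyrt : Real.exp (-(r * η)) ≤ Real.exp (-(t * η)) := by
    apply Real.exp_le_exp.2
    have := mul_lt_mul_of_pos_right htr' hη
    linarith
  have hη2 : η ≤ 0.002 := by
    have := H.F.up
    have := H.F.f10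
    linarith
  have hytu : Real.exp (-(t * η)) / η ≤ 1 / (8 * L) := by
    rw [div_le_iff₀ hη]
    calc Real.exp (-(t * η)) ≤ η / (8 * L) := H.hyt
      _ = 1 / (8 * L) * η := by ring
  have h8L : 1 / (8 * L) ≤ 1 / 800 := by
    apply one_div_le_one_div_of_le (by norm_num)
    linarith
  refine ⟨hη, hL, hyrt, hytu, h8L, ?_⟩
  calc Real.exp (-(t * η)) ≤ η / (8 * L) := H.hyt
    _ = 1 / (8 * L) * η := by ring
    _ ≤ 1 / 800 * 0.002 := by gcongr
    _ ≤ _ := by norm_num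

open Classical in
theorem LB_pairM {L η C1 C2 : ℝ} {n r t : ℕ} (H : LB_data L η C1 C2 n r t) :
    0.9 * (Real.exp (-(r * η)) * Real.exp (-(t * η))) * pp n ≤ ((LB_M n r t).card : ℝ) := by
  obtain ⟨hη, hL, hyrt, hytu, h8L, hytsmall⟩ := LB_basic H
  have hLpos : 0 < L := by linarith
  have hr1 : 1 ≤ r := by have := H.ht; have := H.htr; omega
  have hp := MU_pp_pos n
  obtain ⟨g1, g2, g3⟩ := B2_eta H.F
  have hup := H.hup
  have hpt := LB_prime H t (by push_cast; linarith [Nat.cast_nonneg (α := ℝ) r])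
  have hpr := LB_prime H r (by push_cast; linarith [Nat.cast_nonneg (α := ℝ) t])
  set η' := η - C2 * Real.exp (-(3 / 4 * L)) with hη'
  have hη'pos : 0 < η' := lt_of_lt_of_le (by positivity) g1
  set yt := Real.exp (-(t * η)) with hytdef
  set yr := Real.exp (-(r * η)) with hyrdef
  set zt := Real.exp (-(t * η')) with hztdef
  set zr := Real.exp (-(r * η')) with hzrdef
  have hyt0 : 0 < yt := Real.exp_pos _
  have hyr0 : 0 < yr := Real.exp_pos _
  have hzt0 : 0 < zt := Real.exp_pos _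
  have hzr0 : 0 < zr := Real.exp_pos _
  have h6 : 0 < yr * yt * pp n := by positivity
  have hprod : Real.exp (-(((r + t : ℕ) : ℝ) * η)) = yr * yt := by
    rw [hyrdef, hytdef, ← Real.exp_add]; congr 1; push_cast; ring
  refine le_trans ?_ (LB_mu_card n r t hr1 H.ht H.htr H.hrn)
  have hA : 0.99 * (yr * yt) * pp n ≤ (pp (n - (r + t)) : ℝ) := by
    refine le_trans ?_ (H.hlow (r + t) H.hrn)
    rw [hprod]
    have h5 := LB_herr H (r + t) le_rfl
    have h7 : (0.99 : ℝ) ≤ 1 - C2 * ((r + t : ℕ) : ℝ) * Real.exp (-(3 / 4 * L)) := by linarith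
    calc 0.99 * (yr * yt) * pp n = yr * yt * pp n * 0.99 := by ring
      _ ≤ _ := by gcongr
  have hD : 0 < 1 - Real.exp (-η') := lt_of_lt_of_le (by positivity) g3
  have hU : zt / (1 - Real.exp (-η')) ≤ (1.01 * yt) / (0.99 * η) := by gcongr
  have hU0 : 0 ≤ zt / (1 - Real.exp (-η')) := by positivity
  have hB : ∑ s ∈ Icc t n, ((univ.filter (fun μ : n.Partition =>
      s ::ₘ r ::ₘ {t} ≤ μ.parts)).card : ℝ) ≤ 0.05 * (yr * yt) * pp n := by
    calc _ ≤ ∑ s ∈ Icc t n, zr * zt * pp n * Real.exp (-((s : ℝ) * η')) := by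
          refine Finset.sum_le_sum fun s _ => ?_
          have h8 := MU_count2 n (s ::ₘ r ::ₘ {t}) η' hup
          rw [Multiset.sum_cons, Multiset.sum_cons, Multiset.sum_singleton] at h8
          have : Real.exp (-(((s + (r + t) : ℕ) : ℝ) * η')) =
              zr * zt * Real.exp (-((s : ℝ) * η')) := by
            rw [hzrdef, hztdef, ← Real.exp_add, ← Real.exp_add]; congr 1; push_cast; ring
          rw [this] at h8
          calc _ ≤ _ := h8
            _ = _ := by ring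
      _ = zr * zt * pp n * ∑ s ∈ Icc t n, Real.exp (-((s : ℝ) * η')) := by
          rw [Finset.mul_sum]
      _ ≤ zr * zt * pp n * (zt / (1 - Real.exp (-η'))) := by
          have := MU_geom2 hη'pos t n
          gcongr
      _ ≤ (1.01 * yr) * (1.01 * yt) * pp n * ((1.01 * yt) / (0.99 * η)) := by
          gcongr
      _ = (1.01 * 1.01 * (1.01 / 0.99)) * (yr * yt * pp n) * (yt / η) := by
          field_simp
      _ ≤ (1.01 * 1.01 * (1.01 / 0.99)) * (yr * yt * pp n) * (1 / 800) := by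
          have h9 := hytu.trans h8L
          exact mul_le_mul_of_nonneg_left h9 (by positivity)
      _ = (1.01 * 1.01 * (1.01 / 0.99) / 800) * (yr * yt * pp n) := by ring
      _ ≤ 0.05 * (yr * yt * pp n) := by
          gcongr
          norm_num
      _ = _ := by ring
  linarith

theorem LB_pairY (h0 : DDc_stmt) (h1 : BD1_stmt) (h2 : BD2_stmt) (h4 : BD4_stmt) (hF : FQ_stmt)
    {L η C1 C2 : ℝ} {n r t : ℕ} (H : LB_data L η C1 C2 n r t) :
    0.5 * (r * Real.exp (-(r * η))) * pp n ≤ ((LB_Y n r t).card : ℝ) := by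
  obtain ⟨hη, hL, hyrt, hytu, h8L, hytsmall⟩ := LB_basic H
  have hLpos : 0 < L := by linarith
  have ht := H.ht
  have htr := H.htr
  have hr1 : 1 ≤ r := by omega
  have ht0 : (0 : ℝ) < t := by exact_mod_cast ht
  have hr0 : (0 : ℝ) < r := by exact_mod_cast hr1
  have hp := MU_pp_pos n
  obtain ⟨g1, g2, g3⟩ := B2_eta H.F
  have hup := H.hup
  have hpt := LB_prime H t (by push_cast; linarith)
  have hpr := LB_prime H r (by push_cast; linarith)
  set η' := η - C2 * Real.exp (-(3 / 4 * L)) with hη'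
  have hη'pos : 0 < η' := lt_of_lt_of_le (by positivity) g1
  set yt := Real.exp (-(t * η)) with hytdef
  set yr := Real.exp (-(r * η)) with hyrdef
  set zt := Real.exp (-(t * η')) with hztdef
  set zr := Real.exp (-(r * η')) with hzrdef
  have hyt0 : 0 < yt := Real.exp_pos _
  have hyr0 : 0 < yr := Real.exp_pos _
  have hzt0 : 0 < zt := Real.exp_pos _
  have hzr0 : 0 < zr := Real.exp_pos _
  have hztsmall : zt ≤ 0.001 := by linarith
  have hzrsmall : zr ≤ 0.001 := by linarith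
  have hprod' : Real.exp (-(((r + t : ℕ) : ℝ) * η')) = zr * zt := by
    rw [hzrdef, hztdef, ← Real.exp_add]; congr 1; push_cast; ring
  have hzz : zr * zt ≤ 1 / 2 := by
    calc zr * zt ≤ 0.001 * 0.001 := by gcongr
      _ ≤ _ := by norm_num
  have hcore := LB_core h0 h1 h2 h4 hF hr1 ht htr (by have := H.hrn; omega) hη'pos (by
    rw [hprod']; exact hzz) hup
  refine le_trans ?_ hcore
  have hlowr : 0.99 * ((r * yr) * pp n) ≤ (r : ℝ) * pp (n - r) := by
    have h5 := H.hlow r (by have := H.hrn; omega)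
    have h6 := LB_herr H r (by push_cast; linarith)
    have h7 : (0.99 : ℝ) ≤ 1 - C2 * (r : ℝ) * Real.exp (-(3 / 4 * L)) := by linarith
    have h8 : yr * pp n * 0.99 ≤ (pp (n - r) : ℝ) := by
      refine le_trans ?_ h5
      gcongr
    calc 0.99 * ((r * yr) * pp n) = r * (yr * pp n * 0.99) := by ring
      _ ≤ _ := by gcongr
  have hyt_nonneg : 0 ≤ yt / η := by positivity
  have hqt : t * yt ≤ 0.0875 := by
    have e : t * yt = (t * η) * (yt / η) := by field_simp
    rw [e]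
    calc (t * η) * (yt / η) ≤ (0.7 * L) * (1 / (8 * L)) :=
          mul_le_mul H.htL hytu hyt_nonneg (by positivity)
      _ = 0.0875 := by field_simp; norm_num
  have hyru : yr / η ≤ 1 / (8 * L) := by
    refine le_trans ?_ hytu
    gcongr
  have hyr_nonneg : 0 ≤ yr / η := by positivity
  have hqr : r * yr ≤ 0.1 := by
    have e : r * yr = (r * η) * (yr / η) := by field_simp
    rw [e]
    calc (r * η) * (yr / η) ≤ (0.8 * L) * (1 / (8 * L)) :=
          mul_le_mul H.hrL hyru hyr_nonneg (by positivity)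
      _ = 0.1 := by field_simp; norm_num
  have hq0 : 0 < r * yr := by positivity
  have hEt := LB_Esmall (s := t) hztsmall
  have hEr := LB_Esmall (s := r) hzrsmall
  have hEt0 := (LB_E_pos hη'pos ht).le
  have hEr0 := (LB_E_pos hη'pos hr1).le
  have hB1 : zr * zt * (r * t) * (1 + LB_E η' t + LB_E η' r) ≤ 0.0912 * (r * yr) := by
    calc zr * zt * (r * t) * (1 + LB_E η' t + LB_E η' r) ≤
          (1.01 * yr) * (1.01 * yt) * (r * t) * (1 + 0.01 + 0.01) := by gcongr
      _ = (1.01 * 1.01 * 1.02) * (r * yr) * (t * yt) := by ring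
      _ ≤ (1.01 * 1.01 * 1.02) * (r * yr) * 0.0875 :=
          mul_le_mul_of_nonneg_left hqt (by positivity)
      _ = (1.01 * 1.01 * 1.02 * 0.0875) * (r * yr) := by ring
      _ ≤ _ := by
          gcongr
          norm_num
  have hB2 : 2 * zr * ((r - t : ℕ) : ℝ) * (1 + LB_E η' (r - t)) ≤ 0.0815 * (r * yr) := by
    have hdd : 1 ≤ r - t := by omega
    have h5 := LB_Ed hη'pos hdd
    have h6 : 1 / η' ≤ 1.006 / η := by
      rw [div_le_div_iff₀ hη'pos hη]
      linarith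
    have hd := H.hd
    have h7 : ((r - t : ℕ) : ℝ) * (1 + LB_E η' (r - t)) ≤ 2.006 / η := by
      have : (2.006 : ℝ) / η = 1 / η + 1.006 / η := by ring
      linarith
    have h8 : yr / η ≤ (r * yr) * (2 / L) := by
      rw [div_le_iff₀ hη]
      have h9 := mul_le_mul_of_nonneg_left H.hrL2 (by positivity : 0 ≤ yr * (2 / L))
      calc yr = yr * (2 / L) * (L / 2) := by field_simp
        _ ≤ yr * (2 / L) * (r * η) := h9
        _ = _ := by ring
    have h9 : 0 ≤ ((r - t : ℕ) : ℝ) * (1 + LB_E η' (r - t)) := by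
      have := (LB_E_pos hη'pos hdd).le
      positivity
    have h10 : (2 : ℝ) / L ≤ 2 / 100 := by gcongr
    calc 2 * zr * ((r - t : ℕ) : ℝ) * (1 + LB_E η' (r - t)) =
          2 * zr * (((r - t : ℕ) : ℝ) * (1 + LB_E η' (r - t))) := by ring
      _ ≤ 2 * (1.01 * yr) * (2.006 / η) := by gcongr
      _ = (2 * 1.01 * 2.006) * (yr / η) := by ring
      _ ≤ (2 * 1.01 * 2.006) * ((r * yr) * (2 / L)) :=
          mul_le_mul_of_nonneg_left h8 (by norm_num)
      _ = (2 * 1.01 * 2.006) * (r * yr) * (2 / L) := by ring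
      _ ≤ (2 * 1.01 * 2.006) * (r * yr) * (2 / 100) :=
          mul_le_mul_of_nonneg_left h10 (by positivity)
      _ = (2 * 1.01 * 2.006 * (2 / 100)) * (r * yr) := by ring
      _ ≤ _ := by
          gcongr
          norm_num
  have hC : Real.exp (-(((2 * r : ℕ) : ℝ) * η')) * (r : ℝ) ^ 2 * (1 + 2 * LB_E η' r) ≤
      0.105 * (r * yr) := by
    have e : Real.exp (-(((2 * r : ℕ) : ℝ) * η')) = zr * zr := by
      rw [hzrdef, ← Real.exp_add]; congr 1; push_cast; ring
    rw [e]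
    calc zr * zr * (r : ℝ) ^ 2 * (1 + 2 * LB_E η' r) ≤
          (1.01 * yr) * (1.01 * yr) * (r : ℝ) ^ 2 * (1 + 2 * 0.01) := by gcongr
      _ = (1.01 * 1.01 * 1.02) * (r * yr) * (r * yr) := by ring
      _ ≤ (1.01 * 1.01 * 1.02) * (r * yr) * 0.1 :=
          mul_le_mul_of_nonneg_left hqr (by positivity)
      _ = (1.01 * 1.01 * 1.02 * 0.1) * (r * yr) := by ring
      _ ≤ _ := by
          gcongr
          norm_num
  unfold LB_B
  rw [hprod']
  have htot : 2 * (zr * zt * (r * t) * (1 + LB_E η' t + LB_E η' r) +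
      2 * zr * ((r - t : ℕ) : ℝ) * (1 + LB_E η' (r - t))) +
      Real.exp (-(((2 * r : ℕ) : ℝ) * η')) * (r : ℝ) ^ 2 * (1 + 2 * LB_E η' r) ≤
      0.4504 * (r * yr) := by linarith
  have h9 := mul_le_mul_of_nonneg_left htot hp.le
  have h10 : 0 < (r * yr) * pp n := by positivity
  have e9 : (pp n : ℝ) * (0.4504 * (r * yr)) = 0.4504 * ((r * yr) * pp n) := by ring
  rw [e9] at h9
  have e10 : 0.5 * (r * yr) * pp n = 0.5 * ((r * yr) * pp n) := by ring
  rw [e10]
  linarith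

theorem LB_ratio {η : ℕ → ℝ} {C : ℝ} {N0 : ℕ} (hP : PAx η C N0) {n : ℕ} (hn0 : N0 ≤ n) {L : ℝ}
    (hm34 : (n : ℝ) ^ (-(3 / 4) : ℝ) = Real.exp (-(3 / 4 * L))) :
    (∀ s ≤ n, Real.exp (-(s * η n)) * pp n * (1 - C * s * Real.exp (-(3 / 4 * L))) ≤
        (pp (n - s) : ℝ)) ∧
    ∀ k ≤ n, (pp (n - k) : ℝ) ≤
        Real.exp (-(k * (η n - C * Real.exp (-(3 / 4 * L))))) * pp n := by
  have hp := MU_pp_pos n
  constructor
  · intro s hs
    have := (abs_le.1 (hP.ratio n hn0 s hs)).1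
    rw [hm34] at this
    linarith
  · intro k hk
    have h5 := (abs_le.1 (hP.ratio n hn0 k hk)).2
    rw [hm34] at h5
    have h6 : (1 : ℝ) + C * k * Real.exp (-(3 / 4 * L)) ≤
        Real.exp (C * k * Real.exp (-(3 / 4 * L))) := by
      linarith [Real.add_one_le_exp (C * k * Real.exp (-(3 / 4 * L)))]
    have h7 : 0 < Real.exp (-(k * η n)) * pp n := by positivity
    calc (pp (n - k) : ℝ) ≤ (1 + C * k * Real.exp (-(3 / 4 * L))) *
          (Real.exp (-(k * η n)) * pp n) := by linarith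
      _ ≤ Real.exp (C * k * Real.exp (-(3 / 4 * L))) * (Real.exp (-(k * η n)) * pp n) := by
          gcongr
      _ = _ := by
          rw [← mul_assoc, ← Real.exp_add]
          congr 2
          ring

/-- the window: sizes -/
theorem LB_sizes {L η x : ℝ} {T i j t r : ℕ} (hL : 100 ≤ L) (hη : 0 < η) (hη2 : η ≤ 0.002)
    (hlow : Real.exp (-(L / 2)) / 2 ≤ η)
    (h16 : 16 * L ≤ Real.exp (0.1 * L)) (hx1 : x ≤ 0.6 * L)
    (hTη : (T : ℝ) * η ≤ x + η) (hTη2 : x ≤ (T : ℝ) * η)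
    (hic : (i : ℝ) ≤ 1 / η) (hjc : (j : ℝ) ≤ 1 / η) (ht : t = T + i) (hr : r = t + j) :
    x ≤ (t : ℝ) * η ∧ (t : ℝ) * η ≤ x + 1 + η ∧ x ≤ (r : ℝ) * η ∧ (r : ℝ) * η ≤ x + 2 + η ∧
    ((r + t : ℕ) : ℝ) ≤ Real.exp (L / 2) * L ^ 2 ∧ ((r + t : ℕ) : ℝ) ≤ Real.exp L := by
  have hLpos : 0 < L := by linarith
  have htc : (t : ℝ) = T + i := by rw [ht]; push_cast; ring
  have hrc : (r : ℝ) = t + j := by rw [hr]; push_cast; ring
  have hiη : (i : ℝ) * η ≤ 1 := by
    calc (i : ℝ) * η ≤ 1 / η * η := by gcongr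
      _ = 1 := by field_simp
  have hjη : (j : ℝ) * η ≤ 1 := by
    calc (j : ℝ) * η ≤ 1 / η * η := by gcongr
      _ = 1 := by field_simp
  have hi0 : (0 : ℝ) ≤ i := Nat.cast_nonneg _
  have hj0 : (0 : ℝ) ≤ j := Nat.cast_nonneg _
  have hii : 0 ≤ (i : ℝ) * η := by positivity
  have hjj : 0 ≤ (j : ℝ) * η := by positivity
  have htη : (t : ℝ) * η ≤ x + 1 + η := by rw [htc, add_mul]; linarith
  have htη2 : x ≤ (t : ℝ) * η := by rw [htc, add_mul]; linarith
  have hrη : (r : ℝ) * η ≤ x + 2 + η := by rw [hrc, add_mul]; linarith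
  have hrη2 : x ≤ (r : ℝ) * η := by rw [hrc, add_mul]; linarith
  have e3 : Real.exp (L / 2) * Real.exp (-(L / 2)) = 1 := by
    rw [← Real.exp_add]; simp
  have hrt : ((r + t : ℕ) : ℝ) ≤ 3 * L * Real.exp (L / 2) := by
    have h5 : (((r + t : ℕ) : ℝ)) * (Real.exp (-(L / 2)) / 2) ≤ 1.5 * L := by
      calc (((r + t : ℕ) : ℝ)) * (Real.exp (-(L / 2)) / 2) ≤ ((r + t : ℕ) : ℝ) * η := by
            gcongr
        _ = (r : ℝ) * η + (t : ℝ) * η := by push_cast; ring
        _ ≤ _ := by linarith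
    calc ((r + t : ℕ) : ℝ) = ((r + t : ℕ) : ℝ) * (Real.exp (L / 2) * Real.exp (-(L / 2))) := by
          rw [e3, mul_one]
      _ = (((r + t : ℕ) : ℝ) * (Real.exp (-(L / 2)) / 2)) * (2 * Real.exp (L / 2)) := by ring
      _ ≤ (1.5 * L) * (2 * Real.exp (L / 2)) := by gcongr
      _ = _ := by ring
  refine ⟨htη2, htη, hrη2, hrη, ?_, ?_⟩
  · refine hrt.trans ?_
    have : 3 * L ≤ L ^ 2 := by nlinarith
    calc 3 * L * Real.exp (L / 2) ≤ L ^ 2 * Real.exp (L / 2) := by gcongr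
      _ = _ := by ring
  · refine hrt.trans ?_
    have h5 : 3 * L ≤ Real.exp (0.1 * L) := by linarith
    have h6 : Real.exp (0.1 * L) * Real.exp (L / 2) = Real.exp (0.6 * L) := by
      rw [← Real.exp_add]; congr 1; ring
    calc 3 * L * Real.exp (L / 2) ≤ Real.exp (0.1 * L) * Real.exp (L / 2) := by gcongr
      _ = Real.exp (0.6 * L) := h6
      _ ≤ _ := Real.exp_le_exp.2 (by linarith)

/-- the window: one term -/
theorem LB_term {L η x p M Y r t : ℝ} (hL : 100 ≤ L) (hη : 0 < η) (hη2 : η ≤ 0.002)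
    (hp : 0 < p) (hexpx : Real.exp (-x) = η / (8 * L)) (hr0 : 0 < r)
    (ht2 : t * η ≤ x + 1 + η) (hr2 : r * η ≤ x + 2 + η) (hr3 : L / 2 ≤ r * η)
    (hM : 0.9 * (Real.exp (-(r * η)) * Real.exp (-(t * η))) * p ≤ M)
    (hY : 0.5 * (r * Real.exp (-(r * η))) * p ≤ Y) :
    0.45 * (η / (8 * L)) ^ 2 * (Real.exp (-6) / 16) * p ^ 2 ≤ M * Y := by
  have hLpos : 0 < L := by linarith
  have hL8 : 0 < η / (8 * L) := by positivity
  have hyt2 : η / (8 * L) * Real.exp (-1.1) ≤ Real.exp (-(t * η)) := by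
    rw [← hexpx, ← Real.exp_add]
    exact Real.exp_le_exp.2 (by linarith)
  have hyr2 : η / (8 * L) * Real.exp (-2.1) ≤ Real.exp (-(r * η)) := by
    rw [← hexpx, ← Real.exp_add]
    exact Real.exp_le_exp.2 (by linarith)
  have hqr2 : Real.exp (-2.1) / 16 ≤ r * Real.exp (-(r * η)) := by
    have h6 : L / 2 / η ≤ r := by
      rw [div_le_iff₀ hη]; exact hr3
    have h7 := mul_le_mul h6 hyr2 (by positivity) hr0.le
    have h8 : (L / 2 / η) * (η / (8 * L) * Real.exp (-2.1)) = Real.exp (-2.1) / 16 := by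
      field_simp; norm_num
    rwa [h8] at h7
  have hee : Real.exp (-6) ≤ Real.exp (-2.1) * Real.exp (-1.1) * Real.exp (-2.1) := by
    rw [← Real.exp_add, ← Real.exp_add]
    apply Real.exp_le_exp.2
    norm_num
  calc 0.45 * (η / (8 * L)) ^ 2 * (Real.exp (-6) / 16) * p ^ 2 ≤
        0.45 * (η / (8 * L)) ^ 2 *
          ((Real.exp (-2.1) * Real.exp (-1.1) * Real.exp (-2.1)) / 16) * p ^ 2 := by
        gcongr
    _ = (0.9 * ((η / (8 * L) * Real.exp (-2.1)) * (η / (8 * L) * Real.exp (-1.1))) * p) *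
          (0.5 * (Real.exp (-2.1) / 16) * p) := by ring
    _ ≤ (0.9 * (Real.exp (-(r * η)) * Real.exp (-(t * η))) * p) *
          (0.5 * (r * Real.exp (-(r * η))) * p) := by gcongr
    _ ≤ _ := mul_le_mul hM hY (by positivity) (le_trans (by positivity) hM)

/-- the last numerical step -/
theorem LB_last {L η p m2 S : ℝ} (hL : 100 ≤ L) (hη : 0 < η) (hp : 0 < p)
    (hm : 1 / (2 * η) * (1 / (2 * η)) ≤ m2)
    (hS : m2 * (0.45 * (η / (8 * L)) ^ 2 * (Real.exp (-6) / 16) * p ^ 2) ≤ S) :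
    Real.exp (-6) / 10000 / L ^ 2 ≤ S / p ^ 2 := by
  have hLpos : 0 < L := by linarith
  rw [le_div_iff₀ (by positivity)]
  refine le_trans ?_ hS
  have h5 : 0 < Real.exp (-6) / L ^ 2 * p ^ 2 := by positivity
  have e : 1 / (2 * η) * (1 / (2 * η)) *
      (0.45 * (η / (8 * L)) ^ 2 * (Real.exp (-6) / 16) * p ^ 2) =
      (0.45 / 4096) * (Real.exp (-6) / L ^ 2 * p ^ 2) := by
    field_simp
    ring
  calc Real.exp (-6) / 10000 / L ^ 2 * p ^ 2 =
        (1 / 10000) * (Real.exp (-6) / L ^ 2 * p ^ 2) := by ring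
    _ ≤ (0.45 / 4096) * (Real.exp (-6) / L ^ 2 * p ^ 2) :=
        mul_le_mul_of_nonneg_right (by norm_num) h5.le
    _ = _ := e.symm
    _ ≤ _ := by gcongr

/-- row LB -/
theorem row_LB (h0 : DDc_stmt) (h1 : BD1_stmt) (h2 : BD2_stmt) (h4 : BD4_stmt) (hF : FQ_stmt)
    (hP : PA_stmt) : ∃ c : ℝ, 0 < c ∧ ∃ N : ℕ, ∀ n ≥ N, c / (Real.log n) ^ 2 ≤ zII n - zI n := by
  obtain ⟨η, C, N0, hP⟩ := hP
  have hC := hP.hC
  refine ⟨Real.exp (-6) / 10000, by positivity, ?_⟩
  have hlog : Tendsto (fun n : ℕ => Real.log (n : ℝ)) atTop atTop :=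
    Real.tendsto_log_atTop.comp tendsto_natCast_atTop_atTop
  have hev := hlog.eventually (B2_facts_ev 1 C one_pos)
  have hev1 := hlog.eventually (B2_ev 16 1 (a := 0.1) (ε := 1) (by norm_num) (by norm_num))
  obtain ⟨N, hN⟩ := eventually_atTop.1 ((hev.and hev1).and
    ((eventually_ge_atTop N0).and (eventually_ge_atTop 1)))
  refine ⟨N, fun n hn => ?_⟩
  obtain ⟨⟨hfacts, h16⟩, hn0, hn1⟩ := hN n hn
  have hnpos : (0 : ℝ) < n := by exact_mod_cast hn1
  set L := Real.log (n : ℝ) with hLdef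
  have hexpL : Real.exp L = n := Real.exp_log hnpos
  have hsqrt : √(n : ℝ) = Real.exp (L / 2) := by
    rw [Real.sqrt_eq_rpow, Real.rpow_def_of_pos hnpos, ← hLdef]
    congr 1
    ring
  have hm34 : (n : ℝ) ^ (-(3 / 4) : ℝ) = Real.exp (-(3 / 4 * L)) := by
    rw [Real.rpow_def_of_pos hnpos, ← hLdef]
    congr 1
    ring
  have hlow : Real.exp (-(L / 2)) / 2 ≤ η n := by
    have := hP.low n hn0
    rw [hsqrt] at this
    have e : Real.exp (-(L / 2)) / 2 = 1 / (2 * Real.exp (L / 2)) := by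
      rw [Real.exp_neg]; field_simp
    rw [e]; exact this
  have hup : η n ≤ 2 * Real.exp (-(L / 2)) := by
    have := hP.up n hn0
    rw [hsqrt] at this
    have e : 2 * Real.exp (-(L / 2)) = 2 / Real.exp (L / 2) := by
      rw [Real.exp_neg]; field_simp
    rw [e]; exact this
  have F := hfacts (η n) hlow hup
  have hL := F.hL
  have hLpos : 0 < L := by linarith
  have hη : 0 < η n := lt_of_lt_of_le (by positivity) F.low
  have hη2 : η n ≤ 0.002 := by
    have := F.up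
    have := F.f10
    linarith
  have hp := MU_pp_pos n
  -- 16 L ≤ exp (L / 10)
  have h16' : 16 * L ≤ Real.exp (0.1 * L) := by
    have h5 : Real.exp (0.1 * L) * Real.exp (-(0.1 * L)) = 1 := by rw [← Real.exp_add]; simp
    have h6 := Real.exp_pos (0.1 * L)
    rw [pow_one] at h16
    calc 16 * L = 16 * L * (Real.exp (0.1 * L) * Real.exp (-(0.1 * L))) := by rw [h5, mul_one]
      _ = (16 * L * Real.exp (-(0.1 * L))) * Real.exp (0.1 * L) := by ring
      _ ≤ 1 * Real.exp (0.1 * L) := by gcongr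
      _ = _ := one_mul _
  -- the logarithm
  have h8 : 0 < 8 * L / η n := by positivity
  set x := Real.log (8 * L / η n) with hx
  have hx1 : x ≤ 0.6 * L := by
    rw [hx, Real.log_le_iff_le_exp h8, div_le_iff₀ hη]
    have e2 : Real.exp (L / 2) * Real.exp (-(L / 2)) = 1 := by
      rw [← Real.exp_add]; simp
    calc 8 * L = 8 * L * (Real.exp (L / 2) * Real.exp (-(L / 2))) := by rw [e2, mul_one]
      _ = (16 * L) * Real.exp (L / 2) * (Real.exp (-(L / 2)) / 2) := by ring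
      _ ≤ Real.exp (0.1 * L) * Real.exp (L / 2) * η n := by gcongr
      _ = Real.exp (0.6 * L) * η n := by
          rw [← Real.exp_add]; congr 2; ring
  have hx2 : L / 2 ≤ x := by
    rw [hx, Real.le_log_iff_exp_le h8, le_div_iff₀ hη]
    have e2 : Real.exp (L / 2) * Real.exp (-(L / 2)) = 1 := by
      rw [← Real.exp_add]; simp
    calc Real.exp (L / 2) * η n ≤ Real.exp (L / 2) * (2 * Real.exp (-(L / 2))) := by gcongr
      _ = 2 := by linarith
      _ ≤ _ := by linarith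
  have hexpx : Real.exp (-x) = η n / (8 * L) := by
    rw [Real.exp_neg, hx, Real.exp_log h8, inv_div]
  set T := ⌈x / η n⌉₊ with hT
  set m := ⌊1 / η n⌋₊ with hm
  have hT1 : x / η n ≤ T := Nat.le_ceil _
  have hT2 : (T : ℝ) ≤ x / η n + 1 := (Nat.ceil_lt_add_one (div_nonneg (by linarith) hη.le)).le
  have hm1 : (m : ℝ) ≤ 1 / η n := Nat.floor_le (by positivity)
  have hm2 : 1 / (2 * η n) ≤ (m : ℝ) := by
    have h5 := Nat.lt_floor_add_one (1 / η n)
    rw [← hm] at h5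
    have h6 : 1 / (2 * η n) + 1 ≤ 1 / η n := by
      have : (1 : ℝ) / η n = 1 / (2 * η n) + 1 / (2 * η n) := by field_simp; norm_num
      have h7 : 1 ≤ 1 / (2 * η n) := by
        rw [le_div_iff₀ (by positivity)]
        linarith
      linarith
    linarith
  set W : Finset (ℕ × ℕ) :=
    ((Icc 1 m) ×ˢ (Icc 1 m)).image (fun q : ℕ × ℕ => (T + q.1, T + q.1 + q.2)) with hW
  have hWc : W.card = m * m := LB_Icc_card
  have hWp : ∀ p ∈ W, ∃ i j : ℕ, 1 ≤ i ∧ i ≤ m ∧ 1 ≤ j ∧ j ≤ m ∧ p.1 = T + i ∧ p.2 = T + i + j := by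
    intro p hp
    rw [hW, Finset.mem_image] at hp
    obtain ⟨q, hq, rfl⟩ := hp
    rw [Finset.mem_product, Finset.mem_Icc, Finset.mem_Icc] at hq
    exact ⟨q.1, q.2, hq.1.1, hq.1.2, hq.2.1, hq.2.2, rfl, rfl⟩
  refine le_trans ?_ (LB_diff h1 n W ?_)
  swap
  · intro p hp
    obtain ⟨i, j, hi1, -, hj1, -, e1, e2⟩ := hWp p hp
    omega
  -- each term
  have hterm : ∀ p ∈ W, 0.45 * (η n / (8 * L)) ^ 2 * (Real.exp (-6) / 16) * (pp n : ℝ) ^ 2 ≤
      ((LB_M n p.2 p.1).card : ℝ) * (LB_Y n p.2 p.1).card := by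
    intro p hp
    obtain ⟨i, j, hi1, hi2, hj1, hj2, e1, e2⟩ := hWp p hp
    rw [e1, e2]
    set t := T + i with ht
    set r := t + j with hr
    have hic : (i : ℝ) ≤ 1 / η n := le_trans (by exact_mod_cast hi2) hm1
    have hjc : (j : ℝ) ≤ 1 / η n := le_trans (by exact_mod_cast hj2) hm1
    have hTη : (T : ℝ) * η n ≤ x + η n := by
      calc (T : ℝ) * η n ≤ (x / η n + 1) * η n := by gcongr
        _ = _ := by field_simp
    have hTη2 : x ≤ (T : ℝ) * η n := by
      calc x = x / η n * η n := by field_simp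
        _ ≤ _ := by gcongr
    obtain ⟨q1, q2, q3, q4, q5, q6⟩ := LB_sizes hL hη hη2 hlow h16' hx1 hTη hTη2 hic hjc ht hr
    have hyt : Real.exp (-(t * η n)) ≤ η n / (8 * L) := by
      rw [← hexpx]
      exact Real.exp_le_exp.2 (by linarith)
    have hrtn : r + t ≤ n := by
      rw [hexpL] at q6
      exact_mod_cast q6
    obtain ⟨hlow', hup'⟩ := LB_ratio hP hn0 hm34
    have hd : ((r - t : ℕ) : ℝ) ≤ 1 / η n := by
      have : r - t = j := by omega
      rw [this]; exact hjc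
    have H : LB_data L (η n) 1 C n r t := ⟨F, hC, by omega, by omega, hrtn, q5, hyt, by linarith,
      by linarith, hx2.trans q3, hd, hlow', hup'⟩
    have hM := LB_pairM H
    have hY := LB_pairY h0 h1 h2 h4 hF H
    have hr0 : (0 : ℝ) < r := by
      have : 0 < r := by omega
      exact_mod_cast this
    exact LB_term hL hη hη2 (MU_pp_pos n) hexpx hr0 q2 q4 (hx2.trans q3) hM hY
  have hsum := Finset.card_nsmul_le_sum W _ _ hterm
  rw [nsmul_eq_mul, hWc] at hsum
  have hmm : 1 / (2 * η n) * (1 / (2 * η n)) ≤ ((m * m : ℕ) : ℝ) := by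
    push_cast
    gcongr
  exact LB_last hL hη hp hmm hsum

/-- type II pairs are stuck within one step -/
theorem zII_le_zS {k : ℕ} (hk : 1 ≤ k) (n : ℕ) : zII n ≤ zS k n := by
  classical
  have hp := MU_pp_pos n
  unfold zII zS
  refine div_le_div_of_nonneg_right ?_ (sq_nonneg _)
  rw [LB_set n (fun Y μ => IsTypeII Y μ), LB_set n (fun Y μ => Stuck k Y μ), Set.ncard_coe_finset,
    Set.ncard_coe_finset]
  refine Nat.cast_le.2 (Finset.card_le_card ?_)
  intro P hP
  rw [Finset.mem_filter] at hP ⊢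
  refine ⟨hP.1, ?_⟩
  obtain ⟨t, ht, hc⟩ := hP.2
  refine ⟨[t], by simpa using hk, by simpa using ht, ?_⟩
  rintro ⟨Y', ⟨i, j, hij, hh, -⟩, -⟩
  exact hc i j hij (by rw [hh])

end ZT68
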