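/-
MP_1882ea_al, helper68.  Row LE: Lefschetz nonvanishing.
-/
import Mathlib
import Pool.Agent.Lib.ZT68.Chi

namespace ZT68

open Finset Function

section
variable {N : ℕ}

/-- move a bead from `x` to `y` -/
def LE_E (y x : ℕ) (f : (Fin N → ℕ) → ℤ) : (Fin N → ℕ) → ℤ :=
  fun b => ∑ j, if b j = y then f (update b j x) else 0

/-- number of beads at `x` -/
def LE_n (x : ℕ) (b : Fin N → ℕ) : ℤ := ∑ j, if b j = x then 1 else 0

def LE_box (N R : ℕ) : Finset (Fin N → ℕ) := Fintype.piFinset (fun _ => range R)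

def LE_ip (R : ℕ) (f g : (Fin N → ℕ) → ℤ) : ℤ := ∑ b ∈ LE_box N R, f b * g b

theorem LE_mem_box {R : ℕ} {b : Fin N → ℕ} : b ∈ LE_box N R ↔ ∀ j, b j < R := by
  simp [LE_box, Fintype.mem_piFinset]

theorem LE_adj (R y x : ℕ) (hy : y < R) (hx : x < R) (f g : (Fin N → ℕ) → ℤ) :
    LE_ip R (LE_E y x f) g = LE_ip R f (LE_E x y g) := by
  unfold LE_ip LE_E
  simp_rw [Finset.sum_mul, Finset.mul_sum]
  rw [Finset.sum_comm]
  conv_rhs => rw [Finset.sum_comm]
  apply Finset.sum_congr rfl
  intro j _
  have l : ∑ b ∈ LE_box N R, (if b j = y then f (update b j x) else 0) * g b =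
      ∑ b ∈ (LE_box N R).filter (fun b => b j = y), f (update b j x) * g b := by
    rw [Finset.sum_filter]
    apply Finset.sum_congr rfl
    intro b _
    split_ifs <;> simp
  have l' : ∑ b ∈ LE_box N R, f b * (if b j = x then g (update b j y) else 0) =
      ∑ b ∈ (LE_box N R).filter (fun b => b j = x), f b * g (update b j y) := by
    rw [Finset.sum_filter]
    apply Finset.sum_congr rfl
    intro b _
    split_ifs <;> simp
  rw [l, l']
  refine Finset.sum_nbij' (fun b => update b j x) (fun b => update b j y) ?_ ?_ ?_ ?_ ?_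
  · intro b hb
    simp only [Finset.mem_filter, LE_mem_box, update_self, and_true] at hb ⊢
    intro l
    by_cases h : l = j
    · subst h; simpa using hx
    · rw [update_of_ne h]; exact hb.1 l
  · intro b hb
    simp only [Finset.mem_filter, LE_mem_box, update_self, and_true] at hb ⊢
    intro l
    by_cases h : l = j
    · subst h; simpa using hy
    · rw [update_of_ne h]; exact hb.1 l
  · intro b hb
    simp only [Finset.mem_filter] at hb
    simp only [update_idem]
    rw [← hb.2, update_eq_self]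
  · intro b hb
    simp only [Finset.mem_filter] at hb
    simp only [update_idem]
    rw [← hb.2, update_eq_self]
  · intro b hb
    simp only [Finset.mem_filter] at hb
    simp only [update_idem]
    congr 2
    rw [← hb.2, update_eq_self]

theorem LE_comm (x y x' y' : ℕ) (hx : x ≠ x') (hy : y ≠ y') (f : (Fin N → ℕ) → ℤ) :
    LE_E x' y' (LE_E y x f) = LE_E y x (LE_E x' y' f) := by
  funext b
  unfold LE_E
  have e1 : ∀ i : Fin N, (if b i = x' then ∑ j, (if (update b i y') j = y then
      f (update (update b i y') j x) else 0) else 0) =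
      ∑ j, (if b i = x' then (if (update b i y') j = y then
        f (update (update b i y') j x) else 0) else 0) := by
    intro i
    split_ifs with h
    · rfl
    · simp
  have e2 : ∀ j : Fin N, (if b j = y then ∑ i, (if (update b j x) i = x' then
      f (update (update b j x) i y') else 0) else 0) =
      ∑ i, (if b j = y then (if (update b j x) i = x' then
        f (update (update b j x) i y') else 0) else 0) := by
    intro i
    split_ifs with h
    · rfl
    · simp
  simp_rw [e1, e2]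
  rw [Finset.sum_comm]
  apply Finset.sum_congr rfl
  intro j _
  apply Finset.sum_congr rfl
  intro i _
  by_cases hij : i = j
  · subst hij
    simp only [update_self]
    rw [if_neg hy.symm, if_neg hx]
    simp
  · rw [update_of_ne (Ne.symm hij), update_of_ne hij, update_comm (Ne.symm hij)]
    by_cases h1 : b i = x' <;> by_cases h2 : b j = y <;> simp [h1, h2]

theorem LE_swap (b : Fin N → ℕ) (i j : Fin N) (hij : i ≠ j) :
    update (update b i (b j)) j (b i) = b ∘ Equiv.swap i j := by
  funext l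
  simp only [comp_apply]
  by_cases h1 : l = j
  · subst h1
    simp
  · rw [update_of_ne h1]
    by_cases h2 : l = i
    · subst h2
      simp
    · rw [update_of_ne h2, Equiv.swap_apply_of_ne_of_ne h2 h1]

theorem LE_same (x y : ℕ) (hxy : x ≠ y) (f : (Fin N → ℕ) → ℤ) (hf : Alt f) (b : Fin N → ℕ) :
    LE_E x y (LE_E y x f) b = LE_n x b * f b - LE_n x b * LE_n y b * f b := by
  unfold LE_E LE_n
  have e1 : ∀ i : Fin N, (if b i = x then ∑ j, (if (update b i y) j = y then
      f (update (update b i y) j x) else 0) else 0) =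
      ∑ j, ((if i = j then (if b i = x then (1 : ℤ) else 0) else 0) * f b -
        (if b i = x then (1 : ℤ) else 0) * (if b j = y then (1 : ℤ) else 0) * f b) := by
    intro i
    by_cases h : b i = x
    · rw [if_pos h, if_pos h]
      apply Finset.sum_congr rfl
      intro j _
      by_cases hij : i = j
      · subst hij
        have hne : b i ≠ y := by rw [h]; exact hxy
        rw [if_pos (by simp), if_pos rfl, if_neg hne, update_idem, ← h, update_eq_self]
        ring
      · rw [update_of_ne (Ne.symm hij), if_neg hij]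
        by_cases h2 : b j = y
        · rw [if_pos h2, if_pos h2, ← h, ← h2, LE_swap b i j hij, hf b i j hij]
          ring
        · rw [if_neg h2, if_neg h2]
          ring
    · rw [if_neg h, if_neg h]
      simp
  simp_rw [e1, Finset.sum_sub_distrib]
  have e2 : ∑ i : Fin N, ∑ j : Fin N, (if i = j then (if b i = x then (1 : ℤ) else 0) else 0) * f b =
      (∑ i : Fin N, (if b i = x then (1 : ℤ) else 0)) * f b := by
    rw [Finset.sum_mul]
    apply Finset.sum_congr rfl
    intro i _
    rw [← Finset.sum_mul]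
    congr 1
    simp
  rw [e2]
  congr 1
  rw [Finset.sum_mul_sum, Finset.sum_mul]
  apply Finset.sum_congr rfl
  intro i _
  rw [Finset.sum_mul]

theorem LE_E_alt (y x : ℕ) (f : (Fin N → ℕ) → ℤ) (hf : Alt f) : Alt (LE_E y x f) := by
  intro b i j hij
  unfold LE_E
  rw [← Finset.sum_neg_distrib]
  refine Finset.sum_nbij' (fun l => Equiv.swap i j l) (fun l => Equiv.swap i j l)
    (fun _ _ => Finset.mem_univ _) (fun _ _ => Finset.mem_univ _) (fun l _ => by simp)
    (fun l _ => by simp) ?_
  intro l _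
  simp only [comp_apply]
  have e : update (b ∘ Equiv.swap i j) l x = (update b (Equiv.swap i j l) x) ∘ Equiv.swap i j := by
    funext m
    simp only [comp_apply]
    by_cases h : m = l
    · subst h; simp
    · rw [update_of_ne h, update_of_ne (fun h' => h (by simpa using h'))]
      rfl
  rw [e, hf _ i j hij]
  split_ifs <;> simp

/-- the sum of the moves at the positions in `H` -/
def LE_D (H : Finset ℕ) (r : ℕ) (f : (Fin N → ℕ) → ℤ) : (Fin N → ℕ) → ℤ :=
  fun b => ∑ x ∈ H, LE_E (x - r) x f b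

def LE_Ds (H : Finset ℕ) (r : ℕ) (f : (Fin N → ℕ) → ℤ) : (Fin N → ℕ) → ℤ :=
  fun b => ∑ x ∈ H, LE_E x (x - r) f b

theorem LE_E_sum (y x : ℕ) (H : Finset ℕ) (F : ℕ → (Fin N → ℕ) → ℤ) :
    LE_E y x (fun b => ∑ z ∈ H, F z b) = fun b => ∑ z ∈ H, LE_E y x (F z) b := by
  funext b
  unfold LE_E
  rw [Finset.sum_comm]
  apply Finset.sum_congr rfl
  intro j _
  split_ifs
  · rfl
  · simp

theorem LE_D_ip (R r : ℕ) (H : Finset ℕ) (hH : ∀ x ∈ H, x < R) (f g : (Fin N → ℕ) → ℤ) :
    LE_ip R (LE_D H r f) g = LE_ip R f (LE_Ds H r g) := by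
  have h1 : LE_ip R (LE_D H r f) g = ∑ x ∈ H, LE_ip R (LE_E (x - r) x f) g := by
    unfold LE_ip LE_D
    rw [Finset.sum_comm]
    apply Finset.sum_congr rfl
    intro b _
    rw [Finset.sum_mul]
  have h2 : LE_ip R f (LE_Ds H r g) = ∑ x ∈ H, LE_ip R f (LE_E x (x - r) g) := by
    unfold LE_ip LE_Ds
    rw [Finset.sum_comm]
    apply Finset.sum_congr rfl
    intro b _
    rw [Finset.mul_sum]
  rw [h1, h2]
  apply Finset.sum_congr rfl
  intro x hx
  exact LE_adj R (x - r) x (lt_of_le_of_lt (Nat.sub_le x r) (hH x hx)) (hH x hx) f g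

theorem LE_commutator (r : ℕ) (hr : 1 ≤ r) (H : Finset ℕ) (hH : ∀ x ∈ H, r ≤ x)
    (f : (Fin N → ℕ) → ℤ) (hf : Alt f) (b : Fin N → ℕ) :
    LE_Ds H r (LE_D H r f) b = LE_D H r (LE_Ds H r f) b +
      (∑ x ∈ H, (LE_n x b - LE_n (x - r) b)) * f b := by
  have h1 : LE_Ds H r (LE_D H r f) b = ∑ x ∈ H, ∑ z ∈ H, LE_E x (x - r) (LE_E (z - r) z f) b := by
    unfold LE_Ds
    apply Finset.sum_congr rfl
    intro x _
    have : LE_D H r f = fun b => ∑ z ∈ H, LE_E (z - r) z f b := rfl
    rw [this, LE_E_sum]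
  have h2 : LE_D H r (LE_Ds H r f) b = ∑ x ∈ H, ∑ z ∈ H, LE_E (z - r) z (LE_E x (x - r) f) b := by
    rw [Finset.sum_comm]
    unfold LE_D
    apply Finset.sum_congr rfl
    intro x _
    have : LE_Ds H r f = fun b => ∑ z ∈ H, LE_E z (z - r) f b := rfl
    rw [this, LE_E_sum]
  rw [h1, h2, Finset.sum_mul, ← Finset.sum_add_distrib]
  apply Finset.sum_congr rfl
  intro x hx
  have e : ∑ z ∈ H, (if z = x then (LE_n x b - LE_n (x - r) b) * f b else 0) =
      (LE_n x b - LE_n (x - r) b) * f b := by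
    rw [Finset.sum_ite_eq' H x, if_pos hx]
  rw [← e, ← Finset.sum_add_distrib]
  apply Finset.sum_congr rfl
  intro z hz
  have hx1 := hH x hx
  have hz1 := hH z hz
  by_cases hzx : z = x
  · subst hzx
    rw [if_pos rfl]
    have hne : z ≠ z - r := by omega
    rw [LE_same z (z - r) hne f hf b, LE_same (z - r) z hne.symm f hf b]
    ring
  · rw [if_neg hzx, add_zero]
    have := LE_comm z (z - r) x (x - r) hzx (by omega) f
    rw [this]

theorem LE_norm (R r : ℕ) (hr : 1 ≤ r) (H : Finset ℕ) (hH : ∀ x ∈ H, r ≤ x) (hR : ∀ x ∈ H, x < R)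
    (f : (Fin N → ℕ) → ℤ) (hf : Alt f) :
    LE_ip R (LE_D H r f) (LE_D H r f) = LE_ip R (LE_Ds H r f) (LE_Ds H r f) +
      ∑ b ∈ LE_box N R, (∑ x ∈ H, (LE_n x b - LE_n (x - r) b)) * f b ^ 2 := by
  rw [LE_D_ip R r H hR]
  have h2 : LE_ip R (LE_Ds H r f) (LE_Ds H r f) = LE_ip R f (LE_D H r (LE_Ds H r f)) := by
    have h3 : ∀ u v : (Fin N → ℕ) → ℤ, LE_ip R u v = LE_ip R v u := by
      intro u v
      unfold LE_ip
      exact Finset.sum_congr rfl (fun b _ => mul_comm _ _)
    rw [h3 f, LE_D_ip R r H hR]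
  rw [h2]
  unfold LE_ip
  rw [← Finset.sum_add_distrib]
  apply Finset.sum_congr rfl
  intro b _
  rw [LE_commutator r hr H hH f hf b]
  ring


theorem LE_inj {f : (Fin N → ℕ) → ℤ} (hf : Alt f) {b : Fin N → ℕ} (hb : f b ≠ 0) : Injective b := by
  intro i j hij
  by_contra hne
  apply hb
  have h1 := hf b i j hne
  have h2 : b ∘ Equiv.swap i j = b := by
    funext l
    simp only [comp_apply]
    by_cases hi : l = i
    · subst hi; simp [hij]
    · by_cases hj : l = j
      · subst hj; simp [hij]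
      · rw [Equiv.swap_apply_of_ne_of_ne hi hj]
  rw [h2] at h1
  omega

/-- number of beads of `γ` which `b` lost -/
def LE_dist (γ b : Fin N → ℕ) : ℕ := ((univ.image γ) \ (univ.image b)).card

/-- positions of the hooks of `γ` -/
def LE_H (γ : Fin N → ℕ) (r : ℕ) : Finset ℕ :=
  (Finset.univ.filter (fun i : Fin N => r ≤ γ i ∧ ∀ l : Fin N, γ l ≠ γ i - r)).image γ

theorem LE_H_card {γ : Fin N → ℕ} (hγ : Injective γ) (r : ℕ) : (LE_H γ r).card = HH γ r := by
  unfold LE_H HH
  rw [Finset.card_image_of_injective _ hγ]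

theorem LE_mem_H {γ : Fin N → ℕ} {r x : ℕ} :
    x ∈ LE_H γ r ↔ x ∈ univ.image γ ∧ r ≤ x ∧ x - r ∉ univ.image γ := by
  unfold LE_H
  simp only [Finset.mem_image, Finset.mem_filter, Finset.mem_univ, true_and, not_exists]
  constructor
  · rintro ⟨i, ⟨h1, h2⟩, rfl⟩
    exact ⟨⟨i, rfl⟩, h1, h2⟩
  · rintro ⟨⟨i, rfl⟩, h1, h2⟩
    exact ⟨i, ⟨h1, h2⟩, rfl⟩

theorem LE_h_lower {γ b : Fin N → ℕ} (hγ : Injective γ) (hb : Injective b) (r : ℕ) :
    (HH γ r : ℤ) - 2 * LE_dist γ b ≤ ∑ x ∈ LE_H γ r, (LE_n x b - LE_n (x - r) b) := by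
  rw [Finset.sum_sub_distrib]
  have h1 : (HH γ r : ℤ) - LE_dist γ b ≤ ∑ x ∈ LE_H γ r, LE_n x b := by
    have hn : ∀ x ∈ LE_H γ r, (if x ∈ univ.image b then (1 : ℤ) else 0) ≤ LE_n x b := by
      intro x _
      unfold LE_n
      split_ifs with h
      · obtain ⟨l, _, hl⟩ := Finset.mem_image.1 h
        have := Finset.single_le_sum (f := fun j => if b j = x then (1 : ℤ) else 0)
          (fun j _ => by split_ifs <;> norm_num) (Finset.mem_univ l)
        simpa only [hl, if_true] using this
      · exact Finset.sum_nonneg (fun j _ => by split_ifs <;> norm_num)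
    refine le_trans ?_ (Finset.sum_le_sum hn)
    rw [Finset.sum_boole]
    have h2 := Finset.card_filter_add_card_filter_not (s := LE_H γ r) (fun x => x ∈ univ.image b)
    have h3 : ((LE_H γ r).filter (fun x => ¬ x ∈ univ.image b)).card ≤ LE_dist γ b := by
      unfold LE_dist
      apply Finset.card_le_card
      intro x hx
      rw [Finset.mem_filter, LE_mem_H] at hx
      rw [Finset.mem_sdiff]
      exact ⟨hx.1.1, hx.2⟩
    rw [LE_H_card hγ] at h2
    have h4 : (HH γ r : ℤ) = ((LE_H γ r).filter (fun x => x ∈ univ.image b)).card +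
        ((LE_H γ r).filter (fun x => ¬ x ∈ univ.image b)).card := by exact_mod_cast h2.symm
    have h5 : (((LE_H γ r).filter (fun x => ¬ x ∈ univ.image b)).card : ℤ) ≤ LE_dist γ b := by
      exact_mod_cast h3
    linarith
  have h2 : ∑ x ∈ LE_H γ r, LE_n (x - r) b ≤ LE_dist γ b := by
    unfold LE_n
    rw [Finset.sum_comm]
    have h3 : ∀ l : Fin N, ∑ x ∈ LE_H γ r, (if b l = x - r then (1 : ℤ) else 0) ≤
        if b l ∉ univ.image γ then (1 : ℤ) else 0 := by
      intro l
      rw [Finset.sum_boole]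
      have h4 : ((LE_H γ r).filter (fun x => b l = x - r)).card ≤ 1 := by
        rw [Finset.card_le_one]
        intro x hx y hy
        rw [Finset.mem_filter, LE_mem_H] at hx hy
        have := hx.2
        have := hy.2
        have := hx.1.2.1
        have := hy.1.2.1
        omega
      by_cases h : b l ∉ univ.image γ
      · rw [if_pos h]
        exact_mod_cast h4
      · rw [if_neg h]
        push Not at h
        have h5 : (LE_H γ r).filter (fun x => b l = x - r) = ∅ := by
          rw [Finset.filter_eq_empty_iff]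
          intro x hx hxl
          rw [LE_mem_H] at hx
          apply hx.2.2
          rw [← hxl]
          exact h
        rw [h5]; simp
    refine (Finset.sum_le_sum (fun l _ => h3 l)).trans ?_
    rw [Finset.sum_boole]
    have h4 : (univ.filter (fun l => b l ∉ univ.image γ)).card = LE_dist γ b := by
      unfold LE_dist
      have h5 : ((univ.image γ) \ (univ.image b)).card = ((univ.image b) \ (univ.image γ)).card := by
        apply Finset.card_sdiff_comm
        rw [Finset.card_image_of_injective _ hγ, Finset.card_image_of_injective _ hb]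
      rw [h5]
      have h6 : (univ.image b) \ (univ.image γ) = (univ.filter (fun l => b l ∉ univ.image γ)).image b := by
        ext x
        simp only [Finset.mem_sdiff, Finset.mem_image, Finset.mem_filter, Finset.mem_univ, true_and]
        constructor
        · rintro ⟨⟨l, rfl⟩, h⟩
          exact ⟨l, h, rfl⟩
        · rintro ⟨l, h, rfl⟩
          exact ⟨⟨l, rfl⟩, h⟩
      rw [h6, Finset.card_image_of_injective _ hb]
    rw [h4]
  linarith

/-- the effect of one move on the distance -/
theorem LE_move {γ b : Fin N → ℕ} (hb : Injective b) {r : ℕ} (hr : 1 ≤ r) (j : Fin N)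
    (hb' : Injective (update b j (b j + r))) :
    (b j + r ∈ LE_H γ r ∧ LE_dist γ b = LE_dist γ (update b j (b j + r)) + 1) ∨
      (b j + r ∉ LE_H γ r ∧ LE_dist γ b ≤ LE_dist γ (update b j (b j + r))) := by
  set x := b j + r with hx
  set b' := update b j x with hb'def
  set A := univ.image γ with hA
  set B := univ.image b with hB
  set B' := univ.image b' with hB'
  have hyB : b j ∈ B := by rw [hB]; exact Finset.mem_image_of_mem _ (Finset.mem_univ _)
  have hxB : x ∉ B := by
    intro h
    obtain ⟨l, _, hl⟩ := Finset.mem_image.1 h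
    have hlj : l ≠ j := by
      intro e
      rw [e] at hl
      omega
    have : b' l = b' j := by
      rw [hb'def, update_of_ne hlj, update_self, hl]
    exact hlj (hb' this)
  have hB'eq : B' = insert x (B.erase (b j)) := by
    ext z
    rw [hB', Finset.mem_image, Finset.mem_insert, Finset.mem_erase, hB, Finset.mem_image]
    constructor
    · rintro ⟨l, _, rfl⟩
      by_cases h : l = j
      · subst h; left; rw [hb'def, update_self]
      · right
        rw [hb'def, update_of_ne h]
        exact ⟨fun e => h (hb e), l, Finset.mem_univ _, rfl⟩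
    · rintro (rfl | ⟨h1, l, _, rfl⟩)
      · exact ⟨j, Finset.mem_univ _, by rw [hb'def, update_self]⟩
      · have h : l ≠ j := fun e => h1 (by rw [e])
        exact ⟨l, Finset.mem_univ _, by rw [hb'def, update_of_ne h]⟩
  have hH : x ∈ LE_H γ r ↔ x ∈ A ∧ b j ∉ A := by
    rw [LE_mem_H]
    have e1 : x - r = b j := by omega
    have e2 : r ≤ x := by omega
    rw [e1]
    simp only [e2, true_and]
    rfl
  have hd : LE_dist γ b = (A \ B).card := rfl
  have hd' : LE_dist γ b' = (A \ B').card := rfl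
  by_cases h1 : x ∈ A ∧ b j ∉ A
  · left
    refine ⟨hH.2 h1, ?_⟩
    rw [hd, hd']
    have e : A \ B = insert x (A \ B') := by
      ext z
      rw [Finset.mem_insert, Finset.mem_sdiff, Finset.mem_sdiff, hB'eq, Finset.mem_insert,
        Finset.mem_erase]
      constructor
      · rintro ⟨hz1, hz2⟩
        by_cases hzx : z = x
        · exact Or.inl hzx
        · right
          refine ⟨hz1, ?_⟩
          rintro (h | ⟨_, h⟩)
          · exact hzx h
          · exact hz2 h
      · rintro (rfl | ⟨hz1, hz2⟩)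
        · exact ⟨h1.1, hxB⟩
        · refine ⟨hz1, fun h => hz2 (Or.inr ⟨?_, h⟩)⟩
          intro e
          rw [e] at hz1
          exact h1.2 hz1
    have hxn : x ∉ A \ B' := by
      rw [Finset.mem_sdiff, hB'eq]
      simp
    rw [e, Finset.card_insert_of_notMem hxn]
  · right
    refine ⟨fun h => h1 (hH.1 h), ?_⟩
    rw [hd, hd']
    by_cases h2 : x ∈ A
    · -- then b j ∈ A
      have h3 : b j ∈ A := by
        by_contra h
        exact h1 ⟨h2, h⟩
      have hsub : insert (b j) ((A \ B).erase x) ⊆ A \ B' := by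
        intro z hz
        rw [Finset.mem_insert, Finset.mem_erase, Finset.mem_sdiff] at hz
        rw [Finset.mem_sdiff, hB'eq, Finset.mem_insert, Finset.mem_erase]
        rcases hz with rfl | ⟨hz1, hz2, hz3⟩
        · refine ⟨h3, ?_⟩
          rintro (h | ⟨h, _⟩)
          · omega
          · exact h rfl
        · refine ⟨hz2, ?_⟩
          rintro (h | ⟨_, h⟩)
          · exact hz1 h
          · exact hz3 h
      have hc := Finset.card_le_card hsub
      have hn : b j ∉ (A \ B).erase x := by
        rw [Finset.mem_erase, Finset.mem_sdiff]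
        exact fun h => h.2.2 hyB
      have hxm : x ∈ A \ B := by
        rw [Finset.mem_sdiff]; exact ⟨h2, hxB⟩
      rw [Finset.card_insert_of_notMem hn, Finset.card_erase_of_mem hxm] at hc
      have : 0 < (A \ B).card := Finset.card_pos.2 ⟨x, hxm⟩
      omega
    · apply Finset.card_le_card
      intro z hz
      rw [Finset.mem_sdiff] at hz
      rw [Finset.mem_sdiff, hB'eq, Finset.mem_insert, Finset.mem_erase]
      refine ⟨hz.1, ?_⟩
      rintro (h | ⟨_, h⟩)
      · rw [h] at hz; exact h2 hz.1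
      · exact hz.2 h

theorem LE_dist_perm (γ b : Fin N → ℕ) (i j : Fin N) :
    LE_dist γ (b ∘ Equiv.swap i j) = LE_dist γ b := by
  unfold LE_dist
  have : univ.image (b ∘ Equiv.swap i j) = univ.image b := by
    ext z
    simp only [Finset.mem_image, Finset.mem_univ, true_and, comp_apply]
    constructor
    · rintro ⟨l, rfl⟩; exact ⟨_, rfl⟩
    · rintro ⟨l, rfl⟩; exact ⟨Equiv.swap i j l, by simp⟩
  rw [this]

/-- the part at distance `i` -/
def LE_top (γ : Fin N → ℕ) (i : ℕ) (f : (Fin N → ℕ) → ℤ) : (Fin N → ℕ) → ℤ :=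
  fun b => if LE_dist γ b = i then f b else 0

theorem LE_top_alt (γ : Fin N → ℕ) (i : ℕ) (f : (Fin N → ℕ) → ℤ) (hf : Alt f) :
    Alt (LE_top γ i f) := by
  intro b k l hkl
  unfold LE_top
  rw [LE_dist_perm, hf b k l hkl]
  split_ifs <;> simp

theorem LE_D_alt (H : Finset ℕ) (r : ℕ) (f : (Fin N → ℕ) → ℤ) (hf : Alt f) : Alt (LE_D H r f) := by
  intro b i j hij
  unfold LE_D
  rw [← Finset.sum_neg_distrib]
  exact Finset.sum_congr rfl (fun x _ => LE_E_alt (x - r) x f hf b i j hij)

theorem LE_D_eq (γ : Fin N → ℕ) (r : ℕ) (g : (Fin N → ℕ) → ℤ) (b : Fin N → ℕ) :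
    LE_D (LE_H γ r) r g b = ∑ j, if b j + r ∈ LE_H γ r then g (update b j (b j + r)) else 0 := by
  unfold LE_D LE_E
  rw [Finset.sum_comm]
  apply Finset.sum_congr rfl
  intro j _
  have h : ∀ x ∈ LE_H γ r, (if b j = x - r then g (update b j x) else 0) =
      (if x = b j + r then g (update b j x) else 0) := by
    intro x hx
    rw [LE_mem_H] at hx
    have : b j = x - r ↔ x = b j + r := by omega
    simp only [this]
  rw [Finset.sum_congr rfl h, Finset.sum_ite_eq' (LE_H γ r) (b j + r)]

theorem LE_step (hA : FA_stmt) (γ : Fin N → ℕ) (r : ℕ) (hr : 1 ≤ r) (i : ℕ)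
    (f : (Fin N → ℕ) → ℤ) (hf : Alt f) (hd : ∀ b, f b ≠ 0 → LE_dist γ b ≤ i) :
    (∀ b, AA r f b ≠ 0 → LE_dist γ b ≤ i + 1) ∧
    LE_top γ (i + 1) (AA r f) = LE_D (LE_H γ r) r (LE_top γ i f) := by
  have hA1 := hA.alt_AA N r f hf
  constructor
  · intro b hb
    have hbi := LE_inj hA1 hb
    obtain ⟨j, _, hj⟩ := Finset.exists_ne_zero_of_sum_ne_zero hb
    have hb' := LE_inj hf hj
    have h1 := hd _ hj
    rcases LE_move (γ := γ) hbi hr j hb' with ⟨_, h2⟩ | ⟨_, h2⟩ <;> omega
  · funext b
    by_cases hbi : Injective b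
    · rw [LE_D_eq]
      unfold LE_top AA
      have e : (if LE_dist γ b = i + 1 then ∑ j, f (update b j (b j + r)) else 0) =
          ∑ j, (if LE_dist γ b = i + 1 then f (update b j (b j + r)) else 0) := by
        split_ifs
        · rfl
        · simp
      rw [e]
      apply Finset.sum_congr rfl
      intro j _
      by_cases hj : f (update b j (b j + r)) = 0
      · rw [hj]
        split_ifs <;> rfl
      · have hb' := LE_inj hf hj
        have h1 := hd _ hj
        rcases LE_move (γ := γ) hbi hr j hb' with ⟨h3, h2⟩ | ⟨h3, h2⟩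
        · rw [if_pos h3]
          by_cases h4 : LE_dist γ b = i + 1
          · rw [if_pos h4, if_pos (by omega)]
          · rw [if_neg h4, if_neg (by omega)]
        · rw [if_neg h3, if_neg (by omega)]
    · have h1 : LE_top γ (i + 1) (AA r f) b = 0 := by
        by_contra h
        exact hbi (LE_inj (LE_top_alt γ (i + 1) _ hA1) h)
      have h2 : LE_D (LE_H γ r) r (LE_top γ i f) b = 0 := by
        by_contra h
        exact hbi (LE_inj (LE_D_alt _ r _ (LE_top_alt γ i f hf)) h)
      rw [h1, h2]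

theorem LE_pos (γ : Fin N → ℕ) (hγ : Injective γ) (r : ℕ) (hr : 1 ≤ r) (i R : ℕ)
    (hR : ∀ l, γ l < R) (hH : 2 * i + 1 ≤ HH γ r) (g : (Fin N → ℕ) → ℤ) (hg : Alt g)
    (hgi : ∀ b, g b ≠ 0 → LE_dist γ b = i) (hgR : ∀ b, g b ≠ 0 → ∀ j, b j < R)
    (h0 : ∃ b, g b ≠ 0) : ∃ b, LE_D (LE_H γ r) r g b ≠ 0 := by
  have hHr : ∀ x ∈ LE_H γ r, r ≤ x := fun x hx => (LE_mem_H.1 hx).2.1
  have hHR : ∀ x ∈ LE_H γ r, x < R := by
    intro x hx
    obtain ⟨l, _, rfl⟩ := Finset.mem_image.1 (LE_mem_H.1 hx).1
    exact hR l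
  have h1 := LE_norm R r hr (LE_H γ r) hHr hHR g hg
  have h2 : 0 ≤ LE_ip R (LE_Ds (LE_H γ r) r g) (LE_Ds (LE_H γ r) r g) := by
    unfold LE_ip
    exact Finset.sum_nonneg (fun b _ => mul_self_nonneg _)
  have h3 : ∑ b ∈ LE_box N R, g b ^ 2 ≤
      ∑ b ∈ LE_box N R, (∑ x ∈ LE_H γ r, (LE_n x b - LE_n (x - r) b)) * g b ^ 2 := by
    apply Finset.sum_le_sum
    intro b _
    by_cases hb : g b = 0
    · rw [hb]; simp
    · have hbi := LE_inj hg hb
      have h4 := LE_h_lower hγ hbi r
      rw [hgi b hb] at h4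
      have h5 : (2 * (i : ℤ) + 1) ≤ HH γ r := by exact_mod_cast hH
      have h6 : (1 : ℤ) ≤ ∑ x ∈ LE_H γ r, (LE_n x b - LE_n (x - r) b) := by linarith
      have h7 : 0 ≤ g b ^ 2 := sq_nonneg _
      nlinarith
  have h4 : 0 < ∑ b ∈ LE_box N R, g b ^ 2 := by
    obtain ⟨b, hb⟩ := h0
    apply Finset.sum_pos'
    · intro b _; exact sq_nonneg _
    · exact ⟨b, LE_mem_box.2 (hgR b hb), by positivity⟩
  by_contra hc
  push Not at hc
  have h5 : LE_ip R (LE_D (LE_H γ r) r g) (LE_D (LE_H γ r) r g) = 0 := by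
    unfold LE_ip
    apply Finset.sum_eq_zero
    intro b _
    rw [hc b]; ring
  linarith

theorem LE_main (hA : FA_stmt) (γ : Fin N → ℕ) (hγ : Injective γ) (R : ℕ) (hR : ∀ l, γ l < R) :
    ∀ (rs : List ℕ) (i : ℕ) (f : (Fin N → ℕ) → ℤ), Alt f → (∀ b, f b ≠ 0 → LE_dist γ b ≤ i) →
      (∀ b, f b ≠ 0 → ∀ j, b j < R) → (∃ b, f b ≠ 0 ∧ LE_dist γ b = i) → (∀ r ∈ rs, 1 ≤ r) →
      (∀ p r q, rs = p ++ r :: q → 2 * (i + p.length) + 1 ≤ HH γ r) → AAs rs f ≠ 0 := by
  intro rs
  induction rs with
  | nil =>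
    intro i f _ _ _ h _ _ h0
    obtain ⟨b, hb, _⟩ := h
    apply hb
    have : f = 0 := h0
    rw [this]; rfl
  | cons r rs ih =>
    intro i f hf hd hfR h hpos hmany
    have hr : 1 ≤ r := hpos r (by simp)
    obtain ⟨h1, h2⟩ := LE_step hA γ r hr i f hf hd
    show AAs rs (AA r f) ≠ 0
    apply ih (i + 1) (AA r f) (hA.alt_AA N r f hf) h1
    · intro b hb j
      obtain ⟨l, _, hl⟩ := Finset.exists_ne_zero_of_sum_ne_zero hb
      have h3 := hfR _ hl j
      by_cases hjl : j = l
      · subst hjl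
        rw [update_self] at h3
        omega
      · rwa [update_of_ne hjl] at h3
    · obtain ⟨b, hb, hbi⟩ := h
      have h3 := LE_pos γ hγ r hr i R hR (by
        have := hmany [] r rs rfl
        simpa using this) (LE_top γ i f) (LE_top_alt γ i f hf) (by
          intro b hb
          unfold LE_top at hb
          by_contra hne
          rw [if_neg hne] at hb
          exact hb rfl) (by
          intro b hb
          apply hfR b
          intro h0
          apply hb
          unfold LE_top
          rw [h0]; simp) ⟨b, by unfold LE_top; rw [if_pos hbi]; exact hb⟩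
      obtain ⟨b', hb'⟩ := h3
      rw [← h2] at hb'
      unfold LE_top at hb'
      refine ⟨b', ?_, ?_⟩
      · intro h0
        apply hb'
        rw [h0]; simp
      · by_contra hne
        rw [if_neg hne] at hb'
        exact hb' rfl
    · exact fun r' hr' => hpos r' (by simp [hr'])
    · intro p r' q he
      have := hmany (r :: p) r' q (by rw [he]; rfl)
      simp only [List.length_cons] at this
      omega

/-- row LE -/
theorem row_LE (hA : FA_stmt) : LE_stmt := by
  intro N γ rs hγ hpos hmany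
  obtain ⟨R, hR⟩ : ∃ R, ∀ l, γ l < R := by
    refine ⟨∑ l, γ l + 1, fun l => ?_⟩
    have := Finset.single_le_sum (f := γ) (fun _ _ => Nat.zero_le _) (Finset.mem_univ l)
    omega
  have hsupp : ∀ b, FF γ b ≠ 0 → ∃ σ : Equiv.Perm (Fin N), b = γ ∘ σ := by
    intro b hb
    obtain ⟨σ, _, hσ⟩ := Finset.exists_ne_zero_of_sum_ne_zero hb
    refine ⟨σ, ?_⟩
    by_contra h
    rw [if_neg h] at hσ
    exact hσ rfl
  have hdist : ∀ σ : Equiv.Perm (Fin N), LE_dist γ (γ ∘ σ) = 0 := by
    intro σ
    unfold LE_dist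
    rw [Finset.card_eq_zero, Finset.sdiff_eq_empty_iff_subset]
    intro z hz
    obtain ⟨l, _, rfl⟩ := Finset.mem_image.1 hz
    exact Finset.mem_image.2 ⟨σ.symm l, Finset.mem_univ _, by simp⟩
  apply LE_main hA γ hγ R hR rs 0 (FF γ) (hA.alt_FF N γ)
  · intro b hb
    obtain ⟨σ, rfl⟩ := hsupp b hb
    rw [hdist]
  · intro b hb j
    obtain ⟨σ, rfl⟩ := hsupp b hb
    exact hR _
  · refine ⟨γ, ?_, ?_⟩
    · rw [hA.self N γ hγ]; norm_num
    · have := hdist 1
      simpa using this
  · exact hpos
  · intro p r q he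
    have := hmany p r q he
    simpa using this

end

end ZT68
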