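/-
MP_1882ea_al, helper68.  Definitions and statements (Props) of the sub-rows of row PA.
-/
import Mathlib
import Pool.Agent.Lib.ZT68.Defs

namespace ZT68

open Finset

/-- the product of the `1 / (1 - r ^ k)`, `1 ≤ k ≤ K`, `r = exp (-η)` -/
noncomputable def GG (K : ℕ) (η : ℝ) : ℝ := ∏ k ∈ range K, (1 - Real.exp (-((k + 1) * η)))⁻¹

/-- the normalised integrand -/
noncomputable def phi (K : ℕ) (η : ℝ) (N : ℕ) (θ : ℝ) : ℂ :=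
  (∏ k ∈ range K, (((1 - Real.exp (-((k + 1) * η)) : ℝ) : ℂ) *
    (1 - ((Real.exp (-η) : ℂ) * Complex.exp (θ * Complex.I)) ^ (k + 1))⁻¹)) *
    Complex.exp (-(N * θ * Complex.I))

/-- the mean -/
noncomputable def mm (K : ℕ) (η : ℝ) : ℝ := ∑ k ∈ range K, ((k : ℝ) + 1) / (Real.exp ((k + 1) * η) - 1)

/-- the variance -/
noncomputable def vv (K : ℕ) (η : ℝ) : ℝ := ∑ k ∈ range K,
  ((k : ℝ) + 1) ^ 2 * Real.exp (-((k + 1) * η)) / (1 - Real.exp (-((k + 1) * η))) ^ 2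

/-- the decay exponent -/
noncomputable def dd (K : ℕ) (η θ : ℝ) : ℝ := ∑ k ∈ range K,
  Real.exp (-((k + 1) * η)) * (1 - Real.cos ((k + 1) * θ))

/-- row PAa : the coefficient as an integral -/
structure PAa_stmt : Prop where
  int : ∀ (K N : ℕ) (η : ℝ), 0 < η → (((2 * Real.pi) * (pK K N * Real.exp (-(N * η)) / GG K η) : ℝ) : ℂ) =
    ∫ θ in (-Real.pi)..Real.pi, phi K η N θ
  cont : ∀ (K N : ℕ) (η : ℝ), 0 < η → Continuous (phi K η N)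

/-- row PAb : size of the integrand -/
structure PAb_stmt : Prop where
  decay : ∀ (K N : ℕ) (η θ : ℝ), 0 < η → ‖phi K η N θ‖ ≤ Real.exp (-dd K η θ)
  near : ∀ (K N : ℕ) (η θ : ℝ), 0 < η → mm K η = N → ‖phi K η N θ - 1‖ ≤ vv K η * θ ^ 2 / 2

/-- row PAc : the variance is at most `(π ^ 2 / 3) / η ^ 3` -/
def PAc_stmt : Prop := ∀ (K : ℕ) (η : ℝ), 0 < η → vv K η ≤ 3.3 / η ^ 3

/-- row PAe : decay -/
structure PAe_stmt : Prop where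
  near : ∃ η0 : ℝ, 0 < η0 ∧ ∀ (K : ℕ) (η θ : ℝ), 0 < η → η ≤ η0 → |θ| ≤ η / 10 →
    0.95 * θ ^ 2 / η ^ 3 - 2 * Real.exp (-((K + 1) * η)) / (1 - Real.exp (-η)) ≤ dd K η θ
  far : ∃ η0 : ℝ, 0 < η0 ∧ ∀ (K : ℕ) (η θ : ℝ), 0 < η → η ≤ η0 → η / 10 ≤ |θ| → |θ| ≤ Real.pi →
    1 / (1000 * η) - 2 * Real.exp (-((K + 1) * η)) / (1 - Real.exp (-η)) ≤ dd K η θ

/-- row PAf : the saddle point -/
def PAf_stmt : Prop := ∀ n : ℕ, 4 ≤ n → ∃ η : ℝ, 1 / (2 * √(n : ℝ)) ≤ η ∧ η ≤ 2 / √(n : ℝ) ∧ mm n η = n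

end ZT68
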