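/-
MP_1882ea_al, helper68.  Row PAa: the coefficient integral.
-/
import Mathlib
import Pool.Agent.Lib.ZT68.PAd

namespace ZT68

open Finset MeasureTheory

theorem PAa_prod (K : ℕ) (η : ℝ) :
    ((∏ k ∈ range K, (((1 - Real.exp (-((k + 1) * η)) : ℝ) : ℂ))) : ℂ) = (((GG K η)⁻¹ : ℝ) : ℂ) := by
  unfold GG
  rw [Finset.prod_inv_distrib, inv_inv]
  push_cast
  rfl

theorem PAa_norm (η θ : ℝ) (hη : 0 < η) :
    ‖(Real.exp (-η) : ℂ) * Complex.exp (θ * Complex.I)‖ < 1 := by
  rw [norm_mul, Complex.norm_exp_ofReal_mul_I, Complex.norm_real,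
    Real.norm_of_nonneg (Real.exp_pos _).le, mul_one, Real.exp_lt_one_iff]
  linarith

/-- row PAa -/
theorem row_PAa : PAa_stmt := by
  constructor
  · intro K N η hη
    have hr0 : 0 < Real.exp (-η) := Real.exp_pos _
    have hr1 : Real.exp (-η) < 1 := by rw [Real.exp_lt_one_iff]; linarith
    have h := pK_integral K N hr0 hr1
    have e1 : ∀ θ : ℝ, phi K η N θ = (((GG K η)⁻¹ : ℝ) : ℂ) *
        ((∏ k ∈ range K, (1 - ((Real.exp (-η) : ℂ) * Complex.exp (θ * Complex.I)) ^ (k + 1))⁻¹) *
          Complex.exp (-(N * θ * Complex.I))) := by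
      intro θ
      unfold phi
      rw [Finset.prod_mul_distrib, PAa_prod]
      ring
    simp_rw [e1]
    rw [intervalIntegral.integral_const_mul, ← h]
    have e2 : Real.exp (-(N * η)) = Real.exp (-η) ^ N := by
      rw [← Real.exp_nat_mul]
      congr 1
      ring
    rw [e2]
    push_cast
    ring
  · intro K N η hη
    unfold phi
    apply Continuous.mul
    · apply continuous_finsetProd
      intro k _
      apply Continuous.mul continuous_const
      apply Continuous.inv₀
      · fun_prop
      · intro θ h0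
        have h1 := PAa_norm η θ hη
        have h2 : ((Real.exp (-η) : ℂ) * Complex.exp (θ * Complex.I)) ^ (k + 1) = 1 := by
          rw [sub_eq_zero] at h0
          exact h0.symm
        have h3 : ‖((Real.exp (-η) : ℂ) * Complex.exp (θ * Complex.I)) ^ (k + 1)‖ < 1 := by
          rw [norm_pow]
          exact pow_lt_one₀ (norm_nonneg _) h1 (by omega)
        rw [h2] at h3
        simp at h3
    · fun_prop

end ZT68
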