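/-
MP_1882ea_al, helper68.  Row PAb: size of the integrand.
-/
import Mathlib
import Pool.Agent.Lib.ZT68.PAd

namespace ZT68

open Finset MeasureTheory

theorem PAb_exp_sub_one (w : ℂ) (hw : w.re ≤ 0) : ‖Complex.exp w - 1‖ ≤ ‖w‖ := by
  have h := Convex.norm_image_sub_le_of_norm_deriv_le (f := Complex.exp) (C := 1)
    (s := {z : ℂ | z.re ≤ 0}) (x := 0) (y := w)
    (fun x _ => Complex.differentiable_exp x)
    (fun x hx => by
      rw [Complex.deriv_exp, Complex.norm_exp]
      exact Real.exp_le_one_iff.2 hx)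
    (convex_halfSpace_re_le 0) (by simp) hw
  simpa using h

theorem PAb_second_pos (x : ℝ) (hx : 0 ≤ x) :
    ‖Complex.exp (Complex.I * x) - 1 - Complex.I * x‖ ≤ x ^ 2 / 2 := by
  have hd : ∀ t ∈ Set.uIcc 0 x, HasDerivAt
      (fun t : ℝ => Complex.exp (Complex.I * t) - 1 - Complex.I * t)
      (Complex.I * (Complex.exp (Complex.I * t) - 1)) t := by
    intro t _
    have h1 : HasDerivAt (fun t : ℝ => Complex.I * (t : ℂ)) Complex.I t := by
      have := (Complex.ofRealCLM.hasDerivAt (x := t)).const_mul Complex.I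
      simpa using this
    have h2 := (h1.cexp.sub_const 1).sub h1
    refine h2.congr_deriv ?_
    ring
  have h1 := intervalIntegral.integral_eq_sub_of_hasDerivAt hd
    (Continuous.intervalIntegrable (by fun_prop) _ _)
  simp only [Complex.ofReal_zero, mul_zero, Complex.exp_zero, sub_self, sub_zero] at h1
  rw [← h1]
  refine (intervalIntegral.norm_integral_le_integral_norm hx).trans ?_
  have h2 : ∫ t in (0 : ℝ)..x, ‖Complex.I * (Complex.exp (Complex.I * t) - 1)‖ ≤
      ∫ t in (0 : ℝ)..x, t := by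
    apply intervalIntegral.integral_mono_on hx
    · apply Continuous.intervalIntegrable; fun_prop
    · apply Continuous.intervalIntegrable; fun_prop
    · intro t ht
      rw [norm_mul, Complex.norm_I, one_mul]
      have := Real.norm_exp_I_mul_ofReal_sub_one_le (x := t)
      rwa [Real.norm_of_nonneg ht.1] at this
  refine h2.trans ?_
  rw [integral_id]
  simp

theorem PAb_second (x : ℝ) :
    ‖Complex.exp (Complex.I * x) - 1 - Complex.I * x‖ ≤ x ^ 2 / 2 := by
  rcases le_total 0 x with hx | hx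
  · exact PAb_second_pos x hx
  · have h := PAb_second_pos (-x) (by linarith)
    have e : Complex.exp (Complex.I * ((-x : ℝ) : ℂ)) - 1 - Complex.I * ((-x : ℝ) : ℂ) =
        (starRingEnd ℂ) (Complex.exp (Complex.I * x) - 1 - Complex.I * x) := by
      rw [map_sub, map_sub, ← Complex.exp_conj]
      simp
    rw [e, Complex.norm_conj] at h
    simpa using h

/-- one factor -/
theorem PAb_factor (ρ x : ℝ) (h0 : 0 < ρ) (h1 : ρ < 1) : ∃ L : ℂ,
    ((1 - ρ : ℝ) : ℂ) * (1 - (ρ : ℂ) * Complex.exp (Complex.I * x))⁻¹ = Complex.exp L ∧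
    L.re ≤ -(ρ * (1 - Real.cos x)) ∧
    ‖L - Complex.I * ((x * (ρ / (1 - ρ)) : ℝ) : ℂ)‖ ≤ x ^ 2 * (ρ / (1 - ρ) ^ 2) / 2 := by
  set w : ℂ := (ρ : ℂ) * Complex.exp (Complex.I * x) with hw
  have hex : ‖Complex.exp (Complex.I * x)‖ = 1 := by
    rw [mul_comm, Complex.norm_exp_ofReal_mul_I]
  have hwn : ‖w‖ = ρ := by
    rw [hw, norm_mul, Complex.norm_real, Real.norm_of_nonneg h0.le, hex, mul_one]
  have hw1 : ‖w‖ < 1 := by rw [hwn]; exact h1
  have hρn : ‖(ρ : ℂ)‖ < 1 := by
    rw [Complex.norm_real, Real.norm_of_nonneg h0.le]; exact h1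
  have s1 := Complex.hasSum_taylorSeries_neg_log hw1
  have s2 := Complex.hasSum_taylorSeries_neg_log hρn
  have hne1 : (1 : ℂ) - w ≠ 0 := by
    intro h
    have : w = 1 := by rw [sub_eq_zero] at h; exact h.symm
    rw [this] at hw1
    simp at hw1
  have hne2 : (1 : ℂ) - ρ ≠ 0 := by
    intro h
    have : (ρ : ℂ) = 1 := by rw [sub_eq_zero] at h; exact h.symm
    rw [this] at hρn
    simp at hρn
  set L : ℂ := -Complex.log (1 - w) - -Complex.log (1 - ρ) with hL
  have s3 := s1.sub s2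
  rw [← hL] at s3
  -- shift the index
  have s4 : HasSum (fun n : ℕ => ((ρ : ℂ) ^ (n + 1) / ((n + 1 : ℕ) : ℂ)) *
      (Complex.exp (Complex.I * (((n + 1 : ℕ) * x : ℝ) : ℂ)) - 1)) L := by
    have h := (hasSum_nat_add_iff' (f := fun n : ℕ => w ^ n / (n : ℂ) - (ρ : ℂ) ^ n / (n : ℂ)) 1).2 s3
    simp only [Finset.range_one, Finset.sum_singleton, Nat.cast_zero, div_zero, sub_zero] at h
    refine h.congr_fun ?_ |> fun h => h
    intro n
    rw [hw, mul_pow, ← Complex.exp_nat_mul]
    have : ((n + 1 : ℕ) : ℂ) * (Complex.I * (x : ℂ)) = Complex.I * (((n + 1 : ℕ) * x : ℝ) : ℂ) := by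
      push_cast; ring
    rw [this]
    ring
  refine ⟨L, ?_, ?_, ?_⟩
  · rw [hL, Complex.exp_sub, Complex.exp_neg, Complex.exp_neg, Complex.exp_log hne1,
      Complex.exp_log hne2]
    push_cast
    field_simp
  · have s5 := Complex.hasSum_re s4
    have s6 : HasSum (fun n : ℕ => (ρ ^ (n + 1) / (n + 1 : ℕ)) *
        (1 - Real.cos ((n + 1 : ℕ) * x))) (-L.re) := by
      have := s5.neg
      refine this.congr_fun ?_ |> fun h => h
      intro n
      have e1 : ((ρ : ℂ) ^ (n + 1) / ((n + 1 : ℕ) : ℂ)) = ((ρ ^ (n + 1) / (n + 1 : ℕ) : ℝ) : ℂ) := by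
        push_cast; ring
      rw [e1, Complex.re_ofReal_mul, Complex.sub_re, Complex.one_re, mul_comm Complex.I,
        Complex.exp_ofReal_mul_I_re]
      ring
    have h2 := le_hasSum s6 0 (by
      intro n _
      have := Real.cos_le_one ((n + 1 : ℕ) * x)
      have h3 : 0 ≤ ρ ^ (n + 1) / (n + 1 : ℕ) := by positivity
      exact mul_nonneg h3 (by linarith))
    simp only [zero_add, pow_one, Nat.cast_one, div_one, one_mul] at h2
    linarith
  · have s7 : HasSum (fun n : ℕ => Complex.I * ((x * ρ ^ (n + 1) : ℝ) : ℂ))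
        (Complex.I * ((x * (ρ / (1 - ρ)) : ℝ) : ℂ)) := by
      apply HasSum.mul_left
      apply Complex.hasSum_ofReal.2
      apply HasSum.mul_left
      have := (hasSum_geometric_of_lt_one h0.le h1).mul_left ρ
      rw [← div_eq_mul_inv] at this
      refine this.congr_fun ?_ |> fun h => h
      intro n
      ring
    have s8 := s4.sub s7
    have s9 : HasSum (fun n : ℕ => x ^ 2 / 2 * (((n + 1 : ℕ) : ℝ) * ρ ^ (n + 1)))
        (x ^ 2 * (ρ / (1 - ρ) ^ 2) / 2) := by
      have h := hasSum_coe_mul_geometric_of_norm_lt_one (r := ρ) (by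
        rw [Real.norm_of_nonneg h0.le]; exact h1)
      have h2 := (hasSum_nat_add_iff' (f := fun n : ℕ => (n : ℝ) * ρ ^ n) 1).2 h
      simp only [Finset.range_one, Finset.sum_singleton, Nat.cast_zero, zero_mul, sub_zero] at h2
      have h3 := h2.mul_left (x ^ 2 / 2)
      have e : x ^ 2 / 2 * (ρ / (1 - ρ) ^ 2) = x ^ 2 * (ρ / (1 - ρ) ^ 2) / 2 := by ring
      rwa [e] at h3
    rw [← s8.tsum_eq]
    refine tsum_of_norm_bounded s9 ?_
    intro n
    have e1 : ((ρ : ℂ) ^ (n + 1) / ((n + 1 : ℕ) : ℂ)) *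
      (Complex.exp (Complex.I * (((n + 1 : ℕ) * x : ℝ) : ℂ)) - 1) -
        Complex.I * ((x * ρ ^ (n + 1) : ℝ) : ℂ) =
        ((ρ ^ (n + 1) / (n + 1 : ℕ) : ℝ) : ℂ) *
          (Complex.exp (Complex.I * (((n + 1 : ℕ) * x : ℝ) : ℂ)) - 1 -
            Complex.I * (((n + 1 : ℕ) * x : ℝ) : ℂ)) := by
      have hn : ((n : ℂ) + 1) ≠ 0 := by
        exact_mod_cast Nat.succ_ne_zero n
      push_cast
      field_simp
    rw [e1, norm_mul, Complex.norm_real, Real.norm_of_nonneg (by positivity)]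
    have h2 := PAb_second ((n + 1 : ℕ) * x)
    calc ρ ^ (n + 1) / (n + 1 : ℕ) * ‖Complex.exp (Complex.I * (((n + 1 : ℕ) * x : ℝ) : ℂ)) - 1 -
            Complex.I * (((n + 1 : ℕ) * x : ℝ) : ℂ)‖ ≤
          ρ ^ (n + 1) / (n + 1 : ℕ) * (((n + 1 : ℕ) * x) ^ 2 / 2) := by gcongr
      _ = _ := by
        have hn : ((n + 1 : ℕ) : ℝ) ≠ 0 := by positivity
        field_simp

theorem PAb_rho (k : ℕ) (η : ℝ) (hη : 0 < η) :
    0 < Real.exp (-((k + 1) * η)) ∧ Real.exp (-((k + 1) * η)) < 1 := by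
  refine ⟨Real.exp_pos _, ?_⟩
  rw [Real.exp_lt_one_iff]
  have : (0 : ℝ) < (k + 1) * η := by positivity
  linarith

theorem PAb_term (k : ℕ) (η θ : ℝ) :
    ((Real.exp (-η) : ℂ) * Complex.exp (θ * Complex.I)) ^ (k + 1) =
      (Real.exp (-((k + 1) * η)) : ℂ) * Complex.exp (Complex.I * (((k + 1) * θ : ℝ) : ℂ)) := by
  rw [mul_pow, ← Complex.exp_nat_mul]
  congr 1
  · rw [← Complex.ofReal_pow, ← Real.exp_nat_mul]
    congr 2
    push_cast
    ring
  · congr 1
    push_cast
    ring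

/-- row PAb -/
theorem row_PAb : PAb_stmt := by
  have key : ∀ (K N : ℕ) (η θ : ℝ), 0 < η → ∃ L : ℕ → ℂ,
      phi K η N θ = Complex.exp (∑ k ∈ range K, L k - (N * θ * Complex.I)) ∧
      (∀ k, (L k).re ≤ -(Real.exp (-((k + 1) * η)) * (1 - Real.cos ((k + 1) * θ)))) ∧
      (∀ k, ‖L k - Complex.I * ((((k + 1) * θ) * (Real.exp (-((k + 1) * η)) /
        (1 - Real.exp (-((k + 1) * η)))) : ℝ) : ℂ)‖ ≤
        ((k + 1) * θ) ^ 2 * (Real.exp (-((k + 1) * η)) / (1 - Real.exp (-((k + 1) * η))) ^ 2) / 2) := by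
    intro K N η θ hη
    choose L h1 h2 h3 using fun k : ℕ => PAb_factor (Real.exp (-((k + 1) * η))) ((k + 1) * θ)
      (PAb_rho k η hη).1 (PAb_rho k η hη).2
    refine ⟨L, ?_, h2, h3⟩
    unfold phi
    rw [Complex.exp_sub, Complex.exp_sum, div_eq_mul_inv, ← Complex.exp_neg]
    congr 1
    apply Finset.prod_congr rfl
    intro k _
    rw [← h1 k, PAb_term]
  constructor
  · intro K N η θ hη
    obtain ⟨L, h1, h2, h3⟩ := key K N η θ hη
    rw [h1, Complex.norm_exp]
    apply Real.exp_le_exp.2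
    rw [Complex.sub_re, Complex.re_sum]
    have e : ((N : ℂ) * θ * Complex.I).re = 0 := by simp
    rw [e, sub_zero]
    unfold dd
    rw [← Finset.sum_neg_distrib]
    exact Finset.sum_le_sum (fun k _ => h2 k)
  · intro K N η θ hη hm
    obtain ⟨L, h1, h2, h3⟩ := key K N η θ hη
    rw [h1]
    refine (PAb_exp_sub_one _ ?_).trans ?_
    · rw [Complex.sub_re, Complex.re_sum]
      have e : ((N : ℂ) * θ * Complex.I).re = 0 := by simp
      rw [e, sub_zero]
      apply Finset.sum_nonpos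
      intro k _
      refine (h2 k).trans ?_
      have h4 := Real.cos_le_one ((k + 1) * θ)
      have h5 := Real.exp_pos (-(((k : ℝ) + 1) * η))
      nlinarith
    · have e : ((N : ℂ) * θ * Complex.I) = ∑ k ∈ range K, Complex.I * ((((k + 1) * θ) *
          (Real.exp (-((k + 1) * η)) / (1 - Real.exp (-((k + 1) * η)))) : ℝ) : ℂ) := by
        rw [← Finset.mul_sum, ← Complex.ofReal_sum]
        have e2 : ∑ k ∈ range K, (((k : ℝ) + 1) * θ) * (Real.exp (-((k + 1) * η)) /
            (1 - Real.exp (-((k + 1) * η)))) = mm K η * θ := by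
          unfold mm
          rw [Finset.sum_mul]
          apply Finset.sum_congr rfl
          intro k _
          have h5 := PAb_rho k η hη
          have h6 : Real.exp (((k : ℝ) + 1) * η) = (Real.exp (-((k + 1) * η)))⁻¹ := by
            rw [← Real.exp_neg]; ring_nf
          rw [h6]
          set ρ := Real.exp (-(((k : ℝ) + 1) * η))
          have h7 : (1 - ρ) ≠ 0 := by linarith [h5.2]
          have h8 : ρ ≠ 0 := h5.1.ne'
          have h9 : ρ⁻¹ - 1 ≠ 0 := by
            intro h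
            have : ρ⁻¹ = 1 := by linarith
            rw [inv_eq_one] at this
            linarith [h5.2]
          field_simp
        rw [e2, hm]
        push_cast
        ring
      rw [e, ← Finset.sum_sub_distrib]
      refine (norm_sum_le _ _).trans ?_
      unfold vv
      rw [Finset.sum_mul, Finset.sum_div]
      apply Finset.sum_le_sum
      intro k _
      refine (h3 k).trans (le_of_eq ?_)
      ring

end ZT68
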