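import Pool.Agent.Lib.ZT68.PAd

/-! Tank ZT, row PAc: the variance.  helper54. -/

set_option autoImplicit false

namespace ZT68

open Finset

theorem PAc_elt {x : ℝ} (hx : x < 0) : Real.exp x < 1 := by
  rw [← Real.exp_zero]; exact Real.exp_lt_exp.mpr hx

theorem PAc_nat (m : ℕ) : 4 * ((2 * m + 3) * (2 * m + 2) * (2 * m + 1)) + 3 ≤ 3 ^ (2 * m + 3) := by
  induction m with
  | zero => norm_num
  | succ m ih =>
    have h : 3 ^ (2 * (m + 1) + 3) = 9 * 3 ^ (2 * m + 3) := by ring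
    rw [h]
    have h2 : 9 * (4 * ((2 * m + 3) * (2 * m + 2) * (2 * m + 1)) + 3) ≤ 9 * 3 ^ (2 * m + 3) :=
      Nat.mul_le_mul_left 9 ih
    refine le_trans ?_ h2
    rcases Nat.eq_zero_or_pos m with h0 | h0
    · subst h0; norm_num
    · nlinarith [mul_pos h0 h0, mul_pos (mul_pos h0 h0) h0]

/-- Lazarević: `v ^ 3 cosh v ≤ (sinh v) ^ 3`. -/
theorem PAc_laz (v : ℝ) (hv : 0 ≤ v) : v ^ 3 * Real.cosh v ≤ Real.sinh v ^ 3 := by
  have h1 : HasSum (fun n : ℕ => 4 * v ^ 3 * (v ^ (2 * n) / (2 * n).factorial))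
      (4 * v ^ 3 * Real.cosh v) := (Real.hasSum_cosh v).mul_left _
  have h2 : HasSum (fun n : ℕ => (3 * v) ^ (2 * n + 1) / ((2 * n + 1).factorial : ℝ) -
      3 * (v ^ (2 * n + 1) / ((2 * n + 1).factorial : ℝ)))
      (Real.sinh (3 * v) - 3 * Real.sinh v) :=
    (Real.hasSum_sinh (3 * v)).sub ((Real.hasSum_sinh v).mul_left 3)
  have h3 : Real.sinh (3 * v) - 3 * Real.sinh v = 4 * Real.sinh v ^ 3 := by
    rw [Real.sinh_three_mul]; ring
  rw [h3] at h2
  have h4 : HasSum (fun n : ℕ => (3 * v) ^ (2 * (n + 1) + 1) / ((2 * (n + 1) + 1).factorial : ℝ) -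
      3 * (v ^ (2 * (n + 1) + 1) / ((2 * (n + 1) + 1).factorial : ℝ)))
      (4 * Real.sinh v ^ 3) := by
    have := (hasSum_nat_add_iff' 1).mpr h2
    simpa using this
  have h5 := hasSum_le (fun n => ?_) h1 h4
  · linarith
  · have hf : ((2 * (n + 1) + 1).factorial : ℝ) =
        ((2 * n + 3) * (2 * n + 2) * (2 * n + 1)) * ((2 * n).factorial : ℝ) := by
      have : 2 * (n + 1) + 1 = 2 * n + 1 + 1 + 1 := by ring
      rw [this, Nat.factorial_succ, Nat.factorial_succ, Nat.factorial_succ]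
      push_cast
      ring
    have hnat : 4 * (((2 * n + 3) * (2 * n + 2) * (2 * n + 1) : ℝ)) + 3 ≤ 3 ^ (2 * n + 3) := by
      exact_mod_cast PAc_nat n
    have hpos : (0 : ℝ) < (2 * n).factorial := by exact_mod_cast Nat.factorial_pos _
    have hp2 : (0 : ℝ) < (2 * (n : ℝ) + 3) * (2 * n + 2) * (2 * n + 1) := by positivity
    have he : (3 * v) ^ (2 * (n + 1) + 1) / ((2 * (n + 1) + 1).factorial : ℝ) -
        3 * (v ^ (2 * (n + 1) + 1) / ((2 * (n + 1) + 1).factorial : ℝ)) =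
        (3 ^ (2 * n + 3) - 3) * v ^ (2 * n + 3) /
          (((2 * n + 3) * (2 * n + 2) * (2 * n + 1)) * ((2 * n).factorial : ℝ)) := by
      rw [hf, mul_pow]
      have : 2 * (n + 1) + 1 = 2 * n + 3 := by ring
      rw [this]
      ring
    rw [he, le_div_iff₀ (by positivity)]
    have hv3 : 0 ≤ v ^ (2 * n + 3) := by positivity
    calc 4 * v ^ 3 * (v ^ (2 * n) / (2 * n).factorial) *
          (((2 * n + 3) * (2 * n + 2) * (2 * n + 1)) * ((2 * n).factorial : ℝ))
        = (4 * ((2 * n + 3) * (2 * n + 2) * (2 * n + 1))) * v ^ (2 * n + 3) := by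
          field_simp
          ring
      _ ≤ (3 ^ (2 * n + 3) - 3) * v ^ (2 * n + 3) :=
          mul_le_mul_of_nonneg_right (by linarith) hv3

/-- `q (1 + q) / (1 - q) ^ 3 ≤ 2 / x ^ 3`, `q = exp (-x)`. -/
theorem PAc_q (x : ℝ) (hx : 0 < x) :
    Real.exp (-x) * (1 + Real.exp (-x)) / (1 - Real.exp (-x)) ^ 3 ≤ 2 / x ^ 3 := by
  have hlaz := PAc_laz (x / 2) (by positivity)
  set a := Real.exp (x / 2) with ha
  set b := Real.exp (-(x / 2)) with hb
  have hab : a * b = 1 := by rw [ha, hb, ← Real.exp_add]; simp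
  have ha0 : 0 < a := Real.exp_pos _
  have hb0 : 0 < b := Real.exp_pos _
  have hq : Real.exp (-x) = b ^ 2 := by
    rw [hb, ← Real.exp_nat_mul]; congr 1; push_cast; ring
  have hs : Real.sinh (x / 2) = (a - b) / 2 := Real.sinh_eq _
  have hc : Real.cosh (x / 2) = (a + b) / 2 := Real.cosh_eq _
  rw [hs, hc] at hlaz
  have h1 : 1 - b ^ 2 = b * (a - b) := by linear_combination (-1) * hab
  have h2 : 1 + b ^ 2 = b * (a + b) := by linear_combination (-1) * hab
  have hlt : b ^ 2 < 1 := by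
    rw [← hq]; exact PAc_elt (by linarith)
  have hd : 0 < 1 - b ^ 2 := by linarith
  rw [hq, div_le_div_iff₀ (by positivity) (by positivity), h2, h1]
  have hb3 : 0 < b ^ 3 := by positivity
  have h3 : b ^ 2 * (b * (a + b)) * x ^ 3 = b ^ 3 * (16 * ((x / 2) ^ 3 * ((a + b) / 2))) := by
    ring
  have h4 : 2 * (b * (a - b)) ^ 3 = b ^ 3 * (16 * ((a - b) / 2) ^ 3) := by ring
  rw [h3, h4]
  apply mul_le_mul_of_nonneg_left _ hb3.le
  linarith

/-- partial sums of `∑ k ^ 2 q ^ k`. -/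
theorem PAc_sq (q : ℝ) (h0 : 0 < q) (h1 : q < 1) (K : ℕ) :
    ∑ k ∈ range K, ((k : ℝ) + 1) ^ 2 * q ^ (k + 1) ≤ q * (1 + q) / (1 - q) ^ 3 := by
  have hd : 0 < 1 - q := by linarith
  have h : ∀ K : ℕ, (∑ k ∈ range K, ((k : ℝ) + 1) ^ 2 * q ^ (k + 1)) * (1 - q) ^ 3 =
      q * (1 + q) - q ^ (K + 1) * ((K : ℝ) ^ 2 * (1 - q) ^ 2 + 2 * K * (1 - q) + (1 + q)) := by
    intro K
    induction K with
    | zero => simp
    | succ K ih =>
      rw [sum_range_succ, add_mul, ih]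
      push_cast
      ring
  rw [le_div_iff₀ (by positivity), h K]
  have : 0 ≤ q ^ (K + 1) * ((K : ℝ) ^ 2 * (1 - q) ^ 2 + 2 * K * (1 - q) + (1 + q)) := by
    positivity
  linarith

theorem row_PAc : PAc_stmt := by
  intro K η hη
  have hη3 : 0 < η ^ 3 := by positivity
  have h1 : HasSum (fun m : ℕ => ∑ k ∈ range K,
      ((k : ℝ) + 1) ^ 2 * ((m : ℝ) * Real.exp (-((k + 1) * η)) ^ m)) (vv K η) := by
    unfold vv
    apply hasSum_sum
    intro k _
    have hr : ‖Real.exp (-(((k : ℝ) + 1) * η))‖ < 1 := by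
      rw [Real.norm_eq_abs, abs_of_pos (Real.exp_pos _)]
      apply PAc_elt
      have : 0 < ((k : ℝ) + 1) * η := by positivity
      linarith
    have := (hasSum_coe_mul_geometric_of_norm_lt_one hr).mul_left (((k : ℝ) + 1) ^ 2)
    rw [← mul_div_assoc] at this
    exact this
  have h2 : HasSum (fun m : ℕ => 2 / η ^ 3 * (1 / (m : ℝ) ^ 2)) (2 / η ^ 3 * (Real.pi ^ 2 / 6)) :=
    hasSum_zeta_two.mul_left _
  have h3 := hasSum_le (fun m => ?_) h1 h2
  · refine h3.trans ?_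
    have hpi : Real.pi ^ 2 ≤ 9.9 := by
      have h := Real.pi_lt_d4
      have h0 := Real.pi_pos
      nlinarith
    rw [div_mul_eq_mul_div]
    apply div_le_div_of_nonneg_right _ hη3.le
    linarith
  · rcases Nat.eq_zero_or_pos m with hm | hm
    · subst hm; simp
    · have hm' : (0 : ℝ) < m := by exact_mod_cast hm
      have e1 : ∑ k ∈ range K, ((k : ℝ) + 1) ^ 2 * ((m : ℝ) * Real.exp (-((k + 1) * η)) ^ m) =
          (m : ℝ) * ∑ k ∈ range K, ((k : ℝ) + 1) ^ 2 * Real.exp (-((m : ℝ) * η)) ^ (k + 1) := by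
        rw [mul_sum]
        apply sum_congr rfl
        intro k _
        have : Real.exp (-(((k : ℝ) + 1) * η)) ^ m = Real.exp (-(m * η)) ^ (k + 1) := by
          rw [← Real.exp_nat_mul, ← Real.exp_nat_mul]
          congr 1
          push_cast
          ring
        rw [this]
        ring
      rw [e1]
      have hmη : 0 < m * η := by positivity
      have h4 := PAc_sq (Real.exp (-(m * η))) (Real.exp_pos _)
        (PAc_elt (by linarith)) K
      have h5 := PAc_q (m * η) hmη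
      calc (m : ℝ) * ∑ k ∈ range K, ((k : ℝ) + 1) ^ 2 * Real.exp (-(m * η)) ^ (k + 1)
          ≤ m * (2 / (m * η) ^ 3) := mul_le_mul_of_nonneg_left (h4.trans h5) hm'.le
        _ = 2 / η ^ 3 * (1 / (m : ℝ) ^ 2) := by
            field_simp

end ZT68
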