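import Pool.Agent.Lib.ZT68.PAd

/-! Tank ZT, row PAe: the decay exponent.  helper54. -/

set_option autoImplicit false

namespace ZT68

open Finset

/-- the finite sum in closed form, lower bound. -/
theorem PAe_main (K : ℕ) (r θ : ℝ) (h0 : 0 < r) (h1 : r < 1) :
    r * (1 + r) * (1 - Real.cos θ) / ((1 - r) * ((1 - r) ^ 2 + 2 * r * (1 - Real.cos θ))) -
      2 * r ^ (K + 1) / (1 - r) ≤ ∑ k ∈ range K, r ^ (k + 1) * (1 - Real.cos ((k + 1) * θ)) := by
  have hd : 0 < 1 - r := by linarith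
  set z : ℂ := (r : ℂ) * Complex.exp (θ * Complex.I) with hz
  have hzn : ‖z‖ = r := by
    rw [hz, norm_mul, Complex.norm_exp_ofReal_mul_I, mul_one, Complex.norm_real,
      Real.norm_eq_abs, abs_of_pos h0]
  have hzre : z.re = r * Real.cos θ := by
    rw [hz, Complex.re_ofReal_mul, Complex.exp_ofReal_mul_I_re]
  have hzim : z.im = r * Real.sin θ := by
    rw [hz, Complex.im_ofReal_mul, Complex.exp_ofReal_mul_I_im]
  have hz1 : z ≠ 1 := by
    intro h
    rw [h] at hzn
    simp at hzn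
    linarith
  have h1z : 1 - z ≠ 0 := sub_ne_zero.mpr (Ne.symm hz1)
  have hpow : ∀ k : ℕ, (z ^ (k + 1)).re = r ^ (k + 1) * Real.cos ((k + 1) * θ) := by
    intro k
    rw [hz, mul_pow, ← Complex.exp_nat_mul]
    have e1 : ((k + 1 : ℕ) : ℂ) * (θ * Complex.I) = (((k + 1) * θ : ℝ) : ℂ) * Complex.I := by
      push_cast; ring
    rw [e1, ← Complex.ofReal_pow, Complex.re_ofReal_mul, Complex.exp_ofReal_mul_I_re]
  -- sum of the powers
  have hgeo : ∑ k ∈ range K, z ^ (k + 1) = z / (1 - z) - z ^ (K + 1) / (1 - z) := by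
    have h := geom_sum_eq hz1 K
    have : ∑ k ∈ range K, z ^ (k + 1) = z * ∑ k ∈ range K, z ^ k := by
      rw [mul_sum]; exact sum_congr rfl fun k _ => by ring
    rw [this, h]
    have h2 : z - 1 ≠ 0 := sub_ne_zero.mpr hz1
    field_simp
    ring
  have hgeor : ∑ k ∈ range K, r ^ (k + 1) = r / (1 - r) - r ^ (K + 1) / (1 - r) := by
    have h := geom_sum_eq h1.ne K
    have : ∑ k ∈ range K, r ^ (k + 1) = r * ∑ k ∈ range K, r ^ k := by
      rw [mul_sum]; exact sum_congr rfl fun k _ => by ring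
    rw [this, h]
    have h2 : r - 1 ≠ 0 := sub_ne_zero.mpr h1.ne
    have h3 : 1 - r ≠ 0 := hd.ne'
    field_simp
    ring
  have hsum : ∑ k ∈ range K, r ^ (k + 1) * (1 - Real.cos ((k + 1) * θ)) =
      (r / (1 - r) - (z / (1 - z)).re) - (r ^ (K + 1) / (1 - r) - (z ^ (K + 1) / (1 - z)).re) := by
    have e1 : ∑ k ∈ range K, r ^ (k + 1) * (1 - Real.cos ((k + 1) * θ)) =
        ∑ k ∈ range K, r ^ (k + 1) - (∑ k ∈ range K, z ^ (k + 1)).re := by
      rw [Complex.re_sum, ← sum_sub_distrib]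
      apply sum_congr rfl
      intro k _
      rw [hpow k]
      ring
    rw [e1, hgeo, hgeor, Complex.sub_re]
    ring
  have hn1 : 1 - r ≤ ‖1 - z‖ := by
    have := norm_sub_norm_le (1 : ℂ) z
    rw [norm_one, hzn] at this
    exact this
  have htail : -(r ^ (K + 1) / (1 - r)) ≤ (z ^ (K + 1) / (1 - z)).re := by
    have h2 : ‖z ^ (K + 1) / (1 - z)‖ ≤ r ^ (K + 1) / (1 - r) := by
      rw [norm_div, norm_pow, hzn]
      exact div_le_div_of_nonneg_left (by positivity) hd hn1
    have h3 := Complex.abs_re_le_norm (z ^ (K + 1) / (1 - z))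
    have h4 := neg_abs_le (z ^ (K + 1) / (1 - z)).re
    linarith
  have hu0 : 0 ≤ 1 - Real.cos θ := by linarith [Real.cos_le_one θ]
  have hD : 0 < (1 - r) ^ 2 + 2 * r * (1 - Real.cos θ) := by positivity
  have hmain : r / (1 - r) - (z / (1 - z)).re =
      r * (1 + r) * (1 - Real.cos θ) / ((1 - r) * ((1 - r) ^ 2 + 2 * r * (1 - Real.cos θ))) := by
    have hns : Complex.normSq (1 - z) = (1 - r) ^ 2 + 2 * r * (1 - Real.cos θ) := by
      rw [Complex.normSq_apply, Complex.sub_re, Complex.sub_im, Complex.one_re, Complex.one_im,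
        hzre, hzim]
      have := Real.sin_sq_add_cos_sq θ
      linear_combination r ^ 2 * this
    have hre : (z / (1 - z)).re = (r * Real.cos θ - r ^ 2) /
        ((1 - r) ^ 2 + 2 * r * (1 - Real.cos θ)) := by
      rw [Complex.div_re, hns, Complex.sub_re, Complex.sub_im, Complex.one_re, Complex.one_im,
        hzre, hzim, ← add_div]
      congr 1
      have := Real.sin_sq_add_cos_sq θ
      linear_combination (-r ^ 2) * this
    rw [hre]
    field_simp
    ring
  rw [hsum, hmain]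
  have : 2 * r ^ (K + 1) / (1 - r) = r ^ (K + 1) / (1 - r) + r ^ (K + 1) / (1 - r) := by ring
  rw [this]
  linarith

theorem PAe_dd (K : ℕ) (η θ : ℝ) : dd K η θ =
    ∑ k ∈ range K, Real.exp (-η) ^ (k + 1) * (1 - Real.cos ((k + 1) * θ)) := by
  unfold dd
  apply sum_congr rfl
  intro k _
  congr 1
  rw [← Real.exp_nat_mul]
  congr 1
  push_cast
  ring

theorem PAe_low (K : ℕ) (η θ : ℝ) (hη : 0 < η) :
    Real.exp (-η) * (1 + Real.exp (-η)) * (1 - Real.cos θ) /
      (η * (η ^ 2 + 2 * (1 - Real.cos θ))) -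
      2 * Real.exp (-((K + 1) * η)) / (1 - Real.exp (-η)) ≤ dd K η θ := by
  have h0 : 0 < Real.exp (-η) := Real.exp_pos _
  have h1 : Real.exp (-η) < 1 := Real.exp_lt_one_iff.mpr (by linarith)
  rw [PAe_dd]
  refine le_trans ?_ (PAe_main K (Real.exp (-η)) θ h0 h1)
  set r := Real.exp (-η) with hr
  have hrη : 1 - r ≤ η := by
    have := Real.add_one_le_exp (-η)
    linarith
  have hd : 0 < 1 - r := by linarith
  have hu0 : 0 ≤ 1 - Real.cos θ := by linarith [Real.cos_le_one θ]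
  have he : Real.exp (-((K + 1) * η)) = r ^ (K + 1) := by
    rw [hr, ← Real.exp_nat_mul]; congr 1; push_cast; ring
  rw [he]
  apply sub_le_sub_right
  rcases hu0.eq_or_lt with hu | hu
  · rw [← hu]; simp
  · apply div_le_div_of_nonneg_left (by positivity) (by positivity)
    apply mul_le_mul hrη _ (by positivity) hη.le
    have h2 : (1 - r) ^ 2 ≤ η ^ 2 := pow_le_pow_left₀ hd.le hrη 2
    have h3 : 2 * r * (1 - Real.cos θ) ≤ 2 * (1 - Real.cos θ) := by nlinarith
    linarith

theorem row_PAe : PAe_stmt := by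
  constructor
  · refine ⟨1 / 100, by norm_num, ?_⟩
    intro K η θ hη hη0 hθ
    refine le_trans (sub_le_sub_right ?_ _) (PAe_low K η θ hη)
    set r := Real.exp (-η) with hr
    have hr0 : 0.99 ≤ r := by
      have := Real.add_one_le_exp (-η)
      linarith
    have hθ2 : θ ^ 2 ≤ η ^ 2 / 100 := by
      have := pow_le_pow_left₀ (abs_nonneg θ) hθ 2
      rw [sq_abs] at this
      linarith [this, (by ring : (η / 10) ^ 2 = η ^ 2 / 100)]
    have hη2 : η ^ 2 ≤ 1 / 10000 := by nlinarith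
    have hθ1 : |θ| ≤ 1 := by
      refine hθ.trans ?_
      linarith
    have hcos := Real.cos_bound hθ1
    have h4 : |θ| ^ 4 = (θ ^ 2) ^ 2 := by
      have h40 : |θ| ^ 4 = (|θ| ^ 2) ^ 2 := by ring
      rw [h40, sq_abs]
    rw [h4, abs_le] at hcos
    have hu1 : θ ^ 2 / 2 * (1 - 1 / 1000) ≤ 1 - Real.cos θ := by
      have h5 : (θ ^ 2) ^ 2 * (5 / 96) ≤ θ ^ 2 / 2 * (1 / 1000) := by
        have : θ ^ 2 ≤ 1 / 1000000 := by linarith
        have h6 : 0 ≤ θ ^ 2 := sq_nonneg θ
        nlinarith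
      linarith [hcos.2]
    have hu2 : 2 * (1 - Real.cos θ) ≤ θ ^ 2 := by
      have := Real.one_sub_sq_div_two_le_cos (x := θ)
      linarith
    have hη3 : 0 < η ^ 3 := by positivity
    have hu0 : 0 ≤ 1 - Real.cos θ := by linarith [Real.cos_le_one θ]
    have hden : η * (η ^ 2 + 2 * (1 - Real.cos θ)) ≤ 1.01 * η ^ 3 := by
      have : η ^ 2 + 2 * (1 - Real.cos θ) ≤ 1.01 * η ^ 2 := by linarith
      calc η * (η ^ 2 + 2 * (1 - Real.cos θ)) ≤ η * (1.01 * η ^ 2) :=
            mul_le_mul_of_nonneg_left this hη.le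
        _ = 1.01 * η ^ 3 := by ring
    have hnum : 0.98 * θ ^ 2 ≤ r * (1 + r) * (1 - Real.cos θ) := by
      have h7 : 1.97 ≤ r * (1 + r) := by nlinarith
      calc 0.98 * θ ^ 2 ≤ 1.97 * (θ ^ 2 / 2 * (1 - 1 / 1000)) := by nlinarith [sq_nonneg θ]
        _ ≤ 1.97 * (1 - Real.cos θ) := mul_le_mul_of_nonneg_left hu1 (by norm_num)
        _ ≤ _ := mul_le_mul_of_nonneg_right h7 hu0
    calc 0.95 * θ ^ 2 / η ^ 3 ≤ 0.98 * θ ^ 2 / (1.01 * η ^ 3) := by
          rw [div_le_div_iff₀ hη3 (by positivity)]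
          have h8 : 0 ≤ θ ^ 2 * η ^ 3 := by positivity
          nlinarith
      _ ≤ r * (1 + r) * (1 - Real.cos θ) / (1.01 * η ^ 3) :=
          div_le_div_of_nonneg_right hnum (by positivity)
      _ ≤ _ := div_le_div_of_nonneg_left (by positivity) (by positivity) hden
  · refine ⟨1 / 100, by norm_num, ?_⟩
    intro K η θ hη hη0 hθ hθπ
    refine le_trans (sub_le_sub_right ?_ _) (PAe_low K η θ hη)
    set r := Real.exp (-η) with hr
    have hr0 : 0.99 ≤ r := by
      have := Real.add_one_le_exp (-η)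
      linarith
    have hc := Real.cos_le_one_sub_mul_cos_sq hθπ
    have hπ := Real.pi_pos
    have hπ2 : Real.pi ^ 2 ≤ 10 := by
      have h := Real.pi_lt_d2
      nlinarith
    have hθ2 : η ^ 2 / 100 ≤ θ ^ 2 := by
      have := pow_le_pow_left₀ (by positivity) hθ 2
      rw [sq_abs] at this
      linarith [this, (by ring : (η / 10) ^ 2 = η ^ 2 / 100)]
    have hu : η ^ 2 / 500 ≤ 1 - Real.cos θ := by
      have h1 : 2 / Real.pi ^ 2 * θ ^ 2 ≤ 1 - Real.cos θ := by linarith
      have h2 : (1 / 5 : ℝ) ≤ 2 / Real.pi ^ 2 := by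
        rw [div_le_div_iff₀ (by norm_num) (by positivity)]
        linarith
      have h3 : 1 / 5 * (η ^ 2 / 100) ≤ 2 / Real.pi ^ 2 * θ ^ 2 :=
        mul_le_mul h2 hθ2 (by positivity) (by positivity)
      linarith
    have hη2 : 0 < η ^ 2 := by positivity
    have hu0 : 0 < 1 - Real.cos θ := by linarith [div_pos hη2 (by norm_num : (0:ℝ) < 500)]
    have hnum : 1.9 * (1 - Real.cos θ) ≤ r * (1 + r) * (1 - Real.cos θ) := by
      have h7 : 1.9 ≤ r * (1 + r) := by nlinarith
      exact mul_le_mul_of_nonneg_right h7 hu0.le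
    calc 1 / (1000 * η) ≤ 1.9 * (1 - Real.cos θ) / (η * (η ^ 2 + 2 * (1 - Real.cos θ))) := by
          rw [div_le_div_iff₀ (by positivity) (by positivity)]
          have h8 : η ^ 2 ≤ 500 * (1 - Real.cos θ) := by linarith
          have h9 : η ^ 2 + 2 * (1 - Real.cos θ) ≤ 1900 * (1 - Real.cos θ) := by linarith
          calc 1 * (η * (η ^ 2 + 2 * (1 - Real.cos θ))) ≤ 1 * (η * (1900 * (1 - Real.cos θ))) := by
                apply mul_le_mul_of_nonneg_left _ (by norm_num)
                exact mul_le_mul_of_nonneg_left h9 hη.le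
            _ = 1.9 * (1 - Real.cos θ) * (1000 * η) := by ring
      _ ≤ _ := div_le_div_of_nonneg_right hnum (by positivity)

end ZT68
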