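/-
MP_1882ea_al, helper53.  Row PAf of the tank ZT: the saddle point exists.
-/
import Mathlib
import Pool.Agent.Lib.ZT68.PAd

namespace ZT68

open Finset

theorem PAf_cont (n : ℕ) : ContinuousOn (mm n) (Set.Ioi 0) := by
  unfold mm
  refine continuousOn_finsetSum _ fun k _ => ?_
  refine ContinuousOn.div continuousOn_const (by fun_prop) ?_
  intro η hη
  have hη' : 0 < η := hη
  have : 1 < Real.exp (((k : ℝ) + 1) * η) := by
    rw [Real.one_lt_exp_iff]
    positivity
  linarith

/-- `e^x - 1 ≥ x e^{x/2}` -/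
theorem PAf_sinh {x : ℝ} (hx : 0 ≤ x) : x * Real.exp (x / 2) ≤ Real.exp x - 1 := by
  have h1 : x / 2 ≤ Real.sinh (x / 2) := Real.self_le_sinh_iff.2 (by linarith)
  rw [Real.sinh_eq] at h1
  have h2 : Real.exp x = Real.exp (x / 2) * Real.exp (x / 2) := by
    rw [← Real.exp_add]; congr 1; ring
  have h3 : Real.exp (x / 2) * Real.exp (-(x / 2)) = 1 := by
    rw [← Real.exp_add]; simp
  have h4 : 0 < Real.exp (x / 2) := Real.exp_pos _
  nlinarith [mul_le_mul_of_nonneg_left h1 h4.le]

/-- `e^x - 1 ≤ (e - 1) x` on `[0, 1]` -/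
theorem PAf_convex {x : ℝ} (h0 : 0 ≤ x) (h1 : x ≤ 1) : Real.exp x - 1 ≤ 2 * x := by
  have hc := convexOn_exp.2 (Set.mem_univ (0 : ℝ)) (Set.mem_univ (1 : ℝ))
    (show 0 ≤ 1 - x by linarith) h0 (show 1 - x + x = 1 by ring)
  simp only [smul_eq_mul, mul_zero, mul_one, zero_add, Real.exp_zero] at hc
  have he : Real.exp 1 < 3 := by
    have := Real.exp_one_lt_d9
    linarith
  nlinarith

/-- row PAf -/
theorem row_PAf : PAf_stmt := by
  intro n hn
  have hn0 : (0 : ℝ) < n := by positivity
  have hn4 : (4 : ℝ) ≤ n := by exact_mod_cast hn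
  set s : ℝ := √(n : ℝ) with hs
  have hs0 : 0 < s := Real.sqrt_pos.2 hn0
  have hss : s * s = n := Real.mul_self_sqrt hn0.le
  have hs2 : 2 ≤ s := by
    rw [hs, show (2 : ℝ) = √4 by rw [show (4 : ℝ) = 2 ^ 2 by norm_num, Real.sqrt_sq (by norm_num)]]
    exact Real.sqrt_le_sqrt hn4
  have hab : 1 / (2 * s) ≤ 2 / s := by
    rw [div_le_div_iff₀ (by positivity) hs0]
    nlinarith
  have hlo : (n : ℝ) ≤ mm n (1 / (2 * s)) := by
    set η : ℝ := 1 / (2 * s) with hη
    have hη0 : 0 < η := by positivity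
    have hηs : η * (2 * s) = 1 := by rw [hη]; field_simp
    set m : ℕ := ⌊2 * s⌋₊ with hm
    have hm1 : (m : ℝ) ≤ 2 * s := Nat.floor_le (by positivity)
    have hm2 : 2 * s - 1 ≤ m := by
      have := Nat.lt_floor_add_one (2 * s)
      rw [← hm] at this
      linarith
    have hmn : m ≤ n := by
      have : (m : ℝ) ≤ n := by nlinarith
      exact_mod_cast this
    have hterm : ∀ k ∈ range m, s ≤ ((k : ℝ) + 1) / (Real.exp ((k + 1) * η) - 1) := by
      intro k hk
      have hk' : (k : ℝ) + 1 ≤ m := by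
        have : k + 1 ≤ m := mem_range.1 hk
        exact_mod_cast this
      have hx0 : 0 < ((k : ℝ) + 1) * η := by positivity
      have hx1 : ((k : ℝ) + 1) * η ≤ 1 := by
        rw [← hηs, mul_comm η]
        exact mul_le_mul_of_nonneg_right (by linarith) hη0.le
      have hpos : 0 < Real.exp (((k : ℝ) + 1) * η) - 1 := by
        have : 1 < Real.exp (((k : ℝ) + 1) * η) := by
          rw [Real.one_lt_exp_iff]; exact hx0
        linarith
      rw [le_div_iff₀ hpos]
      have h1 := PAf_convex hx0.le hx1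
      calc s * (Real.exp (((k : ℝ) + 1) * η) - 1) ≤ s * (2 * (((k : ℝ) + 1) * η)) :=
            mul_le_mul_of_nonneg_left h1 hs0.le
        _ = ((k : ℝ) + 1) * (η * (2 * s)) := by ring
        _ = (k : ℝ) + 1 := by rw [hηs]; ring
    calc (n : ℝ) = s * s := hss.symm
      _ ≤ m * s := by nlinarith
      _ = ∑ k ∈ range m, s := by simp
      _ ≤ ∑ k ∈ range m, ((k : ℝ) + 1) / (Real.exp ((k + 1) * η) - 1) := sum_le_sum hterm
      _ ≤ mm n η := by
        unfold mm
        refine sum_le_sum_of_subset_of_nonneg (range_subset_range.2 hmn) fun k _ _ => ?_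
        have : 1 < Real.exp (((k : ℝ) + 1) * η) := by
          rw [Real.one_lt_exp_iff]; positivity
        exact div_nonneg (by positivity) (by linarith)
  have hhi : mm n (2 / s) ≤ n := by
    set η : ℝ := 2 / s with hη
    have hη0 : 0 < η := by positivity
    set r : ℝ := Real.exp (-(η / 2)) with hr
    have hr0 : 0 < r := Real.exp_pos _
    have hr1 : r < 1 := by
      rw [hr, Real.exp_lt_one_iff]
      linarith
    have hterm : ∀ k ∈ range n, ((k : ℝ) + 1) / (Real.exp ((k + 1) * η) - 1) ≤ r ^ (k + 1) / η := by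
      intro k _
      have hx0 : 0 < ((k : ℝ) + 1) * η := by positivity
      have h1 := PAf_sinh hx0.le
      have hpos : 0 < Real.exp (((k : ℝ) + 1) * η) - 1 := by
        have : 1 < Real.exp (((k : ℝ) + 1) * η) := by
          rw [Real.one_lt_exp_iff]; exact hx0
        linarith
      rw [div_le_div_iff₀ hpos hη0]
      have hre : r ^ (k + 1) * Real.exp (((k : ℝ) + 1) * η / 2) = 1 := by
        rw [hr, ← Real.exp_nat_mul, ← Real.exp_add]
        have : ((k + 1 : ℕ) : ℝ) * -(η / 2) + ((k : ℝ) + 1) * η / 2 = 0 := by push_cast; ring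
        rw [this, Real.exp_zero]
      calc ((k : ℝ) + 1) * η = r ^ (k + 1) * (((k : ℝ) + 1) * η * Real.exp (((k : ℝ) + 1) * η / 2)) := by
            rw [show r ^ (k + 1) * (((k : ℝ) + 1) * η * Real.exp (((k : ℝ) + 1) * η / 2)) =
              (r ^ (k + 1) * Real.exp (((k : ℝ) + 1) * η / 2)) * (((k : ℝ) + 1) * η) by ring, hre, one_mul]
        _ ≤ r ^ (k + 1) * (Real.exp (((k : ℝ) + 1) * η) - 1) :=
            mul_le_mul_of_nonneg_left h1 (by positivity)
    have hgeo : ∑ k ∈ range n, r ^ (k + 1) ≤ 2 / η := by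
      have h1 : ∀ N : ℕ, (∑ k ∈ range N, r ^ (k + 1)) * (1 - r) = r * (1 - r ^ N) := by
        intro N
        induction N with
        | zero => simp
        | succ N ih => rw [sum_range_succ, add_mul, ih]; ring
      have h2 : (∑ k ∈ range n, r ^ (k + 1)) * (1 - r) ≤ r := by
        rw [h1 n]
        have : 0 ≤ r ^ n := by positivity
        nlinarith
      have h3 : r * (η / 2 + 1) ≤ 1 := by
        have h4 : η / 2 + 1 ≤ Real.exp (η / 2) := Real.add_one_le_exp _
        have h5 : r * Real.exp (η / 2) = 1 := by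
          rw [hr, ← Real.exp_add]; simp
        calc r * (η / 2 + 1) ≤ r * Real.exp (η / 2) := mul_le_mul_of_nonneg_left h4 hr0.le
          _ = 1 := h5
      have h6 : r * (η / 2) ≤ 1 - r := by linarith
      have h7 : r ≤ (1 - r) * (2 / η) := by
        rw [mul_div_assoc', le_div_iff₀ hη0]
        linarith
      have h8 : (∑ k ∈ range n, r ^ (k + 1)) * (1 - r) ≤ (2 / η) * (1 - r) := by
        rw [mul_comm (2 / η)]
        exact h2.trans h7
      exact le_of_mul_le_mul_right h8 (by linarith)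
    calc mm n η ≤ ∑ k ∈ range n, r ^ (k + 1) / η := sum_le_sum hterm
      _ = (∑ k ∈ range n, r ^ (k + 1)) / η := by rw [sum_div]
      _ ≤ (2 / η) / η := by gcongr
      _ = s * s / 2 := by rw [hη]; field_simp
      _ ≤ n := by rw [hss]; linarith
  obtain ⟨η, hη, he⟩ := (intermediate_value_Icc' hab
    ((PAf_cont n).mono (fun x hx => lt_of_lt_of_le (by positivity) hx.1))) ⟨hhi, hlo⟩
  exact ⟨η, hη.1, hη.2, he⟩

end ZT68
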