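/-
MP_1882ea_al, helper68.  Row PAg: assembly of the saddle point bounds.
-/
import Mathlib
import Pool.Agent.Lib.ZT68.PAd

namespace ZT68

open Finset Filter Topology MeasureTheory

theorem PAg_phi (hb : PAb_stmt) (he : PAe_stmt) : ∃ η1 : ℝ, 0 < η1 ∧ ∀ (K N : ℕ) (η θ : ℝ), 0 < η →
    η ≤ η1 → |θ| ≤ Real.pi →
    2 * Real.exp (-((K + 1) * η)) / (1 - Real.exp (-η)) ≤ Real.log 1.01 →
    ‖phi K η N θ‖ ≤ 1.01 * (Real.exp (-(0.95 / η ^ 3 * θ ^ 2)) + Real.exp (-(1 / (1000 * η)))) := by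
  obtain ⟨a, ha, hnear⟩ := he.near
  obtain ⟨b, hb0, hfar⟩ := he.far
  refine ⟨min a b, lt_min ha hb0, ?_⟩
  intro K N η θ hη hη1 hθ hτ
  have h1 := hb.decay K N η θ hη
  have hlog : Real.exp (Real.log 1.01) = 1.01 := Real.exp_log (by norm_num)
  by_cases hc : |θ| ≤ η / 10
  · have h2 := hnear K η θ hη (hη1.trans (min_le_left _ _)) hc
    calc ‖phi K η N θ‖ ≤ Real.exp (-dd K η θ) := h1
      _ ≤ Real.exp (Real.log 1.01 + -(0.95 / η ^ 3 * θ ^ 2)) := by
          apply Real.exp_le_exp.2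
          have e : 0.95 * θ ^ 2 / η ^ 3 = 0.95 / η ^ 3 * θ ^ 2 := by ring
          rw [e] at h2
          linarith
      _ = 1.01 * Real.exp (-(0.95 / η ^ 3 * θ ^ 2)) := by rw [Real.exp_add, hlog]
      _ ≤ _ := by
          have := Real.exp_pos (-(1 / (1000 * η)))
          linarith
  · have h2 := hfar K η θ hη (hη1.trans (min_le_right _ _)) (le_of_not_ge hc) hθ
    calc ‖phi K η N θ‖ ≤ Real.exp (-dd K η θ) := h1
      _ ≤ Real.exp (Real.log 1.01 + -(1 / (1000 * η))) := by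
          apply Real.exp_le_exp.2
          linarith
      _ = 1.01 * Real.exp (-(1 / (1000 * η))) := by rw [Real.exp_add, hlog]
      _ ≤ _ := by
          have := Real.exp_pos (-(0.95 / η ^ 3 * θ ^ 2))
          linarith

theorem PAg_ftc (a x y : ℝ) (ha : 0 < a) :
    ∫ θ in x..y, θ * Real.exp (-(a * θ ^ 2)) =
      (Real.exp (-(a * x ^ 2)) - Real.exp (-(a * y ^ 2))) / (2 * a) := by
  have h : ∀ θ ∈ Set.uIcc x y, HasDerivAt (fun θ : ℝ => -(Real.exp (-(a * θ ^ 2)) / (2 * a)))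
      (θ * Real.exp (-(a * θ ^ 2))) θ := by
    intro θ _
    have h1 : HasDerivAt (fun θ : ℝ => -(a * θ ^ 2)) (-(a * (2 * θ))) θ := by
      have h0 : HasDerivAt (fun θ : ℝ => θ ^ 2) (2 * θ) θ := by
        simpa using hasDerivAt_pow 2 θ
      exact (h0.const_mul a).neg
    have h2 := ((h1.exp).div_const (2 * a)).neg
    refine h2.congr_deriv ?_
    field_simp
  rw [intervalIntegral.integral_eq_sub_of_hasDerivAt h]
  · ring
  · apply Continuous.intervalIntegrable
    fun_prop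

/-- tail of the Gaussian integral -/
theorem PAg_tail (a x y : ℝ) (ha : 0 < a) (hx : 0 < x) (hxy : x ≤ y) :
    ∫ θ in x..y, Real.exp (-(a * θ ^ 2)) ≤ Real.exp (-(a * x ^ 2)) / (2 * a * x) := by
  have h1 : ∫ θ in x..y, Real.exp (-(a * θ ^ 2)) ≤
      ∫ θ in x..y, x⁻¹ * (θ * Real.exp (-(a * θ ^ 2))) := by
    apply intervalIntegral.integral_mono_on hxy
    · apply Continuous.intervalIntegrable; fun_prop
    · apply Continuous.intervalIntegrable; fun_prop
    · intro θ hθ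
      have : 1 ≤ x⁻¹ * θ := by
        rw [inv_mul_eq_div, le_div_iff₀ hx]
        simpa using hθ.1
      calc Real.exp (-(a * θ ^ 2)) = 1 * Real.exp (-(a * θ ^ 2)) := (one_mul _).symm
        _ ≤ (x⁻¹ * θ) * Real.exp (-(a * θ ^ 2)) := by
            gcongr
        _ = _ := by ring
  rw [intervalIntegral.integral_const_mul, PAg_ftc a x y ha] at h1
  refine h1.trans ?_
  have h2 : 0 < Real.exp (-(a * y ^ 2)) := Real.exp_pos _
  have h3 : x⁻¹ * ((Real.exp (-(a * x ^ 2)) - Real.exp (-(a * y ^ 2))) / (2 * a)) =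
      (Real.exp (-(a * x ^ 2)) - Real.exp (-(a * y ^ 2))) / (2 * a * x) := by
    field_simp
  rw [h3]
  gcongr
  linarith

theorem PAg_odd (a y : ℝ) (ha : 0 < a) (hy : 0 ≤ y) :
    ∫ θ in (-y)..y, |θ| * Real.exp (-(a * θ ^ 2)) ≤ 1 / a := by
  have hint : ∀ u v : ℝ, IntervalIntegrable (fun θ : ℝ => |θ| * Real.exp (-(a * θ ^ 2))) volume u v := by
    intro u v
    apply Continuous.intervalIntegrable
    fun_prop
  have hhalf : ∫ θ in (0 : ℝ)..y, |θ| * Real.exp (-(a * θ ^ 2)) ≤ 1 / (2 * a) := by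
    have e : ∫ θ in (0 : ℝ)..y, |θ| * Real.exp (-(a * θ ^ 2)) =
        ∫ θ in (0 : ℝ)..y, θ * Real.exp (-(a * θ ^ 2)) := by
      apply intervalIntegral.integral_congr
      intro θ hθ
      rw [Set.uIcc_of_le hy] at hθ
      simp only [abs_of_nonneg hθ.1]
    rw [e, PAg_ftc a 0 y ha]
    have h2 : 0 < Real.exp (-(a * y ^ 2)) := Real.exp_pos _
    gcongr
    simp
    positivity
  have hneg : ∫ θ in (-y)..(0 : ℝ), |θ| * Real.exp (-(a * θ ^ 2)) =
      ∫ θ in (0 : ℝ)..y, |θ| * Real.exp (-(a * θ ^ 2)) := by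
    have := intervalIntegral.integral_comp_neg (a := 0) (b := y)
      (fun θ : ℝ => |θ| * Real.exp (-(a * θ ^ 2)))
    simp only [abs_neg, even_two, Even.neg_pow, neg_zero] at this
    exact this.symm
  rw [← intervalIntegral.integral_add_adjacent_intervals (hint (-y) 0) (hint 0 y), hneg]
  calc _ ≤ 1 / (2 * a) + 1 / (2 * a) := add_le_add hhalf hhalf
    _ = 1 / a := by field_simp; norm_num

/-- first absolute moment of the integrand -/
theorem PAg_mom (ha : PAa_stmt) (K N : ℕ) (η E : ℝ) (hη : 0 < η)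
    (hphi : ∀ θ, |θ| ≤ Real.pi → ‖phi K η N θ‖ ≤ 1.01 * (Real.exp (-(0.95 / η ^ 3 * θ ^ 2)) + E)) :
    ∫ θ in (-Real.pi)..Real.pi, |θ| * ‖phi K η N θ‖ ≤ 1.01 * (η ^ 3 / 0.95 + E * Real.pi ^ 2) := by
  have hpi := Real.pi_pos
  have hc := ha.cont K N η hη
  have h1 : ∫ θ in (-Real.pi)..Real.pi, |θ| * ‖phi K η N θ‖ ≤
      ∫ θ in (-Real.pi)..Real.pi, (1.01 * (|θ| * Real.exp (-(0.95 / η ^ 3 * θ ^ 2))) +
        1.01 * E * |θ|) := by
    apply intervalIntegral.integral_mono_on (by linarith)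
    · apply Continuous.intervalIntegrable
      fun_prop
    · apply Continuous.intervalIntegrable; fun_prop
    · intro θ hθ
      have := hphi θ (abs_le.2 hθ)
      calc |θ| * ‖phi K η N θ‖ ≤ |θ| * (1.01 * (Real.exp (-(0.95 / η ^ 3 * θ ^ 2)) + E)) := by
            gcongr
        _ = _ := by ring
  have h2 : ∫ θ in (-Real.pi)..Real.pi, |θ| = Real.pi ^ 2 := by
    have hint : ∀ u v : ℝ, IntervalIntegrable (fun θ : ℝ => |θ|) volume u v := by
      intro u v
      apply Continuous.intervalIntegrable; fun_prop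
    rw [← intervalIntegral.integral_add_adjacent_intervals (hint (-Real.pi) 0) (hint 0 Real.pi)]
    have e1 : ∫ θ in (0 : ℝ)..Real.pi, |θ| = Real.pi ^ 2 / 2 := by
      have : ∫ θ in (0 : ℝ)..Real.pi, |θ| = ∫ θ in (0 : ℝ)..Real.pi, θ := by
        apply intervalIntegral.integral_congr
        intro θ hθ
        rw [Set.uIcc_of_le hpi.le] at hθ
        simp only [abs_of_nonneg hθ.1]
      rw [this, integral_id]
      ring
    have e2 : ∫ θ in (-Real.pi)..(0 : ℝ), |θ| = ∫ θ in (0 : ℝ)..Real.pi, |θ| := by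
      have := intervalIntegral.integral_comp_neg (a := 0) (b := Real.pi) (fun θ : ℝ => |θ|)
      simp only [abs_neg, neg_zero] at this
      exact this.symm
    rw [e2, e1]; ring
  rw [intervalIntegral.integral_add, intervalIntegral.integral_const_mul,
    intervalIntegral.integral_const_mul, h2] at h1
  · refine h1.trans ?_
    have h3 := PAg_odd (0.95 / η ^ 3) Real.pi (by positivity) hpi.le
    have h4 : 1 / (0.95 / η ^ 3) = η ^ 3 / 0.95 := by field_simp
    rw [h4] at h3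
    nlinarith
  · apply Continuous.intervalIntegrable; fun_prop
  · apply Continuous.intervalIntegrable; fun_prop

/-- lower bound for the integral -/
theorem PAg_lower (ha : PAa_stmt) (K N : ℕ) (η E : ℝ) (hη : 0 < η) (hη1 : η ≤ 1) (hE : 0 ≤ E)
    (hphi : ∀ θ, |θ| ≤ Real.pi → ‖phi K η N θ‖ ≤ 1.01 * (Real.exp (-(0.95 / η ^ 3 * θ ^ 2)) + E))
    (hnear : ∀ θ, ‖phi K η N θ - 1‖ ≤ 3.3 / η ^ 3 * θ ^ 2 / 2) :
    0.25 * (η * √η) - 1.01 * E * (2 * Real.pi) ≤
      (∫ θ in (-Real.pi)..Real.pi, phi K η N θ).re := by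
  have hpi := Real.pi_pos
  have hpi3 := Real.pi_gt_three
  have hc := ha.cont K N η hη
  set w : ℝ := η * √η with hw
  have hs0 : 0 < √η := Real.sqrt_pos.2 hη
  have hs2 : √η ^ 2 = η := Real.sq_sqrt hη.le
  have hs1 : √η ≤ 1 := by
    rw [Real.sqrt_le_one]; exact hη1
  have hw0 : 0 < w := by positivity
  have hw1 : w ≤ 1 := by
    calc w = η * √η := rfl
      _ ≤ 1 * 1 := by gcongr
      _ = 1 := one_mul 1
  have hw2 : w ^ 2 = η ^ 3 := by
    rw [hw, mul_pow, hs2]; ring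
  set x : ℝ := 0.78 * w with hx
  have hx0 : 0 < x := by positivity
  have hxpi : x ≤ Real.pi := by
    have : x ≤ 0.78 * 1 := by rw [hx]; gcongr
    linarith
  have hre : (∫ θ in (-Real.pi)..Real.pi, phi K η N θ).re =
      ∫ θ in (-Real.pi)..Real.pi, (phi K η N θ).re := by
    have := Complex.reCLM.intervalIntegral_comp_comm (a := -Real.pi) (b := Real.pi)
      (μ := volume) (f := phi K η N) (hc.intervalIntegrable _ _)
    simpa using this.symm
  have hcre : Continuous (fun θ => (phi K η N θ).re) := Complex.continuous_re.comp hc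
  have hint : ∀ u v : ℝ, IntervalIntegrable (fun θ => (phi K η N θ).re) volume u v :=
    fun u v => hcre.intervalIntegrable _ _
  -- the middle
  have hmid : 2 * (x - 0.55 / η ^ 3 * x ^ 3) ≤ ∫ θ in (-x)..x, (phi K η N θ).re := by
    have h1 : ∫ θ in (-x)..x, (1 - 1.65 / η ^ 3 * θ ^ 2) ≤ ∫ θ in (-x)..x, (phi K η N θ).re := by
      apply intervalIntegral.integral_mono_on (by linarith)
      · apply Continuous.intervalIntegrable; fun_prop
      · exact hint _ _
      · intro θ _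
        have h2 := hnear θ
        have h3 : |(phi K η N θ - 1).re| ≤ ‖phi K η N θ - 1‖ := Complex.abs_re_le_norm _
        have h4 := (abs_le.1 (h3.trans h2)).1
        simp only [Complex.sub_re, Complex.one_re] at h4
        have e : 3.3 / η ^ 3 * θ ^ 2 / 2 = 1.65 / η ^ 3 * θ ^ 2 := by ring
        rw [e] at h4
        linarith
    refine le_trans (le_of_eq ?_) h1
    rw [intervalIntegral.integral_sub, intervalIntegral.integral_const_mul, integral_pow]
    · simp only [intervalIntegral.integral_const]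
      simp
      ring
    · apply Continuous.intervalIntegrable; fun_prop
    · apply Continuous.intervalIntegrable; fun_prop
  -- the right tail
  set a : ℝ := 0.95 / η ^ 3 with haa
  have ha0 : 0 < a := by positivity
  have htail : ∫ θ in x..Real.pi, (1.01 * (Real.exp (-(a * θ ^ 2)) + E)) ≤
      1.01 * (Real.exp (-(a * x ^ 2)) / (2 * a * x)) + 1.01 * E * Real.pi := by
    have h1 : ∫ θ in x..Real.pi, (1.01 * (Real.exp (-(a * θ ^ 2)) + E)) =
        1.01 * ((∫ θ in x..Real.pi, Real.exp (-(a * θ ^ 2))) + (Real.pi - x) * E) := by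
      rw [intervalIntegral.integral_const_mul, intervalIntegral.integral_add]
      · simp
      · apply Continuous.intervalIntegrable; fun_prop
      · apply Continuous.intervalIntegrable; fun_prop
    rw [h1]
    have h2 := PAg_tail a x Real.pi ha0 hx0 hxpi
    have h3 : (Real.pi - x) * E ≤ Real.pi * E := by
      apply mul_le_mul_of_nonneg_right _ hE
      linarith
    linarith
  have hright : -(1.01 * (Real.exp (-(a * x ^ 2)) / (2 * a * x)) + 1.01 * E * Real.pi) ≤
      ∫ θ in x..Real.pi, (phi K η N θ).re := by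
    have h1 : ∫ θ in x..Real.pi, -(1.01 * (Real.exp (-(a * θ ^ 2)) + E)) ≤
        ∫ θ in x..Real.pi, (phi K η N θ).re := by
      apply intervalIntegral.integral_mono_on hxpi
      · apply Continuous.intervalIntegrable; fun_prop
      · exact hint _ _
      · intro θ hθ
        have h2 := hphi θ (abs_le.2 ⟨by linarith [hθ.1], hθ.2⟩)
        have h3 : |(phi K η N θ).re| ≤ ‖phi K η N θ‖ := Complex.abs_re_le_norm _
        exact (abs_le.1 (h3.trans h2)).1
    rw [intervalIntegral.integral_neg] at h1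
    linarith
  have hleft : -(1.01 * (Real.exp (-(a * x ^ 2)) / (2 * a * x)) + 1.01 * E * Real.pi) ≤
      ∫ θ in (-Real.pi)..(-x), (phi K η N θ).re := by
    have h0 : ∫ θ in (-Real.pi)..(-x), (phi K η N θ).re = ∫ θ in x..Real.pi, (phi K η N (-θ)).re := by
      rw [intervalIntegral.integral_comp_neg (fun θ => (phi K η N θ).re)]
    rw [h0]
    have h1 : ∫ θ in x..Real.pi, -(1.01 * (Real.exp (-(a * θ ^ 2)) + E)) ≤
        ∫ θ in x..Real.pi, (phi K η N (-θ)).re := by
      apply intervalIntegral.integral_mono_on hxpi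
      · apply Continuous.intervalIntegrable; fun_prop
      · exact (hcre.comp continuous_neg).intervalIntegrable _ _
      · intro θ hθ
        have h2 := hphi (-θ) (by rw [abs_neg]; exact abs_le.2 ⟨by linarith [hθ.1], hθ.2⟩)
        have h3 : |(phi K η N (-θ)).re| ≤ ‖phi K η N (-θ)‖ := Complex.abs_re_le_norm _
        have h4 := (abs_le.1 (h3.trans h2)).1
        simpa only [even_two, Even.neg_pow] using h4
    rw [intervalIntegral.integral_neg] at h1
    linarith
  have hsum : ∫ θ in (-Real.pi)..Real.pi, (phi K η N θ).re =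
      (∫ θ in (-Real.pi)..(-x), (phi K η N θ).re) + (∫ θ in (-x)..x, (phi K η N θ).re) +
        ∫ θ in x..Real.pi, (phi K η N θ).re := by
    rw [intervalIntegral.integral_add_adjacent_intervals (hint _ _) (hint _ _),
      intervalIntegral.integral_add_adjacent_intervals (hint _ _) (hint _ _)]
  rw [hre, hsum]
  -- numbers
  have hax : a * x ^ 2 = 0.95 * 0.78 ^ 2 := by
    rw [haa, hx, mul_pow, hw2]
    field_simp
  have hex : Real.exp (-(a * x ^ 2)) ≤ 0.5775 := by
    rw [hax, Real.exp_neg]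
    have h1 := Real.quadratic_le_exp_of_nonneg (x := 0.57) (by norm_num)
    have h2 : Real.exp 0.57 ≤ Real.exp (0.95 * 0.78 ^ 2) := Real.exp_le_exp.2 (by norm_num)
    have h3 : (1.73245 : ℝ) ≤ Real.exp (0.95 * 0.78 ^ 2) := by
      refine le_trans ?_ (h1.trans h2)
      norm_num
    calc (Real.exp (0.95 * 0.78 ^ 2))⁻¹ ≤ (1.73245 : ℝ)⁻¹ := by
          apply inv_anti₀ (by norm_num) h3
      _ ≤ 0.5775 := by norm_num
  have h2ax : 2 * a * x = 2 * 0.95 * 0.78 / w := by
    have : η ^ 3 = w ^ 2 := hw2.symm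
    rw [haa, hx, this]
    field_simp
  have hdiv : Real.exp (-(a * x ^ 2)) / (2 * a * x) ≤ 0.39 * w := by
    rw [h2ax, div_div_eq_mul_div, div_le_iff₀ (by norm_num)]
    nlinarith
  have hx3 : 0.55 / η ^ 3 * x ^ 3 = 0.55 * 0.78 ^ 3 * w := by
    have : η ^ 3 = w ^ 2 := hw2.symm
    rw [hx, this]
    field_simp
  rw [hx3] at hmid
  have hxw : x = 0.78 * w := rfl
  linarith


theorem PAg_shift (K N s : ℕ) (hs : s ≤ N) (η θ : ℝ) :
    phi K η (N - s) θ = phi K η N θ * Complex.exp (Complex.I * ((s * θ : ℝ) : ℂ)) := by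
  unfold phi
  have e : Complex.exp (-(((N - s : ℕ) : ℂ) * θ * Complex.I)) =
      Complex.exp (-((N : ℂ) * θ * Complex.I)) * Complex.exp (Complex.I * ((s * θ : ℝ) : ℂ)) := by
    rw [← Complex.exp_add]
    congr 1
    rw [Nat.cast_sub hs]
    push_cast
    ring
  rw [e]
  ring

theorem PAg_diff (ha : PAa_stmt) (K N s : ℕ) (hs : s ≤ N) (η M : ℝ) (hη : 0 < η)
    (hM : ∫ θ in (-Real.pi)..Real.pi, |θ| * ‖phi K η N θ‖ ≤ M) :
    |(2 * Real.pi) * (pK K (N - s) * Real.exp (-((N - s : ℕ) * η)) / GG K η) -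
      (2 * Real.pi) * (pK K N * Real.exp (-(N * η)) / GG K η)| ≤ s * M := by
  have hpi := Real.pi_pos
  have hc := ha.cont K N η hη
  have h1 := ha.int K N η hη
  have h2 := ha.int K (N - s) η hη
  have h3 : (((2 * Real.pi) * (pK K (N - s) * Real.exp (-((N - s : ℕ) * η)) / GG K η) -
      (2 * Real.pi) * (pK K N * Real.exp (-(N * η)) / GG K η) : ℝ) : ℂ) =
      ∫ θ in (-Real.pi)..Real.pi, phi K η N θ * (Complex.exp (Complex.I * ((s * θ : ℝ) : ℂ)) - 1) := by
    rw [Complex.ofReal_sub, h1, h2, ← intervalIntegral.integral_sub]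
    · apply intervalIntegral.integral_congr
      intro θ _
      simp only
      rw [PAg_shift K N s hs]
      ring
    · exact (ha.cont K (N - s) η hη).intervalIntegrable _ _
    · exact hc.intervalIntegrable _ _
  rw [← Real.norm_eq_abs, ← Complex.norm_real, h3]
  refine (intervalIntegral.norm_integral_le_integral_norm (by linarith)).trans ?_
  have h4 : ∫ θ in (-Real.pi)..Real.pi,
      ‖phi K η N θ * (Complex.exp (Complex.I * ((s * θ : ℝ) : ℂ)) - 1)‖ ≤
      ∫ θ in (-Real.pi)..Real.pi, (s : ℝ) * (|θ| * ‖phi K η N θ‖) := by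
    apply intervalIntegral.integral_mono_on (by linarith)
    · apply Continuous.intervalIntegrable; fun_prop
    · apply Continuous.intervalIntegrable; fun_prop
    · intro θ _
      rw [norm_mul]
      have h5 := Real.norm_exp_I_mul_ofReal_sub_one_le (x := s * θ)
      rw [Real.norm_eq_abs, abs_mul, Nat.abs_cast] at h5
      calc ‖phi K η N θ‖ * ‖Complex.exp (Complex.I * ((s * θ : ℝ) : ℂ)) - 1‖ ≤
          ‖phi K η N θ‖ * (s * |θ|) := by gcongr
        _ = _ := by ring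
  refine h4.trans ?_
  rw [intervalIntegral.integral_const_mul]
  gcongr

theorem PAg_GG_pos (K : ℕ) (η : ℝ) (hη : 0 < η) : 0 < GG K η := by
  unfold GG
  apply Finset.prod_pos
  intro k _
  apply inv_pos.2
  have : Real.exp (-((k + 1) * η)) < 1 := by
    rw [Real.exp_lt_one_iff]
    have : (0 : ℝ) < (k + 1) * η := by positivity
    linarith
  linarith

theorem PAg_GG_step (K : ℕ) (η : ℝ) :
    GG (K + 1) η = GG K η * (1 - Real.exp (-((K + 1) * η)))⁻¹ := by
  unfold GG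
  rw [Finset.prod_range_succ]

theorem PAg_GG_mono (η : ℝ) (hη : 0 < η) : Monotone (fun K => GG K η) := by
  apply monotone_nat_of_le_succ
  intro K
  rw [PAg_GG_step]
  have h1 : Real.exp (-(((K : ℝ) + 1) * η)) < 1 := by
    rw [Real.exp_lt_one_iff]
    have : (0 : ℝ) < (K + 1) * η := by positivity
    linarith
  have h2 : 0 < Real.exp (-(((K : ℝ) + 1) * η)) := Real.exp_pos _
  have h3 : 1 ≤ (1 - Real.exp (-(((K : ℝ) + 1) * η)))⁻¹ := by
    apply (one_le_inv₀ (by linarith)).2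
    linarith
  have := PAg_GG_pos K η hη
  nlinarith

theorem PAg_inv_le (a : ℝ) (h0 : 0 ≤ a) (h1 : a ≤ 1 / 2) : (1 - a)⁻¹ ≤ Real.exp (2 * a) := by
  have h2 : 1 + 2 * a ≤ Real.exp (2 * a) := by
    have := Real.add_one_le_exp (2 * a)
    linarith
  refine le_trans ?_ h2
  rw [inv_le_iff_one_le_mul₀ (by linarith)]
  nlinarith

theorem PAg_GG_tail (n m : ℕ) (η : ℝ) (hη : 0 < η) (h : Real.exp (-((n + 1) * η)) ≤ 1 / 2) :
    GG (n + m) η ≤ GG n η * Real.exp (2 * ∑ k ∈ range m, Real.exp (-((n + 1) * η)) *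
      Real.exp (-η) ^ k) := by
  induction m with
  | zero => simp
  | succ m ih =>
    rw [← add_assoc, PAg_GG_step, Finset.sum_range_succ, mul_add, Real.exp_add, ← mul_assoc]
    have e : Real.exp (-((((n + m : ℕ) : ℝ) + 1) * η)) = Real.exp (-((n + 1) * η)) * Real.exp (-η) ^ m := by
      rw [← Real.exp_nat_mul, ← Real.exp_add]
      congr 1
      push_cast
      ring
    rw [e]
    have h0 : 0 ≤ Real.exp (-((n + 1) * η)) * Real.exp (-η) ^ m := by positivity
    have h1 : Real.exp (-((n + 1) * η)) * Real.exp (-η) ^ m ≤ 1 / 2 := by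
      have : Real.exp (-η) ^ m ≤ 1 := by
        apply pow_le_one₀ (Real.exp_pos _).le
        rw [Real.exp_le_one_iff]; linarith
      calc _ ≤ (1 / 2 : ℝ) * 1 := by gcongr
        _ = _ := by norm_num
    have h2 := PAg_inv_le _ h0 h1
    have h3 := PAg_GG_pos n η hη
    have h4 : 0 ≤ (1 - Real.exp (-((n + 1) * η)) * Real.exp (-η) ^ m)⁻¹ := by
      apply inv_nonneg.2; linarith
    gcongr

theorem PAg_GG_le (n K : ℕ) (η : ℝ) (hη : 0 < η) (h : Real.exp (-((n + 1) * η)) ≤ 1 / 2)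
    (hτ : 2 * Real.exp (-((n + 1) * η)) / (1 - Real.exp (-η)) ≤ Real.log 1.01) :
    GG K η ≤ 1.01 * GG n η := by
  have hG := PAg_GG_pos n η hη
  rcases le_total K n with hK | hK
  · have := PAg_GG_mono η hη hK
    simp only at this
    linarith
  · obtain ⟨m, rfl⟩ := Nat.exists_eq_add_of_le hK
    refine (PAg_GG_tail n m η hη h).trans ?_
    have hr1 : Real.exp (-η) < 1 := by
      rw [Real.exp_lt_one_iff]; linarith
    have h1 : ∑ k ∈ range m, Real.exp (-η) ^ k ≤ (1 - Real.exp (-η))⁻¹ := by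
      exact (Summable.sum_le_tsum (range m) (fun k _ => pow_nonneg (Real.exp_pos _).le k)
        (summable_geometric_of_lt_one (Real.exp_pos _).le hr1)).trans
        (le_of_eq (tsum_geometric_of_lt_one (Real.exp_pos _).le hr1))
    rw [← Finset.mul_sum, mul_comm (1.01 : ℝ)]
    gcongr
    have h2 : 2 * (Real.exp (-((n + 1) * η)) * ∑ k ∈ range m, Real.exp (-η) ^ k) ≤ Real.log 1.01 := by
      refine le_trans ?_ hτ
      rw [div_eq_mul_inv, ← mul_assoc]
      gcongr
    calc Real.exp (2 * (Real.exp (-((n + 1) * η)) * ∑ k ∈ range m, Real.exp (-η) ^ k)) ≤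
        Real.exp (Real.log 1.01) := Real.exp_le_exp.2 h2
      _ = 1.01 := Real.exp_log (by norm_num)


/-- the core: both bounds at a saddle point -/
theorem PAg_core (ha : PAa_stmt) (hb : PAb_stmt) (hcV : PAc_stmt) (he : PAe_stmt) :
    ∃ η1 : ℝ, 0 < η1 ∧ ∀ (n : ℕ) (η : ℝ), 0 < η → η ≤ η1 → η ≤ 1 → mm n η = n →
    2 * Real.exp (-((n + 1) * η)) / (1 - Real.exp (-η)) ≤ Real.log 1.01 →
    Real.exp (-(1 / (1000 * η))) ≤ 0.001 * η ^ 3 →
    0.2 * (η * √η) ≤ (2 * Real.pi) * (pp n * Real.exp (-(n * η)) / GG n η) ∧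
    ∀ s ≤ n, |(2 * Real.pi) * (pp (n - s) * Real.exp (-((n - s : ℕ) * η)) / GG n η) -
      (2 * Real.pi) * (pp n * Real.exp (-(n * η)) / GG n η)| ≤ s * (2 * η ^ 3) := by
  obtain ⟨η1, h1, hphi⟩ := PAg_phi hb he
  refine ⟨η1, h1, ?_⟩
  intro n η hη hη1 hη2 hm hτ hE
  have hpi := Real.pi_pos
  have hpi4 : Real.pi < 3.15 := Real.pi_lt_d2
  set E := Real.exp (-(1 / (1000 * η))) with hEdef
  have hE0 : 0 ≤ E := (Real.exp_pos _).le
  have hph : ∀ θ, |θ| ≤ Real.pi → ‖phi n η n θ‖ ≤ 1.01 * (Real.exp (-(0.95 / η ^ 3 * θ ^ 2)) + E) :=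
    fun θ hθ => hphi n n η θ hη hη1 hθ hτ
  have hη3 : 0 < η ^ 3 := by positivity
  constructor
  · have hnear : ∀ θ, ‖phi n η n θ - 1‖ ≤ 3.3 / η ^ 3 * θ ^ 2 / 2 := by
      intro θ
      refine (hb.near n n η θ hη hm).trans ?_
      have := hcV n η hη
      gcongr
    have h2 := PAg_lower ha n n η E hη hη2 hE0 hph hnear
    rw [← ha.int n n η hη, Complex.ofReal_re, pK_eq_pp le_rfl] at h2
    have hw : η ^ 3 ≤ η * √η := by
      have hs0 : 0 < √η := Real.sqrt_pos.2 hη
      have hs2 : √η ^ 2 = η := Real.sq_sqrt hη.le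
      have hs1 : √η ≤ 1 := by
        rw [Real.sqrt_le_one]; exact hη2
      have : η ^ 2 ≤ √η := by
        calc η ^ 2 = √η * (√η * η) := by nlinarith
          _ ≤ √η * (1 * 1) := by gcongr
          _ = √η := by ring
      nlinarith
    have h3 : 1.01 * E * (2 * Real.pi) ≤ 0.007 * η ^ 3 := by
      calc 1.01 * E * (2 * Real.pi) ≤ 1.01 * (0.001 * η ^ 3) * (2 * 3.15) := by gcongr
        _ ≤ _ := by nlinarith
    linarith
  · intro s hs
    have h2 := PAg_mom ha n n η E hη hph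
    have h3 : 1.01 * (η ^ 3 / 0.95 + E * Real.pi ^ 2) ≤ 2 * η ^ 3 := by
      have : E * Real.pi ^ 2 ≤ (0.001 * η ^ 3) * 3.15 ^ 2 := by gcongr
      have e : η ^ 3 / 0.95 ≤ 1.06 * η ^ 3 := by
        rw [div_le_iff₀ (by norm_num)]
        nlinarith
      nlinarith
    have h4 := PAg_diff ha n n s hs η _ hη (h2.trans h3)
    rwa [pK_eq_pp le_rfl, pK_eq_pp (Nat.sub_le n s)] at h4

theorem PAg_pp_pos (n : ℕ) : 0 < pp n := by
  unfold pp
  exact Fintype.card_pos

theorem PAg_tend (c : ℝ) (hc : 0 < c) (k : ℕ) :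
    Tendsto (fun n : ℕ => (√(n : ℝ)) ^ k * Real.exp (-(c * √(n : ℝ)))) atTop (𝓝 0) := by
  have h1 := Real.tendsto_pow_mul_exp_neg_atTop_nhds_zero k
  have h2 : Tendsto (fun n : ℕ => c * √(n : ℝ)) atTop atTop := by
    apply Tendsto.const_mul_atTop hc
    exact (Real.tendsto_sqrt_atTop).comp tendsto_natCast_atTop_atTop
  have h3 := (h1.comp h2).const_mul ((c ^ k)⁻¹)
  rw [mul_zero] at h3
  refine h3.congr ?_
  intro n
  simp only [Function.comp]
  rw [mul_pow]
  field_simp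


theorem PAg_one_sub (x : ℝ) (h0 : 0 < x) (h1 : x ≤ 1) : x / 2 ≤ 1 - Real.exp (-x) := by
  have h2 := Real.add_one_le_exp x
  have h3 : Real.exp (-x) ≤ (x + 1)⁻¹ := by
    rw [Real.exp_neg]
    exact inv_anti₀ (by linarith) h2
  have h4 : (x + 1)⁻¹ ≤ 1 - x / 2 := by
    rw [inv_le_iff_one_le_mul₀ (by linarith)]
    nlinarith
  linarith

/-- powers of `n ^ (1/4)` -/
theorem PAg_w (n : ℕ) (hn : 4 ≤ n) (η : ℝ) (h1 : 1 / (2 * √(n : ℝ)) ≤ η) (h2 : η ≤ 2 / √(n : ℝ)) :
    0 < η * √η ∧ (η * √η) ^ 2 = η ^ 3 ∧ η * √η ≤ 3 * (n : ℝ) ^ (-(3 / 4) : ℝ) ∧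
      1 / (η * √η) ≤ 3 * (n : ℝ) ^ ((3 / 4) : ℝ) := by
  have hn4 : (4 : ℝ) ≤ n := by exact_mod_cast hn
  have hn0 : (0 : ℝ) < n := by linarith
  set m : ℝ := (n : ℝ) ^ ((1 / 4) : ℝ) with hm
  have hm0 : 0 < m := Real.rpow_pos_of_pos hn0 _
  have hm2 : √(n : ℝ) = m ^ 2 := by
    rw [hm, ← Real.rpow_natCast, ← Real.rpow_mul hn0.le, Real.sqrt_eq_rpow]
    norm_num
  have hm3 : (n : ℝ) ^ ((3 / 4) : ℝ) = m ^ 3 := by
    rw [hm, ← Real.rpow_natCast, ← Real.rpow_mul hn0.le]
    norm_num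
  have hm3' : (n : ℝ) ^ (-(3 / 4) : ℝ) = (m ^ 3)⁻¹ := by
    rw [Real.rpow_neg hn0.le, hm3]
  rw [hm2] at h1 h2
  rw [hm3, hm3']
  have hη0 : 0 < η := lt_of_lt_of_le (by positivity) h1
  have hs0 : 0 < √η := Real.sqrt_pos.2 hη0
  have hs2 : √η ^ 2 = η := Real.sq_sqrt hη0.le
  have hw0 : 0 < η * √η := by positivity
  have hw2 : (η * √η) ^ 2 = η ^ 3 := by
    rw [mul_pow, hs2]; ring
  refine ⟨hw0, hw2, ?_, ?_⟩
  · apply (pow_le_pow_iff_left₀ hw0.le (by positivity) two_ne_zero).1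
    rw [hw2]
    calc η ^ 3 ≤ (2 / m ^ 2) ^ 3 := by gcongr
      _ = 8 * ((m ^ 3)⁻¹) ^ 2 := by field_simp; norm_num
      _ ≤ (3 * (m ^ 3)⁻¹) ^ 2 := by
          have : 0 ≤ ((m ^ 3)⁻¹) ^ 2 := by positivity
          nlinarith
  · rw [div_le_iff₀ hw0]
    have h3 : 1 / (3 * m ^ 3) ≤ η * √η := by
      apply (pow_le_pow_iff_left₀ (by positivity) hw0.le two_ne_zero).1
      rw [hw2]
      calc (1 / (3 * m ^ 3)) ^ 2 ≤ (1 / (2 * m ^ 2)) ^ 3 := by
            rw [div_pow, div_pow, one_pow, one_pow]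
            apply one_div_le_one_div_of_le (by positivity)
            have : 0 ≤ m ^ 6 := by positivity
            nlinarith
        _ ≤ η ^ 3 := by gcongr
    rw [div_le_iff₀ (by positivity)] at h3
    linarith

/-- row PAg -/
theorem row_PAg (ha : PAa_stmt) (hb : PAb_stmt) (hcV : PAc_stmt) (he : PAe_stmt) (hf : PAf_stmt) :
    PA_stmt := by
  classical
  obtain ⟨η1, hη1, hcore⟩ := PAg_core ha hb hcV he
  set η : ℕ → ℝ := fun n => if h : 4 ≤ n then (hf n h).choose else 1 with hηdef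
  have hη : ∀ n : ℕ, 4 ≤ n → 1 / (2 * √(n : ℝ)) ≤ η n ∧ η n ≤ 2 / √(n : ℝ) ∧ mm n (η n) = n := by
    intro n hn
    have := (hf n hn).choose_spec
    simpa only [hηdef, hn, dif_pos] using this
  -- conditions which hold from some point on
  have hev : ∀ᶠ n : ℕ in atTop, 4 ≤ n ∧ 2 / √(n : ℝ) ≤ η1 ∧ 2 / √(n : ℝ) ≤ 1 ∧
      8 * ((√(n : ℝ)) ^ 1 * Real.exp (-(1 / 2 * √(n : ℝ)))) ≤ Real.log 1.01 ∧
      8000 * ((√(n : ℝ)) ^ 3 * Real.exp (-(1 / 2000 * √(n : ℝ)))) ≤ 1 ∧
      (√(n : ℝ)) ^ 0 * Real.exp (-(1 / 2 * √(n : ℝ))) ≤ 1 / 2 := by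
    have hsq : Tendsto (fun n : ℕ => √(n : ℝ)) atTop atTop :=
      (Real.tendsto_sqrt_atTop).comp tendsto_natCast_atTop_atTop
    have h2 : Tendsto (fun n : ℕ => 2 / √(n : ℝ)) atTop (𝓝 0) := hsq.const_div_atTop 2
    have h3 := (PAg_tend (1 / 2) (by norm_num) 1).const_mul 8
    have h4 := (PAg_tend (1 / 2000) (by norm_num) 3).const_mul 8000
    have h5 := PAg_tend (1 / 2) (by norm_num) 0
    rw [mul_zero] at h3 h4
    have hlog : 0 < Real.log 1.01 := Real.log_pos (by norm_num)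
    filter_upwards [eventually_ge_atTop 4, h2.eventually_le_const hη1,
      h2.eventually_le_const one_pos, h3.eventually_le_const hlog, h4.eventually_le_const one_pos,
      h5.eventually_le_const (by norm_num : (0 : ℝ) < 1 / 2)] with n a1 a2 a3 a4 a5 a6
    exact ⟨a1, a2, a3, a4, a5, a6⟩
  obtain ⟨N0, hN0⟩ := eventually_atTop.1 hev
  -- everything at one n
  have key : ∀ n : ℕ, max N0 4 ≤ n → ∃ w : ℝ, 0 < w ∧ w ^ 2 = η n ^ 3 ∧
      w ≤ 3 * (n : ℝ) ^ (-(3 / 4) : ℝ) ∧ 1 / w ≤ 3 * (n : ℝ) ^ ((3 / 4) : ℝ) ∧ 0 < η n ∧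
      0.2 * w ≤ (2 * Real.pi) * (pp n * Real.exp (-(n * η n)) / GG n (η n)) ∧
      (∀ s ≤ n, |(2 * Real.pi) * (pp (n - s) * Real.exp (-((n - s : ℕ) * η n)) / GG n (η n)) -
      (2 * Real.pi) * (pp n * Real.exp (-(n * η n)) / GG n (η n))| ≤ s * (2 * η n ^ 3)) ∧
      (∀ K, GG K (η n) ≤ 1.01 * GG n (η n)) := by
    intro n hn
    obtain ⟨a1, a2, a3, a4, a5, a6⟩ := hN0 n ((le_max_left _ _).trans hn)
    obtain ⟨b1, b2, b3⟩ := hη n a1
    have hn4 : (4 : ℝ) ≤ n := by exact_mod_cast a1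
    have hs2 : (2 : ℝ) ≤ √(n : ℝ) := by
      rw [show (2 : ℝ) = √4 by rw [show (4 : ℝ) = 2 ^ 2 by norm_num, Real.sqrt_sq (by norm_num)]]
      exact Real.sqrt_le_sqrt hn4
    have hs0 : 0 < √(n : ℝ) := by linarith
    have hnn : √(n : ℝ) * √(n : ℝ) = n := Real.mul_self_sqrt (by linarith)
    have hη0 : 0 < η n := lt_of_lt_of_le (by positivity) b1
    have hη1' : η n ≤ 1 := b2.trans a3
    have b1' : 1 ≤ η n * (2 * √(n : ℝ)) := by
      rwa [div_le_iff₀ (by positivity)] at b1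
    have hinv : 1 / η n ≤ 2 * √(n : ℝ) := by
      rw [div_le_iff₀ hη0]
      linarith
    have hinv2 : √(n : ℝ) / 2 ≤ 1 / η n := by
      rw [le_div_iff₀ hη0]
      rw [le_div_iff₀ hs0] at b2
      linarith
    have hnη : 1 / 2 * √(n : ℝ) ≤ (n + 1) * η n := by
      have : 1 / 2 * √(n : ℝ) ≤ n * η n := by
        calc 1 / 2 * √(n : ℝ) = 1 / 2 * √(n : ℝ) * 1 := (mul_one _).symm
          _ ≤ 1 / 2 * √(n : ℝ) * (η n * (2 * √(n : ℝ))) := by gcongr
          _ = (√(n : ℝ) * √(n : ℝ)) * η n := by ring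
          _ = n * η n := by rw [hnn]
      linarith
    have hsmall : Real.exp (-((n + 1) * η n)) ≤ Real.exp (-(1 / 2 * √(n : ℝ))) := by
      apply Real.exp_le_exp.2; linarith
    have hτ : 2 * Real.exp (-((n + 1) * η n)) / (1 - Real.exp (-η n)) ≤ Real.log 1.01 := by
      refine le_trans ?_ a4
      have h1 := PAg_one_sub (η n) hη0 hη1'
      calc 2 * Real.exp (-((n + 1) * η n)) / (1 - Real.exp (-η n)) ≤
          2 * Real.exp (-(1 / 2 * √(n : ℝ))) / (η n / 2) := by gcongr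
        _ = 4 * Real.exp (-(1 / 2 * √(n : ℝ))) * (1 / η n) := by field_simp; norm_num
        _ ≤ 4 * Real.exp (-(1 / 2 * √(n : ℝ))) * (2 * √(n : ℝ)) := by gcongr
        _ = _ := by ring
    have hEE : Real.exp (-(1 / (1000 * η n))) ≤ 0.001 * η n ^ 3 := by
      have h1 : Real.exp (-(1 / (1000 * η n))) ≤ Real.exp (-(1 / 2000 * √(n : ℝ))) := by
        apply Real.exp_le_exp.2
        have : 1 / (1000 * η n) = (1 / 1000) * (1 / η n) := by field_simp
        rw [this]
        linarith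
      have h2 : (1 / (2 * √(n : ℝ))) ^ 3 ≤ η n ^ 3 := by gcongr
      have h3 : Real.exp (-(1 / 2000 * √(n : ℝ))) ≤ 1 / (8000 * √(n : ℝ) ^ 3) := by
        rw [le_div_iff₀ (by positivity)]
        linarith
      calc Real.exp (-(1 / (1000 * η n))) ≤ 1 / (8000 * √(n : ℝ) ^ 3) := h1.trans h3
        _ = 0.001 * (1 / (2 * √(n : ℝ))) ^ 3 := by field_simp; norm_num
        _ ≤ _ := by gcongr
    obtain ⟨c1, c2⟩ := hcore n (η n) hη0 (b2.trans a2) hη1' b3 hτ hEE
    obtain ⟨w1, w2, w3, w4⟩ := PAg_w n a1 (η n) b1 b2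
    refine ⟨η n * √(η n), w1, w2, w3, w4, hη0, c1, c2, ?_⟩
    intro K
    apply PAg_GG_le n K (η n) hη0 _ hτ
    refine hsmall.trans ?_
    simpa using a6
  refine ⟨η, 110, max N0 4, ?_⟩
  refine ⟨by norm_num, le_max_right _ _, fun n hn => (hη n ((le_max_right _ _).trans hn)).1,
    fun n hn => (hη n ((le_max_right _ _).trans hn)).2.1, ?_, ?_⟩
  · intro n hn s hs
    obtain ⟨w, w0, w2, w3, w4, hη0, hP, hd, hG⟩ := key n hn
    have hpi := Real.pi_pos
    have hpi3 := Real.pi_gt_three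
    have hpi4 : Real.pi < 3.15 := Real.pi_lt_d2
    have hG0 := PAg_GG_pos n (η n) hη0
    set G := GG n (η n) with hGdef
    set P := (pp n : ℝ) * Real.exp (-(n * η n)) / G with hPdef
    have hP' : 0.03 * w ≤ P := by nlinarith
    have hp0 : (0 : ℝ) < pp n := by exact_mod_cast PAg_pp_pos n
    have h1 := hd s hs
    rw [← mul_sub, abs_mul, abs_of_pos (by positivity : (0 : ℝ) < 2 * Real.pi)] at h1
    have h2 : |(pp (n - s) : ℝ) * Real.exp (-((n - s : ℕ) * η n)) / G - P| ≤ s * η n ^ 3 := by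
      set D := |(pp (n - s) : ℝ) * Real.exp (-((n - s : ℕ) * η n)) / G - P| with hD
      have hD0 : 0 ≤ D := abs_nonneg _
      have hs0 : (0 : ℝ) ≤ s * η n ^ 3 := by positivity
      nlinarith
    -- multiply by G e^{(n-s) η}
    have h3 : (pp (n - s) : ℝ) - Real.exp (-(s * η n)) * pp n =
        (G * Real.exp ((n - s : ℕ) * η n)) *
          ((pp (n - s) : ℝ) * Real.exp (-((n - s : ℕ) * η n)) / G - P) := by
      have e1 : Real.exp ((n - s : ℕ) * η n) * Real.exp (-((n - s : ℕ) * η n)) = 1 := by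
        rw [← Real.exp_add]; simp
      have e2 : Real.exp ((n - s : ℕ) * η n) * Real.exp (-(n * η n)) = Real.exp (-(s * η n)) := by
        rw [← Real.exp_add, Nat.cast_sub hs]
        congr 1
        ring
      have e3 : (G * Real.exp ((n - s : ℕ) * η n)) *
          ((pp (n - s) : ℝ) * Real.exp (-((n - s : ℕ) * η n)) / G) = pp (n - s) := by
        calc _ = (pp (n - s) : ℝ) * (Real.exp ((n - s : ℕ) * η n) *
              Real.exp (-((n - s : ℕ) * η n))) := by field_simp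
          _ = _ := by rw [e1, mul_one]
      have e4 : (G * Real.exp ((n - s : ℕ) * η n)) * P = Real.exp (-(s * η n)) * pp n := by
        calc _ = (Real.exp ((n - s : ℕ) * η n) * Real.exp (-(n * η n))) * pp n := by
              rw [hPdef]; field_simp
          _ = _ := by rw [e2]
      rw [mul_sub, e3, e4]
    have e4 : (G * Real.exp ((n - s : ℕ) * η n)) * P = Real.exp (-(s * η n)) * pp n := by
      have e2 : Real.exp ((n - s : ℕ) * η n) * Real.exp (-(n * η n)) = Real.exp (-(s * η n)) := by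
        rw [← Real.exp_add, Nat.cast_sub hs]
        congr 1
        ring
      calc _ = (Real.exp ((n - s : ℕ) * η n) * Real.exp (-(n * η n))) * pp n := by
            rw [hPdef]; field_simp
        _ = _ := by rw [e2]
    set H := G * Real.exp ((n - s : ℕ) * η n) with hH
    have hH0 : 0 < H := by positivity
    rw [h3, abs_mul, abs_of_pos hH0]
    set F := Real.exp (-(s * η n)) * pp n with hF
    have hF0 : 0 < F := by positivity
    -- H w ≤ F / 0.03
    have h4 : H * w ≤ F / 0.03 := by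
      rw [le_div_iff₀ (by norm_num)]
      nlinarith
    calc H * |(pp (n - s) : ℝ) * Real.exp (-((n - s : ℕ) * η n)) / G - P| ≤ H * (s * η n ^ 3) := by
          gcongr
      _ = s * w * (H * w) := by rw [← w2]; ring
      _ ≤ s * (3 * (n : ℝ) ^ (-(3 / 4) : ℝ)) * (F / 0.03) := by gcongr
      _ = 100 * (s * (n : ℝ) ^ (-(3 / 4) : ℝ) * F) := by ring
      _ ≤ 110 * (s * (n : ℝ) ^ (-(3 / 4) : ℝ) * F) := by
          have : 0 ≤ s * (n : ℝ) ^ (-(3 / 4) : ℝ) * F := by positivity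
          linarith
      _ = _ := by ring
  · intro n hn K
    obtain ⟨w, w0, w2, w3, w4, hη0, hP, hd, hG⟩ := key n hn
    have hpi := Real.pi_pos
    have hpi4 : Real.pi < 3.15 := Real.pi_lt_d2
    have hG0 := PAg_GG_pos n (η n) hη0
    have hp0 : (0 : ℝ) < pp n := by exact_mod_cast PAg_pp_pos n
    have h1 := hG K
    show Real.exp (n * η n) * GG K (η n) ≤ _
    set G := GG n (η n) with hGdef
    set P := (pp n : ℝ) * Real.exp (-(n * η n)) / G with hPdef
    have hP' : 0.03 * w ≤ P := by nlinarith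
    have hP0 : 0 < P := by positivity
    have e1 : Real.exp (n * η n) * G = pp n * (1 / P) := by
      rw [hPdef, Real.exp_neg]
      field_simp
    have h2 : 1 / P ≤ 34 * (1 / w) := by
      rw [one_div, one_div, inv_le_iff_one_le_mul₀ hP0]
      have : (34 * w⁻¹) * (0.03 * w) ≤ (34 * w⁻¹) * P := by gcongr
      have e : (34 * w⁻¹) * (0.03 * w) = 1.02 := by field_simp; norm_num
      linarith
    calc Real.exp (n * η n) * GG K (η n) ≤ Real.exp (n * η n) * (1.01 * G) := by gcongr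
      _ = 1.01 * (pp n * (1 / P)) := by rw [← e1]; ring
      _ ≤ 1.01 * (pp n * (34 * (3 * (n : ℝ) ^ ((3 / 4) : ℝ)))) := by
          gcongr
          exact h2.trans (by gcongr)
      _ = 103.02 * ((n : ℝ) ^ ((3 / 4) : ℝ) * pp n) := by ring
      _ ≤ 110 * ((n : ℝ) ^ ((3 / 4) : ℝ) * pp n) := by
          have : 0 ≤ (n : ℝ) ^ ((3 / 4) : ℝ) * pp n := by positivity
          linarith
      _ = _ := by ring

end ZT68
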