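/-
MP_1882ea_al, helper68.  Row ST: final assembly.
-/
import Mathlib
import Pool.Agent.Lib.ZT68.Defs

namespace ZT68

open Finset Filter Topology

open Classical in
theorem ST_count (n : ℕ) (Q : YoungDiagram → n.Partition → Prop) :
    (({P : YoungDiagram × n.Partition | P.1.card = n ∧ Q P.1 P.2}.ncard : ℕ) : ℝ) =
      ∑ Y ∈ DD n, ∑ μ : n.Partition, if Q Y μ then (1 : ℝ) else 0 := by
  have h1 : {P : YoungDiagram × n.Partition | P.1.card = n ∧ Q P.1 P.2} =
      (((DD n) ×ˢ (Finset.univ : Finset n.Partition)).filter (fun P => Q P.1 P.2) :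
        Finset (YoungDiagram × n.Partition)) := by
    ext P
    simp [mem_DD]
  rw [h1, Set.ncard_coe_finset, Finset.card_filter, Finset.sum_product]
  push_cast
  rfl

open Classical in
theorem ST_countS (n k : ℕ) :
    (({P : YoungDiagram × n.Partition | P.1.card = n ∧ Stuck k P.1 P.2}.ncard : ℕ) : ℝ) =
      ∑ Y ∈ DD n, ∑ μ : n.Partition, if Stuck k Y μ then (1 : ℝ) else 0 :=
  ST_count n (fun Y μ => Stuck k Y μ)

open Classical in
theorem ST_countI (n : ℕ) :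
    (({P : YoungDiagram × n.Partition | P.1.card = n ∧ TypeI P.1 P.2}.ncard : ℕ) : ℝ) =
      ∑ Y ∈ DD n, ∑ μ : n.Partition, if TypeI Y μ then (1 : ℝ) else 0 :=
  ST_count n (fun Y μ => TypeI Y μ)

theorem ST_removable (h2 : BD2_stmt) (ts : List ℕ) : ∀ Y : YoungDiagram, (∀ t ∈ ts, 1 ≤ t) →
    Chain (SS Y) ts → Removable Y ts := by
  induction ts with
  | nil => intro Y _ _; trivial
  | cons t ts ih =>
    intro Y hpos hc
    obtain ⟨x, hx, hc'⟩ := hc
    obtain ⟨Y', e, _, hr⟩ := h2 Y t x (hpos t (by simp)) hx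
    refine ⟨Y', hr, ih Y' (fun s hs => hpos s (by simp [hs])) ?_⟩
    rw [e]
    exact hc'

theorem ST_top {n : ℕ} (μ : n.Partition) (r : ℕ) (hr : r ∈ μ.parts) (h : ¬ 2 ≤ WW r μ) :
    ∀ s ∈ μ.parts, s ≤ r := by
  intro s hs
  by_contra hlt
  push Not at hlt
  apply h
  unfold WW
  have h1 : ({r, s} : Multiset ℕ) ≤ μ.parts.filter (fun s => r ≤ s) := by
    rw [Multiset.le_iff_subset]
    · intro x hx
      simp only [Multiset.insert_eq_cons, Multiset.mem_cons, Multiset.mem_singleton] at hx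
      rw [Multiset.mem_filter]
      rcases hx with rfl | rfl
      · exact ⟨hr, le_rfl⟩
      · exact ⟨hs, hlt.le⟩
    · simp only [Multiset.insert_eq_cons, Multiset.nodup_cons, Multiset.mem_singleton,
        Multiset.nodup_singleton, and_true]
      omega
  have h2 := Multiset.card_le_card h1
  simpa using h2

theorem ST_stuck (h1 : BD1_stmt) (h2 : BD2_stmt) (hG : GR_stmt) {n : ℕ} (k : ℕ) (Y : YoungDiagram)
    (μ : n.Partition) (h : Stuck k Y μ) :
    TypeI Y μ ∨ ∃ r ∈ Icc 1 n, r ∈ μ.parts ∧ 2 ≤ WW r μ ∧ hn r Y + 2 ≤ 2 * min (WW r μ) k := by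
  obtain ⟨ts, hlen, hle, hnr⟩ := h
  have hpos : ∀ t ∈ ts, 1 ≤ t := by
    intro t ht
    exact μ.parts_pos (Multiset.mem_of_le hle (by simpa using ht))
  have hnc : ¬ Chain (SS Y) ts := fun hc => hnr (ST_removable h2 ts Y hpos hc)
  obtain ⟨r, hr, hr2⟩ := hG (SS Y) ts μ.parts k hle hlen (fun r hr => (h1.hk Y r (hpos r hr)).1) hnc
  have hr1 : 1 ≤ r := μ.parts_pos hr
  have hrn : r ≤ n := Nat.Partition.le_of_mem_parts hr
  rw [(h1.hk Y r hr1).2] at hr2
  by_cases hW : 2 ≤ WW r μ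
  · right
    exact ⟨r, by simp [hr1, hrn], hr, hW, hr2⟩
  · left
    refine ⟨r, hr, ST_top μ r hr hW, ?_⟩
    rw [h1.core Y r hr1]
    have : min (Multiset.card (μ.parts.filter (fun s => r ≤ s))) k ≤ 1 := by
      have hW' : Multiset.card (μ.parts.filter (fun s => r ≤ s)) < 2 := by
        simpa [WW] using hW
      omega
    omega

theorem ST_typeI_stuck {n : ℕ} (k : ℕ) (hk : 1 ≤ k) (Y : YoungDiagram) (μ : n.Partition)
    (h : TypeI Y μ) : Stuck k Y μ := by
  obtain ⟨t, ht, _, hc⟩ := h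
  refine ⟨[t], by simpa using hk, ?_, ?_⟩
  · simpa using ht
  · rintro ⟨Y', ⟨i, j, hij, hl, _⟩, _⟩
    exact hc i j hij (by rw [hl])

theorem ST_pp_pos (n : ℕ) : (0 : ℝ) < pp n := by
  unfold pp
  exact_mod_cast Fintype.card_pos

open Classical in
theorem ST_zS_le (h1 : BD1_stmt) (h2 : BD2_stmt) (hG : GR_stmt) (k n : ℕ) :
    zS k n ≤ zI n + ∑ r ∈ Icc 1 n, TT n k r := by
  unfold zS zI TT
  rw [ST_countS, ST_countI, ← Finset.sum_div, ← add_div]
  apply div_le_div_of_nonneg_right _ (by positivity)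
  rw [Finset.sum_comm (s := Icc 1 n), ← Finset.sum_add_distrib]
  apply Finset.sum_le_sum
  intro Y _
  rw [Finset.sum_comm (s := Icc 1 n), ← Finset.sum_add_distrib]
  apply Finset.sum_le_sum
  intro μ _
  have hs : 0 ≤ ∑ x ∈ Icc 1 n, (if x ∈ μ.parts ∧ 2 ≤ WW x μ ∧ hn x Y + 2 ≤ 2 * min (WW x μ) k
      then (1 : ℝ) else 0) := Finset.sum_nonneg (fun x _ => by split_ifs <;> norm_num)
  by_cases h : Stuck k Y μ
  · rw [if_pos h]
    rcases ST_stuck h1 h2 hG k Y μ h with h3 | ⟨r, hr, h3⟩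
    · rw [if_pos h3]
      linarith
    · have h4 : (1 : ℝ) ≤ ∑ x ∈ Icc 1 n, (if x ∈ μ.parts ∧ 2 ≤ WW x μ ∧
          hn x Y + 2 ≤ 2 * min (WW x μ) k then (1 : ℝ) else 0) := by
        have := Finset.single_le_sum (f := fun x => (if x ∈ μ.parts ∧ 2 ≤ WW x μ ∧
          hn x Y + 2 ≤ 2 * min (WW x μ) k then (1 : ℝ) else 0))
          (fun x _ => by split_ifs <;> norm_num) hr
        simpa only [if_pos h3] using this
      have h5 : (0 : ℝ) ≤ if TypeI Y μ then (1 : ℝ) else 0 := by split_ifs <;> norm_num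
      linarith
  · rw [if_neg h]
    have h5 : (0 : ℝ) ≤ if TypeI Y μ then (1 : ℝ) else 0 := by split_ifs <;> norm_num
    linarith

open Classical in
theorem ST_zI_le_zS (k n : ℕ) (hk : 1 ≤ k) : zI n ≤ zS k n := by
  unfold zS zI
  rw [ST_countS, ST_countI]
  apply div_le_div_of_nonneg_right _ (by positivity)
  apply Finset.sum_le_sum
  intro Y _
  apply Finset.sum_le_sum
  intro μ _
  by_cases h : TypeI Y μ
  · rw [if_pos h, if_pos (ST_typeI_stuck k hk Y μ h)]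
  · rw [if_neg h]
    split_ifs <;> norm_num

open Classical in
theorem ST_zS_le_one (h0 : DDc_stmt) (k n : ℕ) : zS k n ≤ 1 := by
  unfold zS
  rw [ST_countS, div_le_one (by have := ST_pp_pos n; positivity)]
  calc ∑ Y ∈ DD n, ∑ μ : n.Partition, (if Stuck k Y μ then (1 : ℝ) else 0) ≤
      ∑ Y ∈ DD n, ∑ μ : n.Partition, (1 : ℝ) := by
        apply Finset.sum_le_sum
        intro Y _
        apply Finset.sum_le_sum
        intro μ _
        split_ifs <;> norm_num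
    _ = (pp n : ℝ) ^ 2 := by
        simp only [Finset.sum_const, Finset.card_univ, nsmul_eq_mul, mul_one]
        rw [h0 n]
        unfold pp
        ring

open Classical in
/-- number of partitions with the part `t` -/
theorem ST_part (n t : ℕ) (h1 : 1 ≤ t) (h2 : t ≤ n) :
    ∑ μ : n.Partition, (if t ∈ μ.parts then (1 : ℝ) else 0) = pp (n - t) := by
  rw [Finset.sum_boole]
  unfold pp
  congr 1
  rw [← Fintype.card_subtype]
  exact Fintype.card_congr (Nat.Partition.partitionWithPartEquiv h1 h2)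

open Classical in
theorem ST_S1 (n : ℕ) : S1 n = (∑ Y ∈ DD n, ∑ μ : n.Partition,
    ∑ t ∈ Icc 1 n, if t ∈ μ.parts ∧ hn t Y = 0 then (1 : ℝ) else 0) / (pp n : ℝ) ^ 2 := by
  unfold S1 aa
  have hp := ST_pp_pos n
  have e : ∀ t ∈ Icc 1 n, ((pp (n - t) : ℝ) / pp n) * ((∑ Y ∈ DD n, (0 : ℝ) ^ hn t Y) / pp n) =
      (∑ Y ∈ DD n, ∑ μ : n.Partition, if t ∈ μ.parts ∧ hn t Y = 0 then (1 : ℝ) else 0) /
        (pp n : ℝ) ^ 2 := by
    intro t ht
    rw [Finset.mem_Icc] at ht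
    rw [← ST_part n t ht.1 ht.2, div_mul_div_comm, ← sq, Finset.sum_mul_sum, Finset.sum_comm]
    congr 1
    apply Finset.sum_congr rfl
    intro Y _
    apply Finset.sum_congr rfl
    intro μ _
    by_cases ha : t ∈ μ.parts <;> by_cases hb : hn t Y = 0 <;> simp [ha, hb]
  rw [Finset.sum_congr rfl e, ← Finset.sum_div, Finset.sum_comm]
  congr 1
  apply Finset.sum_congr rfl
  intro Y _
  rw [Finset.sum_comm]

open Classical in
theorem ST_zI_le (h1 : BD1_stmt) (n : ℕ) : zI n ≤ S1 n := by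
  rw [ST_S1]
  unfold zI
  rw [ST_countI]
  apply div_le_div_of_nonneg_right _ (by positivity)
  apply Finset.sum_le_sum
  intro Y _
  apply Finset.sum_le_sum
  intro μ _
  have hnn : ∀ x ∈ Icc 1 n, (0 : ℝ) ≤ if x ∈ μ.parts ∧ hn x Y = 0 then (1 : ℝ) else 0 :=
    fun x _ => by split_ifs <;> norm_num
  by_cases h : TypeI Y μ
  · rw [if_pos h]
    obtain ⟨t, ht, _, hc⟩ := h
    have ht1 : 1 ≤ t := μ.parts_pos ht
    have htn : t ≤ n := Nat.Partition.le_of_mem_parts ht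
    have h3 := Finset.single_le_sum hnn (show t ∈ Icc 1 n by simp [ht1, htn])
    have h4 : t ∈ μ.parts ∧ hn t Y = 0 := ⟨ht, (h1.core Y t ht1).1 hc⟩
    simpa only [if_pos h4] using h3
  · rw [if_neg h]
    exact Finset.sum_nonneg hnn

open Classical in
theorem ST_S1_le (h1 : BD1_stmt) (n : ℕ) : S1 n ≤ zI n + ∑ r ∈ Icc 1 n, TT n 1 r := by
  rw [ST_S1]
  unfold zI TT
  rw [ST_countI, ← Finset.sum_div, ← add_div]
  apply div_le_div_of_nonneg_right _ (by positivity)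
  rw [Finset.sum_comm (s := Icc 1 n), ← Finset.sum_add_distrib]
  apply Finset.sum_le_sum
  intro Y _
  rw [Finset.sum_comm (s := Icc 1 n), ← Finset.sum_add_distrib]
  apply Finset.sum_le_sum
  intro μ _
  -- split the left sum
  have hsplit : ∀ t ∈ Icc 1 n, (if t ∈ μ.parts ∧ hn t Y = 0 then (1 : ℝ) else 0) ≤
      (if t ∈ μ.parts ∧ hn t Y = 0 ∧ ¬ 2 ≤ WW t μ then (1 : ℝ) else 0) +
      (if t ∈ μ.parts ∧ 2 ≤ WW t μ ∧ hn t Y + 2 ≤ 2 * min (WW t μ) 1 then (1 : ℝ) else 0) := by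
    intro t _
    by_cases ha : t ∈ μ.parts ∧ hn t Y = 0
    · rw [if_pos ha]
      by_cases hb : 2 ≤ WW t μ
      · have h3 : t ∈ μ.parts ∧ 2 ≤ WW t μ ∧ hn t Y + 2 ≤ 2 * min (WW t μ) 1 := by
          refine ⟨ha.1, hb, ?_⟩
          rw [ha.2]
          omega
        rw [if_pos h3]
        have : (0 : ℝ) ≤ if t ∈ μ.parts ∧ hn t Y = 0 ∧ ¬ 2 ≤ WW t μ then (1 : ℝ) else 0 := by
          split_ifs <;> norm_num
        linarith
      · rw [if_pos ⟨ha.1, ha.2, hb⟩]
        have : (0 : ℝ) ≤ if t ∈ μ.parts ∧ 2 ≤ WW t μ ∧ hn t Y + 2 ≤ 2 * min (WW t μ) 1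
          then (1 : ℝ) else 0 := by split_ifs <;> norm_num
        linarith
    · rw [if_neg ha]
      have h3 : (0 : ℝ) ≤ if t ∈ μ.parts ∧ hn t Y = 0 ∧ ¬ 2 ≤ WW t μ then (1 : ℝ) else 0 := by
        split_ifs <;> norm_num
      have h4 : (0 : ℝ) ≤ if t ∈ μ.parts ∧ 2 ≤ WW t μ ∧ hn t Y + 2 ≤ 2 * min (WW t μ) 1
          then (1 : ℝ) else 0 := by split_ifs <;> norm_num
      linarith
  refine (Finset.sum_le_sum hsplit).trans ?_
  rw [Finset.sum_add_distrib]
  apply add_le_add _ le_rfl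
  rw [Finset.sum_boole]
  by_cases hT : TypeI Y μ
  · rw [if_pos hT]
    have : ((Icc 1 n).filter (fun t => t ∈ μ.parts ∧ hn t Y = 0 ∧ ¬ 2 ≤ WW t μ)).card ≤ 1 := by
      rw [Finset.card_le_one]
      intro a ha b hb
      simp only [Finset.mem_filter] at ha hb
      have h3 := ST_top μ a ha.2.1 ha.2.2.2 b hb.2.1
      have h4 := ST_top μ b hb.2.1 hb.2.2.2 a ha.2.1
      omega
    exact_mod_cast this
  · rw [if_neg hT]
    have : (Icc 1 n).filter (fun t => t ∈ μ.parts ∧ hn t Y = 0 ∧ ¬ 2 ≤ WW t μ) = ∅ := by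
      rw [Finset.filter_eq_empty_iff]
      rintro t ht ⟨ha, hb, hc⟩
      apply hT
      rw [Finset.mem_Icc] at ht
      exact ⟨t, ha, ST_top μ t ha hc, (h1.core Y t ht.1).2 hb⟩
    rw [this]
    simp

/-- the final theorem -/
theorem final (h0 : DDc_stmt) (h1 : BD1_stmt) (h2 : BD2_stmt) (hG : GR_stmt) (hP : PA_stmt)
    (hE : EN_stmt) (hM : MU_stmt) (hA : AS_stmt) (hB : B2_stmt) :
    Tendsto (fun n : ℕ => zI n * Real.log n) atTop (𝓝 2) ∧
    ∃ c : ℝ, 0 < c ∧
      (∃ C : ℝ, ∀ n : ℕ, 2 ≤ n → zS ⌊c * √(n : ℝ)⌋₊ n - zI n ≤ C / (Real.log n) ^ 2) ∧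
      Tendsto (fun n : ℕ => zS ⌊c * √(n : ℝ)⌋₊ n * Real.log n) atTop (𝓝 2) := by
  obtain ⟨η, C, N0, hPA⟩ := hP
  obtain ⟨C1, N1, hEN⟩ := hE η C N0 hPA
  obtain ⟨C2, N2, hMU⟩ := hM η C N0 hPA
  have hS := hA η C N0 C1 N1 hPA hEN
  obtain ⟨c, hc, C3, N3, hT⟩ := hB η C N0 C1 N1 C2 N2 hPA hEN hMU
  have hlog : Tendsto (fun n : ℕ => Real.log n) atTop atTop :=
    Real.tendsto_log_atTop.comp tendsto_natCast_atTop_atTop
  have hsq : Tendsto (fun n : ℕ => c * √(n : ℝ)) atTop atTop :=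
    Tendsto.const_mul_atTop hc ((Real.tendsto_sqrt_atTop).comp tendsto_natCast_atTop_atTop)
  have hC3 : Tendsto (fun n : ℕ => C3 / Real.log n) atTop (𝓝 0) := hlog.const_div_atTop C3
  have hbig : ∀ᶠ n : ℕ in atTop, N3 ≤ n ∧ (1 : ℝ) ≤ c * √(n : ℝ) ∧ 0 < Real.log n := by
    filter_upwards [eventually_ge_atTop N3, hsq.eventually_ge_atTop 1,
      hlog.eventually_gt_atTop 0] with n a b d
    exact ⟨a, b, d⟩
  have hzI : Tendsto (fun n : ℕ => zI n * Real.log n) atTop (𝓝 2) := by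
    have hlow : Tendsto (fun n : ℕ => S1 n * Real.log n - C3 / Real.log n) atTop (𝓝 2) := by
      have := hS.sub hC3
      simpa using this
    refine tendsto_of_tendsto_of_tendsto_of_le_of_le' hlow hS ?_ ?_
    · filter_upwards [hbig] with n hn
      obtain ⟨a, b, d⟩ := hn
      have h3 := ST_S1_le h1 n
      have h4 := hT n a 1 (by simpa using b)
      have h5 : S1 n - zI n ≤ C3 / (Real.log n) ^ 2 := by linarith
      have h6 : (S1 n - zI n) * Real.log n ≤ C3 / (Real.log n) ^ 2 * Real.log n := by gcongr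
      have h7 : C3 / (Real.log n) ^ 2 * Real.log n = C3 / Real.log n := by field_simp
      rw [h7] at h6
      linarith
    · filter_upwards [hbig] with n hn
      obtain ⟨a, b, d⟩ := hn
      have := ST_zI_le h1 n
      gcongr
  refine ⟨hzI, c, hc, ⟨max C3 ((Real.log N3) ^ 2), ?_⟩, ?_⟩
  · intro n hn
    have hn2 : (2 : ℝ) ≤ n := by exact_mod_cast hn
    have hl : 0 < Real.log n := Real.log_pos (by linarith)
    by_cases hN : N3 ≤ n
    · have h3 := ST_zS_le h1 h2 hG ⌊c * √(n : ℝ)⌋₊ n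
      have h4 := hT n hN ⌊c * √(n : ℝ)⌋₊ (Nat.floor_le (by positivity))
      have h5 : C3 / (Real.log n) ^ 2 ≤ max C3 ((Real.log N3) ^ 2) / (Real.log n) ^ 2 := by
        gcongr
        exact le_max_left _ _
      linarith
    · push Not at hN
      have h3 := ST_zS_le_one h0 ⌊c * √(n : ℝ)⌋₊ n
      have h4 : 0 ≤ zI n := by unfold zI; positivity
      have h5 : (Real.log n) ^ 2 ≤ (Real.log N3) ^ 2 := by
        have : Real.log n ≤ Real.log N3 := by
          apply Real.log_le_log (by linarith)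
          exact_mod_cast hN.le
        gcongr
      have h6 : 1 ≤ max C3 ((Real.log N3) ^ 2) / (Real.log n) ^ 2 := by
        rw [le_div_iff₀ (by positivity), one_mul]
        exact h5.trans (le_max_right _ _)
      linarith
  · have hup : Tendsto (fun n : ℕ => zI n * Real.log n + C3 / Real.log n) atTop (𝓝 2) := by
      have := hzI.add hC3
      simpa using this
    refine tendsto_of_tendsto_of_tendsto_of_le_of_le' hzI hup ?_ ?_
    · filter_upwards [hbig] with n hn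
      obtain ⟨a, b, d⟩ := hn
      have h3 := ST_zI_le_zS ⌊c * √(n : ℝ)⌋₊ n (by
        rw [Nat.one_le_floor_iff]
        exact b)
      gcongr
    · filter_upwards [hbig] with n hn
      obtain ⟨a, b, d⟩ := hn
      have h3 := ST_zS_le h1 h2 hG ⌊c * √(n : ℝ)⌋₊ n
      have h4 := hT n a ⌊c * √(n : ℝ)⌋₊ (Nat.floor_le (by positivity))
      have h5 : zS ⌊c * √(n : ℝ)⌋₊ n ≤ zI n + C3 / (Real.log n) ^ 2 := by linarith
      calc zS ⌊c * √(n : ℝ)⌋₊ n * Real.log n ≤ (zI n + C3 / (Real.log n) ^ 2) * Real.log n := by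
            gcongr
        _ = _ := by field_simp

end ZT68
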