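/-
MP_1882ea_al, helper68.  Final assembly, second stage (local zeros).
-/
import Mathlib
import Pool.Agent.Lib.ZT68.ST
import Pool.Agent.Lib.ZT68.FN
import Pool.Agent.Lib.ZT68.LBc

namespace ZT68

open Finset Filter Topology

/-- density of all zeros of the character table -/
noncomputable def zz (n : ℕ) : ℝ :=
  ({P : YoungDiagram × n.Partition | P.1.card = n ∧ chi P.1 P.2 = 0}.ncard : ℝ) / (pp n : ℝ) ^ 2

open Classical in
theorem ST2_mono (n : ℕ) (P Q : YoungDiagram → n.Partition → Prop)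
    (h : ∀ Y μ, Y.card = n → P Y μ → Q Y μ) :
    ({p : YoungDiagram × n.Partition | p.1.card = n ∧ P p.1 p.2}.ncard : ℝ) / (pp n : ℝ) ^ 2 ≤
      ({p : YoungDiagram × n.Partition | p.1.card = n ∧ Q p.1 p.2}.ncard : ℝ) / (pp n : ℝ) ^ 2 := by
  rw [ST_count n P, ST_count n Q]
  apply div_le_div_of_nonneg_right _ (by positivity)
  apply Finset.sum_le_sum
  intro Y hY
  apply Finset.sum_le_sum
  intro μ _
  rw [mem_DD] at hY
  by_cases hP : P Y μ
  · rw [if_pos hP, if_pos (h Y μ hY hP)]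
  · rw [if_neg hP]
    split_ifs <;> norm_num

theorem ST2_zI_le_zII (n : ℕ) : zI n ≤ zII n :=
  ST2_mono n (fun Y μ => TypeI Y μ) (fun Y μ => IsTypeII Y μ)
    (fun _ _ _ ⟨t, ht, _, hc⟩ => ⟨t, ht, hc⟩)

theorem ST2_zII_le_zL (h1 : BD1_stmt) (hA : FA_stmt) (hD : DI_stmt) (k n : ℕ) (hk : 1 ≤ k) :
    zII n ≤ zL k n :=
  ST2_mono n (fun Y μ => IsTypeII Y μ) (fun Y μ => Loc k Y μ)
    (fun Y μ _ ⟨t, ht, hc⟩ => FN_two h1 hA hD n k Y μ hk t ht hc)

theorem ST2_zL_le_zz (k n : ℕ) : zL k n ≤ zz n :=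
  ST2_mono n (fun Y μ => Loc k Y μ) (fun Y μ => chi Y μ = 0)
    (fun _ μ _ ⟨_, hM, _, h⟩ => h μ hM)

open Classical in
theorem ST2_countL (n k : ℕ) :
    (({P : YoungDiagram × n.Partition | P.1.card = n ∧ Loc k P.1 P.2}.ncard : ℕ) : ℝ) =
      ∑ Y ∈ DD n, ∑ μ : n.Partition, if Loc k Y μ then (1 : ℝ) else 0 :=
  ST_count n (fun Y μ => Loc k Y μ)

theorem ST2_loc (h1 : BD1_stmt) (hF : FN_stmt) {n : ℕ} (k : ℕ) (Y : YoungDiagram)
    (hY : Y.card = n) (μ : n.Partition) (h : Loc k Y μ) :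
    TypeI Y μ ∨ ∃ r ∈ Icc 1 n, r ∈ μ.parts ∧ 2 ≤ WW r μ ∧ hn r Y + 2 ≤ 2 * min (WW r μ) k := by
  obtain ⟨r, hr, hr2⟩ := hF.loc n k Y μ hY h
  have hr1 : 1 ≤ r := μ.parts_pos hr
  have hrn : r ≤ n := Nat.Partition.le_of_mem_parts hr
  by_cases hW : 2 ≤ WW r μ
  · right
    exact ⟨r, by simp [hr1, hrn], hr, hW, hr2⟩
  · left
    refine ⟨r, hr, ST_top μ r hr hW, ?_⟩
    rw [h1.core Y r hr1]
    have : min (WW r μ) k ≤ 1 := by omega
    omega

open Classical in
theorem ST2_zL_le (h1 : BD1_stmt) (hF : FN_stmt) (k n : ℕ) :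
    zL k n ≤ zI n + ∑ r ∈ Icc 1 n, TT n k r := by
  unfold zL zI TT
  rw [ST2_countL, ST_countI, ← Finset.sum_div, ← add_div]
  apply div_le_div_of_nonneg_right _ (by positivity)
  rw [Finset.sum_comm (s := Icc 1 n), ← Finset.sum_add_distrib]
  apply Finset.sum_le_sum
  intro Y hY
  rw [mem_DD] at hY
  rw [Finset.sum_comm (s := Icc 1 n), ← Finset.sum_add_distrib]
  apply Finset.sum_le_sum
  intro μ _
  have hs : 0 ≤ ∑ x ∈ Icc 1 n, (if x ∈ μ.parts ∧ 2 ≤ WW x μ ∧ hn x Y + 2 ≤ 2 * min (WW x μ) k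
      then (1 : ℝ) else 0) := Finset.sum_nonneg (fun x _ => by split_ifs <;> norm_num)
  by_cases h : Loc k Y μ
  · rw [if_pos h]
    rcases ST2_loc h1 hF k Y hY μ h with h3 | ⟨r, hr, h3⟩
    · rw [if_pos h3]
      linarith
    · have h4 : (1 : ℝ) ≤ ∑ x ∈ Icc 1 n, (if x ∈ μ.parts ∧ 2 ≤ WW x μ ∧
          hn x Y + 2 ≤ 2 * min (WW x μ) k then (1 : ℝ) else 0) := by
        have := Finset.single_le_sum (f := fun x => (if x ∈ μ.parts ∧ 2 ≤ WW x μ ∧
          hn x Y + 2 ≤ 2 * min (WW x μ) k then (1 : ℝ) else 0))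
          (fun x _ => by split_ifs <;> norm_num) hr
        simpa only [if_pos h3] using this
      have h5 : (0 : ℝ) ≤ if TypeI Y μ then (1 : ℝ) else 0 := by split_ifs <;> norm_num
      linarith
  · rw [if_neg h]
    have h5 : (0 : ℝ) ≤ if TypeI Y μ then (1 : ℝ) else 0 := by split_ifs <;> norm_num
    linarith

open Classical in
theorem ST2_zL_le_one (h0 : DDc_stmt) (k n : ℕ) : zL k n ≤ 1 := by
  unfold zL
  rw [ST2_countL, div_le_one (by have := ST_pp_pos n; positivity)]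
  calc ∑ Y ∈ DD n, ∑ μ : n.Partition, (if Loc k Y μ then (1 : ℝ) else 0) ≤
      ∑ Y ∈ DD n, ∑ μ : n.Partition, (1 : ℝ) := by
        apply Finset.sum_le_sum
        intro Y _
        apply Finset.sum_le_sum
        intro μ _
        split_ifs <;> norm_num
    _ = (pp n : ℝ) ^ 2 := by
        simp only [Finset.sum_const, Finset.card_univ, nsmul_eq_mul, mul_one]
        rw [h0 n]
        unfold pp
        ring

/-- the final theorem, second stage -/
theorem final2 (h0 : DDc_stmt) (h1 : BD1_stmt) (hP : PA_stmt)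
    (hE : EN_stmt) (hM : MU_stmt) (hA : AS_stmt) (hB : B2_stmt) (hFA : FA_stmt) (hDI : DI_stmt)
    (hF : FN_stmt) :
    Tendsto (fun n : ℕ => zI n * Real.log n) atTop (𝓝 2) ∧
    ∃ c : ℝ, 0 < c ∧
      (∃ C : ℝ, ∀ n : ℕ, 2 ≤ n → ∀ k : ℕ, (k : ℝ) ≤ c * √(n : ℝ) →
        zL k n - zI n ≤ C / (Real.log n) ^ 2) ∧
      Tendsto (fun n : ℕ => zL ⌊c * √(n : ℝ)⌋₊ n * Real.log n) atTop (𝓝 2) := by
  obtain ⟨η, C, N0, hPA⟩ := hP
  obtain ⟨C1, N1, hEN⟩ := hE η C N0 hPA
  obtain ⟨C2, N2, hMU⟩ := hM η C N0 hPA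
  have hS := hA η C N0 C1 N1 hPA hEN
  obtain ⟨c, hc, C3, N3, hT⟩ := hB η C N0 C1 N1 C2 N2 hPA hEN hMU
  have hlog : Tendsto (fun n : ℕ => Real.log n) atTop atTop :=
    Real.tendsto_log_atTop.comp tendsto_natCast_atTop_atTop
  have hsq : Tendsto (fun n : ℕ => c * √(n : ℝ)) atTop atTop :=
    Tendsto.const_mul_atTop hc ((Real.tendsto_sqrt_atTop).comp tendsto_natCast_atTop_atTop)
  have hC3 : Tendsto (fun n : ℕ => C3 / Real.log n) atTop (𝓝 0) := hlog.const_div_atTop C3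
  have hbig : ∀ᶠ n : ℕ in atTop, N3 ≤ n ∧ (1 : ℝ) ≤ c * √(n : ℝ) ∧ 0 < Real.log n := by
    filter_upwards [eventually_ge_atTop N3, hsq.eventually_ge_atTop 1,
      hlog.eventually_gt_atTop 0] with n a b d
    exact ⟨a, b, d⟩
  have hzI : Tendsto (fun n : ℕ => zI n * Real.log n) atTop (𝓝 2) := by
    have hlow : Tendsto (fun n : ℕ => S1 n * Real.log n - C3 / Real.log n) atTop (𝓝 2) := by
      have := hS.sub hC3
      simpa using this
    refine tendsto_of_tendsto_of_tendsto_of_le_of_le' hlow hS ?_ ?_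
    · filter_upwards [hbig] with n hn
      obtain ⟨a, b, d⟩ := hn
      have h3 := ST_S1_le h1 n
      have h4 := hT n a 1 (by simpa using b)
      have h5 : S1 n - zI n ≤ C3 / (Real.log n) ^ 2 := by linarith
      have h6 : (S1 n - zI n) * Real.log n ≤ C3 / (Real.log n) ^ 2 * Real.log n := by gcongr
      have h7 : C3 / (Real.log n) ^ 2 * Real.log n = C3 / Real.log n := by field_simp
      rw [h7] at h6
      linarith
    · filter_upwards [hbig] with n hn
      obtain ⟨a, b, d⟩ := hn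
      have := ST_zI_le h1 n
      gcongr
  refine ⟨hzI, c, hc, ⟨max C3 ((Real.log N3) ^ 2), ?_⟩, ?_⟩
  · intro n hn k hk
    have hn2 : (2 : ℝ) ≤ n := by exact_mod_cast hn
    have hl : 0 < Real.log n := Real.log_pos (by linarith)
    by_cases hN : N3 ≤ n
    · have h3 := ST2_zL_le h1 hF k n
      have h4 := hT n hN k hk
      have h5 : C3 / (Real.log n) ^ 2 ≤ max C3 ((Real.log N3) ^ 2) / (Real.log n) ^ 2 := by
        gcongr
        exact le_max_left _ _
      linarith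
    · push Not at hN
      have h3 := ST2_zL_le_one h0 k n
      have h4 : 0 ≤ zI n := by unfold zI; positivity
      have h5 : (Real.log n) ^ 2 ≤ (Real.log N3) ^ 2 := by
        have : Real.log n ≤ Real.log N3 := by
          apply Real.log_le_log (by linarith)
          exact_mod_cast hN.le
        gcongr
      have h6 : 1 ≤ max C3 ((Real.log N3) ^ 2) / (Real.log n) ^ 2 := by
        rw [le_div_iff₀ (by positivity), one_mul]
        exact h5.trans (le_max_right _ _)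
      linarith
  · have hup : Tendsto (fun n : ℕ => zI n * Real.log n + C3 / Real.log n) atTop (𝓝 2) := by
      have := hzI.add hC3
      simpa using this
    refine tendsto_of_tendsto_of_tendsto_of_le_of_le' hzI hup ?_ ?_
    · filter_upwards [hbig] with n hn
      obtain ⟨a, b, d⟩ := hn
      have h3 := (ST2_zI_le_zII n).trans (ST2_zII_le_zL h1 hFA hDI ⌊c * √(n : ℝ)⌋₊ n (by
        rw [Nat.one_le_floor_iff]
        exact b))
      gcongr
    · filter_upwards [hbig] with n hn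
      obtain ⟨a, b, d⟩ := hn
      have h3 := ST2_zL_le h1 hF ⌊c * √(n : ℝ)⌋₊ n
      have h4 := hT n a ⌊c * √(n : ℝ)⌋₊ (Nat.floor_le (by positivity))
      have h5 : zL ⌊c * √(n : ℝ)⌋₊ n ≤ zI n + C3 / (Real.log n) ^ 2 := by linarith
      calc zL ⌊c * √(n : ℝ)⌋₊ n * Real.log n ≤ (zI n + C3 / (Real.log n) ^ 2) * Real.log n := by
            gcongr
        _ = _ := by field_simp

end ZT68
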