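/-
MP_1882ea_al, helper68.  The theorem without hypotheses (stage 2 with the lower bound).
-/
import Mathlib
import Pool.Agent.Lib.ZT68.ST2
import Pool.Agent.Lib.ZT68.PAa
import Pool.Agent.Lib.ZT68.PAb
import Pool.Agent.Lib.ZT68.PAc
import Pool.Agent.Lib.ZT68.PAe
import Pool.Agent.Lib.ZT68.PAf
import Pool.Agent.Lib.ZT68.PAg
import Pool.Agent.Lib.ZT68.DDc
import Pool.Agent.Lib.ZT68.BD1
import Pool.Agent.Lib.ZT68.BD2
import Pool.Agent.Lib.ZT68.BD4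
import Pool.Agent.Lib.ZT68.FQ
import Pool.Agent.Lib.ZT68.HN
import Pool.Agent.Lib.ZT68.ENa
import Pool.Agent.Lib.ZT68.ENb
import Pool.Agent.Lib.ZT68.ENc
import Pool.Agent.Lib.ZT68.MU
import Pool.Agent.Lib.ZT68.AS
import Pool.Agent.Lib.ZT68.B2
import Pool.Agent.Lib.ZT68.LB
import Pool.Agent.Lib.ZT68.FA
import Pool.Agent.Lib.ZT68.DI
import Pool.Agent.Lib.ZT68.EI
import Pool.Agent.Lib.ZT68.LE

namespace ZT68

open Finset Filter Topology

theorem all_PA : PA_stmt := row_PAg row_PAa row_PAb row_PAc row_PAe row_PAf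

theorem all_FQ : FQ_stmt := row_FQ row_BD1 row_BD2 row_BD3 row_BD4

theorem all_HN : HN_stmt := row_HN row_DDc all_FQ

theorem all_EN : EN_stmt := row_ENc (row_ENa all_HN) (row_ENb all_HN)

theorem all_DI : DI_stmt := row_DI row_FA row_BD1

theorem all_FN : FN_stmt := row_FN row_BD1 row_FA all_DI (row_EI row_FA) (row_LE row_FA)

theorem all_final :
    Tendsto (fun n : ℕ => zI n * Real.log n) atTop (𝓝 2) ∧
    ∃ c c1 C : ℝ, 0 < c ∧ 0 < c1 ∧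
      (∀ n : ℕ, 2 ≤ n → ∀ k : ℕ, (k : ℝ) ≤ c * √(n : ℝ) → zL k n ≤ zI n + C / (Real.log n) ^ 2) ∧
      (∃ N : ℕ, ∀ n ≥ N, ∀ k : ℕ, 1 ≤ k → zI n + c1 / (Real.log n) ^ 2 ≤ zL k n) ∧
      (∀ k n : ℕ, zL k n ≤ zz n) := by
  obtain ⟨h, c, hc, ⟨C, hC⟩, _⟩ := final2 row_DDc row_BD1 all_PA all_EN row_MU row_AS row_B2 row_FA
    all_DI all_FN
  obtain ⟨c1, hc1, N, hN⟩ := row_LB row_DDc row_BD1 row_BD2 row_BD4 all_FQ all_PA
  refine ⟨h, c, c1, C, hc, hc1, ?_, ⟨N, ?_⟩, ST2_zL_le_zz⟩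
  · intro n hn k hk
    have := hC n hn k hk
    linarith
  · intro n hn k hk
    have h1 := hN n hn
    have h2 := ST2_zII_le_zL row_BD1 row_FA all_DI k n hk
    linarith

end ZT68
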