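/-
MP_1882ea_al, helper68.  Third stage: the exact second order term.  Statements (Props) of the rows.
-/
import Mathlib
import Pool.Agent.Lib.ZT68.Chi
import Pool.Agent.Lib.ZT68.LBc

namespace ZT68

open Finset Filter Topology

/-- disjoint systems: `A ⊆ H` of size `a`, `B ⊆ K` of size `b`, with disjoint beads and disjoint
end points (`A` moves by `u`, `B` moves by `v`) -/
def Sys (H K : Set ℤ) (u v : ℤ) (a b : ℕ) : Set (Finset ℤ × Finset ℤ) :=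
  {P | (P.1 : Set ℤ) ⊆ H ∧ (P.2 : Set ℤ) ⊆ K ∧ P.1.card = a ∧ P.2.card = b ∧ Disjoint P.1 P.2 ∧
    Disjoint (P.1.image (fun x => x + u)) (P.2.image (fun x => x + v))}

/-- row JS : two lengths marked at the same time -/
def JS_stmt : Prop := ∀ m t r a b : ℕ, 1 ≤ t → 1 ≤ r → t ≠ r →
  ∑ Y ∈ DD (m + a * t + b * r), (Sys (Hk (SS Y) t) (Hk (SS Y) r) (-(t : ℤ)) (-(r : ℤ)) a b).ncard =
    ∑ Y ∈ DD m, (Sys (Up (SS Y) t) (Up (SS Y) r) (t : ℤ) (r : ℤ) a b).ncard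

/-- `q_t = t exp (-t η)` -/
noncomputable def qq (η : ℝ) (t : ℕ) : ℝ := t * Real.exp (-(t * η))

/-- row JM : joint factorial moments in the window -/
def JM_stmt : Prop := ∀ η C N0, PAx η C N0 → ∀ (J : ℕ) (Q δ ε : ℝ), 0 < δ → 0 < ε →
  ∃ N : ℕ, ∀ n ≥ N, ∀ t r : ℕ, 1 ≤ t * η n → t < r → qq (η n) t ≤ Q → δ ≤ qq (η n) r →
    ∀ a b : ℕ, a + b ≤ J →
      |(∑ Y ∈ DD n, ((hn t Y).choose a : ℝ) * (hn r Y).choose b) / pp n -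
        qq (η n) t ^ a / (a.factorial : ℝ) * (qq (η n) r ^ b / (b.factorial : ℝ))| ≤ ε

/-- row JP : joint law at zero -/
def JP_stmt : Prop := ∀ η C N0, PAx η C N0 → ∀ (Q δ ε : ℝ), 0 < δ → 0 < ε →
  ∃ N : ℕ, ∀ n ≥ N, ∀ t r : ℕ, 1 ≤ t * η n → t < r → qq (η n) t ≤ Q → δ ≤ qq (η n) r →
    |((LB_Y n r t).card : ℝ) / pp n -
      Real.exp (-qq (η n) t) * (1 - Real.exp (-qq (η n) r))| ≤ ε

/-- the pairs `(t, r)` with `t < r`, `t + r ≤ n` -/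
def PW (n : ℕ) : Finset (ℕ × ℕ) :=
  ((Icc 1 n) ×ˢ (Icc 1 n)).filter (fun p => p.1 < p.2 ∧ p.1 + p.2 ≤ n)

/-- the main term of second order -/
noncomputable def Sig2 (n : ℕ) : ℝ :=
  ∑ p ∈ PW n, ((pp (n - (p.2 + p.1)) : ℝ) / pp n) * (((LB_Y n p.2 p.1).card : ℝ) / pp n)

open Classical in
/-- third order events, weighted -/
noncomputable def TT3 (n k r : ℕ) : ℝ :=
  (∑ Y ∈ DD n, ∑ μ : n.Partition,
    if r ∈ μ.parts ∧ 3 ≤ WW r μ ∧ hn r Y + 2 ≤ 2 * min (WW r μ) k then (WW r μ : ℝ) else 0) /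
      (pp n : ℝ) ^ 2

/-- row JU -/
def JU_stmt : Prop := ∀ n : ℕ, |zII n - zI n - Sig2 n| ≤ ∑ t ∈ Icc 1 n, TT3 n 1 t

/-- row JT -/
def JT_stmt : Prop := ∀ η C N0 C1 N1, PAx η C N0 → ENx η C1 N1 →
  ∃ c : ℝ, 0 < c ∧ ∃ C3 : ℝ, ∃ N3 : ℕ, ∀ n ≥ N3, ∀ k : ℕ, (k : ℝ) ≤ c * √(n : ℝ) →
    ∑ r ∈ Icc 1 n, TT3 n k r ≤ C3 / (Real.log n) ^ 3

/-- row JD -/
def JD_stmt : Prop := ∀ η C N0 C1 N1, PAx η C N0 → ENx η C1 N1 →
  Tendsto (fun n : ℕ => Sig2 n * (Real.log n) ^ 2) atTop (𝓝 2)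

/-- two parts of `μ` whose hooks cannot be removed disjointly -/
def Cross (Y : YoungDiagram) {n : ℕ} (μ : n.Partition) : Prop :=
  ∃ t r : ℕ, t ≤ r ∧ ({t, r} : Multiset ℕ) ≤ μ.parts ∧ 1 ≤ hn t Y ∧ hn t Y ≤ 2 ∧ 1 ≤ hn r Y ∧
    ∀ x ∈ Hk (SS Y) t, ∀ x' ∈ Hk (SS Y) r, x = x' ∨ x - (t : ℤ) = x' - (r : ℤ)

open Classical in
/-- probability of `Cross` -/
noncomputable def XX (n : ℕ) : ℝ :=
  (∑ Y ∈ DD n, ∑ μ : n.Partition, if Cross Y μ then (1 : ℝ) else 0) / (pp n : ℝ) ^ 2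

/-- row JX -/
def JX_stmt : Prop := ∀ η C N0 C1 N1 C2 N2, PAx η C N0 → ENx η C1 N1 → MUx η C2 N2 →
  Tendsto (fun n : ℕ => XX n * (Real.log n) ^ 2) atTop (𝓝 0)

/-- row JN : refined consequence for local zeros -/
def JN_stmt : Prop := ∀ (n k : ℕ) (Y : YoungDiagram) (μ : n.Partition), Y.card = n → Loc k Y μ →
  IsTypeII Y μ ∨ Cross Y μ ∨
    ∃ s ∈ μ.parts, 3 ≤ WW s μ ∧ hn s Y + 2 ≤ 2 * min (WW s μ) k

end ZT68
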