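/-
MP_1882ea_al, helper68.  Row JN: refined consequence for local zeros.
-/
import Mathlib
import Pool.Agent.Lib.ZT68.Sec
import Pool.Agent.Lib.ZT68.FN
import Pool.Agent.Lib.ZT68.LE
import Pool.Agent.Lib.ZT68.DI

namespace ZT68

open Finset Function

section
variable {N : ℕ}

/-- two beads moved down -/
def JN_b (γ : Fin N → ℕ) (i l : Fin N) (r t : ℕ) : Fin N → ℕ :=
  update (update γ i (γ i - r)) l (γ l - t)

theorem JN_b_i {γ : Fin N → ℕ} {i l : Fin N} (hil : i ≠ l) (r t : ℕ) :
    JN_b γ i l r t i = γ i - r := by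
  unfold JN_b
  rw [update_of_ne hil, update_self]

theorem JN_b_l {γ : Fin N → ℕ} {i l : Fin N} (r t : ℕ) :
    JN_b γ i l r t l = γ l - t := by
  unfold JN_b
  rw [update_self]

theorem JN_b_o {γ : Fin N → ℕ} {i l m : Fin N} (hi : m ≠ i) (hl : m ≠ l) (r t : ℕ) :
    JN_b γ i l r t m = γ m := by
  unfold JN_b
  rw [update_of_ne hl, update_of_ne hi]

theorem JN_supp {γ b : Fin N → ℕ} (hb : FF γ b ≠ 0) (m : Fin N) : ∃ m', b m = γ m' := by
  obtain ⟨σ, _, hσ⟩ := Finset.exists_ne_zero_of_sum_ne_zero hb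
  refine ⟨σ m, ?_⟩
  by_contra h
  apply hσ
  rw [if_neg]
  intro h2
  apply h
  rw [h2]
  rfl

theorem JN_term (hA : FA_stmt) {γ : Fin N → ℕ} (hγ : Injective γ) {i l : Fin N} (hil : i ≠ l)
    {r t : ℕ} (hr : r ≤ γ i) (hr2 : ∀ m, γ m ≠ γ i - r) (ht : t ≤ γ l) (ht2 : ∀ m, γ m ≠ γ l - t)
    (hne : γ i - r ≠ γ l - t) (j j' : Fin N) :
    0 ≤ FF γ (update (update (JN_b γ i l r t) j (JN_b γ i l r t j + t)) j'
      (update (JN_b γ i l r t) j (JN_b γ i l r t j + t) j' + r)) := by
  set b := JN_b γ i l r t with hb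
  set b1 := update b j (b j + t) with hb1
  set b2 := update b1 j' (b1 j' + r) with hb2
  by_cases h0 : FF γ b2 = 0
  · rw [h0]
  suffices h : b2 = γ by rw [h, hA.self N γ hγ]; norm_num
  have hinj := LE_inj (hA.alt_FF N γ) h0
  have hi : i = j ∨ i = j' := by
    by_contra h
    push Not at h
    obtain ⟨m, hm⟩ := JN_supp h0 i
    rw [hb2, update_of_ne h.2, hb1, update_of_ne h.1, hb, JN_b_i hil] at hm
    exact hr2 m hm.symm
  have hl : l = j ∨ l = j' := by
    by_contra h
    push Not at h
    obtain ⟨m, hm⟩ := JN_supp h0 l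
    rw [hb2, update_of_ne h.2, hb1, update_of_ne h.1, hb, JN_b_l] at hm
    exact ht2 m hm.symm
  have ho : ∀ m, m ≠ j → m ≠ j' → b2 m = b m := by
    intro m h1 h2
    rw [hb2, update_of_ne h2, hb1, update_of_ne h1]
  rcases hi with rfl | rfl
  · rcases hl with rfl | rfl
    · exact absurd rfl hil
    · -- j = i, j' = l
      have h1 : b2 i = γ i - r + t := by
        rw [hb2, update_of_ne hil, hb1, update_self, hb, JN_b_i hil]
      have h2 : b2 l = γ l - t + r := by
        rw [hb2, update_self, hb1, update_of_ne hil.symm, hb, JN_b_l]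
      have h3 : ∀ m, m ≠ i → m ≠ l → b2 m = γ m := by
        intro m hm1 hm2
        rw [ho m hm1 hm2, hb, JN_b_o hm1 hm2]
      obtain ⟨m, hm⟩ := JN_supp h0 i
      have hmi : m = i := by
        by_contra hmi
        by_cases hml : m = l
        · rw [hml, h1] at hm
          omega
        · have := h3 m hmi hml
          rw [← this] at hm
          exact hmi (hinj hm).symm
      rw [hmi, h1] at hm
      have htr : t = r := by omega
      funext m
      by_cases hm1 : m = i
      · rw [hm1, h1]; omega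
      · by_cases hm2 : m = l
        · rw [hm2, h2]; omega
        · exact h3 m hm1 hm2
  · rcases hl with rfl | rfl
    · -- j = l, j' = i
      have h1 : b2 i = γ i := by
        rw [hb2, update_self, hb1, update_of_ne hil, hb, JN_b_i hil]
        omega
      have h2 : b2 l = γ l := by
        rw [hb2, update_of_ne hil.symm, hb1, update_self, hb, JN_b_l]
        omega
      funext m
      by_cases hm1 : m = i
      · rw [hm1, h1]
      · by_cases hm2 : m = l
        · rw [hm2, h2]
        · rw [ho m hm2 hm1, hb, JN_b_o hm1 hm2]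
    · exact absurd rfl hil

theorem JN_val (hA : FA_stmt) {γ : Fin N → ℕ} (hγ : Injective γ) {i l : Fin N} (hil : i ≠ l)
    {r t : ℕ} (hr : r ≤ γ i) (hr2 : ∀ m, γ m ≠ γ i - r) (ht : t ≤ γ l) (ht2 : ∀ m, γ m ≠ γ l - t)
    (hne : γ i - r ≠ γ l - t) : AA t (AA r (FF γ)) (JN_b γ i l r t) ≠ 0 := by
  have h1 : (1 : ℤ) ≤ AA t (AA r (FF γ)) (JN_b γ i l r t) := by
    unfold AA
    have h2 := Finset.single_le_sum (f := fun j => ∑ j', FF γ
      (update (update (JN_b γ i l r t) j (JN_b γ i l r t j + t)) j'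
      (update (JN_b γ i l r t) j (JN_b γ i l r t j + t) j' + r)))
      (fun j _ => Finset.sum_nonneg (fun j' _ => JN_term hA hγ hil hr hr2 ht ht2 hne j j'))
      (Finset.mem_univ l)
    have h3 := Finset.single_le_sum (f := fun j' => FF γ
      (update (update (JN_b γ i l r t) l (JN_b γ i l r t l + t)) j'
      (update (JN_b γ i l r t) l (JN_b γ i l r t l + t) j' + r)))
      (fun j' _ => JN_term hA hγ hil hr hr2 ht ht2 hne l j') (Finset.mem_univ i)
    have h4 : update (update (JN_b γ i l r t) l (JN_b γ i l r t l + t)) i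
      (update (JN_b γ i l r t) l (JN_b γ i l r t l + t) i + r) = γ := by
      funext m
      by_cases hm1 : m = i
      · rw [hm1, update_self, update_of_ne hil, JN_b_i hil]
        omega
      · rw [update_of_ne hm1]
        by_cases hm2 : m = l
        · rw [hm2, update_self, JN_b_l]
          omega
        · rw [update_of_ne hm2, JN_b_o hm1 hm2]
    rw [h4, hA.self N γ hγ] at h3
    exact h3.trans h2
  intro h
  rw [h] at h1
  norm_num at h1

theorem JN_dist {γ : Fin N → ℕ} (hγ : Injective γ) {i l : Fin N} (hil : i ≠ l)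
    {r t : ℕ} (hr2 : ∀ m, γ m ≠ γ i - r) (ht2 : ∀ m, γ m ≠ γ l - t) :
    LE_dist γ (JN_b γ i l r t) = 2 := by
  unfold LE_dist
  have h : (univ.image γ) \ (univ.image (JN_b γ i l r t)) = {γ i, γ l} := by
    ext z
    simp only [Finset.mem_sdiff, Finset.mem_image, Finset.mem_univ, true_and, Finset.mem_insert,
      Finset.mem_singleton, not_exists]
    constructor
    · rintro ⟨⟨m, rfl⟩, h2⟩
      by_contra h
      push Not at h
      have hm1 : m ≠ i := fun e => h.1 (by rw [e])
      have hm2 : m ≠ l := fun e => h.2 (by rw [e])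
      exact h2 m (JN_b_o hm1 hm2 r t)
    · have key : ∀ c : Fin N, (c = i ∨ c = l) → ∀ m, JN_b γ i l r t m ≠ γ c := by
        intro c hc m hm
        by_cases hm1 : m = i
        · rw [hm1, JN_b_i hil] at hm
          exact hr2 c hm.symm
        · by_cases hm2 : m = l
          · rw [hm2, JN_b_l] at hm
            exact ht2 c hm.symm
          · rw [JN_b_o hm1 hm2] at hm
            have := hγ hm
            rcases hc with rfl | rfl
            · exact hm1 this
            · exact hm2 this
      rintro (rfl | rfl)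
      · exact ⟨⟨i, rfl⟩, key i (Or.inl rfl)⟩
      · exact ⟨⟨l, rfl⟩, key l (Or.inr rfl)⟩
  rw [h, Finset.card_pair]
  exact fun e => hil (hγ e)

theorem JN_lef (hA : FA_stmt) {γ : Fin N → ℕ} (hγ : Injective γ) {i l : Fin N} (hil : i ≠ l)
    {r t : ℕ} (hr1 : 1 ≤ r) (ht1 : 1 ≤ t)
    (hr : r ≤ γ i) (hr2 : ∀ m, γ m ≠ γ i - r) (ht : t ≤ γ l) (ht2 : ∀ m, γ m ≠ γ l - t)
    (hne : γ i - r ≠ γ l - t) (rs : List ℕ) (hpos : ∀ s ∈ rs, 1 ≤ s)
    (hmany : ∀ p s q, rs = p ++ s :: q → 2 * (2 + p.length) + 1 ≤ HH γ s) :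
    AAs (r :: t :: rs) (FF γ) ≠ 0 := by
  obtain ⟨R, hR⟩ : ∃ R, ∀ l, γ l < R := by
    refine ⟨∑ l, γ l + 1, fun l => ?_⟩
    have := Finset.single_le_sum (f := γ) (fun _ _ => Nat.zero_le _) (Finset.mem_univ l)
    omega
  have hsupp : ∀ b, FF γ b ≠ 0 → ∃ σ : Equiv.Perm (Fin N), b = γ ∘ σ := by
    intro b hb
    obtain ⟨σ, _, hσ⟩ := Finset.exists_ne_zero_of_sum_ne_zero hb
    refine ⟨σ, ?_⟩
    by_contra h
    rw [if_neg h] at hσ
    exact hσ rfl
  have hd0 : ∀ b, FF γ b ≠ 0 → LE_dist γ b ≤ 0 := by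
    intro b hb
    obtain ⟨σ, rfl⟩ := hsupp b hb
    unfold LE_dist
    rw [Nat.le_zero, Finset.card_eq_zero, Finset.sdiff_eq_empty_iff_subset]
    intro z hz
    obtain ⟨l, _, rfl⟩ := Finset.mem_image.1 hz
    exact Finset.mem_image.2 ⟨σ.symm l, Finset.mem_univ _, by simp⟩
  have hR0 : ∀ b, FF γ b ≠ 0 → ∀ j, b j < R := by
    intro b hb j
    obtain ⟨σ, rfl⟩ := hsupp b hb
    exact hR _
  have hRstep : ∀ (s : ℕ) (f : (Fin N → ℕ) → ℤ), (∀ b, f b ≠ 0 → ∀ j, b j < R) →
      ∀ b, AA s f b ≠ 0 → ∀ j, b j < R := by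
    intro s f hf b hb j
    obtain ⟨m, _, hm⟩ := Finset.exists_ne_zero_of_sum_ne_zero hb
    have h3 := hf _ hm j
    by_cases hjm : j = m
    · subst hjm
      rw [update_self] at h3
      omega
    · rwa [update_of_ne hjm] at h3
  obtain ⟨h1, _⟩ := LE_step hA γ r hr1 0 (FF γ) (hA.alt_FF N γ) hd0
  obtain ⟨h2, _⟩ := LE_step hA γ t ht1 (0 + 1) (AA r (FF γ)) (hA.alt_AA N r _ (hA.alt_FF N γ)) h1
  show AAs rs (AA t (AA r (FF γ))) ≠ 0
  apply LE_main hA γ hγ R hR rs 2 (AA t (AA r (FF γ)))
    (hA.alt_AA N t _ (hA.alt_AA N r _ (hA.alt_FF N γ)))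
  · intro b hb
    have := h2 b hb
    omega
  · exact hRstep t _ (hRstep r _ hR0)
  · exact ⟨JN_b γ i l r t, JN_val hA hγ hil hr hr2 ht ht2 hne, JN_dist hγ hil hr2 ht2⟩
  · exact hpos
  · exact hmany

end

/-- row JN -/
theorem row_JN (h1 : BD1_stmt) (hA : FA_stmt) (hD : DI_stmt) (hE : EI_stmt) (hL : LE_stmt) :
    JN_stmt := by
  intro n k Y μ hY hloc
  by_contra hcon
  push Not at hcon
  obtain ⟨hc1, hc2, hcon⟩ := hcon
  obtain ⟨M, hMle, hMk, hM⟩ := hloc
  set N := Y.colLen 0 with hN
  obtain ⟨rs, hrs⟩ : ∃ rs : List ℕ, rs = M.sort (· ≥ ·) := ⟨_, rfl⟩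
  have hrsM : (rs : Multiset ℕ) = M := by rw [hrs]; exact Multiset.sort_eq _ _
  have hmemM : ∀ r ∈ rs, r ∈ μ.parts := by
    intro r hr
    have : r ∈ M := by rw [← hrsM]; simpa using hr
    exact Multiset.mem_of_le hMle this
  have hpos : ∀ r ∈ rs, 1 ≤ r := fun r hr => μ.parts_pos (hmemM r hr)
  have hsorted : rs.Pairwise (· ≥ ·) := by rw [hrs]; exact Multiset.pairwise_sort _ _
  have hhn : ∀ r ∈ rs, 1 ≤ hn r Y := by
    intro r hr
    by_contra h
    have h2 : hn r Y = 0 := by omega
    exact hc1 ⟨r, hmemM r hr, (h1.core Y r (hpos r hr)).2 h2⟩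
  have hv : AAs rs (FF (beta N Y)) ≠ 0 := by
    have hW : ∀ p r q, rs = p ++ r :: q → p.length + 1 ≤ WW r μ ∧ p.length + 1 ≤ k := by
      intro p r q he
      have hrrs : r ∈ rs := by rw [he]; simp
      have hrM : r ∈ M := by rw [← hrsM]; simpa using hrrs
      have hrμ : r ∈ μ.parts := Multiset.mem_of_le hMle hrM
      constructor
      · unfold WW
        have h4 : ((p ++ [r] : List ℕ) : Multiset ℕ) ≤ μ.parts.filter (fun s => r ≤ s) := by
          rw [Multiset.le_filter]
          constructor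
          · refine le_trans ?_ hMle
            rw [← hrsM, he]
            have : (p ++ r :: q : List ℕ) = (p ++ [r]) ++ q := by simp
            rw [this, ← Multiset.coe_add (p ++ [r]) q]
            exact Multiset.le_add_right _ _
          · intro s hs
            rw [Multiset.mem_coe, List.mem_append, List.mem_singleton] at hs
            rcases hs with hs | rfl
            · rw [he, List.pairwise_append] at hsorted
              exact hsorted.2.2 s hs r (by simp)
            · exact le_rfl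
        have h5 := Multiset.card_le_card h4
        simpa using h5
      · have h5 : M.card = rs.length := by rw [← hrsM]; simp
        rw [he] at h5
        simp at h5
        omega
    clear hrs
    rcases rs with _ | ⟨r, _ | ⟨t, rest⟩⟩
    · exact hL N (beta N Y) [] (FN_beta_inj N Y) (by simp) (by simp)
    · apply hL N (beta N Y) [r] (FN_beta_inj N Y) (by intro s hs; exact hpos s hs)
      intro p s q he
      have hp : p = [] ∧ s = r := by
        rcases p with _ | ⟨a, p⟩
        · simp at he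
          exact ⟨rfl, he.1.symm⟩
        · simp at he
      rw [hp.1, hp.2, hD.hh N Y r le_rfl (hpos r (by simp))]
      simpa using hhn r (by simp)
    · have hr1 : 1 ≤ r := hpos r (by simp)
      have ht1 : 1 ≤ t := hpos t (by simp)
      have htr : t ≤ r := by
        rw [List.pairwise_cons] at hsorted
        exact hsorted.1 t (by simp)
      have hnr := hhn r (by simp)
      have hnt := hhn t (by simp)
      have hle : ({t, r} : Multiset ℕ) ≤ μ.parts := by
        refine le_trans ?_ hMle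
        rw [← hrsM]
        have : (r :: t :: rest : List ℕ) = [r, t] ++ rest := by simp
        rw [this, ← Multiset.coe_add [r, t] rest]
        have h2 : ({t, r} : Multiset ℕ) = (([r, t] : List ℕ) : Multiset ℕ) := by
          rw [Multiset.pair_comm]
          rfl
        rw [h2]
        exact Multiset.le_add_right _ _
      have hβ := FN_beta_inj N Y
      -- two disjoint hooks
      obtain ⟨i, l, hil, hir, hir2, hlt, hlt2, hne⟩ : ∃ i l : Fin N, i ≠ l ∧ r ≤ beta N Y i ∧
          (∀ m, beta N Y m ≠ beta N Y i - r) ∧ t ≤ beta N Y l ∧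
          (∀ m, beta N Y m ≠ beta N Y l - t) ∧ beta N Y i - r ≠ beta N Y l - t := by
        by_cases h3 : 3 ≤ hn t Y
        · have h4 := hD.hh N Y r le_rfl hr1
          have h5 := hD.hh N Y t le_rfl ht1
          unfold HH at h4 h5
          have h6 : 0 < (Finset.univ.filter (fun i : Fin N => r ≤ beta N Y i ∧
              ∀ l : Fin N, beta N Y l ≠ beta N Y i - r)).card := by omega
          obtain ⟨i, hi⟩ := Finset.card_pos.1 h6
          simp only [Finset.mem_filter, Finset.mem_univ, true_and] at hi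
          set T := Finset.univ.filter (fun i : Fin N => t ≤ beta N Y i ∧
              ∀ l : Fin N, beta N Y l ≠ beta N Y i - t) with hT
          have h7 : 1 < (T.erase i).card := by
            have := Finset.pred_card_le_card_erase (s := T) (a := i)
            omega
          obtain ⟨l1, hl1, l2, hl2, hl12⟩ := Finset.one_lt_card.1 h7
          rw [Finset.mem_erase, hT] at hl1 hl2
          simp only [Finset.mem_filter, Finset.mem_univ, true_and] at hl1 hl2
          by_cases h8 : beta N Y i - r = beta N Y l1 - t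
          · refine ⟨i, l2, fun e => hl2.1 e.symm, hi.1, hi.2, hl2.2.1, hl2.2.2, ?_⟩
            intro h9
            apply hl12
            apply hβ
            omega
          · exact ⟨i, l1, fun e => hl1.1 e.symm, hi.1, hi.2, hl1.2.1, hl1.2.2, h8⟩
        · have h4 : ¬ ∀ x ∈ Hk (SS Y) t, ∀ x' ∈ Hk (SS Y) r,
              x = x' ∨ x - (t : ℤ) = x' - (r : ℤ) := by
            intro h5
            exact hc2 ⟨t, r, htr, hle, hnt, by omega, hnr, h5⟩
          push Not at h4
          obtain ⟨x, hx, x', hx', hxx, hxt⟩ := h4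
          obtain ⟨a, j, ha1, ha2, ha3, ha4⟩ := BD1_hk_cell Y ht1 hx
          obtain ⟨a', j', hb1, hb2, hb3, hb4⟩ := BD1_hk_cell Y hr1 hx'
          have haN : a < N := DI_lt_col Y le_rfl ha1
          have hbN : a' < N := DI_lt_col Y le_rfl hb1
          have h6 := (DI_hook_iff N Y t le_rfl ht1 ⟨a, haN⟩).2 ⟨j, ha1, ha4⟩
          have h7 := (DI_hook_iff N Y r le_rfl hr1 ⟨a', hbN⟩).2 ⟨j', hb1, hb4⟩
          have h8 := DI_beta N Y ⟨a, haN⟩
          have h9 := DI_beta N Y ⟨a', hbN⟩
          simp only at h8 h9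
          refine ⟨⟨a', hbN⟩, ⟨a, haN⟩, ?_, h7.1, h7.2, h6.1, h6.2, ?_⟩
          · intro e
            rw [Fin.mk.injEq] at e
            apply hxx
            rw [← ha2, ← hb2, e]
          · intro e
            apply hxt
            have h10 := h6.1
            have h11 := h7.1
            omega
      apply JN_lef hA hβ hil hr1 ht1 hir hir2 hlt hlt2 hne rest
        (fun s hs => hpos s (by simp [hs]))
      intro p s q he
      obtain ⟨hW1, hW2⟩ := hW (r :: t :: p) s q (by rw [he]; simp)
      simp only [List.length_cons] at hW1 hW2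
      have hs : s ∈ μ.parts := hmemM s (by rw [he]; simp)
      have hs1 : 1 ≤ s := hpos s (by rw [he]; simp)
      have h3 := hcon s hs (by omega)
      rw [hD.hh N Y s le_rfl hs1]
      omega
  obtain ⟨M', hM'⟩ := Multiset.le_iff_exists_add.1 hMle
  have hsum : M.sum + M'.sum = n := by
    rw [← Multiset.sum_add, ← hM', μ.parts_sum]
  have hrsum : rs.sum = M.sum := by rw [← hrsM]; simp
  have hβ : ∀ b, FF (beta N Y) b ≠ 0 → ∑ j, b j = (M'.sum + ∑ i : Fin N, (i : ℕ)) + rs.sum := by
    intro b hb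
    rw [hA.sum_FF N _ b hb, FN_beta_sum N Y le_rfl, hY, hrsum]
    omega
  obtain ⟨ρ, hρ1, hρ2, hρ3⟩ := hE.full N M'.sum (AAs rs (FF (beta N Y)))
    (FN_alt hA rs _ (hA.alt_FF N _)) (FN_fin hA rs _ (hA.fin_FF N _))
    (FN_sum hA rs _ _ hβ) hv
  let μ' : n.Partition :=
    { parts := M + (ρ : Multiset ℕ)
      parts_pos := by
        intro i hi
        rcases Multiset.mem_add.1 hi with h | h
        · exact μ.parts_pos (Multiset.mem_of_le hMle h)
        · exact hρ1 i (by simpa using h)
      parts_sum := by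
        rw [Multiset.sum_add, Multiset.sum_coe, hρ2, hsum] }
  have h0 := hM μ' (Multiset.le_add_right _ _)
  unfold chi at h0
  rw [hD.chi N Y _ le_rfl (by
    intro s hs
    rw [Multiset.mem_sort] at hs
    exact μ'.parts_pos hs)] at h0
  have hperm : (μ'.parts.sort (· ≥ ·)).Perm (rs ++ ρ) := by
    rw [← Multiset.coe_eq_coe, Multiset.sort_eq, ← Multiset.coe_add, hrsM]
  rw [FN_perm hA hperm, FN_append] at h0
  exact hρ3 h0

end ZT68
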