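/-
MP_1882ea_al, helper68.  Row JF: assembly of the third stage.
-/
import Mathlib
import Pool.Agent.Lib.ZT68.ST2
import Pool.Agent.Lib.ZT68.JN

namespace ZT68

open Finset Filter Topology

open Classical in
theorem JF_zL_le (hN : JN_stmt) (k n : ℕ) :
    zL k n ≤ zII n + XX n + ∑ r ∈ Icc 1 n, TT3 n k r := by
  have hII : (({P : YoungDiagram × n.Partition | P.1.card = n ∧ IsTypeII P.1 P.2}.ncard : ℕ) : ℝ) =
      ∑ Y ∈ DD n, ∑ μ : n.Partition, if IsTypeII Y μ then (1 : ℝ) else 0 :=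
    ST_count n (fun Y μ => IsTypeII Y μ)
  unfold zL zII XX TT3
  rw [ST2_countL, hII, ← Finset.sum_div, ← add_div, ← add_div]
  apply div_le_div_of_nonneg_right _ (by positivity)
  rw [Finset.sum_comm (s := Icc 1 n), ← Finset.sum_add_distrib, ← Finset.sum_add_distrib]
  apply Finset.sum_le_sum
  intro Y hY
  rw [mem_DD] at hY
  rw [Finset.sum_comm (s := Icc 1 n), ← Finset.sum_add_distrib, ← Finset.sum_add_distrib]
  apply Finset.sum_le_sum
  intro μ _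
  have hterm : ∀ x ∈ Icc 1 n, 0 ≤ (if x ∈ μ.parts ∧ 3 ≤ WW x μ ∧ hn x Y + 2 ≤ 2 * min (WW x μ) k
      then (WW x μ : ℝ) else 0) := fun x _ => by split_ifs <;> positivity
  have hs : 0 ≤ ∑ x ∈ Icc 1 n, (if x ∈ μ.parts ∧ 3 ≤ WW x μ ∧ hn x Y + 2 ≤ 2 * min (WW x μ) k
      then (WW x μ : ℝ) else 0) := Finset.sum_nonneg hterm
  have hI : (0 : ℝ) ≤ if IsTypeII Y μ then (1 : ℝ) else 0 := by split_ifs <;> norm_num
  have hC : (0 : ℝ) ≤ if Cross Y μ then (1 : ℝ) else 0 := by split_ifs <;> norm_num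
  by_cases h : Loc k Y μ
  · rw [if_pos h]
    rcases hN n k Y μ hY h with h3 | h3 | ⟨r, hr, h3⟩
    · rw [if_pos h3]
      linarith
    · rw [if_pos h3]
      linarith
    · have hr1 : 1 ≤ r := μ.parts_pos hr
      have hrn : r ≤ n := Nat.Partition.le_of_mem_parts hr
      have h4 := Finset.single_le_sum hterm (show r ∈ Icc 1 n by simp [hr1, hrn])
      rw [if_pos ⟨hr, h3⟩] at h4
      have h5 : (1 : ℝ) ≤ WW r μ := by
        have := h3.1
        exact_mod_cast (by omega : 1 ≤ WW r μ)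
      linarith
  · rw [if_neg h]
    linarith

/-- the final theorem, third stage -/
theorem final3 (h1 : BD1_stmt) (hFA : FA_stmt) (hDI : DI_stmt) (hN : JN_stmt) (hP : PA_stmt)
    (hE : EN_stmt) (hM : MU_stmt) (hU : JU_stmt) (hT : JT_stmt) (hJ : JD_stmt) (hX : JX_stmt) :
    ∃ c : ℝ, 0 < c ∧ ∀ ε : ℝ, 0 < ε → ∃ N : ℕ, ∀ n ≥ N, ∀ k : ℕ, 1 ≤ k → (k : ℝ) ≤ c * √(n : ℝ) →
      |(zL k n - zI n) * (Real.log n) ^ 2 - 2| ≤ ε := by
  obtain ⟨η, C, N0, hPA⟩ := hP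
  obtain ⟨C1, N1, hEN⟩ := hE η C N0 hPA
  obtain ⟨C2, N2, hMU⟩ := hM η C N0 hPA
  have hS := hJ η C N0 C1 N1 hPA hEN
  have hXX := hX η C N0 C1 N1 C2 N2 hPA hEN hMU
  obtain ⟨c, hc, C3, N3, hT3⟩ := hT η C N0 C1 N1 hPA hEN
  have hlog : Tendsto (fun n : ℕ => Real.log n) atTop atTop :=
    Real.tendsto_log_atTop.comp tendsto_natCast_atTop_atTop
  have hC3 : Tendsto (fun n : ℕ => C3 / Real.log n) atTop (𝓝 0) := hlog.const_div_atTop C3
  refine ⟨c, hc, fun ε hε => ?_⟩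
  have e1 : ∀ᶠ n : ℕ in atTop, |Sig2 n * (Real.log n) ^ 2 - 2| < ε / 4 := by
    have := Metric.tendsto_atTop.1 hS (ε / 4) (by positivity)
    obtain ⟨N, hN⟩ := this
    filter_upwards [eventually_ge_atTop N] with n hn
    exact hN n hn
  have e2 : ∀ᶠ n : ℕ in atTop, |XX n * (Real.log n) ^ 2| < ε / 4 := by
    obtain ⟨N, hN⟩ := Metric.tendsto_atTop.1 hXX (ε / 4) (by positivity)
    filter_upwards [eventually_ge_atTop N] with n hn
    have := hN n hn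
    rwa [Real.dist_eq, sub_zero] at this
  have e3 : ∀ᶠ n : ℕ in atTop, |C3 / Real.log n| < ε / 4 := by
    obtain ⟨N, hN⟩ := Metric.tendsto_atTop.1 hC3 (ε / 4) (by positivity)
    filter_upwards [eventually_ge_atTop N] with n hn
    have := hN n hn
    rwa [Real.dist_eq, sub_zero] at this
  have hall := (e1.and (e2.and e3)).and ((eventually_ge_atTop N3).and (hlog.eventually_gt_atTop 0))
  rw [eventually_atTop] at hall
  obtain ⟨N, hall⟩ := hall
  refine ⟨N, fun n hn k hk hkc => ?_⟩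
  obtain ⟨⟨a1, a2, a3⟩, a4, a5⟩ := hall n hn
  have hk1 : ((1 : ℕ) : ℝ) ≤ c * √(n : ℝ) := le_trans (by exact_mod_cast hk) hkc
  have t1 := hT3 n a4 1 hk1
  have tk := hT3 n a4 k hkc
  have u := hU n
  have v1 := JF_zL_le hN k n
  have v2 := ST2_zII_le_zL h1 hFA hDI k n hk
  rw [abs_le] at u
  have L2 : 0 < (Real.log n) ^ 2 := by positivity
  have hdiv : C3 / (Real.log n) ^ 3 * (Real.log n) ^ 2 = C3 / Real.log n := by
    field_simp
  have b1 : (zL k n - zI n) * (Real.log n) ^ 2 ≤ Sig2 n * (Real.log n) ^ 2 +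
      XX n * (Real.log n) ^ 2 + 2 * (C3 / Real.log n) := by
    have : zL k n - zI n ≤ Sig2 n + XX n + 2 * (C3 / (Real.log n) ^ 3) := by linarith [u.2]
    calc _ ≤ (Sig2 n + XX n + 2 * (C3 / (Real.log n) ^ 3)) * (Real.log n) ^ 2 := by gcongr
      _ = Sig2 n * (Real.log n) ^ 2 + XX n * (Real.log n) ^ 2 +
          2 * (C3 / (Real.log n) ^ 3 * (Real.log n) ^ 2) := by ring
      _ = _ := by rw [hdiv]
  have b2 : Sig2 n * (Real.log n) ^ 2 - C3 / Real.log n ≤ (zL k n - zI n) * (Real.log n) ^ 2 := by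
    have : Sig2 n - C3 / (Real.log n) ^ 3 ≤ zL k n - zI n := by linarith [u.1]
    calc Sig2 n * (Real.log n) ^ 2 - C3 / Real.log n =
        (Sig2 n - C3 / (Real.log n) ^ 3) * (Real.log n) ^ 2 := by rw [sub_mul, hdiv]
      _ ≤ _ := by gcongr
  rw [abs_lt] at a1 a2 a3
  rw [abs_le]
  constructor <;> linarith [a1.1, a1.2, a2.1, a2.2, a3.1, a3.2]

/-- the ratio -/
theorem final3_ratio (hI : Tendsto (fun n : ℕ => zI n * Real.log n) atTop (𝓝 2))
    (h : ∃ c : ℝ, 0 < c ∧ ∀ ε : ℝ, 0 < ε → ∃ N : ℕ, ∀ n ≥ N, ∀ k : ℕ, 1 ≤ k →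
      (k : ℝ) ≤ c * √(n : ℝ) → |(zL k n - zI n) * (Real.log n) ^ 2 - 2| ≤ ε) :
    ∃ c : ℝ, 0 < c ∧ ∀ ε : ℝ, 0 < ε → ∃ N : ℕ, ∀ n ≥ N, ∀ k : ℕ, 1 ≤ k → (k : ℝ) ≤ c * √(n : ℝ) →
      |(1 - zI n / zL k n) * Real.log n - 1| ≤ ε := by
  obtain ⟨c, hc, h⟩ := h
  refine ⟨c, hc, fun ε hε => ?_⟩
  set δ := min (ε / 8) (1 / 8) with hδ
  have hδ0 : 0 < δ := by positivity
  have hδ1 : δ ≤ 1 / 8 := min_le_right _ _
  have hδ2 : δ ≤ ε / 8 := min_le_left _ _
  obtain ⟨N, hN⟩ := h δ hδ0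
  have hlog : Tendsto (fun n : ℕ => Real.log n) atTop atTop :=
    Real.tendsto_log_atTop.comp tendsto_natCast_atTop_atTop
  obtain ⟨N', hN'⟩ := Metric.tendsto_atTop.1 hI δ hδ0
  have hall := ((eventually_ge_atTop N).and (eventually_ge_atTop N')).and
    (hlog.eventually_ge_atTop (3 / δ))
  rw [eventually_atTop] at hall
  obtain ⟨N2, hall⟩ := hall
  refine ⟨N2, fun n hn k hk hkc => ?_⟩
  obtain ⟨⟨a1, a2⟩, a3⟩ := hall n hn
  have b1 := hN n a1 k hk hkc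
  have b2 := hN' n a2
  rw [Real.dist_eq] at b2
  set L := Real.log n with hL
  have hL0 : 0 < L := lt_of_lt_of_le (by positivity) a3
  set d := (zL k n - zI n) * L ^ 2 with hd
  set z := zI n * L with hz
  have b3 : d / L ≤ δ := by
    rw [div_le_iff₀ hL0]
    rw [div_le_iff₀ hδ0] at a3
    rw [abs_le] at b1
    nlinarith [b1.2]
  have b4 : 0 ≤ d / L := by
    rw [abs_le] at b1
    apply div_nonneg _ hL0.le
    linarith [b1.1]
  have hzL : zL k n * L = z + d / L := by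
    rw [hz, hd]
    field_simp
    ring
  rw [abs_lt] at b2
  rw [abs_le] at b1
  have hpos : 0 < z + d / L := by linarith [b2.1]
  have hzL0 : zL k n ≠ 0 := by
    intro h0
    rw [h0, zero_mul] at hzL
    linarith
  have key : (1 - zI n / zL k n) * L = d / (z + d / L) := by
    rw [← hzL, hd]
    field_simp
  rw [key, abs_le]
  constructor
  · rw [neg_le_sub_iff_le_add, ← sub_le_iff_le_add, le_div_iff₀ hpos]
    nlinarith [b1.1, b1.2, b2.1, b2.2]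
  · rw [sub_le_iff_le_add, div_le_iff₀ hpos]
    nlinarith [b1.1, b1.2, b2.1, b2.2]

end ZT68
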