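/-
MP_1882ea_al, row JP (helper6): joint law at zero, by the Bonferroni inequalities.
-/
import Mathlib
import Pool.Agent.Lib.ZT68.Sec

namespace ZT68

open Finset Filter Topology

theorem JP_alt (n M : ℕ) : ∑ j ∈ range (M + 1), (-1 : ℝ) ^ j * ((n + 1).choose j : ℝ) =
    (-1) ^ M * (n.choose M : ℝ) := by
  induction M with
  | zero => simp
  | succ M ih =>
    rw [Finset.sum_range_succ, ih, Nat.choose_succ_succ]
    push_cast
    ring

theorem JP_point (N M : ℕ) : |(if N = 0 then (1 : ℝ) else 0) -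
    ∑ j ∈ range (M + 1), (-1 : ℝ) ^ j * (N.choose j : ℝ)| ≤ (N.choose M : ℝ) := by
  rcases N with _ | n
  · have h : ∑ j ∈ range (M + 1), (-1 : ℝ) ^ j * ((Nat.choose 0 j : ℕ) : ℝ) = 1 := by
      rw [Finset.sum_range_succ']
      simp
    rw [h]
    simp
  · rw [JP_alt, if_neg (Nat.succ_ne_zero n), zero_sub, abs_neg, abs_mul, abs_pow, abs_neg, abs_one,
      one_pow, one_mul, abs_of_nonneg (Nat.cast_nonneg _)]
    exact_mod_cast Nat.choose_le_choose M (Nat.le_succ n)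

/-- the remainder of the exponential series -/
noncomputable def JP_R (n : ℕ) (x : ℝ) : ℝ := Real.exp x - ∑ j ∈ range n, x ^ j / (j.factorial : ℝ)

theorem JP_hasSum (n : ℕ) (x : ℝ) :
    HasSum (fun j : ℕ => x ^ (j + n) / ((j + n).factorial : ℝ)) (JP_R n x) := by
  have h : HasSum (fun j : ℕ => x ^ j / (j.factorial : ℝ)) (Real.exp x) := by
    have := NormedSpace.expSeries_div_hasSum_exp (𝔸 := ℝ) x
    rwa [← Real.exp_eq_exp_ℝ] at this
  exact (hasSum_nat_add_iff' n).2 h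

theorem JP_R_mono (n : ℕ) {x X : ℝ} (hx : 0 ≤ x) (h : x ≤ X) : JP_R n x ≤ JP_R n X :=
  hasSum_le (fun j => by gcongr) (JP_hasSum n x) (JP_hasSum n X)

theorem JP_R_tendsto (x : ℝ) : Tendsto (fun n => JP_R n x) atTop (𝓝 0) := by
  have h : HasSum (fun j : ℕ => x ^ j / (j.factorial : ℝ)) (Real.exp x) := by
    simpa [JP_R] using JP_hasSum 0 x
  have h2 := h.tendsto_sum_nat
  have h3 := (tendsto_const_nhds (x := Real.exp x)).sub h2
  simpa [JP_R] using h3

theorem JP_exp (n : ℕ) {x : ℝ} (hx : 0 ≤ x) :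
    |Real.exp (-x) - ∑ j ∈ range n, (-1 : ℝ) ^ j * (x ^ j / (j.factorial : ℝ))| ≤ JP_R n x := by
  have h := Complex.norm_exp_sub_sum_le_exp_norm_sub_sum ((-x : ℝ) : ℂ) n
  have h1 : (Complex.exp ((-x : ℝ) : ℂ) - ∑ m ∈ range n, ((-x : ℝ) : ℂ) ^ m / (m.factorial : ℂ)) =
      ((Real.exp (-x) - ∑ j ∈ range n, (-1 : ℝ) ^ j * (x ^ j / (j.factorial : ℝ)) : ℝ) : ℂ) := by
    push_cast
    congr 1
    apply Finset.sum_congr rfl
    intro j _
    rw [neg_pow]
    ring
  rw [h1, Complex.norm_real, Complex.norm_real, Real.norm_eq_abs, Real.norm_eq_abs, abs_neg,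
    abs_of_nonneg hx] at h
  exact h

/-- the abstract form of the Bonferroni estimate -/
theorem JP_bonf {ι : Type*} (D : Finset ι) (N : ι → ℕ) (w x e : ℝ) (M : ℕ) (hw : 0 ≤ w)
    (hx : 0 ≤ x)
    (h : ∀ j ≤ M, |(∑ Y ∈ D, ((N Y).choose j : ℝ)) / w - x ^ j / (j.factorial : ℝ)| ≤ e) :
    |((D.filter (fun Y => N Y = 0)).card : ℝ) / w - Real.exp (-x)| ≤
      (x ^ M / (M.factorial : ℝ) + e) + (M + 1) * e + JP_R (M + 1) x := by
  have h1 : ((D.filter (fun Y => N Y = 0)).card : ℝ) = ∑ Y ∈ D, if N Y = 0 then (1 : ℝ) else 0 := by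
    rw [Finset.card_filter]
    push_cast
    rfl
  have h2 : |((D.filter (fun Y => N Y = 0)).card : ℝ) / w -
      ∑ j ∈ range (M + 1), (-1 : ℝ) ^ j * ((∑ Y ∈ D, ((N Y).choose j : ℝ)) / w)| ≤
      x ^ M / (M.factorial : ℝ) + e := by
    have h3 : ∑ j ∈ range (M + 1), (-1 : ℝ) ^ j * ((∑ Y ∈ D, ((N Y).choose j : ℝ)) / w) =
        (∑ Y ∈ D, ∑ j ∈ range (M + 1), (-1 : ℝ) ^ j * ((N Y).choose j : ℝ)) / w := by
      rw [Finset.sum_comm, Finset.sum_div]
      apply Finset.sum_congr rfl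
      intro j _
      rw [← Finset.mul_sum, mul_div_assoc]
    rw [h3, h1, ← sub_div, ← Finset.sum_sub_distrib, abs_div, abs_of_nonneg hw]
    have h4 : |∑ Y ∈ D, ((if N Y = 0 then (1 : ℝ) else 0) -
        ∑ j ∈ range (M + 1), (-1 : ℝ) ^ j * ((N Y).choose j : ℝ))| ≤
        ∑ Y ∈ D, ((N Y).choose M : ℝ) :=
      (Finset.abs_sum_le_sum_abs _ _).trans (Finset.sum_le_sum fun Y _ => JP_point (N Y) M)
    have h5 := h M le_rfl
    have h6 := (abs_le.1 h5).2
    have h7 := div_le_div_of_nonneg_right h4 hw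
    linarith
  have h3 : |∑ j ∈ range (M + 1), (-1 : ℝ) ^ j * ((∑ Y ∈ D, ((N Y).choose j : ℝ)) / w) -
      ∑ j ∈ range (M + 1), (-1 : ℝ) ^ j * (x ^ j / (j.factorial : ℝ))| ≤ (M + 1) * e := by
    rw [← Finset.sum_sub_distrib]
    refine (Finset.abs_sum_le_sum_abs _ _).trans ?_
    refine (Finset.sum_le_card_nsmul _ _ e ?_).trans ?_
    · intro j hj
      rw [← mul_sub, abs_mul, abs_pow, abs_neg, abs_one, one_pow, one_mul]
      exact h j (by simpa [Nat.lt_succ_iff] using hj)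
    · rw [Finset.card_range, nsmul_eq_mul]
      push_cast
      exact le_rfl
  have h4 := JP_exp (M + 1) hx
  rw [abs_sub_comm] at h4
  have h5 := abs_add_le (((D.filter (fun Y => N Y = 0)).card : ℝ) / w -
      ∑ j ∈ range (M + 1), (-1 : ℝ) ^ j * ((∑ Y ∈ D, ((N Y).choose j : ℝ)) / w))
      (∑ j ∈ range (M + 1), (-1 : ℝ) ^ j * ((∑ Y ∈ D, ((N Y).choose j : ℝ)) / w) -
      ∑ j ∈ range (M + 1), (-1 : ℝ) ^ j * (x ^ j / (j.factorial : ℝ)))
  have h6 := abs_add_le ((((D.filter (fun Y => N Y = 0)).card : ℝ) / w -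
      ∑ j ∈ range (M + 1), (-1 : ℝ) ^ j * ((∑ Y ∈ D, ((N Y).choose j : ℝ)) / w)) +
      (∑ j ∈ range (M + 1), (-1 : ℝ) ^ j * ((∑ Y ∈ D, ((N Y).choose j : ℝ)) / w) -
      ∑ j ∈ range (M + 1), (-1 : ℝ) ^ j * (x ^ j / (j.factorial : ℝ))))
      (∑ j ∈ range (M + 1), (-1 : ℝ) ^ j * (x ^ j / (j.factorial : ℝ)) - Real.exp (-x))
  have h7 : ((D.filter (fun Y => N Y = 0)).card : ℝ) / w - Real.exp (-x) =
      (((D.filter (fun Y => N Y = 0)).card : ℝ) / w -
      ∑ j ∈ range (M + 1), (-1 : ℝ) ^ j * ((∑ Y ∈ D, ((N Y).choose j : ℝ)) / w)) +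
      (∑ j ∈ range (M + 1), (-1 : ℝ) ^ j * ((∑ Y ∈ D, ((N Y).choose j : ℝ)) / w) -
      ∑ j ∈ range (M + 1), (-1 : ℝ) ^ j * (x ^ j / (j.factorial : ℝ))) +
      (∑ j ∈ range (M + 1), (-1 : ℝ) ^ j * (x ^ j / (j.factorial : ℝ)) - Real.exp (-x)) := by ring
  rw [h7]
  linarith

/-- `x exp (-x)` decreases on `x ≥ 1` -/
theorem JP_qq_le {η : ℝ} {t r : ℕ} (h1 : 1 ≤ t * η) (htr : t < r) : qq η r ≤ qq η t := by
  have ht : (0 : ℝ) ≤ t := Nat.cast_nonneg _
  have hη : 0 < η := by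
    by_contra h
    push Not at h
    nlinarith
  have htr' : (t : ℝ) + 1 ≤ r := by exact_mod_cast htr
  unfold qq
  have h2 : Real.exp (-(t * η)) = Real.exp (-(r * η)) * Real.exp ((r - t) * η) := by
    rw [← Real.exp_add]
    congr 1
    ring
  have h3 : (r - t) * η + 1 ≤ Real.exp ((r - t) * η) := Real.add_one_le_exp _
  have h4 : (r : ℝ) ≤ t * Real.exp ((r - t) * η) := by
    have h5 : (t : ℝ) * ((r - t) * η + 1) ≤ t * Real.exp ((r - t) * η) :=
      mul_le_mul_of_nonneg_left h3 ht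
    have h6 : (r : ℝ) - t ≤ (r - t) * (t * η) := by nlinarith
    nlinarith
  rw [h2]
  have h7 := Real.exp_pos (-((r : ℝ) * η))
  nlinarith

theorem JP_qq_nonneg (η : ℝ) (t : ℕ) : 0 ≤ qq η t := by
  unfold qq
  positivity

theorem JP_binom (x y : ℝ) (j : ℕ) : (x + y) ^ j / (j.factorial : ℝ) =
    ∑ p ∈ antidiagonal j, x ^ p.1 / (p.1.factorial : ℝ) * (y ^ p.2 / (p.2.factorial : ℝ)) := by
  rw [(Commute.all x y).add_pow', Finset.sum_div]
  apply Finset.sum_congr rfl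
  intro p hp
  rw [Finset.HasAntidiagonal.mem_antidiagonal] at hp
  have h1 : (((j.choose p.1 : ℕ) : ℝ) * (p.1.factorial : ℝ)) * (p.2.factorial : ℝ) =
      (j.factorial : ℝ) := by
    have h := Nat.choose_mul_factorial_mul_factorial (show p.1 ≤ j by omega)
    rw [show j - p.1 = p.2 by omega] at h
    exact_mod_cast h
  have h2 : (p.1.factorial : ℝ) ≠ 0 := by exact_mod_cast Nat.factorial_ne_zero _
  have h3 : (p.2.factorial : ℝ) ≠ 0 := by exact_mod_cast Nat.factorial_ne_zero _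
  have h4 : (j.factorial : ℝ) ≠ 0 := by exact_mod_cast Nat.factorial_ne_zero _
  rw [nsmul_eq_mul, div_mul_div_comm, div_eq_div_iff h4 (mul_ne_zero h2 h3), ← h1]
  ring

theorem row_JP (_h0 : DDc_stmt) (hM : JM_stmt) : JP_stmt := by
  intro η C N0 hP Q δ ε hδ hε
  set X : ℝ := 2 * |Q| with hX
  have hX0 : 0 ≤ X := by positivity
  have hlim1 : Tendsto (fun n : ℕ => X ^ n / (n.factorial : ℝ)) atTop (𝓝 0) :=
    FloorSemiring.tendsto_pow_div_factorial_atTop X
  have hlim2 : Tendsto (fun n : ℕ => JP_R (n + 1) X) atTop (𝓝 0) :=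
    (JP_R_tendsto X).comp (tendsto_add_atTop_nat 1)
  obtain ⟨M, hM1, hM2⟩ : ∃ M : ℕ, X ^ M / (M.factorial : ℝ) < ε / 8 ∧ JP_R (M + 1) X < ε / 8 :=
    ((hlim1.eventually (gt_mem_nhds (by positivity))).and
      (hlim2.eventually (gt_mem_nhds (by positivity)))).exists
  set e : ℝ := ε / (8 * (M + 2) ^ 2) with he
  have he0 : 0 < e := by positivity
  have hM0 : (0 : ℝ) ≤ M := Nat.cast_nonneg _
  have hee : (M + 2) * ((M + 2) * e) = ε / 8 := by
    rw [he]
    field_simp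
  obtain ⟨N, hN⟩ := hM η C N0 hP M Q δ e hδ he0
  refine ⟨N, fun n hnN t r h1 htr hQ hr => ?_⟩
  have hj := hN n hnN t r h1 htr hQ hr
  have hqt := JP_qq_nonneg (η n) t
  have hqr := JP_qq_nonneg (η n) r
  have hqrt := JP_qq_le h1 htr
  have hQ' : qq (η n) t ≤ |Q| := hQ.trans (le_abs_self Q)
  have hbound : ∀ (x e' : ℝ), 0 ≤ x → x ≤ X → e' ≤ (M + 1) * e →
      (x ^ M / (M.factorial : ℝ) + e') + (M + 1) * e' + JP_R (M + 1) x ≤ ε / 2 := by
    intro x e' hx0 hxX he'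
    have h2 : x ^ M / (M.factorial : ℝ) ≤ X ^ M / (M.factorial : ℝ) := by gcongr
    have h3 := JP_R_mono (M + 1) hx0 hxX
    have h4 : e' + (M + 1) * e' ≤ ε / 8 := by
      have h5 : (M + 2) * e' ≤ (M + 2) * ((M + 2) * e) := by
        apply mul_le_mul_of_nonneg_left _ (by positivity)
        nlinarith
      linarith
    linarith
  -- the two lengths separately and together
  have hA : |(((DD n).filter (fun Y => hn t Y = 0)).card : ℝ) / pp n -
      Real.exp (-qq (η n) t)| ≤ ε / 2 := by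
    refine (JP_bonf (DD n) (fun Y => hn t Y) (pp n) (qq (η n) t) e M (Nat.cast_nonneg _) hqt
      (fun j hjM => ?_)).trans (hbound _ _ hqt (by linarith [abs_nonneg Q]) (by nlinarith))
    have h2 := hj j 0 (by omega)
    simpa using h2
  have hB : |(((DD n).filter (fun Y => hn t Y + hn r Y = 0)).card : ℝ) / pp n -
      Real.exp (-(qq (η n) t + qq (η n) r))| ≤ ε / 2 := by
    refine (JP_bonf (DD n) (fun Y => hn t Y + hn r Y) (pp n) (qq (η n) t + qq (η n) r) ((M + 1) * e)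
      M (Nat.cast_nonneg _) (by linarith) (fun j hjM => ?_)).trans
      (hbound _ _ (by linarith) (by linarith) le_rfl)
    have h2 : (∑ Y ∈ DD n, (((hn t Y + hn r Y).choose j : ℕ) : ℝ)) / pp n =
        ∑ p ∈ antidiagonal j, (∑ Y ∈ DD n, ((hn t Y).choose p.1 : ℝ) * (hn r Y).choose p.2) /
          pp n := by
      rw [← Finset.sum_div, Finset.sum_comm]
      congr 1
      apply Finset.sum_congr rfl
      intro Y _
      rw [Nat.add_choose_eq]
      push_cast
      rfl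
    rw [h2, JP_binom, ← Finset.sum_sub_distrib]
    refine (Finset.abs_sum_le_sum_abs _ _).trans ?_
    refine (Finset.sum_le_card_nsmul _ _ e ?_).trans ?_
    · intro p hp
      rw [Finset.HasAntidiagonal.mem_antidiagonal] at hp
      exact hj p.1 p.2 (by omega)
    · rw [Finset.Nat.card_antidiagonal, nsmul_eq_mul]
      have h3 : (j : ℝ) ≤ M := by exact_mod_cast hjM
      push_cast
      nlinarith
  have hC : (((DD n).filter (fun Y => hn t Y = 0)).card : ℝ) =
      ((LB_Y n r t).card : ℝ) + (((DD n).filter (fun Y => hn t Y + hn r Y = 0)).card : ℝ) := by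
    unfold LB_Y
    rw [Finset.card_filter, Finset.card_filter, Finset.card_filter]
    push_cast
    rw [← Finset.sum_add_distrib]
    apply Finset.sum_congr rfl
    intro Y _
    by_cases ht0 : hn t Y = 0
    · by_cases hr0 : hn r Y = 0
      · simp [ht0, hr0]
      · have : 1 ≤ hn r Y := Nat.one_le_iff_ne_zero.2 hr0
        simp [ht0, hr0, this]
    · simp [ht0]
  have hD : ((LB_Y n r t).card : ℝ) / pp n =
      (((DD n).filter (fun Y => hn t Y = 0)).card : ℝ) / pp n -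
      (((DD n).filter (fun Y => hn t Y + hn r Y = 0)).card : ℝ) / pp n := by
    rw [hC]
    ring
  have hE : Real.exp (-qq (η n) t) * (1 - Real.exp (-qq (η n) r)) =
      Real.exp (-qq (η n) t) - Real.exp (-(qq (η n) t + qq (η n) r)) := by
    rw [neg_add, Real.exp_add]
    ring
  rw [hD, hE]
  have h2 := abs_le.1 hA
  have h3 := abs_le.1 hB
  rw [abs_le]
  constructor <;> linarith [h2.1, h2.2, h3.1, h3.2]

end ZT68
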