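import Pool.Agent.Lib.ZT68.Sec
import Pool.Agent.Lib.ZT68.FQ

/-!
MP_1882ea_al, row JS (helper2): two lengths marked at the same time.
-/

set_option autoImplicit false

namespace ZT68

open Finset

/-- move `A` down by `t` and `B` down by `r` -/
def JS_dn (t r : ℕ) (S : Set ℤ) (A B : Finset ℤ) : Set ℤ :=
  {z | (z ∈ S ∧ z ∉ A ∧ z ∉ B) ∨ z + (t : ℤ) ∈ A ∨ z + (r : ℤ) ∈ B}

/-- move `A` up by `t` and `B` up by `r` -/
def JS_up (t r : ℕ) (S : Set ℤ) (A B : Finset ℤ) : Set ℤ :=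
  {z | (z ∈ S ∧ z ∉ A ∧ z ∉ B) ∨ z - (t : ℤ) ∈ A ∨ z - (r : ℤ) ∈ B}

theorem JS_disj_image {A B : Finset ℤ} {u v : ℤ}
    (h : Disjoint (A.image (fun x => x + u)) (B.image (fun x => x + v))) (z : ℤ)
    (h1 : z - u ∈ A) (h2 : z - v ∈ B) : False := by
  rw [Finset.disjoint_left] at h
  exact h (Finset.mem_image.2 ⟨_, h1, by ring⟩) (Finset.mem_image.2 ⟨_, h2, by ring⟩)

theorem JS_disj_image' {A B : Finset ℤ} {u v : ℤ}
    (h : ∀ z : ℤ, z - u ∈ A → z - v ∈ B → False) :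
    Disjoint (A.image (fun x => x + u)) (B.image (fun x => x + v)) := by
  rw [Finset.disjoint_left]
  intro z h1 h2
  obtain ⟨x, hx, rfl⟩ := Finset.mem_image.1 h1
  obtain ⟨y, hy, e⟩ := Finset.mem_image.1 h2
  exact h (x + u) (by simpa using hx) (by rw [← e]; simpa using hy)

theorem JS_exists_dn (h2 : BD2_stmt) {t r : ℕ} (ht : 1 ≤ t) (hr : 1 ≤ r) (A B : Finset ℤ)
    (Y : YoungDiagram) (hA : ∀ x ∈ A, x ∈ Hk (SS Y) t) (hB : ∀ x ∈ B, x ∈ Hk (SS Y) r)
    (hAB : Disjoint A B)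
    (hAB' : Disjoint (A.image (fun x => x + (-(t : ℤ)))) (B.image (fun x => x + (-(r : ℤ))))) :
    ∃ Z : YoungDiagram, SS Z = JS_dn t r (SS Y) A B ∧ Z.card + A.card * t + B.card * r = Y.card := by
  obtain ⟨Y1, e1, c1⟩ := FQ_exists_dn h2 ht A Y hA
  have hB1 : ∀ x ∈ B, x ∈ Hk (SS Y1) r := by
    intro x hx
    rw [e1]
    refine ⟨Or.inl ⟨(hB x hx).1, fun h => Finset.disjoint_left.1 hAB h hx⟩, ?_⟩
    rintro (⟨h, -⟩ | h)
    · exact (hB x hx).2 h
    · refine JS_disj_image hAB' (x - r) ?_ ?_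
      · simpa using h
      · simpa using hx
  obtain ⟨Z, e2, c2⟩ := FQ_exists_dn h2 hr B Y1 hB1
  refine ⟨Z, ?_, ?_⟩
  · rw [e2, e1]
    ext z
    simp only [FQ_dn, JS_dn, Set.mem_union, Set.mem_sdiff, Set.mem_ofPred_eq, Finset.mem_coe]
    constructor
    · rintro (⟨⟨h, h'⟩ | h, h3⟩ | h)
      · exact Or.inl ⟨h, h', h3⟩
      · exact Or.inr (Or.inl h)
      · exact Or.inr (Or.inr h)
    · rintro (⟨h, h', h3⟩ | h | h)
      · exact Or.inl ⟨Or.inl ⟨h, h'⟩, h3⟩
      · refine Or.inl ⟨Or.inr h, fun h3 => ?_⟩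
        have h5 := (hA _ h).2
        exact h5 (by simpa using (hB _ h3).1)
      · exact Or.inr h
  · have e3 : t * A.card = A.card * t := mul_comm _ _
    have e4 : r * B.card = B.card * r := mul_comm _ _
    omega

theorem JS_exists_up (h3 : BD3_stmt) {t r : ℕ} (ht : 1 ≤ t) (hr : 1 ≤ r) (A B : Finset ℤ)
    (Y : YoungDiagram) (hA : ∀ x ∈ A, x ∈ Up (SS Y) t) (hB : ∀ x ∈ B, x ∈ Up (SS Y) r)
    (hAB : Disjoint A B)
    (hAB' : Disjoint (A.image (fun x => x + (t : ℤ))) (B.image (fun x => x + (r : ℤ)))) :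
    ∃ Z : YoungDiagram, SS Z = JS_up t r (SS Y) A B ∧ Z.card = Y.card + A.card * t + B.card * r := by
  obtain ⟨Y1, e1, c1⟩ := FQ_exists_up h3 ht A Y hA
  have hB1 : ∀ x ∈ B, x ∈ Up (SS Y1) r := by
    intro x hx
    rw [e1]
    refine ⟨Or.inl ⟨(hB x hx).1, fun h => Finset.disjoint_left.1 hAB h hx⟩, ?_⟩
    rintro (⟨h, -⟩ | h)
    · exact (hB x hx).2 h
    · refine JS_disj_image hAB' (x + r) ?_ ?_
      · simpa using h
      · simpa using hx
  obtain ⟨Z, e2, c2⟩ := FQ_exists_up h3 hr B Y1 hB1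
  refine ⟨Z, ?_, ?_⟩
  · rw [e2, e1]
    ext z
    simp only [FQ_up, JS_up, Set.mem_union, Set.mem_sdiff, Set.mem_ofPred_eq, Finset.mem_coe]
    constructor
    · rintro (⟨⟨h, h'⟩ | h, h3⟩ | h)
      · exact Or.inl ⟨h, h', h3⟩
      · exact Or.inr (Or.inl h)
      · exact Or.inr (Or.inr h)
    · rintro (⟨h, h', h3⟩ | h | h)
      · exact Or.inl ⟨Or.inl ⟨h, h'⟩, h3⟩
      · refine Or.inl ⟨Or.inr h, fun h3 => ?_⟩
        have h5 := (hA _ h).2
        exact h5 (by simpa using (hB _ h3).1)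
      · exact Or.inr h
  · have e3 : t * A.card = A.card * t := mul_comm _ _
    have e4 : r * B.card = B.card * r := mul_comm _ _
    omega

theorem JS_sys_finite {H K : Set ℤ} (hH : H.Finite) (hK : K.Finite) (u v : ℤ) (a b : ℕ) :
    (Sys H K u v a b).Finite := by
  classical
  refine ((hH.toFinset.powerset ×ˢ hK.toFinset.powerset).finite_toSet).subset ?_
  rintro ⟨A, B⟩ ⟨h1, h2, -⟩
  simp only [Finset.coe_product, Finset.coe_powerset, Set.mem_prod, Set.mem_preimage,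
    Set.mem_powerset_iff]
  exact ⟨fun x hx => by simpa using h1 hx, fun x hx => by simpa using h2 hx⟩

theorem row_JS (h1 : BD1_stmt) (h2 : BD2_stmt) (h3 : BD3_stmt) (h4 : BD4_stmt) : JS_stmt := by
  classical
  intro m t r a b ht hr htr
  have fH : ∀ (Y : YoungDiagram) (s : ℕ), 1 ≤ s → (Hk (SS Y) s).Finite := fun Y s hs => (h1.hk Y s hs).1
  have fU : ∀ (Y : YoungDiagram) (s : ℕ), 1 ≤ s → (Up (SS Y) s).Finite := fun Y s hs => (h4 Y s hs).1
  have f1 : ∀ Y : YoungDiagram,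
      (Sys (Hk (SS Y) t) (Hk (SS Y) r) (-(t : ℤ)) (-(r : ℤ)) a b).Finite :=
    fun Y => JS_sys_finite (fH Y t ht) (fH Y r hr) _ _ _ _
  have f2 : ∀ Y : YoungDiagram, (Sys (Up (SS Y) t) (Up (SS Y) r) (t : ℤ) (r : ℤ) a b).Finite :=
    fun Y => JS_sys_finite (fU Y t ht) (fU Y r hr) _ _ _ _
  have e1 : ∑ Y ∈ DD (m + a * t + b * r),
      (Sys (Hk (SS Y) t) (Hk (SS Y) r) (-(t : ℤ)) (-(r : ℤ)) a b).ncard =
      ((DD (m + a * t + b * r)).sigma (fun Y => (f1 Y).toFinset)).card := by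
    rw [Finset.card_sigma]
    exact Finset.sum_congr rfl fun Y _ => Set.ncard_eq_toFinset_card _ (f1 Y)
  have e2 : ∑ Y ∈ DD m, (Sys (Up (SS Y) t) (Up (SS Y) r) (t : ℤ) (r : ℤ) a b).ncard =
      ((DD m).sigma (fun Y => (f2 Y).toFinset)).card := by
    rw [Finset.card_sigma]
    exact Finset.sum_congr rfl fun Y _ => Set.ncard_eq_toFinset_card _ (f2 Y)
  rw [e1, e2]
  let dn : YoungDiagram → Finset ℤ → Finset ℤ → YoungDiagram := fun Y A B =>
    if h : ∃ Z : YoungDiagram, SS Z = JS_dn t r (SS Y) A B then h.choose else Y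
  let up : YoungDiagram → Finset ℤ → Finset ℤ → YoungDiagram := fun Y A B =>
    if h : ∃ Z : YoungDiagram, SS Z = JS_up t r (SS Y) A B then h.choose else Y
  have hdn : ∀ Y A B, (A, B) ∈ Sys (Hk (SS Y) t) (Hk (SS Y) r) (-(t : ℤ)) (-(r : ℤ)) a b →
      SS (dn Y A B) = JS_dn t r (SS Y) A B ∧ (dn Y A B).card + a * t + b * r = Y.card := by
    rintro Y A B ⟨hA, hB, ca, cb, hd, hd'⟩
    obtain ⟨Z, e, c⟩ := JS_exists_dn h2 ht hr A B Y (fun x hx => hA hx) (fun x hx => hB hx) hd hd'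
    have hex : ∃ Z : YoungDiagram, SS Z = JS_dn t r (SS Y) A B := ⟨Z, e⟩
    have e' : dn Y A B = Z := by
      have : dn Y A B = hex.choose := dif_pos hex
      rw [this]
      exact h1.inj (hex.choose_spec.trans e.symm)
    rw [e']
    simp only at ca cb
    rw [ca, cb] at c
    exact ⟨e, c⟩
  have hup : ∀ Y A B, (A, B) ∈ Sys (Up (SS Y) t) (Up (SS Y) r) (t : ℤ) (r : ℤ) a b →
      SS (up Y A B) = JS_up t r (SS Y) A B ∧ (up Y A B).card = Y.card + a * t + b * r := by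
    rintro Y A B ⟨hA, hB, ca, cb, hd, hd'⟩
    obtain ⟨Z, e, c⟩ := JS_exists_up h3 ht hr A B Y (fun x hx => hA hx) (fun x hx => hB hx) hd hd'
    have hex : ∃ Z : YoungDiagram, SS Z = JS_up t r (SS Y) A B := ⟨Z, e⟩
    have e' : up Y A B = Z := by
      have : up Y A B = hex.choose := dif_pos hex
      rw [this]
      exact h1.inj (hex.choose_spec.trans e.symm)
    rw [e']
    simp only at ca cb
    rw [ca, cb] at c
    exact ⟨e, c⟩
  let sd : ℕ → Finset ℤ → Finset ℤ := fun s A => A.image (fun z => z + (-(s : ℤ)))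
  let su : ℕ → Finset ℤ → Finset ℤ := fun s A => A.image (fun z => z + (s : ℤ))
  have msd : ∀ s A z, z ∈ sd s A ↔ z + (s : ℤ) ∈ A := by
    intro s A z
    simp only [sd, Finset.mem_image]
    constructor
    · rintro ⟨x, hx, rfl⟩
      simpa using hx
    · intro h
      exact ⟨_, h, by ring⟩
  have msu : ∀ s A z, z ∈ su s A ↔ z - (s : ℤ) ∈ A := by
    intro s A z
    simp only [su, Finset.mem_image]
    constructor
    · rintro ⟨x, hx, rfl⟩
      simpa using hx
    · intro h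
      exact ⟨_, h, by ring⟩
  have csd : ∀ s A, (sd s A).card = A.card := fun s A =>
    Finset.card_image_of_injective _ (fun x y h => by simpa using h)
  have csu : ∀ s A, (su s A).card = A.card := fun s A =>
    Finset.card_image_of_injective _ (fun x y h => by simpa using h)
  have sdsu : ∀ s A, sd s (su s A) = A := fun s A => by ext z; simp [msd, msu]
  have susd : ∀ s A, su s (sd s A) = A := fun s A => by ext z; simp [msd, msu]
  have key1 : ∀ Y A B, (A, B) ∈ Sys (Hk (SS Y) t) (Hk (SS Y) r) (-(t : ℤ)) (-(r : ℤ)) a b →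
      (sd t A, sd r B) ∈ Sys (Up (SS (dn Y A B)) t) (Up (SS (dn Y A B)) r) (t : ℤ) (r : ℤ) a b := by
    intro Y A B h
    have hs := (hdn Y A B h).1
    obtain ⟨hA, hB, ca, cb, hd, hd'⟩ := h
    refine ⟨?_, ?_, by simp only [csd]; exact ca, by simp only [csd]; exact cb, hd', ?_⟩
    · intro z hz
      have hz' : z + (t : ℤ) ∈ A := (msd t A z).1 hz
      rw [hs]
      refine ⟨Or.inr (Or.inl hz'), ?_⟩
      rintro (⟨-, h, -⟩ | h | h)
      · exact h hz'
      · exact (hA h).2 (by simpa using (hA hz').1)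
      · exact (hB h).2 (by simpa using (hA hz').1)
    · intro z hz
      have hz' : z + (r : ℤ) ∈ B := (msd r B z).1 hz
      rw [hs]
      refine ⟨Or.inr (Or.inr hz'), ?_⟩
      rintro (⟨-, -, h⟩ | h | h)
      · exact h hz'
      · exact (hA h).2 (by simpa using (hB hz').1)
      · exact (hB h).2 (by simpa using (hB hz').1)
    · have e3 := susd t A
      have e4 := susd r B
      simp only [su] at e3 e4
      simp only
      rw [e3, e4]
      exact hd
  have key2 : ∀ Y A B, (A, B) ∈ Sys (Up (SS Y) t) (Up (SS Y) r) (t : ℤ) (r : ℤ) a b →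
      (su t A, su r B) ∈ Sys (Hk (SS (up Y A B)) t) (Hk (SS (up Y A B)) r) (-(t : ℤ)) (-(r : ℤ))
        a b := by
    intro Y A B h
    have hs := (hup Y A B h).1
    obtain ⟨hA, hB, ca, cb, hd, hd'⟩ := h
    refine ⟨?_, ?_, by simp only [csu]; exact ca, by simp only [csu]; exact cb, hd', ?_⟩
    · intro z hz
      have hz' : z - (t : ℤ) ∈ A := (msu t A z).1 hz
      rw [hs]
      refine ⟨Or.inr (Or.inl hz'), ?_⟩
      rintro (⟨-, h, -⟩ | h | h)
      · exact h hz'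
      · exact (hA h).2 (by simpa using (hA hz').1)
      · exact (hB h).2 (by simpa using (hA hz').1)
    · intro z hz
      have hz' : z - (r : ℤ) ∈ B := (msu r B z).1 hz
      rw [hs]
      refine ⟨Or.inr (Or.inr hz'), ?_⟩
      rintro (⟨-, -, h⟩ | h | h)
      · exact h hz'
      · exact (hA h).2 (by simpa using (hB hz').1)
      · exact (hB h).2 (by simpa using (hB hz').1)
    · have e3 := sdsu t A
      have e4 := sdsu r B
      simp only [sd] at e3 e4
      simp only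
      rw [e3, e4]
      exact hd
  have inv1 : ∀ Y A B, (A, B) ∈ Sys (Hk (SS Y) t) (Hk (SS Y) r) (-(t : ℤ)) (-(r : ℤ)) a b →
      up (dn Y A B) (sd t A) (sd r B) = Y := by
    intro Y A B h
    apply h1.inj
    rw [(hup _ _ _ (key1 Y A B h)).1, (hdn Y A B h).1]
    obtain ⟨hA, hB, ca, cb, hd, hd'⟩ := h
    ext z
    simp only [JS_up, JS_dn, Set.mem_ofPred_eq, msd]
    constructor
    · rintro (⟨⟨h, -⟩ | h | h, h', h''⟩ | h | h)
      · exact h
      · exact absurd h h'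
      · exact absurd h h''
      · simpa using (hA h).1
      · simpa using (hB h).1
    · intro h
      by_cases hz : z ∈ A
      · exact Or.inr (Or.inl (by simpa using hz))
      by_cases hz' : z ∈ B
      · exact Or.inr (Or.inr (by simpa using hz'))
      exact Or.inl ⟨Or.inl ⟨h, hz, hz'⟩, fun h' => (hA h').2 (by simpa using h),
        fun h' => (hB h').2 (by simpa using h)⟩
  have inv2 : ∀ Y A B, (A, B) ∈ Sys (Up (SS Y) t) (Up (SS Y) r) (t : ℤ) (r : ℤ) a b →
      dn (up Y A B) (su t A) (su r B) = Y := by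
    intro Y A B h
    apply h1.inj
    rw [(hdn _ _ _ (key2 Y A B h)).1, (hup Y A B h).1]
    obtain ⟨hA, hB, ca, cb, hd, hd'⟩ := h
    ext z
    simp only [JS_up, JS_dn, Set.mem_ofPred_eq, msu]
    constructor
    · rintro (⟨⟨h, -⟩ | h | h, h', h''⟩ | h | h)
      · exact h
      · exact absurd h h'
      · exact absurd h h''
      · simpa using (hA h).1
      · simpa using (hB h).1
    · intro h
      by_cases hz : z ∈ A
      · exact Or.inr (Or.inl (by simpa using hz))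
      by_cases hz' : z ∈ B
      · exact Or.inr (Or.inr (by simpa using hz'))
      exact Or.inl ⟨Or.inl ⟨h, hz, hz'⟩, fun h' => (hA h').2 (by simpa using h),
        fun h' => (hB h').2 (by simpa using h)⟩
  refine Finset.card_nbij' (fun P => ⟨dn P.1 P.2.1 P.2.2, (sd t P.2.1, sd r P.2.2)⟩)
    (fun P => ⟨up P.1 P.2.1 P.2.2, (su t P.2.1, su r P.2.2)⟩) ?_ ?_ ?_ ?_
  · rintro ⟨Y, A, B⟩ h
    simp only [Finset.coe_sigma, Set.mem_sigma_iff, Finset.mem_coe, Set.Finite.mem_toFinset,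
      mem_DD] at h ⊢
    obtain ⟨hY, hP⟩ := h
    refine ⟨?_, key1 Y A B hP⟩
    have := (hdn Y A B hP).2
    rw [hY] at this
    omega
  · rintro ⟨Y, A, B⟩ h
    simp only [Finset.coe_sigma, Set.mem_sigma_iff, Finset.mem_coe, Set.Finite.mem_toFinset,
      mem_DD] at h ⊢
    obtain ⟨hY, hP⟩ := h
    refine ⟨?_, key2 Y A B hP⟩
    have := (hup Y A B hP).2
    rw [hY] at this
    exact this
  · rintro ⟨Y, A, B⟩ h
    simp only [Finset.coe_sigma, Set.mem_sigma_iff, Finset.mem_coe, Set.Finite.mem_toFinset,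
      mem_DD] at h
    simp only [inv1 Y A B h.2, susd]
  · rintro ⟨Y, A, B⟩ h
    simp only [Finset.coe_sigma, Set.mem_sigma_iff, Finset.mem_coe, Set.Finite.mem_toFinset,
      mem_DD] at h
    simp only [inv2 Y A B h.2, sdsu]

end ZT68
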