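/-
MP_1882ea_al, helper83.  Row JT: the weighted bad events for which at least three parts are
involved.
-/
import Mathlib
import Pool.Agent.Lib.ZT68.Sec
import Pool.Agent.Lib.ZT68.B2
import Pool.Agent.Lib.ZT68.MU

namespace ZT68

open Finset Filter

theorem JT_WW_le {n : ℕ} (r : ℕ) (μ : n.Partition) : WW r μ ≤ n := by
  unfold WW
  refine (Multiset.card_le_card (Multiset.filter_le _ _)).trans ?_
  have h := μ.parts_sum
  calc Multiset.card μ.parts = (μ.parts.map (fun _ => 1)).sum := by simp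
    _ ≤ (μ.parts.map (fun s => s)).sum := by
        apply Multiset.sum_map_le_sum_map
        intro s hs
        exact μ.parts_pos hs
    _ = n := by rw [Multiset.map_id']; exact h

theorem JT_nonneg (n k r : ℕ) : 0 ≤ TT3 n k r := by
  unfold TT3
  refine div_nonneg (Finset.sum_nonneg fun Y _ => Finset.sum_nonneg fun μ _ => ?_) (sq_nonneg _)
  split_ifs
  · exact Nat.cast_nonneg _
  · exact le_rfl

/-- crude comparison with `TT` -/
theorem JT_le_TT (n k r : ℕ) : TT3 n k r ≤ (n : ℝ) * TT n k r := by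
  have hp := B2_pp_pos n
  unfold TT3 TT
  rw [← mul_div_assoc]
  refine div_le_div_of_nonneg_right ?_ (sq_nonneg _)
  rw [Finset.mul_sum]
  refine Finset.sum_le_sum fun Y _ => ?_
  rw [Finset.mul_sum]
  refine Finset.sum_le_sum fun μ _ => ?_
  by_cases h : r ∈ μ.parts ∧ 3 ≤ WW r μ ∧ hn r Y + 2 ≤ 2 * min (WW r μ) k
  · rw [if_pos h, if_pos ⟨h.1, by omega, h.2.2⟩, mul_one]
    exact_mod_cast JT_WW_le r μ
  · rw [if_neg h]
    split_ifs
    · positivity
    · simp

/-- (G1) for three parts; `D` is free -/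
theorem JT_G1 (n k r : ℕ) {x D : ℝ} (hx : 1 / 2 ≤ x) (hx1 : x ≤ 1) (hD : 8 ≤ D) :
    TT3 n k r ≤ aa n r x * ((8 / D) ^ 2 * bb n r D) := by
  have hp := B2_pp_pos n
  have hx0 : 0 < x := by linarith
  have hD0 : 0 < D := by linarith
  unfold TT3 aa bb
  rw [← mul_div_assoc, div_mul_div_comm, ← sq]
  refine div_le_div_of_nonneg_right ?_ (sq_nonneg _)
  rw [Finset.mul_sum, Finset.sum_mul_sum]
  refine Finset.sum_le_sum fun Y _ => Finset.sum_le_sum fun μ _ => ?_
  by_cases h : r ∈ μ.parts ∧ 3 ≤ WW r μ ∧ hn r Y + 2 ≤ 2 * min (WW r μ) k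
  · rw [if_pos h, if_pos ⟨h.1, by omega⟩]
    have hW : 3 ≤ WW r μ := h.2.1
    have h1 : hn r Y ≤ 2 * (WW r μ - 1) := by
      have := h.2.2
      have h2 : min (WW r μ) k ≤ WW r μ := min_le_left _ _
      omega
    obtain ⟨w, hw⟩ : ∃ w, WW r μ = w + 3 := ⟨WW r μ - 3, by omega⟩
    rw [hw] at h1 ⊢
    have e1 : w + 3 - 1 = w + 2 := by omega
    rw [e1] at h1 ⊢
    -- x ^ hn ≥ (1/4)^(w+2)
    have h3 : (1 / 4 : ℝ) ^ (w + 2) ≤ x ^ hn r Y := by
      calc (1 / 4 : ℝ) ^ (w + 2) = (1 / 2 : ℝ) ^ (2 * (w + 2)) := by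
            rw [pow_mul]; norm_num
        _ ≤ x ^ (2 * (w + 2)) := by gcongr
        _ ≤ x ^ hn r Y := pow_le_pow_of_le_one hx0.le hx1 h1
    -- (8/D)^2 D^(w+2) ≥ 8^(w+2)
    have h4 : (8 : ℝ) ^ (w + 2) ≤ (8 / D) ^ 2 * D ^ (w + 2) := by
      have e2 : (8 / D) ^ 2 * D ^ (w + 2) = 8 ^ 2 * D ^ w := by
        rw [pow_add, div_pow]; field_simp
      rw [e2, pow_add, mul_comm]
      gcongr
    have h5 : ((w + 3 : ℕ) : ℝ) ≤ 2 ^ (w + 2) := by
      have : w + 3 ≤ 2 ^ (w + 2) := by
        have := Nat.lt_two_pow_self (n := w + 2)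
        omega
      exact_mod_cast this
    calc ((w + 3 : ℕ) : ℝ) ≤ 2 ^ (w + 2) := h5
      _ = (1 / 4 : ℝ) ^ (w + 2) * 8 ^ (w + 2) := by rw [← mul_pow]; norm_num
      _ ≤ x ^ hn r Y * ((8 / D) ^ 2 * D ^ (w + 2)) := by gcongr
  · rw [if_neg h]
    split_ifs
    · positivity
    · simp

/-- additional `n`-level facts -/
structure JT_facts (L C1 : ℝ) : Prop where
  g5 : C1 * Real.exp (7 / 4 * L) * Real.exp (-(Real.exp (-80) / 12 * Real.exp (L / 2))) ≤
    Real.exp (-(2 * L))
  g8 : Real.exp (-(L / 16)) + C1 * L ^ 3 * Real.exp (-(L / 8)) ≤ 1 / L ^ 3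
  g9 : Real.exp (-L) ≤ 1 / L ^ 3

theorem JT_facts_ev (C1 : ℝ) (hC1 : 0 < C1) : ∀ᶠ L : ℝ in atTop, JT_facts L C1 := by
  have e5 := B2_ev (15 / 4) 1 (a := 1 / 2) (ε := Real.exp (-80) / 12 / 2) (by norm_num)
    (by positivity)
  have e5' := B2_ev (Real.log C1) 0 (a := 1 / 2) (ε := Real.exp (-80) / 12 / 2) (by norm_num)
    (by positivity)
  have e8 := B2_ev 1 3 (a := 1 / 16) (ε := 1 / 2) (by norm_num) (by norm_num)
  have e8' := B2_ev C1 6 (a := 1 / 8) (ε := 1 / 2) (by norm_num) (by norm_num)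
  have e9 := B2_ev 1 3 (a := 1) (ε := 1) (by norm_num) (by norm_num)
  filter_upwards [e5, e5', e8, e8', e9, eventually_ge_atTop 100] with
    L e5 e5' e8 e8' e9 hL
  have hLpos : 0 < L := by linarith
  have hL3 : 0 < L ^ 3 := by positivity
  refine ⟨?_, ?_, ?_⟩
  · have hx : Real.exp (L / 2) * Real.exp (-(1 / 2 * L)) = 1 := by
      rw [← Real.exp_add]; simp; ring
    have h1 : 15 / 4 * L ≤ Real.exp (-80) / 12 / 2 * Real.exp (L / 2) := by
      have := mul_le_mul_of_nonneg_right e5 (Real.exp_pos (L / 2)).le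
      calc 15 / 4 * L = 15 / 4 * L ^ 1 * (Real.exp (L / 2) * Real.exp (-(1 / 2 * L))) := by
            rw [hx]; ring
        _ = 15 / 4 * L ^ 1 * Real.exp (-(1 / 2 * L)) * Real.exp (L / 2) := by ring
        _ ≤ _ := this
    have h2 : Real.log C1 ≤ Real.exp (-80) / 12 / 2 * Real.exp (L / 2) := by
      have := mul_le_mul_of_nonneg_right e5' (Real.exp_pos (L / 2)).le
      calc Real.log C1 = Real.log C1 * L ^ 0 * (Real.exp (L / 2) * Real.exp (-(1 / 2 * L))) := by
            rw [hx]; ring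
        _ = Real.log C1 * L ^ 0 * Real.exp (-(1 / 2 * L)) * Real.exp (L / 2) := by ring
        _ ≤ _ := this
    have h3 : C1 = Real.exp (Real.log C1) := (Real.exp_log hC1).symm
    rw [h3, ← Real.exp_add, ← Real.exp_add]
    apply Real.exp_le_exp.2
    linarith
  · rw [le_div_iff₀ hL3]
    have a1 : (1 : ℝ) / 16 * L = L / 16 := by ring
    have a2 : (1 : ℝ) / 8 * L = L / 8 := by ring
    rw [a1] at e8
    rw [a2] at e8'
    nlinarith
  · rw [le_div_iff₀ hL3]
    rw [one_mul, one_mul] at e9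
    linarith

/-- regime A: `r * η ≤ 80` -/
theorem JT_A {L η C1 C2 : ℝ} (F : B2_facts L η C1 C2) (G : JT_facts L C1) {n k r : ℕ}
    (hn : (n : ℝ) = Real.exp L) (hr : 1 ≤ r)
    (hk : (k : ℝ) ≤ Real.exp (-80) / 12 * Real.exp (L / 2)) (hrη : r * η ≤ 80)
    (hbig : aa n r (1 / 2) ≤ C1 * Real.exp (3 / 4 * L) * Real.exp (-(1 / 2 * lam η r))) :
    TT3 n k r ≤ Real.exp (-(2 * L)) := by
  have hC1 := F.hC1
  have hη : 0 < η := lt_of_lt_of_le (by positivity) F.low
  have hr0 : (0 : ℝ) < r := by exact_mod_cast hr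
  set X : ℝ := Real.exp (-80) * Real.exp (L / 2) with hX
  have hXpos : 0 < X := by positivity
  -- lower bound of lam
  have hlam : X / 2 ≤ lam η r := by
    unfold lam
    have hx : 0 < (r : ℝ) * η := by positivity
    have h1 : Real.exp (r * η) - 1 ≤ r * η * Real.exp (r * η) := by
      have h2 : 1 - r * η ≤ Real.exp (-(r * η)) := by
        linarith [Real.add_one_le_exp (-(r * η))]
      have h3 := mul_le_mul_of_nonneg_right h2 (Real.exp_pos (r * η)).le
      rw [← Real.exp_add] at h3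
      simp at h3
      linarith
    have h0 : 0 < Real.exp (r * η) - 1 := by
      linarith [Real.add_one_lt_exp hx.ne']
    rw [le_div_iff₀ h0]
    have h4 : Real.exp (r * η) ≤ Real.exp 80 := Real.exp_le_exp.2 hrη
    have h5 : Real.exp (L / 2) * η ≤ 2 := by
      have := mul_le_mul_of_nonneg_left F.up (Real.exp_pos (L / 2)).le
      have h6 : Real.exp (L / 2) * (2 * Real.exp (-(L / 2))) = 2 := by
        have : Real.exp (L / 2) * Real.exp (-(L / 2)) = 1 := by
          rw [← Real.exp_add]; simp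
        linarith
      linarith
    calc X / 2 * (Real.exp (r * η) - 1) ≤ X / 2 * (r * η * Real.exp (r * η)) := by gcongr
      _ ≤ X / 2 * (r * η * Real.exp 80) := by gcongr
      _ = (Real.exp (-80) * Real.exp 80) * (Real.exp (L / 2) * η) * r / 2 := by rw [hX]; ring
      _ = (Real.exp (L / 2) * η) * r / 2 := by rw [← Real.exp_add]; simp
      _ ≤ 2 * r / 2 := by gcongr
      _ = r := by ring
  have h4k : (4 : ℝ) ^ k ≤ Real.exp (1.4 * k) := by
    have hlog : Real.log 4 ≤ 1.4 := by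
      have : (4 : ℝ) = 2 ^ 2 := by norm_num
      rw [this, Real.log_pow]
      have := Real.log_two_lt_d9
      push_cast
      linarith
    have h5 : (4 : ℝ) = Real.exp (Real.log 4) := (Real.exp_log (by norm_num)).symm
    calc (4 : ℝ) ^ k = Real.exp (k * Real.log 4) := by
          rw [Real.exp_nat_mul, ← h5]
      _ ≤ _ := by
          apply Real.exp_le_exp.2
          have : (0 : ℝ) ≤ k := Nat.cast_nonneg k
          nlinarith
  calc TT3 n k r ≤ (n : ℝ) * TT n k r := JT_le_TT n k r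
    _ ≤ Real.exp L * ((4 : ℝ) ^ k * aa n r (1 / 2)) := by
        rw [hn]
        gcongr
        exact B2_G2 n k r
    _ ≤ Real.exp L * (Real.exp (1.4 * k) *
          (C1 * Real.exp (3 / 4 * L) * Real.exp (-(1 / 2 * lam η r)))) := by
        gcongr
        exact B2_aa_nonneg n r (by norm_num)
    _ = C1 * Real.exp (7 / 4 * L) * Real.exp (1.4 * k + -(1 / 2 * lam η r)) := by
        have : (7 : ℝ) / 4 * L = L + 3 / 4 * L := by ring
        rw [this, Real.exp_add, Real.exp_add]; ring
    _ ≤ C1 * Real.exp (7 / 4 * L) * Real.exp (-(Real.exp (-80) / 12 * Real.exp (L / 2))) := by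
        gcongr
        have hk' : (k : ℝ) ≤ X / 12 := by rw [hX]; linarith
        have : Real.exp (-80) / 12 * Real.exp (L / 2) = X / 12 := by rw [hX]; ring
        rw [this]
        linarith
    _ ≤ _ := G.g5

/-- the common bound in the regimes B and C1 -/
theorem JT_TT {L η C1 C2 : ℝ} (F : B2_facts L η C1 C2) {n k r : ℕ} (hr1 : 1 ≤ r)
    (hr : (r : ℝ) ≤ Real.exp (L / 2) * L ^ 2) {x D : ℝ} (hx : 1 / 2 ≤ x)
    (hx1 : x ≤ 1) (hD8 : 8 ≤ D) (hDy : D * Real.exp (-(r * η)) ≤ 1 / 3)
    (hmu : ∀ c : ℝ, 1 ≤ c → c * Real.exp (-(r * (η - C2 * Real.exp (-(3 / 4 * L))))) ≤ 1 / 2 →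
      bb n r c ≤ Real.exp (-(r * (η - C2 * Real.exp (-(3 / 4 * L))))) *
      (Real.exp (2 * c * (Real.exp (-(r * (η - C2 * Real.exp (-(3 / 4 * L))))) /
        (1 - Real.exp (-(η - C2 * Real.exp (-(3 / 4 * L))))))) - 1)) :
    TT3 n k r ≤ aa n r x * ((8 / D) ^ 2 * (1.01 * Real.exp (-(r * η)) *
      (Real.exp (2.06 * D * (Real.exp (-(r * η)) / η)) - 1))) := by
  have hη : 0 < η := lt_of_lt_of_le (by positivity) F.low
  have hr0 : (0 : ℝ) < r := by exact_mod_cast hr1
  have hD0 : 0 < D := by linarith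
  obtain ⟨g1, g2, g3⟩ := B2_eta F
  set η' := η - C2 * Real.exp (-(3 / 4 * L)) with hη'
  -- y' ≤ 1.01 y
  have hy' : Real.exp (-(r * η')) ≤ 1.01 * Real.exp (-(r * η)) := by
    have h1 : r * (|C2| * Real.exp (-(3 / 4 * L))) ≤ 0.009 := by
      have e1 : Real.exp (-(3 / 4 * L)) = Real.exp (-(1 / 4 * L)) * Real.exp (-(L / 2)) := by
        rw [← Real.exp_add]; congr 1; ring
      have e2 : Real.exp (L / 2) * Real.exp (-(L / 2)) = 1 := by
        rw [← Real.exp_add]; simp
      calc r * (|C2| * Real.exp (-(3 / 4 * L))) ≤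
            Real.exp (L / 2) * L ^ 2 * (|C2| * Real.exp (-(3 / 4 * L))) := by gcongr
        _ = |C2| * L ^ 2 * Real.exp (-(1 / 4 * L)) * (Real.exp (L / 2) * Real.exp (-(L / 2))) := by
            rw [e1]; ring
        _ = |C2| * L ^ 2 * Real.exp (-(1 / 4 * L)) := by rw [e2, mul_one]
        _ ≤ _ := F.f3
    have h2 : -(r * η') ≤ 0.009 + -(r * η) := by
      have h3 : C2 * Real.exp (-(3 / 4 * L)) ≤ |C2| * Real.exp (-(3 / 4 * L)) := by
        gcongr; exact le_abs_self C2
      have h4 := mul_le_mul_of_nonneg_left h3 hr0.le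
      rw [hη']
      linarith
    calc Real.exp (-(r * η')) ≤ Real.exp (0.009 + -(r * η)) := Real.exp_le_exp.2 h2
      _ = Real.exp 0.009 * Real.exp (-(r * η)) := Real.exp_add _ _
      _ ≤ _ := by
          gcongr
          have h5 : Real.exp (-0.009) ≥ 1 - 0.009 := by
            linarith [Real.add_one_le_exp (-0.009 : ℝ)]
          have h6 : Real.exp 0.009 * Real.exp (-0.009) = 1 := by
            rw [← Real.exp_add]; simp
          have h7 := Real.exp_pos (0.009 : ℝ)
          nlinarith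
  have hDD : 0 < 1 - Real.exp (-η') := lt_of_lt_of_le (by positivity) g3
  have hU : Real.exp (-(r * η')) / (1 - Real.exp (-η')) ≤ 1.03 * (Real.exp (-(r * η)) / η) := by
    calc Real.exp (-(r * η')) / (1 - Real.exp (-η')) ≤
          (1.01 * Real.exp (-(r * η))) / (0.99 * η) := by gcongr
      _ = (1.01 / 0.99) * (Real.exp (-(r * η)) / η) := by
          rw [mul_div_mul_comm]
      _ ≤ _ := by
          gcongr
          norm_num
  have hcond : D * Real.exp (-(r * η')) ≤ 1 / 2 := by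
    calc D * Real.exp (-(r * η')) ≤ D * (1.01 * Real.exp (-(r * η))) := by gcongr
      _ = 1.01 * (D * Real.exp (-(r * η))) := by ring
      _ ≤ 1.01 * (1 / 3) := by gcongr
      _ ≤ _ := by norm_num
  have hb := hmu _ (by linarith) hcond
  refine (JT_G1 n k r hx hx1 hD8).trans ?_
  refine mul_le_mul_of_nonneg_left ?_ (B2_aa_nonneg n r (by linarith))
  refine mul_le_mul_of_nonneg_left ?_ (by positivity)
  refine hb.trans ?_
  have hexp : Real.exp (2 * D * (Real.exp (-(r * η')) / (1 - Real.exp (-η')))) ≤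
      Real.exp (2.06 * D * (Real.exp (-(r * η)) / η)) := by
    apply Real.exp_le_exp.2
    calc 2 * D * (Real.exp (-(r * η')) / (1 - Real.exp (-η'))) ≤
          2 * D * (1.03 * (Real.exp (-(r * η)) / η)) := by gcongr
      _ = _ := by ring
  have hpos : 0 ≤ Real.exp (2 * D * (Real.exp (-(r * η')) / (1 - Real.exp (-η')))) - 1 := by
    have : 0 ≤ 2 * D * (Real.exp (-(r * η')) / (1 - Real.exp (-η'))) := by positivity
    linarith [Real.one_le_exp this]
  calc _ ≤ 1.01 * Real.exp (-(r * η)) *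
        (Real.exp (2 * D * (Real.exp (-(r * η')) / (1 - Real.exp (-η')))) - 1) := by
        gcongr
    _ ≤ _ := by
        gcongr

/-- regime B: `r * η > 80`, `q ≥ 16 L` -/
theorem JT_B {L η C1 C2 : ℝ} (F : B2_facts L η C1 C2) {n k r : ℕ} (hr1 : 1 ≤ r)
    (hrn : (r : ℝ) ≤ Real.exp L) (h80 : 80 < r * η) (hq : 16 * L ≤ r * Real.exp (-(r * η)))
    (hbig : aa n r (1 / 2) ≤ C1 * Real.exp (3 / 4 * L) * Real.exp (-(1 / 2 * lam η r)))
    (hmu : ∀ c : ℝ, 1 ≤ c → c * Real.exp (-(r * (η - C2 * Real.exp (-(3 / 4 * L))))) ≤ 1 / 2 →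
      bb n r c ≤ Real.exp (-(r * (η - C2 * Real.exp (-(3 / 4 * L))))) *
      (Real.exp (2 * c * (Real.exp (-(r * (η - C2 * Real.exp (-(3 / 4 * L))))) /
        (1 - Real.exp (-(η - C2 * Real.exp (-(3 / 4 * L))))))) - 1)) :
    TT3 n k r ≤ Real.exp (-(2 * L)) := by
  have hC1 := F.hC1
  have hL := F.hL
  have hη : 0 < η := lt_of_lt_of_le (by positivity) F.low
  have hr0 : (0 : ℝ) < r := by exact_mod_cast hr1
  set y := Real.exp (-(r * η)) with hy
  have hypos : 0 < y := Real.exp_pos _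
  -- r η ≤ L
  have hrL : r * η ≤ L := by
    by_contra hcon
    push Not at hcon
    have h1 : y < Real.exp (-L) := Real.exp_lt_exp.2 (by linarith)
    have h2 : r * y < 1 := by
      calc r * y < Real.exp L * Real.exp (-L) := by
            exact mul_lt_mul' hrn h1 hypos.le (Real.exp_pos _)
        _ = 1 := by rw [← Real.exp_add]; simp
    linarith
  have hr : (r : ℝ) ≤ Real.exp (L / 2) * L ^ 2 := by
    have h1 : r * (Real.exp (-(L / 2)) / 2) ≤ L := by
      refine le_trans ?_ hrL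
      gcongr
      exact F.low
    have e2 : Real.exp (L / 2) * Real.exp (-(L / 2)) = 1 := by
      rw [← Real.exp_add]; simp
    have h3 : r ≤ 2 * L * Real.exp (L / 2) := by
      have h4 := mul_le_mul_of_nonneg_right h1 (Real.exp_pos (L / 2)).le
      have h5 : r * (Real.exp (-(L / 2)) / 2) * Real.exp (L / 2) = r / 2 := by
        calc _ = r / 2 * (Real.exp (L / 2) * Real.exp (-(L / 2))) := by ring
          _ = _ := by rw [e2, mul_one]
      rw [h5] at h4
      linarith
    have h6 : 2 * L ≤ L ^ 2 := by nlinarith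
    have h7 := mul_le_mul_of_nonneg_right h6 (Real.exp_pos (L / 2)).le
    linarith
  have hy1 : y ≤ 1 / 81 := by
    refine le_trans (Real.exp_le_exp.2 ?_) B2_e80
    linarith
  have hmain := JT_TT (k := k) F hr1 hr (x := 1 / 2) le_rfl (by norm_num) (D := 8) le_rfl
    (by rw [← hy]; linarith) hmu
  rw [← hy] at hmain
  have hlam : r * y ≤ lam η r := by
    unfold lam
    have hx : 0 < (r : ℝ) * η := by positivity
    have h0 : 0 < Real.exp (r * η) - 1 := by
      linarith [Real.add_one_lt_exp hx.ne']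
    rw [le_div_iff₀ h0]
    have h1 : y * Real.exp (r * η) = 1 := by
      rw [hy, ← Real.exp_add]; simp
    calc r * y * (Real.exp (r * η) - 1) = r * (y * Real.exp (r * η)) - r * y := by ring
      _ ≤ r := by rw [h1]; nlinarith
  have hu : y / η ≤ r * y / 80 := by
    rw [div_le_div_iff₀ hη (by norm_num)]
    nlinarith
  have hy2 : 1.01 * y ≤ 1 := by linarith
  calc TT3 n k r ≤ aa n r (1 / 2) * ((8 / 8) ^ 2 * (1.01 * y *
          (Real.exp (2.06 * 8 * (y / η)) - 1))) := hmain
    _ ≤ aa n r (1 / 2) * (1 * (1 * Real.exp (0.206 * (r * y)))) := by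
        refine mul_le_mul_of_nonneg_left ?_ (B2_aa_nonneg n r (by norm_num))
        have h1 : Real.exp (2.06 * 8 * (y / η)) - 1 ≤ Real.exp (0.206 * (r * y)) := by
          have : Real.exp (2.06 * 8 * (y / η)) ≤ Real.exp (0.206 * (r * y)) := by
            apply Real.exp_le_exp.2
            linarith
          linarith
        have h2 : 0 ≤ Real.exp (2.06 * 8 * (y / η)) - 1 := by
          have : 0 ≤ 2.06 * 8 * (y / η) := by positivity
          linarith [Real.one_le_exp this]
        have h3 : ((8 : ℝ) / 8) ^ 2 = 1 := by norm_num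
        rw [h3]
        gcongr
    _ ≤ (C1 * Real.exp (3 / 4 * L) * Real.exp (-(1 / 2 * lam η r))) *
          (1 * (1 * Real.exp (0.206 * (r * y)))) := by
        gcongr
    _ ≤ (Real.exp (L / 4) * Real.exp (3 / 4 * L) * Real.exp (-(1 / 2 * (r * y)))) *
          (1 * (1 * Real.exp (0.206 * (r * y)))) := by
        have := F.f6
        gcongr
    _ = Real.exp (L + -(0.294 * (r * y))) := by
        rw [one_mul, one_mul, ← Real.exp_add, ← Real.exp_add, ← Real.exp_add]
        congr 1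
        ring
    _ ≤ Real.exp (-(2 * L)) := by
        apply Real.exp_le_exp.2
        linarith

/-- second order bound of the part factor -/
theorem JT_u {y η u : ℝ} (hη : 0 < η) (hu0 : 0 < u) (hyu : y = η * u) (hy : y ≤ 1 / 81)
    (hη3 : η ≤ 1 / 3) (hu : u ≤ 64) : ∃ D : ℝ, 8 ≤ D ∧ D * y ≤ 1 / 3 ∧
    (8 / D) ^ 2 * (1.01 * y * (Real.exp (2.06 * D * u) - 1)) ≤
      (65 * Real.exp 1055) * (η * (u * (u * u))) := by
  have hy0 : 0 < y := by rw [hyu]; positivity
  have hE : (1 : ℝ) ≤ Real.exp 1055 := Real.one_le_exp (by norm_num)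
  rcases le_total u (1 / 8) with h | h
  · refine ⟨1 / u, ?_, ?_, ?_⟩
    · rw [le_div_iff₀ hu0]; linarith
    · rw [hyu]
      have : 1 / u * (η * u) = η := by field_simp
      rw [this]; exact hη3
    · have e1 : 2.06 * (1 / u) * u = 2.06 := by field_simp
      have e2 : (8 / (1 / u)) ^ 2 = 64 * (u * u) := by field_simp; ring
      rw [e1, e2, hyu]
      have h3 : Real.exp 2.06 - 1 ≤ Real.exp 1055 := by
        have : Real.exp 2.06 ≤ Real.exp 1055 := Real.exp_le_exp.2 (by norm_num)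
        linarith
      have h4 : 0 ≤ η * (u * (u * u)) := by positivity
      calc 64 * (u * u) * (1.01 * (η * u) * (Real.exp 2.06 - 1)) =
            64 * 1.01 * (Real.exp 2.06 - 1) * (η * (u * (u * u))) := by ring
        _ ≤ 64 * 1.01 * Real.exp 1055 * (η * (u * (u * u))) := by gcongr
        _ ≤ _ := by
            gcongr
            norm_num
  · refine ⟨8, le_rfl, by linarith, ?_⟩
    have e2 : ((8 : ℝ) / 8) ^ 2 = 1 := by norm_num
    rw [e2, one_mul]
    have h3 : Real.exp (2.06 * 8 * u) - 1 ≤ Real.exp 1055 := by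
      have : Real.exp (2.06 * 8 * u) ≤ Real.exp 1055 := Real.exp_le_exp.2 (by linarith)
      linarith
    have h5 : 1 ≤ 64 * (u * u) := by nlinarith
    calc 1.01 * y * (Real.exp (2.06 * 8 * u) - 1) ≤ 1.01 * y * Real.exp 1055 := by gcongr
      _ ≤ 1.01 * y * Real.exp 1055 * (64 * (u * u)) := by
          apply le_mul_of_one_le_right (by positivity) h5
      _ = 64 * 1.01 * Real.exp 1055 * (η * (u * (u * u))) := by rw [hyu]; ring
      _ ≤ _ := by
          gcongr
          norm_num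

/-- regime C1: `r * η > 80`, `q < 16 L`, `r ≤ √n L²` -/
theorem JT_C1 {L η C1 C2 : ℝ} (F : B2_facts L η C1 C2) (G : JT_facts L C1) {n k r : ℕ}
    (hr1 : 1 ≤ r)
    (hr : (r : ℝ) ≤ Real.exp (L / 2) * L ^ 2) (h80 : 80 < r * η)
    (hq : r * Real.exp (-(r * η)) < 16 * L)
    (hup : ∀ ζ : ℝ, 0 ≤ ζ → ζ ≤ 1 → aa n r (1 - ζ) ≤
      Real.exp (-(ζ * (r * Real.exp (-(r * η))))) +
      C1 * Real.exp (-(3 / 4 * L)) * r * (ζ * (r * Real.exp (-(r * η)))) *
        Real.exp (2 * (ζ * (r * Real.exp (-(r * η))))))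
    (hmu : ∀ c : ℝ, 1 ≤ c → c * Real.exp (-(r * (η - C2 * Real.exp (-(3 / 4 * L))))) ≤ 1 / 2 →
      bb n r c ≤ Real.exp (-(r * (η - C2 * Real.exp (-(3 / 4 * L))))) *
      (Real.exp (2 * c * (Real.exp (-(r * (η - C2 * Real.exp (-(3 / 4 * L))))) /
        (1 - Real.exp (-(η - C2 * Real.exp (-(3 / 4 * L))))))) - 1)) :
    TT3 n k r ≤ 65 * Real.exp 1055 *
      (1024 / L ^ 2 * (η * (Real.exp (-(r * η)) / η) *
        Real.exp (-(L / 16 * (Real.exp (-(r * η)) / η)))) +
      4096 * Real.exp 64 / L ^ 3 * (η * (Real.exp (-(r * η)) / η) *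
        Real.exp (-(1 * (Real.exp (-(r * η)) / η))))) := by
  have hC1 := F.hC1
  have hL := F.hL
  have hη : 0 < η := lt_of_lt_of_le (by positivity) F.low
  have hr0 : (0 : ℝ) < r := by exact_mod_cast hr1
  have hLpos : 0 < L := by linarith
  set y := Real.exp (-(r * η)) with hy
  have hypos : 0 < y := Real.exp_pos _
  set u := y / η with hu
  have hupos : 0 < u := by positivity
  have hηu : η * u = y := by rw [hu]; field_simp
  -- r η ≥ L / 4
  have hrL : L / 4 ≤ r * η := by
    by_contra hcon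
    push Not at hcon
    have h1 : Real.exp (-(L / 4)) ≤ y := Real.exp_le_exp.2 (by linarith)
    have h2 : 40 * Real.exp (L / 2) ≤ r := by
      have h3 : 80 ≤ r * (2 * Real.exp (-(L / 2))) := by
        refine h80.le.trans ?_
        gcongr
        exact F.up
      have e2 : Real.exp (L / 2) * Real.exp (-(L / 2)) = 1 := by
        rw [← Real.exp_add]; simp
      have h4 := mul_le_mul_of_nonneg_right h3 (Real.exp_pos (L / 2)).le
      have h5 : r * (2 * Real.exp (-(L / 2))) * Real.exp (L / 2) = 2 * r := by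
        calc _ = 2 * r * (Real.exp (L / 2) * Real.exp (-(L / 2))) := by ring
          _ = _ := by rw [e2, mul_one]
      rw [h5] at h4
      linarith
    have h6 : 40 * Real.exp (L / 4) ≤ r * y := by
      calc 40 * Real.exp (L / 4) = (40 * Real.exp (L / 2)) * Real.exp (-(L / 4)) := by
            rw [mul_assoc, ← Real.exp_add]; congr 2; ring
        _ ≤ r * y := by gcongr
    have h7 : (1 + L / 8) * (1 + L / 8) ≤ Real.exp (L / 4) := by
      have h8 : 1 + L / 8 ≤ Real.exp (L / 8) := by linarith [Real.add_one_le_exp (L / 8)]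
      calc (1 + L / 8) * (1 + L / 8) ≤ Real.exp (L / 8) * Real.exp (L / 8) := by gcongr
        _ = _ := by rw [← Real.exp_add]; congr 1; ring
    nlinarith
  have hqu : r * y = r * η * u := by rw [hu]; field_simp
  have hqu' : L / 4 * u ≤ r * y := by rw [hqu]; gcongr
  have hu64 : u ≤ 64 := by
    by_contra hcon
    push Not at hcon
    nlinarith
  -- bound for aa
  have haa : ∃ x : ℝ, 1 / 2 ≤ x ∧ x ≤ 1 ∧ aa n r x ≤ Real.exp (-(L / 8 * u)) + 1 / L ^ 3 := by
    have hgen : ∀ ζ : ℝ, 0 ≤ ζ → ζ ≤ 1 / 2 → ζ * (r * y) ≤ L / 16 →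
        Real.exp (-(ζ * (r * y))) ≤ Real.exp (-(L / 8 * u)) + Real.exp (-(L / 16)) →
        aa n r (1 - ζ) ≤ Real.exp (-(L / 8 * u)) + 1 / L ^ 3 := by
      intro ζ h0 h1 h2 h3
      refine (hup ζ h0 (by linarith)).trans ?_
      have h4 : C1 * Real.exp (-(3 / 4 * L)) * r * (ζ * (r * y)) * Real.exp (2 * (ζ * (r * y))) ≤
          C1 * L ^ 3 * Real.exp (-(L / 8)) := by
        calc C1 * Real.exp (-(3 / 4 * L)) * r * (ζ * (r * y)) * Real.exp (2 * (ζ * (r * y))) ≤
            C1 * Real.exp (-(3 / 4 * L)) * (Real.exp (L / 2) * L ^ 2) * (L / 16) *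
              Real.exp (2 * (L / 16)) := by gcongr
          _ = C1 * L ^ 3 * (Real.exp (-(3 / 4 * L)) * Real.exp (L / 2) *
              Real.exp (2 * (L / 16))) / 16 := by ring
          _ = C1 * L ^ 3 * Real.exp (-(L / 8)) / 16 := by
              rw [← Real.exp_add, ← Real.exp_add]
              congr 3
              ring
          _ ≤ _ := by
              have : 0 ≤ C1 * L ^ 3 * Real.exp (-(L / 8)) := by positivity
              linarith
      have h5 := G.g8
      linarith
    rcases le_total (r * y) (L / 8) with h | h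
    · refine ⟨1 - 1 / 2, by norm_num, by norm_num, hgen (1 / 2) (by norm_num) le_rfl ?_ ?_⟩
      · linarith
      · have : Real.exp (-(1 / 2 * (r * y))) ≤ Real.exp (-(L / 8 * u)) := by
          apply Real.exp_le_exp.2
          linarith
        linarith [Real.exp_pos (-(L / 16))]
    · have hqpos : 0 < r * y := by positivity
      refine ⟨1 - L / (16 * (r * y)), ?_, ?_, hgen (L / (16 * (r * y))) (by positivity) ?_ ?_ ?_⟩
      · have : L / (16 * (r * y)) ≤ 1 / 2 := by
          rw [div_le_div_iff₀ (by positivity) (by norm_num)]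
          linarith
        linarith
      · have : 0 ≤ L / (16 * (r * y)) := by positivity
        linarith
      · rw [div_le_div_iff₀ (by positivity) (by norm_num)]
        linarith
      · have : L / (16 * (r * y)) * (r * y) = L / 16 := by field_simp
        rw [this]
      · have : L / (16 * (r * y)) * (r * y) = L / 16 := by field_simp
        rw [this]
        linarith [Real.exp_pos (-(L / 8 * u))]
  obtain ⟨x, hx, hx1, haax⟩ := haa
  have hy1 : y ≤ 1 / 81 := by
    refine le_trans (Real.exp_le_exp.2 ?_) B2_e80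
    linarith
  have hη3 : η ≤ 1 / 3 := by
    have := F.up
    have := F.f10
    linarith
  obtain ⟨D, hD8, hDy, hDu⟩ := JT_u hη hupos hηu.symm hy1 hη3 hu64
  have hmain := JT_TT (k := k) F hr1 hr hx hx1 hD8 hDy hmu
  rw [← hy, ← hu] at hmain
  have hstep : TT3 n k r ≤ 65 * Real.exp 1055 *
      (η * (u * (u * u)) * (Real.exp (-(L / 8 * u)) + 1 / L ^ 3)) := by
    calc TT3 n k r ≤ aa n r x * ((8 / D) ^ 2 * (1.01 * y * (Real.exp (2.06 * D * u) - 1))) := hmain
      _ ≤ aa n r x * ((65 * Real.exp 1055) * (η * (u * (u * u)))) :=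
          mul_le_mul_of_nonneg_left hDu (B2_aa_nonneg n r (by linarith))
      _ ≤ (Real.exp (-(L / 8 * u)) + 1 / L ^ 3) * ((65 * Real.exp 1055) *
            (η * (u * (u * u)))) := by gcongr
      _ = _ := by ring
  refine hstep.trans ?_
  gcongr
  -- u² e^{-(L/8)u} ≤ (1024/L²) e^{-(L/16)u}
  have h1 : u * u * Real.exp (-(L / 8 * u)) ≤ 1024 / L ^ 2 * Real.exp (-(L / 16 * u)) := by
    have h2 : (L / 32 * u) * (L / 32 * u) ≤ Real.exp (L / 16 * u) := by
      have h2' : L / 32 * u ≤ Real.exp (L / 32 * u) := by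
        linarith [Real.add_one_le_exp (L / 32 * u)]
      calc (L / 32 * u) * (L / 32 * u) ≤ Real.exp (L / 32 * u) * Real.exp (L / 32 * u) := by
            gcongr
        _ = _ := by rw [← Real.exp_add]; congr 1; ring
    have h3 : Real.exp (-(L / 8 * u)) = Real.exp (-(L / 16 * u)) * Real.exp (-(L / 16 * u)) := by
      rw [← Real.exp_add]; congr 1; ring
    have h4 : Real.exp (L / 16 * u) * Real.exp (-(L / 16 * u)) = 1 := by
      rw [← Real.exp_add]; simp
    calc u * u * Real.exp (-(L / 8 * u)) = 1024 / L ^ 2 * ((L / 32 * u) * (L / 32 * u)) *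
          (Real.exp (-(L / 16 * u)) * Real.exp (-(L / 16 * u))) := by
          rw [h3]; field_simp; ring
      _ ≤ 1024 / L ^ 2 * Real.exp (L / 16 * u) *
          (Real.exp (-(L / 16 * u)) * Real.exp (-(L / 16 * u))) := by gcongr
      _ = 1024 / L ^ 2 * Real.exp (-(L / 16 * u)) *
          (Real.exp (L / 16 * u) * Real.exp (-(L / 16 * u))) := by ring
      _ = _ := by rw [h4, mul_one]
  have h5 : u * u ≤ 4096 * Real.exp 64 * Real.exp (-(1 * u)) := by
    have h6 : 1 ≤ Real.exp 64 * Real.exp (-(1 * u)) := by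
      rw [← Real.exp_add]
      apply Real.one_le_exp
      linarith
    nlinarith
  calc η * (u * (u * u)) * (Real.exp (-(L / 8 * u)) + 1 / L ^ 3) =
        η * u * (u * u * Real.exp (-(L / 8 * u))) + η * u * (u * u / L ^ 3) := by ring
    _ ≤ η * u * (1024 / L ^ 2 * Real.exp (-(L / 16 * u))) +
        η * u * (4096 * Real.exp 64 * Real.exp (-(1 * u)) / L ^ 3) := by gcongr
    _ = _ := by ring

/-- regime C2: `r > √n L²` -/
theorem JT_C2 {L η C1 C2 : ℝ} (F : B2_facts L η C1 C2) {n k r : ℕ}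
    (hn : (n : ℝ) = Real.exp L) (hr1 : 1 ≤ r)
    (hr : Real.exp (L / 2) * L ^ 2 < (r : ℝ))
    (hbig : aa n r 1 ≤ C1 * Real.exp (3 / 4 * L))
    (hmu : ∀ c : ℝ, 1 ≤ c → c * Real.exp (-(r * (η - C2 * Real.exp (-(3 / 4 * L))))) ≤ 1 / 2 →
      bb n r c ≤ Real.exp (-(r * (η - C2 * Real.exp (-(3 / 4 * L))))) *
      (Real.exp (2 * c * (Real.exp (-(r * (η - C2 * Real.exp (-(3 / 4 * L))))) /
        (1 - Real.exp (-(η - C2 * Real.exp (-(3 / 4 * L))))))) - 1)) :
    TT3 n k r ≤ Real.exp (-(2 * L)) := by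
  have hC1 := F.hC1
  have hL := F.hL
  have hη : 0 < η := lt_of_lt_of_le (by positivity) F.low
  have hr0 : (0 : ℝ) < r := by exact_mod_cast hr1
  obtain ⟨g1, g2, g3⟩ := B2_eta F
  set η' := η - C2 * Real.exp (-(3 / 4 * L)) with hη'
  set y := Real.exp (-(r * η')) with hy
  have e2 : Real.exp (L / 2) * Real.exp (-(L / 2)) = 1 := by
    rw [← Real.exp_add]; simp
  have h1 : L ^ 2 / 4 ≤ r * η' := by
    have h2 : 0.4975 * Real.exp (-(L / 2)) ≤ η' := by
      have := F.low
      linarith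
    calc L ^ 2 / 4 ≤ 0.4975 * (L ^ 2 * (Real.exp (L / 2) * Real.exp (-(L / 2)))) := by
          rw [e2, mul_one]
          nlinarith
      _ = (Real.exp (L / 2) * L ^ 2) * (0.4975 * Real.exp (-(L / 2))) := by ring
      _ ≤ r * η' := by gcongr
  have h25 : 25 * L ≤ L ^ 2 / 4 := by nlinarith
  have hy1 : y ≤ Real.exp (-(25 * L)) := Real.exp_le_exp.2 (by linarith)
  have hsmall : Real.exp (-(25 * L)) ≤ 1 / 3 * Real.exp (-(24 * L)) := by
    have h3 : Real.exp (-(25 * L)) = Real.exp (-L) * Real.exp (-(24 * L)) := by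
      rw [← Real.exp_add]; congr 1; ring
    rw [h3]
    gcongr
    rw [Real.exp_neg, inv_eq_one_div]
    apply one_div_le_one_div_of_le (by norm_num)
    linarith [Real.add_one_le_exp L]
  have h24 : Real.exp (-(24 * L)) ≤ 1 := Real.exp_le_one_iff.2 (by linarith)
  have hcond : 1 * y ≤ 1 / 2 := by linarith
  have hb := hmu 1 le_rfl hcond
  have hD : 0 < 1 - Real.exp (-η') := lt_of_lt_of_le (by positivity) g3
  have hU : y / (1 - Real.exp (-η')) ≤ 1 := by
    rw [div_le_one hD]
    refine le_trans ?_ g3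
    have h3 := F.low
    have h4 : y ≤ 0.495 * Real.exp (-(L / 2)) := by
      calc y ≤ Real.exp (-(25 * L)) := hy1
        _ ≤ 1 / 3 * Real.exp (-(24 * L)) := hsmall
        _ ≤ 1 / 3 * Real.exp (-(L / 2)) := by
            gcongr
            linarith
        _ ≤ _ := by
            have := Real.exp_pos (-(L / 2))
            linarith
    linarith
  have hexp : Real.exp (2 * 1 * (y / (1 - Real.exp (-η')))) - 1 ≤ 7 := by
    have h3 : Real.exp (2 * 1 * (y / (1 - Real.exp (-η')))) ≤ Real.exp 2 := by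
      apply Real.exp_le_exp.2
      linarith
    have h4 : Real.exp 2 ≤ 8 := by
      have h5 : Real.exp 2 = Real.exp 1 * Real.exp 1 := by
        rw [← Real.exp_add]; norm_num
      have h6 := Real.exp_one_lt_d9
      have h7 := Real.exp_pos 1
      rw [h5]
      nlinarith
    linarith
  have hbb : bb n r 1 ≤ y * 7 := by
    refine hb.trans ?_
    have : 0 ≤ y := (Real.exp_pos _).le
    gcongr
  have hG := B2_G1 n k r (x := 1) one_pos le_rfl
  simp only [one_pow, inv_one] at hG
  calc TT3 n k r ≤ (n : ℝ) * TT n k r := JT_le_TT n k r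
    _ ≤ Real.exp L * (aa n r 1 * bb n r 1) := by
        rw [hn]
        gcongr
    _ ≤ Real.exp L * ((C1 * Real.exp (3 / 4 * L)) * (y * 7)) := by
        have := B2_bb_nonneg n r (c := 1) (by norm_num)
        gcongr
    _ ≤ Real.exp L * ((Real.exp (L / 4) * Real.exp (3 / 4 * L)) * (Real.exp (-(25 * L)) * 7)) := by
        have := F.f6
        gcongr
    _ = 7 * Real.exp (-(21 * L)) * Real.exp (-(2 * L)) := by
        have e3 : Real.exp L * ((Real.exp (L / 4) * Real.exp (3 / 4 * L)) *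
            (Real.exp (-(25 * L)) * 7)) =
            7 * (Real.exp L * (Real.exp (L / 4) * Real.exp (3 / 4 * L)) *
              Real.exp (-(25 * L))) := by ring
        rw [e3, ← Real.exp_add, ← Real.exp_add, ← Real.exp_add, mul_assoc, ← Real.exp_add]
        congr 2
        ring
    _ ≤ 1 * Real.exp (-(2 * L)) := by
        gcongr
        have h3 : Real.exp (-(21 * L)) ≤ 1 / 7 := by
          rw [Real.exp_neg, inv_eq_one_div]
          apply one_div_le_one_div_of_le (by norm_num)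
          linarith [Real.add_one_le_exp (21 * L)]
        linarith
    _ = _ := one_mul _

/-- row JT -/
theorem row_JT : JT_stmt := by
  intro η C N0 C1 N1 hP hE
  obtain ⟨C2, N2, hM⟩ := row_MU η C N0 hP
  refine ⟨Real.exp (-80) / 12, by positivity,
    1 + 65 * Real.exp 1055 * (1024 * 32 + 4096 * Real.exp 64 * 2), ?_⟩
  have hlog : Tendsto (fun n : ℕ => Real.log (n : ℝ)) atTop atTop :=
    Real.tendsto_log_atTop.comp tendsto_natCast_atTop_atTop
  have hev := hlog.eventually (B2_facts_ev C1 C2 hE.hC)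
  have hev' := hlog.eventually (JT_facts_ev C1 hE.hC)
  have hev2 : ∀ᶠ n : ℕ in atTop, N0 ≤ n ∧ N1 ≤ n ∧ N2 ≤ n ∧ 1 ≤ n := by
    filter_upwards [eventually_ge_atTop N0, eventually_ge_atTop N1, eventually_ge_atTop N2,
      eventually_ge_atTop 1] with n h0 h1 h2 h3
    exact ⟨h0, h1, h2, h3⟩
  obtain ⟨N3, hN3⟩ := eventually_atTop.1 ((hev.and hev').and hev2)
  refine ⟨N3, fun n hn k hk => ?_⟩
  obtain ⟨⟨hfacts, G⟩, h0, h1, h2, h3⟩ := hN3 n hn
  have hnpos : (0 : ℝ) < n := by exact_mod_cast h3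
  set L := Real.log (n : ℝ) with hL
  have hexpL : Real.exp L = n := Real.exp_log hnpos
  have hsqrt : √(n : ℝ) = Real.exp (L / 2) := by
    rw [Real.sqrt_eq_rpow, Real.rpow_def_of_pos hnpos, ← hL]
    congr 1
    ring
  have hp34 : (n : ℝ) ^ ((3 / 4) : ℝ) = Real.exp (3 / 4 * L) := by
    rw [Real.rpow_def_of_pos hnpos, ← hL]
    congr 1
    ring
  have hm34 : (n : ℝ) ^ (-(3 / 4) : ℝ) = Real.exp (-(3 / 4 * L)) := by
    rw [Real.rpow_def_of_pos hnpos, ← hL]
    congr 1
    ring
  have hlow : Real.exp (-(L / 2)) / 2 ≤ η n := by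
    have := hP.low n h0
    rw [hsqrt] at this
    have e : Real.exp (-(L / 2)) / 2 = 1 / (2 * Real.exp (L / 2)) := by
      rw [Real.exp_neg]; field_simp
    rw [e]; exact this
  have hup : η n ≤ 2 * Real.exp (-(L / 2)) := by
    have := hP.up n h0
    rw [hsqrt] at this
    have e : 2 * Real.exp (-(L / 2)) = 2 / Real.exp (L / 2) := by
      rw [Real.exp_neg]; field_simp
    rw [e]; exact this
  have F := hfacts (η n) hlow hup
  have hLL := F.hL
  have hLpos : 0 < L := by linarith
  have hη : 0 < η n := lt_of_lt_of_le (by positivity) F.low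
  have hη1 : η n ≤ 1 := by
    have := F.up
    have := F.f10
    linarith
  set K : ℝ := 65 * Real.exp 1055 with hK
  have hKpos : 0 < K := by positivity
  have hbound : ∀ r ∈ Icc 1 n, TT3 n k r ≤ Real.exp (-(2 * L)) + K *
      (1024 / L ^ 2 * (η n * (Real.exp (-(r * η n)) / η n) *
        Real.exp (-(L / 16 * (Real.exp (-(r * η n)) / η n)))) +
      4096 * Real.exp 64 / L ^ 3 * (η n * (Real.exp (-(r * η n)) / η n) *
        Real.exp (-(1 * (Real.exp (-(r * η n)) / η n))))) := by
    intro r hr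
    rw [Finset.mem_Icc] at hr
    have hr1 : 1 ≤ r := hr.1
    have hrn : (r : ℝ) ≤ Real.exp L := by
      rw [hexpL]; exact_mod_cast hr.2
    have hX : 0 ≤ K * (1024 / L ^ 2 * (η n * (Real.exp (-(r * η n)) / η n) *
        Real.exp (-(L / 16 * (Real.exp (-(r * η n)) / η n)))) +
      4096 * Real.exp 64 / L ^ 3 * (η n * (Real.exp (-(r * η n)) / η n) *
        Real.exp (-(1 * (Real.exp (-(r * η n)) / η n))))) := by positivity
    have hbigζ : ∀ ζ : ℝ, 0 ≤ ζ → ζ ≤ 1 → aa n r (1 - ζ) ≤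
        C1 * Real.exp (3 / 4 * L) * Real.exp (-(ζ * lam (η n) r)) := by
      intro ζ hζ hζ1
      have := hE.big n h1 r hr1 ζ hζ hζ1
      rwa [hp34] at this
    have hbig : aa n r (1 / 2) ≤ C1 * Real.exp (3 / 4 * L) * Real.exp (-(1 / 2 * lam (η n) r)) := by
      have := hbigζ (1 / 2) (by norm_num) (by norm_num)
      norm_num at this ⊢
      exact this
    have hmu : ∀ c : ℝ, 1 ≤ c →
        c * Real.exp (-(r * (η n - C2 * Real.exp (-(3 / 4 * L))))) ≤ 1 / 2 →
        bb n r c ≤ Real.exp (-(r * (η n - C2 * Real.exp (-(3 / 4 * L))))) *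
        (Real.exp (2 * c * (Real.exp (-(r * (η n - C2 * Real.exp (-(3 / 4 * L))))) /
          (1 - Real.exp (-(η n - C2 * Real.exp (-(3 / 4 * L))))))) - 1) := by
      intro c hc hc2
      have := hM.mu n h2 r hr1 c hc
      rw [hm34] at this
      exact this hc2
    rcases le_or_gt ((r : ℝ) * η n) 80 with h80 | h80
    · have hk' : (k : ℝ) ≤ Real.exp (-80) / 12 * Real.exp (L / 2) := by
        rw [hsqrt] at hk; exact hk
      have := JT_A F G hexpL.symm hr1 hk' h80 hbig
      linarith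
    · rcases le_or_gt (16 * L) (r * Real.exp (-(r * η n))) with hq | hq
      · have := JT_B (k := k) F hr1 hrn h80 hq hbig hmu
        linarith
      · rcases le_or_gt (r : ℝ) (Real.exp (L / 2) * L ^ 2) with hrL | hrL
        · have hupζ : ∀ ζ : ℝ, 0 ≤ ζ → ζ ≤ 1 → aa n r (1 - ζ) ≤
              Real.exp (-(ζ * (r * Real.exp (-(r * η n))))) +
              C1 * Real.exp (-(3 / 4 * L)) * r * (ζ * (r * Real.exp (-(r * η n)))) *
              Real.exp (2 * (ζ * (r * Real.exp (-(r * η n))))) := by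
            intro ζ hζ hζ1
            have hy : Real.exp (-(r * η n)) ≤ 1 / 2 := by
              refine le_trans (Real.exp_le_exp.2 (by linarith : -(r * η n) ≤ -80)) ?_
              have := B2_e80
              linarith
            have := hE.up n h1 r hr1 hy ζ hζ hζ1
            rwa [hm34] at this
          have := JT_C1 (k := k) F G hr1 hrL h80 hq hupζ hmu
          have h4 := Real.exp_pos (-(2 * L))
          linarith
        · have hbig0 : aa n r 1 ≤ C1 * Real.exp (3 / 4 * L) := by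
            have := hbigζ 0 le_rfl zero_le_one
            simpa using this
          have := JT_C2 (k := k) F hexpL.symm hr1 hrL hbig0 hmu
          linarith
  refine (Finset.sum_le_sum hbound).trans ?_
  rw [Finset.sum_add_distrib, ← Finset.mul_sum, Finset.sum_add_distrib, ← Finset.mul_sum,
    ← Finset.mul_sum]
  have hs1 := B2_sum hη hη1 (by positivity : (0 : ℝ) < L / 16) n
  have hs2 := B2_sum hη hη1 one_pos n
  have hcard : ∑ _r ∈ Icc 1 n, Real.exp (-(2 * L)) = Real.exp (-L) := by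
    rw [Finset.sum_const, Nat.card_Icc, nsmul_eq_mul]
    simp only [Nat.add_sub_cancel]
    rw [← hexpL, ← Real.exp_add]
    congr 1
    ring
  rw [hcard]
  have h9 := G.g9
  have hL3 : 0 < L ^ 3 := by positivity
  calc _ ≤ 1 / L ^ 3 + K * (1024 / L ^ 2 * (2 / (L / 16)) +
          4096 * Real.exp 64 / L ^ 3 * (2 / 1)) := by
        gcongr
    _ = _ := by
        field_simp
        ring

end ZT68
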