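/-
MP_1882ea_al, helper68.  Row JU: zeros of type II which are not of type I.
-/
import Mathlib
import Pool.Agent.Lib.ZT68.Sec
import Pool.Agent.Lib.ZT68.ST
import Pool.Agent.Lib.ZT68.MU

namespace ZT68

open Finset Filter Topology

theorem JU_part (n r t : ℕ) (hr : 1 ≤ r) (ht : 1 ≤ t) (h : r + t ≤ n) :
    (univ.filter (fun μ : n.Partition => r ::ₘ {t} ≤ μ.parts)).card = pp (n - (r + t)) := by
  apply le_antisymm
  · have := MU_count n (r ::ₘ {t})
    simpa using this
  · exact LB_mu_low n r t hr ht h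

open Classical in
/-- the second order events -/
noncomputable def JU_G (n : ℕ) (Y : YoungDiagram) (μ : n.Partition) : Finset (ℕ × ℕ) :=
  (PW n).filter (fun p => p.2 ::ₘ {p.1} ≤ μ.parts ∧ hn p.1 Y = 0 ∧ 1 ≤ hn p.2 Y)

open Classical in
theorem JU_Sig (n : ℕ) : Sig2 n =
    (∑ Y ∈ DD n, ∑ μ : n.Partition, ((JU_G n Y μ).card : ℝ)) / (pp n : ℝ) ^ 2 := by
  unfold Sig2
  have e : ∀ p ∈ PW n, ((pp (n - (p.2 + p.1)) : ℝ) / pp n) * (((LB_Y n p.2 p.1).card : ℝ) / pp n) =
      (∑ Y ∈ DD n, ∑ μ : n.Partition,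
        if p.2 ::ₘ {p.1} ≤ μ.parts ∧ hn p.1 Y = 0 ∧ 1 ≤ hn p.2 Y then (1 : ℝ) else 0) /
        (pp n : ℝ) ^ 2 := by
    intro p hp
    unfold PW at hp
    rw [Finset.mem_filter, Finset.mem_product, Finset.mem_Icc, Finset.mem_Icc] at hp
    obtain ⟨⟨⟨h1, h2⟩, h3, h4⟩, h5, h6⟩ := hp
    have h7 := JU_part n p.2 p.1 h3 h1 (by omega)
    have h8 : (pp (n - (p.2 + p.1)) : ℝ) = ∑ μ : n.Partition,
        if p.2 ::ₘ {p.1} ≤ μ.parts then (1 : ℝ) else 0 := by
      rw [Finset.sum_boole, ← h7]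
    have h9 : ((LB_Y n p.2 p.1).card : ℝ) = ∑ Y ∈ DD n,
        if hn p.1 Y = 0 ∧ 1 ≤ hn p.2 Y then (1 : ℝ) else 0 := by
      rw [Finset.sum_boole]
      rfl
    rw [div_mul_div_comm, ← sq, h8, h9, Finset.sum_mul_sum, Finset.sum_comm]
    congr 1
    apply Finset.sum_congr rfl
    intro Y _
    apply Finset.sum_congr rfl
    intro μ _
    by_cases ha : p.2 ::ₘ {p.1} ≤ μ.parts <;> by_cases hb : hn p.1 Y = 0 ∧ 1 ≤ hn p.2 Y <;>
      simp [ha, hb]
  rw [Finset.sum_congr rfl e, ← Finset.sum_div, Finset.sum_comm]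
  congr 1
  apply Finset.sum_congr rfl
  intro Y _
  rw [Finset.sum_comm]
  apply Finset.sum_congr rfl
  intro μ _
  rw [Finset.sum_boole]
  rfl

theorem JU_two {n : ℕ} (μ : n.Partition) (t : ℕ) (ht : t ∈ μ.parts) (hW : WW t μ = 2) :
    ∃ r, t ≤ r ∧ r ::ₘ {t} ≤ μ.parts ∧ ∀ s ∈ μ.parts, t ≤ s → s = t ∨ s = r := by
  unfold WW at hW
  have h1 : t ∈ μ.parts.filter (fun s => t ≤ s) := by
    rw [Multiset.mem_filter]
    exact ⟨ht, le_rfl⟩
  obtain ⟨A, hA⟩ := Multiset.exists_cons_of_mem h1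
  have h2 : A.card = 1 := by
    rw [hA, Multiset.card_cons] at hW
    omega
  obtain ⟨r, hr⟩ := Multiset.card_eq_one.1 h2
  rw [hr] at hA
  have hr2 : r ∈ μ.parts.filter (fun s => t ≤ s) := by rw [hA]; simp
  rw [Multiset.mem_filter] at hr2
  refine ⟨r, hr2.2, ?_, ?_⟩
  · have h3 : r ::ₘ {t} = μ.parts.filter (fun s => t ≤ s) := by
      rw [hA]
      exact Multiset.pair_comm r t
    rw [h3]
    exact Multiset.filter_le _ _
  · intro s hs hts
    have : s ∈ μ.parts.filter (fun s => t ≤ s) := by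
      rw [Multiset.mem_filter]
      exact ⟨hs, hts⟩
    rw [hA] at this
    simpa using this

open Classical in
/-- the third order weight -/
noncomputable def JU_T (n : ℕ) (Y : YoungDiagram) (μ : n.Partition) : ℝ :=
  ∑ t ∈ Icc 1 n, if t ∈ μ.parts ∧ 3 ≤ WW t μ ∧ hn t Y + 2 ≤ 2 * min (WW t μ) 1
    then (WW t μ : ℝ) else 0

open Classical in
/-- type II and not type I -/
noncomputable def JU_F (n : ℕ) (Y : YoungDiagram) (μ : n.Partition) : ℝ :=
  (if IsTypeII Y μ then (1 : ℝ) else 0) - (if TypeI Y μ then (1 : ℝ) else 0)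

open Classical in
theorem JU_T_ge (n : ℕ) (Y : YoungDiagram) (μ : n.Partition) {t : ℕ} (ht : t ∈ μ.parts)
    (h3 : 3 ≤ WW t μ) (h0 : hn t Y = 0) : (WW t μ : ℝ) ≤ JU_T n Y μ := by
  unfold JU_T
  have h4 := Finset.single_le_sum (f := fun x => if x ∈ μ.parts ∧ 3 ≤ WW x μ ∧
    hn x Y + 2 ≤ 2 * min (WW x μ) 1 then (WW x μ : ℝ) else 0)
    (fun x _ => by split_ifs <;> positivity)
    (Finset.mem_Icc.2 ⟨μ.parts_pos ht, Nat.Partition.le_of_mem_parts ht⟩)
  rw [if_pos ⟨ht, h3, by omega⟩] at h4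
  exact h4

open Classical in
theorem JU_T_nonneg (n : ℕ) (Y : YoungDiagram) (μ : n.Partition) : 0 ≤ JU_T n Y μ := by
  unfold JU_T
  exact Finset.sum_nonneg (fun x _ => by split_ifs <;> positivity)

theorem JU_I_II {n : ℕ} {Y : YoungDiagram} {μ : n.Partition} (h : TypeI Y μ) : IsTypeII Y μ := by
  obtain ⟨t, ht, _, hc⟩ := h
  exact ⟨t, ht, hc⟩

theorem JU_F_nonneg (n : ℕ) (Y : YoungDiagram) (μ : n.Partition) : 0 ≤ JU_F n Y μ := by
  unfold JU_F
  by_cases h : TypeI Y μ
  · rw [if_pos h, if_pos (JU_I_II h)]; norm_num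
  · rw [if_neg h]
    split_ifs <;> norm_num

/-- upper bound -/
theorem JU_up (h1 : BD1_stmt) (n : ℕ) (Y : YoungDiagram) (μ : n.Partition) :
    JU_F n Y μ ≤ (JU_G n Y μ).card + JU_T n Y μ := by
  have hT := JU_T_nonneg n Y μ
  have hG : (0 : ℝ) ≤ (JU_G n Y μ).card := by positivity
  by_cases hI : TypeI Y μ
  · unfold JU_F
    rw [if_pos hI, if_pos (JU_I_II hI)]
    linarith
  by_cases hII : IsTypeII Y μ
  swap
  · unfold JU_F
    rw [if_neg hI, if_neg hII]
    linarith
  have hF : JU_F n Y μ = 1 := by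
    unfold JU_F
    rw [if_neg hI, if_pos hII]; norm_num
  rw [hF]
  obtain ⟨t, ht, hc⟩ := hII
  have ht1 : 1 ≤ t := μ.parts_pos ht
  have hz := (h1.core Y t ht1).1 hc
  rcases Nat.lt_trichotomy (WW t μ) 2 with hW | hW | hW
  · exfalso
    apply hI
    exact ⟨t, ht, ST_top μ t ht (by omega), hc⟩
  · obtain ⟨r, htr, hle, hall⟩ := JU_two μ t ht hW
    have hrμ : r ∈ μ.parts := Multiset.mem_of_le hle (by simp)
    have hr1 : 1 ≤ r := μ.parts_pos hrμ
    have hlt : t < r := by
      rcases Nat.lt_or_ge t r with h | h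
      · exact h
      · exfalso
        apply hI
        refine ⟨t, ht, ?_, hc⟩
        intro s hs
        by_contra hst
        rcases hall s hs (by omega) with h2 | h2 <;> omega
    have hr2 : 1 ≤ hn r Y := by
      by_contra h2
      apply hI
      refine ⟨r, hrμ, ?_, (h1.core Y r hr1).2 (by omega)⟩
      intro s hs
      by_contra hst
      rcases hall s hs (by omega) with h2 | h2 <;> omega
    have hsum : t + r ≤ n := by
      obtain ⟨A, hA⟩ := Multiset.le_iff_exists_add.1 hle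
      have := congrArg Multiset.sum hA
      rw [μ.parts_sum, Multiset.sum_add, Multiset.sum_cons, Multiset.sum_singleton] at this
      omega
    have hmem : (t, r) ∈ JU_G n Y μ := by
      unfold JU_G PW
      simp only [Finset.mem_filter, Finset.mem_product, Finset.mem_Icc]
      exact ⟨⟨⟨⟨ht1, by omega⟩, hr1, by omega⟩, hlt, hsum⟩, hle, hz, hr2⟩
    have h2 : 1 ≤ (JU_G n Y μ).card := Finset.card_pos.2 ⟨_, hmem⟩
    have h3 : (1 : ℝ) ≤ (JU_G n Y μ).card := by exact_mod_cast h2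
    linarith
  · have h2 := JU_T_ge n Y μ ht (by omega) hz
    have h3 : (1 : ℝ) ≤ WW t μ := by exact_mod_cast (by omega : 1 ≤ WW t μ)
    linarith

/-- lower bound -/
theorem JU_low (h1 : BD1_stmt) (n : ℕ) (Y : YoungDiagram) (μ : n.Partition) :
    ((JU_G n Y μ).card : ℝ) ≤ JU_F n Y μ + JU_T n Y μ := by
  classical
  have hmem : ∀ p, p ∈ JU_G n Y μ ↔ (1 ≤ p.1 ∧ p.1 ≤ n ∧ 1 ≤ p.2 ∧ p.2 ≤ n ∧ p.1 < p.2 ∧
      p.1 + p.2 ≤ n) ∧ p.2 ::ₘ {p.1} ≤ μ.parts ∧ hn p.1 Y = 0 ∧ 1 ≤ hn p.2 Y := by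
    intro p
    unfold JU_G PW
    simp only [Finset.mem_filter, Finset.mem_product, Finset.mem_Icc]
    tauto
  have hparts : ∀ p ∈ JU_G n Y μ, p.1 ∈ μ.parts ∧ p.2 ∈ μ.parts ∧ 2 ≤ WW p.1 μ := by
    intro p hp
    rw [hmem] at hp
    obtain ⟨⟨h2, h3, h4, h5, h6, h7⟩, h8, h9, h10⟩ := hp
    refine ⟨Multiset.mem_of_le h8 (by simp), Multiset.mem_of_le h8 (by simp), ?_⟩
    unfold WW
    have : p.2 ::ₘ {p.1} ≤ μ.parts.filter (fun s => p.1 ≤ s) := by
      rw [Multiset.le_filter]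
      refine ⟨h8, ?_⟩
      intro a ha
      rw [Multiset.mem_cons, Multiset.mem_singleton] at ha
      rcases ha with rfl | rfl <;> omega
    have := Multiset.card_le_card this
    simpa using this
  have hsplit := Finset.card_filter_add_card_filter_not (s := JU_G n Y μ)
    (fun p : ℕ × ℕ => WW p.1 μ = 2)
  -- first part
  have hA : (((JU_G n Y μ).filter (fun p => WW p.1 μ = 2)).card : ℝ) ≤ JU_F n Y μ := by
    rcases Finset.eq_empty_or_nonempty ((JU_G n Y μ).filter (fun p => WW p.1 μ = 2)) with h0 | h0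
    · rw [h0, Finset.card_empty, Nat.cast_zero]
      exact JU_F_nonneg n Y μ
    · have hone : ((JU_G n Y μ).filter (fun p => WW p.1 μ = 2)).card ≤ 1 := by
        rw [Finset.card_le_one]
        intro p hp q hq
        rw [Finset.mem_filter] at hp hq
        obtain ⟨p1, p2, p3⟩ := hparts p hp.1
        obtain ⟨q1, q2, q3⟩ := hparts q hq.1
        have hp4 := (hmem p).1 hp.1
        have hq4 := (hmem q).1 hq.1
        obtain ⟨r, _, _, hr⟩ := JU_two μ p.1 p1 hp.2
        obtain ⟨s, _, _, hs⟩ := JU_two μ q.1 q1 hq.2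
        have a1 := hr p.2 p2 (by omega)
        have a2 := hs q.2 q2 (by omega)
        have hpr : p.2 = r := by omega
        have hqs : q.2 = s := by omega
        rcases le_total p.1 q.1 with hle | hle
        · have b1 := hr q.1 q1 hle
          have b2 := hr q.2 q2 (by omega)
          have b3 : q.2 = p.2 := by omega
          have b4 : q.1 = p.1 := by omega
          exact Prod.ext b4.symm b3.symm
        · have b1 := hs p.1 p1 hle
          have b2 := hs p.2 p2 (by omega)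
          have b3 : q.2 = p.2 := by omega
          have b4 : q.1 = p.1 := by omega
          exact Prod.ext b4.symm b3.symm
      obtain ⟨p, hp⟩ := h0
      rw [Finset.mem_filter] at hp
      obtain ⟨p1, p2, p3⟩ := hparts p hp.1
      have hp4 := (hmem p).1 hp.1
      obtain ⟨r, _, _, hr⟩ := JU_two μ p.1 p1 hp.2
      have hp1 : 1 ≤ p.1 := μ.parts_pos p1
      have hp2 : 1 ≤ p.2 := μ.parts_pos p2
      have hII : IsTypeII Y μ := ⟨p.1, p1, (h1.core Y p.1 hp1).2 hp4.2.2.1⟩
      have hI : ¬ TypeI Y μ := by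
        rintro ⟨t, ht, htop, hc⟩
        have h3 := htop p.2 p2
        have ht1 : 1 ≤ t := μ.parts_pos ht
        have h4 := (h1.core Y t ht1).1 hc
        have h5 := hr t ht (by omega)
        have h6 := hr p.2 p2 (by omega)
        have h7 : t = p.2 := by omega
        rw [h7] at h4
        omega
      have hF : JU_F n Y μ = 1 := by
        unfold JU_F
        rw [if_neg hI, if_pos hII]; norm_num
      rw [hF]
      exact_mod_cast hone
  -- second part
  have hB : (((JU_G n Y μ).filter (fun p => ¬ WW p.1 μ = 2)).card : ℝ) ≤ JU_T n Y μ := by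
    set B := (JU_G n Y μ).filter (fun p => ¬ WW p.1 μ = 2) with hBdef
    have hmap : ∀ p ∈ B, p.1 ∈ Icc 1 n := by
      intro p hp
      rw [hBdef, Finset.mem_filter, hmem] at hp
      rw [Finset.mem_Icc]
      exact ⟨hp.1.1.1, hp.1.1.2.1⟩
    rw [Finset.card_eq_sum_card_fiberwise (f := fun p : ℕ × ℕ => p.1) (s := B) (t := Icc 1 n)
      (fun p hp => hmap p hp)]
    push_cast
    unfold JU_T
    apply Finset.sum_le_sum
    intro t _
    rcases Finset.eq_empty_or_nonempty (B.filter (fun p => p.1 = t)) with h0 | h0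
    · rw [h0, Finset.card_empty, Nat.cast_zero]
      split_ifs <;> positivity
    · obtain ⟨p, hp⟩ := h0
      rw [Finset.mem_filter, hBdef, Finset.mem_filter] at hp
      obtain ⟨⟨hp1, hp2⟩, hp3⟩ := hp
      obtain ⟨q1, q2, q3⟩ := hparts p hp1
      have hp4 := (hmem p).1 hp1
      rw [hp3] at q1 q3 hp2 hp4
      rw [if_pos ⟨q1, by omega, by rw [hp4.2.2.1]; omega⟩]
      have hle : (B.filter (fun p => p.1 = t)).card ≤ WW t μ := by
        unfold WW
        refine le_trans ?_ (Multiset.toFinset_card_le (μ.parts.filter (fun s => t ≤ s)))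
        refine Finset.card_le_card_of_injOn (fun p => p.2) ?_ ?_
        · intro q hq
          rw [Finset.mem_coe, Finset.mem_filter, hBdef, Finset.mem_filter] at hq
          have h5 := hparts q hq.1.1
          have h6 := (hmem q).1 hq.1.1
          rw [Finset.mem_coe, Multiset.mem_toFinset, Multiset.mem_filter]
          refine ⟨h5.2.1, ?_⟩
          have h7 : q.1 = t := hq.2
          show t ≤ q.2
          omega
        · intro q hq q' hq' h
          rw [Finset.mem_coe, Finset.mem_filter] at hq hq'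
          exact Prod.ext (by rw [hq.2, hq'.2]) h
      exact_mod_cast hle
  have hs : ((JU_G n Y μ).card : ℝ) = (((JU_G n Y μ).filter (fun p => WW p.1 μ = 2)).card : ℝ) +
      (((JU_G n Y μ).filter (fun p => ¬ WW p.1 μ = 2)).card : ℝ) := by
    exact_mod_cast hsplit.symm
  rw [hs]
  linarith

open Classical in
/-- row JU -/
theorem row_JU (h1 : BD1_stmt) : JU_stmt := by
  intro n
  have hp : (0 : ℝ) < (pp n : ℝ) ^ 2 := by
    have := ST_pp_pos n
    positivity
  have hII : (({P : YoungDiagram × n.Partition | P.1.card = n ∧ IsTypeII P.1 P.2}.ncard : ℕ) : ℝ) =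
      ∑ Y ∈ DD n, ∑ μ : n.Partition, if IsTypeII Y μ then (1 : ℝ) else 0 :=
    ST_count n (fun Y μ => IsTypeII Y μ)
  have hF : zII n - zI n = (∑ Y ∈ DD n, ∑ μ : n.Partition, JU_F n Y μ) / (pp n : ℝ) ^ 2 := by
    unfold zII zI JU_F
    rw [hII, ST_countI, ← sub_div]
    congr 1
    rw [← Finset.sum_sub_distrib]
    apply Finset.sum_congr rfl
    intro Y _
    rw [Finset.sum_sub_distrib]
  have hT : ∑ t ∈ Icc 1 n, TT3 n 1 t = (∑ Y ∈ DD n, ∑ μ : n.Partition, JU_T n Y μ) /
      (pp n : ℝ) ^ 2 := by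
    unfold TT3 JU_T
    rw [← Finset.sum_div, Finset.sum_comm]
    congr 1
    apply Finset.sum_congr rfl
    intro Y _
    rw [Finset.sum_comm]
  rw [hF, JU_Sig n, hT, abs_le]
  constructor
  · rw [neg_le_sub_iff_le_add, ← add_div]
    apply div_le_div_of_nonneg_right _ hp.le
    rw [← Finset.sum_add_distrib]
    apply Finset.sum_le_sum
    intro Y _
    rw [← Finset.sum_add_distrib]
    apply Finset.sum_le_sum
    intro μ _
    have := JU_low h1 n Y μ
    linarith
  · rw [sub_le_iff_le_add, ← add_div]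
    apply div_le_div_of_nonneg_right _ hp.le
    rw [← Finset.sum_add_distrib]
    apply Finset.sum_le_sum
    intro Y _
    rw [← Finset.sum_add_distrib]
    apply Finset.sum_le_sum
    intro μ _
    have := JU_up h1 n Y μ
    linarith

end ZT68
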