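/-
MP_1882ea_al, helper53.  Row JX: two parts of `μ` whose hooks cannot be removed disjointly.
-/
import Mathlib
import Pool.Agent.Lib.ZT68.Sec
import Pool.Agent.Lib.ZT68.LB

namespace ZT68

open Finset Filter Topology

open Classical in
/-- the diagrams in which the hooks of lengths `t` and `r` all cross -/
noncomputable def JX_E (n t r : ℕ) : Finset YoungDiagram :=
  (DD n).filter (fun Y => 1 ≤ hn t Y ∧ hn t Y ≤ 2 ∧ 1 ≤ hn r Y ∧
    ∀ x ∈ Hk (SS Y) t, ∀ x' ∈ Hk (SS Y) r, x = x' ∨ x - (t : ℤ) = x' - (r : ℤ))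

open Classical in
/-- the partitions with the parts `t` and `r` -/
noncomputable def JX_M (n t r : ℕ) : Finset n.Partition :=
  univ.filter (fun μ => ({t, r} : Multiset ℕ) ≤ μ.parts)

/-- the event for a given `t` -/
def JX_C (Y : YoungDiagram) {n : ℕ} (μ : n.Partition) (t : ℕ) : Prop :=
  ∃ r : ℕ, t ≤ r ∧ ({t, r} : Multiset ℕ) ≤ μ.parts ∧ 1 ≤ hn t Y ∧ hn t Y ≤ 2 ∧ 1 ≤ hn r Y ∧
    ∀ x ∈ Hk (SS Y) t, ∀ x' ∈ Hk (SS Y) r, x = x' ∨ x - (t : ℤ) = x' - (r : ℤ)

open Classical in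
/-- its probability -/
noncomputable def JX_X (n t : ℕ) : ℝ :=
  (∑ Y ∈ DD n, ∑ μ : n.Partition, if JX_C Y μ t then (1 : ℝ) else 0) / (pp n : ℝ) ^ 2

theorem JX_parts {n : ℕ} {μ : n.Partition} {t r : ℕ} (h : ({t, r} : Multiset ℕ) ≤ μ.parts) :
    1 ≤ t ∧ t ≤ n ∧ 1 ≤ r ∧ r ≤ n ∧ t ∈ μ.parts ∧ r ∈ μ.parts := by
  have ht : t ∈ μ.parts := Multiset.mem_of_le h (by simp)
  have hr : r ∈ μ.parts := Multiset.mem_of_le h (by simp)
  exact ⟨μ.parts_pos ht, Nat.Partition.le_of_mem_parts ht, μ.parts_pos hr,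
    Nat.Partition.le_of_mem_parts hr, ht, hr⟩

/-- union bound over `t` -/
theorem JX_XX_le (n : ℕ) : XX n ≤ ∑ t ∈ Icc 1 n, JX_X n t := by
  classical
  unfold XX JX_X
  rw [← Finset.sum_div]
  refine div_le_div_of_nonneg_right ?_ (sq_nonneg _)
  rw [Finset.sum_comm (s := Icc 1 n)]
  refine Finset.sum_le_sum fun Y _ => ?_
  rw [Finset.sum_comm (s := Icc 1 n)]
  refine Finset.sum_le_sum fun μ _ => ?_
  have hterm : ∀ t ∈ Icc 1 n, (0 : ℝ) ≤ if JX_C Y μ t then (1 : ℝ) else 0 := by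
    intro t _
    split_ifs <;> norm_num
  split_ifs with h
  · obtain ⟨t, r, htr, hle, h3⟩ := h
    obtain ⟨q1, q2, -, -, -, -⟩ := JX_parts hle
    have h4 := Finset.single_le_sum hterm (show t ∈ Icc 1 n by simp [q1, q2])
    rw [if_pos ⟨r, htr, hle, h3⟩] at h4
    exact h4
  · exact Finset.sum_nonneg hterm

/-- the event has at least two parts `≥ t` -/
theorem JX_WW {n : ℕ} {μ : n.Partition} {t r : ℕ} (htr : t ≤ r)
    (h : ({t, r} : Multiset ℕ) ≤ μ.parts) : 2 ≤ WW t μ := by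
  unfold WW
  have h1 : ({t, r} : Multiset ℕ) ≤ μ.parts.filter (fun s => t ≤ s) := by
    rw [Multiset.le_filter]
    refine ⟨h, fun a ha => ?_⟩
    simp only [Multiset.insert_eq_cons, Multiset.mem_cons, Multiset.mem_singleton] at ha
    omega
  have h2 := Multiset.card_le_card h1
  simpa using h2

theorem JX_X_le_TT (n t : ℕ) : JX_X n t ≤ TT n 2 t := by
  classical
  unfold JX_X TT
  refine div_le_div_of_nonneg_right ?_ (sq_nonneg _)
  refine Finset.sum_le_sum fun Y _ => Finset.sum_le_sum fun μ _ => ?_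
  by_cases h : JX_C Y μ t
  · rw [if_pos h]
    obtain ⟨r, htr, hle, h3, h4, -⟩ := h
    obtain ⟨-, -, -, -, q5, -⟩ := JX_parts hle
    have hW := JX_WW htr hle
    rw [if_pos ⟨q5, hW, by omega⟩]
  · rw [if_neg h]
    split_ifs <;> norm_num

theorem JX_X_le_sum (n t : ℕ) : JX_X n t ≤
    ∑ r ∈ Icc t n, (((JX_M n t r).card : ℝ) / pp n) * (((JX_E n t r).card : ℝ) / pp n) := by
  classical
  have hp := MU_pp_pos n
  have e : ∑ r ∈ Icc t n, (((JX_M n t r).card : ℝ) / pp n) * (((JX_E n t r).card : ℝ) / pp n) =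
      (∑ r ∈ Icc t n, ((JX_M n t r).card : ℝ) * ((JX_E n t r).card : ℝ)) / (pp n : ℝ) ^ 2 := by
    rw [Finset.sum_div]
    refine Finset.sum_congr rfl fun r _ => ?_
    rw [div_mul_div_comm, sq]
  rw [e]
  unfold JX_X
  refine div_le_div_of_nonneg_right ?_ (sq_nonneg _)
  have e2 : ∀ r, ((JX_M n t r).card : ℝ) * ((JX_E n t r).card : ℝ) =
      ∑ Y ∈ DD n, ∑ μ : n.Partition, if (({t, r} : Multiset ℕ) ≤ μ.parts ∧
        (1 ≤ hn t Y ∧ hn t Y ≤ 2 ∧ 1 ≤ hn r Y ∧
        ∀ x ∈ Hk (SS Y) t, ∀ x' ∈ Hk (SS Y) r, x = x' ∨ x - (t : ℤ) = x' - (r : ℤ)))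
        then (1 : ℝ) else 0 := by
    intro r
    unfold JX_M JX_E
    rw [Finset.card_filter, Finset.card_filter]
    push_cast
    rw [mul_comm, Finset.sum_mul_sum]
    refine Finset.sum_congr rfl fun Y _ => Finset.sum_congr rfl fun μ _ => ?_
    by_cases hA : ({t, r} : Multiset ℕ) ≤ μ.parts
    · by_cases hB : (1 ≤ hn t Y ∧ hn t Y ≤ 2 ∧ 1 ≤ hn r Y ∧
        ∀ x ∈ Hk (SS Y) t, ∀ x' ∈ Hk (SS Y) r, x = x' ∨ x - (t : ℤ) = x' - (r : ℤ))
      · rw [if_pos hA, if_pos hB, if_pos (And.intro hA hB), mul_one]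
      · have hAB : ¬ (({t, r} : Multiset ℕ) ≤ μ.parts ∧ (1 ≤ hn t Y ∧ hn t Y ≤ 2 ∧ 1 ≤ hn r Y ∧
          ∀ x ∈ Hk (SS Y) t, ∀ x' ∈ Hk (SS Y) r, x = x' ∨ x - (t : ℤ) = x' - (r : ℤ))) :=
          fun h => hB h.2
        rw [if_neg hB, if_neg hAB, zero_mul]
    · have hAB : ¬ (({t, r} : Multiset ℕ) ≤ μ.parts ∧ (1 ≤ hn t Y ∧ hn t Y ≤ 2 ∧ 1 ≤ hn r Y ∧
          ∀ x ∈ Hk (SS Y) t, ∀ x' ∈ Hk (SS Y) r, x = x' ∨ x - (t : ℤ) = x' - (r : ℤ))) :=
          fun h => hA h.1
      rw [if_neg hA, if_neg hAB, mul_zero]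
  rw [Finset.sum_congr rfl (fun r _ => e2 r), Finset.sum_comm (s := Icc t n)]
  refine Finset.sum_le_sum fun Y _ => ?_
  rw [Finset.sum_comm (s := Icc t n)]
  refine Finset.sum_le_sum fun μ _ => ?_
  have hterm : ∀ r ∈ Icc t n, (0 : ℝ) ≤ if (({t, r} : Multiset ℕ) ≤ μ.parts ∧
        (1 ≤ hn t Y ∧ hn t Y ≤ 2 ∧ 1 ≤ hn r Y ∧
        ∀ x ∈ Hk (SS Y) t, ∀ x' ∈ Hk (SS Y) r, x = x' ∨ x - (t : ℤ) = x' - (r : ℤ)))
        then (1 : ℝ) else 0 := by
    intro t _
    split_ifs <;> norm_num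
  split_ifs with h
  · obtain ⟨r, htr, hle, h3⟩ := h
    obtain ⟨-, -, -, q4, -, -⟩ := JX_parts hle
    have h4 := Finset.single_le_sum hterm (show r ∈ Icc t n by simp [htr, q4])
    rw [if_pos ⟨hle, h3⟩] at h4
    exact h4
  · exact Finset.sum_nonneg hterm

/-- few hooks of length `t` -/
theorem JX_E_aa (n t r : ℕ) {x : ℝ} (hx : 1 / 2 ≤ x) (hx1 : x ≤ 1) :
    ((JX_E n t r).card : ℝ) / pp n ≤ 4 * aa n t x := by
  classical
  have hp := MU_pp_pos n
  unfold aa
  rw [← mul_div_assoc]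
  refine div_le_div_of_nonneg_right ?_ hp.le
  unfold JX_E
  rw [Finset.card_filter, Finset.mul_sum]
  push_cast
  refine Finset.sum_le_sum fun Y _ => ?_
  have hx0 : 0 ≤ x := by linarith
  split_ifs with h
  · have h1 : x ^ 2 ≤ x ^ hn t Y := pow_le_pow_of_le_one hx0 hx1 h.2.1
    have h2 : (1 / 2 : ℝ) ^ 2 ≤ x ^ 2 := by gcongr
    nlinarith
  · positivity

theorem JX_E_one (h0 : DDc_stmt) (n t r : ℕ) : ((JX_E n t r).card : ℝ) / pp n ≤ 1 := by
  classical
  have hp := MU_pp_pos n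
  rw [div_le_one hp, ← h0 n]
  exact_mod_cast Finset.card_le_card (Finset.filter_subset _ _)

/-- the number of crossing pairs -/
theorem JX_E_cross (h0 : DDc_stmt) (h1 : BD1_stmt) (h2 : BD2_stmt) (h4 : BD4_stmt)
    (hF : FQ_stmt) {n t r : ℕ} {η' : ℝ} (ht : 1 ≤ t) (htr : t < r) (hrn : r ≤ n) (hη : 0 < η')
    (hup : ∀ k ≤ n, (pp (n - k) : ℝ) ≤ Real.exp (-(k * η')) * pp n) :
    ((JX_E n t r).card : ℝ) / pp n ≤ 2 * (Real.exp (-(t * η')) / η') := by
  classical
  have hp := MU_pp_pos n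
  have hr : 1 ≤ r := by omega
  have hs : 1 ≤ r - t := by omega
  obtain ⟨m, rfl⟩ : ∃ m, n = m + r := ⟨n - r, by omega⟩
  have hB := LB_caseB h1 h2 h4 m hr ht htr
  have hC := LB_caseC h1 h2 h4 m hr ht htr
  set B := (LB_T h1 (m + r) hr ht).filter (fun P => P.2.1 = P.2.2) with hBd
  set C := (LB_T h1 (m + r) hr ht).filter (fun P => P.2.1 - (r : ℤ) = P.2.2 - (t : ℤ)) with hCd
  have hsub : JX_E (m + r) t r ⊆ (B ∪ C).image (fun P => P.1) := by
    intro Y hY
    unfold JX_E at hY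
    rw [Finset.mem_filter] at hY
    obtain ⟨hYn, a1, a2, a3, a4⟩ := hY
    have hHt := LB_card_H h1 Y ht
    have hHr := LB_card_H h1 Y hr
    obtain ⟨x, hx⟩ := Finset.card_pos.1 (by omega : 0 < (LB_H h1 Y ht).card)
    obtain ⟨x', hx'⟩ := Finset.card_pos.1 (by omega : 0 < (LB_H h1 Y hr).card)
    have hmem : (⟨Y, x', x⟩ : Σ _ : YoungDiagram, ℤ × ℤ) ∈ LB_T h1 (m + r) hr ht := by
      simp only [LB_T, Finset.mem_sigma, Finset.mem_product]
      exact ⟨hYn, hx', hx⟩
    rw [Finset.mem_image]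
    rcases a4 x ((LB_mem_H h1 Y ht).1 hx) x' ((LB_mem_H h1 Y hr).1 hx') with e | e
    · refine ⟨⟨Y, x', x⟩, ?_, rfl⟩
      rw [Finset.mem_union]
      left
      rw [hBd, Finset.mem_filter]
      exact ⟨hmem, e.symm⟩
    · refine ⟨⟨Y, x', x⟩, ?_, rfl⟩
      rw [Finset.mem_union]
      right
      rw [hCd, Finset.mem_filter]
      exact ⟨hmem, e.symm⟩
  have hcard : (JX_E (m + r) t r).card ≤ 2 * ∑ Y ∈ DD m, ((r - t) + hn (r - t) Y) := by
    have := (Finset.card_le_card hsub).trans (Finset.card_image_le.trans (Finset.card_union_le _ _))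
    omega
  have hcard' : ((JX_E (m + r) t r).card : ℝ) ≤
      2 * (((r - t : ℕ) : ℝ) * pp m + LB_HH (r - t) m) := by
    have h5 : ((JX_E (m + r) t r).card : ℝ) ≤
        ((2 * ∑ Y ∈ DD m, ((r - t) + hn (r - t) Y) : ℕ) : ℝ) := by exact_mod_cast hcard
    refine h5.trans (le_of_eq ?_)
    unfold LB_HH
    rw [Nat.cast_mul, Nat.cast_sum, Nat.cast_ofNat]
    congr 1
    simp only [Nat.cast_add]
    rw [Finset.sum_add_distrib, Finset.sum_const, nsmul_eq_mul, h0 m]
    ring
  have hu := hup r (by omega)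
  have hv := LB_up h0 hF hs hη hup r (by omega)
  rw [Nat.add_sub_cancel] at hu hv
  have hEd := LB_Ed hη hs
  have hE0 := (LB_E_pos hη hs).le
  set s : ℝ := ((r - t : ℕ) : ℝ) with hsd
  have hs0 : 0 ≤ s := Nat.cast_nonneg _
  have hrs : (r : ℝ) = t + s := by
    rw [hsd, Nat.cast_sub htr.le]; ring
  rw [div_le_iff₀ hp]
  refine hcard'.trans ?_
  have h6 : s * pp m + LB_HH (r - t) m ≤ Real.exp (-(r * η')) * pp (m + r) * (s + 1 / η') := by
    calc s * pp m + LB_HH (r - t) m ≤ s * (Real.exp (-(r * η')) * pp (m + r)) +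
          Real.exp (-(r * η')) * pp (m + r) * (s * LB_E η' (r - t)) := by gcongr
      _ = Real.exp (-(r * η')) * pp (m + r) * (s * (1 + LB_E η' (r - t))) := by ring
      _ ≤ _ := by gcongr
  have h7 : Real.exp (-(r * η')) * (s + 1 / η') ≤ Real.exp (-(t * η')) / η' := by
    have h8 := Real.add_one_le_exp (s * η')
    have h9 : Real.exp (-(r * η')) = Real.exp (-(t * η')) * Real.exp (-(s * η')) := by
      rw [← Real.exp_add, hrs]; congr 1; ring
    have h10 : Real.exp (s * η') * Real.exp (-(s * η')) = 1 := by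
      rw [← Real.exp_add]; simp
    have h11 := Real.exp_pos (-(s * η'))
    rw [h9]
    calc Real.exp (-(t * η')) * Real.exp (-(s * η')) * (s + 1 / η') =
          Real.exp (-(t * η')) / η' * ((s * η' + 1) * Real.exp (-(s * η'))) := by
          field_simp
      _ ≤ Real.exp (-(t * η')) / η' * (Real.exp (s * η') * Real.exp (-(s * η'))) := by gcongr
      _ = _ := by rw [h10, mul_one]
  calc 2 * (s * pp m + LB_HH (r - t) m) ≤
        2 * (Real.exp (-(r * η')) * pp (m + r) * (s + 1 / η')) := by gcongr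
    _ = 2 * (Real.exp (-(r * η')) * (s + 1 / η')) * pp (m + r) := by ring
    _ ≤ 2 * (Real.exp (-(t * η')) / η') * pp (m + r) := by gcongr

theorem JX_M_le {n t r : ℕ} {η' : ℝ}
    (hup : ∀ k ≤ n, (pp (n - k) : ℝ) ≤ Real.exp (-(k * η')) * pp n) :
    ((JX_M n t r).card : ℝ) / pp n ≤ Real.exp (-(t * η')) * Real.exp (-(r * η')) := by
  classical
  have hp := MU_pp_pos n
  rw [div_le_iff₀ hp]
  have h := MU_count2 n ({t, r} : Multiset ℕ) η' hup
  refine h.trans (le_of_eq ?_)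
  rw [← Real.exp_add]
  congr 2
  simp only [Multiset.insert_eq_cons, Multiset.sum_cons, Multiset.sum_singleton]
  push_cast
  ring

/-- the sum over `r`, given `t` -/
theorem JX_sum_r (h0 : DDc_stmt) {n t : ℕ} {η' P : ℝ} (htn : t ≤ n) (hη : 0 < η')
    (hup : ∀ k ≤ n, (pp (n - k) : ℝ) ≤ Real.exp (-(k * η')) * pp n)
    (hP : ∀ r : ℕ, t < r → r ≤ n → ((JX_E n t r).card : ℝ) / pp n ≤ P) (hP0 : 0 ≤ P) :
    JX_X n t ≤ Real.exp (-(t * η')) ^ 2 +
      Real.exp (-(t * η')) * (Real.exp (-(t * η')) / (1 - Real.exp (-η'))) * P := by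
  have hp := MU_pp_pos n
  refine (JX_X_le_sum n t).trans ?_
  rw [← Finset.add_sum_Ioc_eq_sum_Icc htn]
  refine add_le_add ?_ ?_
  · have a1 := JX_M_le (t := t) (r := t) hup
    have a2 := JX_E_one h0 n t t
    have a3 : 0 ≤ ((JX_E n t t).card : ℝ) / pp n := by positivity
    calc _ ≤ (Real.exp (-(t * η')) * Real.exp (-(t * η'))) * 1 := by gcongr
      _ = _ := by ring
  · have a4 : ∀ r ∈ Ioc t n, (((JX_M n t r).card : ℝ) / pp n) * (((JX_E n t r).card : ℝ) / pp n) ≤
        Real.exp (-(t * η')) * P * Real.exp (-(r * η')) := by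
      intro r hr
      rw [Finset.mem_Ioc] at hr
      have a1 := JX_M_le (t := t) (r := r) hup
      have a2 := hP r hr.1 hr.2
      have a3 : 0 ≤ ((JX_E n t r).card : ℝ) / pp n := by positivity
      calc _ ≤ (Real.exp (-(t * η')) * Real.exp (-(r * η'))) * P := by gcongr
        _ = _ := by ring
    refine (Finset.sum_le_sum a4).trans ?_
    rw [← Finset.mul_sum]
    have a5 : ∑ r ∈ Ioc t n, Real.exp (-((r : ℝ) * η')) ≤
        ∑ r ∈ Icc t n, Real.exp (-((r : ℝ) * η')) := by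
      refine Finset.sum_le_sum_of_subset_of_nonneg Finset.Ioc_subset_Icc_self ?_
      intro r _ _
      positivity
    have a6 := MU_geom2 hη t n
    calc Real.exp (-(t * η')) * P * ∑ r ∈ Ioc t n, Real.exp (-((r : ℝ) * η')) ≤
          Real.exp (-(t * η')) * P * (Real.exp (-(t * η')) / (1 - Real.exp (-η'))) := by
          gcongr
          exact a5.trans a6
      _ = _ := by ring

theorem JX_yprime {L η C1 C2 : ℝ} (F : B2_facts L η C1 C2) {r : ℕ}
    (hr : (r : ℝ) ≤ Real.exp (L / 2) * L ^ 2) :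
    Real.exp (-(r * (η - C2 * Real.exp (-(3 / 4 * L))))) ≤ 1.01 * Real.exp (-(r * η)) := by
  have h1 : r * (|C2| * Real.exp (-(3 / 4 * L))) ≤ 0.009 := by
    have e1 : Real.exp (-(3 / 4 * L)) = Real.exp (-(1 / 4 * L)) * Real.exp (-(L / 2)) := by
      rw [← Real.exp_add]; congr 1; ring
    have e2 : Real.exp (L / 2) * Real.exp (-(L / 2)) = 1 := by
      rw [← Real.exp_add]; simp
    calc r * (|C2| * Real.exp (-(3 / 4 * L))) ≤
          Real.exp (L / 2) * L ^ 2 * (|C2| * Real.exp (-(3 / 4 * L))) := by gcongr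
      _ = |C2| * L ^ 2 * Real.exp (-(1 / 4 * L)) * (Real.exp (L / 2) * Real.exp (-(L / 2))) := by
          rw [e1]; ring
      _ = |C2| * L ^ 2 * Real.exp (-(1 / 4 * L)) := by rw [e2, mul_one]
      _ ≤ _ := F.f3
  have h2 : -(r * (η - C2 * Real.exp (-(3 / 4 * L)))) ≤ 0.009 + -(r * η) := by
    have h3 : C2 * Real.exp (-(3 / 4 * L)) ≤ |C2| * Real.exp (-(3 / 4 * L)) := by
      gcongr; exact le_abs_self C2
    have h4 := mul_le_mul_of_nonneg_left h3 (Nat.cast_nonneg (α := ℝ) r)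
    linarith
  calc Real.exp (-(r * (η - C2 * Real.exp (-(3 / 4 * L))))) ≤ Real.exp (0.009 + -(r * η)) :=
        Real.exp_le_exp.2 h2
    _ = Real.exp 0.009 * Real.exp (-(r * η)) := Real.exp_add _ _
    _ ≤ _ := by
        have := LB_exp009
        gcongr

/-- few hooks of length `t`: probability, in the regime C1 -/
theorem JX_aa {L η C1 C2 : ℝ} (F : B2_facts L η C1 C2)
    (f8 : Real.exp (-(L / 16)) + C1 * L ^ 3 * Real.exp (-(L / 8)) ≤ 1 / L ^ 3)
    {n r : ℕ} (hr1 : 1 ≤ r)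
    (hr : (r : ℝ) ≤ Real.exp (L / 2) * L ^ 2) (h80 : 80 < r * η)
    (hq : r * Real.exp (-(r * η)) < 8 * L)
    (hup : ∀ ζ : ℝ, 0 ≤ ζ → ζ ≤ 1 → aa n r (1 - ζ) ≤
      Real.exp (-(ζ * (r * Real.exp (-(r * η))))) +
      C1 * Real.exp (-(3 / 4 * L)) * r * (ζ * (r * Real.exp (-(r * η)))) *
        Real.exp (2 * (ζ * (r * Real.exp (-(r * η)))))) :
    Real.exp (-(r * η)) / η ≤ 32 ∧ ∃ x : ℝ, 1 / 2 ≤ x ∧ x ≤ 1 ∧
      aa n r x ≤ Real.exp (-(L / 8 * (Real.exp (-(r * η)) / η))) + 1 / L ^ 3 := by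
  have hC1 := F.hC1
  have hL := F.hL
  have hη : 0 < η := lt_of_lt_of_le (by positivity) F.low
  have hr0 : (0 : ℝ) < r := by exact_mod_cast hr1
  have hLpos : 0 < L := by linarith
  set y := Real.exp (-(r * η)) with hy
  have hypos : 0 < y := Real.exp_pos _
  set u := y / η with hu
  have hupos : 0 < u := by positivity
  have hrL : L / 4 ≤ r * η := by
    by_contra hcon
    push Not at hcon
    have h1 : Real.exp (-(L / 4)) ≤ y := Real.exp_le_exp.2 (by linarith)
    have h2 : 40 * Real.exp (L / 2) ≤ r := by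
      have h3 : 80 ≤ r * (2 * Real.exp (-(L / 2))) := by
        refine h80.le.trans ?_
        gcongr
        exact F.up
      have e2 : Real.exp (L / 2) * Real.exp (-(L / 2)) = 1 := by
        rw [← Real.exp_add]; simp
      have h4 := mul_le_mul_of_nonneg_right h3 (Real.exp_pos (L / 2)).le
      have h5 : r * (2 * Real.exp (-(L / 2))) * Real.exp (L / 2) = 2 * r := by
        calc _ = 2 * r * (Real.exp (L / 2) * Real.exp (-(L / 2))) := by ring
          _ = _ := by rw [e2, mul_one]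
      rw [h5] at h4
      linarith
    have h6 : 40 * Real.exp (L / 4) ≤ r * y := by
      calc 40 * Real.exp (L / 4) = (40 * Real.exp (L / 2)) * Real.exp (-(L / 4)) := by
            rw [mul_assoc, ← Real.exp_add]; congr 2; ring
        _ ≤ r * y := by gcongr
    have h7 := Real.add_one_le_exp (L / 4)
    linarith
  have hqu : r * y = r * η * u := by rw [hu]; field_simp
  have hqu' : L / 4 * u ≤ r * y := by rw [hqu]; gcongr
  have hu32 : u ≤ 32 := by
    by_contra hcon
    push Not at hcon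
    nlinarith
  refine ⟨hu32, ?_⟩
  have hgen : ∀ ζ : ℝ, 0 ≤ ζ → ζ ≤ 1 / 2 → ζ * (r * y) ≤ L / 16 →
      Real.exp (-(ζ * (r * y))) ≤ Real.exp (-(L / 8 * u)) + Real.exp (-(L / 16)) →
      aa n r (1 - ζ) ≤ Real.exp (-(L / 8 * u)) + 1 / L ^ 3 := by
    intro ζ h0 h1 h2 h3
    refine (hup ζ h0 (by linarith)).trans ?_
    have h4 : C1 * Real.exp (-(3 / 4 * L)) * r * (ζ * (r * y)) * Real.exp (2 * (ζ * (r * y))) ≤
        C1 * L ^ 3 * Real.exp (-(L / 8)) := by
      calc C1 * Real.exp (-(3 / 4 * L)) * r * (ζ * (r * y)) * Real.exp (2 * (ζ * (r * y))) ≤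
          C1 * Real.exp (-(3 / 4 * L)) * (Real.exp (L / 2) * L ^ 2) * (L / 16) *
            Real.exp (2 * (L / 16)) := by gcongr
        _ = C1 * L ^ 3 * (Real.exp (-(3 / 4 * L)) * Real.exp (L / 2) *
            Real.exp (2 * (L / 16))) / 16 := by ring
        _ = C1 * L ^ 3 * Real.exp (-(L / 8)) / 16 := by
            rw [← Real.exp_add, ← Real.exp_add]
            congr 3
            ring
        _ ≤ _ := by
            have : 0 ≤ C1 * L ^ 3 * Real.exp (-(L / 8)) := by positivity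
            linarith
    linarith
  rcases le_total (r * y) (L / 8) with h | h
  · refine ⟨1 - 1 / 2, by norm_num, by norm_num, hgen (1 / 2) (by norm_num) le_rfl ?_ ?_⟩
    · linarith
    · have : Real.exp (-(1 / 2 * (r * y))) ≤ Real.exp (-(L / 8 * u)) := by
        apply Real.exp_le_exp.2
        linarith
      linarith [Real.exp_pos (-(L / 16))]
  · have hqpos : 0 < r * y := by positivity
    refine ⟨1 - L / (16 * (r * y)), ?_, ?_, hgen (L / (16 * (r * y))) (by positivity) ?_ ?_ ?_⟩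
    · have : L / (16 * (r * y)) ≤ 1 / 2 := by
        rw [div_le_div_iff₀ (by positivity) (by norm_num)]
        linarith
      linarith
    · have : 0 ≤ L / (16 * (r * y)) := by positivity
      linarith
    · rw [div_le_div_iff₀ (by positivity) (by norm_num)]
      linarith
    · have : L / (16 * (r * y)) * (r * y) = L / 16 := by field_simp
      rw [this]
    · have : L / (16 * (r * y)) * (r * y) = L / 16 := by field_simp
      rw [this]
      linarith [Real.exp_pos (-(L / 8 * u))]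

theorem JX_sq {a b : ℝ} (h : a ^ 2 ≤ b ^ 2) (hb : 0 ≤ b) : a ≤ b := by
  nlinarith [sq_nonneg (a - b), sq_nonneg (a + b), abs_le_of_sq_le_sq h hb, le_abs_self a]

/-- the smaller of the two bounds -/
theorem JX_min {L u b P : ℝ} (hL : 100 ≤ L) (hu : 0 < u) (hb : b ≤ 2.04 * u)
    (hPa : P ≤ 4 * (Real.exp (-(L / 8 * u)) + 1 / L ^ 3)) (hPb : P ≤ b) :
    P ≤ 4 / L ^ 3 + 17 / √L * Real.exp (-(L / 32 * u)) := by
  have hLpos : 0 < L := by linarith
  have hs : 0 < √L := Real.sqrt_pos.2 hLpos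
  have hss : √L ^ 2 = L := Real.sq_sqrt hLpos.le
  set e := Real.exp (-(L / 32 * u)) with he
  have he0 : 0 < e := Real.exp_pos _
  have he1 : e ≤ 1 := Real.exp_le_one_iff.2 (by
    have : 0 < L / 32 * u := by positivity
    linarith)
  have ha : Real.exp (-(L / 8 * u)) = e ^ 4 := by
    rw [he, ← Real.exp_nat_mul]; congr 1; push_cast; ring
  have hue : u * e ≤ 32 / L := by
    have h2 : L / 32 * u ≤ Real.exp (L / 32 * u) := by
      linarith [Real.add_one_le_exp (L / 32 * u)]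
    have h4 : Real.exp (L / 32 * u) * e = 1 := by
      rw [he, ← Real.exp_add]; simp
    have h5 : L / 32 * u * e ≤ 1 := by
      calc L / 32 * u * e ≤ Real.exp (L / 32 * u) * e := by gcongr
        _ = 1 := h4
    rw [le_div_iff₀ hLpos]
    linarith
  have hL3 : 0 < 1 / L ^ 3 := by positivity
  have e43 : 4 / L ^ 3 = 4 * (1 / L ^ 3) := by ring
  rcases le_or_gt (P - 4 / L ^ 3) 0 with h | h
  · have : 0 ≤ 17 / √L * e := by positivity
    linarith
  · have h1 : P - 4 / L ^ 3 ≤ 4 * e ^ 4 := by rw [ha] at hPa; linarith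
    have h2 : P - 4 / L ^ 3 ≤ 2.04 * u := by linarith
    have h3 : (P - 4 / L ^ 3) ^ 2 ≤ (17 / √L * e) ^ 2 := by
      calc (P - 4 / L ^ 3) ^ 2 = (P - 4 / L ^ 3) * (P - 4 / L ^ 3) := by ring
        _ ≤ (4 * e ^ 4) * (2.04 * u) := by gcongr
        _ = 8.16 * e ^ 3 * (u * e) := by ring
        _ ≤ 8.16 * e ^ 3 * (32 / L) := by gcongr
        _ = 8.16 * e ^ 2 * e * (32 / L) := by ring
        _ ≤ 8.16 * e ^ 2 * 1 * (32 / L) := by gcongr
        _ = 261.12 / L * e ^ 2 := by ring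
        _ ≤ 289 / L * e ^ 2 := by gcongr; norm_num
        _ = (17 / √L * e) ^ 2 := by
            rw [mul_pow, div_pow, hss]; norm_num
    have h4 : P - 4 / L ^ 3 ≤ 17 / √L * e := by
      refine JX_sq h3 (by positivity)
    linarith

/-- regime C1 -/
theorem JX_C1 {L η C1 C2 : ℝ} (F : B2_facts L η C1 C2) {n t : ℕ} {x : ℝ}
    (h0 : DDc_stmt) (h1 : BD1_stmt) (h2 : BD2_stmt) (h4 : BD4_stmt) (hF : FQ_stmt)
    (ht : 1 ≤ t) (htn : t ≤ n) (htL : (t : ℝ) ≤ Real.exp (L / 2) * L ^ 2)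
    (hup : ∀ k ≤ n, (pp (n - k) : ℝ) ≤
      Real.exp (-(k * (η - C2 * Real.exp (-(3 / 4 * L))))) * pp n)
    (hu32 : Real.exp (-(t * η)) / η ≤ 32) (hx : 1 / 2 ≤ x) (hx1 : x ≤ 1)
    (hax : aa n t x ≤ Real.exp (-(L / 8 * (Real.exp (-(t * η)) / η))) + 1 / L ^ 3) :
    JX_X n t ≤ (34 * Real.exp 32 * η + 134 * Real.exp 32 / L ^ 3) *
        (η * (Real.exp (-(t * η)) / η) * Real.exp (-(1 * (Real.exp (-(t * η)) / η)))) +
      1140 / (L * √L) *
        (η * (Real.exp (-(t * η)) / η) * Real.exp (-(L / 64 * (Real.exp (-(t * η)) / η)))) := by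
  have hL := F.hL
  have hη : 0 < η := lt_of_lt_of_le (by positivity) F.low
  have hLpos : 0 < L := by linarith
  have hs : 0 < √L := Real.sqrt_pos.2 hLpos
  have hyp := JX_yprime F htL
  obtain ⟨g1, g2, g3⟩ := B2_eta F
  set η' := η - C2 * Real.exp (-(3 / 4 * L)) with hη'
  have hη'pos : 0 < η' := lt_of_lt_of_le (by positivity) g1
  set y := Real.exp (-(t * η)) with hy
  set z := Real.exp (-(t * η')) with hz
  have hy0 : 0 < y := Real.exp_pos _
  have hz0 : 0 < z := Real.exp_pos _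
  set u := y / η with hu
  have hu0 : 0 < u := by positivity
  have hηu : η * u = y := by rw [hu]; field_simp
  set P := min (4 * (Real.exp (-(L / 8 * u)) + 1 / L ^ 3)) (2 * (z / η')) with hP
  have hP0 : 0 ≤ P := by
    rw [hP]
    apply le_min <;> positivity
  have hb : 2 * (z / η') ≤ 2.04 * u := by
    calc 2 * (z / η') ≤ 2 * ((1.01 * y) / (0.995 * η)) := by gcongr
      _ = (2.02 / 0.995) * (y / η) := by
          rw [mul_div_mul_comm]; ring
      _ ≤ _ := by
          rw [← hu]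
          gcongr
          norm_num
  have hPle : P ≤ 4 / L ^ 3 + 17 / √L * Real.exp (-(L / 32 * u)) :=
    JX_min hL hu0 hb (min_le_left _ _) (min_le_right _ _)
  have hXle := JX_sum_r (P := P) h0 htn hη'pos hup (by
    intro r htr hrn
    rw [hP]
    apply le_min
    · exact (JX_E_aa n t r hx hx1).trans (by gcongr)
    · exact JX_E_cross h0 h1 h2 h4 hF ht htr hrn hη'pos hup) hP0
  rw [← hz] at hXle
  refine hXle.trans ?_
  have hD : 0 < 1 - Real.exp (-η') := lt_of_lt_of_le (by positivity) g3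
  have hzD : z / (1 - Real.exp (-η')) ≤ 1.0203 * u := by
    calc z / (1 - Real.exp (-η')) ≤ (1.01 * y) / (0.99 * η) := by gcongr
      _ = (1.01 / 0.99) * (y / η) := by rw [mul_div_mul_comm]
      _ ≤ _ := by
          rw [← hu]
          gcongr
          norm_num
  have hzD0 : 0 ≤ z / (1 - Real.exp (-η')) := by positivity
  -- u against exponentials
  have h5 : u ≤ 32 * Real.exp 32 * Real.exp (-(1 * u)) := by
    have h6 : 1 ≤ Real.exp 32 * Real.exp (-(1 * u)) := by
      rw [← Real.exp_add]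
      apply Real.one_le_exp
      linarith
    nlinarith
  have h7 : u * Real.exp (-(L / 32 * u)) ≤ 64 / L * Real.exp (-(L / 64 * u)) := by
    have h2 : L / 64 * u ≤ Real.exp (L / 64 * u) := by
      linarith [Real.add_one_le_exp (L / 64 * u)]
    have h3 : Real.exp (-(L / 32 * u)) = Real.exp (-(L / 64 * u)) * Real.exp (-(L / 64 * u)) := by
      rw [← Real.exp_add]; congr 1; ring
    have h4 : Real.exp (L / 64 * u) * Real.exp (-(L / 64 * u)) = 1 := by
      rw [← Real.exp_add]; simp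
    calc u * Real.exp (-(L / 32 * u)) = 64 / L * (L / 64 * u) *
          (Real.exp (-(L / 64 * u)) * Real.exp (-(L / 64 * u))) := by
          rw [h3]; field_simp
      _ ≤ 64 / L * Real.exp (L / 64 * u) *
          (Real.exp (-(L / 64 * u)) * Real.exp (-(L / 64 * u))) := by gcongr
      _ = 64 / L * Real.exp (-(L / 64 * u)) *
          (Real.exp (L / 64 * u) * Real.exp (-(L / 64 * u))) := by ring
      _ = _ := by rw [h4, mul_one]
  have t1 : z ^ 2 ≤ 34 * Real.exp 32 * η * (η * u * Real.exp (-(1 * u))) := by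
    calc z ^ 2 ≤ (1.01 * y) ^ 2 := by gcongr
      _ = 1.0201 * η * (η * u) * u := by rw [← hηu]; ring
      _ ≤ 1.0201 * η * (η * u) * (32 * Real.exp 32 * Real.exp (-(1 * u))) := by gcongr
      _ = (1.0201 * 32) * (Real.exp 32 * η * (η * u * Real.exp (-(1 * u)))) := by ring
      _ ≤ 34 * (Real.exp 32 * η * (η * u * Real.exp (-(1 * u)))) := by
          gcongr
          norm_num
      _ = _ := by ring
  have t2 : z * (z / (1 - Real.exp (-η'))) * P ≤
      134 * Real.exp 32 / L ^ 3 * (η * u * Real.exp (-(1 * u))) +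
      1140 / (L * √L) * (η * u * Real.exp (-(L / 64 * u))) := by
    calc z * (z / (1 - Real.exp (-η'))) * P ≤
          (1.01 * y) * (1.0203 * u) * (4 / L ^ 3 + 17 / √L * Real.exp (-(L / 32 * u))) := by
          gcongr
      _ = (1.01 * 1.0203 * 4) * ((η * u) / L ^ 3 * u) +
          (1.01 * 1.0203 * 17) * ((η * u) / √L * (u * Real.exp (-(L / 32 * u)))) := by
          rw [← hηu]; ring
      _ ≤ (1.01 * 1.0203 * 4) * ((η * u) / L ^ 3 * (32 * Real.exp 32 * Real.exp (-(1 * u)))) +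
          (1.01 * 1.0203 * 17) * ((η * u) / √L * (64 / L * Real.exp (-(L / 64 * u)))) := by
          gcongr
      _ = (1.01 * 1.0203 * 4 * 32) * (Real.exp 32 / L ^ 3 * (η * u * Real.exp (-(1 * u)))) +
          (1.01 * 1.0203 * 17 * 64) * (1 / (L * √L) * (η * u * Real.exp (-(L / 64 * u)))) := by
          field_simp
      _ ≤ 134 * (Real.exp 32 / L ^ 3 * (η * u * Real.exp (-(1 * u)))) +
          1140 * (1 / (L * √L) * (η * u * Real.exp (-(L / 64 * u)))) := by
          gcongr <;> norm_num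
      _ = _ := by ring
  calc _ ≤ 34 * Real.exp 32 * η * (η * u * Real.exp (-(1 * u))) +
        (134 * Real.exp 32 / L ^ 3 * (η * u * Real.exp (-(1 * u))) +
        1140 / (L * √L) * (η * u * Real.exp (-(L / 64 * u)))) := add_le_add t1 t2
    _ = _ := by ring

theorem JX_tend (K : ℝ) (j : ℕ) {a : ℝ} (ha : 0 < a) :
    Tendsto (fun L : ℝ => K * L ^ j * Real.exp (-(a * L))) atTop (𝓝 0) := by
  have h := (isLittleO_pow_exp_pos_mul_atTop j ha)
  have h2 := h.tendsto_div_nhds_zero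
  have h3 : Tendsto (fun L : ℝ => K * (L ^ j / Real.exp (a * L))) atTop (nhds (K * 0)) :=
    h2.const_mul K
  rw [mul_zero] at h3
  refine h3.congr fun L => ?_
  rw [Real.exp_neg, div_eq_mul_inv]
  ring

theorem JX_XX_nonneg (n : ℕ) : 0 ≤ XX n := by
  classical
  unfold XX
  refine div_nonneg (Finset.sum_nonneg fun Y _ => Finset.sum_nonneg fun μ _ => ?_) (sq_nonneg _)
  split_ifs <;> norm_num

/-- row JX -/
theorem row_JX (h0 : DDc_stmt) (h1 : BD1_stmt) (h2 : BD2_stmt) (h4 : BD4_stmt) (hF : FQ_stmt) :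
    JX_stmt := by
  intro η C N0 C1 N1 C2 N2 hP hE hM
  have hlog : Tendsto (fun n : ℕ => Real.log (n : ℝ)) atTop atTop :=
    Real.tendsto_log_atTop.comp tendsto_natCast_atTop_atTop
  have hbound : ∀ᶠ n : ℕ in atTop, XX n * (Real.log n) ^ 2 ≤
      1 * (Real.log n) ^ 2 * Real.exp (-(1 * Real.log n)) +
      136 * Real.exp 32 * (Real.log n) ^ 2 * Real.exp (-(1 / 2 * Real.log n)) +
      268 * Real.exp 32 / Real.log n + 145920 / √(Real.log n) := by
    have hev := hlog.eventually (B2_facts_ev C1 C2 hE.hC)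
    have hf8 := hlog.eventually (B2_ev 1 3 (a := 1 / 16) (ε := 1 / 2) (by norm_num) (by norm_num))
    have hf8' := hlog.eventually
      (B2_ev C1 6 (a := 1 / 8) (ε := 1 / 2) (by norm_num) (by norm_num))
    have hk2 := hlog.eventually
      (B2_ev 2 0 (a := 1 / 2) (ε := Real.exp (-80) / 12) (by norm_num) (by positivity))
    have hev2 : ∀ᶠ n : ℕ in atTop, N0 ≤ n ∧ N1 ≤ n ∧ N2 ≤ n ∧ 1 ≤ n := by
      filter_upwards [eventually_ge_atTop N0, eventually_ge_atTop N1, eventually_ge_atTop N2,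
        eventually_ge_atTop 1] with n h0 h1 h2 h3
      exact ⟨h0, h1, h2, h3⟩
    filter_upwards [hev, hf8, hf8', hk2, hev2] with n hfacts e8 e8' ek2 ⟨hn0, hn1, hn2, hn3⟩
    have hnpos : (0 : ℝ) < n := by exact_mod_cast hn3
    set L := Real.log (n : ℝ) with hL
    have hexpL : Real.exp L = n := Real.exp_log hnpos
    have hsqrt : √(n : ℝ) = Real.exp (L / 2) := by
      rw [Real.sqrt_eq_rpow, Real.rpow_def_of_pos hnpos, ← hL]
      congr 1
      ring
    have hp34 : (n : ℝ) ^ ((3 / 4) : ℝ) = Real.exp (3 / 4 * L) := by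
      rw [Real.rpow_def_of_pos hnpos, ← hL]
      congr 1
      ring
    have hm34 : (n : ℝ) ^ (-(3 / 4) : ℝ) = Real.exp (-(3 / 4 * L)) := by
      rw [Real.rpow_def_of_pos hnpos, ← hL]
      congr 1
      ring
    have hlow : Real.exp (-(L / 2)) / 2 ≤ η n := by
      have := hP.low n hn0
      rw [hsqrt] at this
      have e : Real.exp (-(L / 2)) / 2 = 1 / (2 * Real.exp (L / 2)) := by
        rw [Real.exp_neg]; field_simp
      rw [e]; exact this
    have hup : η n ≤ 2 * Real.exp (-(L / 2)) := by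
      have := hP.up n hn0
      rw [hsqrt] at this
      have e : 2 * Real.exp (-(L / 2)) = 2 / Real.exp (L / 2) := by
        rw [Real.exp_neg]; field_simp
      rw [e]; exact this
    have F := hfacts (η n) hlow hup
    have hLL := F.hL
    have hLpos : 0 < L := by linarith
    have hs : 0 < √L := Real.sqrt_pos.2 hLpos
    have hη : 0 < η n := lt_of_lt_of_le (by positivity) F.low
    have hη1 : η n ≤ 1 := by
      have := F.up
      have := F.f10
      linarith
    have hL3 : 0 < L ^ 3 := by positivity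
    have f8 : Real.exp (-(L / 16)) + C1 * L ^ 3 * Real.exp (-(L / 8)) ≤ 1 / L ^ 3 := by
      rw [le_div_iff₀ hL3]
      have a1 : (1 : ℝ) / 16 * L = L / 16 := by ring
      have a2 : (1 : ℝ) / 8 * L = L / 8 := by ring
      rw [a1] at e8
      rw [a2] at e8'
      have a3 : (Real.exp (-(L / 16)) + C1 * L ^ 3 * Real.exp (-(L / 8))) * L ^ 3 =
          1 * L ^ 3 * Real.exp (-(L / 16)) + C1 * L ^ 6 * Real.exp (-(L / 8)) := by ring
      rw [a3]
      linarith
    have hk2' : ((2 : ℕ) : ℝ) ≤ Real.exp (-80) / 12 * Real.exp (L / 2) := by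
      have a1 : (1 : ℝ) / 2 * L = L / 2 := by ring
      rw [a1, pow_zero, mul_one] at ek2
      have e2 : Real.exp (-(L / 2)) * Real.exp (L / 2) = 1 := by
        rw [← Real.exp_add]; simp
      push_cast
      calc (2 : ℝ) = 2 * (Real.exp (-(L / 2)) * Real.exp (L / 2)) := by rw [e2, mul_one]
        _ = 2 * Real.exp (-(L / 2)) * Real.exp (L / 2) := by ring
        _ ≤ _ := by gcongr
    set G1 : ℕ → ℝ := fun t => η n * (Real.exp (-(t * η n)) / η n) *
      Real.exp (-(1 * (Real.exp (-(t * η n)) / η n))) with hG1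
    set G2 : ℕ → ℝ := fun t => η n * (Real.exp (-(t * η n)) / η n) *
      Real.exp (-(L / 64 * (Real.exp (-(t * η n)) / η n))) with hG2
    have hall : ∀ t ∈ Icc 1 n, JX_X n t ≤ Real.exp (-(2 * L)) +
        ((34 * Real.exp 32 * η n + 134 * Real.exp 32 / L ^ 3) * G1 t +
          1140 / (L * √L) * G2 t) := by
      intro r hr
      rw [Finset.mem_Icc] at hr
      have hr1 : 1 ≤ r := hr.1
      have hrn : (r : ℝ) ≤ Real.exp L := by
        rw [hexpL]; exact_mod_cast hr.2
      have hX : 0 ≤ (34 * Real.exp 32 * η n + 134 * Real.exp 32 / L ^ 3) * G1 r +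
          1140 / (L * √L) * G2 r := by
        simp only [hG1, hG2]
        positivity
      have hbigζ : ∀ ζ : ℝ, 0 ≤ ζ → ζ ≤ 1 → aa n r (1 - ζ) ≤
          C1 * Real.exp (3 / 4 * L) * Real.exp (-(ζ * lam (η n) r)) := by
        intro ζ hζ hζ1
        have := hE.big n hn1 r hr1 ζ hζ hζ1
        rwa [hp34] at this
      have hbig : aa n r (1 / 2) ≤
          C1 * Real.exp (3 / 4 * L) * Real.exp (-(1 / 2 * lam (η n) r)) := by
        have := hbigζ (1 / 2) (by norm_num) (by norm_num)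
        norm_num at this ⊢
        exact this
      have hmu : ∀ c : ℝ, 1 ≤ c →
          c * Real.exp (-(r * (η n - C2 * Real.exp (-(3 / 4 * L))))) ≤ 1 / 2 →
          bb n r c ≤ Real.exp (-(r * (η n - C2 * Real.exp (-(3 / 4 * L))))) *
          (Real.exp (2 * c * (Real.exp (-(r * (η n - C2 * Real.exp (-(3 / 4 * L))))) /
            (1 - Real.exp (-(η n - C2 * Real.exp (-(3 / 4 * L))))))) - 1) := by
        intro c hc hc2
        have := hM.mu n hn2 r hr1 c hc
        rw [hm34] at this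
        exact this hc2
      have hTT := JX_X_le_TT n r
      rcases le_or_gt ((r : ℝ) * η n) 80 with h80 | h80
      · have := B2_A F hr1 hk2' h80 hbig
        linarith
      · rcases le_or_gt (8 * L) (r * Real.exp (-(r * η n))) with hq | hq
        · have := B2_B (k := 2) F hr1 hrn h80 hq hbig hmu
          linarith
        · rcases le_or_gt (r : ℝ) (Real.exp (L / 2) * L ^ 2) with hrL | hrL
          · have hupζ : ∀ ζ : ℝ, 0 ≤ ζ → ζ ≤ 1 → aa n r (1 - ζ) ≤
                Real.exp (-(ζ * (r * Real.exp (-(r * η n))))) +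
                C1 * Real.exp (-(3 / 4 * L)) * r * (ζ * (r * Real.exp (-(r * η n)))) *
                Real.exp (2 * (ζ * (r * Real.exp (-(r * η n))))) := by
              intro ζ hζ hζ1
              have hy : Real.exp (-(r * η n)) ≤ 1 / 2 := by
                refine le_trans (Real.exp_le_exp.2 (by linarith : -(r * η n) ≤ -80)) ?_
                have := B2_e80
                linarith
              have := hE.up n hn1 r hr1 hy ζ hζ hζ1
              rwa [hm34] at this
            obtain ⟨hu32, x, hx, hx1, hax⟩ := JX_aa F f8 hr1 hrL h80 hq hupζ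
            have hup' : ∀ k ≤ n, (pp (n - k) : ℝ) ≤
                Real.exp (-(k * (η n - C2 * Real.exp (-(3 / 4 * L))))) * pp n := by
              intro k hk
              have := hM.ratio n hn2 k hk
              rwa [hm34] at this
            have := JX_C1 F h0 h1 h2 h4 hF hr1 hr.2 hrL hup' hu32 hx hx1 hax
            have h4 := Real.exp_pos (-(2 * L))
            simp only [hG1, hG2]
            linarith
          · have hbig0 : aa n r 1 ≤ C1 * Real.exp (3 / 4 * L) := by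
              have := hbigζ 0 le_rfl zero_le_one
              simpa using this
            have := B2_C2 (k := 2) F hr1 hrL hbig0 hmu
            linarith
    have hsum := (JX_XX_le n).trans (Finset.sum_le_sum hall)
    rw [Finset.sum_add_distrib, Finset.sum_add_distrib, ← Finset.mul_sum, ← Finset.mul_sum]
      at hsum
    have hs1 : ∑ t ∈ Icc 1 n, G1 t ≤ 2 / 1 := B2_sum hη hη1 one_pos n
    have hs2 : ∑ t ∈ Icc 1 n, G2 t ≤ 2 / (L / 64) :=
      B2_sum hη hη1 (by positivity : (0 : ℝ) < L / 64) n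
    have hcard : ∑ _r ∈ Icc 1 n, Real.exp (-(2 * L)) = Real.exp (-L) := by
      rw [Finset.sum_const, Nat.card_Icc, nsmul_eq_mul]
      simp only [Nat.add_sub_cancel]
      rw [← hexpL, ← Real.exp_add]
      congr 1
      ring
    rw [hcard] at hsum
    have hXX : XX n ≤ Real.exp (-L) + ((34 * Real.exp 32 * (2 * Real.exp (-(L / 2))) +
        134 * Real.exp 32 / L ^ 3) * (2 / 1) + 1140 / (L * √L) * (2 / (L / 64))) := by
      refine hsum.trans ?_
      gcongr
    have hL2 : 0 ≤ L ^ 2 := sq_nonneg _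
    refine (mul_le_mul_of_nonneg_right hXX hL2).trans (le_of_eq ?_)
    have a1 : (1 : ℝ) / 2 * L = L / 2 := by ring
    rw [a1, one_mul L, one_mul (L ^ 2)]
    field_simp
    ring
  have hlim : Tendsto (fun n : ℕ => 1 * (Real.log n) ^ 2 * Real.exp (-(1 * Real.log n)) +
      136 * Real.exp 32 * (Real.log n) ^ 2 * Real.exp (-(1 / 2 * Real.log n)) +
      268 * Real.exp 32 / Real.log n + 145920 / √(Real.log n)) atTop (𝓝 0) := by
    have l1 := (JX_tend 1 2 one_pos).comp hlog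
    have l2 := (JX_tend (136 * Real.exp 32) 2 (a := 1 / 2) (by norm_num)).comp hlog
    have l3 : Tendsto (fun n : ℕ => 268 * Real.exp 32 / Real.log n) atTop (𝓝 0) :=
      hlog.const_div_atTop _
    have l4 : Tendsto (fun n : ℕ => 145920 / √(Real.log n)) atTop (𝓝 0) :=
      (Real.tendsto_sqrt_atTop.comp hlog).const_div_atTop _
    have := ((l1.add l2).add l3).add l4
    simpa using this
  refine tendsto_of_tendsto_of_tendsto_of_le_of_le' tendsto_const_nhds hlim ?_ hbound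
  filter_upwards with n
  exact mul_nonneg (JX_XX_nonneg n) (sq_nonneg _)

end ZT68
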