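/-
MP_1882ea_al, helper68.  The theorem of the third stage.
-/
import Mathlib
import Pool.Agent.Lib.ZT68.Fin
import Pool.Agent.Lib.ZT68.JF
import Pool.Agent.Lib.ZT68.JS
import Pool.Agent.Lib.ZT68.JP
import Pool.Agent.Lib.ZT68.JT
import Pool.Agent.Lib.ZT68.JU
import Pool.Agent.Lib.ZT68.JX

namespace ZT68

open Finset Filter Topology

theorem all_JN : JN_stmt := row_JN row_BD1 row_FA all_DI (row_EI row_FA) (row_LE row_FA)

theorem all_JX : JX_stmt := row_JX row_DDc row_BD1 row_BD2 row_BD4 all_FQ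

theorem all_JU : JU_stmt := row_JU row_BD1

theorem pre_final3 (hM : JM_stmt) (hJD : JP_stmt → JD_stmt) :
    ∃ c : ℝ, 0 < c ∧ ∀ ε : ℝ, 0 < ε → ∃ N : ℕ, ∀ n ≥ N, ∀ k : ℕ, 1 ≤ k → (k : ℝ) ≤ c * √(n : ℝ) →
      |(zL k n - zI n) * (Real.log n) ^ 2 - 2| ≤ ε :=
  final3 row_BD1 row_FA all_DI all_JN all_PA all_EN row_MU all_JU row_JT
    (hJD (row_JP row_DDc hM)) all_JX

theorem pre_ratio (hM : JM_stmt) (hJD : JP_stmt → JD_stmt) :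
    ∃ c : ℝ, 0 < c ∧ ∀ ε : ℝ, 0 < ε → ∃ N : ℕ, ∀ n ≥ N, ∀ k : ℕ, 1 ≤ k → (k : ℝ) ≤ c * √(n : ℝ) →
      |(1 - zI n / zL k n) * Real.log n - 1| ≤ ε :=
  final3_ratio all_final.1 (pre_final3 hM hJD)

end ZT68
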