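/-
MP_1882ea_al, helper72 (plan: helper22).  Row JD, part a: double sums of exponentials.
-/
import Mathlib
import Pool.Agent.Lib.ZT68.Sec
import Pool.Agent.Lib.ZT68.AS

namespace ZT68

open Finset Filter

/-- `exp (- t h)` -/
noncomputable def JDy (h : ℝ) (t : ℕ) : ℝ := Real.exp (-(t * h))

/-- `exp (- α exp (- t h) / h)` -/
noncomputable def JDE (h α : ℝ) (t : ℕ) : ℝ := Real.exp (-(α * (JDy h t / h)))

theorem JDy_pos (h : ℝ) (t : ℕ) : 0 < JDy h t := Real.exp_pos _

theorem JDE_pos (h α : ℝ) (t : ℕ) : 0 < JDE h α t := Real.exp_pos _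

theorem JDy_succ (h : ℝ) (t : ℕ) : JDy h t = Real.exp h * JDy h (t + 1) := by
  unfold JDy
  rw [← Real.exp_add]
  congr 1
  push_cast
  ring

theorem JDy_succ' (h : ℝ) (t : ℕ) : JDy h (t + 1) = Real.exp (-h) * JDy h t := by
  unfold JDy
  rw [← Real.exp_add]
  congr 1
  push_cast
  ring

theorem JDE_mul (h α β : ℝ) (t : ℕ) : JDE h α t * JDE h β t = JDE h (α + β) t := by
  unfold JDE
  rw [← Real.exp_add]
  congr 1
  ring

theorem JDE_zero (h : ℝ) (t : ℕ) : JDE h 0 t = 1 := by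
  unfold JDE
  simp

theorem JDE_le_one {h α : ℝ} (h0 : 0 < h) (hα : 0 ≤ α) (t : ℕ) : JDE h α t ≤ 1 := by
  unfold JDE
  apply Real.exp_le_one_iff.2
  have := JDy_pos h t
  have : 0 ≤ α * (JDy h t / h) := by positivity
  linarith

theorem JD_k1_pos {h : ℝ} (h0 : 0 < h) : 0 < h / (1 - Real.exp (-h)) := by
  have : Real.exp (-h) < 1 := Real.exp_lt_one_iff.2 (by linarith)
  exact div_pos h0 (by linarith)

theorem JD_k2_pos {h : ℝ} (h0 : 0 < h) : 0 < h / (Real.exp h - 1) := by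
  have := Real.add_one_lt_exp h0.ne'
  exact div_pos h0 (by linarith)

/-- telescoping step, upper -/
theorem JD_step_up {h α : ℝ} (h0 : 0 < h) (hα : 0 < α) (t : ℕ) :
    JDy h t * JDE h α t ≤ h / (1 - Real.exp (-h)) / α * (JDE h α (t + 1) - JDE h α t) := by
  have hr : 0 < 1 - Real.exp (-h) := by
    have : Real.exp (-h) < 1 := Real.exp_lt_one_iff.2 (by linarith)
    linarith
  have hy := JDy_pos h t
  have e2 : JDE h α (t + 1) = JDE h α t * Real.exp (α * (JDy h t * (1 - Real.exp (-h)) / h)) := by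
    unfold JDE
    rw [← Real.exp_add, JDy_succ']
    congr 1
    field_simp
    ring
  rw [e2]
  have h3 := Real.add_one_le_exp (α * (JDy h t * (1 - Real.exp (-h)) / h))
  have hEt : 0 < JDE h α t := JDE_pos h α t
  have h4 : h / (1 - Real.exp (-h)) / α *
      (JDE h α t * (α * (JDy h t * (1 - Real.exp (-h)) / h))) = JDy h t * JDE h α t := by
    field_simp
  rw [← h4]
  apply mul_le_mul_of_nonneg_left _ (by positivity)
  nlinarith

/-- telescoping step, lower -/
theorem JD_step_low {h α : ℝ} (h0 : 0 < h) (hα : 0 < α) (t : ℕ) :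
    h / (Real.exp h - 1) / α * (JDE h α (t + 1) - JDE h α t) ≤
      JDy h (t + 1) * JDE h α (t + 1) := by
  have hr : 0 < Real.exp h - 1 := by
    have := Real.add_one_lt_exp h0.ne'
    linarith
  have hy := JDy_pos h (t + 1)
  have e2 : JDE h α t = JDE h α (t + 1) *
      Real.exp (-(α * (JDy h (t + 1) * (Real.exp h - 1) / h))) := by
    unfold JDE
    rw [← Real.exp_add, JDy_succ h t]
    congr 1
    field_simp
    ring
  have hEt : 0 < JDE h α (t + 1) := JDE_pos h α (t + 1)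
  rw [e2]
  have h3 := Real.add_one_le_exp (-(α * (JDy h (t + 1) * (Real.exp h - 1) / h)))
  have h4 : h / (Real.exp h - 1) / α *
      (JDE h α (t + 1) * (α * (JDy h (t + 1) * (Real.exp h - 1) / h))) =
        JDy h (t + 1) * JDE h α (t + 1) := by
    field_simp
  rw [← h4]
  apply mul_le_mul_of_nonneg_left _ (by positivity)
  nlinarith

theorem JD_tel_up {h α : ℝ} (h0 : 0 < h) (hα : 0 < α) (r : ℕ) :
    ∑ t ∈ range r, JDy h t * JDE h α t ≤ h / (1 - Real.exp (-h)) / α * JDE h α r := by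
  have hk := JD_k1_pos h0
  calc ∑ t ∈ range r, JDy h t * JDE h α t ≤
      ∑ t ∈ range r, h / (1 - Real.exp (-h)) / α * (JDE h α (t + 1) - JDE h α t) :=
        sum_le_sum fun t _ => JD_step_up h0 hα t
    _ = h / (1 - Real.exp (-h)) / α * (JDE h α r - JDE h α 0) := by
        rw [← mul_sum, sum_range_sub]
    _ ≤ _ := by
        apply mul_le_mul_of_nonneg_left _ (by positivity)
        have := JDE_pos h α 0
        linarith

theorem JD_tel_up' {h α : ℝ} (h0 : 0 < h) (hα : 0 < α) (s : Finset ℕ) :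
    ∑ t ∈ s, JDy h t * JDE h α t ≤ h / (1 - Real.exp (-h)) / α :=
  AS_tel_up h0 hα s

theorem JD_tel_low {h α : ℝ} (h0 : 0 < h) (hα : 0 < α) (T r : ℕ) (hr : T < r) :
    h / (Real.exp h - 1) / α * (JDE h α (r - 1) - JDE h α T) ≤
      ∑ t ∈ Ico (T + 1) r, JDy h t * JDE h α t := by
  obtain ⟨m, rfl⟩ : ∃ m, r = T + 1 + m := ⟨r - (T + 1), by omega⟩
  have e : T + 1 + m - 1 = T + m := by omega
  rw [e, sum_Ico_eq_sum_range]
  have e2 : T + 1 + m - (T + 1) = m := by omega
  rw [e2]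
  calc h / (Real.exp h - 1) / α * (JDE h α (T + m) - JDE h α T) =
      ∑ t ∈ range m, h / (Real.exp h - 1) / α * (JDE h α (T + (t + 1)) - JDE h α (T + t)) := by
        rw [← mul_sum, sum_range_sub (fun t => JDE h α (T + t))]
        simp
    _ ≤ _ := by
        apply sum_le_sum
        intro t _
        have := JD_step_low h0 hα (T + t)
        have e3 : T + (t + 1) = T + t + 1 := by ring
        have e4 : T + 1 + t = T + t + 1 := by ring
        rw [e3, e4]
        exact this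

/-! ### pairs -/

theorem JD_pair (s : Finset ℕ) (f g : ℕ → ℝ) :
    ∑ p ∈ (s ×ˢ s).filter (fun p : ℕ × ℕ => p.1 < p.2), f p.1 * g p.2 =
      ∑ r ∈ s, (∑ t ∈ s.filter (fun t => t < r), f t) * g r := by
  rw [sum_filter, sum_product_right]
  apply sum_congr rfl
  intro r _
  rw [sum_mul, ← sum_filter]

theorem JD_exists_range (S : Finset (ℕ × ℕ)) (hS : ∀ p ∈ S, p.1 < p.2) :
    ∃ R, S ⊆ (range R ×ˢ range R).filter (fun p : ℕ × ℕ => p.1 < p.2) := by
  refine ⟨S.sup Prod.snd + 1, fun p hp => ?_⟩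
  have h1 : p.2 ≤ S.sup Prod.snd := le_sup (f := Prod.snd) hp
  have h2 := hS p hp
  simp only [mem_filter, mem_product, mem_range]
  omega

/-- upper double sum -/
theorem JD_UU {h α β : ℝ} (h0 : 0 < h) (hα : 0 < α) (hβ : 0 ≤ β) (S : Finset (ℕ × ℕ))
    (hS : ∀ p ∈ S, p.1 < p.2) :
    ∑ p ∈ S, JDy h p.1 * JDE h α p.1 * (JDy h p.2 * JDE h β p.2) ≤
      h / (1 - Real.exp (-h)) / α * (h / (1 - Real.exp (-h)) / (α + β)) := by
  have hk := JD_k1_pos h0
  obtain ⟨R, hR⟩ := JD_exists_range S hS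
  have hnn : ∀ p : ℕ × ℕ, 0 ≤ JDy h p.1 * JDE h α p.1 * (JDy h p.2 * JDE h β p.2) := fun p =>
    mul_nonneg (mul_nonneg (JDy_pos _ _).le (JDE_pos _ _ _).le)
      (mul_nonneg (JDy_pos _ _).le (JDE_pos _ _ _).le)
  calc ∑ p ∈ S, JDy h p.1 * JDE h α p.1 * (JDy h p.2 * JDE h β p.2) ≤
      ∑ p ∈ (range R ×ˢ range R).filter (fun p : ℕ × ℕ => p.1 < p.2),
        JDy h p.1 * JDE h α p.1 * (JDy h p.2 * JDE h β p.2) :=
        sum_le_sum_of_subset_of_nonneg hR fun p _ _ => hnn p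
    _ = ∑ r ∈ range R, (∑ t ∈ (range R).filter (fun t => t < r), JDy h t * JDE h α t) *
        (JDy h r * JDE h β r) :=
        JD_pair (range R) (fun t => JDy h t * JDE h α t) (fun r => JDy h r * JDE h β r)
    _ ≤ ∑ r ∈ range R, h / (1 - Real.exp (-h)) / α * (JDy h r * JDE h (α + β) r) := by
        apply sum_le_sum
        intro r hr
        have e : (range R).filter (fun t => t < r) = range r := by
          ext t
          simp only [mem_filter, mem_range] at hr ⊢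
          omega
        rw [e, ← JDE_mul]
        have h1 := JD_tel_up h0 hα r
        have h2 : 0 ≤ JDy h r * JDE h β r := mul_nonneg (JDy_pos _ _).le (JDE_pos _ _ _).le
        calc _ ≤ h / (1 - Real.exp (-h)) / α * JDE h α r * (JDy h r * JDE h β r) :=
              mul_le_mul_of_nonneg_right h1 h2
          _ = _ := by ring
    _ ≤ _ := by
        rw [← mul_sum]
        apply mul_le_mul_of_nonneg_left _ (by positivity)
        exact JD_tel_up' h0 (by linarith) _

/-- lower double sum -/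
theorem JD_LL {h α β M X0 X2 : ℝ} (h0 : 0 < h) (hα : 0 < α) (hβ : 0 ≤ β) (T0 T2 : ℕ)
    (hT : T0 ≤ T2)
    (hM : ∑ r ∈ Ioc T0 T2, JDy h r ≤ M) (hX0 : X0 ≤ JDy h T0 / h) (hX2 : JDy h T2 / h ≤ X2) :
    h / (Real.exp h - 1) / α * (h / (Real.exp h - 1) / (β + α * Real.exp h) *
      (Real.exp (-((β + α * Real.exp h) * X2)) - Real.exp (-((β + α * Real.exp h) * X0))) -
        Real.exp (-(α * X0)) * M) ≤
    ∑ p ∈ ((Ioc T0 T2) ×ˢ (Ioc T0 T2)).filter (fun p : ℕ × ℕ => p.1 < p.2),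
      JDy h p.1 * JDE h α p.1 * (JDy h p.2 * JDE h β p.2) := by
  have hk := JD_k2_pos h0
  set k2 := h / (Real.exp h - 1) with hk2
  set γ := β + α * Real.exp h with hγ
  have hγ0 : 0 < γ := by positivity
  have hM0 : 0 ≤ M := le_trans (sum_nonneg fun r _ => (JDy_pos h r).le) hM
  rw [JD_pair (Ioc T0 T2) (fun t => JDy h t * JDE h α t) (fun r => JDy h r * JDE h β r)]
  have hEl : Real.exp (-(α * X0)) ≥ JDE h α T0 := by
    unfold JDE
    apply Real.exp_le_exp.2
    have := mul_le_mul_of_nonneg_left hX0 hα.le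
    linarith
  have hterm : ∀ r ∈ Ioc T0 T2, k2 / α * (JDy h r * JDE h γ r - Real.exp (-(α * X0)) * JDy h r) ≤
      (∑ t ∈ (Ioc T0 T2).filter (fun t => t < r), JDy h t * JDE h α t) *
        (JDy h r * JDE h β r) := by
    intro r hr
    rw [mem_Ioc] at hr
    have e : (Ioc T0 T2).filter (fun t => t < r) = Ico (T0 + 1) r := by
      ext t
      simp only [mem_filter, mem_Ioc, mem_Ico]
      omega
    rw [e]
    have h1 := JD_tel_low h0 hα T0 r hr.1
    have hy := JDy_pos h r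
    have hEβ := JDE_pos h β r
    have h2 : 0 ≤ JDy h r * JDE h β r := by positivity
    refine le_trans ?_ (mul_le_mul_of_nonneg_right h1 h2)
    have e1 : JDE h α (r - 1) * JDE h β r = JDE h γ r := by
      obtain ⟨s, rfl⟩ : ∃ s, r = s + 1 := ⟨r - 1, by omega⟩
      rw [Nat.add_sub_cancel]
      unfold JDE
      rw [← Real.exp_add, JDy_succ h s]
      congr 1
      rw [hγ]
      ring
    have e2 : k2 / α * (JDE h α (r - 1) - JDE h α T0) * (JDy h r * JDE h β r) =
        k2 / α * (JDy h r * (JDE h α (r - 1) * JDE h β r) - JDE h α T0 * JDE h β r * JDy h r) := by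
      ring
    rw [e2, e1]
    apply mul_le_mul_of_nonneg_left _ (by positivity)
    have h3 : JDE h α T0 * JDE h β r ≤ Real.exp (-(α * X0)) := by
      calc JDE h α T0 * JDE h β r ≤ JDE h α T0 * 1 :=
            mul_le_mul_of_nonneg_left (JDE_le_one h0 hβ r) (JDE_pos _ _ _).le
        _ ≤ _ := by rw [mul_one]; exact hEl
    have h4 := mul_le_mul_of_nonneg_right h3 hy.le
    linarith
  refine le_trans ?_ (sum_le_sum hterm)
  rw [← mul_sum, sum_sub_distrib, ← mul_sum]
  apply mul_le_mul_of_nonneg_left _ (by positivity)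
  have h5 : Real.exp (-(α * X0)) * ∑ r ∈ Ioc T0 T2, JDy h r ≤ Real.exp (-(α * X0)) * M :=
    mul_le_mul_of_nonneg_left hM (Real.exp_pos _).le
  have h6 := JD_tel_low h0 hγ0 T0 (T2 + 1) (by omega)
  have e3 : Ico (T0 + 1) (T2 + 1) = Ioc T0 T2 := by
    ext t
    simp only [mem_Ico, mem_Ioc]
    omega
  rw [e3, Nat.add_sub_cancel] at h6
  have h7 : Real.exp (-(γ * X2)) ≤ JDE h γ T2 := by
    unfold JDE
    apply Real.exp_le_exp.2
    have := mul_le_mul_of_nonneg_left hX2 hγ0.le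
    linarith
  have h8 : JDE h γ T0 ≤ Real.exp (-(γ * X0)) := by
    unfold JDE
    apply Real.exp_le_exp.2
    have := mul_le_mul_of_nonneg_left hX0 hγ0.le
    linarith
  have h9 : k2 / γ * (Real.exp (-(γ * X2)) - Real.exp (-(γ * X0))) ≤
      k2 / γ * (JDE h γ T2 - JDE h γ T0) := by
    apply mul_le_mul_of_nonneg_left _ (by positivity)
    linarith
  linarith

/-- product bound -/
theorem JD_prod {M M' : ℝ} {f g : ℕ → ℝ} (S : Finset (ℕ × ℕ)) (p q : ℕ → Prop)
    [DecidablePred p] [DecidablePred q] (hS : ∀ x ∈ S, p x.1 ∧ q x.2) (hf : ∀ t, 0 ≤ f t)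
    (hg : ∀ t, 0 ≤ g t)
    (hM : ∀ s : Finset ℕ, (∀ t ∈ s, p t) → ∑ t ∈ s, f t ≤ M)
    (hM' : ∀ s : Finset ℕ, (∀ t ∈ s, q t) → ∑ t ∈ s, g t ≤ M') :
    ∑ x ∈ S, f x.1 * g x.2 ≤ M * M' := by
  classical
  have hsub : S ⊆ (S.image Prod.fst) ×ˢ (S.image Prod.snd) := by
    intro x hx
    rw [mem_product]
    exact ⟨mem_image_of_mem _ hx, mem_image_of_mem _ hx⟩
  have h1 : ∑ t ∈ S.image Prod.fst, f t ≤ M := by
    apply hM
    intro t ht
    rw [mem_image] at ht
    obtain ⟨x, hx, rfl⟩ := ht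
    exact (hS x hx).1
  have h2 : ∑ t ∈ S.image Prod.snd, g t ≤ M' := by
    apply hM'
    intro t ht
    rw [mem_image] at ht
    obtain ⟨x, hx, rfl⟩ := ht
    exact (hS x hx).2
  calc ∑ x ∈ S, f x.1 * g x.2 ≤ ∑ x ∈ (S.image Prod.fst) ×ˢ (S.image Prod.snd), f x.1 * g x.2 :=
        sum_le_sum_of_subset_of_nonneg hsub fun x _ _ => mul_nonneg (hf _) (hg _)
    _ = (∑ t ∈ S.image Prod.fst, f t) * ∑ t ∈ S.image Prod.snd, g t := by
        rw [sum_mul_sum, sum_product]
    _ ≤ M * M' := mul_le_mul h1 h2 (sum_nonneg fun t _ => hg t)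
        (le_trans (sum_nonneg fun t _ => hf t) h1)

/-- geometric tail -/
theorem JD_geo {h X : ℝ} (h0 : 0 < h) (hX : 0 < X) (s : Finset ℕ) (hs : ∀ t ∈ s, JDy h t ≤ h * X) :
    ∑ t ∈ s, JDy h t ≤ h / (1 - Real.exp (-h)) * X := by
  have h1 := AS_geo h0 s (A := -Real.log (h * X)) (fun t ht => by
    have h2 := Real.log_le_log (JDy_pos h t) (hs t ht)
    unfold JDy at h2
    rw [Real.log_exp] at h2
    linarith)
  rw [neg_neg, Real.exp_log (by positivity)] at h1
  calc ∑ t ∈ s, JDy h t ≤ h * X / (1 - Real.exp (-h)) := h1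
    _ = _ := by ring

end ZT68
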