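/-
MP_1882ea_al, helper72 (plan: helper22).  Row JD, part b: the bounds at one `n`.
-/
import Mathlib
import Pool.Agent.Lib.ZT68.JDa

namespace ZT68

open Finset Filter

/-- the data at one `n` -/
structure JDX (n : ℕ) (L h C C1 : ℝ) (w a : ℕ → ℝ) (P : ℕ → ℕ → ℝ) (B ε Q d e : ℝ) : Prop where
  A : AX n L h C C1 w a
  P0 : ∀ t r, 0 ≤ P t r
  Pa : ∀ t r, P t r ≤ a t
  J : ∀ t r : ℕ, 1 ≤ t * h → t < r → qq h t ≤ Q → d ≤ qq h r →
    |P t r - Real.exp (-qq h t) * (1 - Real.exp (-qq h r))| ≤ e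
  hB : B = -Real.log h
  hL : 2 ≤ L
  h1 : h ≤ 1
  ε0 : 0 < ε
  ε1 : ε < 1
  b1 : 1 ≤ (1 - ε) * B
  Q0 : 0 < Q
  d0 : 0 < d
  e0 : 0 < e
  c2 : (1 + ε) * B * Real.exp (-(ε * B)) < d
  c3 : (1 + ε) * B ≤ L
  c3' : 4 * L ≤ Real.exp (L / 2)
  c4 : Q ≤ (1 + ε) * B * Real.exp (ε * B)
  c4' : d * ((1 + ε) * B) ≤ Q * ((1 - ε) * B)
  c5 : 0 ≤ 1 - 2 * C * L ^ 2 * Real.exp (-(L / 4))

variable {n : ℕ} {L h C C1 : ℝ} {w a : ℕ → ℝ} {P : ℕ → ℕ → ℝ} {B ε Q d e : ℝ}

theorem JDX.h0 (X : JDX n L h C C1 w a P B ε Q d e) : 0 < h := X.A.h0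

theorem JDX.B0 (X : JDX n L h C C1 w a P B ε Q d e) : 0 < B := by
  have := X.b1
  have := X.ε1
  by_contra hc
  push Not at hc
  have : (1 - ε) * B ≤ 0 := mul_nonpos_of_nonneg_of_nonpos (by linarith) hc
  linarith

theorem JDX.expB (X : JDX n L h C C1 w a P B ε Q d e) : Real.exp (-B) = h := by
  rw [X.hB, neg_neg, Real.exp_log X.h0]

theorem JD_qq (h : ℝ) (h0 : 0 < h) (t : ℕ) : qq h t = t * h * (JDy h t / h) := by
  unfold qq JDy
  field_simp

theorem JDX.w_le (X : JDX n L h C C1 w a P B ε Q d e) (s : ℕ) (hs : s ≤ n) :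
    w s ≤ Real.exp (-(s * h)) * (1 + C * Real.exp (L / 4)) := by
  have h1 := X.A.w_le s hs
  have h2 : (s : ℝ) ≤ Real.exp L := by rw [X.A.hn]; exact_mod_cast hs
  have h3 : (s : ℝ) * Real.exp (-(3 * L / 4)) ≤ Real.exp (L / 4) := by
    calc (s : ℝ) * Real.exp (-(3 * L / 4)) ≤ Real.exp L * Real.exp (-(3 * L / 4)) :=
          mul_le_mul_of_nonneg_right h2 (Real.exp_pos _).le
      _ = Real.exp (L / 4) := by rw [← Real.exp_add]; congr 1; ring
  refine h1.trans (mul_le_mul_of_nonneg_left ?_ (Real.exp_pos _).le)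
  have := mul_le_mul_of_nonneg_left h3 X.A.hC.le
  linarith

theorem JDX.a_small (X : JDX n L h C C1 w a P B ε Q d e) (t : ℕ) (ht1 : 1 ≤ t)
    (ht : t * h ≤ (1 - ε) * B) :
    a t ≤ C1 * Real.exp (3 * L / 4) * Real.exp (-Real.exp (ε * B)) := by
  have h0 := X.h0
  have htR : (0 : ℝ) < t := by exact_mod_cast ht1
  have hlam : Real.exp (ε * B) ≤ lam h t := by
    unfold lam
    have hx : 0 < (t : ℝ) * h := mul_pos htR h0
    have h1 : Real.exp (t * h) - 1 ≤ t * h * Real.exp (t * h) := by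
      have h2 := Real.add_one_le_exp (-(t * h))
      have h3 : Real.exp (t * h) * Real.exp (-(t * h)) = 1 := by
        rw [← Real.exp_add]; simp
      nlinarith [Real.exp_pos (t * h)]
    have h2 : 0 < Real.exp (t * h) - 1 := by
      have := Real.add_one_lt_exp hx.ne'
      linarith
    rw [le_div_iff₀ h2]
    calc Real.exp (ε * B) * (Real.exp (t * h) - 1) ≤
        Real.exp (ε * B) * (t * h * Real.exp (t * h)) :=
          mul_le_mul_of_nonneg_left h1 (Real.exp_pos _).le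
      _ = t * (Real.exp (ε * B) * Real.exp (-B) * Real.exp (t * h)) := by
          rw [X.expB]; ring
      _ = t * (Real.exp (ε * B + -B + t * h)) := by
          rw [Real.exp_add, Real.exp_add]
      _ ≤ t * 1 := by
          apply mul_le_mul_of_nonneg_left _ htR.le
          apply Real.exp_le_one_iff.2
          nlinarith
      _ = t := mul_one _
  refine (X.A.a_big t ht1).trans (mul_le_mul_of_nonneg_left ?_ ?_)
  · exact Real.exp_le_exp.2 (by linarith)
  · have := X.A.hC1; positivity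

theorem JD_half {x : ℝ} (hx : 1 ≤ x) : Real.exp (-x) ≤ 1 / 2 := by
  have h1 : Real.exp (-x) ≤ Real.exp (-Real.log 2) := by
    apply Real.exp_le_exp.2
    have := Real.log_two_lt_d9
    linarith
  rw [Real.exp_neg (Real.log 2), Real.exp_log (by norm_num)] at h1
  linarith

theorem JDX.a_mid (X : JDX n L h C C1 w a P B ε Q d e) (t : ℕ) (ht1 : 1 ≤ t)
    (ht : t ≤ Real.exp (L / 2) * L ^ 2) (hb : (1 - ε) * B ≤ t * h) :
    a t ≤ Real.exp (-qq h t) + (Real.exp (-(L / 16)) + C1 * L ^ 3 * Real.exp (-(L / 8))) := by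
  have h0 := X.h0
  have htR : (0 : ℝ) < t := by exact_mod_cast ht1
  have hC := X.A.hC
  have hC1 := X.A.hC1
  have hL := X.hL
  have hb2 : Real.exp (-(t * h)) ≤ 1 / 2 := JD_half (X.b1.trans hb)
  have h3 : (t : ℝ) * Real.exp (-(3 * L / 4)) ≤ L ^ 2 * Real.exp (-(L / 4)) := by
    calc (t : ℝ) * Real.exp (-(3 * L / 4)) ≤ Real.exp (L / 2) * L ^ 2 * Real.exp (-(3 * L / 4)) :=
          mul_le_mul_of_nonneg_right ht (Real.exp_pos _).le
      _ = L ^ 2 * (Real.exp (L / 2) * Real.exp (-(3 * L / 4))) := by ring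
      _ = L ^ 2 * Real.exp (-(L / 4)) := by rw [← Real.exp_add]; congr 2; ring
  set q := (t : ℝ) * Real.exp (-(t * h)) with hq
  have hqq : qq h t = q := rfl
  have hq0 : 0 < q := by positivity
  obtain ⟨ζ, hz0, hz1, hz2, hz3⟩ : ∃ ζ : ℝ, 0 ≤ ζ ∧ ζ ≤ 1 ∧ ζ * q ≤ L / 16 ∧
      Real.exp (-(ζ * q)) ≤ Real.exp (-q) + Real.exp (-(L / 16)) := by
    by_cases hc : q ≤ L / 16
    · exact ⟨1, zero_le_one, le_rfl, by linarith, by
        rw [one_mul]
        have := Real.exp_pos (-(L / 16))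
        linarith⟩
    · push Not at hc
      have h4 : L / 16 / q * q = L / 16 := by field_simp
      refine ⟨L / 16 / q, by positivity, ?_, h4.le, ?_⟩
      · rw [div_le_one hq0]; exact hc.le
      · rw [h4]
        have := Real.exp_pos (-q)
        linarith
  have ha := X.A.a_up t ht1 hb2 ζ hz0 hz1
  have e1 : C1 * Real.exp (-(3 * L / 4)) * t * (ζ * q) * Real.exp (2 * (ζ * q)) ≤
      C1 * L ^ 3 * Real.exp (-(L / 8)) := by
    have e2 : Real.exp (2 * (ζ * q)) ≤ Real.exp (L / 8) := Real.exp_le_exp.2 (by linarith)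
    have e3 : 0 ≤ ζ * q := by positivity
    calc C1 * Real.exp (-(3 * L / 4)) * t * (ζ * q) * Real.exp (2 * (ζ * q)) =
        C1 * (t * Real.exp (-(3 * L / 4))) * (ζ * q) * Real.exp (2 * (ζ * q)) := by ring
      _ ≤ C1 * (L ^ 2 * Real.exp (-(L / 4))) * (L / 16) * Real.exp (L / 8) := by
          gcongr
      _ = C1 * L ^ 3 / 16 * (Real.exp (-(L / 4)) * Real.exp (L / 8)) := by ring
      _ = C1 * L ^ 3 / 16 * Real.exp (-(L / 8)) := by rw [← Real.exp_add]; congr 2; ring
      _ ≤ C1 * L ^ 3 * Real.exp (-(L / 8)) := by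
          apply mul_le_mul_of_nonneg_right _ (Real.exp_pos _).le
          have : 0 ≤ C1 * L ^ 3 := by positivity
          linarith
  rw [hqq]
  linarith

theorem JDX.w_mid (X : JDX n L h C C1 w a P B ε Q d e) {t r : ℕ} (htr : t < r) (hn : r + t ≤ n)
    (hr : r ≤ Real.exp (L / 2) * L ^ 2) :
    w (r + t) ≤ (1 + 2 * C * L ^ 2 * Real.exp (-(L / 4))) * (JDy h t * JDy h r) ∧
    (1 - 2 * C * L ^ 2 * Real.exp (-(L / 4))) * (JDy h t * JDy h r) ≤ w (r + t) := by
  have hC := X.A.hC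
  have hrt : (t : ℝ) ≤ r := by exact_mod_cast htr.le
  have h3 : (((r + t : ℕ) : ℝ)) * Real.exp (-(3 * L / 4)) ≤ 2 * L ^ 2 * Real.exp (-(L / 4)) := by
    have h4 : (((r + t : ℕ) : ℝ)) ≤ 2 * (Real.exp (L / 2) * L ^ 2) := by push_cast; linarith
    calc (((r + t : ℕ) : ℝ)) * Real.exp (-(3 * L / 4)) ≤
        2 * (Real.exp (L / 2) * L ^ 2) * Real.exp (-(3 * L / 4)) :=
          mul_le_mul_of_nonneg_right h4 (Real.exp_pos _).le
      _ = 2 * L ^ 2 * (Real.exp (L / 2) * Real.exp (-(3 * L / 4))) := by ring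
      _ = 2 * L ^ 2 * Real.exp (-(L / 4)) := by rw [← Real.exp_add]; congr 2; ring
  have h4 : Real.exp (-(((r + t : ℕ) : ℝ) * h)) = JDy h t * JDy h r := by
    unfold JDy
    rw [← Real.exp_add]
    congr 1
    push_cast
    ring
  have hy : 0 < JDy h t * JDy h r := mul_pos (JDy_pos _ _) (JDy_pos _ _)
  have h5 := mul_le_mul_of_nonneg_left h3 hC.le
  constructor
  · have h1 := X.A.w_le (r + t) hn
    rw [h4] at h1
    refine h1.trans ?_
    rw [mul_comm]
    apply mul_le_mul_of_nonneg_right _ hy.le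
    linarith
  · have h1 := X.A.w_ge (r + t) hn
    rw [h4] at h1
    refine le_trans ?_ h1
    rw [mul_comm]
    apply mul_le_mul_of_nonneg_left _ hy.le
    linarith

/-- if `q_r ≥ d` then `r h ≤ b'` -/
theorem JDX.r_le (X : JDX n L h C C1 w a P B ε Q d e) (r : ℕ) (hr : d ≤ qq h r) :
    r * h ≤ (1 + ε) * B := by
  by_contra hc
  push Not at hc
  have h0 := X.h0
  have hB := X.B0
  have hε := X.ε0
  have hε1 := X.ε1
  have hb1 : 1 ≤ (1 + ε) * B := by
    have h1 := X.b1
    nlinarith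
  set x := (r : ℝ) * h with hx
  set b' := (1 + ε) * B with hb'
  have h2 := Real.add_one_le_exp (x - b')
  have h3 : x ≤ b' * Real.exp (x - b') := by
    have h4 : x ≤ b' * (x - b' + 1) := by nlinarith
    exact h4.trans (mul_le_mul_of_nonneg_left h2 (by linarith))
  have h5 : qq h r * h = x * Real.exp (-x) := by
    unfold qq
    rw [hx]
    ring
  have h6 : x * Real.exp (-x) ≤ b' * Real.exp (-b') := by
    calc x * Real.exp (-x) ≤ b' * Real.exp (x - b') * Real.exp (-x) :=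
          mul_le_mul_of_nonneg_right h3 (Real.exp_pos _).le
      _ = b' * (Real.exp (x - b') * Real.exp (-x)) := by ring
      _ = b' * Real.exp (-b') := by rw [← Real.exp_add]; congr 2; ring
  have h7 : b' * Real.exp (-b') = b' * Real.exp (-(ε * B)) * h := by
    have : -b' = -(ε * B) + -B := by rw [hb']; ring
    rw [this, Real.exp_add, X.expB]
    ring
  have h8 : qq h r * h < d * h := by
    rw [h5]
    refine lt_of_le_of_lt (h6.trans h7.le) ?_
    exact mul_lt_mul_of_pos_right X.c2 h0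
  have h9 := lt_of_mul_lt_mul_right h8 h0.le
  linarith

/-! ### the pieces of the upper bound -/

open Classical in
/-- piece D -/
noncomputable def JDGD (h b D : ℝ) (p : ℕ × ℕ) : ℝ :=
  if b < p.1 * h ∧ b < p.2 * h then D * (JDy h p.1 * JDy h p.2) else 0

open Classical in
/-- piece 1 -/
noncomputable def JDG1 (h b Q : ℝ) (p : ℕ × ℕ) : ℝ :=
  if b < p.1 * h then Real.exp (-(Q / 2)) * (JDy h p.1 * JDE h (b / 2) p.1 * JDy h p.2) else 0

open Classical in
/-- piece 2 -/
noncomputable def JDG2 (h b d : ℝ) (p : ℕ × ℕ) : ℝ :=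
  if b < p.1 * h ∧ JDy h p.2 ≤ h * (d / b) then JDy h p.1 * JDE h b p.1 * JDy h p.2 else 0

open Classical in
/-- piece 3 -/
noncomputable def JDG3 (h b Q e : ℝ) (p : ℕ × ℕ) : ℝ :=
  if JDy h p.1 ≤ h * (Q / b) ∧ JDy h p.2 ≤ h * (Q / b) then e * (JDy h p.1 * JDy h p.2) else 0

open Classical in
/-- piece 4 -/
noncomputable def JDG4 (h b b' : ℝ) (p : ℕ × ℕ) : ℝ :=
  if b < p.1 * h ∧ p.2 * h ≤ b' then
    JDy h p.1 * JDE h b p.1 * JDy h p.2 -
      JDy h p.1 * JDE h b' p.1 * (JDy h p.2 * JDE h b' p.2) else 0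

theorem JDGD_nonneg {h b D : ℝ} (hD : 0 ≤ D) (p : ℕ × ℕ) : 0 ≤ JDGD h b D p := by
  unfold JDGD
  have := JDy_pos h p.1
  have := JDy_pos h p.2
  split_ifs
  · positivity
  · exact le_rfl

theorem JDG1_nonneg {h b Q : ℝ} (p : ℕ × ℕ) : 0 ≤ JDG1 h b Q p := by
  unfold JDG1
  have := JDy_pos h p.1
  have := JDy_pos h p.2
  have := JDE_pos h (b / 2) p.1
  split_ifs
  · positivity
  · exact le_rfl

theorem JDG2_nonneg {h b d : ℝ} (p : ℕ × ℕ) : 0 ≤ JDG2 h b d p := by
  unfold JDG2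
  have := JDy_pos h p.1
  have := JDy_pos h p.2
  have := JDE_pos h b p.1
  split_ifs
  · positivity
  · exact le_rfl

theorem JDG3_nonneg {h b Q e : ℝ} (he : 0 ≤ e) (p : ℕ × ℕ) : 0 ≤ JDG3 h b Q e p := by
  unfold JDG3
  have := JDy_pos h p.1
  have := JDy_pos h p.2
  split_ifs
  · positivity
  · exact le_rfl

theorem JDE_anti {h α β : ℝ} (h0 : 0 < h) (hab : α ≤ β) (t : ℕ) : JDE h β t ≤ JDE h α t := by
  unfold JDE
  apply Real.exp_le_exp.2
  have := JDy_pos h t
  have : α * (JDy h t / h) ≤ β * (JDy h t / h) := mul_le_mul_of_nonneg_right hab (by positivity)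
  linarith

theorem JDG4_nonneg {h b b' : ℝ} (h0 : 0 < h) (hb : 0 ≤ b') (hbb : b ≤ b') (p : ℕ × ℕ) :
    0 ≤ JDG4 h b b' p := by
  unfold JDG4
  have h1 := JDy_pos h p.1
  have h2 := JDy_pos h p.2
  have h3 := JDE_anti h0 hbb p.1
  have h4 := JDE_le_one h0 hb p.2
  have h5 := JDE_pos h b' p.2
  have h6 := JDE_pos h b' p.1
  split_ifs
  · have h7 : JDE h b' p.1 * JDE h b' p.2 ≤ JDE h b p.1 * 1 :=
      mul_le_mul h3 h4 h5.le (JDE_pos _ _ _).le
    have h8 := mul_le_mul_of_nonneg_left h7 (mul_pos h1 h2).le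
    nlinarith
  · exact le_rfl

/-- the pointwise upper bound -/
theorem JDX.point_up (X : JDX n L h C C1 w a P B ε Q d e) (p : ℕ × ℕ) (hp : p ∈ PW n) :
    w (p.2 + p.1) * P p.1 p.2 ≤
      ((1 + C * Real.exp (L / 4)) * (C1 * Real.exp (3 * L / 4) * Real.exp (-Real.exp (ε * B))) +
        Real.exp (-(L ^ 2 / 2)) * (1 + C * Real.exp (L / 4)) * (C1 * Real.exp (3 * L / 4))) +
      (1 + 2 * C * L ^ 2 * Real.exp (-(L / 4))) *
        (JDGD h ((1 - ε) * B) (Real.exp (-(L / 16)) + C1 * L ^ 3 * Real.exp (-(L / 8))) p +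
          JDG1 h ((1 - ε) * B) Q p + JDG2 h ((1 - ε) * B) d p + JDG3 h ((1 - ε) * B) Q e p +
          JDG4 h ((1 - ε) * B) ((1 + ε) * B) p) := by
  obtain ⟨t, r⟩ := p
  simp only [PW, mem_filter, mem_product, mem_Icc] at hp
  obtain ⟨⟨⟨ht1, htn⟩, ⟨hr1, hrn⟩⟩, htr, hsum⟩ := hp
  have hC := X.A.hC
  have hC1 := X.A.hC1
  have hL := X.hL
  have h0 := X.h0
  have hB := X.B0
  have hε := X.ε0
  have hε1 := X.ε1
  have hP0 := X.P0 t r
  have hPa := X.Pa t r
  have ha0 := X.A.a0 t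
  have htr' : (t : ℝ) ≤ r := by exact_mod_cast htr.le
  set b := (1 - ε) * B with hb
  set b' := (1 + ε) * B with hb'
  have hb0 : 0 < b := lt_of_lt_of_le one_pos X.b1
  have hbb : b ≤ b' := by rw [hb, hb']; nlinarith
  have hb'0 : 0 < b' := lt_of_lt_of_le hb0 hbb
  set D := Real.exp (-(L / 16)) + C1 * L ^ 3 * Real.exp (-(L / 8)) with hD
  have hD0 : 0 ≤ D := by positivity
  have gD := JDGD_nonneg (h := h) (b := b) hD0 (t, r)
  have g1 := JDG1_nonneg (h := h) (b := b) (Q := Q) (t, r)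
  have g2 := JDG2_nonneg (h := h) (b := b) (d := d) (t, r)
  have g3 := JDG3_nonneg (h := h) (b := b) (Q := Q) X.e0.le (t, r)
  have g4 := JDG4_nonneg h0 hb'0.le hbb (t, r)
  set K := 1 + 2 * C * L ^ 2 * Real.exp (-(L / 4)) with hK
  have hK0 : 0 < K := by positivity
  set E1 := (1 + C * Real.exp (L / 4)) *
    (C1 * Real.exp (3 * L / 4) * Real.exp (-Real.exp (ε * B))) with hE1
  set E2 := Real.exp (-(L ^ 2 / 2)) * (1 + C * Real.exp (L / 4)) *
    (C1 * Real.exp (3 * L / 4)) with hE2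
  have hE10 : 0 ≤ E1 := by positivity
  have hE20 : 0 ≤ E2 := by positivity
  have hw0 := X.A.w0 (r + t)
  simp only
  by_cases cA : (t : ℝ) * h ≤ b
  · -- case A
    have hw := X.w_le (r + t) (by omega)
    have hw1 : w (r + t) ≤ 1 + C * Real.exp (L / 4) := by
      refine hw.trans ?_
      have : Real.exp (-(((r + t : ℕ) : ℝ) * h)) ≤ 1 := Real.exp_le_one_iff.2 (by
        have : 0 ≤ ((r + t : ℕ) : ℝ) * h := by positivity
        linarith)
      calc _ ≤ 1 * (1 + C * Real.exp (L / 4)) := mul_le_mul_of_nonneg_right this (by positivity)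
        _ = _ := one_mul _
    have ha := X.a_small t ht1 cA
    have h1 : w (r + t) * P t r ≤ E1 := by
      calc w (r + t) * P t r ≤ (1 + C * Real.exp (L / 4)) * a t :=
            mul_le_mul hw1 hPa hP0 (by positivity)
        _ ≤ E1 := mul_le_mul_of_nonneg_left ha (by positivity)
    have h2 : 0 ≤ K * (JDGD h b D (t, r) + JDG1 h b Q (t, r) + JDG2 h b d (t, r) +
      JDG3 h b Q e (t, r) + JDG4 h b b' (t, r)) := by positivity
    linarith
  push Not at cA
  by_cases cB : Real.exp (L / 2) * L ^ 2 ≤ r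
  · -- case B
    have hw := X.w_le (r + t) (by omega)
    have h4 : Real.exp (-(((r + t : ℕ) : ℝ) * h)) ≤ Real.exp (-(L ^ 2 / 2)) := by
      apply Real.exp_le_exp.2
      have h5 : Real.exp (L / 2) * L ^ 2 * (Real.exp (-(L / 2)) / 2) ≤ r * h :=
        mul_le_mul cB X.A.low (by positivity) (by positivity)
      have h6 : Real.exp (L / 2) * L ^ 2 * (Real.exp (-(L / 2)) / 2) = L ^ 2 / 2 := by
        have : Real.exp (L / 2) * Real.exp (-(L / 2)) = 1 := by rw [← Real.exp_add]; simp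
        linear_combination (L ^ 2 / 2) * this
      have h7 : (r : ℝ) * h ≤ ((r + t : ℕ) : ℝ) * h := by
        apply mul_le_mul_of_nonneg_right _ h0.le
        push_cast
        have : (0 : ℝ) ≤ t := Nat.cast_nonneg t
        linarith
      linarith
    have hw1 : w (r + t) ≤ Real.exp (-(L ^ 2 / 2)) * (1 + C * Real.exp (L / 4)) :=
      hw.trans (mul_le_mul_of_nonneg_right h4 (by positivity))
    have h1 : w (r + t) * P t r ≤ E2 := by
      calc w (r + t) * P t r ≤ Real.exp (-(L ^ 2 / 2)) * (1 + C * Real.exp (L / 4)) * a t :=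
            mul_le_mul hw1 hPa hP0 (by positivity)
        _ ≤ E2 := mul_le_mul_of_nonneg_left (X.A.a_one t ht1) (by positivity)
    have h2 : 0 ≤ K * (JDGD h b D (t, r) + JDG1 h b Q (t, r) + JDG2 h b d (t, r) +
      JDG3 h b Q e (t, r) + JDG4 h b b' (t, r)) := by positivity
    linarith
  push Not at cB
  have hw := (X.w_mid htr (by omega) cB.le).1
  have hyt := JDy_pos h t
  have hyr := JDy_pos h r
  have hrh : b < r * h := lt_of_lt_of_le cA (mul_le_mul_of_nonneg_right htr' h0.le)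
  have hqt : b * (JDy h t / h) ≤ qq h t := by
    rw [JD_qq h h0]
    exact mul_le_mul_of_nonneg_right cA.le (by positivity)
  have hqr : b * (JDy h r / h) ≤ qq h r := by
    rw [JD_qq h h0]
    exact mul_le_mul_of_nonneg_right hrh.le (by positivity)
  have hyy : 0 < JDy h t * JDy h r := mul_pos hyt hyr
  have hmid := X.a_mid t ht1 (htr'.trans cB.le) cA.le
  have vD : JDGD h b D (t, r) = D * (JDy h t * JDy h r) := by
    unfold JDGD
    rw [if_pos ⟨cA, hrh⟩]
  -- it is enough to bound `P`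
  have key : ∀ G : ℝ, P t r * (JDy h t * JDy h r) ≤ G →
      w (r + t) * P t r ≤ K * G := by
    intro G hG
    calc w (r + t) * P t r ≤ K * (JDy h t * JDy h r) * P t r :=
          mul_le_mul_of_nonneg_right hw hP0
      _ = K * (P t r * (JDy h t * JDy h r)) := by ring
      _ ≤ K * G := mul_le_mul_of_nonneg_left hG hK0.le
  by_cases cQ : Q < qq h t
  · -- case C1
    have e1 : Real.exp (-qq h t) ≤ Real.exp (-(Q / 2)) * JDE h (b / 2) t := by
      unfold JDE
      rw [← Real.exp_add]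
      apply Real.exp_le_exp.2
      linarith
    have v1 : JDG1 h b Q (t, r) =
        Real.exp (-(Q / 2)) * (JDy h t * JDE h (b / 2) t * JDy h r) := by
      unfold JDG1
      rw [if_pos cA]
    have h1 : P t r * (JDy h t * JDy h r) ≤ JDGD h b D (t, r) + JDG1 h b Q (t, r) := by
      rw [vD, v1]
      have h2 : P t r ≤ Real.exp (-(Q / 2)) * JDE h (b / 2) t + D := by linarith
      have h3 := mul_le_mul_of_nonneg_right h2 hyy.le
      linarith
    have h2 := key _ h1
    have h3 : K * (JDGD h b D (t, r) + JDG1 h b Q (t, r)) ≤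
        K * (JDGD h b D (t, r) + JDG1 h b Q (t, r) + JDG2 h b d (t, r) +
          JDG3 h b Q e (t, r) + JDG4 h b b' (t, r)) :=
      mul_le_mul_of_nonneg_left (by linarith) hK0.le
    linarith
  push Not at cQ
  by_cases cd : qq h r < d
  · -- case C2
    have e1 : Real.exp (-qq h t) ≤ JDE h b t := by
      unfold JDE
      exact Real.exp_le_exp.2 (by linarith)
    have e2 : JDy h r ≤ h * (d / b) := by
      have h1 : b * (JDy h r / h) < d := lt_of_le_of_lt hqr cd
      have h2 : JDy h r = h / b * (b * (JDy h r / h)) := by field_simp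
      rw [h2]
      have h3 : h * (d / b) = h / b * d := by ring
      rw [h3]
      exact mul_le_mul_of_nonneg_left h1.le (by positivity)
    have v2 : JDG2 h b d (t, r) = JDy h t * JDE h b t * JDy h r := by
      unfold JDG2
      rw [if_pos ⟨cA, e2⟩]
    have h1 : P t r * (JDy h t * JDy h r) ≤ JDGD h b D (t, r) + JDG2 h b d (t, r) := by
      rw [vD, v2]
      have h2 : P t r ≤ JDE h b t + D := by linarith
      have h3 := mul_le_mul_of_nonneg_right h2 hyy.le
      linarith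
    have h2 := key _ h1
    have h3 : K * (JDGD h b D (t, r) + JDG2 h b d (t, r)) ≤
        K * (JDGD h b D (t, r) + JDG1 h b Q (t, r) + JDG2 h b d (t, r) +
          JDG3 h b Q e (t, r) + JDG4 h b b' (t, r)) :=
      mul_le_mul_of_nonneg_left (by linarith) hK0.le
    linarith
  push Not at cd
  -- case C3
  have hrb := X.r_le r cd
  have htb : (t : ℝ) * h ≤ b' := le_trans (mul_le_mul_of_nonneg_right htr' h0.le) hrb
  have hJ := (abs_le.1 (X.J t r (X.b1.trans cA.le) htr cQ cd)).2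
  have e2 : JDy h t ≤ h * (Q / b) := by
    have h1 : b * (JDy h t / h) ≤ Q := hqt.trans cQ
    have h2 : JDy h t = h / b * (b * (JDy h t / h)) := by field_simp
    rw [h2]
    have h3 : h * (Q / b) = h / b * Q := by ring
    rw [h3]
    exact mul_le_mul_of_nonneg_left h1 (by positivity)
  have e3 : JDy h r ≤ h * (Q / b) := by
    refine le_trans ?_ e2
    unfold JDy
    apply Real.exp_le_exp.2
    have := mul_le_mul_of_nonneg_right htr' h0.le
    linarith
  have v3 : JDG3 h b Q e (t, r) = e * (JDy h t * JDy h r) := by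
    unfold JDG3
    rw [if_pos ⟨e2, e3⟩]
  have v4 : JDG4 h b b' (t, r) = JDy h t * JDE h b t * JDy h r -
      JDy h t * JDE h b' t * (JDy h r * JDE h b' r) := by
    unfold JDG4
    rw [if_pos ⟨cA, hrb⟩]
  have hqt2 : qq h t ≤ b' * (JDy h t / h) := by
    rw [JD_qq h h0]
    exact mul_le_mul_of_nonneg_right htb (by positivity)
  have hqr2 : qq h r ≤ b' * (JDy h r / h) := by
    rw [JD_qq h h0]
    exact mul_le_mul_of_nonneg_right hrb (by positivity)
  have e4 : Real.exp (-qq h t) ≤ JDE h b t := by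
    unfold JDE
    exact Real.exp_le_exp.2 (by linarith)
  have e5 : JDE h b' t * JDE h b' r ≤ Real.exp (-qq h t) * Real.exp (-qq h r) := by
    apply mul_le_mul _ _ (JDE_pos _ _ _).le (Real.exp_pos _).le
    · unfold JDE
      exact Real.exp_le_exp.2 (by linarith)
    · unfold JDE
      exact Real.exp_le_exp.2 (by linarith)
  have h1 : P t r * (JDy h t * JDy h r) ≤ JDG3 h b Q e (t, r) + JDG4 h b b' (t, r) := by
    rw [v3, v4]
    have h2 : P t r ≤ e + (JDE h b t - JDE h b' t * JDE h b' r) := by linarith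
    have h3 := mul_le_mul_of_nonneg_right h2 hyy.le
    linarith
  have h2 := key _ h1
  have h3 : K * (JDG3 h b Q e (t, r) + JDG4 h b b' (t, r)) ≤
      K * (JDGD h b D (t, r) + JDG1 h b Q (t, r) + JDG2 h b d (t, r) +
        JDG3 h b Q e (t, r) + JDG4 h b b' (t, r)) :=
    mul_le_mul_of_nonneg_left (by linarith) hK0.le
  linarith

end ZT68
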