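/-
MP_1882ea_al, helper72 (plan: helper22).  Row JD, part c: the sums at one `n`.
-/
import Mathlib
import Pool.Agent.Lib.ZT68.JDb

namespace ZT68

open Finset Filter

variable {n : ℕ} {L h C C1 : ℝ} {w a : ℕ → ℝ} {P : ℕ → ℕ → ℝ} {B ε Q d e : ℝ}

/-- the pairs in the window -/
def JDW (T0 T2 : ℕ) : Finset (ℕ × ℕ) :=
  ((Ioc T0 T2) ×ˢ (Ioc T0 T2)).filter (fun p : ℕ × ℕ => p.1 < p.2)

theorem JDX.window (X : JDX n L h C C1 w a P B ε Q d e) : ∃ T0 T2 : ℕ, T0 ≤ T2 ∧
    Q / ((1 + ε) * B) ≤ JDy h T0 / h ∧ JDy h T2 / h ≤ Real.exp h * (d / ((1 - ε) * B)) ∧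
    (∀ t : ℕ, T0 < t → JDy h t ≤ h * (Q / ((1 + ε) * B)) ∧ (1 - ε) * B < t * h) ∧
    (∀ t : ℕ, t ≤ T2 → h * (d / ((1 - ε) * B)) ≤ JDy h t ∧ t * h ≤ (1 + ε) * B) := by
  have h0 := X.h0
  have hB := X.B0
  have hε := X.ε0
  have hε1 := X.ε1
  have hQ := X.Q0
  have hd := X.d0
  set b := (1 - ε) * B with hb
  set b' := (1 + ε) * B with hb'
  have hb0 : 0 < b := lt_of_lt_of_le one_pos X.b1
  have hbb : b ≤ b' := by rw [hb, hb']; nlinarith
  have hb'0 : 0 < b' := lt_of_lt_of_le hb0 hbb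
  set A := -Real.log (h * (Q / b')) with hA
  set A2 := -Real.log (h * (d / b)) with hA2
  have eA : Real.exp (-A) = h * (Q / b') := by rw [hA, neg_neg, Real.exp_log (by positivity)]
  have eA2 : Real.exp (-A2) = h * (d / b) := by rw [hA2, neg_neg, Real.exp_log (by positivity)]
  have hAb : b ≤ A := by
    have h1 : Real.exp (-A) ≤ Real.exp (-b) := by
      rw [eA]
      have h2 : -b = ε * B + -B := by rw [hb]; ring
      rw [h2, Real.exp_add, X.expB, mul_comm]
      apply mul_le_mul_of_nonneg_right _ h0.le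
      rw [div_le_iff₀ hb'0, mul_comm]
      exact X.c4
    have := Real.exp_le_exp.1 h1
    linarith
  have hA2b : A2 ≤ b' := by
    have h1 : Real.exp (-b') ≤ Real.exp (-A2) := by
      rw [eA2]
      have h2 : -b' = -(ε * B) + -B := by rw [hb']; ring
      rw [h2, Real.exp_add, X.expB, mul_comm]
      apply mul_le_mul_of_nonneg_left _ h0.le
      rw [le_div_iff₀ hb0, mul_comm]
      refine le_trans ?_ X.c2.le
      exact mul_le_mul_of_nonneg_right hbb (Real.exp_pos _).le
    have := Real.exp_le_exp.1 h1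
    linarith
  have hAA : A ≤ A2 := by
    have h1 : Real.exp (-A2) ≤ Real.exp (-A) := by
      rw [eA, eA2]
      apply mul_le_mul_of_nonneg_left _ h0.le
      rw [div_le_div_iff₀ hb0 hb'0]
      exact X.c4'
    have := Real.exp_le_exp.1 h1
    linarith
  have hA0 : 0 ≤ A := hb0.le.trans hAb
  refine ⟨⌊A / h⌋₊, ⌊A2 / h⌋₊, Nat.floor_le_floor (div_le_div_of_nonneg_right hAA h0.le),
    ?_, ?_, ?_, ?_⟩
  · have h1 : (⌊A / h⌋₊ : ℝ) * h ≤ A := by
      rw [← le_div_iff₀ h0]; exact Nat.floor_le (by positivity)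
    rw [le_div_iff₀ h0, mul_comm, ← eA]
    unfold JDy
    exact Real.exp_le_exp.2 (by linarith)
  · have h1 : A2 < ((⌊A2 / h⌋₊ : ℝ) + 1) * h := by
      rw [← div_lt_iff₀ h0]; exact Nat.lt_floor_add_one _
    rw [div_le_iff₀ h0]
    calc JDy h ⌊A2 / h⌋₊ ≤ Real.exp (h + -A2) := by
          unfold JDy
          exact Real.exp_le_exp.2 (by linarith)
      _ = _ := by rw [Real.exp_add, eA2]; ring
  · intro t ht
    have h1 : A < ((⌊A / h⌋₊ : ℝ) + 1) * h := by
      rw [← div_lt_iff₀ h0]; exact Nat.lt_floor_add_one _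
    have h2 : ((⌊A / h⌋₊ : ℝ) + 1) ≤ t := by exact_mod_cast ht
    have h3 := mul_le_mul_of_nonneg_right h2 h0.le
    constructor
    · rw [← eA]
      unfold JDy
      exact Real.exp_le_exp.2 (by linarith)
    · linarith
  · intro t ht
    have h1 : (⌊A2 / h⌋₊ : ℝ) * h ≤ A2 := by
      rw [← le_div_iff₀ h0]; exact Nat.floor_le (by
        have := hA0.trans hAA
        positivity)
    have h2 : (t : ℝ) ≤ ⌊A2 / h⌋₊ := by exact_mod_cast ht
    have h3 := mul_le_mul_of_nonneg_right h2 h0.le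
    constructor
    · rw [← eA2]
      unfold JDy
      exact Real.exp_le_exp.2 (by linarith)
    · linarith

theorem JDX.r_bound (X : JDX n L h C C1 w a P B ε Q d e) (r : ℕ) (hr : r * h ≤ (1 + ε) * B) :
    (r : ℝ) ≤ 2 * L * Real.exp (L / 2) := by
  have e1 : (r : ℝ) * (Real.exp (-(L / 2)) / 2) ≤ L :=
    (mul_le_mul_of_nonneg_left X.A.low (Nat.cast_nonneg r)).trans (hr.trans X.c3)
  have e2 : Real.exp (L / 2) * Real.exp (-(L / 2)) = 1 := by rw [← Real.exp_add]; simp
  have e3 : (r : ℝ) = r * (Real.exp (-(L / 2)) / 2) * (2 * Real.exp (L / 2)) := by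
    linear_combination (-(r : ℝ)) * e2
  rw [e3]
  calc (r : ℝ) * (Real.exp (-(L / 2)) / 2) * (2 * Real.exp (L / 2)) ≤ L * (2 * Real.exp (L / 2)) :=
        mul_le_mul_of_nonneg_right e1 (by positivity)
    _ = _ := by ring

theorem JDX.mem_PW (X : JDX n L h C C1 w a P B ε Q d e) {t r : ℕ} (ht : 1 ≤ t) (htr : t < r)
    (hr : r * h ≤ (1 + ε) * B) : (t, r) ∈ PW n := by
  have h1 := X.r_bound r hr
  have hL := X.hL
  have h2 : ((r + r : ℕ) : ℝ) ≤ n := by
    have e2 : 4 * L * Real.exp (L / 2) ≤ Real.exp L := by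
      have e3 : Real.exp L = Real.exp (L / 2) * Real.exp (L / 2) := by
        rw [← Real.exp_add]; congr 1; ring
      rw [e3]
      exact mul_le_mul_of_nonneg_right X.c3' (Real.exp_pos _).le
    rw [X.A.hn] at e2
    push_cast
    linarith
  have h3 : r + r ≤ n := by exact_mod_cast h2
  simp only [PW, mem_filter, mem_product, mem_Icc]
  omega

/-- the lower bound of the double sum over the window -/
noncomputable def JDLL (h b b' Q d β : ℝ) : ℝ :=
  h / (Real.exp h - 1) / b' * (h / (Real.exp h - 1) / (β + b' * Real.exp h) *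
      (Real.exp (-((β + b' * Real.exp h) * (Real.exp h * (d / b)))) -
        Real.exp (-((β + b' * Real.exp h) * (Q / b')))) -
        Real.exp (-(b' * (Q / b'))) * (h / (1 - Real.exp (-h)) * (Q / b')))

theorem JDX.LL (X : JDX n L h C C1 w a P B ε Q d e) {T0 T2 : ℕ} (hT : T0 ≤ T2)
    (hX0 : Q / ((1 + ε) * B) ≤ JDy h T0 / h)
    (hX2 : JDy h T2 / h ≤ Real.exp h * (d / ((1 - ε) * B)))
    (hw : ∀ t : ℕ, T0 < t → JDy h t ≤ h * (Q / ((1 + ε) * B)) ∧ (1 - ε) * B < t * h)
    {β : ℝ} (hβ : 0 ≤ β) :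
    JDLL h ((1 - ε) * B) ((1 + ε) * B) Q d β ≤
    ∑ p ∈ JDW T0 T2,
      JDy h p.1 * JDE h ((1 + ε) * B) p.1 * (JDy h p.2 * JDE h β p.2) := by
  have h0 := X.h0
  have hB := X.B0
  have hε := X.ε0
  have hQ := X.Q0
  refine JD_LL h0 (by positivity) hβ T0 T2 hT ?_ hX0 hX2
  exact JD_geo h0 (by positivity) _ (fun t ht => (hw t (mem_Ioc.1 ht).1).1)

theorem JD_card_PW (n : ℕ) : ((PW n).card : ℝ) ≤ (n : ℝ) ^ 2 := by
  have h1 : (PW n).card ≤ ((Icc 1 n) ×ˢ (Icc 1 n)).card := card_filter_le _ _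
  rw [card_product, Nat.card_Icc, Nat.add_sub_cancel] at h1
  have : (n : ℝ) ^ 2 = ((n * n : ℕ) : ℝ) := by push_cast; ring
  rw [this]
  exact_mod_cast h1

/-- the upper bound at one `n` -/
theorem JDX.upper (X : JDX n L h C C1 w a P B ε Q d e) :
    ∑ p ∈ PW n, w (p.2 + p.1) * P p.1 p.2 ≤
      Real.exp L ^ 2 * ((1 + C * Real.exp (L / 4)) *
        (C1 * Real.exp (3 * L / 4) * Real.exp (-Real.exp (ε * B))) +
        Real.exp (-(L ^ 2 / 2)) * (1 + C * Real.exp (L / 4)) * (C1 * Real.exp (3 * L / 4))) +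
      (1 + 2 * C * L ^ 2 * Real.exp (-(L / 4))) *
        ((Real.exp (-(L / 16)) + C1 * L ^ 3 * Real.exp (-(L / 8))) *
            (h / (1 - Real.exp (-h)) * Real.exp (ε * B) *
              (h / (1 - Real.exp (-h)) * Real.exp (ε * B))) +
          Real.exp (-(Q / 2)) * (h / (1 - Real.exp (-h)) / ((1 - ε) * B / 2) *
            (h / (1 - Real.exp (-h)) / ((1 - ε) * B / 2 + 0))) +
          h / (1 - Real.exp (-h)) / ((1 - ε) * B) *
            (h / (1 - Real.exp (-h)) * (d / ((1 - ε) * B))) +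
          e * (h / (1 - Real.exp (-h)) * (Q / ((1 - ε) * B)) *
            (h / (1 - Real.exp (-h)) * (Q / ((1 - ε) * B)))) +
          (h / (1 - Real.exp (-h)) / ((1 - ε) * B) *
            (h / (1 - Real.exp (-h)) / ((1 - ε) * B + 0)) -
            JDLL h ((1 - ε) * B) ((1 + ε) * B) Q d ((1 + ε) * B))) := by
  classical
  have h0 := X.h0
  have hB := X.B0
  have hε := X.ε0
  have hε1 := X.ε1
  have hQ := X.Q0
  have hd := X.d0
  have he := X.e0
  have hC := X.A.hC
  have hC1 := X.A.hC1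
  have hL := X.hL
  refine (sum_le_sum fun p hp => X.point_up p hp).trans ?_
  set b := (1 - ε) * B with hb
  set b' := (1 + ε) * B with hb'
  have hb0 : 0 < b := lt_of_lt_of_le one_pos X.b1
  have hbb : b ≤ b' := by rw [hb, hb']; nlinarith
  have hb'0 : 0 < b' := lt_of_lt_of_le hb0 hbb
  have hbexp : ∀ t : ℕ, b < t * h → JDy h t ≤ h * Real.exp (ε * B) := by
    intro t ht
    have h2 : h * Real.exp (ε * B) = Real.exp (-b) := by
      have h3 : -b = -B + ε * B := by rw [hb]; ring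
      rw [h3, Real.exp_add, X.expB]
    rw [h2]
    unfold JDy
    exact Real.exp_le_exp.2 (by linarith)
  rw [sum_add_distrib, sum_const, nsmul_eq_mul, ← mul_sum]
  have hlt : ∀ p ∈ PW n, p.1 < p.2 := by
    intro p hp
    simp only [PW, mem_filter] at hp
    exact hp.2.1
  apply add_le_add
  · apply mul_le_mul_of_nonneg_right _ (by positivity)
    rw [X.A.hn]
    exact JD_card_PW n
  apply mul_le_mul_of_nonneg_left _ (by positivity)
  simp only [sum_add_distrib]
  have sD : ∑ p ∈ PW n, JDGD h b (Real.exp (-(L / 16)) + C1 * L ^ 3 * Real.exp (-(L / 8))) p ≤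
      (Real.exp (-(L / 16)) + C1 * L ^ 3 * Real.exp (-(L / 8))) *
            (h / (1 - Real.exp (-h)) * Real.exp (ε * B) *
              (h / (1 - Real.exp (-h)) * Real.exp (ε * B))) := by
    simp only [JDGD]
    rw [← sum_filter, ← mul_sum]
    apply mul_le_mul_of_nonneg_left _ (by positivity)
    refine JD_prod (f := JDy h) (g := JDy h) _ (fun t : ℕ => b < t * h) (fun t : ℕ => b < t * h)
      (fun x hx => (mem_filter.1 hx).2)
      (fun t => (JDy_pos h t).le) (fun t => (JDy_pos h t).le) ?_ ?_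
    · intro s hs
      exact JD_geo h0 (Real.exp_pos _) s (fun t ht => hbexp t (hs t ht))
    · intro s hs
      exact JD_geo h0 (Real.exp_pos _) s (fun t ht => hbexp t (hs t ht))
  have s1 : ∑ p ∈ PW n, JDG1 h b Q p ≤
      Real.exp (-(Q / 2)) * (h / (1 - Real.exp (-h)) / (b / 2) *
            (h / (1 - Real.exp (-h)) / (b / 2 + 0))) := by
    simp only [JDG1]
    rw [← sum_filter, ← mul_sum]
    apply mul_le_mul_of_nonneg_left _ (Real.exp_pos _).le
    have := JD_UU h0 (by positivity : 0 < b / 2) le_rfl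
      ((PW n).filter (fun p => b < p.1 * h)) (fun p hp => hlt p (mem_filter.1 hp).1)
    simp only [JDE_zero, mul_one] at this
    exact this
  have s2 : ∑ p ∈ PW n, JDG2 h b d p ≤ h / (1 - Real.exp (-h)) / b *
            (h / (1 - Real.exp (-h)) * (d / b)) := by
    simp only [JDG2]
    rw [← sum_filter]
    refine JD_prod (f := fun t => JDy h t * JDE h b t) (g := JDy h) _ (fun _ : ℕ => True)
      (fun t : ℕ => JDy h t ≤ h * (d / b))
      (fun x hx => ⟨trivial, (mem_filter.1 hx).2.2⟩)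
      (fun t => (mul_pos (JDy_pos h t) (JDE_pos h b t)).le) (fun t => (JDy_pos h t).le) ?_ ?_
    · intro s _
      exact JD_tel_up' h0 hb0 s
    · intro s hs
      exact JD_geo h0 (by positivity) s hs
  have s3 : ∑ p ∈ PW n, JDG3 h b Q e p ≤ e * (h / (1 - Real.exp (-h)) * (Q / b) *
            (h / (1 - Real.exp (-h)) * (Q / b))) := by
    simp only [JDG3]
    rw [← sum_filter, ← mul_sum]
    apply mul_le_mul_of_nonneg_left _ he.le
    refine JD_prod (f := JDy h) (g := JDy h) _ (fun t : ℕ => JDy h t ≤ h * (Q / b))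
      (fun t : ℕ => JDy h t ≤ h * (Q / b))
      (fun x hx => (mem_filter.1 hx).2)
      (fun t => (JDy_pos h t).le) (fun t => (JDy_pos h t).le) ?_ ?_
    · intro s hs
      exact JD_geo h0 (by positivity) s hs
    · intro s hs
      exact JD_geo h0 (by positivity) s hs
  have s4 : ∑ p ∈ PW n, JDG4 h b b' p ≤ h / (1 - Real.exp (-h)) / b *
            (h / (1 - Real.exp (-h)) / (b + 0)) - JDLL h b b' Q d b' := by
    simp only [JDG4]
    rw [← sum_filter, sum_sub_distrib]
    apply sub_le_sub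
    · have := JD_UU h0 hb0 le_rfl
        ((PW n).filter (fun p => b < p.1 * h ∧ p.2 * h ≤ b')) (fun p hp => hlt p (mem_filter.1 hp).1)
      simp only [JDE_zero, mul_one] at this
      exact this
    · obtain ⟨T0, T2, hT, hX0, hX2, hw0, hw2⟩ := X.window
      refine (X.LL hT hX0 hX2 hw0 hb'0.le).trans ?_
      apply sum_le_sum_of_subset_of_nonneg
      · rintro ⟨t, r⟩ hp
        simp only [JDW, mem_filter, mem_product, mem_Ioc] at hp
        obtain ⟨⟨⟨ht0, ht2⟩, ⟨hr0, hr2⟩⟩, htr⟩ := hp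
        rw [mem_filter]
        exact ⟨X.mem_PW (by omega) htr (hw2 r hr2).2, (hw0 t ht0).2, (hw2 r hr2).2⟩
      · intro p _ _
        exact mul_nonneg (mul_nonneg (JDy_pos _ _).le (JDE_pos _ _ _).le)
          (mul_nonneg (JDy_pos _ _).le (JDE_pos _ _ _).le)
  linarith

/-- the lower bound at one `n` -/
theorem JDX.lower (X : JDX n L h C C1 w a P B ε Q d e) :
    (1 - 2 * C * L ^ 2 * Real.exp (-(L / 4))) *
      (JDLL h ((1 - ε) * B) ((1 + ε) * B) Q d 0 -
        h / (1 - Real.exp (-h)) / ((1 + ε) * B) *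
          (h / (1 - Real.exp (-h)) / ((1 + ε) * B + (1 - ε) * B)) -
        e * (h / (1 - Real.exp (-h)) * (Q / ((1 + ε) * B)) *
            (h / (1 - Real.exp (-h)) * (Q / ((1 + ε) * B))))) ≤
    ∑ p ∈ PW n, w (p.2 + p.1) * P p.1 p.2 := by
  classical
  have h0 := X.h0
  have hB := X.B0
  have hε := X.ε0
  have hε1 := X.ε1
  have hQ := X.Q0
  have hd := X.d0
  have he := X.e0
  have hC := X.A.hC
  have hC1 := X.A.hC1
  have hL := X.hL
  obtain ⟨T0, T2, hT, hX0, hX2, hw0, hw2⟩ := X.window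
  have hLL := X.LL hT hX0 hX2 hw0 le_rfl
  have c5 := X.c5
  set b := (1 - ε) * B with hb
  set b' := (1 + ε) * B with hb'
  have hb0 : 0 < b := lt_of_lt_of_le one_pos X.b1
  have hbb : b ≤ b' := by rw [hb, hb']; nlinarith
  have hb'0 : 0 < b' := lt_of_lt_of_le hb0 hbb
  set K := 1 - 2 * C * L ^ 2 * Real.exp (-(L / 4)) with hK
  have hsub : JDW T0 T2 ⊆ PW n := by
    rintro ⟨t, r⟩ hp
    simp only [JDW, mem_filter, mem_product, mem_Ioc] at hp
    obtain ⟨⟨⟨ht0, ht2⟩, ⟨hr0, hr2⟩⟩, htr⟩ := hp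
    exact X.mem_PW (by omega) htr (hw2 r hr2).2
  have hterm : ∀ p ∈ JDW T0 T2,
      K * (JDy h p.1 * JDE h b' p.1 * (JDy h p.2 * JDE h 0 p.2) -
        JDy h p.1 * JDE h b' p.1 * (JDy h p.2 * JDE h b p.2) - e * (JDy h p.1 * JDy h p.2)) ≤
      w (p.2 + p.1) * P p.1 p.2 := by
    rintro ⟨t, r⟩ hp
    have hPW := hsub hp
    simp only [JDW, mem_filter, mem_product, mem_Ioc] at hp
    obtain ⟨⟨⟨ht0, ht2⟩, ⟨hr0, hr2⟩⟩, htr⟩ := hp
    simp only [PW, mem_filter, mem_product, mem_Icc] at hPW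
    obtain ⟨-, -, hsum⟩ := hPW
    have hrb := X.r_bound r (hw2 r hr2).2
    have hr4 : (r : ℝ) ≤ Real.exp (L / 2) * L ^ 2 := by
      refine hrb.trans ?_
      have : 2 * L ≤ L ^ 2 := by nlinarith
      have := mul_le_mul_of_nonneg_right this (Real.exp_pos (L / 2)).le
      linarith
    have hw := (X.w_mid htr (by omega) hr4).2
    have hyt := JDy_pos h t
    have hyr := JDy_pos h r
    have hyy : 0 < JDy h t * JDy h r := mul_pos hyt hyr
    have hP0 := X.P0 t r
    -- the arguments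
    have t1 : b < t * h := (hw0 t ht0).2
    have r2 : r * h ≤ b' := (hw2 r hr2).2
    have htr' : (t : ℝ) ≤ r := by exact_mod_cast htr.le
    have t2 : t * h ≤ b' := (mul_le_mul_of_nonneg_right htr' h0.le).trans r2
    have r1 : b < r * h := lt_of_lt_of_le t1 (mul_le_mul_of_nonneg_right htr' h0.le)
    have hqt : qq h t ≤ b' * (JDy h t / h) := by
      rw [JD_qq h h0]
      exact mul_le_mul_of_nonneg_right t2 (by positivity)
    have hqr : b * (JDy h r / h) ≤ qq h r := by
      rw [JD_qq h h0]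
      exact mul_le_mul_of_nonneg_right r1.le (by positivity)
    have hQt : qq h t ≤ Q := by
      refine hqt.trans ?_
      have h1 := (hw0 t ht0).1
      have h2 : JDy h t / h ≤ Q / b' := by
        rw [div_le_iff₀ h0]
        linarith
      have h3 := mul_le_mul_of_nonneg_left h2 hb'0.le
      have h4 : b' * (Q / b') = Q := by field_simp
      linarith
    have hdr : d ≤ qq h r := by
      refine le_trans ?_ hqr
      have h1 := (hw2 r hr2).1
      have h2 : d / b ≤ JDy h r / h := by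
        rw [le_div_iff₀ h0]
        linarith
      have h3 := mul_le_mul_of_nonneg_left h2 hb0.le
      have h4 : b * (d / b) = d := by field_simp
      linarith
    have hJ := (abs_le.1 (X.J t r (X.b1.trans t1.le) htr hQt hdr)).1
    have e1 : JDE h b' t ≤ Real.exp (-qq h t) := by
      unfold JDE
      exact Real.exp_le_exp.2 (by linarith)
    have e2 : Real.exp (-qq h r) ≤ JDE h b r := by
      unfold JDE
      exact Real.exp_le_exp.2 (by linarith)
    have e3 : JDE h b r ≤ 1 := JDE_le_one h0 hb0.le r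
    have e4 : JDE h b' t * (1 - JDE h b r) ≤ Real.exp (-qq h t) * (1 - Real.exp (-qq h r)) :=
      mul_le_mul e1 (by linarith) (by linarith) (Real.exp_pos _).le
    have e5 : JDE h b' t * (1 - JDE h b r) - e ≤ P t r := by linarith
    rw [JDE_zero, mul_one]
    calc K * (JDy h t * JDE h b' t * JDy h r -
        JDy h t * JDE h b' t * (JDy h r * JDE h b r) - e * (JDy h t * JDy h r)) =
        K * (JDy h t * JDy h r) * (JDE h b' t * (1 - JDE h b r) - e) := by ring
      _ ≤ K * (JDy h t * JDy h r) * P t r :=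
          mul_le_mul_of_nonneg_left e5 (mul_nonneg c5 hyy.le)
      _ ≤ w (r + t) * P t r := mul_le_mul_of_nonneg_right hw hP0
  refine le_trans ?_ ((sum_le_sum hterm).trans
    (sum_le_sum_of_subset_of_nonneg hsub fun p _ _ => mul_nonneg (X.A.w0 _) (X.P0 _ _)))
  rw [← mul_sum]
  apply mul_le_mul_of_nonneg_left _ c5
  rw [sum_sub_distrib, sum_sub_distrib, ← mul_sum]
  have hlt : ∀ p ∈ JDW T0 T2, p.1 < p.2 := by
    intro p hp
    simp only [JDW, mem_filter] at hp
    exact hp.2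
  have s1 := JD_UU h0 hb'0 hb0.le (JDW T0 T2) hlt
  have s2 : ∑ p ∈ JDW T0 T2, JDy h p.1 * JDy h p.2 ≤ h / (1 - Real.exp (-h)) * (Q / b') *
            (h / (1 - Real.exp (-h)) * (Q / b')) := by
    refine JD_prod (f := JDy h) (g := JDy h) _ (fun t : ℕ => JDy h t ≤ h * (Q / b'))
      (fun t : ℕ => JDy h t ≤ h * (Q / b')) (fun x hx => ?_)
      (fun t => (JDy_pos h t).le) (fun t => (JDy_pos h t).le) ?_ ?_
    · simp only [JDW, mem_filter, mem_product, mem_Ioc] at hx
      exact ⟨(hw0 _ hx.1.1.1).1, (hw0 _ hx.1.2.1).1⟩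
    · intro s hs
      exact JD_geo h0 (by positivity) s hs
    · intro s hs
      exact JD_geo h0 (by positivity) s hs
  have s3 := mul_le_mul_of_nonneg_left s2 he.le
  linarith

end ZT68
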