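/-
MP_1882ea_al, helper72 (plan: helper22).  Row JD: the limit of the main term of second order.
-/
import Mathlib
import Pool.Agent.Lib.ZT68.JDc

namespace ZT68

open Finset Filter

/-! ### Limit expressions -/

/-- limit form of `JDLL` -/
noncomputable def JDLf (ε Q d j k1 k2 g β : ℝ) : ℝ :=
  k2 * β / (1 + ε) * (k2 * β / ((1 + ε) * (j + g)) *
    (Real.exp (-((j + g) * ((1 + ε) * (g * (d / (1 - ε)))))) - Real.exp (-((j + g) * Q))) -
    Real.exp (-Q) * (k1 * (Q * (β / (1 + ε)))))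

theorem JDLL_eq {L h B ε Q d j : ℝ} (hε : 0 < ε) (hε1 : ε < 1) (hB : 0 < B) (hj : 0 ≤ j) :
    JDLL h ((1 - ε) * B) ((1 + ε) * B) Q d (j * ((1 + ε) * B)) * L ^ 2 =
      JDLf ε Q d j (h / (1 - Real.exp (-h))) (h / (Real.exp h - 1)) (Real.exp h) (L / B) := by
  unfold JDLL JDLf
  set k1 := h / (1 - Real.exp (-h)) with hk1
  set k2 := h / (Real.exp h - 1) with hk2
  have hg : 0 < Real.exp h := Real.exp_pos h
  set g := Real.exp h with hgdef
  have h1 : 0 < 1 - ε := by linarith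
  have h2 : 0 < 1 + ε := by linarith
  have h3 : 0 < j + g := by linarith
  have e1 : j * ((1 + ε) * B) + (1 + ε) * B * g = (j + g) * ((1 + ε) * B) := by ring
  rw [e1]
  have e2 : (j + g) * ((1 + ε) * B) * (g * (d / ((1 - ε) * B))) =
      (j + g) * ((1 + ε) * (g * (d / (1 - ε)))) := by
    field_simp
  have e3 : (j + g) * ((1 + ε) * B) * (Q / ((1 + ε) * B)) = (j + g) * Q := by
    field_simp
  have e4 : (1 + ε) * B * (Q / ((1 + ε) * B)) = Q := by
    field_simp
  rw [e2, e3, e4]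
  field_simp

theorem JDLf_tendsto {α : Type*} {l : Filter α} {ε Q d j : ℝ} {k1 k2 g β : α → ℝ}
    {k1' k2' g' β' : ℝ}
    (h1 : Tendsto k1 l (nhds k1')) (h2 : Tendsto k2 l (nhds k2')) (h3 : Tendsto g l (nhds g'))
    (h4 : Tendsto β l (nhds β')) (hne : (1 + ε) * (j + g') ≠ 0) :
    Tendsto (fun n => JDLf ε Q d j (k1 n) (k2 n) (g n) (β n)) l
      (nhds (JDLf ε Q d j k1' k2' g' β')) := by
  unfold JDLf
  have a1 := (h2.mul h4)
  have a2 := (h3.const_add j).const_mul (1 + ε)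
  have a3 := a1.div a2 hne
  have a4 := (Real.continuous_exp.tendsto _).comp
    (((h3.const_add j).mul ((h3.mul_const (d / (1 - ε))).const_mul (1 + ε))).neg)
  have a5 := (Real.continuous_exp.tendsto _).comp (((h3.const_add j).mul_const Q).neg)
  have a6 := (h1.mul ((h4.div_const (1 + ε)).const_mul Q)).const_mul (Real.exp (-Q))
  exact (a1.div_const (1 + ε)).mul ((a3.mul (a4.sub a5)).sub a6)

/-- limit form of the upper bound -/
noncomputable def JDUf (ε Q d e k1 k2 g β : ℝ) : ℝ :=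
  Real.exp (-(Q / 2)) * (4 * (k1 * β / (1 - ε)) ^ 2) + d * (k1 * β / (1 - ε)) ^ 2 +
    e * Q ^ 2 * (k1 * β / (1 - ε)) ^ 2 + ((k1 * β / (1 - ε)) ^ 2 - JDLf ε Q d 1 k1 k2 g β)

/-- limit form of the lower bound -/
noncomputable def JDVf (ε Q d e k1 k2 g β : ℝ) : ℝ :=
  JDLf ε Q d 0 k1 k2 g β - k1 * β / (1 + ε) * (k1 * β / 2) - e * Q ^ 2 * (k1 * β / (1 + ε)) ^ 2

theorem JDUf_tendsto {α : Type*} {l : Filter α} {ε Q d e : ℝ} {k1 k2 g β : α → ℝ}
    {k1' k2' g' β' : ℝ}
    (h1 : Tendsto k1 l (nhds k1')) (h2 : Tendsto k2 l (nhds k2')) (h3 : Tendsto g l (nhds g'))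
    (h4 : Tendsto β l (nhds β')) (hne : (1 + ε) * (1 + g') ≠ 0) :
    Tendsto (fun n => JDUf ε Q d e (k1 n) (k2 n) (g n) (β n)) l
      (nhds (JDUf ε Q d e k1' k2' g' β')) := by
  unfold JDUf
  have a1 := ((h1.mul h4).div_const (1 - ε)).pow 2
  exact ((((a1.const_mul 4).const_mul _).add (a1.const_mul d)).add (a1.const_mul _)).add
    (a1.sub (JDLf_tendsto h1 h2 h3 h4 hne))

theorem JDVf_tendsto {α : Type*} {l : Filter α} {ε Q d e : ℝ} {k1 k2 g β : α → ℝ}
    {k1' k2' g' β' : ℝ}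
    (h1 : Tendsto k1 l (nhds k1')) (h2 : Tendsto k2 l (nhds k2')) (h3 : Tendsto g l (nhds g'))
    (h4 : Tendsto β l (nhds β')) (hne : (1 + ε) * (0 + g') ≠ 0) :
    Tendsto (fun n => JDVf ε Q d e (k1 n) (k2 n) (g n) (β n)) l
      (nhds (JDVf ε Q d e k1' k2' g' β')) := by
  unfold JDVf
  have a1 := h1.mul h4
  exact ((JDLf_tendsto h1 h2 h3 h4 hne).sub ((a1.div_const (1 + ε)).mul (a1.div_const 2))).sub
    (((a1.div_const (1 + ε)).pow 2).const_mul _)

/-! ### The limits for `Q → ∞` -/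

theorem JD_inv_lim : Tendsto (fun Q : ℝ => 1 / Q) atTop (nhds 0) :=
  tendsto_const_nhds.div_atTop tendsto_id

theorem JD_expQ_lim {c : ℝ} (hc : 0 < c) : Tendsto (fun Q : ℝ => Real.exp (-(c * Q))) atTop (nhds 0) := by
  have := AS_lim_pow 0 hc
  simpa using this

theorem JDLf_limQ (j : ℝ) (hj : 0 ≤ j) :
    Tendsto (fun Q : ℝ => JDLf (1 / Q) Q (1 / Q) j 1 1 1 2) atTop
      (nhds (2 * (2 / (j + 1)))) := by
  unfold JDLf
  have h1 := JD_inv_lim
  have h2 : Tendsto (fun Q : ℝ => 1 + 1 / Q) atTop (nhds (1 + 0)) := h1.const_add 1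
  have h3 : Tendsto (fun Q : ℝ => 1 - 1 / Q) atTop (nhds (1 - 0)) := h1.const_sub 1
  have a1 : Tendsto (fun Q : ℝ => (1 : ℝ) * 2 / (1 + 1 / Q)) atTop (nhds (1 * 2 / (1 + 0))) :=
    tendsto_const_nhds.div h2 (by norm_num)
  have a2 : Tendsto (fun Q : ℝ => (1 : ℝ) * 2 / ((1 + 1 / Q) * (j + 1))) atTop
      (nhds (1 * 2 / ((1 + 0) * (j + 1)))) :=
    tendsto_const_nhds.div (h2.mul_const (j + 1)) (by positivity)
  have a3 : Tendsto (fun Q : ℝ => Real.exp (-((j + 1) * ((1 + 1 / Q) *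
      (1 * (1 / Q / (1 - 1 / Q))))))) atTop
      (nhds (Real.exp (-((j + 1) * ((1 + 0) * (1 * (0 / (1 - 0)))))))) :=
    (Real.continuous_exp.tendsto _).comp
      (((h2.mul ((h1.div h3 (by norm_num)).const_mul 1)).const_mul (j + 1)).neg)
  have a4 : Tendsto (fun Q : ℝ => Real.exp (-((j + 1) * Q))) atTop (nhds 0) :=
    JD_expQ_lim (by positivity)
  have a5 : Tendsto (fun Q : ℝ => Real.exp (-Q) * (1 * (Q * (2 / (1 + 1 / Q))))) atTop
      (nhds (0 * (2 / (1 + 0)))) := by
    have b1 : Tendsto (fun Q : ℝ => Real.exp (-Q) * Q) atTop (nhds 0) := by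
      have := AS_lim_pow 1 one_pos
      refine this.congr fun x => ?_
      rw [pow_one, one_mul, mul_comm]
    have b2 : Tendsto (fun Q : ℝ => (2 : ℝ) / (1 + 1 / Q)) atTop (nhds (2 / (1 + 0))) :=
      tendsto_const_nhds.div h2 (by norm_num)
    refine (b1.mul b2).congr fun x => ?_
    ring
  have a6 := a1.mul ((a2.mul (a3.sub a4)).sub a5)
  have e : (1 : ℝ) * 2 / (1 + 0) * (1 * 2 / ((1 + 0) * (j + 1)) *
      (Real.exp (-((j + 1) * ((1 + 0) * (1 * (0 / (1 - 0)))))) - 0) - 0 * (2 / (1 + 0))) =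
      2 * (2 / (j + 1)) := by
    norm_num
  rw [e] at a6
  exact a6

theorem JDUf_limQ :
    Tendsto (fun Q : ℝ => JDUf (1 / Q) Q (1 / Q) (1 / Q ^ 3) 1 1 1 2) atTop (nhds 2) := by
  unfold JDUf
  have h1 := JD_inv_lim
  have h3 : Tendsto (fun Q : ℝ => 1 - 1 / Q) atTop (nhds (1 - 0)) := h1.const_sub 1
  have a1 : Tendsto (fun Q : ℝ => ((1 : ℝ) * 2 / (1 - 1 / Q)) ^ 2) atTop
      (nhds ((1 * 2 / (1 - 0)) ^ 2)) :=
    (tendsto_const_nhds.div h3 (by norm_num)).pow 2
  have a2 : Tendsto (fun Q : ℝ => Real.exp (-(Q / 2))) atTop (nhds 0) := by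
    refine (JD_expQ_lim (by norm_num : (0 : ℝ) < 1 / 2)).congr fun x => ?_
    congr 1
    ring
  have a3 : Tendsto (fun Q : ℝ => 1 / Q ^ 3 * Q ^ 2) atTop (nhds 0) := by
    refine h1.congr' ?_
    filter_upwards [eventually_gt_atTop 0] with Q hQ
    field_simp
  have a4 := (((a2.mul (a1.const_mul 4)).add (h1.mul a1)).add (a3.mul a1)).add
    (a1.sub (JDLf_limQ 1 zero_le_one))
  have e : (0 : ℝ) * (4 * (1 * 2 / (1 - 0)) ^ 2) + 0 * (1 * 2 / (1 - 0)) ^ 2 +
      0 * (1 * 2 / (1 - 0)) ^ 2 + ((1 * 2 / (1 - 0)) ^ 2 - 2 * (2 / (1 + 1))) = 2 := by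
    norm_num
  rw [e] at a4
  exact a4

theorem JDVf_limQ :
    Tendsto (fun Q : ℝ => JDVf (1 / Q) Q (1 / Q) (1 / Q ^ 3) 1 1 1 2) atTop (nhds 2) := by
  unfold JDVf
  have h1 := JD_inv_lim
  have h2 : Tendsto (fun Q : ℝ => 1 + 1 / Q) atTop (nhds (1 + 0)) := h1.const_add 1
  have a1 : Tendsto (fun Q : ℝ => ((1 : ℝ) * 2 / (1 + 1 / Q))) atTop
      (nhds (1 * 2 / (1 + 0))) :=
    (tendsto_const_nhds.div h2 (by norm_num))
  have a3 : Tendsto (fun Q : ℝ => 1 / Q ^ 3 * Q ^ 2) atTop (nhds 0) := by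
    refine h1.congr' ?_
    filter_upwards [eventually_gt_atTop 0] with Q hQ
    field_simp
  have a4 := ((JDLf_limQ 0 le_rfl).sub (a1.mul_const (1 * 2 / 2))).sub (a3.mul (a1.pow 2))
  have e : 2 * (2 / ((0 : ℝ) + 1)) - 1 * 2 / (1 + 0) * (1 * 2 / 2) -
      0 * (1 * 2 / (1 + 0)) ^ 2 = 2 := by
    norm_num
  rw [e] at a4
  exact a4

/-! ### The limits for `n → ∞` -/

section
variable {L h : ℕ → ℝ}

theorem JD_lim_sq {c : ℝ} (hc : 0 < c) :
    Tendsto (fun x : ℝ => x ^ 2 * Real.exp (3 * x) * Real.exp (-(c * x ^ 2))) atTop (nhds 0) := by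
  have h1 := AS_lim_pow 2 one_pos
  refine squeeze_zero' ?_ ?_ h1
  · filter_upwards [eventually_ge_atTop 0] with x hx
    positivity
  · filter_upwards [eventually_ge_atTop (4 / c), eventually_ge_atTop 0] with x hx hx0
    rw [mul_assoc, ← Real.exp_add]
    apply mul_le_mul_of_nonneg_left _ (by positivity)
    apply Real.exp_le_exp.2
    rw [div_le_iff₀ hc] at hx
    nlinarith

/-- the small terms -/
theorem JD_E_lim (hL : Tendsto L atTop atTop)
    (h1 : ∀ᶠ n in atTop, Real.exp (-(L n / 2)) / 2 ≤ h n ∧ h n ≤ 2 * Real.exp (-(L n / 2)))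
    {C C1 ε : ℝ} (hC : 0 < C) (hC1 : 0 < C1) (hε : 0 < ε) :
    Tendsto (fun n => Real.exp (L n) ^ 2 * ((1 + C * Real.exp (L n / 4)) *
        (C1 * Real.exp (3 * L n / 4) * Real.exp (-Real.exp (ε * (-Real.log (h n))))) +
        Real.exp (-(L n ^ 2 / 2)) * (1 + C * Real.exp (L n / 4)) *
          (C1 * Real.exp (3 * L n / 4))) * L n ^ 2) atTop (nhds 0) := by
  have hcr : ∀ n, 0 ≤ L n → Real.exp (L n) ^ 2 * (1 + C * Real.exp (L n / 4)) *
      (C1 * Real.exp (3 * L n / 4)) ≤ (1 + C) * C1 * Real.exp (3 * L n) := by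
    intro n hn
    have e1 : 1 + C * Real.exp (L n / 4) ≤ (1 + C) * Real.exp (L n / 4) := by
      have : 1 ≤ Real.exp (L n / 4) := Real.one_le_exp (by linarith)
      linarith
    have e2 : Real.exp (L n) ^ 2 * ((1 + C) * Real.exp (L n / 4)) * (C1 * Real.exp (3 * L n / 4)) =
        (1 + C) * C1 * Real.exp (3 * L n) := by
      have : Real.exp (3 * L n) = Real.exp (L n) ^ 2 * Real.exp (L n / 4) *
          Real.exp (3 * L n / 4) := by
        rw [sq, ← Real.exp_add, ← Real.exp_add, ← Real.exp_add]; congr 1; ring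
      rw [this]; ring
    rw [← e2]
    gcongr
  have hsq : ∀ c : ℝ, 0 < c → Tendsto (fun n => (1 + C) * C1 *
      (L n ^ 2 * Real.exp (3 * L n) * Real.exp (-(c * L n ^ 2)))) atTop (nhds 0) := by
    intro c hc
    have := ((JD_lim_sq hc).comp hL).const_mul ((1 + C) * C1)
    rw [mul_zero] at this
    exact this
  have hs := (hsq (ε ^ 2 / 32) (by positivity)).add (hsq (1 / 2) (by norm_num))
  rw [add_zero] at hs
  refine squeeze_zero' ?_ ?_ hs
  · filter_upwards [hL.eventually_ge_atTop 0] with n hn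
    positivity
  · filter_upwards [h1, hL.eventually_ge_atTop (4 * Real.log 2), hL.eventually_ge_atTop 0]
      with n hn hn1 hn2
    have e1 : Real.exp (-Real.exp (ε * (-Real.log (h n)))) ≤
        Real.exp (-(ε ^ 2 / 32 * L n ^ 2)) := by
      apply Real.exp_le_exp.2
      have e2 := (AS_B_bd hn.1 hn.2).1
      have e3 : 0 ≤ ε * (L n / 4) := by positivity
      have e4 : ε * (L n / 4) ≤ ε * (-Real.log (h n)) :=
        mul_le_mul_of_nonneg_left (by linarith) hε.le
      have e5 := Real.quadratic_le_exp_of_nonneg e3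
      have e6 := Real.exp_le_exp.2 e4
      nlinarith
    have e7 := hcr n hn2
    have e8 : 0 ≤ Real.exp (L n) ^ 2 * (1 + C * Real.exp (L n / 4)) *
      (C1 * Real.exp (3 * L n / 4)) := by positivity
    have e9 : Real.exp (-(L n ^ 2 / 2)) = Real.exp (-(1 / 2 * L n ^ 2)) := by
      congr 1; ring
    calc Real.exp (L n) ^ 2 * ((1 + C * Real.exp (L n / 4)) *
        (C1 * Real.exp (3 * L n / 4) * Real.exp (-Real.exp (ε * (-Real.log (h n))))) +
        Real.exp (-(L n ^ 2 / 2)) * (1 + C * Real.exp (L n / 4)) *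
          (C1 * Real.exp (3 * L n / 4))) * L n ^ 2 =
        (Real.exp (L n) ^ 2 * (1 + C * Real.exp (L n / 4)) * (C1 * Real.exp (3 * L n / 4))) *
          (Real.exp (-Real.exp (ε * (-Real.log (h n)))) + Real.exp (-(1 / 2 * L n ^ 2))) *
            L n ^ 2 := by
          rw [e9]; ring
      _ ≤ ((1 + C) * C1 * Real.exp (3 * L n)) *
          (Real.exp (-(ε ^ 2 / 32 * L n ^ 2)) + Real.exp (-(1 / 2 * L n ^ 2))) * L n ^ 2 := by
          apply mul_le_mul_of_nonneg_right _ (by positivity)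
          exact mul_le_mul e7 (by linarith) (by positivity) (by positivity)
      _ = _ := by ring

/-- the terms with `D` -/
theorem JD_D_lim (hL : Tendsto L atTop atTop)
    (h1 : ∀ᶠ n in atTop, Real.exp (-(L n / 2)) / 2 ≤ h n ∧ h n ≤ 2 * Real.exp (-(L n / 2)))
    {C1 ε : ℝ} (hC1 : 0 < C1) (hε : 0 < ε) (hε1 : ε ≤ 1 / 32) :
    Tendsto (fun n => (Real.exp (-(L n / 16)) + C1 * L n ^ 3 * Real.exp (-(L n / 8))) *
            (h n / (1 - Real.exp (-h n)) * Real.exp (ε * (-Real.log (h n))) *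
              (h n / (1 - Real.exp (-h n)) * Real.exp (ε * (-Real.log (h n))))) * L n ^ 2)
      atTop (nhds 0) := by
  have hpw : ∀ (k : ℕ) (c : ℝ), 0 < c → Tendsto (fun n => L n ^ k * Real.exp (-(c * L n))) atTop
      (nhds 0) := fun k c hc => (AS_lim_pow k hc).comp hL
  have q1 := (AS_q1 hL h1).pow 2
  have e1 := ((hpw 2 (1 / 32) (by norm_num)).const_mul 4).add
      ((hpw 5 (3 / 32) (by norm_num)).const_mul (4 * C1))
  rw [mul_zero, mul_zero, add_zero] at e1
  have e2 := q1.mul e1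
  rw [mul_zero] at e2
  refine squeeze_zero' ?_ ?_ e2
  · filter_upwards [h1, hL.eventually_ge_atTop 0] with n hn hn0
    have h0 := AS_h_pos hn.1
    have := JD_k1_pos h0
    positivity
  · filter_upwards [h1, hL.eventually_ge_atTop 0] with n hn hn0
    have h0 := AS_h_pos hn.1
    have hk := JD_k1_pos h0
    have e5 : Real.exp (ε * (-Real.log (h n))) ^ 2 ≤ 4 * Real.exp (L n / 32) := by
      have e6 := (AS_B_bd hn.1 hn.2).2
      have hl2 : 0 ≤ Real.log 2 := Real.log_nonneg (by norm_num)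
      have e7 : 2 * (ε * (-Real.log (h n))) ≤ L n / 32 + 2 * Real.log 2 := by
        calc 2 * (ε * (-Real.log (h n))) ≤ 2 * (ε * (L n / 2 + Real.log 2)) :=
              mul_le_mul_of_nonneg_left (mul_le_mul_of_nonneg_left e6 hε.le) (by norm_num)
          _ ≤ 2 * (1 / 32 * (L n / 2 + Real.log 2)) :=
              mul_le_mul_of_nonneg_left (mul_le_mul_of_nonneg_right hε1 (by positivity))
                (by norm_num)
          _ ≤ _ := by linarith
      have e8 := Real.exp_le_exp.2 e7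
      rw [Real.exp_add] at e8
      have e9 : Real.exp (2 * Real.log 2) = 4 := by
        have : 2 * Real.log 2 = Real.log 4 := by
          rw [show (4 : ℝ) = 2 ^ 2 by norm_num, Real.log_pow]
          norm_num
        rw [this, Real.exp_log (by norm_num)]
      rw [e9] at e8
      rw [← Real.exp_nat_mul]
      push_cast
      linarith
    have hD : 0 ≤ Real.exp (-(L n / 16)) + C1 * L n ^ 3 * Real.exp (-(L n / 8)) := by positivity
    calc (Real.exp (-(L n / 16)) + C1 * L n ^ 3 * Real.exp (-(L n / 8))) *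
            (h n / (1 - Real.exp (-h n)) * Real.exp (ε * (-Real.log (h n))) *
              (h n / (1 - Real.exp (-h n)) * Real.exp (ε * (-Real.log (h n))))) * L n ^ 2 =
        (h n / (1 - Real.exp (-h n))) ^ 2 *
          ((Real.exp (-(L n / 16)) + C1 * L n ^ 3 * Real.exp (-(L n / 8))) *
            Real.exp (ε * (-Real.log (h n))) ^ 2 * L n ^ 2) := by ring
      _ ≤ (h n / (1 - Real.exp (-h n))) ^ 2 *
          ((Real.exp (-(L n / 16)) + C1 * L n ^ 3 * Real.exp (-(L n / 8))) *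
            (4 * Real.exp (L n / 32)) * L n ^ 2) := by
          apply mul_le_mul_of_nonneg_left _ (by positivity)
          apply mul_le_mul_of_nonneg_right _ (by positivity)
          exact mul_le_mul_of_nonneg_left e5 hD
      _ = (h n / (1 - Real.exp (-h n))) ^ 2 *
          (4 * (L n ^ 2 * (Real.exp (-(L n / 16)) * Real.exp (L n / 32))) +
            4 * C1 * (L n ^ 5 * (Real.exp (-(L n / 8)) * Real.exp (L n / 32)))) := by ring
      _ = _ := by
          rw [← Real.exp_add, ← Real.exp_add]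
          congr 5
          · ring
          · ring

theorem JD_K_lim (hL : Tendsto L atTop atTop) (C : ℝ) :
    Tendsto (fun n => 2 * C * L n ^ 2 * Real.exp (-(L n / 4))) atTop (nhds 0) := by
  have := ((AS_lim_pow 2 (by norm_num : (0 : ℝ) < 1 / 4)).comp hL).const_mul (2 * C)
  rw [mul_zero] at this
  refine this.congr fun n => ?_
  simp only [Function.comp_apply]
  have e : L n / 4 = 1 / 4 * L n := by ring
  rw [e]; ring

/-- limit of the upper bound -/
theorem JD_U_lim (hL : Tendsto L atTop atTop)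
    (h1 : ∀ᶠ n in atTop, Real.exp (-(L n / 2)) / 2 ≤ h n ∧ h n ≤ 2 * Real.exp (-(L n / 2)))
    {C C1 ε Q d e : ℝ} (hC : 0 < C) (hC1 : 0 < C1) (hε : 0 < ε) (hε1 : ε ≤ 1 / 32) :
    Tendsto (fun n => (Real.exp (L n) ^ 2 * ((1 + C * Real.exp (L n / 4)) *
        (C1 * Real.exp (3 * L n / 4) * Real.exp (-Real.exp (ε * (-Real.log (h n))))) +
        Real.exp (-(L n ^ 2 / 2)) * (1 + C * Real.exp (L n / 4)) * (C1 * Real.exp (3 * L n / 4))) +
      (1 + 2 * C * L n ^ 2 * Real.exp (-(L n / 4))) *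
        ((Real.exp (-(L n / 16)) + C1 * L n ^ 3 * Real.exp (-(L n / 8))) *
            (h n / (1 - Real.exp (-h n)) * Real.exp (ε * (-Real.log (h n))) *
              (h n / (1 - Real.exp (-h n)) * Real.exp (ε * (-Real.log (h n))))) +
          Real.exp (-(Q / 2)) * (h n / (1 - Real.exp (-h n)) / ((1 - ε) * (-Real.log (h n)) / 2) *
            (h n / (1 - Real.exp (-h n)) / ((1 - ε) * (-Real.log (h n)) / 2 + 0))) +
          h n / (1 - Real.exp (-h n)) / ((1 - ε) * (-Real.log (h n))) *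
            (h n / (1 - Real.exp (-h n)) * (d / ((1 - ε) * (-Real.log (h n))))) +
          e * (h n / (1 - Real.exp (-h n)) * (Q / ((1 - ε) * (-Real.log (h n)))) *
            (h n / (1 - Real.exp (-h n)) * (Q / ((1 - ε) * (-Real.log (h n)))))) +
          (h n / (1 - Real.exp (-h n)) / ((1 - ε) * (-Real.log (h n))) *
            (h n / (1 - Real.exp (-h n)) / ((1 - ε) * (-Real.log (h n)) + 0)) -
            JDLL (h n) ((1 - ε) * (-Real.log (h n))) ((1 + ε) * (-Real.log (h n))) Q d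
              ((1 + ε) * (-Real.log (h n)))))) * L n ^ 2)
      atTop (nhds (JDUf ε Q d e 1 1 1 2)) := by
  have t1 := JD_E_lim hL h1 hC hC1 hε
  have t2 := JD_D_lim hL h1 hC1 hε hε1
  have t3 := (JD_K_lim hL C).const_add 1
  have hg : Tendsto (fun n => Real.exp (h n)) atTop (nhds 1) := by
    have := (Real.continuous_exp.tendsto 0).comp (AS_h_lim hL h1)
    rwa [Real.exp_zero] at this
  have hβ : Tendsto (fun n => L n / (-Real.log (h n))) atTop (nhds 2) := by
    have := (AS_B_lim hL h1).inv₀ (by norm_num)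
    have e : ((1 : ℝ) / 2)⁻¹ = 2 := by norm_num
    rw [e] at this
    refine this.congr fun n => ?_
    rw [inv_div]
  have t4 : Tendsto (fun n => JDUf ε Q d e (h n / (1 - Real.exp (-h n)))
      (h n / (Real.exp (h n) - 1)) (Real.exp (h n)) (L n / (-Real.log (h n)))) atTop
      (nhds (JDUf ε Q d e 1 1 1 2)) :=
    JDUf_tendsto (AS_q1 hL h1) (AS_q2 hL h1) hg hβ (by
      have : 0 < 1 + ε := by linarith
      positivity)
  have t5 := t1.add (t3.mul (t2.add t4))
  have e0 : (0 : ℝ) + (1 + 0) * (0 + JDUf ε Q d e 1 1 1 2) = JDUf ε Q d e 1 1 1 2 := by ring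
  rw [e0] at t5
  refine t5.congr' ?_
  filter_upwards [(AS_B_top hL h1).eventually_gt_atTop 0] with n hB
  have hεp : 0 < 1 - ε := by linarith
  have hLL := JDLL_eq (L := L n) (h := h n) (Q := Q) (d := d) (j := 1) hε (by linarith : ε < 1) hB
    zero_le_one
  rw [one_mul] at hLL
  unfold JDUf
  rw [← hLL]
  set B := -Real.log (h n) with hBdef
  set k1 := h n / (1 - Real.exp (-h n)) with hk1
  have e1 : Real.exp (-(Q / 2)) * (4 * (k1 * (L n / B) / (1 - ε)) ^ 2) =
      Real.exp (-(Q / 2)) * (k1 / ((1 - ε) * B / 2) * (k1 / ((1 - ε) * B / 2 + 0))) * L n ^ 2 := by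
    rw [add_zero]
    field_simp
    ring
  have e2 : d * (k1 * (L n / B) / (1 - ε)) ^ 2 =
      k1 / ((1 - ε) * B) * (k1 * (d / ((1 - ε) * B))) * L n ^ 2 := by
    field_simp
  have e3 : e * Q ^ 2 * (k1 * (L n / B) / (1 - ε)) ^ 2 =
      e * (k1 * (Q / ((1 - ε) * B)) * (k1 * (Q / ((1 - ε) * B)))) * L n ^ 2 := by
    field_simp
  have e4 : (k1 * (L n / B) / (1 - ε)) ^ 2 =
      k1 / ((1 - ε) * B) * (k1 / ((1 - ε) * B + 0)) * L n ^ 2 := by
    rw [add_zero]
    field_simp
  rw [e1, e2, e3, e4]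
  ring

/-- limit of the lower bound -/
theorem JD_V_lim (hL : Tendsto L atTop atTop)
    (h1 : ∀ᶠ n in atTop, Real.exp (-(L n / 2)) / 2 ≤ h n ∧ h n ≤ 2 * Real.exp (-(L n / 2)))
    {C ε Q d e : ℝ} (hε : 0 < ε) (hε1 : ε ≤ 1 / 32) :
    Tendsto (fun n => (1 - 2 * C * L n ^ 2 * Real.exp (-(L n / 4))) *
      (JDLL (h n) ((1 - ε) * (-Real.log (h n))) ((1 + ε) * (-Real.log (h n))) Q d 0 -
        h n / (1 - Real.exp (-h n)) / ((1 + ε) * (-Real.log (h n))) *
          (h n / (1 - Real.exp (-h n)) /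
            ((1 + ε) * (-Real.log (h n)) + (1 - ε) * (-Real.log (h n)))) -
        e * (h n / (1 - Real.exp (-h n)) * (Q / ((1 + ε) * (-Real.log (h n)))) *
            (h n / (1 - Real.exp (-h n)) * (Q / ((1 + ε) * (-Real.log (h n))))))) * L n ^ 2)
      atTop (nhds (JDVf ε Q d e 1 1 1 2)) := by
  have t3 := (JD_K_lim hL C).const_sub 1
  have hg : Tendsto (fun n => Real.exp (h n)) atTop (nhds 1) := by
    have := (Real.continuous_exp.tendsto 0).comp (AS_h_lim hL h1)
    rwa [Real.exp_zero] at this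
  have hβ : Tendsto (fun n => L n / (-Real.log (h n))) atTop (nhds 2) := by
    have := (AS_B_lim hL h1).inv₀ (by norm_num)
    have e : ((1 : ℝ) / 2)⁻¹ = 2 := by norm_num
    rw [e] at this
    refine this.congr fun n => ?_
    rw [inv_div]
  have t4 : Tendsto (fun n => JDVf ε Q d e (h n / (1 - Real.exp (-h n)))
      (h n / (Real.exp (h n) - 1)) (Real.exp (h n)) (L n / (-Real.log (h n)))) atTop
      (nhds (JDVf ε Q d e 1 1 1 2)) :=
    JDVf_tendsto (AS_q1 hL h1) (AS_q2 hL h1) hg hβ (by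
      have : 0 < 1 + ε := by linarith
      positivity)
  have t5 := t3.mul t4
  have e0 : (1 - 0 : ℝ) * JDVf ε Q d e 1 1 1 2 = JDVf ε Q d e 1 1 1 2 := by ring
  rw [e0] at t5
  refine t5.congr' ?_
  filter_upwards [(AS_B_top hL h1).eventually_gt_atTop 0] with n hB
  have hεp : 0 < 1 - ε := by linarith
  have hLL := JDLL_eq (L := L n) (h := h n) (Q := Q) (d := d) (j := 0) hε (by linarith : ε < 1) hB
    le_rfl
  rw [zero_mul] at hLL
  unfold JDVf
  rw [← hLL]
  set B := -Real.log (h n) with hBdef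
  set k1 := h n / (1 - Real.exp (-h n)) with hk1
  have e1 : k1 * (L n / B) / (1 + ε) * (k1 * (L n / B) / 2) =
      k1 / ((1 + ε) * B) * (k1 / ((1 + ε) * B + (1 - ε) * B)) * L n ^ 2 := by
    have : (1 + ε) * B + (1 - ε) * B = 2 * B := by ring
    rw [this]
    field_simp
  have e3 : e * Q ^ 2 * (k1 * (L n / B) / (1 + ε)) ^ 2 =
      e * (k1 * (Q / ((1 + ε) * B)) * (k1 * (Q / ((1 + ε) * B)))) * L n ^ 2 := by
    field_simp
  rw [e1, e3]
  ring

end

/-! ### The row -/

theorem JD_P_le (n t r : ℕ) : ((LB_Y n r t).card : ℝ) / pp n ≤ aa n t 0 := by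
  classical
  unfold aa
  apply div_le_div_of_nonneg_right _ (AS_pp_pos n).le
  unfold LB_Y
  rw [card_filter]
  push_cast
  apply sum_le_sum
  intro Y _
  split_ifs with hc
  · rw [hc.1, pow_zero]
  · positivity

theorem row_JD (hJ : JP_stmt) : JD_stmt := by
  intro η C N0 C1 N1 hP hE
  have hC := hP.hC
  have hC1 := hE.hC
  have hL : Tendsto (fun n : ℕ => Real.log (n : ℝ)) atTop atTop :=
    Real.tendsto_log_atTop.comp tendsto_natCast_atTop_atTop
  have hax : ∀ n ≥ max N0 N1, AX n (Real.log n) (η n) C C1 (fun t => (pp (n - t) : ℝ) / pp n)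
      (fun t => aa n t 0) := fun n hn =>
    AS_ax hP hE ((le_max_left _ _).trans hn) ((le_max_right _ _).trans hn)
  have h1 : ∀ᶠ n : ℕ in atTop, Real.exp (-(Real.log (n : ℝ) / 2)) / 2 ≤ η n ∧
      η n ≤ 2 * Real.exp (-(Real.log (n : ℝ) / 2)) := by
    filter_upwards [eventually_ge_atTop (max N0 N1)] with n hn
    exact ⟨(hax n hn).low, (hax n hn).up⟩
  have hh0 := AS_h_lim hL h1
  have hB := AS_B_top hL h1
  have hBL := AS_B_lim hL h1
  -- the data for fixed parameters
  have hdata : ∀ Q : ℝ, 32 ≤ Q → ∀ᶠ n : ℕ in atTop,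
      JDX n (Real.log n) (η n) C C1 (fun t => (pp (n - t) : ℝ) / pp n) (fun t => aa n t 0)
        (fun t r => ((LB_Y n r t).card : ℝ) / pp n) (-Real.log (η n)) (1 / Q) Q (1 / Q)
        (1 / Q ^ 3) := by
    intro Q hQ32
    have hQ : 0 < Q := by linarith
    have hε : 0 < 1 / Q := by positivity
    have hε1 : 1 / Q ≤ 1 / 32 := by
      apply one_div_le_one_div_of_le (by norm_num) hQ32
    have he : 0 < 1 / Q ^ 3 := by positivity
    obtain ⟨N, hN⟩ := hJ η C N0 hP Q (1 / Q) (1 / Q ^ 3) hε he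
    have q2 : ∀ᶠ n : ℕ in atTop,
        (1 + 1 / Q) * (-Real.log (η n)) * Real.exp (-(1 / Q * (-Real.log (η n)))) < 1 / Q := by
      have e1 := ((AS_lim_pow 1 hε).comp hB).const_mul (1 + 1 / Q)
      rw [mul_zero] at e1
      filter_upwards [e1.eventually_lt_const hε] with n hn
      simp only [Function.comp_apply, pow_one] at hn
      linarith
    have q3 : ∀ᶠ n : ℕ in atTop, (1 + 1 / Q) * (-Real.log (η n)) ≤ Real.log n := by
      have e1 : (1 : ℝ) / 2 < 1 / (1 + 1 / Q) := by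
        rw [div_lt_div_iff₀ (by norm_num) (by linarith)]
        linarith
      filter_upwards [hBL.eventually_lt_const e1, hL.eventually_gt_atTop 0] with n hn hn0
      rw [div_lt_div_iff₀ hn0 (by linarith)] at hn
      linarith
    have q3' : ∀ᶠ n : ℕ in atTop, 4 * Real.log (n : ℝ) ≤ Real.exp (Real.log (n : ℝ) / 2) := by
      have e1 := (AS_lim_pow 1 (by norm_num : (0 : ℝ) < 1 / 2)).comp hL
      filter_upwards [e1.eventually_lt_const (by norm_num : (0 : ℝ) < 1 / 4)] with n hn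
      simp only [Function.comp_apply, pow_one] at hn
      have e2 : Real.exp (Real.log (n : ℝ) / 2) * Real.exp (-(1 / 2 * Real.log (n : ℝ))) = 1 := by
        rw [← Real.exp_add]
        have : Real.log (n : ℝ) / 2 + -(1 / 2 * Real.log (n : ℝ)) = 0 := by ring
        rw [this, Real.exp_zero]
      have e3 := mul_lt_mul_of_pos_left hn (Real.exp_pos (Real.log (n : ℝ) / 2))
      have e4 : Real.exp (Real.log (n : ℝ) / 2) *
          (Real.log n * Real.exp (-(1 / 2 * Real.log (n : ℝ)))) = Real.log n := by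
        linear_combination (Real.log (n : ℝ)) * e2
      rw [e4] at e3
      linarith
    have q4 : ∀ᶠ n : ℕ in atTop,
        Q ≤ (1 + 1 / Q) * (-Real.log (η n)) * Real.exp (1 / Q * (-Real.log (η n))) := by
      filter_upwards [hB.eventually_ge_atTop Q] with n hn
      have e1 : 1 ≤ Real.exp (1 / Q * (-Real.log (η n))) := by
        apply Real.one_le_exp
        have : 0 ≤ -Real.log (η n) := by linarith
        positivity
      have e2 : Q ≤ (1 + 1 / Q) * (-Real.log (η n)) := by nlinarith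
      calc Q ≤ (1 + 1 / Q) * (-Real.log (η n)) := e2
        _ = (1 + 1 / Q) * (-Real.log (η n)) * 1 := (mul_one _).symm
        _ ≤ _ := mul_le_mul_of_nonneg_left e1 (by linarith)
    have q5 : ∀ᶠ n : ℕ in atTop,
        0 ≤ 1 - 2 * C * Real.log n ^ 2 * Real.exp (-(Real.log (n : ℝ) / 4)) := by
      have e1 := (JD_K_lim hL C).const_sub 1
      rw [sub_zero] at e1
      filter_upwards [e1.eventually_const_lt (by norm_num : (0 : ℝ) < 1)] with n hn
      exact hn.le
    filter_upwards [eventually_ge_atTop (max N0 N1), eventually_ge_atTop N,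
      hL.eventually_ge_atTop 2, hh0.eventually_le_const (by norm_num : (0 : ℝ) < 1),
      hB.eventually_ge_atTop 2, q2, q3, q3', q4, q5] with n a1 a2 a3 a4 a5 a6 a7 a8 a9 a10
    have hεB : 1 / Q * (-Real.log (η n)) ≤ 1 / 32 * (-Real.log (η n)) :=
      mul_le_mul_of_nonneg_right hε1 (by linarith)
    refine ⟨hax n a1, fun t r => ?_, fun t r => JD_P_le n t r, ?_, rfl, a3, a4, hε, by linarith,
      by linarith, hQ, hε, he, a6, a7, a8, a9, ?_, a10⟩
    · have := AS_pp_pos n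
      positivity
    · intro t r ht htr hq hd
      exact hN n a2 t r ht htr hq hd
    · have e1 : 1 / Q * ((1 + 1 / Q) * (-Real.log (η n))) ≤ 1 * (2 * (-Real.log (η n))) := by
        apply mul_le_mul (by linarith) _ _ (by norm_num)
        · apply mul_le_mul_of_nonneg_right (by linarith) (by linarith)
        · have : 0 ≤ -Real.log (η n) := by linarith
          positivity
      have e2 : 32 * (1 / 2 * (-Real.log (η n))) ≤ Q * ((1 - 1 / Q) * (-Real.log (η n))) := by
        apply mul_le_mul hQ32 _ _ hQ.le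
        · apply mul_le_mul_of_nonneg_right (by linarith) (by linarith)
        · have : 0 ≤ -Real.log (η n) := by linarith
          positivity
      linarith
  have hSig : ∀ n : ℕ, Sig2 n = ∑ p ∈ PW n, (fun t => (pp (n - t) : ℝ) / pp n) (p.2 + p.1) *
      (fun t r => ((LB_Y n r t).card : ℝ) / pp n) p.1 p.2 := fun n => rfl
  rw [tendsto_order]
  constructor
  · intro x hx
    obtain ⟨Q, hQ1, hQ2⟩ := ((JDVf_limQ.eventually_const_lt hx).and
      (eventually_ge_atTop 32)).exists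
    have hε : 0 < 1 / Q := by positivity
    have hε1 : 1 / Q ≤ 1 / 32 := one_div_le_one_div_of_le (by norm_num) hQ2
    filter_upwards [hdata Q hQ2, (JD_V_lim (C := C) (Q := Q) (d := 1 / Q) (e := 1 / Q ^ 3)
      hL h1 hε hε1).eventually_const_lt hQ1] with n hX hlt
    refine lt_of_lt_of_le hlt (mul_le_mul_of_nonneg_right ?_ (by positivity))
    rw [hSig]
    exact hX.lower
  · intro x hx
    obtain ⟨Q, hQ1, hQ2⟩ := ((JDUf_limQ.eventually_lt_const hx).and
      (eventually_ge_atTop 32)).exists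
    have hε : 0 < 1 / Q := by positivity
    have hε1 : 1 / Q ≤ 1 / 32 := one_div_le_one_div_of_le (by norm_num) hQ2
    filter_upwards [hdata Q hQ2, (JD_U_lim (C := C) (C1 := C1) (Q := Q) (d := 1 / Q)
      (e := 1 / Q ^ 3) hL h1 hC hC1 hε hε1).eventually_lt_const hQ1] with n hX hlt
    refine lt_of_le_of_lt (mul_le_mul_of_nonneg_right ?_ (by positivity)) hlt
    rw [hSig]
    exact hX.upper

end ZT68
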