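/-
MP_1882ea_al, helper64.  Row JM, the window: sizes of `t` and `r`.
-/
import Mathlib
import Pool.Agent.Lib.ZT68.Sec
import Pool.Agent.Lib.ZT68.LB

namespace ZT68

open Finset Filter

/-- facts on one pair of the window -/
structure JM_win (η C Q δ κ : ℝ) (J n t r : ℕ) : Prop where
  n1 : 1 ≤ n
  L1 : 100 ≤ Real.log n
  Q0 : 0 < Q
  k0 : 0 < κ
  k1 : κ ≤ 1
  δ0 : 0 < δ
  low : 1 / (2 * √(n : ℝ)) ≤ η
  up : η ≤ 2 / √(n : ℝ)
  ht : 1 ≤ t
  htr : t < r
  tlow : Real.log n * √(n : ℝ) / 8 ≤ t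
  rup : (r : ℝ) ≤ 4 * Real.log n * √(n : ℝ)
  qt : qq η t ≤ Q
  qrt : qq η r ≤ qq η t
  qr : δ ≤ qq η r
  dd : ((r : ℝ) - t) * η ≤ 32 * Q / δ
  sn : J * r ≤ n
  rat : ∀ s : ℕ, s ≤ J * r → |(pp (n - s) : ℝ) - Real.exp (-(s * η)) * pp n| ≤
    κ * (Real.exp (-(s * η)) * pp n)
  eta : η / 2 ≤ η - C * (n : ℝ) ^ (-(3 / 4) : ℝ)
  pup : ∀ k ≤ n, (pp (n - k) : ℝ) ≤
    Real.exp (-(k * (η - C * (n : ℝ) ^ (-(3 / 4) : ℝ)))) * pp n
  rexp : Real.exp (-(r * (η - C * (n : ℝ) ^ (-(3 / 4) : ℝ)))) ≤ 2 * Real.exp (-(r * η))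

/-- the analytic part: sizes from the two bounds -/
theorem JM_sizes {η Q δ s L : ℝ} {t r : ℝ} (hs : 0 < s) (hL : L = 2 * Real.log s) (hQ : 0 < Q)
    (hδ : 0 < δ) (hlow : 1 / (2 * s) ≤ η) (hLQ : 8 * Q ≤ L)
    (hLδ : 4 / δ ≤ L) (hL1 : 100 ≤ L) (ht : 0 < t) (htr : t < r) (ht1 : 1 ≤ t * η)
    (hup : η ≤ 2 / s)
    (hqt : t * Real.exp (-(t * η)) ≤ Q) (hqr : δ ≤ r * Real.exp (-(r * η))) :
    L * s / 8 ≤ t ∧ r ≤ 4 * L * s ∧ r * Real.exp (-(r * η)) ≤ t * Real.exp (-(t * η)) ∧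
      (r - t) * η ≤ 32 * Q / δ := by
  have hη : 0 < η := lt_of_lt_of_le (by positivity) hlow
  have hsη : 1 ≤ 2 * s * η := by
    rw [div_le_iff₀ (by positivity)] at hlow
    linarith
  have hsη2 : s * η ≤ 2 := by
    rw [le_div_iff₀ hs] at hup
    linarith
  have hexpL : Real.exp (L / 2) = s := by
    rw [hL, mul_div_assoc, mul_comm, div_mul_cancel₀ _ (by norm_num : (2 : ℝ) ≠ 0), Real.exp_log hs]
  have hr : 0 < r := ht.trans htr
  -- t η ≥ L/4
  have h1 : L / 4 ≤ t * η := by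
    by_contra hc
    push Not at hc
    have h2 : Real.exp (-(L / 4)) < Real.exp (-(t * η)) := Real.exp_lt_exp.2 (by linarith)
    have h3 : s / 2 ≤ t := by
      have : 1 ≤ t * (2 / s) := ht1.trans (by gcongr)
      rw [mul_div_assoc', le_div_iff₀ hs] at this
      linarith
    have h4 : s / 2 * Real.exp (-(L / 4)) < Q := by
      calc s / 2 * Real.exp (-(L / 4)) ≤ t * Real.exp (-(L / 4)) := by gcongr
        _ < t * Real.exp (-(t * η)) := by gcongr
        _ ≤ Q := hqt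
    rw [← hexpL] at h4
    have h5 : Real.exp (L / 2) / 2 * Real.exp (-(L / 4)) = Real.exp (L / 4) / 2 := by
      rw [div_mul_eq_mul_div, ← Real.exp_add]; congr 2; ring
    rw [h5] at h4
    have h6 := Real.add_one_le_exp (L / 4)
    linarith
  -- r η ≤ 2 L
  have h2 : r * η ≤ 2 * L := by
    by_contra hc
    push Not at hc
    set z := r * η with hz
    have hz0 : 0 < z := by positivity
    have h3 : z ≤ Real.exp (z / 2) := by
      have := Real.quadratic_le_exp_of_nonneg (x := z / 2) (by positivity)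
      nlinarith [sq_nonneg (z / 2 - 1)]
    have h4 : δ * η ≤ z * Real.exp (-z) := by
      calc δ * η ≤ (r * Real.exp (-z)) * η := by gcongr
        _ = _ := by rw [hz]; ring
    have h5 : z * Real.exp (-z) ≤ Real.exp (-(z / 2)) := by
      calc z * Real.exp (-z) ≤ Real.exp (z / 2) * Real.exp (-z) := by gcongr
        _ = _ := by rw [← Real.exp_add]; congr 1; ring
    have h6 : Real.exp (-(z / 2)) < Real.exp (-(L / 2)) * Real.exp (-(L / 2)) := by
      rw [← Real.exp_add]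
      exact Real.exp_lt_exp.2 (by linarith)
    have h7 : Real.exp (-(L / 2)) ≤ δ / 2 := by
      rw [Real.exp_neg, inv_le_comm₀ (Real.exp_pos _) (by positivity), inv_div]
      have := Real.add_one_le_exp (L / 2)
      have h8 : 2 / δ ≤ L / 2 := by
        have : 2 / δ = 4 / δ / 2 := by ring
        linarith
      linarith
    have h8 : Real.exp (-(L / 2)) ≤ 2 * η := by
      rw [Real.exp_neg, hexpL, inv_le_iff_one_le_mul₀ hs]
      linarith
    have h9 : Real.exp (-(L / 2)) * Real.exp (-(L / 2)) ≤ δ / 2 * (2 * η) := by gcongr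
    linarith
  have h3 : L * s / 8 ≤ t := by
    have : L / 4 * (s / 2) ≤ t * η * (s / 2) := by gcongr
    nlinarith
  have h4 : r ≤ 4 * L * s := by
    have h5 : r * 1 ≤ r * (2 * s * η) := by gcongr
    nlinarith
  have h5 : r / t ≤ Real.exp ((r - t) * η) := by
    have h6 := Real.add_one_le_exp ((r - t) * η)
    have h7 : r / t = 1 + (r - t) * (1 / t) := by field_simp; ring
    have h8 : 1 / t ≤ η := by
      rw [div_le_iff₀ ht]; linarith
    have h9 : (r - t) * (1 / t) ≤ (r - t) * η := by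
      have : 0 ≤ r - t := by linarith
      gcongr
    linarith
  have h6 : Real.exp ((r - t) * η) * Real.exp (-(r * η)) = Real.exp (-(t * η)) := by
    rw [← Real.exp_add]; congr 1; ring
  refine ⟨h3, h4, ?_, ?_⟩
  · calc r * Real.exp (-(r * η)) = t * (r / t * Real.exp (-(r * η))) := by field_simp
      _ ≤ t * (Real.exp ((r - t) * η) * Real.exp (-(r * η))) := by gcongr
      _ = _ := by rw [h6]
  · have h7 : r / t ≤ 32 := by
      rw [div_le_iff₀ ht]
      linarith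
    have h8 : Real.exp ((r - t) * η) * δ ≤ 32 * Q := by
      calc Real.exp ((r - t) * η) * δ ≤ Real.exp ((r - t) * η) * (r * Real.exp (-(r * η))) := by
            gcongr
        _ = r * Real.exp (-(t * η)) := by rw [← h6]; ring
        _ = r / t * (t * Real.exp (-(t * η))) := by field_simp
        _ ≤ 32 * Q := by gcongr
    rw [le_div_iff₀ hδ]
    have h9 := Real.add_one_le_exp ((r - t) * η)
    nlinarith

theorem JM_win_ev {η : ℕ → ℝ} {C : ℝ} {N0 : ℕ} (hP : PAx η C N0) (J : ℕ) {Q δ κ : ℝ}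
    (hQ : 0 < Q) (hδ : 0 < δ) (hκ : 0 < κ) (hκ1 : κ ≤ 1) (K : ℝ) :
    ∃ N : ℕ, ∀ n ≥ N, K ≤ Real.log n ∧ ∀ t r : ℕ, 1 ≤ t * η n → t < r → qq (η n) t ≤ Q →
      δ ≤ qq (η n) r → JM_win (η n) C Q δ κ J n t r := by
  have hC := hP.hC
  have hlog : Tendsto (fun n : ℕ => Real.log (n : ℝ)) atTop atTop :=
    Real.tendsto_log_atTop.comp tendsto_natCast_atTop_atTop
  have e1 := hlog.eventually (B2_ev (4 * J) 1 (a := 1 / 2) (ε := 1) (by norm_num) (by norm_num))
  have e2 := hlog.eventually (B2_ev (4 * C * J) 1 (a := 1 / 4) (ε := κ) (by norm_num) hκ)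
  have e3 := hlog.eventually (B2_ev (4 * C) 0 (a := 1 / 4) (ε := 1) (by norm_num) (by norm_num))
  have e4 := hlog.eventually (B2_ev (4 * C) 1 (a := 1 / 4) (ε := 1 / 2) (by norm_num) (by norm_num))
  have e5 := hlog.eventually (eventually_ge_atTop (max (max K 100) (max (8 * Q) (4 / δ))))
  obtain ⟨N, hN⟩ := eventually_atTop.1 ((((e1.and e2).and (e3.and e4)).and e5).and
    ((eventually_ge_atTop N0).and (eventually_ge_atTop 1)))
  refine ⟨N, fun n hn => ?_⟩
  obtain ⟨⟨⟨⟨f1, f2⟩, f3, f4⟩, f5⟩, hn0, hn1⟩ := hN n hn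
  have hnpos : (0 : ℝ) < n := by exact_mod_cast hn1
  set L := Real.log (n : ℝ) with hLdef
  have g1 : K ≤ L := (le_max_left _ _).trans ((le_max_left _ _).trans f5)
  have g2 : 100 ≤ L := (le_max_right _ _).trans ((le_max_left _ _).trans f5)
  have g3 : 8 * Q ≤ L := (le_max_left _ _).trans ((le_max_right _ _).trans f5)
  have g4 : 4 / δ ≤ L := (le_max_right _ _).trans ((le_max_right _ _).trans f5)
  have hsqrt : √(n : ℝ) = Real.exp (L / 2) := by
    rw [Real.sqrt_eq_rpow, Real.rpow_def_of_pos hnpos, ← hLdef]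
    congr 1
    ring
  have hm34 : (n : ℝ) ^ (-(3 / 4) : ℝ) = Real.exp (-(3 / 4 * L)) := by
    rw [Real.rpow_def_of_pos hnpos, ← hLdef]
    congr 1
    ring
  have hs0 : 0 < √(n : ℝ) := Real.sqrt_pos.2 hnpos
  have hss : √(n : ℝ) * √(n : ℝ) = n := Real.mul_self_sqrt hnpos.le
  have hLs : L = 2 * Real.log (√(n : ℝ)) := by
    rw [hsqrt, Real.log_exp]; ring
  have hlow := hP.low n hn0
  have hup := hP.up n hn0
  have hη : 0 < η n := lt_of_lt_of_le (by positivity) hlow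
  have hp := MU_pp_pos n
  refine ⟨g1, fun t r ht1 htr hqt hqr => ?_⟩
  have ht0 : 1 ≤ t := by
    by_contra hc
    have : t = 0 := by omega
    rw [this] at ht1
    norm_num at ht1
  have htp : (0 : ℝ) < t := by exact_mod_cast ht0
  obtain ⟨k1, k2, k3, k4⟩ := JM_sizes (t := t) (r := r) hs0 hLs hQ hδ hlow g3 g4 g2 htp
    (by exact_mod_cast htr) ht1 hup hqt hqr
  have hLpos : 0 < L := by linarith
  have hJ0 : (0 : ℝ) ≤ J := Nat.cast_nonneg J
  -- J r ≤ n
  have hsn : (J : ℝ) * r ≤ n := by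
    have h5 : Real.exp (L / 2) * Real.exp (-(1 / 2 * L)) = 1 := by
      rw [← Real.exp_add]; simp; ring
    have h6 : 4 * (J : ℝ) * L ≤ √(n : ℝ) := by
      have := mul_le_mul_of_nonneg_right f1 (Real.exp_pos (L / 2)).le
      rw [hsqrt]
      calc 4 * (J : ℝ) * L = 4 * J * L ^ 1 * (Real.exp (L / 2) * Real.exp (-(1 / 2 * L))) := by
            rw [h5]; ring
        _ = 4 * J * L ^ 1 * Real.exp (-(1 / 2 * L)) * Real.exp (L / 2) := by ring
        _ ≤ 1 * Real.exp (L / 2) := this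
        _ = _ := one_mul _
    calc (J : ℝ) * r ≤ J * (4 * L * √(n : ℝ)) := by gcongr
      _ = (4 * J * L) * √(n : ℝ) := by ring
      _ ≤ √(n : ℝ) * √(n : ℝ) := by gcongr
      _ = n := hss
  have hr34 : (r : ℝ) * (n : ℝ) ^ (-(3 / 4) : ℝ) ≤ 4 * L * Real.exp (-(1 / 4 * L)) := by
    rw [hm34]
    calc (r : ℝ) * Real.exp (-(3 / 4 * L)) ≤ (4 * L * √(n : ℝ)) * Real.exp (-(3 / 4 * L)) := by
          gcongr
      _ = 4 * L * (Real.exp (L / 2) * Real.exp (-(3 / 4 * L))) := by rw [hsqrt]; ring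
      _ = _ := by rw [← Real.exp_add]; congr 2; ring
  refine ⟨hn1, g2, hQ, hκ, hκ1, hδ, hlow, hup, ht0, htr, k1, k2, hqt, k3, hqr, k4,
    by exact_mod_cast hsn, ?_, ?_, ?_, ?_⟩
  · intro s hs
    have hsn' : s ≤ n := hs.trans (by exact_mod_cast hsn)
    refine (hP.ratio n hn0 s hsn').trans ?_
    have h5 : C * s * (n : ℝ) ^ (-(3 / 4) : ℝ) ≤ κ := by
      have h6 : (s : ℝ) ≤ J * r := by exact_mod_cast hs
      calc C * s * (n : ℝ) ^ (-(3 / 4) : ℝ) ≤ C * (J * r) * (n : ℝ) ^ (-(3 / 4) : ℝ) := by gcongr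
        _ = C * J * (r * (n : ℝ) ^ (-(3 / 4) : ℝ)) := by ring
        _ ≤ C * J * (4 * L * Real.exp (-(1 / 4 * L))) := by gcongr
        _ = 4 * C * J * L ^ 1 * Real.exp (-(1 / 4 * L)) := by ring
        _ ≤ κ := f2
    gcongr
  · have h5 : C * (n : ℝ) ^ (-(3 / 4) : ℝ) ≤ η n / 2 := by
      have h6 : C * (n : ℝ) ^ (-(3 / 4) : ℝ) = (4 * C * L ^ 0 * Real.exp (-(1 / 4 * L))) *
          (1 / 4 * Real.exp (-(L / 2))) := by
        rw [hm34]
        have : Real.exp (-(3 / 4 * L)) = Real.exp (-(1 / 4 * L)) * Real.exp (-(L / 2)) := by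
          rw [← Real.exp_add]; congr 1; ring
        rw [this]; ring
      rw [h6]
      calc _ ≤ 1 * (1 / 4 * Real.exp (-(L / 2))) := by gcongr
        _ = 1 / (2 * √(n : ℝ)) / 2 := by rw [hsqrt, Real.exp_neg]; field_simp; norm_num
        _ ≤ _ := by gcongr
    linarith
  · have := (LB_ratio hP hn0 hm34).2
    rw [hm34]
    exact this
  · have h5 : (r : ℝ) * (C * (n : ℝ) ^ (-(3 / 4) : ℝ)) ≤ 1 / 2 := by
      calc (r : ℝ) * (C * (n : ℝ) ^ (-(3 / 4) : ℝ)) = C * (r * (n : ℝ) ^ (-(3 / 4) : ℝ)) := by ring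
        _ ≤ C * (4 * L * Real.exp (-(1 / 4 * L))) := by gcongr
        _ = 4 * C * L ^ 1 * Real.exp (-(1 / 4 * L)) := by ring
        _ ≤ _ := f4
    have h6 : Real.exp (1 / 2 : ℝ) ≤ 2 := by
      have h7 := Real.add_one_le_exp (-(1 / 2) : ℝ)
      have h8 : Real.exp (1 / 2 : ℝ) * Real.exp (-(1 / 2) : ℝ) = 1 := by
        rw [← Real.exp_add]; simp
      have := Real.exp_pos (1 / 2 : ℝ)
      nlinarith
    calc Real.exp (-(r * (η n - C * (n : ℝ) ^ (-(3 / 4) : ℝ)))) =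
          Real.exp (r * (C * (n : ℝ) ^ (-(3 / 4) : ℝ))) * Real.exp (-(r * η n)) := by
          rw [← Real.exp_add]; congr 1; ring
      _ ≤ Real.exp (1 / 2) * Real.exp (-(r * η n)) := by gcongr
      _ ≤ _ := by gcongr

end ZT68
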