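/-
MP_1882ea_al, helper83.  Row JM, part (a): moments of the number of hooks in the window.
-/
import Mathlib
import Pool.Agent.Lib.ZT68.JMw

namespace ZT68

open Finset Filter

theorem JMa_pow_le (h P : ℕ) :
    h ^ P ≤ P.factorial * (2 ^ P * ∑ q ∈ range (P + 1), h.choose q) := by
  calc h ^ P ≤ (h + 1) ^ P := Nat.pow_le_pow_left (Nat.le_succ h) P
    _ = (h + P + 1 - P) ^ P := by
        congr 1
        omega
    _ ≤ (h + P).descFactorial P := Nat.pow_sub_le_descFactorial _ _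
    _ = P.factorial * (h + P).choose P := Nat.descFactorial_eq_factorial_mul_choose _ _
    _ ≤ P.factorial * (2 ^ P * ∑ q ∈ range (P + 1), h.choose q) := by
        apply Nat.mul_le_mul_left
        rw [Nat.add_choose_eq, Finset.Nat.sum_antidiagonal_eq_sum_range_succ_mk, mul_sum]
        apply sum_le_sum
        intro q _
        rw [mul_comm]
        apply Nat.mul_le_mul_right
        exact Nat.choose_le_two_pow _ _

theorem JMa_choose (hF : FQ_stmt) (h0 : DDc_stmt) {n q s : ℕ} {η Q : ℝ} (hs1 : 1 ≤ s)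
    (hqs : q * s ≤ n) (hns : n ≤ s * s) (hQ : qq η s ≤ Q)
    (hrat : (pp (n - q * s) : ℝ) ≤ 2 * (Real.exp (-((q * s : ℕ) * η)) * pp n)) :
    ∑ Y ∈ DD n, ((hn s Y).choose q : ℝ) ≤ 2 * (2 * Q) ^ q * pp n := by
  have e : ∑ Y ∈ DD n, (hn s Y).choose q = ∑ Y ∈ DD (n - q * s), (s + hn s Y).choose q := by
    have := hF.fq (n - q * s) q s hs1
    rwa [Nat.sub_add_cancel hqs] at this
  have h1 : ∑ Y ∈ DD (n - q * s), (s + hn s Y).choose q ≤ pp (n - q * s) * (2 * s) ^ q := by
    rw [← h0]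
    refine Finset.sum_le_card_nsmul _ _ _ ?_
    intro Y hY
    have hY' : Y.card = n - q * s := by
      simpa [DD] using hY
    have h2 : s * hn s Y ≤ s * s := by
      have := hF.small s Y hs1
      omega
    have h3 : hn s Y ≤ s := Nat.le_of_mul_le_mul_left h2 (by omega)
    exact (Nat.choose_le_pow _ _).trans (Nat.pow_le_pow_left (by omega) q)
  have h2 : (∑ Y ∈ DD n, ((hn s Y).choose q : ℝ)) ≤ pp (n - q * s) * (2 * (s : ℝ)) ^ q := by
    have := e.le.trans h1
    exact_mod_cast this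
  have hp : (0 : ℝ) ≤ pp n := Nat.cast_nonneg _
  have hs0 : (0 : ℝ) < s := by exact_mod_cast hs1
  calc (∑ Y ∈ DD n, ((hn s Y).choose q : ℝ)) ≤ pp (n - q * s) * (2 * (s : ℝ)) ^ q := h2
    _ ≤ 2 * (Real.exp (-((q * s : ℕ) * η)) * pp n) * (2 * (s : ℝ)) ^ q := by gcongr
    _ = 2 * (2 * qq η s) ^ q * pp n := by
        have : Real.exp (-((q * s : ℕ) * η)) = Real.exp (-(s * η)) ^ q := by
          rw [← Real.exp_nat_mul]
          congr 1
          push_cast
          ring
        rw [this, qq, ← mul_assoc 2 (s : ℝ), mul_pow (2 * (s : ℝ))]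
        ring
    _ ≤ 2 * (2 * Q) ^ q * pp n := by
        have : 0 ≤ qq η s := by
          unfold qq
          positivity
        gcongr

theorem JMa_mom (h0 : DDc_stmt) (hF : FQ_stmt) {η C Q δ κ : ℝ} {J n t r : ℕ}
    (W : JM_win η C Q δ κ J n t r) {P : ℕ} (hP : P ≤ J) {s : ℕ} (hs : s = t ∨ s = r) :
    (∑ Y ∈ DD n, (hn s Y : ℝ) ^ P) / pp n ≤
      (P.factorial : ℝ) * 2 ^ P * (2 * ((P : ℝ) + 1) * (2 * Q + 1) ^ P) := by
  have hts : t ≤ s := by
    rcases hs with h | h
    · omega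
    · have := W.htr
      omega
  have hsr : s ≤ r := by
    rcases hs with h | h
    · have := W.htr
      omega
    · omega
  have hs1 : 1 ≤ s := W.ht.trans hts
  have hqs : qq η s ≤ Q := by
    rcases hs with h | h
    · rw [h]; exact W.qt
    · rw [h]; exact W.qrt.trans W.qt
  have hn0 : (0 : ℝ) < n := by exact_mod_cast W.n1
  have hss : √(n : ℝ) * √(n : ℝ) = n := Real.mul_self_sqrt hn0.le
  have hns : n ≤ s * s := by
    have h1 : √(n : ℝ) ≤ s := by
      have h2 : √(n : ℝ) ≤ Real.log n * √(n : ℝ) / 8 := by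
        have := W.L1
        have h3 : 0 ≤ √(n : ℝ) := Real.sqrt_nonneg _
        nlinarith
      have h3 : (t : ℝ) ≤ s := by exact_mod_cast hts
      exact h2.trans (W.tlow.trans h3)
    have h2 : (n : ℝ) ≤ s * s := by
      rw [← hss]
      have h3 : 0 ≤ √(n : ℝ) := Real.sqrt_nonneg _
      gcongr
    exact_mod_cast h2
  have hpp : (0 : ℝ) < pp n := MU_pp_pos n
  have hQ0 := W.Q0
  have key : ∀ q ∈ range (P + 1), ∑ Y ∈ DD n, ((hn s Y).choose q : ℝ) ≤
      2 * (2 * Q + 1) ^ P * pp n := by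
    intro q hq
    have hq' : q ≤ P := by
      rw [mem_range] at hq
      omega
    have h1 : q * s ≤ J * r := Nat.mul_le_mul (hq'.trans hP) hsr
    have h2 : q * s ≤ n := h1.trans W.sn
    have h3 : (pp (n - q * s) : ℝ) ≤ 2 * (Real.exp (-((q * s : ℕ) * η)) * pp n) := by
      have h4 := W.rat (q * s) h1
      have h5 := (abs_le.1 h4).2
      have h6 : κ * (Real.exp (-((q * s : ℕ) * η)) * pp n) ≤
          1 * (Real.exp (-((q * s : ℕ) * η)) * pp n) := by
        have := W.k1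
        gcongr
      linarith
    refine (JMa_choose hF h0 hs1 h2 hns hqs h3).trans ?_
    have h7 : (2 * Q) ^ q ≤ (2 * Q + 1) ^ P := by
      calc (2 * Q) ^ q ≤ (2 * Q + 1) ^ q := by
            gcongr
            linarith
        _ ≤ (2 * Q + 1) ^ P := pow_le_pow_right₀ (by linarith) hq'
    gcongr
  rw [div_le_iff₀ hpp]
  calc ∑ Y ∈ DD n, (hn s Y : ℝ) ^ P
      ≤ ∑ Y ∈ DD n, (P.factorial : ℝ) * (2 ^ P * ∑ q ∈ range (P + 1), ((hn s Y).choose q : ℝ)) := by
        apply sum_le_sum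
        intro Y _
        exact_mod_cast JMa_pow_le (hn s Y) P
    _ = (P.factorial : ℝ) * (2 ^ P * ∑ q ∈ range (P + 1), ∑ Y ∈ DD n, ((hn s Y).choose q : ℝ)) := by
        rw [← mul_sum, ← mul_sum, sum_comm]
    _ ≤ (P.factorial : ℝ) * (2 ^ P * ∑ q ∈ range (P + 1), (2 * (2 * Q + 1) ^ P * pp n)) := by
        gcongr with q hq
        exact key q hq
    _ = (P.factorial : ℝ) * 2 ^ P * (2 * ((P : ℝ) + 1) * (2 * Q + 1) ^ P) * pp n := by
        rw [sum_const, card_range, nsmul_eq_mul]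
        push_cast
        ring

end ZT68
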