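/-
MP_1882ea_al, helper53.  Row JMb: crossing pairs of hooks in the window.
-/
import Mathlib
import Pool.Agent.Lib.ZT68.JMw
import Pool.Agent.Lib.ZT68.LBa
import Pool.Agent.Lib.ZT68.LBb

namespace ZT68

open Finset Filter

theorem JMb_cross (h0 : DDc_stmt) (h1 : BD1_stmt) (h2 : BD2_stmt) (h4 : BD4_stmt) (hF : FQ_stmt)
    {η C Q δ κ : ℝ} {J n t r : ℕ} (W : JM_win η C Q δ κ J n t r) (hJ : 1 ≤ J) (hr : 1 ≤ r) :
    ((((LB_T h1 n hr W.ht).filter (fun P => P.2.1 = P.2.2)).card : ℝ) +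
      ((LB_T h1 n hr W.ht).filter (fun P => P.2.1 - (r : ℤ) = P.2.2 - (t : ℤ))).card) / pp n ≤
      64 * Q * (32 * Q / δ + 2) / Real.log n := by
  have hp := MU_pp_pos n
  have ht := W.ht
  have htr := W.htr
  have hrn : r ≤ n := (Nat.le_mul_of_pos_left r hJ).trans W.sn
  have hs : 1 ≤ r - t := by omega
  have hQ := W.Q0
  have hδ := W.δ0
  have hn1 := W.n1
  have hL := W.L1
  have hlow := W.low
  have heta := W.eta
  have hup := W.pup
  have hrexp := W.rexp
  have hdd := W.dd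
  have hqt := W.qt
  have hqrt := W.qrt
  have htlow := W.tlow
  set L := Real.log (n : ℝ) with hLd
  have hLpos : 0 < L := by linarith
  have hnpos : (0 : ℝ) < n := by exact_mod_cast hn1
  have hsq : 0 < √(n : ℝ) := Real.sqrt_pos.2 hnpos
  have hη : 0 < η := lt_of_lt_of_le (by positivity) hlow
  have hη'pos : 0 < η - C * (n : ℝ) ^ (-(3 / 4) : ℝ) := lt_of_lt_of_le (by positivity) heta
  set η' := η - C * (n : ℝ) ^ (-(3 / 4) : ℝ) with hη'
  have hr0 : (0 : ℝ) < r := by exact_mod_cast hr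
  have htr' : (t : ℝ) ≤ r := by exact_mod_cast htr.le
  -- the count
  have hcount : ((((LB_T h1 n hr W.ht).filter (fun P => P.2.1 = P.2.2)).card : ℝ) +
      ((LB_T h1 n hr W.ht).filter (fun P => P.2.1 - (r : ℤ) = P.2.2 - (t : ℤ))).card) ≤
      2 * (((r - t : ℕ) : ℝ) * pp (n - r) + LB_HH (r - t) (n - r)) := by
    obtain ⟨m, rfl⟩ : ∃ m, n = m + r := ⟨n - r, by omega⟩
    have hB := LB_caseB h1 h2 h4 m hr ht htr
    have hC := LB_caseC h1 h2 h4 m hr ht htr
    have hS : ((∑ Y ∈ DD m, ((r - t) + hn (r - t) Y) : ℕ) : ℝ) =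
        ((r - t : ℕ) : ℝ) * pp m + LB_HH (r - t) m := by
      unfold LB_HH
      rw [Nat.cast_sum]
      simp only [Nat.cast_add]
      rw [Finset.sum_add_distrib, Finset.sum_const, nsmul_eq_mul, h0 m]
      ring
    rw [Nat.add_sub_cancel, ← hS, two_mul]
    refine add_le_add ?_ ?_
    · exact_mod_cast hB
    · exact_mod_cast hC
  have hu := hup r hrn
  have hv := LB_up h0 hF hs hη'pos hup r hrn
  have hEd := LB_Ed hη'pos hs
  have hE0 := (LB_E_pos hη'pos hs).le
  set s : ℝ := ((r - t : ℕ) : ℝ) with hsd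
  have hs0 : 0 ≤ s := Nat.cast_nonneg _
  have hrs : (r : ℝ) - t = s := by
    rw [hsd, Nat.cast_sub htr.le]
  have h6 : s * pp (n - r) + LB_HH (r - t) (n - r) ≤
      Real.exp (-(r * η')) * pp n * (s + 1 / η') := by
    calc s * pp (n - r) + LB_HH (r - t) (n - r) ≤ s * (Real.exp (-(r * η')) * pp n) +
          Real.exp (-(r * η')) * pp n * (s * LB_E η' (r - t)) := by gcongr
      _ = Real.exp (-(r * η')) * pp n * (s * (1 + LB_E η' (r - t))) := by ring
      _ ≤ _ := by gcongr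
  have h7 : s + 1 / η' ≤ (32 * Q / δ + 2) / η := by
    rw [hrs] at hdd
    have h8 : 1 / η' ≤ 2 / η := by
      rw [div_le_div_iff₀ hη'pos hη]
      linarith
    have h9 : s ≤ (32 * Q / δ) / η := by
      rw [le_div_iff₀ hη]; exact hdd
    rw [add_div]
    linarith
  have h8 : Real.exp (-(r * η)) ≤ 8 * Q / (L * √(n : ℝ)) := by
    have h9 : (r : ℝ) * Real.exp (-(r * η)) ≤ Q := by
      unfold qq at hqt hqrt
      exact hqrt.trans hqt
    have h10 : L * √(n : ℝ) / 8 ≤ r := htlow.trans htr'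
    rw [le_div_iff₀ (by positivity)]
    calc Real.exp (-(r * η)) * (L * √(n : ℝ)) = 8 * (L * √(n : ℝ) / 8 * Real.exp (-(r * η))) := by
          ring
      _ ≤ 8 * (r * Real.exp (-(r * η))) := by gcongr
      _ ≤ 8 * Q := by gcongr
  have h9 : 1 / η ≤ 2 * √(n : ℝ) := by
    rw [div_le_iff₀ hη]
    rw [div_le_iff₀ (by positivity)] at hlow
    linarith
  have h10 : 0 ≤ 32 * Q / δ + 2 := by positivity
  rw [div_le_iff₀ hp]
  refine hcount.trans ?_
  calc 2 * (s * pp (n - r) + LB_HH (r - t) (n - r)) ≤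
        2 * (Real.exp (-(r * η')) * pp n * (s + 1 / η')) := by gcongr
    _ ≤ 2 * ((2 * Real.exp (-(r * η))) * pp n * ((32 * Q / δ + 2) / η)) := by gcongr
    _ = 4 * Real.exp (-(r * η)) * ((32 * Q / δ + 2) * (1 / η)) * pp n := by ring
    _ ≤ 4 * (8 * Q / (L * √(n : ℝ))) * ((32 * Q / δ + 2) * (2 * √(n : ℝ))) * pp n := by gcongr
    _ = 64 * Q * (32 * Q / δ + 2) / L * pp n := by
        field_simp
        ring

end ZT68
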