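/-
MP_1882ea_al, helper64.  Row JM, part c: disjoint systems in finite sets.
-/
import Mathlib
import Pool.Agent.Lib.ZT68.Sec
import Pool.Agent.Lib.ZT68.LBa

namespace ZT68

open Finset

/-- finite form of `Sys` -/
noncomputable def JM_S (H K : Finset ℤ) (u v : ℤ) (a b : ℕ) : Finset (Finset ℤ × Finset ℤ) :=
  (H.powersetCard a ×ˢ K.powersetCard b).filter (fun P => Disjoint P.1 P.2 ∧
    Disjoint (P.1.image (fun x => x + u)) (P.2.image (fun x => x + v)))

theorem JM_ncard {H K : Finset ℤ} {H' K' : Set ℤ} (hH : ∀ x, x ∈ H ↔ x ∈ H')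
    (hK : ∀ x, x ∈ K ↔ x ∈ K') (u v : ℤ) (a b : ℕ) :
    (Sys H' K' u v a b).ncard = (JM_S H K u v a b).card := by
  rw [← Set.ncard_coe_finset]
  congr 1
  ext P
  simp only [Sys, JM_S, Set.mem_ofPred_eq, Finset.coe_filter, Finset.mem_product,
    Finset.mem_powersetCard]
  have e1 : (P.1 : Set ℤ) ⊆ H' ↔ P.1 ⊆ H := by
    constructor
    · intro h x hx
      exact (hH x).2 (h hx)
    · intro h x hx
      exact (hH x).1 (h hx)
  have e2 : (P.2 : Set ℤ) ⊆ K' ↔ P.2 ⊆ K := by
    constructor
    · intro h x hx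
      exact (hK x).2 (h hx)
    · intro h x hx
      exact (hK x).1 (h hx)
  rw [e1, e2]
  tauto

theorem JM_up (H K : Finset ℤ) (u v : ℤ) (a b : ℕ) :
    (JM_S H K u v a b).card ≤ H.card.choose a * K.card.choose b := by
  refine (Finset.card_filter_le _ _).trans ?_
  rw [Finset.card_product, Finset.card_powersetCard, Finset.card_powersetCard]

theorem JM_low (H K : Finset ℤ) (u v : ℤ) (a b : ℕ) :
    H.card.choose a * (K.card - 2 * a).choose b ≤ (JM_S H K u v a b).card := by
  classical
  let F : Finset ℤ → Finset ℤ := fun A => K \ (A ∪ A.image (fun x => x + u - v))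
  have h1 : ∀ A ∈ H.powersetCard a, K.card - 2 * a ≤ (F A).card := by
    intro A hA
    rw [Finset.mem_powersetCard] at hA
    have h2 : (A ∪ A.image (fun x => x + u - v)).card ≤ 2 * a := by
      refine (Finset.card_union_le _ _).trans ?_
      have := Finset.card_image_le (s := A) (f := fun x => x + u - v)
      rw [hA.2] at this ⊢
      omega
    have h3 := Finset.le_card_sdiff (A ∪ A.image (fun x => x + u - v)) K
    show _ ≤ (K \ (A ∪ A.image (fun x => x + u - v))).card
    omega
  calc H.card.choose a * (K.card - 2 * a).choose b =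
        ∑ _A ∈ H.powersetCard a, (K.card - 2 * a).choose b := by
        rw [Finset.sum_const, Finset.card_powersetCard, smul_eq_mul]
    _ ≤ ∑ A ∈ H.powersetCard a, ((F A).powersetCard b).card := by
        refine Finset.sum_le_sum fun A hA => ?_
        rw [Finset.card_powersetCard]
        exact Nat.choose_le_choose _ (h1 A hA)
    _ = ((H.powersetCard a).sigma (fun A => (F A).powersetCard b)).card := by
        rw [Finset.card_sigma]
    _ ≤ (JM_S H K u v a b).card := by
        refine Finset.card_le_card_of_injOn (fun p => (p.1, p.2)) ?_ ?_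
        · rintro ⟨A, B⟩ hp
          simp only [Finset.coe_sigma, Set.mem_sigma_iff, Finset.mem_coe,
            Finset.mem_powersetCard] at hp
          obtain ⟨⟨hA, hAc⟩, hB, hBc⟩ := hp
          simp only [JM_S, Finset.mem_coe, Finset.mem_filter, Finset.mem_product,
            Finset.mem_powersetCard]
          have hB' : ∀ x ∈ B, x ∈ K ∧ x ∉ A ∧ ∀ y ∈ A, y + u - v ≠ x := by
            intro x hx
            have := hB hx
            simp only [F, Finset.mem_sdiff, Finset.mem_union, Finset.mem_image, not_or,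
              not_exists, not_and] at this
            exact ⟨this.1, this.2.1, this.2.2⟩
          refine ⟨⟨⟨hA, hAc⟩, fun x hx => (hB' x hx).1, hBc⟩, ?_, ?_⟩
          · rw [Finset.disjoint_left]
            intro x hx hx2
            exact (hB' x hx2).2.1 hx
          · rw [Finset.disjoint_left]
            intro x hx hx2
            rw [Finset.mem_image] at hx hx2
            obtain ⟨y, hy, rfl⟩ := hx
            obtain ⟨z, hz, e⟩ := hx2
            exact (hB' z hz).2.2 y hy (by linarith)
        · rintro ⟨A, B⟩ _ ⟨A', B'⟩ _ h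
          simp only [Prod.mk.injEq] at h
          obtain ⟨rfl, rfl⟩ := h
          rfl

/-- crossing pairs -/
noncomputable def JM_I (H K : Finset ℤ) (u v : ℤ) : Finset (ℤ × ℤ) :=
  (H ×ˢ K).filter (fun p => p.1 = p.2 ∨ p.1 + u = p.2 + v)

theorem JM_I_card (H K : Finset ℤ) (u v : ℤ) : (JM_I H K u v).card ≤ 2 * H.card := by
  classical
  have h : JM_I H K u v ⊆ H.image (fun x => (x, x)) ∪ H.image (fun x => (x, x + u - v)) := by
    rintro ⟨x, y⟩ hp
    simp only [JM_I, Finset.mem_filter, Finset.mem_product] at hp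
    obtain ⟨⟨hx, hy⟩, h | h⟩ := hp
    · subst h
      exact Finset.mem_union_left _ (Finset.mem_image_of_mem _ hx)
    · refine Finset.mem_union_right _ (Finset.mem_image.2 ⟨x, hx, ?_⟩)
      ext
      · rfl
      · simp only
        linarith
  refine (Finset.card_le_card h).trans ((Finset.card_union_le _ _).trans ?_)
  have h1 := Finset.card_image_le (s := H) (f := fun x => (x, x))
  have h2 := Finset.card_image_le (s := H) (f := fun x => (x, x + u - v))
  omega

theorem JM_choose_le_pow (n k : ℕ) : n.choose k ≤ n ^ k := by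
  have h1 := Nat.descFactorial_le_pow n k
  rw [Nat.descFactorial_eq_factorial_mul_choose] at h1
  have h2 := Nat.factorial_pos k
  nlinarith [Nat.zero_le (n.choose k)]

theorem JM_diff (H K : Finset ℤ) (u v : ℤ) (a b : ℕ) :
    H.card.choose a * K.card.choose b ≤ (JM_S H K u v a b).card +
      (JM_I H K u v).card * (H.card ^ (a - 1) * K.card ^ (b - 1)) := by
  classical
  set T := H.powersetCard a ×ˢ K.powersetCard b with hT
  have hTc : T.card = H.card.choose a * K.card.choose b := by
    rw [hT, Finset.card_product, Finset.card_powersetCard, Finset.card_powersetCard]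
  rw [← hTc]
  have hsplit := Finset.card_filter_add_card_filter_not (s := T)
    (fun P : Finset ℤ × Finset ℤ => Disjoint P.1 P.2 ∧
      Disjoint (P.1.image (fun x => x + u)) (P.2.image (fun x => x + v)))
  rw [← hsplit]
  refine Nat.add_le_add_left ?_ _
  -- the bad pairs
  let G : ℤ × ℤ → Finset (Finset ℤ × Finset ℤ) := fun p =>
    T.filter (fun P => p.1 ∈ P.1 ∧ p.2 ∈ P.2)
  have h1 : T.filter (fun P => ¬ (Disjoint P.1 P.2 ∧
      Disjoint (P.1.image (fun x => x + u)) (P.2.image (fun x => x + v)))) ⊆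
      (JM_I H K u v).biUnion G := by
    intro P hP
    rw [Finset.mem_filter] at hP
    obtain ⟨hPT, hbad⟩ := hP
    have hPT' := hPT
    rw [hT, Finset.mem_product, Finset.mem_powersetCard, Finset.mem_powersetCard] at hPT'
    rw [Finset.mem_biUnion]
    rw [not_and_or, Finset.not_disjoint_iff, Finset.not_disjoint_iff] at hbad
    rcases hbad with ⟨x, hx, hy⟩ | ⟨x, hx, hy⟩
    · refine ⟨(x, x), ?_, ?_⟩
      · simp only [JM_I, Finset.mem_filter, Finset.mem_product]
        exact ⟨⟨hPT'.1.1 hx, hPT'.2.1 hy⟩, Or.inl trivial⟩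
      · exact Finset.mem_filter.2 ⟨hPT, hx, hy⟩
    · rw [Finset.mem_image] at hx hy
      obtain ⟨y, hy', rfl⟩ := hx
      obtain ⟨z, hz, e⟩ := hy
      refine ⟨(y, z), ?_, ?_⟩
      · simp only [JM_I, Finset.mem_filter, Finset.mem_product]
        exact ⟨⟨hPT'.1.1 hy', hPT'.2.1 hz⟩, Or.inr e.symm⟩
      · exact Finset.mem_filter.2 ⟨hPT, hy', hz⟩
  have h2 : ∀ p ∈ JM_I H K u v, (G p).card ≤ H.card ^ (a - 1) * K.card ^ (b - 1) := by
    intro p _
    calc (G p).card ≤ (H.powersetCard (a - 1) ×ˢ K.powersetCard (b - 1)).card := by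
          refine Finset.card_le_card_of_injOn (fun P => (P.1.erase p.1, P.2.erase p.2)) ?_ ?_
          · intro P hP
            have hP' : P ∈ G p := hP
            simp only [G, Finset.mem_filter, hT, Finset.mem_product,
              Finset.mem_powersetCard] at hP'
            obtain ⟨⟨⟨h3, h4⟩, h5, h6⟩, h7, h8⟩ := hP'
            simp only [Finset.coe_product, Set.mem_prod, Finset.mem_coe, Finset.mem_powersetCard]
            refine ⟨⟨(Finset.erase_subset _ _).trans h3, ?_⟩, (Finset.erase_subset _ _).trans h5, ?_⟩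
            · rw [Finset.card_erase_of_mem h7, h4]
            · rw [Finset.card_erase_of_mem h8, h6]
          · intro P hP P' hP' h
            have hP1 : P ∈ G p := hP
            have hP1' : P' ∈ G p := hP'
            simp only [G, Finset.mem_filter] at hP1 hP1'
            simp only [Prod.mk.injEq] at h
            ext1
            · rw [← Finset.insert_erase hP1.2.1, h.1, Finset.insert_erase hP1'.2.1]
            · rw [← Finset.insert_erase hP1.2.2, h.2, Finset.insert_erase hP1'.2.2]
      _ = H.card.choose (a - 1) * K.card.choose (b - 1) := by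
          rw [Finset.card_product, Finset.card_powersetCard, Finset.card_powersetCard]
      _ ≤ _ := Nat.mul_le_mul (JM_choose_le_pow _ _) (JM_choose_le_pow _ _)
  exact (Finset.card_le_card h1).trans (Finset.card_biUnion_le_card_mul _ _ _ h2)

theorem JM_sumI (h1 : BD1_stmt) (n : ℕ) {r t : ℕ} (hr : 1 ≤ r) (ht : 1 ≤ t) :
    ∑ Y ∈ DD n, (JM_I (LB_H h1 Y ht) (LB_H h1 Y hr) (-(t : ℤ)) (-(r : ℤ))).card ≤
      ((LB_T h1 n hr ht).filter (fun P => P.2.1 = P.2.2)).card +
      ((LB_T h1 n hr ht).filter (fun P => P.2.1 - (r : ℤ) = P.2.2 - (t : ℤ))).card := by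
  classical
  rw [← Finset.card_sigma]
  refine le_trans ?_ (Finset.card_union_le _ _)
  refine Finset.card_le_card_of_injOn (fun P => ⟨P.1, (P.2.2, P.2.1)⟩) ?_ ?_
  · rintro ⟨Y, x, y⟩ hP
    simp only [Finset.coe_sigma, Set.mem_sigma_iff, Finset.mem_coe, JM_I, Finset.mem_filter,
      Finset.mem_product] at hP
    obtain ⟨hY, ⟨hx, hy⟩, hc⟩ := hP
    simp only [Finset.mem_coe, Finset.mem_union, Finset.mem_filter, LB_T, Finset.mem_sigma,
      Finset.mem_product]
    rcases hc with hc | hc
    · exact Or.inl ⟨⟨hY, hy, hx⟩, hc.symm⟩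
    · exact Or.inr ⟨⟨hY, hy, hx⟩, by linarith⟩
  · rintro ⟨Y, x, y⟩ _ ⟨Y', x', y'⟩ _ h
    simp only [Sigma.mk.injEq, heq_eq_eq, Prod.mk.injEq] at h
    obtain ⟨rfl, rfl, rfl⟩ := h
    rfl

end ZT68
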