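/-
MP_1882ea_al, helper64.  Row JM, part d: the main term.
-/
import Mathlib
import Pool.Agent.Lib.ZT68.JMw
import Pool.Agent.Lib.ZT68.JMc

namespace ZT68

open Finset

theorem JM_real {κ ρ : ℝ} {J : ℕ} (hκ0 : 0 ≤ κ) (hκ1 : κ ≤ 1) (hρ0 : 0 ≤ ρ)
    (hJρ : J * ρ ≤ 1 / 2) (hρ1 : ρ ≤ 1) :
    1 - (κ + 4 * (J * ρ)) ≤ (1 - κ) * (1 - ρ) ^ J ∧
      (1 + κ) * (1 + ρ) ^ J ≤ 1 + (κ + 4 * (J * ρ)) := by
  have hx0 : 0 ≤ (J : ℝ) * ρ := by positivity
  constructor
  · have h1 : 1 - J * ρ ≤ (1 - ρ) ^ J := by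
      have := one_add_mul_le_pow (a := -ρ) (by linarith) J
      have e : 1 + (J : ℝ) * (-ρ) = 1 - J * ρ := by ring
      rw [e] at this
      have e2 : (1 : ℝ) + -ρ = 1 - ρ := by ring
      rw [e2] at this
      exact this
    have h2 : (1 - κ) * (1 - J * ρ) ≤ (1 - κ) * (1 - ρ) ^ J :=
      mul_le_mul_of_nonneg_left h1 (by linarith)
    nlinarith
  · have h1 : (1 + ρ) ^ J ≤ Real.exp (J * ρ) := by
      rw [Real.exp_nat_mul]
      have := Real.add_one_le_exp ρ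
      gcongr
      linarith
    have h2 : Real.exp (J * ρ) ≤ 1 + 2 * (J * ρ) := by
      have h3 : 1 - J * ρ ≤ Real.exp (-(J * ρ)) := by
        linarith [Real.add_one_le_exp (-(J * ρ))]
      have h4 : Real.exp (J * ρ) * Real.exp (-(J * ρ)) = 1 := by rw [← Real.exp_add]; simp
      have h5 := Real.exp_pos (J * ρ)
      set x := (J : ℝ) * ρ
      have h6 : Real.exp x * (1 - x) ≤ 1 := by
        calc Real.exp x * (1 - x) ≤ Real.exp x * Real.exp (-x) := by gcongr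
          _ = 1 := h4
      have h7 : (1 : ℝ) ≤ (1 + 2 * x) * (1 - x) := by nlinarith
      have h8 : Real.exp x * (1 - x) ≤ (1 + 2 * x) * (1 - x) := h6.trans h7
      exact le_of_mul_le_mul_right h8 (by linarith)
    calc (1 + κ) * (1 + ρ) ^ J ≤ (1 + κ) * (1 + 2 * (J * ρ)) := by
          have := h1.trans h2
          gcongr
      _ ≤ _ := by nlinarith

/-- bounds of the binomial coefficients -/
theorem JM_choose_up {N a : ℕ} {T ρ : ℝ} (hN : (N : ℝ) ≤ T * (1 + ρ)) :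
    (N.choose a : ℝ) ≤ T ^ a / (a.factorial : ℝ) * (1 + ρ) ^ a := by
  have h1 := Nat.choose_le_pow_div (α := ℝ) a N
  calc (N.choose a : ℝ) ≤ (N : ℝ) ^ a / (a.factorial : ℝ) := h1
    _ ≤ (T * (1 + ρ)) ^ a / (a.factorial : ℝ) := by gcongr
    _ = _ := by rw [mul_pow]; ring

theorem JM_choose_low {N a : ℕ} {T ρ : ℝ} (hT : 0 ≤ T * (1 - ρ)) (hN : T * (1 - ρ) ≤ (N : ℝ) - a) :
    T ^ a / (a.factorial : ℝ) * (1 - ρ) ^ a ≤ (N.choose a : ℝ) := by
  have h1 := Nat.pow_sub_le_descFactorial N a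
  rw [Nat.descFactorial_eq_factorial_mul_choose] at h1
  have h2 : (((N + 1 - a : ℕ) : ℝ)) ^ a ≤ (a.factorial : ℝ) * N.choose a := by exact_mod_cast h1
  have h3 : T * (1 - ρ) ≤ ((N + 1 - a : ℕ) : ℝ) := by
    have h4 : a ≤ N + 1 := by
      have : (a : ℝ) ≤ N := by linarith
      have : a ≤ N := by exact_mod_cast this
      omega
    rw [Nat.cast_sub h4]
    push_cast
    linarith
  have h4 : (0 : ℝ) < a.factorial := by exact_mod_cast Nat.factorial_pos a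
  rw [div_mul_eq_mul_div, div_le_iff₀ h4, ← mul_pow]
  calc (T * (1 - ρ)) ^ a ≤ (((N + 1 - a : ℕ) : ℝ)) ^ a := by gcongr
    _ ≤ _ := by linarith

/-- the sizes used for the main term -/
theorem JM_win_sizes {η C Q δ κ : ℝ} {J n t r : ℕ} (W : JM_win η C Q δ κ J n t r) (hJ : 1 ≤ J) :
    (3 * J : ℝ) ≤ t * (3 * J / Real.log n) ∧ (n : ℝ) ≤ 3 * J / Real.log n * t * t := by
  have hL := W.L1
  have hn : (0 : ℝ) < n := by
    have := W.n1
    exact_mod_cast this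
  have hJ' : (1 : ℝ) ≤ J := by exact_mod_cast hJ
  set L := Real.log (n : ℝ) with hLdef
  have hs : √(n : ℝ) * √(n : ℝ) = n := Real.mul_self_sqrt hn.le
  have hs8 : 8 ≤ √(n : ℝ) := by
    have h1 : Real.exp (L / 2) = √(n : ℝ) := by
      rw [Real.sqrt_eq_rpow, Real.rpow_def_of_pos hn, ← hLdef]
      congr 1
      ring
    rw [← h1]
    have := Real.add_one_le_exp (L / 2)
    linarith
  have htl := W.tlow
  rw [← hLdef] at htl
  have hLpos : 0 < L := by linarith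
  have htL : L ≤ t := by
    have : L * 8 ≤ L * √(n : ℝ) := by gcongr
    linarith
  constructor
  · rw [mul_div_assoc', le_div_iff₀ hLpos]
    nlinarith
  · have h2 : L * √(n : ℝ) / 8 * (L * √(n : ℝ) / 8) ≤ (t : ℝ) * t := by gcongr
    have h3 : L * √(n : ℝ) / 8 * (L * √(n : ℝ) / 8) = L ^ 2 * n / 64 := by
      calc L * √(n : ℝ) / 8 * (L * √(n : ℝ) / 8) = L ^ 2 * (√(n : ℝ) * √(n : ℝ)) / 64 := by ring
        _ = _ := by rw [hs]
    rw [h3] at h2
    have h4 : 3 * J / L * t * t = 3 * J * (t * t) / L := by ring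
    rw [h4, le_div_iff₀ hLpos]
    have h5 : n * L ≤ L ^ 2 * n / 64 := by
      have : n * L * 64 ≤ n * L * L := by gcongr; linarith
      nlinarith
    have h6 : L ^ 2 * n / 64 ≤ 3 * J * (t * t) := by
      have : (t : ℝ) * t ≤ 3 * J * (t * t) := by
        have : 0 ≤ (t : ℝ) * t := by positivity
        nlinarith
      linarith
    linarith

/-- the number of upper systems of one diagram -/
theorem JM_upcard (h1 : BD1_stmt) (h4 : BD4_stmt) (hF : FQ_stmt) {η C Q δ κ : ℝ} {J n t r : ℕ}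
    (W : JM_win η C Q δ κ J n t r) (hJ : 1 ≤ J) (hr : 1 ≤ r) {a b m : ℕ} (hab : a + b ≤ J)
    (hm : m ≤ n) (hρ : J * (3 * J / Real.log n) ≤ 1 / 2) {Y : YoungDiagram} (hY : Y ∈ DD m) :
    (t : ℝ) ^ a / (a.factorial : ℝ) * ((r : ℝ) ^ b / (b.factorial : ℝ)) *
      (1 - 3 * J / Real.log n) ^ J ≤
      ((JM_S (LB_U h4 Y W.ht) (LB_U h4 Y hr) (t : ℤ) (r : ℤ) a b).card : ℝ) ∧
    ((JM_S (LB_U h4 Y W.ht) (LB_U h4 Y hr) (t : ℤ) (r : ℤ) a b).card : ℝ) ≤
      (t : ℝ) ^ a / (a.factorial : ℝ) * ((r : ℝ) ^ b / (b.factorial : ℝ)) *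
        (1 + 3 * J / Real.log n) ^ J := by
  obtain ⟨s1, s2⟩ := JM_win_sizes W hJ
  have hL := W.L1
  have hJ' : (1 : ℝ) ≤ J := by exact_mod_cast hJ
  set ρ : ℝ := 3 * J / Real.log n with hρdef
  have hρ0 : 0 < ρ := by positivity
  have hρ1 : ρ ≤ 1 / 2 := by nlinarith
  have ht0 : (0 : ℝ) < t := by exact_mod_cast W.ht
  have htr : (t : ℝ) ≤ r := by exact_mod_cast W.htr.le
  have hr0 : (0 : ℝ) < r := by linarith
  have hYc : Y.card = m := mem_DD.1 hY
  have habr : (a : ℝ) + b ≤ J := by exact_mod_cast hab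
  have ha0 : (0 : ℝ) ≤ a := Nat.cast_nonneg a
  have hb0 : (0 : ℝ) ≤ b := Nat.cast_nonneg b
  -- hooks
  have hht : (hn t Y : ℝ) ≤ ρ * t := by
    have h5 := hF.small t Y W.ht
    have h6 : (t : ℝ) * hn t Y ≤ n := by exact_mod_cast (h5.trans (hYc.le.trans hm))
    have h7 : (t : ℝ) * hn t Y ≤ t * (ρ * t) := by linarith
    exact le_of_mul_le_mul_left h7 ht0
  have hhr : (hn r Y : ℝ) ≤ ρ * r := by
    have h5 := hF.small r Y hr
    have h6 : (r : ℝ) * hn r Y ≤ n := by exact_mod_cast (h5.trans (hYc.le.trans hm))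
    have h7 : (r : ℝ) * hn r Y ≤ r * (ρ * r) := by
      have : ρ * t * t ≤ ρ * r * r := by gcongr
      linarith
    exact le_of_mul_le_mul_left h7 hr0
  have hX : 0 ≤ (t : ℝ) ^ a / (a.factorial : ℝ) * ((r : ℝ) ^ b / (b.factorial : ℝ)) := by positivity
  have hrρ : (3 * J : ℝ) ≤ r * ρ := s1.trans (by gcongr)
  constructor
  · have h5 := JM_low (LB_U h4 Y W.ht) (LB_U h4 Y hr) (t : ℤ) (r : ℤ) a b
    rw [LB_card_U h1, LB_card_U h1] at h5
    have h6 : (t.choose a * (r - 2 * a).choose b) ≤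
        (JM_S (LB_U h4 Y W.ht) (LB_U h4 Y hr) (t : ℤ) (r : ℤ) a b).card := by
      refine le_trans (Nat.mul_le_mul (Nat.choose_le_choose _ (by omega))
        (Nat.choose_le_choose _ (by omega))) h5
    have h7 : (t.choose a : ℝ) * ((r - 2 * a).choose b : ℝ) ≤
        ((JM_S (LB_U h4 Y W.ht) (LB_U h4 Y hr) (t : ℤ) (r : ℤ) a b).card : ℝ) := by
      exact_mod_cast h6
    refine le_trans ?_ h7
    have h8 : (t : ℝ) ^ a / (a.factorial : ℝ) * (1 - ρ) ^ a ≤ (t.choose a : ℝ) := by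
      refine JM_choose_low ?_ ?_
      · exact mul_nonneg ht0.le (by linarith)
      · linarith
    have h2a : 2 * a ≤ r := by
      have : (2 : ℝ) * a ≤ r := by
        have : (r : ℝ) * ρ ≤ r * 1 := by gcongr; linarith
        linarith
      exact_mod_cast this
    have h9 : (r : ℝ) ^ b / (b.factorial : ℝ) * (1 - ρ) ^ b ≤ ((r - 2 * a).choose b : ℝ) := by
      refine JM_choose_low ?_ ?_
      · exact mul_nonneg hr0.le (by linarith)
      · rw [Nat.cast_sub h2a]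
        push_cast
        linarith
    have h10 : (1 - ρ) ^ J ≤ (1 - ρ) ^ a * (1 - ρ) ^ b := by
      rw [← pow_add]
      exact pow_le_pow_of_le_one (by linarith) (by linarith) hab
    calc (t : ℝ) ^ a / (a.factorial : ℝ) * ((r : ℝ) ^ b / (b.factorial : ℝ)) * (1 - ρ) ^ J ≤
          (t : ℝ) ^ a / (a.factorial : ℝ) * ((r : ℝ) ^ b / (b.factorial : ℝ)) *
            ((1 - ρ) ^ a * (1 - ρ) ^ b) := by gcongr
      _ = ((t : ℝ) ^ a / (a.factorial : ℝ) * (1 - ρ) ^ a) *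
            ((r : ℝ) ^ b / (b.factorial : ℝ) * (1 - ρ) ^ b) := by ring
      _ ≤ _ := by
          have h11 : 0 ≤ (r : ℝ) ^ b / (b.factorial : ℝ) * (1 - ρ) ^ b := by
            have : 0 ≤ 1 - ρ := by linarith
            positivity
          exact mul_le_mul h8 h9 h11 (Nat.cast_nonneg _)
  · have h5 := JM_up (LB_U h4 Y W.ht) (LB_U h4 Y hr) (t : ℤ) (r : ℤ) a b
    rw [LB_card_U h1, LB_card_U h1] at h5
    have h7 : ((JM_S (LB_U h4 Y W.ht) (LB_U h4 Y hr) (t : ℤ) (r : ℤ) a b).card : ℝ) ≤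
        ((t + hn t Y).choose a : ℝ) * ((r + hn r Y).choose b : ℝ) := by exact_mod_cast h5
    refine h7.trans ?_
    have h8 : ((t + hn t Y).choose a : ℝ) ≤ (t : ℝ) ^ a / (a.factorial : ℝ) * (1 + ρ) ^ a := by
      refine JM_choose_up ?_
      push_cast
      linarith
    have h9 : ((r + hn r Y).choose b : ℝ) ≤ (r : ℝ) ^ b / (b.factorial : ℝ) * (1 + ρ) ^ b := by
      refine JM_choose_up ?_
      push_cast
      linarith
    have h10 : (1 + ρ) ^ a * (1 + ρ) ^ b ≤ (1 + ρ) ^ J := by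
      rw [← pow_add]
      exact pow_le_pow_right₀ (by linarith) hab
    calc ((t + hn t Y).choose a : ℝ) * ((r + hn r Y).choose b : ℝ) ≤
          ((t : ℝ) ^ a / (a.factorial : ℝ) * (1 + ρ) ^ a) *
            ((r : ℝ) ^ b / (b.factorial : ℝ) * (1 + ρ) ^ b) := by gcongr
      _ = (t : ℝ) ^ a / (a.factorial : ℝ) * ((r : ℝ) ^ b / (b.factorial : ℝ)) *
            ((1 + ρ) ^ a * (1 + ρ) ^ b) := by ring
      _ ≤ _ := by gcongr

/-- the main term -/
theorem JM_main (h0 : DDc_stmt) (h1 : BD1_stmt) (h4 : BD4_stmt) (hF : FQ_stmt) (hS : JS_stmt)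
    {η C Q δ κ : ℝ} {J n t r : ℕ} (W : JM_win η C Q δ κ J n t r) (hJ : 1 ≤ J) (hr : 1 ≤ r)
    {a b : ℕ} (hab : a + b ≤ J) (hρ : J * (3 * J / Real.log n) ≤ 1 / 2) :
    |(∑ Y ∈ DD n, ((JM_S (LB_H h1 Y W.ht) (LB_H h1 Y hr) (-(t : ℤ)) (-(r : ℤ)) a b).card : ℝ)) /
        pp n - qq η t ^ a / (a.factorial : ℝ) * (qq η r ^ b / (b.factorial : ℝ))| ≤
      (κ + 12 * J ^ 2 / Real.log n) * (1 + Q) ^ J := by
  have hsr : a * t + b * r ≤ J * r := by
    have h5 : a * t ≤ a * r := Nat.mul_le_mul_left _ W.htr.le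
    have h6 : (a + b) * r ≤ J * r := Nat.mul_le_mul_right _ hab
    nlinarith
  have hsn : a * t + b * r ≤ n := hsr.trans W.sn
  obtain ⟨m, hm⟩ : ∃ m, n = m + a * t + b * r := ⟨n - (a * t + b * r), by omega⟩
  have hmn : n - (a * t + b * r) = m := by omega
  have hrat := W.rat (a * t + b * r) hsr
  rw [hmn] at hrat
  -- down = up
  have e1 : ∑ Y ∈ DD n, (JM_S (LB_H h1 Y W.ht) (LB_H h1 Y hr) (-(t : ℤ)) (-(r : ℤ)) a b).card =
      ∑ Y ∈ DD m, (JM_S (LB_U h4 Y W.ht) (LB_U h4 Y hr) (t : ℤ) (r : ℤ) a b).card := by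
    have h5 := hS m t r a b W.ht hr W.htr.ne
    rw [← hm] at h5
    have h6 : ∀ Y : YoungDiagram, (Sys (Hk (SS Y) t) (Hk (SS Y) r) (-(t : ℤ)) (-(r : ℤ)) a b).ncard =
        (JM_S (LB_H h1 Y W.ht) (LB_H h1 Y hr) (-(t : ℤ)) (-(r : ℤ)) a b).card := fun Y =>
      JM_ncard (fun x => LB_mem_H h1 Y W.ht) (fun x => LB_mem_H h1 Y hr) _ _ _ _
    have h7 : ∀ Y : YoungDiagram, (Sys (Up (SS Y) t) (Up (SS Y) r) (t : ℤ) (r : ℤ) a b).ncard =
        (JM_S (LB_U h4 Y W.ht) (LB_U h4 Y hr) (t : ℤ) (r : ℤ) a b).card := fun Y =>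
      JM_ncard (fun x => LB_mem_U h4 Y W.ht) (fun x => LB_mem_U h4 Y hr) _ _ _ _
    simp only [h6, h7] at h5
    exact h5
  have e2 : (∑ Y ∈ DD n, ((JM_S (LB_H h1 Y W.ht) (LB_H h1 Y hr) (-(t : ℤ)) (-(r : ℤ)) a b).card : ℝ))
      = ∑ Y ∈ DD m, ((JM_S (LB_U h4 Y W.ht) (LB_U h4 Y hr) (t : ℤ) (r : ℤ) a b).card : ℝ) := by
    exact_mod_cast e1
  rw [e2]
  have hL := W.L1
  have hp := MU_pp_pos n
  have hJ' : (1 : ℝ) ≤ J := by exact_mod_cast hJ
  set ρ : ℝ := 3 * J / Real.log n with hρdef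
  have hρ0 : 0 < ρ := by positivity
  have hρ1 : ρ ≤ 1 / 2 := by nlinarith
  set X : ℝ := (t : ℝ) ^ a / (a.factorial : ℝ) * ((r : ℝ) ^ b / (b.factorial : ℝ)) with hXdef
  have hX0 : 0 ≤ X := by positivity
  set S : ℝ := ∑ Y ∈ DD m, ((JM_S (LB_U h4 Y W.ht) (LB_U h4 Y hr) (t : ℤ) (r : ℤ) a b).card : ℝ)
    with hSdef
  have hSlow : (pp m : ℝ) * (X * (1 - ρ) ^ J) ≤ S := by
    have := Finset.card_nsmul_le_sum (DD m) _ _
      (fun Y hY => (JM_upcard h1 h4 hF W hJ hr hab (by omega) hρ hY).1)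
    rw [nsmul_eq_mul, h0 m] at this
    exact this
  have hSup : S ≤ (pp m : ℝ) * (X * (1 + ρ) ^ J) := by
    have := Finset.sum_le_card_nsmul (DD m) _ _
      (fun Y hY => (JM_upcard h1 h4 hF W hJ hr hab (by omega) hρ hY).2)
    rw [nsmul_eq_mul, h0 m] at this
    exact this
  obtain ⟨r1, r2⟩ := JM_real W.k0.le W.k1 hρ0.le hρ (by linarith)
  have hq : qq η t ^ a / (a.factorial : ℝ) * (qq η r ^ b / (b.factorial : ℝ)) =
      X * Real.exp (-(((a * t + b * r : ℕ) : ℝ) * η)) := by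
    have h5 : Real.exp (-(((a * t + b * r : ℕ) : ℝ) * η)) =
        Real.exp (-(t * η)) ^ a * Real.exp (-(r * η)) ^ b := by
      rw [← Real.exp_nat_mul, ← Real.exp_nat_mul, ← Real.exp_add]
      congr 1
      push_cast
      ring
    rw [h5, hXdef]
    unfold qq
    rw [mul_pow, mul_pow]
    ring
  rw [hq]
  set E : ℝ := Real.exp (-(((a * t + b * r : ℕ) : ℝ) * η)) with hE
  have hE0 : 0 < E := Real.exp_pos _
  have hXE : X * E ≤ (1 + Q) ^ J := by
    rw [← hq]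
    have hη : 0 < η := by
      have h5 := W.low
      have h6 : (0 : ℝ) < n := by
        have := W.n1
        exact_mod_cast this
      exact lt_of_lt_of_le (by positivity) h5
    have hq0 : ∀ s : ℕ, 0 ≤ qq η s := fun s => by unfold qq; positivity
    have h5 : qq η t ≤ 1 + Q := by linarith [W.qt]
    have h6 : qq η r ≤ 1 + Q := by linarith [W.qt, W.qrt]
    have h7 : (1 : ℝ) ≤ a.factorial := by exact_mod_cast Nat.factorial_pos a
    have h8 : (1 : ℝ) ≤ b.factorial := by exact_mod_cast Nat.factorial_pos b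
    have hQ1 : 1 ≤ 1 + Q := by linarith [W.Q0]
    calc qq η t ^ a / (a.factorial : ℝ) * (qq η r ^ b / (b.factorial : ℝ)) ≤
          qq η t ^ a * qq η r ^ b := by
          have g1 := hq0 t
          have g2 := hq0 r
          have g3 : qq η t ^ a / (a.factorial : ℝ) ≤ qq η t ^ a := div_le_self (by positivity) h7
          have g4 : qq η r ^ b / (b.factorial : ℝ) ≤ qq η r ^ b := div_le_self (by positivity) h8
          exact mul_le_mul g3 g4 (by positivity) (by positivity)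
      _ ≤ (1 + Q) ^ a * (1 + Q) ^ b := by
          have g1 := hq0 t
          have g2 := hq0 r
          gcongr
      _ = (1 + Q) ^ (a + b) := by rw [pow_add]
      _ ≤ _ := pow_le_pow_right₀ hQ1 hab
  have hrl := (abs_le.1 hrat).1
  have hru := (abs_le.1 hrat).2
  have hXE0 : 0 ≤ X * E := by positivity
  have hρe : 12 * (J : ℝ) ^ 2 / Real.log n = 4 * (J * ρ) := by rw [hρdef]; ring
  rw [hρe]
  have hup : S / pp n ≤ X * E * (1 + (κ + 4 * (J * ρ))) := by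
    rw [div_le_iff₀ hp]
    calc S ≤ (pp m : ℝ) * (X * (1 + ρ) ^ J) := hSup
      _ ≤ ((1 + κ) * (E * pp n)) * (X * (1 + ρ) ^ J) := by
          gcongr
          linarith
      _ = X * E * ((1 + κ) * (1 + ρ) ^ J) * pp n := by ring
      _ ≤ _ := by gcongr
  have hlow : X * E * (1 - (κ + 4 * (J * ρ))) ≤ S / pp n := by
    rw [le_div_iff₀ hp]
    have h9 : 0 ≤ 1 - ρ := by linarith
    calc X * E * (1 - (κ + 4 * (J * ρ))) * pp n ≤ X * E * ((1 - κ) * (1 - ρ) ^ J) * pp n := by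
          gcongr
      _ = ((1 - κ) * (E * pp n)) * (X * (1 - ρ) ^ J) := by ring
      _ ≤ (pp m : ℝ) * (X * (1 - ρ) ^ J) := by
          gcongr
          linarith
      _ ≤ S := hSlow
  have hk : 0 ≤ κ + 4 * (J * ρ) := by
    have := W.k0
    positivity
  have hfin : X * E * (κ + 4 * (J * ρ)) ≤ (κ + 4 * (J * ρ)) * (1 + Q) ^ J := by
    rw [mul_comm]
    gcongr
  rw [abs_le]
  constructor
  · have : X * E * (1 - (κ + 4 * (J * ρ))) = X * E - X * E * (κ + 4 * (J * ρ)) := by ring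
    linarith
  · have : X * E * (1 + (κ + 4 * (J * ρ))) = X * E + X * E * (κ + 4 * (J * ρ)) := by ring
    linarith

end ZT68
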