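/-
MP_1882ea_al, helper64.  Row JM: joint factorial moments in the window.
-/
import Mathlib
import Pool.Agent.Lib.ZT68.JMa
import Pool.Agent.Lib.ZT68.JMb
import Pool.Agent.Lib.ZT68.JMd

namespace ZT68

open Finset

/-- the difference between the product of the binomial coefficients and the disjoint systems -/
theorem JM_err (h0 : DDc_stmt) (h1 : BD1_stmt) (h2 : BD2_stmt) (h4 : BD4_stmt) (hF : FQ_stmt)
    {η C Q δ κ : ℝ} {J n t r : ℕ} (W : JM_win η C Q δ κ J n t r) (hJ : 1 ≤ J) (hr : 1 ≤ r)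
    {a b : ℕ} (hab : 1 + 2 * (a - 1) + 2 * (b - 1) ≤ J) {μ : ℝ} (hμ : 0 < μ) {M : ℝ}
    (hM : ∀ P ≤ J, ∀ s : ℕ, (s = t ∨ s = r) → (∑ Y ∈ DD n, (hn s Y : ℝ) ^ P) / pp n ≤ M) :
    (∑ Y ∈ DD n, ((hn t Y).choose a : ℝ) * (hn r Y).choose b) / pp n ≤
      (∑ Y ∈ DD n, ((JM_S (LB_H h1 Y W.ht) (LB_H h1 Y hr) (-(t : ℤ)) (-(r : ℤ)) a b).card : ℝ)) /
        pp n + (μ * (64 * Q * (32 * Q / δ + 2) / Real.log n) + 4 * M / μ) := by
  have hp := MU_pp_pos n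
  have hcross := JMb_cross h0 h1 h2 h4 hF W hJ hr
  have hsum := JM_sumI h1 n hr W.ht
  set I : YoungDiagram → ℕ := fun Y =>
    (JM_I (LB_H h1 Y W.ht) (LB_H h1 Y hr) (-(t : ℤ)) (-(r : ℤ))).card with hI
  set P : ℕ := 1 + 2 * (a - 1) + 2 * (b - 1) with hP
  have hEI : (∑ Y ∈ DD n, (I Y : ℝ)) / pp n ≤ 64 * Q * (32 * Q / δ + 2) / Real.log n := by
    refine le_trans ?_ hcross
    gcongr
    exact_mod_cast hsum
  have hMt := hM P hab t (Or.inl rfl)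
  have hMr := hM P hab r (Or.inr rfl)
  have hpt : ∀ Y ∈ DD n, ((hn t Y).choose a : ℝ) * (hn r Y).choose b ≤
      ((JM_S (LB_H h1 Y W.ht) (LB_H h1 Y hr) (-(t : ℤ)) (-(r : ℤ)) a b).card : ℝ) +
        (μ * I Y + 2 * ((hn t Y : ℝ) ^ P + (hn r Y : ℝ) ^ P) / μ) := by
    intro Y _
    have h5 := JM_diff (LB_H h1 Y W.ht) (LB_H h1 Y hr) (-(t : ℤ)) (-(r : ℤ)) a b
    have h6 := JM_I_card (LB_H h1 Y W.ht) (LB_H h1 Y hr) (-(t : ℤ)) (-(r : ℤ))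
    rw [LB_card_H] at h6
    rw [LB_card_H, LB_card_H] at h5
    have h7 : ((hn t Y).choose a : ℝ) * (hn r Y).choose b ≤
        ((JM_S (LB_H h1 Y W.ht) (LB_H h1 Y hr) (-(t : ℤ)) (-(r : ℤ)) a b).card : ℝ) +
          (I Y : ℝ) * ((hn t Y : ℝ) ^ (a - 1) * (hn r Y : ℝ) ^ (b - 1)) := by
      exact_mod_cast h5
    refine h7.trans ?_
    have h8 : (I Y : ℝ) ≤ 2 * hn t Y := by exact_mod_cast h6
    set x : ℝ := (hn t Y : ℝ) with hx
    set y : ℝ := (hn r Y : ℝ) with hy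
    have hx0 : 0 ≤ x := Nat.cast_nonneg _
    have hy0 : 0 ≤ y := Nat.cast_nonneg _
    set Z : ℝ := x ^ (a - 1) * y ^ (b - 1) with hZ
    have hZ0 : 0 ≤ Z := by positivity
    have hI0 : (0 : ℝ) ≤ I Y := Nat.cast_nonneg _
    have h9 : (I Y : ℝ) * Z ≤ μ * I Y + I Y * Z ^ 2 / μ := by
      have h10 : Z ≤ μ + Z ^ 2 / μ := by
        have h11 : 0 ≤ (μ - Z) ^ 2 := sq_nonneg _
        have h12 : (μ + Z ^ 2 / μ) * μ = μ ^ 2 + Z ^ 2 := by field_simp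
        have h13 : Z * μ ≤ (μ + Z ^ 2 / μ) * μ := by rw [h12]; nlinarith
        exact le_of_mul_le_mul_right h13 hμ
      calc (I Y : ℝ) * Z ≤ I Y * (μ + Z ^ 2 / μ) := by gcongr
        _ = _ := by ring
    have h10 : (I Y : ℝ) * Z ^ 2 ≤ 2 * (x ^ P + y ^ P) := by
      have h11 : x * Z ^ 2 ≤ x ^ P + y ^ P := by
        have e : x * Z ^ 2 = x ^ (1 + 2 * (a - 1)) * y ^ (2 * (b - 1)) := by
          rw [hZ]; ring
        rw [e]
        rcases le_total x y with hxy | hxy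
        · calc x ^ (1 + 2 * (a - 1)) * y ^ (2 * (b - 1)) ≤
                y ^ (1 + 2 * (a - 1)) * y ^ (2 * (b - 1)) := by gcongr
            _ = y ^ P := by rw [← pow_add]
            _ ≤ _ := by have : 0 ≤ x ^ P := by positivity
                        linarith
        · calc x ^ (1 + 2 * (a - 1)) * y ^ (2 * (b - 1)) ≤
                x ^ (1 + 2 * (a - 1)) * x ^ (2 * (b - 1)) := by gcongr
            _ = x ^ P := by rw [← pow_add]
            _ ≤ _ := by have : 0 ≤ y ^ P := by positivity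
                        linarith
      calc (I Y : ℝ) * Z ^ 2 ≤ (2 * x) * Z ^ 2 := by gcongr
        _ = 2 * (x * Z ^ 2) := by ring
        _ ≤ _ := by gcongr
    have h11 : (I Y : ℝ) * Z ^ 2 / μ ≤ 2 * (x ^ P + y ^ P) / μ := by gcongr
    linarith
  have hs := Finset.sum_le_sum hpt
  have e1 : ∑ Y ∈ DD n, (((JM_S (LB_H h1 Y W.ht) (LB_H h1 Y hr) (-(t : ℤ)) (-(r : ℤ)) a b).card : ℝ)
        + (μ * I Y + 2 * ((hn t Y : ℝ) ^ P + (hn r Y : ℝ) ^ P) / μ)) =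
      ∑ Y ∈ DD n, ((JM_S (LB_H h1 Y W.ht) (LB_H h1 Y hr) (-(t : ℤ)) (-(r : ℤ)) a b).card : ℝ) +
        (μ * ∑ Y ∈ DD n, (I Y : ℝ) + 2 / μ * (∑ Y ∈ DD n, (hn t Y : ℝ) ^ P +
          ∑ Y ∈ DD n, (hn r Y : ℝ) ^ P)) := by
    rw [Finset.sum_add_distrib, Finset.sum_add_distrib, ← Finset.sum_add_distrib (s := DD n)
      (f := fun Y => (hn t Y : ℝ) ^ P), Finset.mul_sum, Finset.mul_sum]
    congr 2
    exact Finset.sum_congr rfl fun Y _ => by ring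
  rw [e1] at hs
  calc (∑ Y ∈ DD n, ((hn t Y).choose a : ℝ) * (hn r Y).choose b) / pp n ≤
        (∑ Y ∈ DD n, ((JM_S (LB_H h1 Y W.ht) (LB_H h1 Y hr) (-(t : ℤ)) (-(r : ℤ)) a b).card : ℝ) +
        (μ * ∑ Y ∈ DD n, (I Y : ℝ) + 2 / μ * (∑ Y ∈ DD n, (hn t Y : ℝ) ^ P +
          ∑ Y ∈ DD n, (hn r Y : ℝ) ^ P))) / pp n := by gcongr
    _ = (∑ Y ∈ DD n, ((JM_S (LB_H h1 Y W.ht) (LB_H h1 Y hr) (-(t : ℤ)) (-(r : ℤ)) a b).card : ℝ)) /
        pp n + (μ * ((∑ Y ∈ DD n, (I Y : ℝ)) / pp n) +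
        2 / μ * ((∑ Y ∈ DD n, (hn t Y : ℝ) ^ P) / pp n + (∑ Y ∈ DD n, (hn r Y : ℝ) ^ P) / pp n)) := by
        ring
    _ ≤ (∑ Y ∈ DD n, ((JM_S (LB_H h1 Y W.ht) (LB_H h1 Y hr) (-(t : ℤ)) (-(r : ℤ)) a b).card : ℝ)) /
        pp n + (μ * (64 * Q * (32 * Q / δ + 2) / Real.log n) + 2 / μ * (M + M)) := by gcongr
    _ = _ := by ring

/-- row JM -/
theorem row_JM (h0 : DDc_stmt) (h1 : BD1_stmt) (h2 : BD2_stmt) (h4 : BD4_stmt) (hF : FQ_stmt)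
    (hS : JS_stmt) : JM_stmt := by
  intro η C N0 hP J0 Q0 δ ε hδ hε
  set Q : ℝ := max Q0 1 with hQ
  have hQ1 : 1 ≤ Q := le_max_right _ _
  have hQ0 : 0 < Q := by linarith
  set J : ℕ := 2 * J0 + 1 with hJ
  have hJ1 : 1 ≤ J := by omega
  have hJ' : (1 : ℝ) ≤ J := by exact_mod_cast hJ1
  set B : ℝ := (1 + Q) ^ J with hB
  have hB0 : 0 < B := by positivity
  set κ : ℝ := min 1 (ε / (8 * B)) with hκ
  have hκ0 : 0 < κ := lt_min one_pos (by positivity)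
  have hκ1 : κ ≤ 1 := min_le_left _ _
  have hκB : κ * B ≤ ε / 8 := by
    have : κ ≤ ε / (8 * B) := min_le_right _ _
    calc κ * B ≤ ε / (8 * B) * B := by gcongr
      _ = ε / 8 := by field_simp
  set M : ℝ := (J.factorial : ℝ) * 2 ^ J * (2 * ((J : ℝ) + 1) * (2 * Q + 1) ^ J) with hM
  have hM0 : 0 < M := by positivity
  set μ : ℝ := 16 * M / ε with hμ
  have hμ0 : 0 < μ := by positivity
  set K0 : ℝ := 64 * Q * (32 * Q / δ + 2) with hK0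
  have hK00 : 0 < K0 := by positivity
  obtain ⟨N, hN⟩ := JM_win_ev hP J hQ0 hδ hκ0 hκ1
    (max (6 * (J : ℝ) ^ 2) (max (48 * (J : ℝ) ^ 2 * B / ε) (4 * μ * K0 / ε)))
  refine ⟨N, fun n hn t r ht htr hqt hqr a b hab => ?_⟩
  obtain ⟨hLK, hwin⟩ := hN n hn
  have W := hwin t r ht htr (hqt.trans (le_max_left _ _)) hqr
  have hr : 1 ≤ r := by
    have := W.ht
    omega
  have g1 : 6 * (J : ℝ) ^ 2 ≤ Real.log n := (le_max_left _ _).trans hLK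
  have g2 : 48 * (J : ℝ) ^ 2 * B / ε ≤ Real.log n :=
    (le_max_left _ _).trans ((le_max_right _ _).trans hLK)
  have g3 : 4 * μ * K0 / ε ≤ Real.log n :=
    (le_max_right _ _).trans ((le_max_right _ _).trans hLK)
  have hL := W.L1
  have hLpos : 0 < Real.log n := by linarith
  have hρ : (J : ℝ) * (3 * J / Real.log n) ≤ 1 / 2 := by
    rw [mul_div_assoc', div_le_iff₀ hLpos]
    nlinarith
  have hp := MU_pp_pos n
  have hmain := JM_main h0 h1 h4 hF hS W hJ1 hr (a := a) (b := b) (by omega) hρ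
  have hmom : ∀ P ≤ J, ∀ s : ℕ, (s = t ∨ s = r) →
      (∑ Y ∈ DD n, (ZT68.hn s Y : ℝ) ^ P) / pp n ≤ M := by
    intro P hPJ s hs
    refine (JMa_mom h0 hF W hPJ hs).trans ?_
    have f1 : (P.factorial : ℝ) ≤ J.factorial := by exact_mod_cast Nat.factorial_le hPJ
    have f2 : (2 : ℝ) ^ P ≤ 2 ^ J := pow_le_pow_right₀ (by norm_num) hPJ
    have f3 : (2 * Q + 1) ^ P ≤ (2 * Q + 1) ^ J := pow_le_pow_right₀ (by linarith) hPJ
    have f4 : (P : ℝ) ≤ J := by exact_mod_cast hPJ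
    rw [hM]
    gcongr
  have herr := JM_err h0 h1 h2 h4 hF W hJ1 hr (a := a) (b := b) (by omega) hμ0 hmom
  have hlow : (∑ Y ∈ DD n, ((JM_S (LB_H h1 Y W.ht) (LB_H h1 Y hr) (-(t : ℤ)) (-(r : ℤ)) a b).card :
      ℝ)) / pp n ≤ (∑ Y ∈ DD n, ((ZT68.hn t Y).choose a : ℝ) * (ZT68.hn r Y).choose b) / pp n := by
    gcongr with Y _
    have := JM_up (LB_H h1 Y W.ht) (LB_H h1 Y hr) (-(t : ℤ)) (-(r : ℤ)) a b
    rw [LB_card_H, LB_card_H] at this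
    exact_mod_cast this
  -- numbers
  have n1 : (κ + 12 * (J : ℝ) ^ 2 / Real.log n) * (1 + Q) ^ J ≤ ε / 2 := by
    have h5 : 12 * (J : ℝ) ^ 2 / Real.log n * B ≤ ε / 4 := by
      rw [div_mul_eq_mul_div, div_le_iff₀ hLpos]
      rw [div_le_iff₀ hε] at g2
      linarith
    have h6 : (κ + 12 * (J : ℝ) ^ 2 / Real.log n) * B = κ * B + 12 * (J : ℝ) ^ 2 / Real.log n * B := by
      ring
    rw [← hB, h6]
    linarith
  have n2 : μ * (64 * Q * (32 * Q / δ + 2) / Real.log n) ≤ ε / 4 := by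
    rw [← hK0, mul_div_assoc', div_le_iff₀ hLpos]
    rw [div_le_iff₀ hε] at g3
    linarith
  have n3 : 4 * M / μ = ε / 4 := by
    rw [hμ]
    field_simp
    norm_num
  rw [n3] at herr
  have m1 := (abs_le.1 hmain).1
  have m2 := (abs_le.1 hmain).2
  rw [abs_le]
  constructor <;> linarith

end ZT68
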