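/-
MP_1882ea_al, helper68.  The theorem of the third stage, without hypotheses.
-/
import Mathlib
import Pool.Agent.Lib.ZT68.Fin3
import Pool.Agent.Lib.ZT68.JM
import Pool.Agent.Lib.ZT68.JD

namespace ZT68

open Finset Filter Topology

theorem all_JS : JS_stmt := row_JS row_BD1 row_BD2 row_BD3 row_BD4

theorem all_JM : JM_stmt := row_JM row_DDc row_BD1 row_BD2 row_BD4 all_FQ all_JS

theorem all_final3 :
    ∃ c : ℝ, 0 < c ∧ ∀ ε : ℝ, 0 < ε → ∃ N : ℕ, ∀ n ≥ N, ∀ k : ℕ, 1 ≤ k → (k : ℝ) ≤ c * √(n : ℝ) →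
      |(zL k n - zI n) * (Real.log n) ^ 2 - 2| ≤ ε :=
  pre_final3 all_JM row_JD

theorem all_ratio :
    ∃ c : ℝ, 0 < c ∧ ∀ ε : ℝ, 0 < ε → ∃ N : ℕ, ∀ n ≥ N, ∀ k : ℕ, 1 ≤ k → (k : ℝ) ≤ c * √(n : ℝ) →
      |(1 - zI n / zL k n) * Real.log n - 1| ≤ ε :=
  pre_ratio all_JM row_JD

end ZT68
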