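/-
MP_1882ea_al, helper53.  Row GR of the tank ZT: greedy choice of hooks.
-/
import Mathlib
import Pool.Agent.Lib.ZT68.Defs

namespace ZT68

open Finset

/-- hooks `(r, x)` which do not disturb each other -/
def GR_Good (S : Set ℤ) (P : Multiset (ℕ × ℤ)) : Prop :=
  (∀ p ∈ P, p.2 ∈ Hk S p.1) ∧ (P.map Prod.snd).Nodup ∧ (P.map (fun p => p.2 - (p.1 : ℤ))).Nodup

theorem GR_chain (L : List (ℕ × ℤ)) : ∀ S : Set ℤ, GR_Good S (L : Multiset (ℕ × ℤ)) →
    Chain S (L.map Prod.fst) := by
  induction L with
  | nil => intro S _; simp [Chain]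
  | cons p L ih =>
    intro S hG
    obtain ⟨h1, h2, h3⟩ := hG
    rw [← Multiset.cons_coe] at h1 h2 h3
    rw [Multiset.map_cons, Multiset.nodup_cons] at h2 h3
    refine ⟨p.2, h1 p (Multiset.mem_cons_self _ _), ih _ ⟨?_, h2.2, h3.2⟩⟩
    intro q hq
    have hqS := h1 q (Multiset.mem_cons_of_mem hq)
    have hne : q.2 ≠ p.2 := by
      intro h
      exact h2.1 (h ▸ Multiset.mem_map_of_mem Prod.snd hq)
    have hne' : q.2 - (q.1 : ℤ) ≠ p.2 - (p.1 : ℤ) := by
      intro h
      apply h3.1
      rw [← h]
      exact Multiset.mem_map_of_mem (fun p : ℕ × ℤ => p.2 - (p.1 : ℤ)) hq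
    refine ⟨?_, ?_⟩
    · simp only [mv, Set.mem_insert_iff, Set.mem_sdiff, Set.mem_singleton_iff]
      exact Or.inr ⟨hqS.1, hne⟩
    · simp only [mv, Set.mem_insert_iff, Set.mem_sdiff, Set.mem_singleton_iff, not_or, not_and]
      exact ⟨hne', fun h => absurd h hqS.2⟩

theorem GR_lift (rs : List ℕ) : ∀ P : Multiset (ℕ × ℤ), P.map Prod.fst = (rs : Multiset ℕ) →
    ∃ L : List (ℕ × ℤ), (L : Multiset (ℕ × ℤ)) = P ∧ L.map Prod.fst = rs := by
  induction rs with
  | nil =>
    intro P hP
    have : P = 0 := by
      have h : P.map Prod.fst = 0 := by simpa using hP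
      exact Multiset.map_eq_zero.1 h
    exact ⟨[], by simp [this], rfl⟩
  | cons r rs ih =>
    intro P hP
    have hr : r ∈ P.map Prod.fst := by rw [hP]; simp
    obtain ⟨p, hp, hpr⟩ := Multiset.mem_map.1 hr
    obtain ⟨P', rfl⟩ := Multiset.exists_cons_of_mem hp
    rw [Multiset.map_cons, hpr, ← Multiset.cons_coe, Multiset.cons_inj_right] at hP
    obtain ⟨L, hL, hL'⟩ := ih P' hP
    exact ⟨p :: L, by rw [← Multiset.cons_coe, hL], by simp [hL', hpr]⟩

theorem GR_greedy (S : Set ℤ) (l : List ℕ) :
    (∀ p r q, l = p ++ r :: q → (Hk S r).Finite ∧ 2 * p.length + 1 ≤ (Hk S r).ncard) →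
    ∃ P : Multiset (ℕ × ℤ), P.map Prod.fst = (l : Multiset ℕ) ∧ GR_Good S P := by
  classical
  induction l using List.reverseRecOn with
  | nil => intro _; exact ⟨0, by simp, by simp, by simp, by simp⟩
  | append_singleton l r ih =>
    intro h
    obtain ⟨P, hP, hG⟩ := ih (fun p r' q e => h p r' (q ++ [r]) (by rw [e]; simp))
    obtain ⟨hf, hc⟩ := h l r [] rfl
    have hcard : P.card = l.length := by
      have := congrArg Multiset.card hP
      simpa using this
    set E : Finset ℤ := (P.map Prod.snd).toFinset ∪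
      (P.map (fun p : ℕ × ℤ => p.2 - (p.1 : ℤ) + (r : ℤ))).toFinset with hE
    have hEc : E.card ≤ 2 * l.length := by
      refine (Finset.card_union_le _ _).trans ?_
      have h1 := Multiset.toFinset_card_le (P.map Prod.snd)
      have h2 := Multiset.toFinset_card_le (P.map (fun p : ℕ × ℤ => p.2 - (p.1 : ℤ) + (r : ℤ)))
      rw [Multiset.card_map, hcard] at h1 h2
      omega
    obtain ⟨x, hx, hxE⟩ : ∃ x ∈ Hk S r, x ∉ (E : Set ℤ) := by
      refine Set.exists_mem_notMem_of_ncard_lt_ncard ?_ E.finite_toSet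
      rw [Set.ncard_coe_finset]
      omega
    have hx1 : x ∉ P.map Prod.snd := by
      intro h'
      exact hxE (by rw [hE]; simp only [Finset.coe_union, Set.mem_union, Finset.mem_coe, Multiset.mem_toFinset]; exact Or.inl h')
    have hx2 : x - (r : ℤ) ∉ P.map (fun p : ℕ × ℤ => p.2 - (p.1 : ℤ)) := by
      intro h'
      obtain ⟨p, hp, hpe⟩ := Multiset.mem_map.1 h'
      apply hxE
      rw [hE]
      simp only [Finset.coe_union, Set.mem_union, Finset.mem_coe, Multiset.mem_toFinset]
      right
      exact Multiset.mem_map.2 ⟨p, hp, by rw [hpe]; ring⟩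
    refine ⟨(r, x) ::ₘ P, ?_, ?_, ?_, ?_⟩
    · rw [Multiset.map_cons, hP, Multiset.cons_coe, Multiset.coe_eq_coe]
      exact (List.perm_append_singleton r l).symm
    · intro p hp
      rcases Multiset.mem_cons.1 hp with rfl | hp
      · exact hx
      · exact hG.1 p hp
    · rw [Multiset.map_cons, Multiset.nodup_cons]
      exact ⟨hx1, hG.2.1⟩
    · rw [Multiset.map_cons, Multiset.nodup_cons]
      exact ⟨hx2, hG.2.2⟩

/-- row GR -/
theorem row_GR : GR_stmt := by
  classical
  intro S rs M k hM hlen hfin hch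
  by_contra hno
  push Not at hno
  apply hch
  set l : List ℕ := rs.mergeSort (fun a b => decide (b ≤ a)) with hl
  have hperm : l.Perm rs := List.mergeSort_perm _ _
  have hsort : l.Pairwise (fun a b => b ≤ a) := by
    have := List.pairwise_mergeSort (le := fun a b : ℕ => decide (b ≤ a))
      (fun a b c h1 h2 => by simp only [decide_eq_true_eq] at *; omega)
      (fun a b => by simp only [Bool.or_eq_true, decide_eq_true_eq]; omega) rs
    simpa using this
  obtain ⟨P, hP, hG⟩ := GR_greedy S l (by
    intro p r q e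
    have hr : r ∈ rs := hperm.subset (by rw [e]; simp)
    refine ⟨hfin r hr, ?_⟩
    have hrM : r ∈ M := Multiset.mem_of_le hM (by simpa using hr)
    have h1 := hno r hrM
    have hlM : (l : Multiset ℕ) ≤ M := by rw [Multiset.coe_eq_coe.2 hperm]; exact hM
    have hW : p.length + 1 ≤ (M.filter (fun s => r ≤ s)).card := by
      refine le_trans ?_ (Multiset.card_le_card (Multiset.filter_le_filter _ hlM))
      have hsub : ((p ++ [r] : List ℕ) : Multiset ℕ) ≤ (l : Multiset ℕ).filter (fun s => r ≤ s) := by
        rw [Multiset.le_filter]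
        constructor
        · rw [e]
          refine (List.Sublist.subperm ?_)
          exact List.Sublist.append (List.Sublist.refl _) (by simp)
        · intro s hs
          have hs' : s ∈ p ++ [r] := by simpa using hs
          rw [e] at hsort
          rw [List.pairwise_append] at hsort
          rcases List.mem_append.1 hs' with hs' | hs'
          · exact hsort.2.2 s hs' r (by simp)
          · simp at hs'; omega
      have := Multiset.card_le_card hsub
      simpa using this
    have hk : p.length + 1 ≤ k := by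
      have : l.length = rs.length := hperm.length_eq
      rw [e] at this
      simp at this
      omega
    have hmin : p.length + 1 ≤ min ((M.filter (fun s => r ≤ s)).card) k := le_min hW hk
    omega)
  rw [Multiset.coe_eq_coe.2 hperm] at hP
  obtain ⟨L, rfl, hL'⟩ := GR_lift rs P hP
  rw [← hL']
  exact GR_chain L S hG

end ZT68
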